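import Pool.Agent.W_7d29a1_G.Defs1
import Pool.Agent.W_7d29a1_h4g.VarL

/-!
Track G (MP_7d29a1_pr), unit (D1): growth at soft scales (hG), the upper bound (hV) of the unit at soft scales (Efron - Stein), and
(MC), for the names of `Defs1`. (helper4)
-/

namespace Pool.Agent.W_7d29a1_G

open MeasureTheory ProbabilityTheory Filter Topology Pool.Agent.W_7d29a1_F Pool.Agent.W_7d29a1_h4g

noncomputable section

variable {μ : Measure ℝ} [IsProbabilityMeasure μ]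

lemma one_le_EE (n : ℕ) : 1 ≤ EE μ n := one_le_EU n

lemma EE_pos (n : ℕ) : 0 < EE μ n := lt_of_lt_of_le one_pos (one_le_EE n)

lemma EE_mono : Monotone (EE μ) := EU_mono

lemma ref_le_EE {m n : ℕ} (h : m ≤ n) : ∫ η, max (X μ 0 η 0 m (md m)) 0 ∂(law μ) ≤ EE μ n := by
  have := ref_le_EU (μ := μ) (s := 0) (z := md) h
  unfold EE
  linarith

lemma gg_nonneg (x : ℕ) : 0 ≤ gg μ x := Real.logb_nonneg one_lt_two (one_le_EE _)

lemma gg_mono : Monotone (gg μ) := fun x y h =>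
  Real.logb_le_logb_of_le one_lt_two (EE_pos _) (EE_mono (Nat.pow_le_pow_right (by norm_num) h))

/-- Soft is monotone in the level. -/
theorem Sf.mono {x : ℕ} {α β : ℝ} (h : Sf μ x α) (hαβ : α ≤ β) : Sf μ x β := by
  obtain ⟨l, G, h1, h2, hpos, hle, h3, h4⟩ := h
  have hE := (EE_pos (μ := μ) (2 ^ x)).le
  have k1 : (2 : ℝ) ^ α ≤ 2 ^ β := Real.rpow_le_rpow_of_exponent_le one_le_two hαβ
  have k2 : (2 : ℝ) ^ (-β) ≤ 2 ^ (-α) := Real.rpow_le_rpow_of_exponent_le one_le_two (by linarith)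
  refine ⟨l, G, h1.trans (Real.rpow_le_rpow_of_exponent_le one_le_two (by linarith)), h2, hpos, hle, ?_, ?_⟩
  · have := mul_le_mul_of_nonneg_right k1 hE
    linarith
  · refine k2.trans (h4.trans (measureReal_mono (fun η hη => ?_) (measure_ne_top _ _)))
    rw [Set.mem_ofPred_eq] at hη ⊢
    exact (mul_le_mul_of_nonneg_right k2 hE).trans hη

omit [IsProbabilityMeasure μ] in
/-- Not soft: every functional of the class is concentrated. -/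
theorem conc_of_not_Sf {x : ℕ} {α : ℝ} (h : ¬ Sf μ x α) {l : ℕ} (hl : (l : ℝ) ≤ (2 : ℝ) ^ ((x : ℝ) + α)) {G : Env → ℝ}
    (hP : Poly (rows 0 l) G) (hG : ∀ η, 0 < G η) (hV : ∀ η, Real.log (G η) ≤ V μ 0 η 0 l)
    (hm : -((2 : ℝ) ^ α * EE μ (2 ^ x)) ≤ ∫ η, Real.log (G η) ∂(law μ)) :
    (law μ).real {η | (2 : ℝ) ^ (-α) * EE μ (2 ^ x) ≤ |Real.log (G η) - ∫ ξ, Real.log (G ξ) ∂(law μ)|} < (2 : ℝ) ^ (-α) := by
  by_contra hcon
  exact h ⟨l, G, hl, hP, hG, hV, hm, not_lt.1 hcon⟩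

/-- GROWTH AT SOFT SCALES, with any factor. -/
theorem grow_of_Sf (hEM : Pool.Agent.W_7d29a1_h47.EM μ) (hnd : Pool.Agent.W_7d29a1_h47.Nondeg μ)
    (hEE : Tendsto (EE μ) atTop atTop) (α : ℝ) {B : ℝ} (hB : 0 ≤ B) :
    ∃ T x0 : ℕ, ∀ x, x0 ≤ x → Sf μ x α → B * EE μ (2 ^ x) ≤ EE μ (2 ^ (x + T)) := by
  have h2a : (0 : ℝ) < 2 ^ α := Real.rpow_pos_of_pos two_pos _
  obtain ⟨U₀, D, hg⟩ := growth (LAfor_all hEM hnd) hEM (c := 2 ^ (-α)) (K := 2 ^ α + 6 * B)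
    (Real.rpow_pos_of_pos two_pos _) (by positivity)
  obtain ⟨T, hT⟩ := pow_unbounded_of_one_lt (|D| * 2 ^ α) (one_lt_two : (1 : ℝ) < 2)
  have ht : Tendsto (fun x : ℕ => EE μ (2 ^ x)) atTop atTop := hEE.comp (tendsto_pow_atTop_atTop_of_one_lt one_lt_two)
  obtain ⟨x1, hx1⟩ := Filter.eventually_atTop.1 (ht.eventually_ge_atTop U₀)
  refine ⟨T, x1, fun x hx hS => ?_⟩
  obtain ⟨l, G, hl, hP, hG, hGV, hmean, hfl⟩ := hS
  have hDM : D * l ≤ ((2 ^ (x + T) : ℕ) : ℝ) := by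
    push_cast
    have e1 : (2 : ℝ) ^ ((x : ℝ) + α) = 2 ^ x * 2 ^ α := by
      rw [Real.rpow_add two_pos, Real.rpow_natCast]
    rw [e1] at hl
    have e2 : D * l ≤ |D| * l := mul_le_mul_of_nonneg_right (le_abs_self D) (Nat.cast_nonneg l)
    have e3 : |D| * l ≤ |D| * (2 ^ x * 2 ^ α) := mul_le_mul_of_nonneg_left hl (abs_nonneg D)
    have e4 : |D| * (2 ^ x * 2 ^ α) = 2 ^ x * (|D| * 2 ^ α) := by ring
    have e5 : (2 : ℝ) ^ x * (|D| * 2 ^ α) ≤ 2 ^ x * 2 ^ T := mul_le_mul_of_nonneg_left hT.le (by positivity)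
    rw [pow_add]
    linarith
  have h1 := hg 0 l (2 ^ (x + T)) md (EE μ (2 ^ (x + T))) (fun m _ => ⟨md_nonneg m, md_le m⟩)
    (fun m hm => ref_le_EE hm) hDM G hP hG hGV (EE μ (2 ^ x)) (hx1 x hx) hfl
  nlinarith

/-- (hG): at a soft scale the unit doubles within `T` octaves. -/
theorem hG1 (hEM : Pool.Agent.W_7d29a1_h47.EM μ) (hnd : Pool.Agent.W_7d29a1_h47.Nondeg μ)
    (hEE : Tendsto (EE μ) atTop atTop) (α : ℝ) :
    ∃ T x0 : ℕ, ∀ x, x0 ≤ x → Sf μ x α → gg μ x + 1 ≤ gg μ (x + T) := by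
  obtain ⟨T, x0, h⟩ := grow_of_Sf hEM hnd hEE α (B := 2) (by norm_num)
  refine ⟨T, x0, fun x hx hS => ?_⟩
  have h1 := h x hx hS
  have h2 := EE_pos (μ := μ) (2 ^ x)
  have h3 : Real.logb 2 (2 * EE μ (2 ^ x)) ≤ Real.logb 2 (EE μ (2 ^ (x + T))) :=
    Real.logb_le_logb_of_le one_lt_two (by positivity) h1
  rw [Real.logb_mul two_ne_zero h2.ne', Real.logb_self_eq_one one_lt_two] at h3
  unfold gg
  linarith

/-- (hV): at a soft scale the unit is at most of the order of the square root of the time. -/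
theorem hV1 (hEM : Pool.Agent.W_7d29a1_h47.EM μ) (α : ℝ) :
    ∃ C : ℝ, ∀ x : ℕ, Sf μ x α → gg μ x ≤ x / 2 + C := by
  obtain ⟨C, hC0, hC⟩ := cheb_law hEM
  refine ⟨(4 * α + Real.logb 2 (C + 1)) / 2, fun x hS => ?_⟩
  obtain ⟨l, G, hl, hP, hG, hGV, hmean, hfl⟩ := hS
  obtain ⟨E, hE⟩ : ∃ E, E = EE μ (2 ^ x) := ⟨_, rfl⟩
  have hE0 : 0 < E := by
    rw [hE]
    exact EE_pos _
  rw [← hE] at hfl
  have h2a : (0 : ℝ) < 2 ^ (-α) := Real.rpow_pos_of_pos two_pos _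
  have h1 := hC 0 _ G l hP hG hGV (2 ^ (-α) * E) (by positivity)
  have h2 : (2 ^ (-α) * E) ^ 2 * 2 ^ (-α) ≤ C * l := (mul_le_mul_of_nonneg_left hfl (sq_nonneg _)).trans h1
  have h3 : C * l ≤ (C + 1) * 2 ^ ((x : ℝ) + α) := by
    have : (0 : ℝ) ≤ l := Nat.cast_nonneg l
    nlinarith
  have h4 : (2 ^ (-α) * E) ^ 2 * 2 ^ (-α) ≤ (C + 1) * 2 ^ ((x : ℝ) + α) := h2.trans h3
  have h5 := Real.logb_le_logb_of_le one_lt_two (by positivity) h4
  have hp : (0 : ℝ) < 2 ^ ((x : ℝ) + α) := Real.rpow_pos_of_pos two_pos _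
  rw [Real.logb_mul (by positivity) h2a.ne', Real.logb_pow, Real.logb_mul h2a.ne' hE0.ne',
    Real.logb_rpow two_pos (by norm_num), Real.logb_mul (by linarith) hp.ne', Real.logb_rpow two_pos (by norm_num)] at h5
  have h6 : gg μ x = Real.logb 2 E := by rw [gg, hE]
  rw [h6]
  push_cast at h5
  linarith

/-- (MC) in the unit: cheap with probability `p` implies cheap in the mean. -/
theorem mean_of_prob_EE (hEM : Pool.Agent.W_7d29a1_h47.EM μ) (hnd : Pool.Agent.W_7d29a1_h47.Nondeg μ) {p : ℝ}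
    (hp : 0 < p) : ∃ (T : ℕ) (C : ℝ), ∀ l n : ℕ, T * l ≤ n → ∀ G : Env → ℝ, Poly (rows 0 l) G → (∀ η, 0 < G η) →
    (∀ η, Real.log (G η) ≤ V μ 0 η 0 l) → ∀ y : ℝ, p ≤ (law μ).real {η | -y ≤ Real.log (G η)} →
    -∫ η, Real.log (G η) ∂(law μ) ≤ max (max (2 * y) C) (6 * EE μ n) := by
  obtain ⟨C, D, hg⟩ := mean_of_prob (LAfor_all hEM hnd) hEM hp
  obtain ⟨T, hT⟩ := exists_nat_ge D
  refine ⟨T, C, fun l n hTn G hP hG hGV y hy => ?_⟩
  refine hg 0 l n md (EE μ n) (fun m _ => ⟨md_nonneg m, md_le m⟩) (fun m hm => ref_le_EE hm) ?_ G hP hG hGV y hy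
  refine (mul_le_mul_of_nonneg_right hT (Nat.cast_nonneg l)).trans ?_
  exact_mod_cast hTn

end

end Pool.Agent.W_7d29a1_G
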