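import Pool.Agent.W_7d29a1_G.Defs1
import Pool.Agent.W_7d29a1_g.Finish2

/-!
MP_7d29a1_pr, track G: the interface. Each `def` below is one hypothesis of `chainS2` for
`g = gg μ` (`log₂` of the unit (D1) along the octaves), `f = ff μ 1` (closing of the cone, level `1`: `n J(v_n) = E(n)`) and
`S = Sf μ` (soft scales). Every section of the master text proves one of them.
-/

namespace Pool.Agent.W_7d29a1_G

open MeasureTheory ProbabilityTheory Filter Topology Pool.Agent.W_7d29a1_F Pool.Agent.W_7d29a1_h4g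

/-- Section D4 (row 619): growth on a stretch without soft scale. -/
def HS (μ : Measure ℝ) : Prop :=
  ∃ (P : ℕ → Prop) (α C : ℝ) (k x₀ : ℕ),
    (∀ y x, x₀ ≤ y → y ≤ x → (∀ z, y ≤ z → z < x → P z) →
      gg μ x - gg μ y ≤ (ff μ 1 x - ff μ 1 y) / 4 + C) ∧
    ∀ x, x₀ ≤ x → ¬ P x → ∃ y, x ≤ y + k ∧ y ≤ x + k ∧ Sf μ y α

/-- Single sites (Newman - Piza in probability): the level `α₀` is the one of `HB`. -/
def HB0 (μ : Measure ℝ) (α₀ : ℝ) : Prop :=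
  ∃ C₀ : ℝ, ∀ x : ℕ, Sf μ x (max (gg μ x - ff μ 1 x / 2 + C₀) α₀)

/-- Section B (slab insertion): the volume argument with the blocks of a soft scale. -/
def HB (μ : Measure ℝ) (α₀ : ℝ) : Prop :=
  ∀ a₁ : ℝ, ∃ C : ℝ, ∀ T : ℕ, ∃ y₀ : ℕ, ∀ y x, y₀ ≤ y → y ≤ x → x ≤ y + T → Sf μ y a₁ →
    Sf μ x (max (gg μ x - gg μ y - (ff μ 1 x - ff μ 1 y) / 2 + C) α₀)

/-- Growth at soft scales (LA and (2c')). -/
def HG (μ : Measure ℝ) : Prop :=
  ∀ a₁ : ℝ, ∃ T x₀ : ℕ, ∀ x, x₀ ≤ x → Sf μ x a₁ → gg μ x + 1 ≤ gg μ (x + T)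

/-- Upper bound of the unit at soft scales (Efron - Stein). -/
def HV (μ : Measure ℝ) : Prop :=
  ∀ a₁ : ℝ, ∃ C : ℝ, ∀ x : ℕ, Sf μ x a₁ → gg μ x ≤ x / 2 + C

/-- The last step: if all scales are soft at one level, the unit doubles in boundedly many octaves and is at most of the order of the
square root of the time, then the cone closes in every window in which the unit grows at most by `3 / 4` per octave. -/
def HF2 (μ : Measure ℝ) : Prop :=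
  ∀ (T x₀ : ℕ) (b : ℝ), (∀ x, x₀ ≤ x → gg μ x + 1 ≤ gg μ (x + T)) → (∀ x, x₀ ≤ x → Sf μ x b) →
    (∀ x : ℕ, gg μ x ≤ (x : ℝ) / 2 + b) → ∃ (L x₁ : ℕ) (δ : ℝ), 0 < δ ∧ ∀ x, x₁ ≤ x →
      (∀ j : ℕ, j ≤ L → gg μ (x + j) ≤ gg μ x + 3 / 4 * j) → ff μ 1 x + δ ≤ ff μ 1 (x + L)

/-- The elementary facts: the soft predicate is monotone, the unit and the cone are monotone, the cone closes (THEOREM F). -/
structure Elem (μ : Measure ℝ) : Prop where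
  smono : ∀ (x : ℕ) (α β : ℝ), α ≤ β → Sf μ x α → Sf μ x β
  gmono : ∀ y x, y ≤ x → gg μ y ≤ gg μ x
  gstep : ∀ x, gg μ (x + 1) ≤ gg μ x + 1
  fmono : Monotone (ff μ 1)
  ftop : Tendsto (ff μ 1) atTop atTop

/-- The level `α₀` may be enlarged. -/
theorem HB0.mono {μ : Measure ℝ} {α β : ℝ} (hs : ∀ (x : ℕ) (α β : ℝ), α ≤ β → Sf μ x α → Sf μ x β) (h : HB0 μ α) (hαβ : α ≤ β) :
    HB0 μ β := by
  obtain ⟨C₀, h⟩ := h
  exact ⟨C₀, fun x => hs x _ _ (max_le_max_left _ hαβ) (h x)⟩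

/-- The level `α₀` may be enlarged. -/
theorem HB.mono {μ : Measure ℝ} {α β : ℝ} (hs : ∀ (x : ℕ) (α β : ℝ), α ≤ β → Sf μ x α → Sf μ x β) (h : HB μ α) (hαβ : α ≤ β) :
    HB μ β := by
  intro a₁
  obtain ⟨C, h⟩ := h a₁
  refine ⟨C, fun T => ?_⟩
  obtain ⟨y₀, h⟩ := h T
  exact ⟨y₀, fun y x h1 h2 h3 h4 => hs x _ _ (max_le_max_left _ hαβ) (h y x h1 h2 h3 h4)⟩

/-- **Track G, assembled.** -/
theorem f_linear {μ : Measure ℝ} {α₀ : ℝ} (h : Elem μ) (hS : HS μ) (hB0 : HB0 μ α₀) (hB : HB μ α₀) (hG : HG μ) (hV : HV μ)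
    (hF2 : HF2 μ) : ∃ c C : ℝ, 0 < c ∧ ∀ x : ℕ, c * x - C ≤ ff μ 1 x := by
  obtain ⟨C₀, hB0⟩ := hB0
  exact Pool.Agent.W_7d29a1_g.chainS2 (g := gg μ) (f := ff μ 1) (S := Sf μ) (α₀ := α₀) (C₀ := C₀) (D := 1) (Cg := 0)
    h.smono (fun y x hyx => by
      rw [add_zero]
      exact h.gmono y x hyx) h.gstep h.fmono h.ftop hS hB0 hB hG hV hF2

end Pool.Agent.W_7d29a1_G
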