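import Pool.Agent.W_7d29a1_G.FR0
import Pool.Agent.W_7d29a1_G.Iface

/-!
MP_7d29a1_pr, track G: the elementary facts of the interface (`Elem`), the inequality between the growth of the unit and the closing
of the cone, and the trivial transfer of softness.
-/

namespace Pool.Agent.W_7d29a1_G

open MeasureTheory ProbabilityTheory Filter Topology Pool.Agent.W_7d29a1_F Pool.Agent.W_7d29a1_h4g
open Pool.Agent.W_7d29a1_h47 (EM Nondeg)

variable {μ : Measure ℝ} [IsProbabilityMeasure μ]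

theorem gg_step (hμ : EM μ) (x : ℕ) : gg μ (x + 1) ≤ gg μ x + 1 := by
  unfold gg
  have h1 := EE_two hμ (2 ^ x)
  rw [← pow_succ'] at h1
  have h2 := EE_pos (μ := μ) (2 ^ x)
  have h3 := Real.logb_le_logb_of_le one_lt_two (EE_pos (μ := μ) (2 ^ (x + 1))) h1
  rw [Real.logb_mul two_ne_zero h2.ne', Real.logb_self_eq_one one_lt_two] at h3
  linarith

theorem gg_le_add (hμ : EM μ) (x k : ℕ) : gg μ (x + k) ≤ gg μ x + k := by
  induction k with
  | zero => simp
  | succ k ih =>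
    have h1 := gg_step (μ := μ) hμ (x + k)
    rw [← add_assoc]
    push_cast
    linarith

theorem ff_mono (hμ : EM μ) {A : ℝ} (hA : 0 < A) : Monotone (ff μ A) := by
  refine monotone_nat_of_le_succ fun x => ?_
  unfold ff
  have h1 := vA_two hμ hA.le (2 ^ x)
  rw [← pow_succ'] at h1
  have h3 := Real.logb_le_logb_of_le one_lt_two (vA_pos (μ := μ) hμ hA (2 ^ (x + 1))) h1
  linarith

theorem ff_tendsto (hμ : EM μ) (hnd : Nondeg μ) {A : ℝ} (hA : 0 < A) :
    Tendsto (ff μ A) atTop atTop := by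
  rw [tendsto_atTop]
  intro b
  have h1 : Tendsto (fun x : ℕ => vA μ A (2 ^ x)) atTop (𝓝 0) :=
    (vA_tendsto hμ hnd hA.le).comp (tendsto_pow_atTop_atTop_of_one_lt one_lt_two)
  have h2 : (0 : ℝ) < 2 ^ (-b) := Real.rpow_pos_of_pos two_pos _
  filter_upwards [h1.eventually (eventually_lt_nhds h2)] with x hx
  unfold ff
  have h3 := Real.logb_le_logb_of_le one_lt_two (vA_pos (μ := μ) hμ hA (2 ^ x)) hx.le
  rw [Real.logb_rpow two_pos (by norm_num)] at h3
  linarith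

/-- **The elementary facts.** -/
theorem elem (hμ : EM μ) (hnd : Nondeg μ) : Elem μ where
  smono := fun _ _ _ h1 h2 => h2.mono h1
  gmono := fun _ _ h => gg_mono h
  gstep := gg_step hμ
  fmono := ff_mono hμ one_pos
  ftop := ff_tendsto hμ hnd one_pos

theorem two_rpow_ff (hμ : EM μ) {A : ℝ} (hA : 0 < A) (x : ℕ) :
    (2 : ℝ) ^ (-ff μ A x) = vA μ A (2 ^ x) := by
  unfold ff
  rw [neg_neg, Real.rpow_logb two_pos (by norm_num) (vA_pos hμ hA _)]

theorem two_rpow_gg (x : ℕ) : (2 : ℝ) ^ (gg μ x) = EE μ (2 ^ x) := by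
  unfold gg
  rw [Real.rpow_logb two_pos (by norm_num) (EE_pos _)]

/-- **Closing of the cone against the growth of the unit** (helper28): the cone closes at most by the part of the octaves in which the
unit does not grow, `f x - f y ≤ (x - y) - (g x - g y)`. -/
theorem ff_gg (hμ : EM μ) (hnd : Nondeg μ) {A : ℝ} (hA : 0 < A) : ∃ x₀ : ℕ, ∀ y x : ℕ, x₀ ≤ y → y ≤ x →
    ff μ A x - ff μ A y ≤ ((x : ℝ) - y) - (gg μ x - gg μ y) := by
  obtain ⟨n0, hn0⟩ := eventually_atTop.1 (vA_lt_half (μ := μ) hμ hnd hA.le)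
  refine ⟨n0, fun y x hy hyx => ?_⟩
  have hpow : ∀ z : ℕ, n0 ≤ z → n0 ≤ 2 ^ z := fun z hz => hz.trans (Nat.lt_two_pow_self).le
  have hvy0 := vA_pos (μ := μ) hμ hA (2 ^ y)
  have hvx0 := vA_pos (μ := μ) hμ hA (2 ^ x)
  have hvyx : vA μ A (2 ^ x) ≤ vA μ A (2 ^ y) := by
    have h1 := ff_mono (μ := μ) hμ hA hyx
    unfold ff at h1
    by_contra h
    rw [not_le] at h
    have := Real.logb_lt_logb one_lt_two hvy0 h
    linarith
  have ey := vA_eq' hμ hA.le (hn0 _ (hpow y hy))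
  have ex := vA_eq' hμ hA.le (hn0 _ (hpow x (hy.trans hyx)))
  -- convexity
  have hJ := J_mul (μ := μ) hμ (v := vA μ A (2 ^ x)) (t := vA μ A (2 ^ y) / vA μ A (2 ^ x)) hvx0.le
    (by rw [le_div_iff₀ hvx0, one_mul]; exact hvyx)
    (by rw [div_mul_cancel₀ _ hvx0.ne']; exact vA_le hμ hA.le _)
  rw [div_mul_cancel₀ _ hvx0.ne'] at hJ
  push_cast at ex ey
  have hEy := EE_pos (μ := μ) (2 ^ y)
  have hEx := EE_pos (μ := μ) (2 ^ x)
  have p2y : (0 : ℝ) < 2 ^ y := by positivity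
  have p2x : (0 : ℝ) < 2 ^ x := by positivity
  have hJx : J μ (vA μ A (2 ^ x)) = A * EE μ (2 ^ x) / 2 ^ x := by
    rw [eq_div_iff p2x.ne', mul_comm]
    exact ex
  have hJy : J μ (vA μ A (2 ^ y)) = A * EE μ (2 ^ y) / 2 ^ y := by
    rw [eq_div_iff p2y.ne', mul_comm]
    exact ey
  rw [hJx, hJy] at hJ
  -- `v_y / v_x ≤ (E_y / E_x) 2 ^ (x - y)`
  have h5 : vA μ A (2 ^ y) * (EE μ (2 ^ x) * 2 ^ y) ≤ vA μ A (2 ^ x) * (EE μ (2 ^ y) * 2 ^ x) := by
    have h6 := mul_le_mul_of_nonneg_right hJ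
      (show (0 : ℝ) ≤ vA μ A (2 ^ x) * 2 ^ x * 2 ^ y / A by positivity)
    have e1 : vA μ A (2 ^ y) / vA μ A (2 ^ x) * (A * EE μ (2 ^ x) / 2 ^ x) *
        (vA μ A (2 ^ x) * 2 ^ x * 2 ^ y / A) = vA μ A (2 ^ y) * (EE μ (2 ^ x) * 2 ^ y) := by
      field_simp
    have e2 : A * EE μ (2 ^ y) / 2 ^ y * (vA μ A (2 ^ x) * 2 ^ x * 2 ^ y / A) =
        vA μ A (2 ^ x) * (EE μ (2 ^ y) * 2 ^ x) := by
      field_simp
    rw [e1, e2] at h6
    exact h6
  have h7 := Real.logb_le_logb_of_le one_lt_two (by positivity) h5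
  rw [Real.logb_mul hvy0.ne' (by positivity), Real.logb_mul hvx0.ne' (by positivity),
    Real.logb_mul hEx.ne' (by positivity), Real.logb_mul hEy.ne' (by positivity), Real.logb_pow,
    Real.logb_pow, Real.logb_self_eq_one one_lt_two] at h7
  unfold ff gg
  linarith

/-- The trivial transfer: softness at `y` is softness at `x ≥ y`, with the loss `g x - g y`. -/
theorem Sf.trans {y x : ℕ} (hyx : y ≤ x) {α : ℝ} (h : Sf μ y α) : Sf μ x (α + (gg μ x - gg μ y)) := by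
  obtain ⟨l, G, h1, h2, hpos, hle, h3, h4⟩ := h
  have hg : 0 ≤ gg μ x - gg μ y := by linarith [gg_mono (μ := μ) hyx]
  have hE : EE μ (2 ^ y) = (2 : ℝ) ^ (gg μ y) := (two_rpow_gg y).symm
  have hE' : EE μ (2 ^ x) = (2 : ℝ) ^ (gg μ x) := (two_rpow_gg x).symm
  have hyx' : (y : ℝ) ≤ x := by exact_mod_cast hyx
  refine ⟨l, G, h1.trans (Real.rpow_le_rpow_of_exponent_le one_le_two (by linarith)), h2, hpos, hle,
    ?_, ?_⟩
  · refine le_trans ?_ h3
    rw [neg_le_neg_iff, hE, hE', ← Real.rpow_add two_pos, ← Real.rpow_add two_pos]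
    exact Real.rpow_le_rpow_of_exponent_le one_le_two (by linarith)
  · refine (Real.rpow_le_rpow_of_exponent_le one_le_two (by linarith)).trans
      (h4.trans (measureReal_mono (fun η hη => ?_) (measure_ne_top _ _)))
    rw [Set.mem_ofPred_eq] at hη ⊢
    refine le_trans (le_of_eq ?_) hη
    rw [hE, hE', ← Real.rpow_add two_pos, ← Real.rpow_add two_pos]
    congr 1
    ring

end Pool.Agent.W_7d29a1_G
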