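import Pool.Agent.W_7d29a1_G.SecA2

/-!
TRACK G, section (D7), part 3: moments of `M` slabs. helper20.
-/

namespace Pool.Agent.W_7d29a1_G20

open Pool.Agent.W_7d29a1_F MeasureTheory

variable {μ : Measure ℝ} [IsProbabilityMeasure μ] {s θ : ℝ}

theorem geom_abs {ρ : ℝ} (h0 : 0 ≤ ρ) (h1 : ρ < 1) (J : ℕ) :
    ∑ j ∈ Finset.Icc (-(J : ℤ)) J, ρ ^ j.natAbs ≤ 2 / (1 - ρ) := by
  have key : ∑ j ∈ Finset.Icc (-(J : ℤ)) J, ρ ^ j.natAbs = 2 * ∑ j ∈ Finset.range (J + 1), ρ ^ j - 1 := by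
    induction J with
    | zero => simp; norm_num
    | succ J ih =>
      have e1 : Finset.Icc (-((J + 1 : ℕ) : ℤ)) ((J + 1 : ℕ) : ℤ) =
          insert (((J + 1 : ℕ) : ℤ)) (insert (-((J + 1 : ℕ) : ℤ)) (Finset.Icc (-(J : ℤ)) J)) := by
        ext x
        simp only [Finset.mem_Icc, Finset.mem_insert]
        push_cast
        omega
      rw [e1, Finset.sum_insert, Finset.sum_insert, ih, Finset.sum_range_succ _ (J + 1)]
      · have e2 : (((J + 1 : ℕ) : ℤ)).natAbs = J + 1 := Int.natAbs_natCast _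
        have e3 : (-((J + 1 : ℕ) : ℤ)).natAbs = J + 1 := by rw [Int.natAbs_neg]; exact Int.natAbs_natCast _
        rw [e2, e3]
        ring
      · simp only [Finset.mem_Icc]
        push_cast
        omega
      · simp only [Finset.mem_Icc, Finset.mem_insert]
        push_cast
        omega
  rw [key]
  have h2 : (1 - ρ) * ∑ j ∈ Finset.range (J + 1), ρ ^ j = 1 - ρ ^ (J + 1) := mul_neg_geom_sum ρ (J + 1)
  have h3 : 0 < 1 - ρ := by linarith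
  have h4 : ∑ j ∈ Finset.range (J + 1), ρ ^ j ≤ 1 / (1 - ρ) := by
    rw [le_div_iff₀ h3, mul_comm, h2]
    have := pow_nonneg h0 (J + 1)
    linarith
  have h5 : 2 / (1 - ρ) = 2 * (1 / (1 - ρ)) := by ring
  linarith

theorem one_le_two_div {ρ : ℝ} (h0 : 0 ≤ ρ) (h1 : ρ < 1) : 1 ≤ 2 / (1 - ρ) := by
  rw [le_div_iff₀ (by linarith)]
  linarith

/-- The moment of one slab, decaying like `ρ ^ (3 |k|)`. -/
def Mom (μ : Measure ℝ) (s θ : ℝ) (w L : ℕ) (d : ℤ) (C ρ : ℝ) : Prop :=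
  ∀ k : ℤ, ∫ η, Bk μ s w L d k η ^ θ ∂(law μ) ≤ C * ρ ^ (3 * k.natAbs)

theorem Bk_iter (hμ : Pool.Agent.W_7d29a1_h47.EM μ) (hθ : 0 < θ) (hθ1 : θ ≤ 1) {w L : ℕ} (hw : 0 < w)
    {d : ℤ} (hd0 : 0 ≤ d) (hdL : d ≤ L) {C ρ : ℝ} (hC : 1 ≤ C) (h0 : 0 ≤ ρ) (h1 : ρ < 1)
    (hF : Mom μ s θ w L d C ρ) {M : ℕ} (hM : 1 ≤ M) :
    ∀ k : ℤ, ∫ η, Bk μ s w (M * L) (M * d) k η ^ θ ∂(law μ) ≤
      (C * (2 / (1 - ρ))) ^ M * ρ ^ (2 * k.natAbs) := by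
  have hg := one_le_two_div h0 h1
  have hK0 : 0 ≤ C * (2 / (1 - ρ)) := mul_nonneg (by linarith) (by linarith)
  induction M, hM using Nat.le_induction with
  | base =>
    intro k
    have h2 := hF k
    rw [one_mul, Nat.cast_one, one_mul, pow_one]
    refine h2.trans ?_
    have h3 : ρ ^ (3 * k.natAbs) ≤ ρ ^ (2 * k.natAbs) :=
      pow_le_pow_of_le_one h0 h1.le (by omega)
    have h4 : C ≤ C * (2 / (1 - ρ)) := by nlinarith
    exact mul_le_mul h4 h3 (pow_nonneg h0 _) hK0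
  | succ M hM ih =>
    intro k
    have e1 : (M + 1) * L = L + M * L := by ring
    have e2 : ((M + 1 : ℕ) : ℤ) * d = d + M * d := by push_cast; ring
    have hL0 : (0 : ℤ) ≤ L := by positivity
    have hw1 : (1 : ℤ) ≤ w := by exact_mod_cast hw
    have hJ1 : d ≤ (L : ℕ) * w := by nlinarith
    have hJ2 : ((L : ℕ) : ℤ) ≤ d + (L : ℕ) * w := by nlinarith
    rw [e1, e2]
    refine (Bk_mom (s := s) hμ hθ hθ1 hw L (M * L) d (M * d) k L hJ1 hJ2).trans ?_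
    have h3 : ∀ j ∈ Finset.Icc (-((L : ℕ) : ℤ)) (L : ℕ),
        (∫ η, Bk μ s w L d j η ^ θ ∂(law μ)) * ∫ η, Bk μ s w (M * L) (M * d) (k - j) η ^ θ ∂(law μ) ≤
        (C * (C * (2 / (1 - ρ))) ^ M * ρ ^ (2 * k.natAbs)) * ρ ^ j.natAbs := by
      intro j _
      have a1 : 0 ≤ ∫ η, Bk μ s w (M * L) (M * d) (k - j) η ^ θ ∂(law μ) :=
        integral_nonneg fun η => Real.rpow_nonneg ((Bk_dom (μ := μ) hw _ _ _).nonneg η) _
      have a2 : 0 ≤ C * ρ ^ (3 * j.natAbs) := mul_nonneg (by linarith) (pow_nonneg h0 _)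
      refine (mul_le_mul (hF j) (ih (k - j)) a1 a2).trans ?_
      have a3 : ρ ^ (3 * j.natAbs) * ρ ^ (2 * (k - j).natAbs) ≤ ρ ^ (2 * k.natAbs) * ρ ^ j.natAbs := by
        rw [← pow_add, ← pow_add]
        exact pow_le_pow_of_le_one h0 h1.le (by omega)
      have a4 : 0 ≤ C * (C * (2 / (1 - ρ))) ^ M := mul_nonneg (by linarith) (pow_nonneg hK0 _)
      calc C * ρ ^ (3 * j.natAbs) * ((C * (2 / (1 - ρ))) ^ M * ρ ^ (2 * (k - j).natAbs))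
          = (C * (C * (2 / (1 - ρ))) ^ M) * (ρ ^ (3 * j.natAbs) * ρ ^ (2 * (k - j).natAbs)) := by ring
        _ ≤ (C * (C * (2 / (1 - ρ))) ^ M) * (ρ ^ (2 * k.natAbs) * ρ ^ j.natAbs) :=
            mul_le_mul_of_nonneg_left a3 a4
        _ = _ := by ring
    refine (Finset.sum_le_sum h3).trans ?_
    rw [← Finset.mul_sum]
    have h5 : 0 ≤ C * (C * (2 / (1 - ρ))) ^ M * ρ ^ (2 * k.natAbs) :=
      mul_nonneg (mul_nonneg (by linarith) (pow_nonneg hK0 _)) (pow_nonneg h0 _)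
    refine (mul_le_mul_of_nonneg_left (geom_abs h0 h1 L) h5).trans (le_of_eq ?_)
    rw [pow_succ]
    ring

theorem sum_Bk_le (hμ : Pool.Agent.W_7d29a1_h47.EM μ) {w L : ℕ} {d : ℤ} {C ρ : ℝ} (hC : 1 ≤ C)
    (h0 : 0 ≤ ρ) (h1 : ρ < 1) (hF : Mom μ s θ w L d C ρ) (J : ℕ) :
    ∑ j ∈ Finset.Icc (-(J : ℤ)) J, ∫ η, Bk μ s w L d j η ^ θ ∂(law μ) ≤ C * (2 / (1 - ρ)) := by
  have h2 : ∀ j ∈ Finset.Icc (-(J : ℤ)) J, ∫ η, Bk μ s w L d j η ^ θ ∂(law μ) ≤ C * ρ ^ j.natAbs := by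
    intro j _
    refine (hF j).trans (mul_le_mul_of_nonneg_left ?_ (by linarith))
    exact pow_le_pow_of_le_one h0 h1.le (by omega)
  refine (Finset.sum_le_sum h2).trans ?_
  rw [← Finset.mul_sum]
  exact mul_le_mul_of_nonneg_left (geom_abs h0 h1 J) (by linarith)

theorem Gk_zero {w : ℕ} (hw : 0 < w) (η : Env) : Gk μ s w 0 η = 1 := by
  haveI : Nonempty (Fin w) := ⟨⟨0, hw⟩⟩
  unfold Gk
  simp only [V_zero, Real.exp_zero]
  exact ciSup_const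

theorem Gk_iter (hμ : Pool.Agent.W_7d29a1_h47.EM μ) (hθ : 0 < θ) (hθ1 : θ ≤ 1) {w L : ℕ} (hw : 0 < w)
    {d : ℤ} (hd0 : 0 ≤ d) (hdL : d ≤ L) {C ρ : ℝ} (hC : 1 ≤ C) (h0 : 0 ≤ ρ) (h1 : ρ < 1)
    (hF : Mom μ s θ w L d C ρ) (M : ℕ) :
    ∫ η, Gk μ s w (M * L) η ^ θ ∂(law μ) ≤ (C * (2 / (1 - ρ))) ^ M := by
  have hg := one_le_two_div h0 h1
  have hK0 : 0 ≤ C * (2 / (1 - ρ)) := mul_nonneg (by linarith) (by linarith)
  induction M with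
  | zero =>
    rw [Nat.zero_mul]
    simp only [Gk_zero hw, Real.one_rpow, pow_zero]
    simp
  | succ M ih =>
    have e1 : (M + 1) * L = L + M * L := by ring
    have hL0 : (0 : ℤ) ≤ L := by positivity
    have hw1 : (1 : ℤ) ≤ w := by exact_mod_cast hw
    have hJ1 : d ≤ (L : ℕ) * w := by nlinarith
    have hJ2 : ((L : ℕ) : ℤ) ≤ d + (L : ℕ) * w := by nlinarith
    rw [e1]
    refine (Gk_mom (s := s) hμ hθ hθ1 hw L (M * L) d L hJ1 hJ2).trans ?_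
    rw [pow_succ, mul_comm ((C * (2 / (1 - ρ))) ^ M)]
    exact mul_le_mul (sum_Bk_le hμ hC h0 h1 hF L) ih
      (integral_nonneg fun η => Real.rpow_nonneg ((Gk_dom (μ := μ) hw _).nonneg η) _) hK0

/-- A sequence of independent blocks. -/
theorem Gk_blocks (hμ : Pool.Agent.W_7d29a1_h47.EM μ) (hθ : 0 < θ) (hθ1 : θ ≤ 1) {w T : ℕ} (hw : 0 < w)
    {D : ℤ} (J : ℕ) (hJ1 : D ≤ J * w) (hJ2 : (T : ℤ) ≤ D + J * w) {q : ℝ} (hq : 0 ≤ q)
    (h : ∑ j ∈ Finset.Icc (-(J : ℤ)) J, ∫ η, Bk μ s w T D j η ^ θ ∂(law μ) ≤ q) (N : ℕ) :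
    ∫ η, Gk μ s w (N * T) η ^ θ ∂(law μ) ≤ q ^ N := by
  induction N with
  | zero =>
    rw [Nat.zero_mul]
    simp only [Gk_zero hw, Real.one_rpow, pow_zero]
    simp
  | succ N ih =>
    have e1 : (N + 1) * T = T + N * T := by ring
    rw [e1]
    refine (Gk_mom (s := s) hμ hθ hθ1 hw T (N * T) D J hJ1 hJ2).trans ?_
    rw [pow_succ, mul_comm (q ^ N)]
    exact mul_le_mul h ih
      (integral_nonneg fun η => Real.rpow_nonneg ((Gk_dom (μ := μ) hw _).nonneg η) _) hq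

end Pool.Agent.W_7d29a1_G20
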