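import Pool.Agent.W_7d29a1_G.Defs
import Pool.Agent.W_7d29a1_F.Final
import Pool.Agent.W_7d29a1_F.Bridge7
import Pool.Agent.W_7d29a1_F.CoreD3
import Pool.Agent.W_7d29a1_F.CoreD5
import Pool.Agent.W_7d29a1_h47q.LdA
import Pool.Agent.W_7d29a1_h47q.ParE

/-!
MP_7d29a1_pr, track G, the unit, second part: the free energy `LL` relative to the centre and its Legendre
transform `J`, the upper bound `e μ 0 n y ≤ n (J + ε)`, `ep ≤ e + C √n`.
-/

namespace Pool.Agent.W_7d29a1_G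

open MeasureTheory ProbabilityTheory Filter Topology Pool.Agent.W_7d29a1_F

variable {μ : Measure ℝ} [IsProbabilityMeasure μ]

/-- The free energy relative to the centre. -/
noncomputable def LL (μ : Measure ℝ) (s : ℝ) : ℝ := lam μ s - lam μ 0 - s / 2

omit [IsProbabilityMeasure μ] in
theorem LL_zero : LL μ 0 = 0 := by
  unfold LL
  simp

theorem LL_neg (hμ : Pool.Agent.W_7d29a1_h47.EM μ) (s : ℝ) : LL μ (-s) = LL μ s := by
  unfold LL
  rw [lam_neg hμ]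
  ring

theorem LL_convex (hμ : Pool.Agent.W_7d29a1_h47.EM μ) : ConvexOn ℝ Set.univ (LL μ) := by
  have h1 := lam_convex hμ
  refine ⟨convex_univ, fun x _ y _ a b ha hb hab => ?_⟩
  have h2 := h1.2 (Set.mem_univ x) (Set.mem_univ y) ha hb hab
  simp only [smul_eq_mul] at h2 ⊢
  unfold LL
  have e1 : a * (lam μ x - lam μ 0 - x / 2) + b * (lam μ y - lam μ 0 - y / 2) =
      a * lam μ x + b * lam μ y - (a + b) * lam μ 0 - (a * x + b * y) / 2 := by ring
  rw [e1, hab, one_mul]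
  linarith

theorem LL_nonneg (hμ : Pool.Agent.W_7d29a1_h47.EM μ) (s : ℝ) : 0 ≤ LL μ s := by
  have h := (LL_convex hμ).2 (Set.mem_univ s) (Set.mem_univ (-s)) (show (0 : ℝ) ≤ 1 / 2 by norm_num)
    (show (0 : ℝ) ≤ 1 / 2 by norm_num) (by norm_num)
  simp only [smul_eq_mul] at h
  rw [LL_neg hμ, show 1 / 2 * s + 1 / 2 * -s = 0 by ring, LL_zero] at h
  linarith

theorem LL_hasDerivAt (hμ : Pool.Agent.W_7d29a1_h47.EM μ) (hnd : Pool.Agent.W_7d29a1_h47.Nondeg μ)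
    (s : ℝ) : HasDerivAt (LL μ) (deriv (LL μ) s) s := by
  have h1 : DifferentiableAt ℝ (LL μ) s := by
    unfold LL
    exact ((differentiable_lam hμ hnd s).sub_const _).sub (differentiableAt_id.div_const 2)
  exact h1.hasDerivAt

/-- The tangent lies below. -/
theorem LL_tangent (hμ : Pool.Agent.W_7d29a1_h47.EM μ) (hnd : Pool.Agent.W_7d29a1_h47.Nondeg μ)
    (s r : ℝ) : LL μ s + deriv (LL μ) s * (r - s) ≤ LL μ r := by
  have hc := LL_convex hμ
  have hd := LL_hasDerivAt hμ hnd s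
  rcases lt_trichotomy r s with h | h | h
  · have h1 := hc.slope_le_of_hasDerivAt (Set.mem_univ r) (Set.mem_univ s) h hd
    rw [slope_def_field, div_le_iff₀ (by linarith)] at h1
    linarith
  · subst h
    simp
  · have h1 := hc.le_slope_of_hasDerivAt (Set.mem_univ s) (Set.mem_univ r) h hd
    rw [slope_def_field, le_div_iff₀ (by linarith)] at h1
    linarith

/-- Linear growth (the extreme path). -/
theorem LL_growth (hμ : Pool.Agent.W_7d29a1_h47.EM μ) : ∃ C : ℝ, ∀ s : ℝ, |s| / 2 - C ≤ LL μ s := by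
  have key : ∀ s : ℝ, s / 2 + (-e μ 0 1 1) ≤ LL μ s := by
    intro s
    have h1 := e_nonneg hμ s (n := 1) (y := 1) (by norm_num) (by norm_num)
    rw [e_eq hμ s (by norm_num) (by norm_num)] at h1
    rw [e_eq hμ 0 (n := 1) (y := 1) (by norm_num) (by norm_num)]
    unfold LL
    push_cast at *
    linarith
  refine ⟨e μ 0 1 1, fun s => ?_⟩
  rcases le_total 0 s with h | h
  · rw [abs_of_nonneg h]
    linarith [key s]
  · rw [abs_of_nonpos h, ← LL_neg hμ]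
    linarith [key (-s)]

theorem LL_le (hμ : Pool.Agent.W_7d29a1_h47.EM μ) (hnd : Pool.Agent.W_7d29a1_h47.Nondeg μ)
    (s : ℝ) : |deriv (LL μ) s| < 1 / 2 := by
  have h1 := slope_mem (μ := μ) hμ (s := s) (v := deriv (LL μ) s + 1 / 2) (fun r => by
    have := LL_tangent hμ hnd s r
    unfold LL at this ⊢
    linarith)
  rw [abs_lt]
  constructor <;> linarith [h1.1, h1.2]

/-! ### The Legendre transform -/

theorem J_bdd (hμ : Pool.Agent.W_7d29a1_h47.EM μ) {v : ℝ} (hv : |v| ≤ 1 / 2) :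
    BddAbove {r | ∃ s : ℝ, r = s * v - (lam μ s - lam μ 0 - s / 2)} := by
  obtain ⟨C, hC⟩ := LL_growth hμ
  refine ⟨C, ?_⟩
  rintro r ⟨s, rfl⟩
  have h1 := hC s
  unfold LL at h1
  have h2 : s * v ≤ |s| * |v| := by
    rw [← abs_mul]
    exact le_abs_self _
  have h3 : |s| * |v| ≤ |s| * (1 / 2) := mul_le_mul_of_nonneg_left hv (abs_nonneg s)
  linarith

theorem J_ge (hμ : Pool.Agent.W_7d29a1_h47.EM μ) {v : ℝ} (hv : |v| ≤ 1 / 2) (s : ℝ) :
    s * v - LL μ s ≤ J μ v :=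
  le_csSup (J_bdd hμ hv) ⟨s, rfl⟩

omit [IsProbabilityMeasure μ] in
theorem J_le {v c : ℝ} (h : ∀ s : ℝ, s * v - LL μ s ≤ c) : J μ v ≤ c := by
  refine csSup_le ⟨_, 0, rfl⟩ ?_
  rintro r ⟨s, rfl⟩
  exact h s

/-- The Legendre transform at a derivative. -/
theorem J_deriv (hμ : Pool.Agent.W_7d29a1_h47.EM μ) (hnd : Pool.Agent.W_7d29a1_h47.Nondeg μ)
    (s : ℝ) : J μ (deriv (LL μ) s) = s * deriv (LL μ) s - LL μ s := by
  refine le_antisymm (J_le fun r => ?_) (J_ge hμ (LL_le hμ hnd s).le s)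
  have := LL_tangent hμ hnd s r
  nlinarith

theorem J_mono' (hμ : Pool.Agent.W_7d29a1_h47.EM μ) {u v : ℝ} (hu : 0 ≤ u) (huv : u ≤ v)
    (hv : v ≤ 1 / 2) : J μ u ≤ J μ v := by
  refine J_le fun s => ?_
  rcases le_total 0 s with h | h
  · have h1 := J_ge hμ (v := v) (by rw [abs_of_nonneg (hu.trans huv)]; exact hv) s
    have h2 : s * u ≤ s * v := mul_le_mul_of_nonneg_left huv h
    linarith
  · have h1 := J_ge hμ (v := v) (by rw [abs_of_nonneg (hu.trans huv)]; exact hv) (-s)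
    rw [LL_neg hμ] at h1
    have h2 : s * u ≤ 0 := mul_nonpos_of_nonpos_of_nonneg h hu
    have h3 : 0 ≤ -s * v := mul_nonneg (by linarith) (hu.trans huv)
    linarith

/-- The derivative of `LL` takes every value in `[0, 1/2)`, and at a positive argument for a positive value. -/
theorem exists_deriv (hμ : Pool.Agent.W_7d29a1_h47.EM μ) (hnd : Pool.Agent.W_7d29a1_h47.Nondeg μ)
    {v : ℝ} (h0 : 0 < v) (h1 : v < 1 / 2) : ∃ s : ℝ, 0 ≤ s ∧ deriv (LL μ) s = v := by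
  obtain ⟨C, hC⟩ := LL_growth hμ
  have hC0 : 0 ≤ C := by
    have := hC 0
    rw [LL_zero, abs_zero] at this
    linarith
  obtain ⟨b, hb, hbv⟩ : ∃ b : ℝ, 0 < b ∧ v < deriv (LL μ) b := by
    by_contra hcon
    push Not at hcon
    obtain ⟨b, hb⟩ : ∃ b : ℝ, b = (C + 1) / (1 / 2 - v) := ⟨_, rfl⟩
    have hb0 : 0 < b := by
      rw [hb]
      exact div_pos (by linarith) (by linarith)
    have h2 := hcon b hb0
    have h3 := LL_tangent hμ hnd b 0
    rw [LL_zero] at h3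
    have h4 := hC b
    rw [abs_of_pos hb0] at h4
    have h5 : b * (1 / 2 - v) = C + 1 := by
      have h6 : (1 / 2 - v) ≠ 0 := by
        have : 0 < 1 / 2 - v := by linarith
        exact this.ne'
      rw [hb, div_mul_cancel₀ _ h6]
    nlinarith
  have hd0 : deriv (LL μ) 0 ≤ 0 := by
    by_contra hcon
    rw [not_le] at hcon
    have h2 := LL_tangent hμ hnd 0 (-1)
    have h3 := LL_tangent hμ hnd 0 1
    have h4 := LL_neg hμ 1
    -- the derivative at `0` of an even function vanishes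
    have h5 : deriv (LL μ) 0 = 0 := by
      have h6 : HasDerivAt (fun x => LL μ (-x)) (-(deriv (LL μ) 0)) 0 := by
        have h7 := LL_hasDerivAt hμ hnd 0
        have h8 : HasDerivAt (LL μ) (deriv (LL μ) 0) (-0) := by rwa [neg_zero]
        have h9 := h8.comp (0 : ℝ) (hasDerivAt_neg (0 : ℝ))
        rw [mul_neg, mul_one] at h9
        exact h9
      have h7 : (fun x => LL μ (-x)) = LL μ := funext fun x => LL_neg hμ x
      rw [h7] at h6
      have := h6.unique (LL_hasDerivAt hμ hnd 0)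
      linarith
    linarith
  obtain ⟨s, hs, hsv⟩ := exists_hasDerivWithinAt_eq_of_gt_of_lt hb.le
    (f := LL μ) (f' := deriv (LL μ))
    (fun x _ => (LL_hasDerivAt hμ hnd x).hasDerivWithinAt) (m := v) (by linarith) hbv
  exact ⟨s, hs.1.le, hsv⟩

/-! ### The upper bound for the means -/

omit [IsProbabilityMeasure μ] in
private lemma eps_le (n : ℕ) (hn : 1 ≤ n) :
    Pool.Agent.W_7d29a1_h47.eps μ n ≤
      (10 + Pool.Agent.W_7d29a1_h47.Cc μ) * (n : ℝ) ^ (4 / 5 : ℝ) := by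
  have hn1 : (1 : ℝ) ≤ n := by exact_mod_cast hn
  have hn0 : (0 : ℝ) < n := by linarith
  have hC : 0 ≤ Pool.Agent.W_7d29a1_h47.Cc μ := by
    unfold Pool.Agent.W_7d29a1_h47.Cc
    positivity
  unfold Pool.Agent.W_7d29a1_h47.eps
  have h1 : Real.log (2 * (n : ℝ) + 1) ≤ 10 * (n : ℝ) ^ (3 / 10 : ℝ) := by
    have h2 := Real.log_le_rpow_div (x := 2 * (n : ℝ) + 1) (ε := 3 / 10) (by linarith) (by norm_num)
    have h3 : (2 * (n : ℝ) + 1) ^ (3 / 10 : ℝ) ≤ (3 * (n : ℝ)) ^ (3 / 10 : ℝ) :=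
      Real.rpow_le_rpow (by linarith) (by linarith) (by norm_num)
    have h4 : (3 * (n : ℝ)) ^ (3 / 10 : ℝ) = (3 : ℝ) ^ (3 / 10 : ℝ) * (n : ℝ) ^ (3 / 10 : ℝ) :=
      Real.mul_rpow (by norm_num) hn0.le
    have h5 : (3 : ℝ) ^ (3 / 10 : ℝ) ≤ 3 := by
      have := Real.rpow_le_rpow_of_exponent_le (x := 3) (by norm_num)
        (by norm_num : (3 / 10 : ℝ) ≤ 1)
      simpa using this
    have h6 : 0 ≤ (n : ℝ) ^ (3 / 10 : ℝ) := by positivity
    have h7 := mul_le_mul_of_nonneg_right h5 h6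
    have h8 : (2 * (n : ℝ) + 1) ^ (3 / 10 : ℝ) / (3 / 10) ≤ (3 * (n : ℝ) ^ (3 / 10 : ℝ)) / (3 / 10) :=
      div_le_div_of_nonneg_right (by linarith) (by norm_num)
    have h9 : (3 * (n : ℝ) ^ (3 / 10 : ℝ)) / (3 / 10) = 10 * (n : ℝ) ^ (3 / 10 : ℝ) := by ring
    linarith
  have h2 : Real.sqrt (n : ℝ) * (n : ℝ) ^ (3 / 10 : ℝ) = (n : ℝ) ^ (4 / 5 : ℝ) := by
    rw [Real.sqrt_eq_rpow, ← Real.rpow_add hn0]
    norm_num
  have h3 : Real.sqrt (n : ℝ) ≤ (n : ℝ) ^ (4 / 5 : ℝ) := by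
    rw [Real.sqrt_eq_rpow]
    exact Real.rpow_le_rpow_of_exponent_le hn1 (by norm_num)
  have h4 : 0 ≤ Real.sqrt (n : ℝ) := Real.sqrt_nonneg _
  calc Real.sqrt (n : ℝ) * (Real.log (2 * (n : ℝ) + 1) + Pool.Agent.W_7d29a1_h47.Cc μ)
      ≤ Real.sqrt (n : ℝ) * (10 * (n : ℝ) ^ (3 / 10 : ℝ) + Pool.Agent.W_7d29a1_h47.Cc μ) :=
        mul_le_mul_of_nonneg_left (by linarith) h4
    _ = 10 * (Real.sqrt (n : ℝ) * (n : ℝ) ^ (3 / 10 : ℝ)) +
        Pool.Agent.W_7d29a1_h47.Cc μ * Real.sqrt (n : ℝ) := by ring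
    _ ≤ 10 * (n : ℝ) ^ (4 / 5 : ℝ) + Pool.Agent.W_7d29a1_h47.Cc μ * (n : ℝ) ^ (4 / 5 : ℝ) := by
        rw [h2]
        have := mul_le_mul_of_nonneg_left h3 hC
        linarith
    _ = (10 + Pool.Agent.W_7d29a1_h47.Cc μ) * (n : ℝ) ^ (4 / 5 : ℝ) := by ring

/-- For every tilt there is a displacement of small mean cost. -/
theorem exists_cheap (hμ : Pool.Agent.W_7d29a1_h47.EM μ) (s : ℝ) : ∃ C : ℝ, ∀ n : ℕ, 1 ≤ n →
    ∃ y : ℤ, 0 ≤ y ∧ y ≤ n ∧ e μ s n y ≤ C * (n : ℝ) ^ (4 / 5 : ℝ) := by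
  refine ⟨2 * (10 + Pool.Agent.W_7d29a1_h47.Cc μ), fun n hn => ?_⟩
  obtain ⟨z, hz, hz2⟩ := Pool.Agent.W_7d29a1_h47.exists_ap hμ (s / 2) n
  rw [Pool.Agent.W_7d29a1_h47.Reach_iff] at hz
  obtain ⟨h1, h2⟩ := hz
  rw [abs_le] at h1
  obtain ⟨y, hy⟩ : ∃ y : ℤ, z = 2 * y - n := ⟨(z + n) / 2, by omega⟩
  subst hy
  refine ⟨y, by omega, by omega, ?_⟩
  rw [e_eq hμ s (by omega) (by omega)]
  have h3 := eps_le (μ := μ) n hn
  unfold lam
  push_cast at hz2
  nlinarith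

/-- Change of the tilt. -/
theorem e_tilt (hμ : Pool.Agent.W_7d29a1_h47.EM μ) (s r : ℝ) {n : ℕ} {y : ℤ} (h0 : 0 ≤ y)
    (h1 : y ≤ n) : e μ r n y = e μ s n y - (r - s) * ((y : ℝ) - n / 2) + n * (LL μ r - LL μ s) := by
  rw [e_eq hμ s h0 h1, e_eq hμ r h0 h1]
  unfold LL
  ring

/-- The displacements of small mean cost have the slope given by the derivative. -/
theorem cheap_slope (hμ : Pool.Agent.W_7d29a1_h47.EM μ) (hnd : Pool.Agent.W_7d29a1_h47.Nondeg μ)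
    (s C : ℝ) {ε : ℝ} (hε : 0 < ε) : ∀ᶠ n : ℕ in atTop, ∀ y : ℤ, 0 ≤ y → y ≤ n →
      e μ s n y ≤ C * (n : ℝ) ^ (4 / 5 : ℝ) → |(y : ℝ) - n / 2 - deriv (LL μ) s * n| ≤ ε * n := by
  have hd := LL_hasDerivAt hμ hnd s
  rw [hasDerivAt_iff_tendsto_slope] at hd
  have h1 := hd.eventually (Metric.ball_mem_nhds (deriv (LL μ) s) (half_pos hε))
  rw [eventually_nhdsWithin_iff, Metric.eventually_nhds_iff] at h1
  obtain ⟨δ, hδ, h2⟩ := h1
  obtain ⟨t, ht⟩ : ∃ t : ℝ, t = δ / 2 := ⟨_, rfl⟩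
  have ht0 : 0 < t := by rw [ht]; linarith
  have hR : |(LL μ (s + t) - LL μ s) / t - deriv (LL μ) s| < ε / 2 := by
    have h3 := h2 (y := s + t) (by rw [Real.dist_eq]; simp only [add_sub_cancel_left]; rw [abs_of_pos ht0]; linarith)
      (by simp [ht0.ne'])
    rw [Real.dist_eq, slope_def_field] at h3
    rwa [add_sub_cancel_left] at h3
  have hL : |(LL μ (s - t) - LL μ s) / (-t) - deriv (LL μ) s| < ε / 2 := by
    have h3 := h2 (y := s - t) (by rw [Real.dist_eq]; simp only [sub_sub_cancel_left, abs_neg]; rw [abs_of_pos ht0]; linarith)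
      (by simp [ht0.ne'])
    rw [Real.dist_eq, slope_def_field] at h3
    rwa [sub_sub_cancel_left] at h3
  have hsm : ∀ᶠ n : ℕ in atTop, C * (n : ℝ) ^ (4 / 5 : ℝ) ≤ t * (ε / 2) * n := by
    have h4 : Tendsto (fun n : ℕ => (n : ℝ) ^ (-(1 / 5) : ℝ)) atTop (𝓝 0) :=
      (tendsto_rpow_neg_atTop (by norm_num)).comp tendsto_natCast_atTop_atTop
    have h5 := (h4.const_mul C).eventually (eventually_lt_nhds (show C * 0 < t * (ε / 2) by
      rw [mul_zero]; positivity))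
    filter_upwards [h5, eventually_ge_atTop 1] with n h6 h7
    have hn : (0 : ℝ) < n := by exact_mod_cast h7
    have h8 : (n : ℝ) ^ (4 / 5 : ℝ) = (n : ℝ) ^ (-(1 / 5) : ℝ) * n := by
      rw [← Real.rpow_add_one hn.ne']
      norm_num
    rw [h8, ← mul_assoc]
    exact mul_le_mul_of_nonneg_right h6.le hn.le
  filter_upwards [hsm] with n hn y h0 h1 he
  have hn0 : (0 : ℝ) ≤ n := Nat.cast_nonneg n
  have a1 := e_nonneg hμ (s + t) h0 h1
  have a2 := e_nonneg hμ (s - t) h0 h1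
  rw [e_tilt hμ s (s + t) h0 h1] at a1
  rw [e_tilt hμ s (s - t) h0 h1] at a2
  have b1 : LL μ (s + t) - LL μ s ≤ t * (deriv (LL μ) s + ε / 2) := by
    have := (abs_lt.1 hR).2
    have h3 : (LL μ (s + t) - LL μ s) / t < deriv (LL μ) s + ε / 2 := by linarith
    rw [div_lt_iff₀ ht0] at h3
    linarith
  have b2 : LL μ (s - t) - LL μ s ≤ -t * (deriv (LL μ) s - ε / 2) := by
    have := (abs_lt.1 hL).1
    have h3 : deriv (LL μ) s - ε / 2 < (LL μ (s - t) - LL μ s) / (-t) := by linarith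
    rw [div_neg, ← neg_div, lt_div_iff₀ ht0] at h3
    linarith
  have c1 : (n : ℝ) * (LL μ (s + t) - LL μ s) ≤ n * (t * (deriv (LL μ) s + ε / 2)) :=
    mul_le_mul_of_nonneg_left b1 hn0
  have c2 : (n : ℝ) * (LL μ (s - t) - LL μ s) ≤ n * (-t * (deriv (LL μ) s - ε / 2)) :=
    mul_le_mul_of_nonneg_left b2 hn0
  rw [abs_le]
  constructor
  · have : t * (-(ε * n)) ≤ t * ((y : ℝ) - n / 2 - deriv (LL μ) s * n) := by nlinarith
    exact le_of_mul_le_mul_left this ht0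
  · have : t * ((y : ℝ) - n / 2 - deriv (LL μ) s * n) ≤ t * (ε * n) := by nlinarith
    exact le_of_mul_le_mul_left this ht0

end Pool.Agent.W_7d29a1_G
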