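import Pool.Agent.W_7d29a1_G.Defs1
import Pool.Agent.W_7d29a1_qs.Ded

/-!
MP_7d29a1_pr, track G: assembly. From the closing of the cone along the octaves (`c x - C ≤ f x`,
`f x = - log₂ vb (2 ^ x)`) to the power law of the rate function, and from there to the power convexity of the free energy.
-/

set_option autoImplicit false

namespace Pool.Agent.W_7d29a1_G

open MeasureTheory ProbabilityTheory Filter Topology Set Pool.Agent.W_7d29a1_F Pool.Agent.W_7d29a1_h46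

/-- From the widths of the cones along the octaves to the rate function. -/
theorem pow_of_width {J : ℝ → ℝ} {E w : ℕ → ℝ} {b κ c C : ℝ} {x₀ : ℕ} (hb : 0 < b) (hκ : 0 < κ) (hc : 0 < c)
    (hJm : MonotoneOn J (Icc 0 b)) (hJ0 : 0 ≤ J 0) (hw0 : ∀ x, x₀ ≤ x → 0 < w x) (hw1 : ∀ x, x₀ ≤ x → w x ≤ b)
    (hE : ∀ x, x₀ ≤ x → 1 ≤ E x) (hJw : ∀ x, x₀ ≤ x → κ * E x ≤ (2 : ℝ) ^ x * J (w x))
    (hf : ∀ x : ℕ, x₀ ≤ x → c * x - C ≤ - Real.logb 2 (w x)) :
    ∃ c' K v₀ : ℝ, 0 < c' ∧ 1 < K ∧ 0 < v₀ ∧ ∀ v, 0 ≤ v → v ≤ v₀ → c' * v ^ K ≤ J v := by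
  -- the widths tend to zero
  have hvb : ∀ x : ℕ, x₀ ≤ x → w x ≤ (2 : ℝ) ^ (C - c * x) := by
    intro x hx
    have h1 := hf x hx
    have h2 : Real.logb 2 (w x) ≤ C - c * x := by linarith
    calc w x = (2 : ℝ) ^ Real.logb 2 (w x) := (Real.rpow_logb (by norm_num) (by norm_num) (hw0 _ hx)).symm
      _ ≤ _ := Real.rpow_le_rpow_of_exponent_le (by norm_num) h2
  -- the rate at the widths
  have hJw' : ∀ x : ℕ, x₀ ≤ x → κ * (2 : ℝ) ^ (-(x : ℝ)) ≤ J (w x) := by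
    intro x hx
    have h1 := hJw x hx
    have h2 := hE x hx
    have h3 : (0 : ℝ) < 2 ^ x := by positivity
    have h4 : (2 : ℝ) ^ (-(x : ℝ)) * 2 ^ x = 1 := by
      rw [← Real.rpow_natCast 2 x, ← Real.rpow_add (by norm_num)]
      simp
    have h5 : κ * 1 ≤ κ * E x := mul_le_mul_of_nonneg_left h2 hκ.le
    by_contra hlt
    push Not at hlt
    have h6 : J (w x) * 2 ^ x < κ * (2 : ℝ) ^ (-(x : ℝ)) * 2 ^ x := mul_lt_mul_of_pos_right hlt h3
    have h7 : κ * (2 : ℝ) ^ (-(x : ℝ)) * 2 ^ x = κ := by rw [mul_assoc, h4, mul_one]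
    linarith
  refine ⟨κ / 2 * (2 : ℝ) ^ (-(C / c)), max (1 / c) 2, min (w x₀) (min b 1), by positivity,
    lt_of_lt_of_le (by norm_num) (le_max_right _ _), lt_min (hw0 _ le_rfl) (lt_min hb one_pos), fun v hv0 hv1 => ?_⟩
  have hvw : v ≤ w x₀ := hv1.trans (min_le_left _ _)
  have hvb' : v ≤ b := hv1.trans ((min_le_right _ _).trans (min_le_left _ _))
  have hv1' : v ≤ 1 := hv1.trans ((min_le_right _ _).trans (min_le_right _ _))
  rcases hv0.eq_or_lt with h0 | h0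
  · rw [← h0, Real.zero_rpow (by positivity), mul_zero]
    exact hJ0
  have hvK : v ^ max (1 / c) 2 ≤ v ^ (1 / c) := Real.rpow_le_rpow_of_exponent_ge h0 hv1' (le_max_left _ _)
  -- the first width below `v`
  have hex : ∃ x : ℕ, x₀ ≤ x ∧ w x < v := by
    have h1 : Tendsto (fun x : ℕ => (2 : ℝ) ^ (C - c * x)) atTop (𝓝 0) := by
      have h2 : Tendsto (fun x : ℕ => C - c * (x : ℝ)) atTop atBot := by
        have h3 : Tendsto (fun x : ℕ => c * (x : ℝ)) atTop atTop := tendsto_natCast_atTop_atTop.const_mul_atTop hc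
        simpa [sub_eq_add_neg] using tendsto_atBot_add_const_left atTop C (tendsto_neg_atTop_atBot.comp h3)
      exact (tendsto_rpow_atBot_of_base_gt_one (2 : ℝ) (by norm_num)).comp h2
    obtain ⟨x, hx, hx0⟩ := ((h1.eventually (gt_mem_nhds h0)).and (eventually_ge_atTop x₀)).exists
    exact ⟨x, hx0, (hvb x hx0).trans_lt hx⟩
  classical
  set x := Nat.find hex with hx
  obtain ⟨hx0, hx1⟩ : x₀ ≤ x ∧ w x < v := Nat.find_spec hex
  have h1 : J (w x) ≤ J v := hJm ⟨(hw0 _ hx0).le, hw1 _ hx0⟩ ⟨hv0, hvb'⟩ hx1.le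
  have hne : x ≠ x₀ := by
    intro h
    rw [h] at hx1
    linarith
  obtain ⟨z, hz⟩ : ∃ z, x = z + 1 := ⟨x - 1, by omega⟩
  have hz0 : x₀ ≤ z := by omega
  have h3 : ¬ (x₀ ≤ z ∧ w z < v) := Nat.find_min hex (by omega)
  have h3' : v ≤ w z := by
    by_contra h
    push Not at h
    exact h3 ⟨hz0, h⟩
  have h4 : v ≤ (2 : ℝ) ^ (C - c * z) := h3'.trans (hvb z hz0)
  have h5 : v ^ (1 / c) ≤ (2 : ℝ) ^ (C / c - z) := by
    calc v ^ (1 / c) ≤ ((2 : ℝ) ^ (C - c * z)) ^ (1 / c) := Real.rpow_le_rpow hv0 h4 (by positivity)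
      _ = (2 : ℝ) ^ (C / c - z) := by
          rw [← Real.rpow_mul (by norm_num)]
          congr 1
          field_simp
  have h6 := hJw' x hx0
  have h7 : (2 : ℝ) ^ (-(x : ℝ)) = 1 / 2 * (2 : ℝ) ^ (-(C / c)) * (2 : ℝ) ^ (C / c - z) := by
    rw [hz, mul_assoc, ← Real.rpow_add (by norm_num)]
    rw [show (1 / 2 : ℝ) = (2 : ℝ) ^ (-1 : ℝ) by rw [Real.rpow_neg_one]; norm_num, ← Real.rpow_add (by norm_num)]
    congr 1
    push_cast
    ring
  calc κ / 2 * (2 : ℝ) ^ (-(C / c)) * v ^ max (1 / c) 2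
      ≤ (κ / 2 * (2 : ℝ) ^ (-(C / c))) * (2 : ℝ) ^ (C / c - z) :=
        mul_le_mul_of_nonneg_left (hvK.trans h5) (by positivity)
    _ = κ * (1 / 2 * (2 : ℝ) ^ (-(C / c)) * (2 : ℝ) ^ (C / c - z)) := by ring
    _ = κ * (2 : ℝ) ^ (-(x : ℝ)) := by rw [h7]
    _ ≤ J (w x) := h6
    _ ≤ J v := h1

/-- From the rate function (relative to the centre) to the free energy at the tilt `0`. -/
theorem expd_of_J {L : ℝ → ℝ} (hL : ConvexOn ℝ univ L) (hLe : ∀ h, L (-h) = L h) {J : ℝ → ℝ}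
    (hJ : ∀ v, 0 ≤ v → J v = sSup {r | ∃ s : ℝ, r = s * v - (L (s / 2) - L 0)})
    {c K v₀ : ℝ} (hc : 0 < c) (hK : 1 < K) (hv₀ : 0 < v₀) (hpow : ∀ v, 0 ≤ v → v ≤ v₀ → c * v ^ K ≤ J v) :
    Expd L (1 / (K - 1)) 0 0 := by
  refine W_7d29a1_qs.expd_of_conj hL (c := c / 2 * (1 / 2) ^ K) (r := v₀) (by positivity) hK hv₀ (fun y => ?_) (fun v hv => ?_)
  · -- the minimum at `0`
    have h1 := hL.2 (mem_univ y) (mem_univ (-y)) (show (0 : ℝ) ≤ 1 / 2 by norm_num) (show (0 : ℝ) ≤ 1 / 2 by norm_num)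
      (by norm_num)
    simp only [smul_eq_mul, hLe] at h1
    have h2 : 1 / 2 * y + 1 / 2 * -y = 0 := by ring
    rw [h2] at h1
    linarith
  · rw [sub_zero] at hv ⊢
    set u : ℝ := |v| / 2 with hu
    have hu0 : 0 ≤ u := by positivity
    have hu1 : u ≤ v₀ := by
      rw [hu]
      linarith
    have h1 : c / 2 * (1 / 2) ^ K * |v| ^ K = c / 2 * u ^ K := by
      rw [hu, div_eq_mul_one_div |v| 2, Real.mul_rpow (abs_nonneg v) (by norm_num)]
      ring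
    rw [h1]
    rcases hu0.eq_or_lt with h0 | h0
    · refine ⟨0, ?_⟩
      rw [← h0, Real.zero_rpow (by linarith)]
      linarith
    · have h2 := hpow u hu0 hu1
      have h3 : c / 2 * u ^ K < J u := by
        have : 0 < c * u ^ K := by positivity
        linarith
      rw [hJ u hu0] at h3
      obtain ⟨r, ⟨s, hs⟩, hr⟩ := exists_lt_of_lt_csSup
        (s := {r | ∃ s : ℝ, r = s * u - (L (s / 2) - L 0)}) ⟨_, ⟨0, rfl⟩⟩ h3
      rcases le_total 0 v with hv0 | hv0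
      · refine ⟨s / 2, ?_⟩
        rw [abs_of_nonneg hv0] at hu
        rw [hs, hu] at hr
        rw [hu]
        nlinarith
      · refine ⟨-(s / 2), ?_⟩
        rw [abs_of_nonpos hv0] at hu
        rw [hs, hu] at hr
        rw [hu, hLe]
        nlinarith

variable {μ : Measure ℝ} [IsProbabilityMeasure μ]

/-- The last step of track G: if the cones close like a power then the free energy is power convex at `0`. The hypotheses on
`J`, `vA` and `EE` are those of the file `FR0`. -/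
theorem expd_of_ff (hμ : W_7d29a1_h47.EM μ) {A : ℝ} (hA : 0 < A) (hJm : MonotoneOn (J μ) (Icc 0 (1 / 2))) (hJ0 : 0 ≤ J μ 0)
    {x₀ : ℕ} (hv0 : ∀ x, x₀ ≤ x → 0 < vA μ A (2 ^ x)) (hv1 : ∀ x, x₀ ≤ x → vA μ A (2 ^ x) ≤ 1 / 2)
    (hE : ∀ n, 1 ≤ EE μ n) (hvE : ∀ x : ℕ, x₀ ≤ x → A * EE μ (2 ^ x) ≤ (2 : ℝ) ^ x * J μ (vA μ A (2 ^ x)))
    {c C : ℝ} (hc : 0 < c) (hf : ∀ x : ℕ, c * x - C ≤ ff μ A x) :
    ∃ α : ℝ, 0 < α ∧ Expd (W_7d29a1_h47.Lam μ) α 0 0 := by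
  obtain ⟨c', K, v₀, hc', hK, hv₀, hpow⟩ := pow_of_width (J := J μ) (E := fun x => EE μ (2 ^ x))
    (w := fun x => vA μ A (2 ^ x)) (b := 1 / 2) (κ := A) (c := c) (C := C) (x₀ := x₀)
    (by norm_num) hA hc hJm hJ0 hv0 hv1 (fun x _ => hE _) hvE (fun x _ => hf x)
  refine ⟨1 / (K - 1), by have : 0 < K - 1 := by linarith
                          positivity, ?_⟩
  refine expd_of_J (W_7d29a1_h47.Lam_convex hμ) (fun h => W_7d29a1_h47.Lam_even h) (J := J μ) (fun v _ => ?_) hc' hK hv₀ hpow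
  have h3 : ∀ s : ℝ, lam μ s - lam μ 0 - s / 2 = W_7d29a1_h47.Lam μ (s / 2) - W_7d29a1_h47.Lam μ 0 := by
    intro s
    unfold lam
    rw [zero_div]
    ring
  unfold J
  congr 1
  ext r
  simp only [mem_ofPred_eq, h3]

end Pool.Agent.W_7d29a1_G
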