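import Pool.Agent.W_7d29a1_G.Width
import Pool.Agent.W_7d29a1_L.LsA1
import Pool.Agent.W_7d29a1_L.LsA4
import Pool.Agent.W_7d29a1_h82g.CellSum

/-!
MP_7d29a1_pr, track G: ONE CONE. The exponential moments of the box luck with the tilts `± s`, `s w ≥ c E(n)`, give
`w_n ≤ K w` (`w_n = wA μ n` the natural width), by the theta moments over cell sequences (CellSum, helper82). helper85
-/

namespace Pool.Agent.W_7d29a1_G

open MeasureTheory ProbabilityTheory Filter Topology Pool.Agent.W_7d29a1_F Pool.Agent.W_7d29a1_h4g Pool.Agent.W_7d29a1_L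
open Pool.Agent.W_7d29a1_h82g

noncomputable section

variable {μ : Measure ℝ}

/-- A sum over distinct displacements is at most the sum over all displacements. -/
theorem sum_inj_le (f : ℤ → ℝ) {n : ℕ} (h0 : ∀ y, 0 ≤ f y) (hz : ∀ y, ¬ (0 ≤ y ∧ y ≤ (n : ℤ)) → f y = 0) (m : ℕ)
    (a : ℤ) : ∑ l ∈ Finset.range m, f (a + l) ≤ ∑ y ∈ Finset.Icc (0 : ℤ) n, f y := by
  classical
  have h1 : ∑ l ∈ Finset.range m, f (a + l) = ∑ y ∈ (Finset.range m).image (fun l : ℕ => a + (l : ℤ)), f y := by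
    rw [Finset.sum_image]
    intro x _ y _ hxy
    simpa using hxy
  rw [h1, ← Finset.sum_filter_add_sum_filter_not _ (fun y => 0 ≤ y ∧ y ≤ (n : ℤ))]
  have h2 : ∑ y ∈ ((Finset.range m).image (fun l : ℕ => a + (l : ℤ))).filter (fun y => ¬ (0 ≤ y ∧ y ≤ (n : ℤ))), f y = 0 :=
    Finset.sum_eq_zero fun y hy => hz y (Finset.mem_filter.1 hy).2
  rw [h2, add_zero]
  refine Finset.sum_le_sum_of_subset_of_nonneg (fun y hy => ?_) fun y _ _ => h0 y
  rw [Finset.mem_Icc]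
  exact (Finset.mem_filter.1 hy).2

/-- The largest weight from the first cell to the cell `D`, with `K` cells of drift. -/
theorem Gc_le_far {s : ℝ} (hs : 0 < s) (w' n K : ℕ) (D : ℤ) (η : Env) :
    Gc μ 0 w' n (md n + K * (w' + 1)) D η ≤
      Real.exp (-far (s * (w' + 1 : ℕ)) (K + D)) * (Real.exp (Mh μ 0 (1 / 2) s (w' + 1 : ℕ) (-1) n η) +
        Real.exp (Mh μ 0 (1 / 2) (-s) (w' + 1 : ℕ) (-1) n η)) := by
  refine Finset.sup'_le _ _ fun i hi => ?_
  rw [Finset.mem_range] at hi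
  have hbx : (((0, (i : ℤ)), n) : (ℕ × ℤ) × ℕ) ∈ Bx (1 / 2) (w' + 1 : ℕ) (-1) n := by
    rw [mem_Bx (by norm_num) (by norm_num)]
    refine ⟨by simp, ?_, ?_⟩
    · push_cast
      have : (0 : ℝ) ≤ i := Nat.cast_nonneg i
      linarith
    · push_cast
      have : (i : ℝ) ≤ w' := by exact_mod_cast Nat.lt_succ_iff.1 hi
      linarith
  have h1 := le_Mh (μ := μ) (s := 0) (h := s) η hbx
  have h2 := le_Mh (μ := μ) (s := 0) (h := -s) η hbx
  simp only [Nat.cast_zero] at h1 h2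
  obtain ⟨f, hf⟩ : ∃ f : ℤ → ℝ, f = fun y => W μ 0 η ((0 : ℤ), (i : ℤ)) n y *
      (Real.exp (s * ((y : ℝ) - 1 / 2 * n)) + Real.exp (-s * ((y : ℝ) - 1 / 2 * n))) := ⟨_, rfl⟩
  have hf0 : ∀ y, 0 ≤ f y := fun y => by
    rw [hf]
    exact mul_nonneg (W_nonneg _ _ _ _) (by positivity)
  have hfz : ∀ y, ¬ (0 ≤ y ∧ y ≤ (n : ℤ)) → f y = 0 := fun y hy => by
    rw [hf]
    show W μ 0 η ((0 : ℤ), (i : ℤ)) n y * _ = 0
    rw [W_eq_zero η _ hy, zero_mul]
  have h3 : ∑ y ∈ Finset.Icc (0 : ℤ) n, f y =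
      Real.exp (T μ 0 (1 / 2) s η ((0 : ℤ), (i : ℤ)) n) + Real.exp (T μ 0 (1 / 2) (-s) η ((0 : ℤ), (i : ℤ)) n) := by
    rw [exp_T, exp_T, ← Finset.sum_add_distrib, hf]
    exact Finset.sum_congr rfl fun y _ => by ring
  have h4 : ∀ l ∈ Finset.range (w' + 1), W μ 0 η ((0 : ℤ), (i : ℤ)) n (md n + K * (w' + 1) + D * (w' + 1) + l - i) ≤
      Real.exp (-far (s * (w' + 1 : ℕ)) (K + D)) * f ((md n + K * (w' + 1) + D * (w' + 1) - i) + l) := by
    intro l hl
    rw [Finset.mem_range] at hl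
    have e1 : md n + K * (w' + 1) + D * (w' + 1) + (l : ℤ) - i = (md n + K * (w' + 1) + D * (w' + 1) - i) + l := by ring
    rw [e1]
    obtain ⟨y, hy⟩ : ∃ y : ℤ, y = (md n + K * (w' + 1) + D * (w' + 1) - i) + l := ⟨_, rfl⟩
    rw [← hy]
    have hW := W_nonneg (μ := μ) (s := 0) η ((0 : ℤ), (i : ℤ)) n y
    -- the relative displacement
    have hr : (w' + 1 : ℝ) * max (|((K + D : ℤ) : ℝ)| - 1) 0 ≤ |(y : ℝ) - 1 / 2 * n| := by
      have hmd : (n : ℝ) / 2 - 1 / 2 ≤ md n ∧ (md n : ℝ) ≤ n / 2 := by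
        have h5 : 2 * md n ≤ n ∧ (n : ℤ) ≤ 2 * md n + 1 := by unfold md; omega
        have h6 : (2 : ℝ) * md n ≤ n := by exact_mod_cast h5.1
        have h7 : (n : ℝ) ≤ 2 * md n + 1 := by exact_mod_cast h5.2
        constructor <;> linarith
      have hy' : (y : ℝ) - 1 / 2 * n = ((K + D : ℤ) : ℝ) * (w' + 1) + (md n - n / 2 + l - i) := by
        rw [hy]
        push_cast
        ring
      have hli : |((md n : ℝ) - n / 2 + l - i)| ≤ w' + 1 := by
        have h5 : (l : ℝ) ≤ w' := by exact_mod_cast Nat.lt_succ_iff.1 hl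
        have h6 : (i : ℝ) ≤ w' := by exact_mod_cast Nat.lt_succ_iff.1 hi
        have h7 : (0 : ℝ) ≤ l := Nat.cast_nonneg l
        have h8 : (0 : ℝ) ≤ i := Nat.cast_nonneg i
        rw [abs_le]
        constructor <;> linarith [hmd.1, hmd.2]
      rw [hy']
      have hw0 : (0 : ℝ) ≤ (w' : ℝ) + 1 := by positivity
      have h9 : |((K + D : ℤ) : ℝ) * (w' + 1)| = |((K + D : ℤ) : ℝ)| * (w' + 1) := by
        rw [abs_mul, abs_of_nonneg hw0]
      have h10 : |((K + D : ℤ) : ℝ)| * (w' + 1) - (w' + 1) ≤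
          |((K + D : ℤ) : ℝ) * (w' + 1) + ((md n : ℝ) - n / 2 + l - i)| := by
        have := abs_sub_abs_le_abs_add (((K + D : ℤ) : ℝ) * (w' + 1)) ((md n : ℝ) - n / 2 + l - i)
        rw [h9] at this
        linarith
      rcases le_total (|((K + D : ℤ) : ℝ)| - 1) 0 with h | h
      · rw [max_eq_right h, mul_zero]
        exact abs_nonneg _
      · rw [max_eq_left h]
        linarith
    have h5 : Real.exp (far (s * (w' + 1 : ℕ)) (K + D)) ≤
        Real.exp (s * ((y : ℝ) - 1 / 2 * n)) + Real.exp (-s * ((y : ℝ) - 1 / 2 * n)) := by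
      have h6 : far (s * (w' + 1 : ℕ)) (K + D) ≤ s * |(y : ℝ) - 1 / 2 * n| := by
        unfold Pool.Agent.W_7d29a1_L.far
        rw [mul_assoc]
        push_cast at hr ⊢
        exact mul_le_mul_of_nonneg_left hr hs.le
      refine (Real.exp_le_exp.2 h6).trans ?_
      rcases abs_cases ((y : ℝ) - 1 / 2 * n) with ⟨h7, _⟩ | ⟨h7, _⟩
      · rw [h7]
        linarith [Real.exp_pos (-s * ((y : ℝ) - 1 / 2 * n))]
      · rw [h7]
        have e2 : s * -((y : ℝ) - 1 / 2 * n) = -s * ((y : ℝ) - 1 / 2 * n) := by ring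
        rw [e2]
        linarith [Real.exp_pos (s * ((y : ℝ) - 1 / 2 * n))]
    rw [hf]
    show W μ 0 η ((0 : ℤ), (i : ℤ)) n y ≤ Real.exp (-far (s * (w' + 1 : ℕ)) (K + D)) *
      (W μ 0 η ((0 : ℤ), (i : ℤ)) n y * (Real.exp (s * ((y : ℝ) - 1 / 2 * n)) + Real.exp (-s * ((y : ℝ) - 1 / 2 * n))))
    have h6 := mul_le_mul_of_nonneg_left h5 (mul_nonneg (Real.exp_pos (-far (s * (w' + 1 : ℕ)) (K + D))).le hW)
    have e3 : Real.exp (-far (s * (w' + 1 : ℕ)) (K + D)) * W μ 0 η ((0 : ℤ), (i : ℤ)) n y *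
        Real.exp (far (s * (w' + 1 : ℕ)) (K + D)) = W μ 0 η ((0 : ℤ), (i : ℤ)) n y := by
      rw [mul_comm (Real.exp _) (W _ _ _ _ _ _), mul_assoc, ← Real.exp_add, neg_add_cancel, Real.exp_zero, mul_one]
    rw [e3] at h6
    linarith
  refine (Finset.sum_le_sum h4).trans ?_
  rw [← Finset.mul_sum]
  refine mul_le_mul_of_nonneg_left ?_ (Real.exp_pos _).le
  refine (sum_inj_le f hf0 hfz _ _).trans ?_
  rw [h3]
  exact add_le_add (Real.exp_le_exp.2 h1) (Real.exp_le_exp.2 h2)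

end

end Pool.Agent.W_7d29a1_G
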