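import Pool.Agent.W_7d29a1_G.Cone1

/-!
MP_7d29a1_pr, track G: ONE CONE, second part. helper85
-/

namespace Pool.Agent.W_7d29a1_G

open MeasureTheory ProbabilityTheory Filter Topology Pool.Agent.W_7d29a1_F Pool.Agent.W_7d29a1_h4g
open Pool.Agent.W_7d29a1_h82g

noncomputable section

variable {μ : Measure ℝ}

theorem far_eq (κ : ℝ) (j : ℤ) : Pool.Agent.W_7d29a1_L.far κ j = κ * max (|(j : ℝ)| - 1) 0 := rfl

/-- The sum over the cells with a drift of `K` cells. -/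
theorem sum_shift {a : ℝ} (ha : 0 < a) (K R : ℕ) :
    ∑ D ∈ Finset.Icc (-(R : ℤ)) R, Real.exp (-Pool.Agent.W_7d29a1_L.far a (K + D)) * Real.exp (a / 2 * D) ≤
      Real.exp (a / 2) * (5 + 4 / a) * Real.exp (-(a / 2 * K)) := by
  classical
  obtain ⟨f, hf⟩ : ∃ f : ℤ → ℝ, f = fun j : ℤ => Real.exp (-(a / 2 * max (|(j : ℝ)| - 1) 0)) := ⟨_, rfl⟩
  have h1 : ∀ D ∈ Finset.Icc (-(R : ℤ)) R, Real.exp (-Pool.Agent.W_7d29a1_L.far a (K + D)) * Real.exp (a / 2 * D) ≤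
      Real.exp (a / 2) * Real.exp (-(a / 2 * K)) * f (K + D) := by
    intro D _
    rw [far_eq, hf]
    show _ ≤ Real.exp (a / 2) * Real.exp (-(a / 2 * K)) * Real.exp (-(a / 2 * max (|((K + D : ℤ) : ℝ)| - 1) 0))
    rw [← Real.exp_add, ← Real.exp_add, ← Real.exp_add, Real.exp_le_exp]
    have h2 : ((K + D : ℤ) : ℝ) - 1 ≤ max (|((K + D : ℤ) : ℝ)| - 1) 0 :=
      (sub_le_sub_right (le_abs_self _) 1).trans (le_max_left _ _)
    push_cast at h2 ⊢
    nlinarith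
  refine (Finset.sum_le_sum h1).trans ?_
  rw [← Finset.mul_sum]
  have h2 : ∑ D ∈ Finset.Icc (-(R : ℤ)) R, f (K + D) ≤ 5 + 4 / a := by
    have e1 : ∑ D ∈ Finset.Icc (-(R : ℤ)) R, f (K + D) =
        ∑ j ∈ (Finset.Icc (-(R : ℤ)) R).image (fun D : ℤ => (K : ℤ) + D), f j := by
      rw [Finset.sum_image]
      intro x _ y _ hxy
      simpa using hxy
    rw [e1]
    refine (Finset.sum_le_sum_of_subset_of_nonneg (t := Finset.Icc (-((K + R : ℕ) : ℤ)) ((K + R : ℕ) : ℤ)) ?_ ?_).trans ?_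
    · intro j hj
      rw [Finset.mem_image] at hj
      obtain ⟨D, hD, rfl⟩ := hj
      rw [Finset.mem_Icc] at hD ⊢
      push_cast
      constructor <;> linarith [hD.1, hD.2, Int.natCast_nonneg K]
    · intro j _ _
      rw [hf]
      exact (Real.exp_pos _).le
    · have h3 := Pool.Agent.W_7d29a1_L.sum_far (x := a / 2) (by positivity) (K + R)
      rw [hf]
      refine h3.trans (le_of_eq ?_)
      field_simp
      ring
  have h3 := mul_le_mul_of_nonneg_left h2 (show 0 ≤ Real.exp (a / 2) * Real.exp (-(a / 2 * K)) by positivity)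
  linarith

variable [IsProbabilityMeasure μ]

theorem int_Gc_le (hμ : Pool.Agent.W_7d29a1_h47.EM μ) {s c C : ℝ} (hs : 0 < s) (hC : 1 ≤ C) {n w' : ℕ}
    (hE : c * EE μ n ≤ s * (w' + 1 : ℕ))
    (hM1 : ∫ η, Real.exp (Pool.Agent.W_7d29a1_L.Mh μ 0 (1 / 2) s (w' + 1 : ℕ) (-1) n η / (C * EE μ n)) ∂(law μ) ≤
      4 * Real.exp 1)
    (hM2 : ∫ η, Real.exp (Pool.Agent.W_7d29a1_L.Mh μ 0 (1 / 2) (-s) (w' + 1 : ℕ) (-1) n η / (C * EE μ n)) ∂(law μ) ≤
      4 * Real.exp 1) (K : ℕ) (D : ℤ) :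
    ∫ η, Gc μ 0 w' n (md n + K * (w' + 1)) D η ^ (1 / (C * EE μ n)) ∂(law μ) ≤
      8 * Real.exp 1 * Real.exp (-Pool.Agent.W_7d29a1_L.far (c / C) (K + D)) := by
  have hE1 := one_le_EE (μ := μ) n
  have hCE : 1 ≤ C * EE μ n := by nlinarith
  obtain ⟨θ, hθ⟩ : ∃ θ : ℝ, θ = 1 / (C * EE μ n) := ⟨_, rfl⟩
  have hθ0 : 0 < θ := by rw [hθ]; positivity
  have hθ1 : θ ≤ 1 := by rw [hθ, div_le_one (by linarith)]; exact hCE
  have hi : ∀ r : ℝ, Integrable (fun η => Real.exp (θ * Pool.Agent.W_7d29a1_L.Mh μ 0 (1 / 2) r (w' + 1 : ℕ) (-1) n η))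
      (law μ) := fun r => (Pool.Agent.W_7d29a1_L.Sub_Mh.const_mul θ).exp_int hμ
  have e1 : ∀ x : ℝ, x / (C * EE μ n) = θ * x := fun x => by rw [hθ]; ring
  simp only [e1] at hM1 hM2
  rw [← hθ]
  have hfar : c / C * max (|((K + D : ℤ) : ℝ)| - 1) 0 ≤ θ * Pool.Agent.W_7d29a1_L.far (s * (w' + 1 : ℕ)) (K + D) := by
    rw [far_eq, ← mul_assoc]
    refine mul_le_mul_of_nonneg_right ?_ (le_max_right _ _)
    have h1 := mul_le_mul_of_nonneg_left hE hθ0.le
    refine le_trans (le_of_eq ?_) h1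
    rw [hθ]
    field_simp
  have hpt : ∀ η : Env, Gc μ 0 w' n (md n + K * (w' + 1)) D η ^ θ ≤
      Real.exp (-Pool.Agent.W_7d29a1_L.far (c / C) (K + D)) *
        (Real.exp (θ * Pool.Agent.W_7d29a1_L.Mh μ 0 (1 / 2) s (w' + 1 : ℕ) (-1) n η) +
          Real.exp (θ * Pool.Agent.W_7d29a1_L.Mh μ 0 (1 / 2) (-s) (w' + 1 : ℕ) (-1) n η)) := by
    intro η
    have h1 := Real.rpow_le_rpow (Gc_nonneg _ _ _ _ _) (Gc_le_far (μ := μ) hs w' n K D η) hθ0.le
    refine h1.trans ?_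
    rw [Real.mul_rpow (Real.exp_pos _).le (by positivity)]
    have h2 := Real.rpow_add_le_add_rpow
      (Real.exp_pos (Pool.Agent.W_7d29a1_L.Mh μ 0 (1 / 2) s (w' + 1 : ℕ) (-1) n η)).le
      (Real.exp_pos (Pool.Agent.W_7d29a1_L.Mh μ 0 (1 / 2) (-s) (w' + 1 : ℕ) (-1) n η)).le hθ0.le hθ1
    rw [← Real.exp_mul, ← Real.exp_mul, mul_comm _ θ, mul_comm _ θ] at h2
    refine mul_le_mul ?_ h2 (by positivity) (Real.exp_pos _).le
    rw [← Real.exp_mul, Real.exp_le_exp, far_eq (c / C)]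
    linarith [mul_comm θ (Pool.Agent.W_7d29a1_L.far (s * (w' + 1 : ℕ)) (K + D))]
  refine (integral_mono (integrable_Gc hμ w' n _ D hθ0.le) (((hi s).add (hi (-s))).const_mul _) hpt).trans ?_
  rw [integral_const_mul]
  have h3 : ∫ η, (Real.exp (θ * Pool.Agent.W_7d29a1_L.Mh μ 0 (1 / 2) s (w' + 1 : ℕ) (-1) n η) +
      Real.exp (θ * Pool.Agent.W_7d29a1_L.Mh μ 0 (1 / 2) (-s) (w' + 1 : ℕ) (-1) n η)) ∂(law μ) ≤ 8 * Real.exp 1 := by
    rw [integral_add (hi s) (hi (-s))]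
    linarith
  have h4 := mul_le_mul_of_nonneg_left h3 (Real.exp_pos (-Pool.Agent.W_7d29a1_L.far (c / C) (K + D))).le
  refine h4.trans (le_of_eq (by ring))

/-- ONE CONE. -/
theorem wA_le_cone (hμ : Pool.Agent.W_7d29a1_h47.EM μ) (hnd : Pool.Agent.W_7d29a1_h47.Nondeg μ) {c C : ℝ}
    (hc : 0 < c) (hC : 1 ≤ C) : ∃ K : ℝ, 1 ≤ K ∧ ∀ (n w : ℕ) (s : ℝ), 1 ≤ n → 1 ≤ w → 0 < s → c * EE μ n ≤ s * w →
      ∫ η, Real.exp (Pool.Agent.W_7d29a1_L.Mh μ 0 (1 / 2) s w (-1) n η / (C * EE μ n)) ∂(law μ) ≤ 4 * Real.exp 1 →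
      ∫ η, Real.exp (Pool.Agent.W_7d29a1_L.Mh μ 0 (1 / 2) (-s) w (-1) n η / (C * EE μ n)) ∂(law μ) ≤ 4 * Real.exp 1 →
      wA μ n ≤ K * w := by
  obtain ⟨a, ha⟩ : ∃ a : ℝ, a = c / C := ⟨_, rfl⟩
  have ha0 : 0 < a := by rw [ha]; positivity
  obtain ⟨C1, hC1⟩ : ∃ C1 : ℝ, C1 = 8 * Real.exp 1 * (Real.exp (a / 2) * (5 + 4 / a)) := ⟨_, rfl⟩
  have hC10 : 0 < C1 := by rw [hC1]; positivity
  obtain ⟨K, hK⟩ : ∃ K : ℕ, (2 / a) * (1 + Real.log C1) < K := exists_nat_gt _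
  obtain ⟨L, hL⟩ : ∃ L : ℕ, L = K + 1 := ⟨_, rfl⟩
  have hLK : (2 / a) * (1 + Real.log C1) ≤ L := by
    rw [hL]; push_cast; linarith
  have hL1 : (1 : ℝ) ≤ L := by rw [hL]; push_cast; linarith [Nat.cast_nonneg (α := ℝ) K]
  refine ⟨L + 1, by linarith, fun n w s hn hw hs hE hM1 hM2 => ?_⟩
  obtain ⟨w', rfl⟩ : ∃ w', w = w' + 1 := ⟨w - 1, by omega⟩
  have hn0 : (0 : ℝ) < n := by exact_mod_cast (show 0 < n by omega)
  have hw0 : (0 : ℝ) < ((w' + 1 : ℕ) : ℝ) := by positivity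
  have hE1 := one_le_EE (μ := μ) n
  have hCE : 1 ≤ C * EE μ n := by nlinarith
  obtain ⟨v', hv'⟩ : ∃ v' : ℝ, v' = ((L : ℝ) + 1) * (w' + 1 : ℕ) / n := ⟨_, rfl⟩
  have hv'0 : 0 < v' := by rw [hv']; positivity
  have hvn : v' * n = ((L : ℝ) + 1) * (w' + 1 : ℕ) := by
    rw [hv']
    field_simp
  rw [← hvn]
  unfold wA
  refine mul_le_mul_of_nonneg_right ?_ hn0.le
  rcases le_or_gt (1 / 2) v' with hbig | hsm
  · exact (vA_le hμ zero_le_one n).trans hbig
  obtain ⟨r, hr0, hr⟩ := exists_deriv hμ hnd hv'0 hsm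
  obtain ⟨d, hd⟩ : ∃ d : ℤ, d = md n + L * (w' + 1) := ⟨_, rfl⟩
  have hmd : (n : ℝ) / 2 - 1 / 2 ≤ md n ∧ (md n : ℝ) ≤ n / 2 := by
    have h5 : 2 * md n ≤ n ∧ (n : ℤ) ≤ 2 * md n + 1 := by unfold md; omega
    have h6 : (2 : ℝ) * md n ≤ n := by exact_mod_cast h5.1
    have h7 : (n : ℝ) ≤ 2 * md n + 1 := by exact_mod_cast h5.2
    constructor <;> linarith
  have hLw : (L : ℝ) * (w' + 1) ≤ v' * n - (w' + 1 : ℕ) := by
    rw [hvn]
    push_cast
    linarith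
  have hvn2 : v' * n < n / 2 := by nlinarith
  have hd0 : 0 ≤ d := by
    rw [hd]
    have := md_nonneg n
    positivity
  have hdr : (d : ℝ) = md n + L * (w' + 1) := by rw [hd]; push_cast; ring
  have hd1 : d ≤ n := by
    have : (d : ℝ) ≤ n := by
      rw [hdr]
      linarith [hmd.2]
    exact_mod_cast this
  obtain ⟨v, hv⟩ : ∃ v : ℝ, v = (L : ℝ) * (w' + 1) / n := ⟨_, rfl⟩
  have hv0 : 0 ≤ v := by rw [hv]; positivity
  have hvn3 : v * n = (L : ℝ) * (w' + 1) := by rw [hv]; field_simp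
  have hvv : v < deriv (LL μ) r := by
    rw [hr]
    have : v * n < v' * n := by rw [hvn3]; linarith
    exact lt_of_mul_lt_mul_right this hn0.le
  have hlog := cell_log (s := 0) hμ w' n hd0 hd1 (t := 1 / (C * EE μ n)) (by positivity)
    (by rw [div_le_one (by linarith)]; exact hCE)
    (g := fun D => 8 * Real.exp 1 * Real.exp (-Pool.Agent.W_7d29a1_L.far a (L + D)))
    (fun D => by
      rw [hd, ha]
      exact int_Gc_le hμ hs hC hE hM1 hM2 L D)
    (σ := a / 2) (κ := C1 * Real.exp (-(a / 2 * L))) (fun R => by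
      have h1 := sum_shift ha0 L R
      have h2 := mul_le_mul_of_nonneg_left h1 (show 0 ≤ 8 * Real.exp 1 by positivity)
      rw [Finset.mul_sum] at h2
      refine le_trans (le_of_eq (Finset.sum_congr rfl fun D _ => by ring)) (h2.trans (le_of_eq ?_))
      rw [hC1]
      ring)
    (c := n * J μ v') (fun ε hε => by
      have h1 := up_tilt hμ hnd hr0 hv0 hvv (ε := ε / n) (by positivity)
      rw [hr] at h1
      have h2 : Tendsto (fun M : ℕ => M * n) atTop atTop := by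
        refine tendsto_atTop_mono (fun M => ?_) tendsto_id
        exact Nat.le_mul_of_pos_right M (by omega)
      obtain ⟨M, hM, hM1⟩ := ((h2.eventually h1).and (eventually_ge_atTop 1)).exists
      refine ⟨M, hM1, ?_⟩
      have hM0 : (0 : ℝ) < M := by exact_mod_cast (show 0 < M by omega)
      have hq0 : (0 : ℤ) ≤ M * d := by positivity
      have hq1 : (M * d : ℤ) ≤ ((M * n : ℕ) : ℤ) := by
        push_cast
        exact mul_le_mul_of_nonneg_left hd1 (by positivity)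
      have h3 : (M * d : ℤ) ∈ Cn (M * n) v := by
        rw [mem_Cn]
        refine ⟨hq0, hq1, ?_⟩
        push_cast
        rw [hdr]
        have e1 : (M : ℝ) * (md n + L * (w' + 1)) - M * n / 2 = M * (L * (w' + 1) + (md n - n / 2)) := by ring
        have e2 : v * (M * n) = M * (L * (w' + 1)) := by
          rw [← hvn3]
          ring
        rw [e1, e2, abs_mul, abs_of_pos hM0]
        have h4 : |(L : ℝ) * (w' + 1) + (md n - n / 2)| ≤ L * (w' + 1) := by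
          have h5 : (1 : ℝ) ≤ L * (w' + 1) := by nlinarith [Nat.cast_nonneg (α := ℝ) w']
          rw [abs_le]
          constructor <;> linarith [hmd.1, hmd.2]
        have := mul_le_mul_of_nonneg_left h4 hM0.le
        linarith
      have h4 := (e_le_ep hμ hq0 hq1).trans ((le_An h3).trans hM)
      refine h4.trans (le_of_eq ?_)
      push_cast
      field_simp)
  rw [Real.log_mul hC10.ne' (Real.exp_pos _).ne', Real.log_exp] at hlog
  have hone : 1 ≤ a / 2 * L - Real.log C1 := by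
    have h1 := mul_le_mul_of_nonneg_left hLK (show 0 ≤ a / 2 by positivity)
    have e1 : a / 2 * (2 / a * (1 + Real.log C1)) = 1 + Real.log C1 := by field_simp
    rw [e1] at h1
    linarith
  have hJ : C * EE μ n ≤ n * J μ v' := by
    have h1 : 1 ≤ 1 / (C * EE μ n) * (n * J μ v') := by linarith
    rw [one_div, inv_mul_eq_div, le_div_iff₀ (by linarith), one_mul] at h1
    exact h1
  by_contra hcon
  rw [not_le] at hcon
  have h1 := J_strict hμ hnd hv'0.le hcon (vA_le hμ zero_le_one n)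
  have h2 := vA_mem (μ := μ) hμ (A := 1) zero_le_one n
  have h3 : (n : ℝ) * J μ v' < n * J μ (vA μ 1 n) := mul_lt_mul_of_pos_left h1 hn0
  nlinarith

/-- FrOut implies FrW (one cone). -/
theorem frW_of_frOut (hμ : Pool.Agent.W_7d29a1_h47.EM μ) (hnd : Pool.Agent.W_7d29a1_h47.Nondeg μ) (h : FrOut μ) :
    FrW μ := by
  obtain ⟨A, C, c, n₀, hc, h⟩ := h
  obtain ⟨B, hB⟩ : ∃ B : ℝ, B = max C (max A 1) := ⟨_, rfl⟩
  have hCB : C ≤ B := hB ▸ le_max_left _ _
  have hAB : A ≤ B := hB ▸ (le_max_left _ _).trans (le_max_right _ _)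
  have hB1 : 1 ≤ B := hB ▸ (le_max_right _ _).trans (le_max_right _ _)
  obtain ⟨K, hK1, hK⟩ := wA_le_cone (μ := μ) hμ hnd (c := c / 2) (by positivity) hB1
  obtain ⟨D, n₁, hD1, hn₁, hD⟩ := w_le_wA (μ := μ) hμ hnd A
  refine ⟨B + K + D, c / 2, max n₀ n₁, by positivity, by linarith, hn₁.trans (le_max_right _ _), fun n hn => ?_⟩
  obtain ⟨w, r, Y, hw1, hwn, hr, hY1, hYC, hr1, hr2, he, hM⟩ := h n ((le_max_left _ _).trans hn)
  have hn1 : 1 ≤ n := by
    have := (hn₁.trans (le_max_right n₀ n₁)).trans hn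
    omega
  have hE1 := one_le_EE (μ := μ) n
  have hw0 : (1 : ℝ) ≤ w := by exact_mod_cast hw1
  have hmono : ∀ (t z B' : ℝ), B ≤ B' →
      ∫ η, Real.exp (Pool.Agent.W_7d29a1_L.Mh μ 0 (1 / 2) t w z n η / Y) ∂(law μ) ≤ 4 * Real.exp 1 →
      ∫ η, Real.exp (Pool.Agent.W_7d29a1_L.Mh μ 0 (1 / 2) t w z n η / (B' * EE μ n)) ∂(law μ) ≤ 4 * Real.exp 1 := by
    intro t z B' hB' h1
    refine le_trans (integral_mono ?_ ?_ fun η => ?_) h1
    · have := (Pool.Agent.W_7d29a1_L.Sub_Mh (μ := μ) (s := 0) (v := 1 / 2) (h := t) (w := w) (z := z)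
        (n := n)).const_mul (1 / (B' * EE μ n)) |>.exp_int hμ
      refine this.congr (Filter.Eventually.of_forall fun η => ?_)
      show Real.exp _ = Real.exp _
      congr 1
      ring
    · have := (Pool.Agent.W_7d29a1_L.Sub_Mh (μ := μ) (s := 0) (v := 1 / 2) (h := t) (w := w) (z := z)
        (n := n)).const_mul (1 / Y) |>.exp_int hμ
      refine this.congr (Filter.Eventually.of_forall fun η => ?_)
      show Real.exp _ = Real.exp _
      congr 1
      ring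
    · refine Real.exp_le_exp.2 (div_le_div_of_nonneg_left (Pool.Agent.W_7d29a1_L.Mh_nonneg η) (by linarith) ?_)
      have := mul_le_mul_of_nonneg_right (hCB.trans hB') (show 0 ≤ EE μ n by linarith)
      linarith
  refine ⟨w, r / 2, hw1, hwn, by positivity, ?_, ?_, by linarith, ?_, ?_, fun z => ⟨?_, ?_⟩⟩
  · have h1 := hK n w (r / 2) hn1 hw1 (by positivity) (by linarith) (hmono _ _ B le_rfl (hM (-1)).1)
      (hmono _ _ B le_rfl (hM (-1)).2)
    nlinarith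
  · have h1 := hD n w ((le_max_right _ _).trans hn) hw1 hwn he
    have h2 := wA_nonneg (μ := μ) hμ n
    nlinarith
  · have h1 := mul_le_mul_of_nonneg_right hCB (show 0 ≤ EE μ n by linarith)
    nlinarith
  · intro y hy
    refine (he y hy).trans ?_
    have h1 := mul_le_mul_of_nonneg_right hAB (show 0 ≤ EE μ n by linarith)
    nlinarith
  · exact hmono _ _ _ (by linarith) (hM z).1
  · exact hmono _ _ _ (by linarith) (hM z).2

end

end Pool.Agent.W_7d29a1_G
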