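import Pool.Agent.W_7d29a1_G.FR0
import Pool.Agent.W_7d29a1_g.GateRec

/-!
MP_7d29a1_pr, track G, section D4 (proofs row 619, single scale tube): growth of the unit on a stretch without soft scale. The inputs.

Slopes are ABSOLUTE: the only parameter of the edge is `b - a` where `a ≤ vA μ A₀ l` and `vA μ A₁ l ≤ b` for all times `l` of the
range which is used.
-/

namespace Pool.Agent.W_7d29a1_G

open MeasureTheory ProbabilityTheory Filter Topology Pool.Agent.W_7d29a1_F Pool.Agent.W_7d29a1_h4g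
open Pool.Agent.W_7d29a1_g (Em HasPath eR Gate Tube)

/-- The frame constants: the cone (row 620) and the inner edge (row 622). -/
structure FrD (μ : Measure ℝ) (A₀ A₁ c₀ C₀ Ci c₁ : ℝ) (n₀ : ℕ) : Prop where
  hA₀ : 1 ≤ A₀
  hA₁ : A₀ < A₁
  hc₀ : 0 < c₀
  hCi : 0 ≤ Ci
  hc₁ : 1 ≤ c₁
  cone : ∀ n, n₀ ≤ n → ∀ m : ℕ, m ≤ 4 * n → ∀ y : ℤ, |(y : ℝ) - m / 2| ≤ c₀ * vA μ A₀ n * m →
    ep μ m y ≤ C₀ * EE μ n
  inner : ∀ n, n₀ ≤ n → ∀ y : ℤ, |(y : ℝ) - n / 2| ≤ (vA μ A₀ n - Ci * (vA μ A₁ n - vA μ A₀ n)) * n →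
    e μ 0 n y ≤ c₁ * EE μ n

/-- (I1): at a scale which is not soft the unit is the bulk. -/
def HI1 (μ : Measure ℝ) : Prop :=
  ∃ (α : ℝ) (z₀ : ℕ), ∀ z, z₀ ≤ z → ¬ Sf μ z α → EE μ (2 ^ z) ≤ 2 * Em μ (2 ^ z) + 2

/-- (D7), row 618: if no scale near `z` is soft then the bulk does not grow. -/
def HD7 (μ : Measure ℝ) : Prop :=
  ∀ s₀ : ℝ, 0 < s₀ → ∃ (α : ℝ) (k z₀ : ℕ), ∀ z, z₀ ≤ z → (∀ z', z ≤ z' + k → z' ≤ z + k → ¬ Sf μ z' α) →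
    1 + Em μ (2 ^ (z + 1)) ≤ (1 + s₀) * (1 + Em μ (2 ^ z))

end Pool.Agent.W_7d29a1_G
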