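import Pool.Agent.W_7d29a1_G.Unit2a
import Pool.Agent.W_7d29a1_g.FrameA
import Pool.Agent.W_7d29a1_F.CoreC3
import Pool.Agent.W_7d29a1_h47.FinF

/-!
MP_7d29a1_pr, track G, the unit: the asymptotic upper bound `An n v ≤ (J (2 v) + ε) n`.
-/

namespace Pool.Agent.W_7d29a1_G

open MeasureTheory ProbabilityTheory Filter Topology Pool.Agent.W_7d29a1_F

variable {μ : Measure ℝ} [IsProbabilityMeasure μ]

theorem int_X (hμ : Pool.Agent.W_7d29a1_h47.EM μ) (s : ℝ) {n : ℕ} {y : ℤ}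
    (h0 : 0 ≤ y) (h1 : y ≤ n) : Integrable (fun η => X μ s η 0 n y) (law μ) :=
  Sub.integrable hμ (Sub_X 0 h0 h1)

theorem int_Xp (hμ : Pool.Agent.W_7d29a1_h47.EM μ) (s : ℝ) {n : ℕ} {y : ℤ}
    (h0 : 0 ≤ y) (h1 : y ≤ n) : Integrable (fun η => max (X μ s η 0 n y) 0) (law μ) :=
  (int_X hμ s h0 h1).pos_part

theorem e_le_ep (hμ : Pool.Agent.W_7d29a1_h47.EM μ) {n : ℕ} {y : ℤ} (h0 : 0 ≤ y) (h1 : y ≤ n) :
    e μ 0 n y ≤ ep μ n y := by
  unfold e ep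
  exact integral_mono (int_X hμ 0 h0 h1) (int_Xp hμ 0 h0 h1) fun η => le_max_left _ _

theorem ep_le (hμ : Pool.Agent.W_7d29a1_h47.EM μ) : ∃ C : ℝ, 0 ≤ C ∧ ∀ (n : ℕ) (y : ℤ), 1 ≤ n →
    0 ≤ y → y ≤ n → ep μ n y ≤ e μ 0 n y + C * Real.sqrt n := by
  obtain ⟨C, hC⟩ := var_X hμ 0
  refine ⟨(|C| + 1) / 2, by positivity, fun n y hn h0 h1 => ?_⟩
  have hn0 : (0 : ℝ) < n := by exact_mod_cast hn
  obtain ⟨a, ha⟩ : ∃ a : ℝ, a = Real.sqrt n := ⟨_, rfl⟩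
  have ha0 : 0 < a := by rw [ha]; exact Real.sqrt_pos.2 hn0
  have haa : a * a = n := by rw [ha]; exact Real.mul_self_sqrt hn0.le
  have he := e_nonneg hμ 0 h0 h1
  have hX := int_X hμ 0 h0 h1
  have hX2 : Integrable (fun η => X μ 0 η 0 n y ^ 2) (law μ) := Sub.sq_integrable hμ (Sub_X 0 h0 h1)
  have hD : Integrable (fun η => (X μ 0 η 0 n y - e μ 0 n y) ^ 2) (law μ) := by
    have h2 := (hX2.sub (hX.const_mul (2 * e μ 0 n y))).add (integrable_const (e μ 0 n y ^ 2))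
    refine h2.congr (Eventually.of_forall fun η => ?_)
    simp only [Pi.add_apply, Pi.sub_apply]
    ring
  have hpt : ∀ η, max (X μ 0 η 0 n y) 0 ≤
      X μ 0 η 0 n y + ((2 * a)⁻¹ * (X μ 0 η 0 n y - e μ 0 n y) ^ 2 + a / 2) := by
    intro η
    set x := X μ 0 η 0 n y
    have h3 : 0 ≤ (2 * a)⁻¹ * (x - e μ 0 n y) ^ 2 := by positivity
    rcases le_total 0 x with h | h
    · rw [max_eq_left h]
      linarith
    · rw [max_eq_right h]
      have h4 : x ^ 2 ≤ (x - e μ 0 n y) ^ 2 := by nlinarith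
      have h5 : -x ≤ (2 * a)⁻¹ * x ^ 2 + a / 2 := by
        have : 0 ≤ (2 * a)⁻¹ * (x + a) ^ 2 := by positivity
        have e1 : (2 * a)⁻¹ * (x + a) ^ 2 = (2 * a)⁻¹ * x ^ 2 + a / 2 + x := by
          field_simp
          ring
        linarith
      have h6 : (2 * a)⁻¹ * x ^ 2 ≤ (2 * a)⁻¹ * (x - e μ 0 n y) ^ 2 :=
        mul_le_mul_of_nonneg_left h4 (by positivity)
      linarith
  have h7 : ep μ n y ≤ e μ 0 n y + ((2 * a)⁻¹ * ∫ η, (X μ 0 η 0 n y - e μ 0 n y) ^ 2 ∂(law μ) + a / 2) := by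
    have hI : Integrable (fun η => (2 * a)⁻¹ * (X μ 0 η 0 n y - e μ 0 n y) ^ 2 + a / 2) (law μ) :=
      (hD.const_mul (2 * a)⁻¹).add (integrable_const (a / 2))
    have h8 := integral_mono (int_Xp hμ 0 h0 h1) (hX.add hI) hpt
    have e1 : ∫ η, (X μ 0 η 0 n y + ((2 * a)⁻¹ * (X μ 0 η 0 n y - e μ 0 n y) ^ 2 + a / 2)) ∂(law μ) =
        e μ 0 n y + ((2 * a)⁻¹ * ∫ η, (X μ 0 η 0 n y - e μ 0 n y) ^ 2 ∂(law μ) + a / 2) := by
      rw [integral_add hX hI, integral_add (hD.const_mul (2 * a)⁻¹) (integrable_const (a / 2)),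
        integral_const_mul, integral_const]
      simp [e]
    rw [← e1]
    exact h8
  have h9 : (2 * a)⁻¹ * ∫ η, (X μ 0 η 0 n y - e μ 0 n y) ^ 2 ∂(law μ) ≤ |C| / 2 * a := by
    have h10 : ∫ η, (X μ 0 η 0 n y - e μ 0 n y) ^ 2 ∂(law μ) ≤ |C| * (a * a) := by
      rw [haa]
      exact (hC n y h0 h1).trans (mul_le_mul_of_nonneg_right (le_abs_self C) hn0.le)
    calc (2 * a)⁻¹ * ∫ η, (X μ 0 η 0 n y - e μ 0 n y) ^ 2 ∂(law μ) ≤ (2 * a)⁻¹ * (|C| * (a * a)) :=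
          mul_le_mul_of_nonneg_left h10 (by positivity)
      _ = |C| / 2 * a := by field_simp
  rw [← ha]
  linarith

/-- The centre is in the cone. -/
theorem half_mem_Cn (n : ℕ) {v : ℝ} (hv : 0 ≤ v) : ((n / 2 : ℕ) : ℤ) ∈ Cn n v := by
  rw [mem_Cn]
  refine ⟨by positivity, by exact_mod_cast Nat.div_le_self n 2, ?_⟩
  have h1 : (n : ℝ) / 2 - 1 ≤ ((n / 2 : ℕ) : ℝ) := by
    have : n ≤ 2 * (n / 2) + 1 := by omega
    have h2 : (n : ℝ) ≤ 2 * ((n / 2 : ℕ) : ℝ) + 1 := by exact_mod_cast this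
    linarith
  have h2 : ((n / 2 : ℕ) : ℝ) ≤ n / 2 := Nat.cast_div_le
  have h3 : 0 ≤ v * n := by positivity
  rw [Int.cast_natCast, abs_le]
  constructor <;> linarith

omit [IsProbabilityMeasure μ] in
theorem An_fin (n : ℕ) (v : ℝ) : {r | ∃ y ∈ Cn n v, r = ep μ n y}.Finite := by
  refine ((Cn n v).finite_toSet.image (ep μ n)).subset ?_
  rintro r ⟨y, hy, rfl⟩
  exact ⟨y, hy, rfl⟩

omit [IsProbabilityMeasure μ] in
theorem An_le {n : ℕ} {v c : ℝ} (hv : 0 ≤ v) (h : ∀ y ∈ Cn n v, ep μ n y ≤ c) : An μ n v ≤ c := by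
  refine csSup_le ⟨_, _, half_mem_Cn n hv, rfl⟩ ?_
  rintro r ⟨y, hy, rfl⟩
  exact h y hy

omit [IsProbabilityMeasure μ] in
theorem le_An {n : ℕ} {v : ℝ} {y : ℤ} (hy : y ∈ Cn n v) : ep μ n y ≤ An μ n v :=
  le_csSup (An_fin n v).bddAbove ⟨y, hy, rfl⟩

/-- The upper bound from one tilt. -/
theorem up_tilt (hμ : Pool.Agent.W_7d29a1_h47.EM μ) (hnd : Pool.Agent.W_7d29a1_h47.Nondeg μ)
    {s v ε : ℝ} (hs : 0 ≤ s) (hv : 0 ≤ v) (hsv : v < deriv (LL μ) s) (hε : 0 < ε) :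
    ∀ᶠ n : ℕ in atTop, An μ n v ≤ (J μ (deriv (LL μ) s) + ε) * n := by
  obtain ⟨w, hw⟩ : ∃ w : ℝ, w = deriv (LL μ) s := ⟨_, rfl⟩
  rw [← hw] at hsv ⊢
  obtain ⟨C1, hC1⟩ := exists_cheap hμ s
  obtain ⟨C2, hC2⟩ := exists_cheap hμ (-s)
  obtain ⟨C3, hC3, hep⟩ := ep_le hμ
  have hneg : deriv (LL μ) (-s) = -w := by
    have h6 : HasDerivAt (fun x => LL μ (-x)) (-(deriv (LL μ) (-s))) s := by
      have h9 := (LL_hasDerivAt hμ hnd (-s)).comp s (hasDerivAt_neg s)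
      rw [mul_neg, mul_one] at h9
      exact h9
    have h7 : (fun x => LL μ (-x)) = LL μ := funext fun x => LL_neg hμ x
    rw [h7] at h6
    have := h6.unique (LL_hasDerivAt hμ hnd s)
    rw [hw]
    linarith
  obtain ⟨δ, hδ, hδ1, hδ2⟩ : ∃ δ : ℝ, 0 < δ ∧ δ ≤ (w - v) / 2 ∧ s * δ ≤ ε / 4 := by
    refine ⟨min ((w - v) / 2) (ε / (4 * (s + 1))), lt_min (by linarith) (by positivity), min_le_left _ _, ?_⟩
    have h1 : min ((w - v) / 2) (ε / (4 * (s + 1))) ≤ ε / (4 * (s + 1)) := min_le_right _ _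
    have h2 : s * (ε / (4 * (s + 1))) ≤ (s + 1) * (ε / (4 * (s + 1))) :=
      mul_le_mul_of_nonneg_right (by linarith) (by positivity)
    have h3 : (s + 1) * (ε / (4 * (s + 1))) = ε / 4 := by field_simp
    have h4 := mul_le_mul_of_nonneg_left h1 hs
    linarith
  have hpow : ∀ C : ℝ, ∀ᶠ n : ℕ in atTop, C * (n : ℝ) ^ (4 / 5 : ℝ) ≤ ε / 4 * n := by
    intro C
    have h4 : Tendsto (fun n : ℕ => (n : ℝ) ^ (-(1 / 5) : ℝ)) atTop (𝓝 0) :=
      (tendsto_rpow_neg_atTop (by norm_num)).comp tendsto_natCast_atTop_atTop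
    have h5 := (h4.const_mul C).eventually (eventually_lt_nhds (show C * 0 < ε / 4 by
      rw [mul_zero]; positivity))
    filter_upwards [h5, eventually_ge_atTop 1] with n h6 h7
    have hn : (0 : ℝ) < n := by exact_mod_cast h7
    have h8 : (n : ℝ) ^ (4 / 5 : ℝ) = (n : ℝ) ^ (-(1 / 5) : ℝ) * n := by
      rw [← Real.rpow_add_one hn.ne']
      norm_num
    rw [h8, ← mul_assoc]
    exact mul_le_mul_of_nonneg_right h6.le hn.le
  have hsq : ∀ᶠ n : ℕ in atTop, C3 * Real.sqrt n ≤ ε / 4 * n := by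
    filter_upwards [hpow C3, eventually_ge_atTop 1] with n h6 h7
    have hn : (1 : ℝ) ≤ n := by exact_mod_cast h7
    refine le_trans (mul_le_mul_of_nonneg_left ?_ hC3) h6
    rw [Real.sqrt_eq_rpow]
    exact Real.rpow_le_rpow_of_exponent_le hn (by norm_num)
  have hbig : ∀ᶠ n : ℕ in atTop, 2 ≤ (w - v) / 2 * (n : ℝ) :=
    (tendsto_natCast_atTop_atTop.const_mul_atTop (show 0 < (w - v) / 2 by linarith)).eventually
      (eventually_ge_atTop 2)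
  filter_upwards [cheap_slope hμ hnd s C1 hδ, cheap_slope hμ hnd (-s) C2 hδ, hpow C1, hpow C2, hsq, hbig,
    eventually_ge_atTop 1] with n k1 k2 k3 k4 k5 k6 hn1
  have hn0 : (0 : ℝ) ≤ n := Nat.cast_nonneg n
  obtain ⟨y1, p0, p1, p2⟩ := hC1 n hn1
  obtain ⟨y2, q0, q1, q2⟩ := hC2 n hn1
  have l1 := k1 y1 p0 p1 p2
  have l2 := k2 y2 q0 q1 q2
  rw [← hw] at l1
  rw [hneg] at l2
  rw [abs_le] at l1 l2
  have hδn : δ * n ≤ (w - v) / 2 * n := mul_le_mul_of_nonneg_right hδ1 hn0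
  have hJ : J μ w = s * w - LL μ s := by rw [hw]; exact J_deriv hμ hnd s
  have m1 : e μ 0 n y1 ≤ (J μ w + ε / 2) * n := by
    rw [e_tilt hμ s 0 p0 p1, LL_zero, hJ]
    have : s * ((y1 : ℝ) - n / 2) ≤ s * (w * n + δ * n) := mul_le_mul_of_nonneg_left (by linarith) hs
    have h2 : s * δ * n ≤ ε / 4 * n := mul_le_mul_of_nonneg_right hδ2 hn0
    nlinarith
  have m2 : e μ 0 n y2 ≤ (J μ w + ε / 2) * n := by
    rw [e_tilt hμ (-s) 0 q0 q1, LL_zero, LL_neg hμ, hJ]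
    have : s * (-((y2 : ℝ) - n / 2)) ≤ s * (w * n + δ * n) := mul_le_mul_of_nonneg_left (by linarith) hs
    have h2 : s * δ * n ≤ ε / 4 * n := mul_le_mul_of_nonneg_right hδ2 hn0
    nlinarith
  refine An_le hv fun y hy => ?_
  obtain ⟨r0, r1, r2⟩ := mem_Cn.1 hy
  rw [abs_le] at r2
  have o1 : y ≤ y1 := by
    have : (y : ℝ) ≤ y1 := by nlinarith
    exact_mod_cast this
  have o2 : y2 ≤ y := by
    have : (y2 : ℝ) ≤ y := by nlinarith
    exact_mod_cast this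
  have h10 := e_le_max (s := 0) hμ q0 o2 o1 p1
  have h11 := hep n y hn1 r0 r1
  have h12 : e μ 0 n y ≤ (J μ w + ε / 2) * n := h10.trans (max_le m2 m1)
  nlinarith

theorem deriv_pos (hμ : Pool.Agent.W_7d29a1_h47.EM μ) (hnd : Pool.Agent.W_7d29a1_h47.Nondeg μ)
    {s : ℝ} (hs : 0 < s) : 0 < LL μ s ∧ 0 < deriv (LL μ) s := by
  have h1 : 0 < LL μ s := by
    have h2 := (Pool.Agent.W_7d29a1_h47.Lam_strictConvex hμ hnd).2 (Set.mem_univ (s / 2))
      (Set.mem_univ (-(s / 2))) (by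
        intro h
        linarith) (show (0 : ℝ) < 1 / 2 by norm_num) (show (0 : ℝ) < 1 / 2 by norm_num) (by norm_num)
    simp only [smul_eq_mul] at h2
    rw [show 1 / 2 * (s / 2) + 1 / 2 * -(s / 2) = 0 by ring, Pool.Agent.W_7d29a1_h47.Lam_even] at h2
    unfold LL lam
    rw [zero_div]
    linarith
  refine ⟨h1, ?_⟩
  have h3 := LL_tangent hμ hnd s 0
  rw [LL_zero] at h3
  by_contra h
  rw [not_lt] at h
  nlinarith

/-- **The asymptotic upper bound.** -/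
theorem up (hμ : Pool.Agent.W_7d29a1_h47.EM μ) (hnd : Pool.Agent.W_7d29a1_h47.Nondeg μ) :
    Pool.Agent.W_7d29a1_g.Up (An μ) (fun v => J μ (2 * v)) := by
  intro v h0 h1 ε hε
  rcases h0.eq_or_lt with h | h
  · subst h
    obtain ⟨s, hs⟩ : ∃ s : ℝ, s = ε := ⟨_, rfl⟩
    have hs0 : 0 < s := by rw [hs]; exact hε
    have h2 := deriv_pos hμ hnd hs0
    have h3 := LL_le hμ hnd s
    filter_upwards [up_tilt hμ hnd hs0.le le_rfl h2.2 (half_pos hε)] with n hn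
    refine hn.trans (mul_le_mul_of_nonneg_right ?_ (Nat.cast_nonneg n))
    have h4 : J μ (deriv (LL μ) s) ≤ ε / 2 := by
      rw [J_deriv hμ hnd s]
      have := (abs_lt.1 h3).2
      nlinarith [h2.1]
    have h5 : 0 ≤ J μ 0 := by
      have := J_ge hμ (v := 0) (by norm_num) 0
      rw [LL_zero] at this
      linarith
    change J μ (deriv (LL μ) s) + ε / 2 ≤ J μ (2 * 0) + ε
    rw [mul_zero]
    linarith
  · obtain ⟨s, hs0, hs⟩ := exists_deriv hμ hnd (v := 3 / 2 * v) (by linarith) (by linarith)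
    filter_upwards [up_tilt hμ hnd hs0 h0 (by rw [hs]; linarith) hε] with n hn
    refine hn.trans (mul_le_mul_of_nonneg_right ?_ (Nat.cast_nonneg n))
    have h4 := J_mono' hμ (u := 3 / 2 * v) (v := 2 * v) (by linarith) (by linarith) (by linarith)
    rw [hs]
    linarith

end Pool.Agent.W_7d29a1_G
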