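import Pool.Agent.W_7d29a1_G.FR0
import Pool.Agent.W_7d29a1_g.CrossRec
import Pool.Agent.W_7d29a1_G.Unit2b

/-!
MP_7d29a1_pr, track G, section D4: the sum of the widths telescopes, slow growth on a stretch, comparison of the slopes `vA`
(row 619, (7.1) and section 8 (b)). Owner helper17.
-/

namespace Pool.Agent.W_7d29a1_G

open MeasureTheory ProbabilityTheory Filter Topology Pool.Agent.W_7d29a1_F Pool.Agent.W_7d29a1_h4g
open Pool.Agent.W_7d29a1_g (Em)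

/-- Telescoping. -/
theorem sum_tele {f : ℕ → ℝ} (hf : Monotone f) (p q a b : ℕ) (hq : q ≤ a) (hab : a ≤ b) :
    ∑ z ∈ Finset.Ico a b, (f (z + p) - f (z - q)) ≤ (p + q) * (f (b + p) - f (a - q)) := by
  have h1 : ∀ z ∈ Finset.Ico a b, f (z + p) - f (z - q) =
      ∑ i ∈ Finset.range (p + q), (f (z - q + (i + 1)) - f (z - q + i)) := by
    intro z hz
    rw [Finset.mem_Ico] at hz
    rw [Finset.sum_range_sub (fun i => f (z - q + i)) (p + q)]
    rw [show z - q + (p + q) = z + p by omega, add_zero]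
  rw [Finset.sum_congr rfl h1, Finset.sum_comm]
  have h2 : ∀ i ∈ Finset.range (p + q), ∑ z ∈ Finset.Ico a b, (f (z - q + (i + 1)) - f (z - q + i)) ≤
      f (b + p) - f (a - q) := by
    intro i hi
    rw [Finset.mem_range] at hi
    have h3 : ∀ n : ℕ, ∑ z ∈ Finset.Ico a (a + n), (f (z - q + (i + 1)) - f (z - q + i)) =
        f (a + n - q + i) - f (a - q + i) := by
      intro n
      induction n with
      | zero => simp
      | succ n ih =>
        rw [← add_assoc, Finset.sum_Ico_succ_top (by omega), ih]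
        rw [show a + n - q + (i + 1) = a + n + 1 - q + i by omega]
        ring
    obtain ⟨n, rfl⟩ := Nat.exists_eq_add_of_le hab
    rw [h3 n]
    have h4 : f (a + n - q + i) ≤ f (a + n + p) := hf (by omega)
    have h5 : f (a - q) ≤ f (a - q + i) := hf (by omega)
    linarith
  refine (Finset.sum_le_sum h2).trans ?_
  rw [Finset.sum_const, Finset.card_range, nsmul_eq_mul]
  push_cast
  exact le_rfl

private theorem D4s_pow (f : ℕ → ℝ) (c : ℝ) (hc : 0 ≤ c) {n : ℕ} (h : ∀ j, j < n → f (j + 1) ≤ c * f j) :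
    f n ≤ c ^ n * f 0 := by
  induction n with
  | zero => simp
  | succ n ih =>
    have h1 := ih fun j hj => h j (by omega)
    have h2 := h n (by omega)
    rw [pow_succ]
    have h3 := mul_le_mul_of_nonneg_left h1 hc
    calc f (n + 1) ≤ c * f n := h2
      _ ≤ c * (c ^ n * f 0) := h3
      _ = _ := by ring

/-- `2 ^ u - 1 ≤ u` for `0 ≤ u ≤ 1`. -/
private theorem D4s_two {u : ℝ} (h0 : 0 ≤ u) (h1 : u ≤ 1) : (2 : ℝ) ^ u ≤ 1 + u := by
  have h2 := (convexOn_exp.2 (Set.mem_univ 0) (Set.mem_univ (Real.log 2)) (sub_nonneg.2 h1) h0 (by ring))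
  simp only [smul_eq_mul, mul_zero, zero_add, Real.exp_zero, mul_one, Real.exp_log two_pos] at h2
  rw [Real.rpow_def_of_pos two_pos, mul_comm]
  linarith

variable {μ : Measure ℝ} [IsProbabilityMeasure μ]

/-- Comparison of the slopes at two levels and two times. -/
theorem vA_shift (hEM : Pool.Agent.W_7d29a1_h47.EM μ) {A A' : ℝ} (hA : 0 ≤ A) (hA' : 0 ≤ A') {l l' : ℕ} (hl : 0 < l')
    (h : A * EE μ l' * l ≤ A' * EE μ l * l') : vA μ A l' ≤ vA μ A' l := by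
  have _ := hA'
  refine le_vA (vA_nonneg hEM hA l') (vA_le hEM hA l') ?_
  have h1 := vA_mem (μ := μ) hEM hA l'
  have hn0 : (0 : ℝ) < l' := by exact_mod_cast hl
  have hm0 : (0 : ℝ) ≤ l := Nat.cast_nonneg l
  have h2 : l' * (l * J μ (vA μ A l')) ≤ l' * (A' * EE μ l) := by
    calc l' * (l * J μ (vA μ A l')) = l * (l' * J μ (vA μ A l')) := by ring
      _ ≤ l * (A * EE μ l') := mul_le_mul_of_nonneg_left h1 hm0
      _ ≤ l' * (A' * EE μ l) := by linarith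
  exact le_of_mul_le_mul_left h2 hn0

private theorem D4s_vA_pow (hEM : Pool.Agent.W_7d29a1_h47.EM μ) {A : ℝ} (hA : 0 ≤ A) {z z' : ℕ} (h : z ≤ z') :
    vA μ A (2 ^ z') ≤ vA μ A (2 ^ z) := by
  obtain ⟨d, rfl⟩ := Nat.exists_eq_add_of_le h
  induction d with
  | zero => exact le_rfl
  | succ d ih =>
    have h1 := vA_two (μ := μ) hEM hA (2 ^ (z + d))
    rw [← pow_succ'] at h1
    exact h1.trans (ih (Nat.le_add_right _ _))

/-- All levels give the same `f` up to a constant. -/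
theorem ff_level (hEM : Pool.Agent.W_7d29a1_h47.EM μ) (hnd : Pool.Agent.W_7d29a1_h47.Nondeg μ) {A : ℝ} (hA : 1 ≤ A) :
    ∃ C : ℝ, ∀ x, |ff μ A x - ff μ 1 x| ≤ C := by
  have _ := hnd
  refine ⟨Real.logb 2 A, fun x => ?_⟩
  have hA0 : 0 < A := by linarith
  have p1 := vA_pos (μ := μ) hEM (one_pos : (0 : ℝ) < 1) (2 ^ x)
  have pA := vA_pos (μ := μ) hEM hA0 (2 ^ x)
  have h1 := vA_mono (μ := μ) hEM zero_le_one hA (2 ^ x)
  have h2 := vA_scale (μ := μ) hEM one_pos hA (2 ^ x)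
  rw [div_one] at h2
  have h3 := Real.logb_le_logb_of_le one_lt_two p1 h1
  have h4 := Real.logb_le_logb_of_le one_lt_two pA h2
  rw [Real.logb_mul hA0.ne' p1.ne'] at h4
  have h5 : 0 ≤ Real.logb 2 A := Real.logb_nonneg one_lt_two hA
  unfold ff
  rw [abs_le]
  constructor <;> linarith

/-- The bulk is at most the unit. -/
theorem Em_le_EE (hEM : Pool.Agent.W_7d29a1_h47.EM μ) (n : ℕ) : 1 + Em μ n ≤ EE μ n := by
  obtain ⟨m, hm, h⟩ := Pool.Agent.W_7d29a1_g.exists_Em (μ := μ) n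
  rw [h]
  have h1 := ep_le_EE (μ := μ) hm
  have e1 : ((m / 2 : ℕ) : ℤ) = md m := by
    unfold md
    push_cast
    rfl
  have h2 : Pool.Agent.W_7d29a1_g.e0 μ m ≤ ep μ m (md m) := by
    unfold Pool.Agent.W_7d29a1_g.e0
    rw [e1]
    exact e_le_ep hEM (md_nonneg m) (md_le m)
  linarith

/-- Slow growth of the unit. -/
theorem slow (hEM : Pool.Agent.W_7d29a1_h47.EM μ) {s₀ : ℝ} (hs : 0 ≤ s₀) {z n : ℕ}
    (hD : ∀ j, j < n → 1 + Em μ (2 ^ (z + j + 1)) ≤ (1 + s₀) * (1 + Em μ (2 ^ (z + j))))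
    (hI : EE μ (2 ^ (z + n)) ≤ 2 * Em μ (2 ^ (z + n)) + 2) : EE μ (2 ^ (z + n)) ≤ 2 * (1 + s₀) ^ n * EE μ (2 ^ z) := by
  have h1 := D4s_pow (fun j => 1 + Em μ (2 ^ (z + j))) (1 + s₀) (by linarith) (n := n) hD
  simp only [add_zero] at h1
  have h2 := Em_le_EE (μ := μ) hEM (2 ^ z)
  have h3 : (1 + s₀) ^ n * (1 + Em μ (2 ^ z)) ≤ (1 + s₀) ^ n * EE μ (2 ^ z) :=
    mul_le_mul_of_nonneg_left h2 (by positivity)
  linarith

/-- The edges of all the times in a range of octaves lie between the slopes of two octaves (`a` and `b` of the other files). `k₀` and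
`s₁` are frame constants. -/
theorem edge_range (hEM : Pool.Agent.W_7d29a1_h47.EM μ) {A₀ A₁ : ℝ} (hA₀ : 1 ≤ A₀) (hA₁ : A₀ < A₁) :
    ∃ (k₀ : ℕ) (s₁ : ℝ), 0 < s₁ ∧ ∀ x w : ℕ, k₀ ≤ x →
      (∀ i j, x ≤ i + k₀ → i ≤ j → j ≤ i + 2 * k₀ → j ≤ x + w + k₀ →
        EE μ (2 ^ j) ≤ 2 * (1 + s₁) ^ (j - i) * EE μ (2 ^ i)) →
      ∀ l : ℕ, 2 ^ x ≤ l → l ≤ 2 ^ (x + w) → vA μ A₀ (2 ^ (x + w + k₀)) ≤ vA μ A₀ l ∧ vA μ A₁ l ≤ vA μ A₀ (2 ^ (x - k₀)) := by
  have h0 : 0 < A₀ := by linarith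
  have h1 : 0 < A₁ := by linarith
  obtain ⟨k₀, hk3, hk₀⟩ : ∃ k₀ : ℕ, 3 ≤ k₀ ∧ A₁ * 2 * (5 / 4 : ℝ) ^ (k₀ + 1) ≤ A₀ * 2 ^ k₀ := by
    obtain ⟨n, hn⟩ := pow_unbounded_of_one_lt (A₁ * 4 / A₀) (by norm_num : (1 : ℝ) < 8 / 5)
    refine ⟨n + 3, by omega, ?_⟩
    rw [div_lt_iff₀ h0] at hn
    have h2 : (2 : ℝ) ^ (n + 3) = (8 / 5) ^ n * (5 / 4) ^ n * 8 := by
      rw [← mul_pow, pow_add]
      norm_num
    have h3 : (5 / 4 : ℝ) ^ (n + 3 + 1) = (5 / 4) ^ n * (5 / 4) ^ 4 := by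
      rw [← pow_add]
    rw [h2, h3]
    have h4 : (0 : ℝ) < (5 / 4) ^ n := by positivity
    have h5 := mul_lt_mul_of_pos_right hn h4
    nlinarith
  refine ⟨k₀, 1 / 4, by norm_num, fun x w hx hS l hl1 hl2 => ?_⟩
  have h54 : (1 : ℝ) + 1 / 4 = 5 / 4 := by norm_num
  rw [h54] at hS
  -- the octave of `l`
  have hN1 : 1 ≤ l := le_trans Nat.one_le_two_pow hl1
  obtain ⟨z, hz1, hz2⟩ : ∃ z, 2 ^ z ≤ l ∧ l < 2 ^ (z + 1) :=
    ⟨Nat.log 2 l, Nat.pow_log_le_self 2 (by omega), Nat.lt_pow_succ_log_self (by norm_num) l⟩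
  have hjz : x ≤ z := by
    by_contra hc
    push Not at hc
    have : 2 ^ (z + 1) ≤ 2 ^ x := Nat.pow_le_pow_right (by norm_num) hc
    omega
  have hzj' : z ≤ x + w := by
    by_contra hc
    push Not at hc
    have : 2 ^ (x + w + 1) ≤ 2 ^ z := Nat.pow_le_pow_right (by norm_num) hc
    rw [pow_succ] at this
    have : 0 < 2 ^ (x + w) := by positivity
    omega
  have hNr1 : (2 : ℝ) ^ z ≤ l := by exact_mod_cast hz1
  have hNr2 : (l : ℝ) ≤ 2 ^ (z + 1) := by exact_mod_cast hz2.le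
  have hE1 := one_le_EE (μ := μ) (2 ^ z)
  constructor
  · refine (D4s_vA_pow hEM h0.le (show z + 3 ≤ x + w + k₀ by omega)).trans ?_
    refine vA_shift hEM h0.le h0.le (by positivity) ?_
    have h2 := hS z (z + 3) (by omega) (by omega) (by omega) (by omega)
    have e : z + 3 - z = 3 := by omega
    rw [e] at h2
    have h3 : EE μ (2 ^ z) ≤ EE μ l := EU_mono hz1
    push_cast
    have h4 : EE μ (2 ^ (z + 3)) ≤ 4 * EE μ l := by
      have : (2 : ℝ) * (5 / 4) ^ 3 ≤ 4 := by norm_num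
      nlinarith
    have h5 : (l : ℝ) * 4 ≤ 2 ^ (z + 3) := by
      have : (2 : ℝ) ^ (z + 3) = 2 ^ (z + 1) * 4 := by rw [pow_add, pow_add]; norm_num; ring
      linarith
    have h6 : 0 ≤ EE μ l := by linarith
    have h7 : (0 : ℝ) ≤ l := Nat.cast_nonneg l
    calc A₀ * EE μ (2 ^ (z + 3)) * l ≤ A₀ * (4 * EE μ l) * l :=
          mul_le_mul_of_nonneg_right (mul_le_mul_of_nonneg_left h4 h0.le) h7
      _ = A₀ * EE μ l * (l * 4) := by ring
      _ ≤ A₀ * EE μ l * 2 ^ (z + 3) := mul_le_mul_of_nonneg_left h5 (by positivity)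
  · refine le_trans ?_ (D4s_vA_pow hEM h0.le (show x - k₀ ≤ z - k₀ by omega))
    refine vA_shift hEM h1.le h0.le hN1 ?_
    have h2 := hS (z - k₀) (z + 1) (by omega) (by omega) (by omega) (by omega)
    have e : z + 1 - (z - k₀) = k₀ + 1 := by omega
    rw [e] at h2
    have h3 : EE μ l ≤ EE μ (2 ^ (z + 1)) := EU_mono hz2.le
    have h4 : EE μ l ≤ 2 * (5 / 4) ^ (k₀ + 1) * EE μ (2 ^ (z - k₀)) := h3.trans h2
    have h5 : (0 : ℝ) ≤ EE μ (2 ^ (z - k₀)) := by linarith [one_le_EE (μ := μ) (2 ^ (z - k₀))]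
    push_cast
    have h6 : (2 : ℝ) ^ k₀ * 2 ^ (z - k₀) ≤ l := by
      rw [← pow_add, show k₀ + (z - k₀) = z by omega]
      exact hNr1
    calc A₁ * EE μ l * 2 ^ (z - k₀) ≤ A₁ * (2 * (5 / 4) ^ (k₀ + 1) * EE μ (2 ^ (z - k₀))) * 2 ^ (z - k₀) :=
          mul_le_mul_of_nonneg_right (mul_le_mul_of_nonneg_left h4 h1.le) (by positivity)
      _ = (A₁ * 2 * (5 / 4) ^ (k₀ + 1)) * (EE μ (2 ^ (z - k₀)) * 2 ^ (z - k₀)) := by ring
      _ ≤ (A₀ * 2 ^ k₀) * (EE μ (2 ^ (z - k₀)) * 2 ^ (z - k₀)) :=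
          mul_le_mul_of_nonneg_right hk₀ (by positivity)
      _ = A₀ * EE μ (2 ^ (z - k₀)) * (2 ^ k₀ * 2 ^ (z - k₀)) := by ring
      _ ≤ A₀ * EE μ (2 ^ (z - k₀)) * l := mul_le_mul_of_nonneg_left h6 (by positivity)

/-- Relative width against the increment of `f`. -/
theorem width_le {a b : ℝ} (ha : 0 < a) (hab : a ≤ b) (h : Real.logb 2 b - Real.logb 2 a ≤ 1) :
    b - a ≤ a * (Real.logb 2 b - Real.logb 2 a) := by
  have hb : 0 < b := ha.trans_le hab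
  have h0 : 0 ≤ Real.logb 2 b - Real.logb 2 a := by
    have := Real.logb_le_logb_of_le one_lt_two ha hab
    linarith
  have h2 := mul_le_mul_of_nonneg_left (D4s_two h0 h) ha.le
  have h3 : a * (2 : ℝ) ^ (Real.logb 2 b - Real.logb 2 a) = b := by
    rw [sub_eq_add_neg, Real.rpow_add two_pos, Real.rpow_logb two_pos (by norm_num) hb, Real.rpow_neg two_pos.le,
      Real.rpow_logb two_pos (by norm_num) ha]
    field_simp
  rw [h3] at h2
  linarith

end Pool.Agent.W_7d29a1_G
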