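import Pool.Agent.W_7d29a1_G.FR0
import Pool.Agent.W_7d29a1_g.CrossRec

/-!
MP_7d29a1_pr, track G, D4 (row 619). The statements which pass between the sections 4, 5 - 7 and 8: the inner edge at every scale
((IN) of row 622), the inner edge on a stretch without soft scale ((4.1)), slow growth, and the claim of section 7 (one octave).

`A0 < A1` are the levels of the edge: `v_n = vA μ A0 n`, `v_n (1 + y_n) = vA μ A1 n`, `f = ff μ A0`.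
-/

namespace Pool.Agent.W_7d29a1_G

open MeasureTheory ProbabilityTheory Filter Topology Pool.Agent.W_7d29a1_F Pool.Agent.W_7d29a1_h4g
open Pool.Agent.W_7d29a1_g (Em)

/-- (IN) of row 622: the displacements inside the inner edge `(1 - Ci y_n) v_n` cost at most `c1` units, at EVERY scale. -/
def EdgeIn (μ : Measure ℝ) (A0 A1 : ℝ) : Prop :=
  ∃ (Ci c1 : ℝ) (n0 : ℕ), 0 ≤ Ci ∧ 1 ≤ c1 ∧ ∀ n : ℕ, n0 ≤ n → ∀ y : ℤ,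
    |(y : ℝ) - n / 2| ≤ (vA μ A0 n - Ci * (vA μ A1 n - vA μ A0 n)) * n → e μ 0 n y ≤ c1 * EE μ n

/-- Slow growth of the unit on the octaves `[a, b)`. -/
def Slow (μ : Measure ℝ) (a b : ℕ) : Prop :=
  ∀ z z' : ℕ, a ≤ z → z ≤ z' → z' < b → EE μ (2 ^ z') ≤ 3 * (5 / 4 : ℝ) ^ (z' - z) * EE μ (2 ^ z)

/-- (4.1) of row 619: on a stretch without soft scale the displacements inside the inner edge have almost the cost of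
direction `0`. -/
def InnerE (μ : Measure ℝ) (A0 : ℝ) : Prop :=
  ∃ (Ce Km : ℝ) (k0 : ℕ), 0 ≤ Ce ∧ 0 < Km ∧ ∀ (ε : ℝ) (m : ℕ), 0 < ε → ε ≤ 1 → Km ≤ ε * 2 ^ m →
    ∃ (α : ℝ) (x0 : ℕ), ∀ a b : ℕ, x0 ≤ a →
    (∀ z, a ≤ z → z < b → ¬ Sf μ z α) → Slow μ a b → ∀ y : ℕ, a + k0 + 1 ≤ y → y + m + 4 < b →
    ∀ L : ℕ, 2 ^ (y - 1) ≤ L → L ≤ 2 ^ y → ∀ d : ℤ,
      |(d : ℝ) - L / 2| ≤ (vA μ A0 (2 ^ (y + m + 3)) -
        Ce * (vA μ A0 (2 ^ (y - 1 - k0)) - vA μ A0 (2 ^ (y + m + 3)))) * L →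
      e μ 0 L d ≤ Em μ L + ε * EE μ (2 ^ (y + m))

/-- The claim of section 7 of row 619 (one octave), single scale tube. -/
def Octave (μ : Measure ℝ) (A0 : ℝ) : Prop :=
  ∃ (C0 Km : ℝ) (k0 : ℕ), 0 < C0 ∧ 0 < Km ∧ ∀ (ε : ℝ) (m : ℕ), 0 < ε → ε ≤ 1 → Km ≤ ε * 2 ^ m →
    ∃ (α : ℝ) (x0 : ℕ), ∀ a b : ℕ, x0 ≤ a →
    (∀ z, a ≤ z → z < b → ¬ Sf μ z α) → Slow μ a b → ∀ x y : ℕ, a + k0 + 1 ≤ x → x + 2 ≤ y → y + m + 4 < b →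
    C0 * (ff μ A0 (y + m + 3) - ff μ A0 (y - 1 - k0)) ≤ (1 / 2 : ℝ) ^ (y - x) →
    Em μ (2 ^ (x + 1)) - Em μ (2 ^ x) ≤
      2 * (1 / 2 : ℝ) ^ (y - x) * (Em μ (2 ^ (y + m)) - Em μ (2 ^ x) + ε * EE μ (2 ^ (y + m)))

end Pool.Agent.W_7d29a1_G
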