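import Pool.Agent.W_7d29a1_G.D4Defs
import Pool.Agent.W_7d29a1_G.OctDefs
import Pool.Agent.W_7d29a1_G.Iface
import Pool.Agent.W_7d29a1_G.Soft1
import Pool.Agent.W_7d29a1_G.ElemD1
import Pool.Agent.W_7d29a1_G.D4Sum
import Pool.Agent.W_7d29a1_g.Sum8

/-!
MP_7d29a1_pr, track G, D4 (row 619), assembly: the growth bound `HS μ` on a stretch without soft scale, from the inequality for one
octave (`Octave`, section 7), (D7) and (I1), by `stretch_tel` (helper29).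
-/

namespace Pool.Agent.W_7d29a1_G

open MeasureTheory ProbabilityTheory Filter Topology Pool.Agent.W_7d29a1_F Pool.Agent.W_7d29a1_h4g
open Pool.Agent.W_7d29a1_g (Em Em_mono Em_nonneg)

/-- The choice of `ε` and `m`: `ε (m + 1) ≤ κ` and `K ≤ 2 ε 2 ^ m`. -/
theorem h93_rate (K : ℝ) {κ : ℝ} (hκ : 0 < κ) :
    ∃ (ε : ℝ) (m : ℕ), 0 < ε ∧ ε ≤ 1 / 8 ∧ ε * (m + 1) ≤ κ ∧ K ≤ 2 * ε * 2 ^ m := by
  obtain ⟨k, hk⟩ := pow_unbounded_of_one_lt K (one_lt_two : (1 : ℝ) < 2)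
  have hlim : Tendsto (fun j : ℕ => ((j : ℝ) + (k + 1)) * (1 / 2 : ℝ) ^ j) atTop (𝓝 0) := by
    have h1 : Tendsto (fun j : ℕ => (j : ℝ) * (1 / 2 : ℝ) ^ j) atTop (𝓝 0) :=
      tendsto_self_mul_const_pow_of_lt_one (by norm_num) (by norm_num)
    have h2 : Tendsto (fun j : ℕ => ((k : ℝ) + 1) * (1 / 2 : ℝ) ^ j) atTop (𝓝 (((k : ℝ) + 1) * 0)) :=
      (tendsto_pow_atTop_nhds_zero_of_lt_one (by norm_num) (by norm_num)).const_mul _
    have h3 := h1.add h2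
    rw [mul_zero, add_zero] at h3
    refine h3.congr fun j => ?_
    ring
  obtain ⟨j, hj1, hj2⟩ := ((hlim.eventually (gt_mem_nhds hκ)).and (eventually_ge_atTop 3)).exists
  refine ⟨(1 / 2 : ℝ) ^ j, j + k, by positivity, ?_, ?_, ?_⟩
  · calc (1 / 2 : ℝ) ^ j ≤ (1 / 2 : ℝ) ^ 3 := pow_le_pow_of_le_one (by norm_num) (by norm_num) hj2
      _ = 1 / 8 := by norm_num
  · push_cast
    have : (1 / 2 : ℝ) ^ j * ((j : ℝ) + k + 1) = ((j : ℝ) + (k + 1)) * (1 / 2 : ℝ) ^ j := by ring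
    rw [this]
    exact hj1.le
  · have hinv : (1 / 2 : ℝ) ^ j * 2 ^ j = 1 := by
      rw [← mul_pow]
      norm_num
    rw [pow_add]
    have : 2 * (1 / 2 : ℝ) ^ j * (2 ^ j * 2 ^ k) = 2 * 2 ^ k * ((1 / 2 : ℝ) ^ j * 2 ^ j) := by ring
    rw [this, hinv]
    have : (0 : ℝ) < 2 ^ k := by positivity
    linarith

variable {μ : Measure ℝ} [IsProbabilityMeasure μ]

/-- Slow growth from (D7) and (I1). -/
theorem h93_slow (hEM : Pool.Agent.W_7d29a1_h47.EM μ) {a b : ℕ}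
    (hD7 : ∀ x, a ≤ x → x < b → 1 + Em μ (2 ^ (x + 1)) ≤ (1 + 1 / 4) * (1 + Em μ (2 ^ x)))
    (hI1 : ∀ z, a ≤ z → z < b → EE μ (2 ^ z) ≤ 2 * Em μ (2 ^ z) + 2) : Slow μ a b := by
  intro z z' hz hzz' hz'
  have h1 := slow (μ := μ) hEM (s₀ := 1 / 4) (by norm_num) (z := z) (n := z' - z)
    (fun j hj => hD7 (z + j) (by omega) (by omega)) (by
      rw [show z + (z' - z) = z' by omega]
      exact hI1 z' (by omega) hz')
  rw [show z + (z' - z) = z' by omega] at h1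
  have h2 := EE_pos (μ := μ) (2 ^ z)
  have h3 : (1 + 1 / 4 : ℝ) ^ (z' - z) = (5 / 4 : ℝ) ^ (z' - z) := by norm_num
  rw [h3] at h1
  have h4 : (0 : ℝ) < (5 / 4 : ℝ) ^ (z' - z) := by positivity
  have h5 : 0 < (5 / 4 : ℝ) ^ (z' - z) * EE μ (2 ^ z) := by positivity
  nlinarith

/-- **Row 619, section 8: the growth bound on a stretch without soft scale.** -/
theorem h93_HS (hEM : Pool.Agent.W_7d29a1_h47.EM μ) (hnd : Pool.Agent.W_7d29a1_h47.Nondeg μ) {A₀ : ℝ} (hA₀ : 1 ≤ A₀)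
    (hOct : Octave μ A₀) (h7 : HD7 μ) (h1 : HI1 μ) : HS μ := by
  obtain ⟨C0, K, k0, hC0, hK, hO⟩ := hOct
  obtain ⟨α1, x1, hI⟩ := h1
  obtain ⟨CL, hCL⟩ := ff_level (μ := μ) hEM hnd hA₀
  have hA₀' : 0 < A₀ := lt_of_lt_of_le one_pos hA₀
  have hfm : Monotone (ff μ A₀) := ff_mono hEM hA₀'
  have hE2 : ∀ x, EE μ (2 ^ (x + 1)) ≤ 2 * EE μ (2 ^ x) := by
    intro x
    have h2 := EE_two (μ := μ) hEM (2 ^ x)
    rwa [← pow_succ'] at h2
  obtain ⟨α6, k6, x6, hD6⟩ := h7 (1 / 4) (by norm_num)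
  have key := Pool.Agent.W_7d29a1_g.stretch_tel (ι := ℝ × ℕ) (E := fun x => EE μ (2 ^ x))
    (Em := fun x => 1 + Em μ (2 ^ x))
    (f := ff μ A₀) (NS := fun i z => ∀ z', z ≤ z' + i.2 → z' ≤ z + i.2 → ¬ Sf μ z' i.1)
    (C₀ := C0) (k₀ := k0 + 1) (k₁ := 4) hfm
    (fun x y hxy => add_le_add le_rfl (Em_mono (Nat.pow_le_pow_right (by norm_num) hxy)))
    (fun x => by have := Em_nonneg (μ := μ) hEM (2 ^ x); linarith) (fun x => Em_le_EE hEM _) hE2 hC0.le ?_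
  · obtain ⟨i, x0, C, hk⟩ := key
    refine ⟨fun z => ∀ z', z ≤ z' + i.2 → z' ≤ z + i.2 → ¬ Sf μ z' i.1, i.1, C + CL / 2, i.2, x0,
      fun y x hy hyx hP => ?_, fun x hx hP => ?_⟩
    · have h2 := hk y x hy hyx hP
      have h3 := abs_le.1 (hCL x)
      have h4 := abs_le.1 (hCL y)
      unfold gg
      linarith
    · push Not at hP
      obtain ⟨z', h2, h3, h4⟩ := hP
      exact ⟨z', h2, h3, h4⟩
  · intro κ hκ
    obtain ⟨ε, m, hε0, hε8, hεm, hKm⟩ := h93_rate K hκ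
    obtain ⟨α2, x2, hO2⟩ := hO (2 * ε) m (by positivity) (by linarith) hKm
    refine ⟨ε, m, 2, hε0, hε8, hεm, fun s₀ hs₀ => ?_⟩
    obtain ⟨α3, k3, x3, hD3⟩ := h7 s₀ hs₀
    refine ⟨(max (max α1 α2) (max α3 α6), max k3 k6), max (max x1 x2) (max x3 x6), fun a b ha hab hNS => ?_⟩
    have hx1a : x1 ≤ a := le_trans (le_trans (le_max_left _ _) (le_max_left _ _)) ha
    have hx2a : x2 ≤ a := le_trans (le_trans (le_max_right _ _) (le_max_left _ _)) ha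
    have hx3a : x3 ≤ a := le_trans (le_trans (le_max_left _ _) (le_max_right _ _)) ha
    have hx6a : x6 ≤ a := le_trans (le_trans (le_max_right _ _) (le_max_right _ _)) ha
    have n1 : ∀ z, a ≤ z → z < b → ¬ Sf μ z α1 := fun z h1 h2 h3 =>
      hNS z h1 h2 z (by omega) (by omega) (h3.mono ((le_max_left _ _).trans (le_max_left _ _)))
    have n2 : ∀ z, a ≤ z → z < b → ¬ Sf μ z α2 := fun z h1 h2 h3 =>
      hNS z h1 h2 z (by omega) (by omega) (h3.mono ((le_max_right _ _).trans (le_max_left _ _)))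
    have n3 : ∀ z, a ≤ z → z < b → ∀ z', z ≤ z' + k3 → z' ≤ z + k3 → ¬ Sf μ z' α3 := fun z h1 h2 z' h4 h5 h3 =>
      hNS z h1 h2 z' (h4.trans (Nat.add_le_add_left (le_max_left _ _) _)) (h5.trans (Nat.add_le_add_left (le_max_left _ _) _))
        (h3.mono ((le_max_left _ _).trans (le_max_right _ _)))
    have n6 : ∀ z, a ≤ z → z < b → ∀ z', z ≤ z' + k6 → z' ≤ z + k6 → ¬ Sf μ z' α6 := fun z h1 h2 z' h4 h5 h3 =>
      hNS z h1 h2 z' (h4.trans (Nat.add_le_add_left (le_max_right _ _) _)) (h5.trans (Nat.add_le_add_left (le_max_right _ _) _))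
        (h3.mono ((le_max_right _ _).trans (le_max_right _ _)))
    have hI' : ∀ z, a ≤ z → z < b → EE μ (2 ^ z) ≤ 2 * Em μ (2 ^ z) + 2 := fun z h1 h2 =>
      hI z (hx1a.trans h1) (n1 z h1 h2)
    have hslow : Slow μ a b := h93_slow hEM (fun x h1 h2 => hD6 x (hx6a.trans h1) (n6 x h1 h2)) hI'
    refine ⟨fun x h1 h2 => hD3 x (hx3a.trans h1) (n3 x h1 h2), fun z h1 h2 => ?_, fun x y h1 h2 h3 h4 => ?_⟩
    · have := hI' z h1 h2
      linarith
    · have h5 := h4 y (by omega) le_rfl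
      have m1 : ff μ A₀ (y + m + 3) ≤ ff μ A₀ (y + m + 4) := hfm (by omega)
      have m2 : y - (k0 + 1) = y - 1 - k0 := by omega
      rw [m2] at h5
      have h6 := hO2 a b hx2a n2 hslow x y (by omega) h2 h3
        ((mul_le_mul_of_nonneg_left (by linarith) hC0.le).trans h5)
      have h7 := hI' (y + m) (by omega) (by omega)
      have h8 : (0 : ℝ) ≤ Em μ (2 ^ (y + m)) := Em_nonneg hEM _
      have h9 : 2 * ε * EE μ (2 ^ (y + m)) ≤ 8 * ε * (1 + Em μ (2 ^ (y + m))) := by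
        have : EE μ (2 ^ (y + m)) ≤ 4 * (1 + Em μ (2 ^ (y + m))) := by linarith
        nlinarith
      have h10 : 2 * (1 / 2 : ℝ) ^ (y - x) *
          (Em μ (2 ^ (y + m)) - Em μ (2 ^ x) + 2 * ε * EE μ (2 ^ (y + m))) ≤
          2 * (1 / 2 : ℝ) ^ (y - x) *
          (1 + Em μ (2 ^ (y + m)) - (1 + Em μ (2 ^ x)) + 8 * ε * (1 + Em μ (2 ^ (y + m)))) :=
        mul_le_mul_of_nonneg_left (by linarith) (by positivity)
      linarith

end Pool.Agent.W_7d29a1_G
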