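import Pool.Agent.W_7d29a1_G.Soft1
import Pool.Agent.W_7d29a1_g.TubeSoft

/-!
Track G (MP_7d29a1_pr), row 619, section 6: the mean cost of the polymer which stays in the region `R` (the tube), at an octave
which is not soft, is at most the mean cost of the free polymer plus `2 · 2 ^ (- α)` units, if the paths which leave `R` have
a small weight with probability `3 / 4`.
-/

namespace Pool.Agent.W_7d29a1_G

open MeasureTheory ProbabilityTheory Filter Topology Pool.Agent.W_7d29a1_F Pool.Agent.W_7d29a1_h4g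
open Pool.Agent.W_7d29a1_g

variable {μ : Measure ℝ} [IsProbabilityMeasure μ]

omit [IsProbabilityMeasure μ] in
theorem poly_WR0 (R : Set Pt) (T : ℕ) (z : ℤ) : Poly (rows 0 T) fun η => WR μ 0 R η 0 T z := by
  refine (poly_WR (μ := μ) (s := 0) R 0 T z).mono ?_
  rintro q ⟨q1, q2, _, _⟩
  refine ⟨q1, ?_⟩
  simpa using q2

/-- Row 619, section 6. -/
theorem tube_mean (hEM : Pool.Agent.W_7d29a1_h47.EM μ) (hnd : Pool.Agent.W_7d29a1_h47.Nondeg μ) :
    ∃ (α₀ : ℝ) (T₀ : ℕ), 3 ≤ α₀ ∧ ∀ (x : ℕ) (α : ℝ), α₀ ≤ α → ¬ Sf μ x α → ∀ (R : Set Pt) (T : ℕ) (z : ℤ), HasPath R 0 T z →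
      T ≤ 2 ^ x → T₀ * T ≤ 2 ^ x → e μ 0 T z ≤ 3 * EE μ (2 ^ x) → ∀ b : ℝ,
      e μ 0 T z + (2 : ℝ) ^ (-α) * EE μ (2 ^ x) + Real.log 2 ≤ b →
      (law μ).real {η | Real.exp (-b) ≤ W μ 0 η 0 T z - WR μ 0 R η 0 T z} ≤ 1 / 4 →
      eR μ 0 R 0 T z ≤ e μ 0 T z + 2 * ((2 : ℝ) ^ (-α) * EE μ (2 ^ x)) + Real.log 2 := by
  obtain ⟨T₀, C, hMC⟩ := mean_of_prob_EE (μ := μ) hEM hnd (p := 1 / 2) (by norm_num)
  refine ⟨max 4 (Real.logb 2 (max C 1)), T₀, le_max_of_le_left (by norm_num), fun x α hα hS R T z hpath hT hT₀ he b hb hout => ?_⟩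
  set D : ℝ := EE μ (2 ^ x) with hD
  have hD1 : 1 ≤ D := one_le_EE _
  have hα4 : 4 ≤ α := (le_max_left _ _).trans hα
  have h2α : (16 : ℝ) ≤ (2 : ℝ) ^ α := by
    have h1 : (2 : ℝ) ^ (4 : ℝ) ≤ (2 : ℝ) ^ α := Real.rpow_le_rpow_of_exponent_le (by norm_num) hα4
    have h2 : (2 : ℝ) ^ (4 : ℝ) = 16 := by
      rw [show (4 : ℝ) = ((4 : ℕ) : ℝ) by norm_num, Real.rpow_natCast]
      norm_num
    linarith
  have hC2 : C ≤ (2 : ℝ) ^ α := by
    have h1 : (2 : ℝ) ^ (Real.logb 2 (max C 1)) ≤ (2 : ℝ) ^ α :=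
      Real.rpow_le_rpow_of_exponent_le (by norm_num) ((le_max_right _ _).trans hα)
    rw [Real.rpow_logb (by norm_num) (by norm_num) (lt_of_lt_of_le one_pos (le_max_right _ _))] at h1
    exact (le_max_left _ _).trans h1
  have hneg : (2 : ℝ) ^ (-α) ≤ 1 / 16 := by
    rw [Real.rpow_neg (by norm_num)]
    rw [inv_le_comm₀ (by positivity) (by norm_num)]
    norm_num
    exact h2α
  have hneg0 : 0 < (2 : ℝ) ^ (-α) := by positivity
  have hl : (T : ℝ) ≤ (2 : ℝ) ^ ((x : ℝ) + α) := by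
    have h1 : (T : ℝ) ≤ (2 : ℝ) ^ (x : ℝ) := by
      rw [Real.rpow_natCast]
      exact_mod_cast hT
    refine h1.trans (Real.rpow_le_rpow_of_exponent_le (by norm_num) (by linarith))
  have hbd := hpath.bounds
  have e_def : ∫ η, Real.log (W μ 0 η 0 T z) ∂(law μ) = -e μ 0 T z := by
    unfold e X
    rw [integral_neg, neg_neg]
  -- the free polymer
  have hWpos : ∀ η : Env, 0 < W μ 0 η 0 T z := fun η => W_pos η 0 hbd.1 hbd.2
  have c1 := conc_of_not_Sf hS hl (G := fun η => W μ 0 η 0 T z) (poly_WR0 Set.univ T z) hWpos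
    (log_WR_le_V Set.univ 0 hbd.1 hbd.2 hWpos) (by
      show -((2 : ℝ) ^ α * EE μ (2 ^ x)) ≤ ∫ η, Real.log (W μ 0 η 0 T z) ∂(law μ)
      rw [e_def, ← hD]
      nlinarith)
  have c1' : (law μ).real {η | (2 : ℝ) ^ (-α) * D ≤ |Real.log (W μ 0 η 0 T z) + e μ 0 T z|} < (2 : ℝ) ^ (-α) := by
    have h1 := c1
    rw [e_def, ← hD] at h1
    simpa only [sub_neg_eq_add] using h1
  -- the polymer in `R`
  set y : ℝ := e μ 0 T z + (2 : ℝ) ^ (-α) * D + Real.log 2 with hy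
  have hRpos : ∀ η : Env, 0 < WR μ 0 R η 0 T z := fun η => hpath.wr_pos η
  have hlog2 : Real.log 2 ≤ 1 := by
    have := Real.log_two_lt_d9
    linarith
  have hsub : ({η : Env | (2 : ℝ) ^ (-α) * D ≤ |Real.log (W μ 0 η 0 T z) + e μ 0 T z|} ∪
      {η | Real.exp (-b) ≤ W μ 0 η 0 T z - WR μ 0 R η 0 T z})ᶜ ⊆ {η | -y ≤ Real.log (WR μ 0 R η 0 T z)} := by
    intro η hη
    rw [Set.mem_compl_iff, Set.mem_union, not_or] at hη
    obtain ⟨h1, h2⟩ := hη
    rw [Set.mem_ofPred_eq, not_le] at h1 h2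
    rw [Set.mem_ofPred_eq]
    have h3 : -(e μ 0 T z + (2 : ℝ) ^ (-α) * D) < Real.log (W μ 0 η 0 T z) := by
      have := (abs_lt.1 h1).1
      linarith
    have h4 : Real.exp (-(e μ 0 T z + (2 : ℝ) ^ (-α) * D)) < W μ 0 η 0 T z := by
      rw [← Real.lt_log_iff_exp_lt (hWpos η)]
      exact h3
    have half : ∀ r : ℝ, Real.exp (-(r + Real.log 2)) = Real.exp (-r) / 2 := by
      intro r
      rw [neg_add, Real.exp_add, Real.exp_neg (Real.log 2), Real.exp_log (by norm_num), div_eq_mul_inv]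
    have h5 : Real.exp (-b) ≤ Real.exp (-(e μ 0 T z + (2 : ℝ) ^ (-α) * D)) / 2 := by
      rw [← half]
      exact Real.exp_le_exp.2 (by linarith)
    have h7 : Real.exp (-y) ≤ WR μ 0 R η 0 T z := by
      rw [hy, half]
      linarith
    rw [Real.le_log_iff_exp_le (hRpos η)]
    exact h7
  have hprob : 1 / 2 ≤ (law μ).real {η | -y ≤ Real.log (WR μ 0 R η 0 T z)} := by
    set U : Set Env := {η : Env | (2 : ℝ) ^ (-α) * D ≤ |Real.log (W μ 0 η 0 T z) + e μ 0 T z|} ∪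
      {η | Real.exp (-b) ≤ W μ 0 η 0 T z - WR μ 0 R η 0 T z} with hU
    have h1 : (law μ).real U ≤ 1 / 16 + 1 / 4 := (measureReal_union_le _ _).trans (by linarith)
    have h2 : (1 : ℝ) ≤ (law μ).real U + (law μ).real Uᶜ := by
      have h3 := measureReal_union_le (μ := law μ) U Uᶜ
      rw [Set.union_compl_self, probReal_univ] at h3
      exact h3
    have h4 := measureReal_mono (μ := law μ) hsub (measure_ne_top _ _)
    linarith
  have hmean := hMC T (2 ^ x) hT₀ (fun η => WR μ 0 R η 0 T z) (poly_WR0 R T z) hRpos (log_WR_le_V R 0 hbd.1 hbd.2 hRpos) y hprob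
  have he0 : 0 ≤ e μ 0 T z := e_nonneg hEM 0 hbd.1 hbd.2
  have hm2 : -((2 : ℝ) ^ α * EE μ (2 ^ x)) ≤ ∫ η, Real.log (WR μ 0 R η 0 T z) ∂(law μ) := by
    rw [← hD]
    rw [← hD] at hmean
    have h1 : max (max (2 * y) C) (6 * D) ≤ (2 : ℝ) ^ α * D := by
      refine max_le (max_le ?_ ?_) ?_
      · have : 2 * y ≤ 16 * D := by
          rw [hy]
          nlinarith
        nlinarith
      · nlinarith
      · nlinarith
    linarith
  have c2 := conc_of_not_Sf hS hl (G := fun η => WR μ 0 R η 0 T z) (poly_WR0 R T z) hRpos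
    (log_WR_le_V R 0 hbd.1 hbd.2 hRpos) hm2
  -- the two events meet
  have hmeet : ∃ η : Env, -y ≤ Real.log (WR μ 0 R η 0 T z) ∧
      |Real.log (WR μ 0 R η 0 T z) - ∫ ξ, Real.log (WR μ 0 R ξ 0 T z) ∂(law μ)| < (2 : ℝ) ^ (-α) * D := by
    by_contra hcon
    push Not at hcon
    have h1 := measureReal_mono (μ := law μ) (s₁ := {η | -y ≤ Real.log (WR μ 0 R η 0 T z)})
      (s₂ := {η | (2 : ℝ) ^ (-α) * EE μ (2 ^ x) ≤
        |Real.log (WR μ 0 R η 0 T z) - ∫ ξ, Real.log (WR μ 0 R ξ 0 T z) ∂(law μ)|})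
      (fun η hη => by
        rw [Set.mem_ofPred_eq] at hη ⊢
        exact hcon η hη) (measure_ne_top _ _)
    have h2 := c2
    linarith
  obtain ⟨η, h1, h2⟩ := hmeet
  have h3 := (abs_lt.1 h2).2
  unfold eR
  rw [integral_neg]
  linarith [hy.ge]

end Pool.Agent.W_7d29a1_G
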