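import Pool.Agent.W_7d29a1_g.GateRec

/-!
Track G, final step (hF2 (i) of helper70): the mean costs inside the cone of a cheap tube. A polymer which stays in a
tube of slope `v` (relative to the centre) for the time `T` crosses `K` vertical lanes: the pieces between two lanes are
as cheap as the lanes, up to the cost of the tube divided by `K`.
-/

namespace Pool.Agent.W_7d29a1_G

open MeasureTheory ProbabilityTheory Filter Topology
open Pool.Agent.W_7d29a1_F Pool.Agent.W_7d29a1_g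

variable {μ : Measure ℝ}

/-- The mean cost increases with the distance from the centre. -/
theorem e_le_of_center [IsProbabilityMeasure μ] (hμ : Pool.Agent.W_7d29a1_h47.EM μ) {m : ℕ} {y D : ℤ}
    (hD0 : 0 ≤ D) (hD1 : D ≤ m) (h : |2 * y - m| ≤ |2 * D - m|) : e μ 0 m y ≤ e μ 0 m D := by
  have hm := e_mirror0 (μ := μ) m D
  have h1 := abs_le.1 h
  rcases le_total 0 (2 * D - (m : ℤ)) with hs | hs
  · rw [abs_of_nonneg hs] at h1
    have h2 := e_le_max (μ := μ) (s := 0) (n := m) (y1 := m - D) (y := y) (y2 := D) hμ (by omega) (by omega)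
      (by omega) hD1
    rw [hm, max_self] at h2
    exact h2
  · rw [abs_of_nonpos hs] at h1
    have h2 := e_le_max (μ := μ) (s := 0) (n := m) (y1 := D) (y := y) (y2 := m - D) hμ hD0 (by omega)
      (by omega) (by omega)
    rw [hm, max_self] at h2
    exact h2

/-- The mean cost of the polymer in a region containing a path is nonnegative. -/
theorem eR_nonneg [IsProbabilityMeasure μ] (hμ : Pool.Agent.W_7d29a1_h47.EM μ) {s : ℝ} {R : Set Pt} {a : Pt}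
    {n : ℕ} {y : ℤ} (h : HasPath R a n y) (h0 : 0 ≤ y) (h1 : y ≤ n) : 0 ≤ eR μ s R a n y := by
  have h2 : e μ s n y ≤ eR μ s R a n y := by
    unfold eR
    rw [← integral_X (μ := μ) (s := s) a n y]
    refine integral_mono ((Sub_X a h0 h1).integrable hμ) (h.sub.neg.integrable hμ) fun η => ?_
    unfold X
    exact neg_le_neg (Real.log_le_log (h.wr_pos η) (WR_le_W R η a n y))
  exact (e_nonneg hμ s h0 h1).trans h2

/-- Lanes of duration `t` and spacing `p ≥ t` in a tube. -/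
theorem lane_mean [IsProbabilityMeasure μ] (hμ : Pool.Agent.W_7d29a1_h47.EM μ) {R : Set Pt} {v w : ℝ}
    (h0R : (0 : Pt) ∈ R) (hR : R ⊆ Tube 0 (1 / 2 + v) w) {T : ℕ} {z : ℤ} (hpath : HasPath R 0 T z)
    (p t K : ℕ) (htp : t ≤ p) (hT : K * p + t ≤ T) (hw : 2 * w + 2 ≤ v * t) (hv : 0 ≤ v) (y : ℤ)
    (hy : |(y : ℝ) - ((p + t : ℕ) : ℝ) / 2| ≤ v * p - 3 / 2) :
    K * e μ 0 (p + t) y ≤ eR μ 0 R 0 T z + (K + 1) * e0 μ t := by
  obtain ⟨x, hxdef⟩ : ∃ x : ℕ → ℤ, x = fun k => ⌊((k * p : ℕ) : ℝ) / 2 + v * ((k * p : ℕ) : ℝ) + w⌋ := ⟨_, rfl⟩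
  have hx1 : ∀ k, (x k : ℝ) ≤ ((k * p : ℕ) : ℝ) / 2 + v * ((k * p : ℕ) : ℝ) + w := fun k => by
    rw [hxdef]
    exact Int.floor_le _
  have hx2 : ∀ k, ((k * p : ℕ) : ℝ) / 2 + v * ((k * p : ℕ) : ℝ) + w < x k + 1 := fun k => by
    rw [hxdef]
    exact Int.lt_floor_add_one _
  have ht2 : (((t / 2 : ℕ) : ℤ) : ℝ) ≤ (t : ℝ) / 2 := by
    have h2 : 2 * (t / 2) ≤ t := by omega
    have h3 : (2 : ℝ) * ((t / 2 : ℕ) : ℝ) ≤ t := by exact_mod_cast h2
    rw [Int.cast_natCast]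
    linarith
  have ht3 : (t : ℝ) / 2 - 1 / 2 ≤ (((t / 2 : ℕ) : ℤ) : ℝ) := by
    have h2 : t ≤ 2 * (t / 2) + 1 := by omega
    have h3 : (t : ℝ) ≤ 2 * ((t / 2 : ℕ) : ℝ) + 1 := by exact_mod_cast h2
    rw [Int.cast_natCast]
    linarith
  have hx : ∀ k ≤ K, ∀ q : ℤ, (((0 : Pt).1 + k * p, q) : Pt) ∈ R → q ≤ x k := by
    intro k _ q hq
    have h1 := hR hq
    simp only [Tube, Set.mem_setOf_eq, Prod.fst_zero, Prod.snd_zero, sub_zero, zero_add] at h1
    have h2 := (abs_le.1 h1).2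
    rw [hxdef]
    rw [Int.le_floor]
    push_cast at h2 ⊢
    linarith
  have hyy : ∀ k ≤ K, ∀ q : ℤ, (((0 : Pt).1 + (k * p + t), q) : Pt) ∈ R → x k + ((t / 2 : ℕ) : ℤ) ≤ q := by
    intro k _ q hq
    have h1 := hR hq
    simp only [Tube, Set.mem_setOf_eq, Prod.fst_zero, Prod.snd_zero, sub_zero, zero_add] at h1
    have h2 := (abs_le.1 h1).1
    have h3 := hx1 k
    push_cast at h2 h3
    have h4 : ((x k + ((t / 2 : ℕ) : ℤ) : ℤ) : ℝ) ≤ (q : ℝ) := by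
      rw [Int.cast_add]
      linarith [mul_add v ((k : ℝ) * (p : ℝ)) (t : ℝ)]
    exact_mod_cast h4
  have hdis : ∀ k ≤ K, 0 ≤ (x k + ((t / 2 : ℕ) : ℤ)) - x k ∧ (x k + ((t / 2 : ℕ) : ℤ)) - x k ≤ t := by
    intro k _
    constructor <;> omega
  have hcs := cross_cost (μ := μ) (s := 0) R 0 T z K p t x (fun k => x k + ((t / 2 : ℕ) : ℤ)) 0 h0R hpath htp hT
    hx hyy hdis
  have hcm := cross_mean (s := 0) R 0 T z K p t x (fun k => x k + ((t / 2 : ℕ) : ℤ)) hμ h0R hpath htp hT hx hyy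
    hdis
  obtain ⟨hA, hM, hB, -⟩ := hcs
  have hA' := e_nonneg hμ 0 hA.1 hA.2
  have hB' := e_nonneg hμ 0 hB.1 hB.2
  have hM' : (K : ℝ) * e μ 0 (p + t) y ≤
      ∑ k ∈ Finset.range K, e μ 0 (p + t) ((x (k + 1) + ((t / 2 : ℕ) : ℤ)) - x k) := by
    have h2 : ∑ k ∈ Finset.range K, e μ 0 (p + t) y ≤
        ∑ k ∈ Finset.range K, e μ 0 (p + t) ((x (k + 1) + ((t / 2 : ℕ) : ℤ)) - x k) := by
      refine Finset.sum_le_sum fun k hk => ?_
      have hk' := Finset.mem_range.1 hk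
      refine e_le_of_center hμ (hM k hk').1 (hM k hk').2 ?_
      have g1 := hx1 k
      have g2 := hx2 (k + 1)
      have e1 : (((k + 1) * p : ℕ) : ℝ) = ((k * p : ℕ) : ℝ) + p := by push_cast; ring
      rw [e1] at g2
      have g3 : v * p - 3 / 2 ≤ (((x (k + 1) + ((t / 2 : ℕ) : ℤ)) - x k : ℤ) : ℝ) - ((p + t : ℕ) : ℝ) / 2 := by
        rw [Int.cast_sub, Int.cast_add]
        push_cast at g1 g2 ht3 ⊢
        linarith [mul_add v ((k : ℝ) * (p : ℝ)) (p : ℝ)]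
      have hy0 := (abs_nonneg ((y : ℝ) - ((p + t : ℕ) : ℝ) / 2)).trans hy
      have g4 : |(y : ℝ) - ((p + t : ℕ) : ℝ) / 2| ≤
          |(((x (k + 1) + ((t / 2 : ℕ) : ℤ)) - x k : ℤ) : ℝ) - ((p + t : ℕ) : ℝ) / 2| :=
        (hy.trans g3).trans (le_abs_self _)
      have g5 : |((2 * y - ((p + t : ℕ) : ℤ) : ℤ) : ℝ)| ≤
          |((2 * ((x (k + 1) + ((t / 2 : ℕ) : ℤ)) - x k) - ((p + t : ℕ) : ℤ) : ℤ) : ℝ)| := by
        have e2 : ((2 * y - ((p + t : ℕ) : ℤ) : ℤ) : ℝ) = 2 * ((y : ℝ) - ((p + t : ℕ) : ℝ) / 2) := by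
          push_cast
          ring
        have e3 : ((2 * ((x (k + 1) + ((t / 2 : ℕ) : ℤ)) - x k) - ((p + t : ℕ) : ℤ) : ℤ) : ℝ) =
            2 * ((((x (k + 1) + ((t / 2 : ℕ) : ℤ)) - x k : ℤ) : ℝ) - ((p + t : ℕ) : ℝ) / 2) := by
          push_cast
          ring
        rw [e2, e3, abs_mul, abs_mul]
        exact mul_le_mul_of_nonneg_left g4 (abs_nonneg _)
      exact_mod_cast g5
    rw [Finset.sum_const, Finset.card_range, nsmul_eq_mul] at h2
    exact h2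
  have hRe : ∑ k ∈ Finset.range (K + 1), e μ 0 t ((x k + ((t / 2 : ℕ) : ℤ)) - x k) = (K + 1) * e0 μ t := by
    have h2 : ∀ k ∈ Finset.range (K + 1), e μ 0 t ((x k + ((t / 2 : ℕ) : ℤ)) - x k) = e0 μ t := by
      intro k _
      rw [add_sub_cancel_left]
      rfl
    rw [Finset.sum_congr rfl h2, Finset.sum_const, Finset.card_range, nsmul_eq_mul]
    push_cast
    ring
  rw [hRe] at hcm
  linarith

/-- One octave of the descent. -/
theorem descent_step [IsProbabilityMeasure μ] (hμ : Pool.Agent.W_7d29a1_h47.EM μ) {R : Set Pt} {v w : ℝ}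
    (h0R : (0 : Pt) ∈ R) (hR : R ⊆ Tube 0 (1 / 2 + v) w) {T : ℕ} {z : ℤ} (hpath : HasPath R 0 T z)
    (hw0 : 0 ≤ w) (m K : ℕ) (hK : 1 ≤ K) (hm : 1 ≤ m) (hT : (K + 1) * m ≤ T)
    (hw : 2 * w + 2 ≤ v * (m / 2 : ℕ)) :
    e0 μ m ≤ (1 + 1 / K) * e0 μ (m / 2) + eR μ 0 R 0 T z / K := by
  have hv : 0 ≤ v := by
    by_contra hcon
    push Not at hcon
    have h2 : v * (m / 2 : ℕ) ≤ 0 := mul_nonpos_of_nonpos_of_nonneg hcon.le (Nat.cast_nonneg _)
    linarith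
  have hKr : (0 : ℝ) < K := by exact_mod_cast hK
  have h1 := lane_mean hμ h0R hR hpath (m - m / 2) (m / 2) K (by omega) ?_ hw hv ((m / 2 : ℕ) : ℤ) ?_
  · have e1 : m - m / 2 + m / 2 = m := by omega
    rw [e1] at h1
    have h2 : (K : ℝ) * e0 μ m ≤ eR μ 0 R 0 T z + (K + 1) * e0 μ (m / 2) := h1
    have h3 : (1 + 1 / (K : ℝ)) * e0 μ (m / 2) + eR μ 0 R 0 T z / K =
        (eR μ 0 R 0 T z + (K + 1) * e0 μ (m / 2)) / K := by
      field_simp
      ring
    rw [h3, le_div_iff₀ hKr, mul_comm]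
    exact h2
  · refine le_trans ?_ hT
    have h5 : m - m / 2 ≤ m := by omega
    have h6 : m / 2 ≤ m := by omega
    calc K * (m - m / 2) + m / 2 ≤ K * m + m := Nat.add_le_add (Nat.mul_le_mul_left K h5) h6
      _ = (K + 1) * m := by ring
  · have e1 : m - m / 2 + m / 2 = m := by omega
    rw [e1]
    have h2 : 2 * (m / 2) ≤ m := by omega
    have h3 : m ≤ 2 * (m / 2) + 1 := by omega
    have h2' : (2 : ℝ) * ((m / 2 : ℕ) : ℝ) ≤ m := by exact_mod_cast h2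
    have h3' : (m : ℝ) ≤ 2 * ((m / 2 : ℕ) : ℝ) + 1 := by exact_mod_cast h3
    have h4 : ((m / 2 : ℕ) : ℝ) ≤ ((m - m / 2 : ℕ) : ℝ) := by
      have h5 : m / 2 ≤ m - m / 2 := by omega
      exact_mod_cast h5
    have h6 : v * ((m / 2 : ℕ) : ℝ) ≤ v * ((m - m / 2 : ℕ) : ℝ) := mul_le_mul_of_nonneg_left h4 hv
    rw [Int.cast_natCast, abs_le]
    constructor <;> linarith

/-- The descent. -/
theorem descent [IsProbabilityMeasure μ] (hμ : Pool.Agent.W_7d29a1_h47.EM μ) {R : Set Pt} {v w : ℝ}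
    (h0R : (0 : Pt) ∈ R) (hR : R ⊆ Tube 0 (1 / 2 + v) w) {T : ℕ} {z : ℤ} (hpath : HasPath R 0 T z)
    (hw0 : 0 ≤ w) (ρ : ℕ) (hρ : 1 ≤ ρ) (hw : 2 * w + 2 ≤ v * ρ) {c : ℝ} (hc : eR μ 0 R 0 T z ≤ c) (hc0 : 0 ≤ c) :
    ∀ (m : ℕ) (K : ℕ), 1 ≤ K → (K + 1) * m ≤ T →
      e0 μ m ≤ Real.exp (2 / K) * (Em μ (2 * ρ) + 2 * c / K) := by
  intro m
  induction m using Nat.strong_induction_on with
  | _ m ih =>
    intro K hK hT
    have hKr : (1 : ℝ) ≤ K := by exact_mod_cast hK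
    have hE := Em_nonneg (μ := μ) hμ (2 * ρ)
    by_cases hm : m < 2 * ρ
    · have h1 : e0 μ m ≤ Em μ (2 * ρ) := e0_le_Em hm.le
      have h2 : (1 : ℝ) ≤ Real.exp (2 / K) := Real.one_le_exp (by positivity)
      have h3 : 0 ≤ 2 * c / K := by positivity
      calc e0 μ m ≤ Em μ (2 * ρ) + 2 * c / K := by linarith
        _ = 1 * (Em μ (2 * ρ) + 2 * c / K) := (one_mul _).symm
        _ ≤ _ := mul_le_mul_of_nonneg_right h2 (by linarith)
    · push Not at hm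
      have hv : 0 ≤ v := by
        by_contra hcon
        push Not at hcon
        have h2 : v * ρ ≤ 0 := mul_nonpos_of_nonpos_of_nonneg hcon.le (Nat.cast_nonneg _)
        linarith
      have hρm : (ρ : ℝ) ≤ ((m / 2 : ℕ) : ℝ) := by
        have h2 : ρ ≤ m / 2 := by omega
        exact_mod_cast h2
      have h1 := descent_step hμ h0R hR hpath hw0 m K hK (by omega) hT
        (hw.trans (mul_le_mul_of_nonneg_left hρm hv))
      have hT2 : (2 * K + 1) * (m / 2) ≤ T := by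
        refine le_trans ?_ hT
        have h3 : 2 * (m / 2) ≤ m := by omega
        calc (2 * K + 1) * (m / 2) = K * (2 * (m / 2)) + m / 2 := by ring
          _ ≤ K * m + m := Nat.add_le_add (Nat.mul_le_mul_left K h3) (by omega)
          _ = (K + 1) * m := by ring
      have h2 := ih (m / 2) (by omega) (2 * K) (by omega) hT2
      have e1 : (2 : ℝ) / ((2 * K : ℕ) : ℝ) = 1 / K := by
        push_cast
        field_simp
      have e2 : 2 * c / ((2 * K : ℕ) : ℝ) = c / K := by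
        push_cast
        field_simp
      rw [e1, e2] at h2
      have h5 : 1 + 1 / (K : ℝ) ≤ Real.exp (1 / K) := by
        rw [add_comm]
        exact Real.add_one_le_exp _
      have h6 : 0 ≤ c / K := by positivity
      have h7 : (1 : ℝ) ≤ Real.exp (2 / K) := Real.one_le_exp (by positivity)
      have e3 : Real.exp (2 / K) = Real.exp (1 / K) * Real.exp (1 / K) := by
        rw [← Real.exp_add]
        congr 1
        ring
      have h8 : 0 ≤ Real.exp (1 / (K : ℝ)) * (Em μ (2 * ρ) + c / K) :=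
        mul_nonneg (Real.exp_pos _).le (by linarith)
      calc e0 μ m ≤ (1 + 1 / K) * e0 μ (m / 2) + eR μ 0 R 0 T z / K := h1
        _ ≤ (1 + 1 / K) * (Real.exp (1 / K) * (Em μ (2 * ρ) + c / K)) + c / K := by
            refine add_le_add (mul_le_mul_of_nonneg_left h2 (by positivity)) ?_
            exact div_le_div_of_nonneg_right hc (by linarith)
        _ ≤ Real.exp (1 / K) * (Real.exp (1 / K) * (Em μ (2 * ρ) + c / K)) + Real.exp (2 / K) * (c / K) := by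
            refine add_le_add (mul_le_mul_of_nonneg_right h5 h8) ?_
            calc c / K = 1 * (c / K) := (one_mul _).symm
              _ ≤ _ := mul_le_mul_of_nonneg_right h7 h6
        _ = Real.exp (2 / K) * (Em μ (2 * ρ) + 2 * c / K) := by
            rw [e3]
            ring

/-- The descent, for the maximum. -/
theorem Em_descent [IsProbabilityMeasure μ] (hμ : Pool.Agent.W_7d29a1_h47.EM μ) {R : Set Pt} {v w : ℝ}
    (h0R : (0 : Pt) ∈ R) (hR : R ⊆ Tube 0 (1 / 2 + v) w) {T : ℕ} {z : ℤ} (hpath : HasPath R 0 T z)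
    (hw0 : 0 ≤ w) (ρ : ℕ) (hρ : 1 ≤ ρ) (hw : 2 * w + 2 ≤ v * ρ) {c : ℝ} (hc : eR μ 0 R 0 T z ≤ c) (hc0 : 0 ≤ c)
    (m K : ℕ) (hK : 2 ≤ K) (hT : (K + 1) * m ≤ T) :
    Em μ m ≤ 3 * (Em μ (2 * ρ) + 2 * c / K) := by
  obtain ⟨m', hm', hE⟩ := exists_Em (μ := μ) m
  have hKr : (2 : ℝ) ≤ K := by exact_mod_cast hK
  have h1 := descent hμ h0R hR hpath hw0 ρ hρ hw hc hc0 m' K (by omega)
    ((Nat.mul_le_mul_left (K + 1) hm').trans hT)
  have h2 := Em_nonneg (μ := μ) hμ (2 * ρ)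
  have h3 : Real.exp (2 / K) ≤ 3 := by
    have h4 : (2 : ℝ) / K ≤ 1 := by
      rw [div_le_one (by linarith)]
      exact hKr
    have h5 := Real.exp_le_exp.2 h4
    have h6 := Real.exp_one_lt_d9
    linarith
  rw [hE]
  refine h1.trans (mul_le_mul_of_nonneg_right h3 ?_)
  positivity

/-- The mean costs in the cone. -/
theorem cone_mean [IsProbabilityMeasure μ] (hμ : Pool.Agent.W_7d29a1_h47.EM μ) {R : Set Pt} {v w : ℝ}
    (h0R : (0 : Pt) ∈ R) (hR : R ⊆ Tube 0 (1 / 2 + v) w) {T : ℕ} {z : ℤ} (hpath : HasPath R 0 T z)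
    (hw0 : 0 ≤ w) (ρ : ℕ) (hρ : 1 ≤ ρ) (hw : 2 * w + 2 ≤ v * ρ) {c : ℝ} (hc : eR μ 0 R 0 T z ≤ c) (hc0 : 0 ≤ c)
    (p t K : ℕ) (htp : t ≤ p) (hρt : ρ ≤ t) (hK : 2 ≤ K) (hT : (K + 1) * (p + t) ≤ T) (y : ℤ)
    (hy : |(y : ℝ) - ((p + t : ℕ) : ℝ) / 2| ≤ v * p - 3 / 2) :
    e μ 0 (p + t) y ≤ 6 * Em μ (2 * ρ) + 13 * c / K := by
  have hKr : (2 : ℝ) ≤ K := by exact_mod_cast hK
  have hv : 0 ≤ v := by
    by_contra hcon
    push Not at hcon
    have h2 : v * ρ ≤ 0 := mul_nonpos_of_nonpos_of_nonneg hcon.le (Nat.cast_nonneg _)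
    linarith
  have hρt' : (ρ : ℝ) ≤ t := by exact_mod_cast hρt
  have h1 := lane_mean hμ h0R hR hpath p t K htp (by nlinarith) (hw.trans (mul_le_mul_of_nonneg_left hρt' hv))
    hv y hy
  have h2 := Em_descent hμ h0R hR hpath hw0 ρ hρ hw hc hc0 t K hK (by nlinarith)
  have h3 : e0 μ t ≤ Em μ t := e0_le_Em le_rfl
  have h4 := Em_nonneg (μ := μ) hμ (2 * ρ)
  have hK0 : (0 : ℝ) < K := by linarith
  have h5 : (K + 1) * e0 μ t ≤ (2 * K) * (3 * (Em μ (2 * ρ) + 2 * c / K)) := by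
    have h6 : 0 ≤ 3 * (Em μ (2 * ρ) + 2 * c / K) := by positivity
    calc (K + 1) * e0 μ t ≤ (K + 1) * (3 * (Em μ (2 * ρ) + 2 * c / K)) :=
          mul_le_mul_of_nonneg_left (h3.trans h2) (by linarith)
      _ ≤ _ := mul_le_mul_of_nonneg_right (by linarith) h6
  have h7 : (K : ℝ) * e μ 0 (p + t) y ≤ K * (6 * Em μ (2 * ρ) + 13 * c / K) := by
    have e1 : K * (6 * Em μ (2 * ρ) + 13 * c / K) =
        c + (2 * K) * (3 * (Em μ (2 * ρ) + 2 * c / K)) := by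
      field_simp
      ring
    rw [e1]
    linarith
  exact le_of_mul_le_mul_left h7 hK0

end Pool.Agent.W_7d29a1_G
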