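import Pool.Agent.W_7d29a1_G.OctDefs
import Pool.Agent.W_7d29a1_G.D4Six
import Pool.Agent.W_7d29a1_G.FinM
import Pool.Agent.W_7d29a1_g.Inner4

/-!
MP_7d29a1_pr, track G, D4, section 4 of row 619: the inner edge in a stretch without soft scale. Part 1: facts about the rate function, the
edges `vA μ A0 n`, `vA μ A1 n`, the references, and the events for one displacement. (helper88)
-/

set_option autoImplicit false

namespace Pool.Agent.W_7d29a1_G

open MeasureTheory ProbabilityTheory Filter Topology Pool.Agent.W_7d29a1_F Pool.Agent.W_7d29a1_h4g Pool.Agent.W_7d29a1_g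

variable {μ : Measure ℝ} [IsProbabilityMeasure μ]

/-- `J` is Lipschitz on `[0, 1/4]`. -/
theorem J_lip88 (hμ : Pool.Agent.W_7d29a1_h47.EM μ) : ∃ K : ℝ, 0 < K ∧ ∀ u v : ℝ, 0 ≤ u → u ≤ v → v ≤ 1 / 4 →
    J μ v - J μ u ≤ K * (v - u) := by
  have hJh : 0 ≤ J μ (1 / 2) := J_nonneg hμ (by norm_num [abs_of_nonneg])
  refine ⟨4 * J μ (1 / 2) + 1, by positivity, fun u v hu huv hv => ?_⟩
  rcases huv.eq_or_lt with h | h
  · rw [h]
    simp
  · have h1 := (J_convex hμ).slope_mono_adjacent (x := u) (y := v) (z := 1 / 2) ⟨by linarith, by linarith⟩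
      ⟨by norm_num, le_rfl⟩ h (by linarith)
    have h2 : (J μ (1 / 2) - J μ v) / (1 / 2 - v) ≤ 4 * J μ (1 / 2) := by
      have hJv : 0 ≤ J μ v := J_nonneg hμ (by rw [abs_of_nonneg (by linarith)]; linarith)
      rw [div_le_iff₀ (by linarith)]
      nlinarith
    have h3 := h1.trans h2
    rw [div_le_iff₀ (by linarith)] at h3
    nlinarith

/-- The edge is never too sharp. -/
theorem edge_gap88 (hμ : Pool.Agent.W_7d29a1_h47.EM μ) (hnd : Pool.Agent.W_7d29a1_h47.Nondeg μ) {A0 A1 : ℝ} (hA0 : 0 ≤ A0)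
    (h01 : A0 < A1) : ∃ (c : ℝ) (n0 : ℕ), 0 < c ∧ ∀ n : ℕ, n0 ≤ n → c * EE μ n ≤ (vA μ A1 n - vA μ A0 n) * n := by
  obtain ⟨K, hK, hlip⟩ := J_lip88 (μ := μ) hμ
  have h1 := (vA_tendsto hμ hnd (hA0.trans h01.le)).eventually (eventually_lt_nhds (show (0 : ℝ) < 1 / 4 by norm_num))
  obtain ⟨n0, hn0⟩ := eventually_atTop.1 h1
  refine ⟨(A1 - A0) / K, n0, div_pos (by linarith) hK, fun n hn => ?_⟩
  have h2 := hn0 n hn
  have h3 := vA_mono (μ := μ) hμ hA0 h01.le n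
  have h4 := vA_nonneg (μ := μ) hμ hA0 n
  have h5 := hlip _ _ h4 h3 h2.le
  have e1 := vA_eq' (μ := μ) hμ (hA0.trans h01.le) (n := n) (by linarith)
  have e0' := vA_eq' (μ := μ) hμ hA0 (n := n) (by linarith)
  have h6 : (0 : ℝ) ≤ n := Nat.cast_nonneg n
  have h7 := mul_le_mul_of_nonneg_left h5 h6
  have h8 : (A1 - A0) * EE μ n ≤ K * ((vA μ A1 n - vA μ A0 n) * n) := by nlinarith
  rw [div_mul_eq_mul_div, div_le_iff₀ hK]
  linarith

/-- Beyond the outer edge. -/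
theorem wall_J88 (hμ : Pool.Agent.W_7d29a1_h47.EM μ) {A0 A1 : ℝ} (hA0 : 0 ≤ A0) (h01 : A0 ≤ A1) {n : ℕ}
    (h : vA μ A1 n < 1 / 2) {r : ℝ} (hr : 1 ≤ r) (hv : vA μ A0 n + r * (vA μ A1 n - vA μ A0 n) ≤ 1 / 2) :
    (A0 + r * (A1 - A0)) * EE μ n ≤ n * J μ (vA μ A0 n + r * (vA μ A1 n - vA μ A0 n)) := by
  have h3 := vA_mono (μ := μ) hμ hA0 h01 n
  have h4 := vA_nonneg (μ := μ) hμ hA0 n
  have e1 := vA_eq' (μ := μ) hμ (hA0.trans h01) (n := n) h
  have e0' := vA_eq' (μ := μ) hμ hA0 (n := n) (by linarith)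
  have hr0 : 0 < r := by linarith
  have h5 : 0 ≤ r * (vA μ A1 n - vA μ A0 n) := mul_nonneg hr0.le (by linarith)
  have hx : vA μ A0 n ∈ Set.Icc (-(1 / 2) : ℝ) (1 / 2) := ⟨by linarith, by linarith⟩
  have hy : vA μ A0 n + r * (vA μ A1 n - vA μ A0 n) ∈ Set.Icc (-(1 / 2) : ℝ) (1 / 2) := ⟨by linarith, hv⟩
  have ha : 0 ≤ 1 - 1 / r := by
    rw [sub_nonneg, div_le_iff₀ hr0]
    linarith
  have hb : 0 ≤ 1 / r := by positivity
  have hc := (J_convex hμ).2 hx hy ha hb (by ring)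
  simp only [smul_eq_mul] at hc
  have e2 : (1 - 1 / r) * vA μ A0 n + 1 / r * (vA μ A0 n + r * (vA μ A1 n - vA μ A0 n)) = vA μ A1 n := by
    field_simp
    ring
  rw [e2] at hc
  have h6 : (0 : ℝ) ≤ n := Nat.cast_nonneg n
  have h7 := mul_le_mul_of_nonneg_left hc h6
  rw [mul_add] at h7
  have h8 : (n : ℝ) * ((1 - 1 / r) * J μ (vA μ A0 n)) = (1 - 1 / r) * (A0 * EE μ n) := by
    rw [← e0']
    ring
  have h9 : (n : ℝ) * (1 / r * J μ (vA μ A0 n + r * (vA μ A1 n - vA μ A0 n))) =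
      1 / r * (n * J μ (vA μ A0 n + r * (vA μ A1 n - vA μ A0 n))) := by ring
  rw [e1, h8, h9] at h7
  have h10 := mul_le_mul_of_nonneg_left h7 hr0.le
  have e3 : r * ((1 - 1 / r) * (A0 * EE μ n) + 1 / r * (n * J μ (vA μ A0 n + r * (vA μ A1 n - vA μ A0 n)))) =
      (r - 1) * (A0 * EE μ n) + n * J μ (vA μ A0 n + r * (vA μ A1 n - vA μ A0 n)) := by
    field_simp
  rw [e3] at h10
  linarith

/-- The width at a smaller time is at least half of the width. -/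
theorem vA_half88 (hμ : Pool.Agent.W_7d29a1_h47.EM μ) {A : ℝ} (hA : 0 ≤ A) {n N : ℕ} (h1 : 1 ≤ n) (hn : n ≤ N) :
    vA μ A N / 2 ≤ vA μ A n := by
  have hv0 := vA_nonneg (μ := μ) hμ hA N
  have hv1 := vA_le (μ := μ) hμ hA N
  refine le_vA (by positivity) (by linarith) ?_
  have h2 := J_mul hμ (v := vA μ A N / 2) (t := 2) (by positivity) (by norm_num) (by linarith)
  rw [mul_div_cancel₀ _ (two_ne_zero)] at h2
  have h3 := vA_mem (μ := μ) hμ hA N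
  have hk : N ≤ (N / n + 1) * n := by
    have := Nat.div_add_mod N n
    have := Nat.mod_lt N h1
    nlinarith
  have h4 : EE μ N ≤ (N / n + 1 : ℕ) * EE μ n := (EE_mono hk).trans (EE_mul hμ _ n (Nat.succ_pos _))
  have h5 : ((N / n + 1 : ℕ) : ℝ) * n ≤ 2 * N := by
    have h6 : (N / n + 1) * n ≤ 2 * N := by
      have := Nat.div_mul_le_self N n
      nlinarith
    exact_mod_cast h6
  have hn0 : (0 : ℝ) < n := by exact_mod_cast h1
  have hN0 : (0 : ℝ) < N := by exact_mod_cast (lt_of_lt_of_le h1 hn)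
  have hE := EE_pos (μ := μ) n
  -- N J(v_N) ≤ A (2 N / n) EE n
  have h7 : N * J μ (vA μ A N) * n ≤ A * (2 * N) * EE μ n := by
    have h8 : N * J μ (vA μ A N) * n ≤ A * EE μ N * n := mul_le_mul_of_nonneg_right h3 hn0.le
    have h9 : A * EE μ N * n ≤ A * ((N / n + 1 : ℕ) * EE μ n) * n :=
      mul_le_mul_of_nonneg_right (mul_le_mul_of_nonneg_left h4 hA) hn0.le
    have h10 : A * ((N / n + 1 : ℕ) * EE μ n) * n = A * (((N / n + 1 : ℕ) * n) * EE μ n) := by ring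
    have h11 : A * (((N / n + 1 : ℕ) * n) * EE μ n) ≤ A * ((2 * N) * EE μ n) :=
      mul_le_mul_of_nonneg_left (mul_le_mul_of_nonneg_right h5 hE.le) hA
    linarith
  have h12 : N * (n * J μ (vA μ A N)) ≤ N * (2 * (A * EE μ n)) := by nlinarith
  have h13 := le_of_mul_le_mul_left h12 hN0
  have h14 := mul_le_mul_of_nonneg_left h2 hn0.le
  linarith

/-- Concentration of the cost of one displacement at a scale which is not soft. -/
theorem X_conc88 {z : ℕ} {α : ℝ} (hS : ¬ Sf μ z α) {n : ℕ} {y : ℤ} (hn : (n : ℝ) ≤ (2 : ℝ) ^ ((z : ℝ) + α)) (hy0 : 0 ≤ y)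
    (hy1 : y ≤ n) (he : e μ 0 n y ≤ (2 : ℝ) ^ α * EE μ (2 ^ z)) :
    (law μ).real {η | (2 : ℝ) ^ (-α) * EE μ (2 ^ z) ≤ |X μ 0 η 0 n y - e μ 0 n y|} ≤ (2 : ℝ) ^ (-α) := by
  have e_def : ∫ η, Real.log (W μ 0 η 0 n y) ∂(law μ) = -e μ 0 n y := by
    unfold e X
    rw [integral_neg, neg_neg]
  have hWpos : ∀ η : Env, 0 < W μ 0 η 0 n y := fun η => W_pos η 0 hy0 hy1
  have c1 := conc_of_not_Sf hS hn (G := fun η => W μ 0 η 0 n y) (poly_WR0 Set.univ n y) hWpos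
    (log_WR_le_V Set.univ 0 hy0 hy1 hWpos) (by
      show -((2 : ℝ) ^ α * EE μ (2 ^ z)) ≤ ∫ η, Real.log (W μ 0 η 0 n y) ∂(law μ)
      rw [e_def]
      linarith)
  rw [e_def] at c1
  refine le_trans (measureReal_mono (fun η hη => ?_) (measure_ne_top _ _)) c1.le
  have hη' : (2 : ℝ) ^ (-α) * EE μ (2 ^ z) ≤ |X μ 0 η 0 n y - e μ 0 n y| := hη
  show (2 : ℝ) ^ (-α) * EE μ (2 ^ z) ≤ |Real.log (W μ 0 η 0 n y) - -e μ 0 n y|
  have h1 : Real.log (W μ 0 η 0 n y) - -e μ 0 n y = -(X μ 0 η 0 n y - e μ 0 n y) := by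
    unfold X
    ring
  rw [h1, abs_neg]
  exact hη'

/-- Expensive displacements are rarely cheap. -/
theorem X_far88 (hEM : Pool.Agent.W_7d29a1_h47.EM μ) (hnd : Pool.Agent.W_7d29a1_h47.Nondeg μ) {p : ℝ} (hp : 0 < p) :
    ∃ (T : ℕ) (C : ℝ), ∀ l n : ℕ, T * l ≤ n → ∀ y : ℤ, 0 ≤ y → y ≤ l → ∀ β : ℝ,
      max (max (2 * β) C) (6 * EE μ n) < e μ 0 l y → (law μ).real {η | X μ 0 η 0 l y ≤ β} ≤ p := by
  obtain ⟨T, C, h⟩ := mean_of_prob_EE (μ := μ) hEM hnd hp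
  refine ⟨T, C, fun l n hTn y hy0 hy1 β hβ => ?_⟩
  by_contra hcon
  rw [not_le] at hcon
  have hWpos : ∀ η : Env, 0 < W μ 0 η 0 l y := fun η => W_pos η 0 hy0 hy1
  have h1 := h l n hTn (fun η => W μ 0 η 0 l y) (poly_WR0 Set.univ l y) hWpos (log_WR_le_V Set.univ 0 hy0 hy1 hWpos) β (by
    refine hcon.le.trans (measureReal_mono (fun η hη => ?_) (measure_ne_top _ _))
    have hη' : X μ 0 η 0 l y ≤ β := hη
    show -β ≤ Real.log (W μ 0 η 0 l y)
    unfold X at hη'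
    linarith)
  have e_def : ∫ η, Real.log (W μ 0 η 0 l y) ∂(law μ) = -e μ 0 l y := by
    unfold e X
    rw [integral_neg, neg_neg]
  rw [e_def, neg_neg] at h1
  linarith

/-- The cost of a reference with a small displacement. -/
theorem ref_cost88 (hμ : Pool.Agent.W_7d29a1_h47.EM μ) {n w X0 : ℕ} {C : ℝ} (hw : w ≤ X0) (hX0 : 1 ≤ X0)
    (hX1 : md n + X0 + 1 ≤ n) (hC : e μ 0 n (md n + X0) ≤ C) :
    e μ 0 n (md n + w) ≤ e0 μ n + (w : ℝ) / X0 * C := by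
  have hline := line_of_convex (f := fun d => e μ 0 n d) (n := (n : ℤ)) (x := md n + w)
    (fun q hq1 hq2 => e_convex hμ hq1 (by exact_mod_cast hq2)) (by
      have : (w : ℤ) ≤ X0 := by exact_mod_cast hw
      omega) (by have := md_nonneg n; omega)
  have h1 := hline (md n) (md_nonneg n) (md_le n)
  have h2 := hline (md n + X0) (by have := md_nonneg n; omega) (by omega)
  set σ : ℝ := e μ 0 n (md n + w + 1) - e μ 0 n (md n + w) with hσ
  have hX : (0 : ℝ) < X0 := by exact_mod_cast hX0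
  have hwX : (w : ℝ) ≤ X0 := by exact_mod_cast hw
  have g1 : ((md n - (md n + w) : ℤ) : ℝ) = -(w : ℝ) := by
    push_cast
    ring
  have g2 : ((md n + X0 - (md n + w) : ℤ) : ℝ) = (X0 : ℝ) - w := by
    push_cast
    ring
  rw [g1] at h1
  rw [g2] at h2
  have h0 : 0 ≤ e0 μ n := e_nonneg hμ 0 (md_nonneg n) (md_le n)
  have hE0 : e0 μ n = e μ 0 n (md n) := rfl
  rw [← hE0] at h1
  -- convex combination
  have h3 : (X0 - w) * (e μ 0 n (md n + w) + σ * -(w : ℝ)) ≤ (X0 - w) * e0 μ n :=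
    mul_le_mul_of_nonneg_left h1 (by linarith)
  have h4 : (w : ℝ) * (e μ 0 n (md n + w) + σ * ((X0 : ℝ) - w)) ≤ w * C :=
    mul_le_mul_of_nonneg_left (h2.trans hC) (Nat.cast_nonneg w)
  have h5 : (X0 : ℝ) * e μ 0 n (md n + w) ≤ X0 * e0 μ n + w * C := by
    have h6 : 0 ≤ (w : ℝ) * e0 μ n := mul_nonneg (Nat.cast_nonneg w) h0
    nlinarith
  have h7 : e μ 0 n (md n + w) = ((X0 : ℝ) * e μ 0 n (md n + w)) / X0 := by
    field_simp
  rw [h7, div_le_iff₀ hX]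
  refine h5.trans (le_of_eq ?_)
  field_simp

end Pool.Agent.W_7d29a1_G
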