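import Pool.Agent.W_7d29a1_G.OctDefs
import Pool.Agent.W_7d29a1_G.Unit2b

/-!
MP_7d29a1_pr, track G, D4 (row 619): slow growth on a stretch without soft scale, and its consequences for the edges (7.1).
-/

namespace Pool.Agent.W_7d29a1_G

open MeasureTheory ProbabilityTheory Filter Topology Pool.Agent.W_7d29a1_F Pool.Agent.W_7d29a1_h4g
open Pool.Agent.W_7d29a1_h47 (EM Nondeg)
open Pool.Agent.W_7d29a1_g (Em)

variable {μ : Measure ℝ} [IsProbabilityMeasure μ]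

/-- The largest mean cost is below the unit. -/
theorem Em_le_EE17 (hμ : EM μ) (n : ℕ) : Em μ n ≤ EE μ n - 1 := by
  obtain ⟨m, hm, h⟩ := Pool.Agent.W_7d29a1_g.exists_Em (μ := μ) n
  rw [h]
  have h1 := ep_le_EE (μ := μ) hm
  have e1 : ((m / 2 : ℕ) : ℤ) = md m := by
    unfold md
    push_cast
    rfl
  have h2 : Pool.Agent.W_7d29a1_g.e0 μ m ≤ ep μ m (md m) := by
    unfold Pool.Agent.W_7d29a1_g.e0
    rw [e1]
    exact e_le_ep hμ (md_nonneg m) (md_le m)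
  linarith

/-- Slow growth from (D7) and (I1). -/
theorem slow_of17 (hμ : EM μ) {a b : ℕ} {s0 : ℝ} (hs1 : s0 ≤ 1 / 4)
    (hD : ∀ x, a ≤ x → x < b → Em μ (2 ^ (x + 1)) ≤ (1 + s0) * Em μ (2 ^ x))
    (hI : ∀ z, a ≤ z → z < b → EE μ (2 ^ z) ≤ 2 * Em μ (2 ^ z) + 2) : Slow μ a b := by
  intro z z' hz hzz hz'
  have h1 : ∀ d : ℕ, z + d < b → Em μ (2 ^ (z + d)) ≤ (5 / 4 : ℝ) ^ d * Em μ (2 ^ z) := by
    intro d
    induction d with
    | zero => intro _; simp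
    | succ d ih =>
      intro hd
      have h2 := ih (by omega)
      have h3 := hD (z + d) (by omega) (by omega)
      have h4 := Pool.Agent.W_7d29a1_g.Em_nonneg (μ := μ) hμ (2 ^ (z + d))
      rw [← add_assoc, pow_succ]
      calc Em μ (2 ^ (z + d + 1)) ≤ (1 + s0) * Em μ (2 ^ (z + d)) := h3
        _ ≤ 5 / 4 * Em μ (2 ^ (z + d)) := by nlinarith
        _ ≤ 5 / 4 * ((5 / 4 : ℝ) ^ d * Em μ (2 ^ z)) := by linarith
        _ = _ := by ring
  obtain ⟨d, rfl⟩ := Nat.exists_eq_add_of_le hzz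
  have h2 := h1 d hz'
  have h3 := hI (z + d) (by omega) hz'
  have h4 := Em_le_EE17 (μ := μ) hμ (2 ^ z)
  have h5 := one_le_EE (μ := μ) (2 ^ z)
  have e : z + d - z = d := by omega
  rw [e]
  have h6 : (1 : ℝ) ≤ (5 / 4 : ℝ) ^ d := one_le_pow₀ (by norm_num)
  have h7 : (5 / 4 : ℝ) ^ d * Em μ (2 ^ z) ≤ (5 / 4 : ℝ) ^ d * (EE μ (2 ^ z) - 1) :=
    mul_le_mul_of_nonneg_left h4 (by positivity)
  nlinarith

/-- Comparison of the widths of two scales and two levels. -/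
theorem vA_le_vA17 (hμ : EM μ) {A B : ℝ} (hA : 0 ≤ A) {n m : ℕ} (hn : 1 ≤ n)
    (h : A * EE μ n * m ≤ B * EE μ m * n) : vA μ A n ≤ vA μ B m := by
  refine le_vA (vA_nonneg hμ hA n) (vA_le hμ hA n) ?_
  have h1 := vA_mem (μ := μ) hμ hA n
  have hn0 : (0 : ℝ) < n := by exact_mod_cast hn
  have hm0 : (0 : ℝ) ≤ m := Nat.cast_nonneg m
  have h2 : n * (m * J μ (vA μ A n)) ≤ n * (B * EE μ m) := by
    calc n * (m * J μ (vA μ A n)) = m * (n * J μ (vA μ A n)) := by ring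
      _ ≤ m * (A * EE μ n) := mul_le_mul_of_nonneg_left h1 hm0
      _ ≤ n * (B * EE μ m) := by linarith
  exact le_of_mul_le_mul_left h2 hn0

theorem vA_pow17 (hμ : EM μ) {A : ℝ} (hA : 0 ≤ A) {z z' : ℕ} (h : z ≤ z') : vA μ A (2 ^ z') ≤ vA μ A (2 ^ z) := by
  obtain ⟨d, rfl⟩ := Nat.exists_eq_add_of_le h
  induction d with
  | zero => exact le_rfl
  | succ d ih =>
    have h1 := vA_two (μ := μ) hμ hA (2 ^ (z + d))
    rw [← pow_succ'] at h1
    exact h1.trans (ih (Nat.le_add_right _ _))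

/-- **(7.1).** On a stretch of slow growth the edges of all scales between the octaves `j` and `j'` are between the edges of the
octaves `j' + 3` and `j - k0`. -/
theorem slow_edges (hμ : EM μ) {A0 A1 : ℝ} (h0 : 0 < A0) (h1 : 0 < A1) : ∃ k0 : ℕ, ∀ a b : ℕ, Slow μ a b →
    ∀ j j' N : ℕ, a + k0 ≤ j → j' + 3 < b → 2 ^ j ≤ N → N ≤ 2 ^ j' →
      vA μ A0 (2 ^ (j' + 3)) ≤ vA μ A0 N ∧ vA μ A1 N ≤ vA μ A0 (2 ^ (j - k0)) := by
  obtain ⟨k0, hk0⟩ : ∃ k0 : ℕ, A1 * 3 * (5 / 4 : ℝ) ^ (k0 + 1) ≤ A0 * 2 ^ k0 := by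
    obtain ⟨k0, hk0⟩ := pow_unbounded_of_one_lt (A1 * 4 / A0) (by norm_num : (1 : ℝ) < 8 / 5)
    refine ⟨k0, ?_⟩
    rw [div_lt_iff₀ h0] at hk0
    have h2 : (2 : ℝ) ^ k0 = (8 / 5) ^ k0 * (5 / 4) ^ k0 := by
      rw [← mul_pow]
      norm_num
    rw [h2, pow_succ]
    have h3 : (0 : ℝ) < (5 / 4) ^ k0 := by positivity
    nlinarith [mul_lt_mul_of_pos_right hk0 h3]
  refine ⟨k0, fun a b hS j j' N hj hj' hN hN' => ?_⟩
  -- the octave of `N`
  have hN1 : 1 ≤ N := le_trans Nat.one_le_two_pow hN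
  obtain ⟨z, hz1, hz2⟩ : ∃ z, 2 ^ z ≤ N ∧ N < 2 ^ (z + 1) :=
    ⟨Nat.log 2 N, Nat.pow_log_le_self 2 (by omega), Nat.lt_pow_succ_log_self (by norm_num) N⟩
  have hjz : j ≤ z := by
    by_contra hc
    push Not at hc
    have : 2 ^ (z + 1) ≤ 2 ^ j := Nat.pow_le_pow_right (by norm_num) hc
    omega
  have hzj' : z ≤ j' := by
    by_contra hc
    push Not at hc
    have : 2 ^ (j' + 1) ≤ 2 ^ z := Nat.pow_le_pow_right (by norm_num) hc
    rw [pow_succ] at this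
    have : 0 < 2 ^ j' := by positivity
    omega
  have hEpos := one_le_EE (μ := μ) (2 ^ z)
  have hNr1 : (2 : ℝ) ^ z ≤ N := by exact_mod_cast hz1
  have hNr2 : (N : ℝ) ≤ 2 ^ (z + 1) := by exact_mod_cast hz2.le
  constructor
  · rcases Nat.lt_or_ge z j' with hlt | hge
    · -- an octave below the top
      refine (vA_pow17 hμ h0.le (show z + 4 ≤ j' + 3 by omega)).trans ?_
      refine vA_le_vA17 hμ h0.le Nat.one_le_two_pow ?_
      have h2 := hS z (z + 4) (by omega) (by omega) (by omega)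
      have e : z + 4 - z = 4 := by omega
      rw [e] at h2
      have h3 : EE μ (2 ^ z) ≤ EE μ N := EU_mono hz1
      push_cast
      have h4 : EE μ (2 ^ (z + 4)) ≤ 8 * EE μ N := by
        have : (3 : ℝ) * (5 / 4) ^ 4 ≤ 8 := by norm_num
        nlinarith
      have h5 : (N : ℝ) * 8 ≤ 2 ^ (z + 4) := by
        have : (2 : ℝ) ^ (z + 4) = 2 ^ (z + 1) * 8 := by rw [pow_add, pow_add]; norm_num; ring
        linarith
      have h6 : 0 ≤ EE μ N := by linarith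
      have h7 : (0 : ℝ) ≤ N := Nat.cast_nonneg N
      calc A0 * EE μ (2 ^ (z + 4)) * N ≤ A0 * (8 * EE μ N) * N := by
            refine mul_le_mul_of_nonneg_right (mul_le_mul_of_nonneg_left h4 h0.le) h7
        _ = A0 * EE μ N * (N * 8) := by ring
        _ ≤ A0 * EE μ N * 2 ^ (z + 4) := mul_le_mul_of_nonneg_left h5 (by positivity)
    · have e1 : z = j' := by omega
      have e2 : N = 2 ^ j' := by
        rw [e1] at hz1
        omega
      rw [e2]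
      exact vA_pow17 hμ h0.le (by omega)
  · refine le_trans ?_ (vA_pow17 hμ h0.le (show j - k0 ≤ z - k0 by omega))
    refine vA_le_vA17 hμ h1.le hN1 ?_
    have h2 := hS (z - k0) (z + 1) (by omega) (by omega) (by omega)
    have e : z + 1 - (z - k0) = k0 + 1 := by omega
    rw [e] at h2
    have h3 : EE μ N ≤ EE μ (2 ^ (z + 1)) := EU_mono hz2.le
    have h4 : EE μ N ≤ 3 * (5 / 4) ^ (k0 + 1) * EE μ (2 ^ (z - k0)) := h3.trans h2
    have h5 : (0 : ℝ) ≤ EE μ (2 ^ (z - k0)) := by linarith [one_le_EE (μ := μ) (2 ^ (z - k0))]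
    push_cast
    have h6 : (2 : ℝ) ^ k0 * 2 ^ (z - k0) ≤ N := by
      rw [← pow_add, show k0 + (z - k0) = z by omega]
      exact hNr1
    calc A1 * EE μ N * 2 ^ (z - k0) ≤ A1 * (3 * (5 / 4) ^ (k0 + 1) * EE μ (2 ^ (z - k0))) * 2 ^ (z - k0) := by
          refine mul_le_mul_of_nonneg_right (mul_le_mul_of_nonneg_left h4 h1.le) (by positivity)
      _ = (A1 * 3 * (5 / 4) ^ (k0 + 1)) * (EE μ (2 ^ (z - k0)) * 2 ^ (z - k0)) := by ring
      _ ≤ (A0 * 2 ^ k0) * (EE μ (2 ^ (z - k0)) * 2 ^ (z - k0)) :=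
          mul_le_mul_of_nonneg_right hk0 (by positivity)
      _ = A0 * EE μ (2 ^ (z - k0)) * (2 ^ k0 * 2 ^ (z - k0)) := by ring
      _ ≤ A0 * EE μ (2 ^ (z - k0)) * N := mul_le_mul_of_nonneg_left h6 (by positivity)

/-- `2 ^ u - 1 ≤ u` for `0 ≤ u ≤ 1`. -/
theorem two_rpow_le17 {u : ℝ} (h0 : 0 ≤ u) (h1 : u ≤ 1) : (2 : ℝ) ^ u ≤ 1 + u := by
  have h2 := (convexOn_exp.2 (Set.mem_univ 0) (Set.mem_univ (Real.log 2)) (sub_nonneg.2 h1) h0 (by ring))
  simp only [smul_eq_mul, mul_zero, zero_add, Real.exp_zero, mul_one, Real.exp_log two_pos] at h2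
  rw [Real.rpow_def_of_pos two_pos, mul_comm]
  linarith

/-- The width of the edge from the closing of the cone. -/
theorem width_le17 (hμ : EM μ) {A : ℝ} (hA : 0 < A) {x y : ℕ} (hxy : x ≤ y) (h : ff μ A y - ff μ A x ≤ 1) :
    vA μ A (2 ^ x) - vA μ A (2 ^ y) ≤ (ff μ A y - ff μ A x) * vA μ A (2 ^ y) := by
  have hx := vA_pos (μ := μ) hμ hA (2 ^ x)
  have hy := vA_pos (μ := μ) hμ hA (2 ^ y)
  have h1 : vA μ A (2 ^ x) = (2 : ℝ) ^ (ff μ A y - ff μ A x) * vA μ A (2 ^ y) := by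
    unfold ff
    rw [show -Real.logb 2 (vA μ A (2 ^ y)) - -Real.logb 2 (vA μ A (2 ^ x)) =
      Real.logb 2 (vA μ A (2 ^ x)) + -Real.logb 2 (vA μ A (2 ^ y)) by ring, Real.rpow_add two_pos,
      Real.rpow_logb two_pos (by norm_num) hx, Real.rpow_neg two_pos.le,
      Real.rpow_logb two_pos (by norm_num) hy, mul_assoc, inv_mul_cancel₀ hy.ne', mul_one]
  have h2 : 0 ≤ ff μ A y - ff μ A x := by
    have h3 := vA_pow17 (μ := μ) hμ hA.le hxy
    have h4 := Real.logb_le_logb_of_le one_lt_two hy h3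
    unfold ff
    linarith
  have h3 := two_rpow_le17 h2 h
  have h4 := mul_le_mul_of_nonneg_right h3 hy.le
  rw [← h1] at h4
  linarith

end Pool.Agent.W_7d29a1_G
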