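import Pool.Agent.W_7d29a1_G.FR0
import Pool.Agent.W_7d29a1_L.LsDefs

/-!
MP_7d29a1_pr, track G: THE FRAME (section D5, rows 620 and 621): the statements which the other sections use. The unit is
`EE μ n` (direction `0`), the natural width is `wA μ n = v_n n`, `n J(v_n) = EE μ n` (level `1`); tilt `0`.

`FrOut μ` is the output of row 620 (at every scale: the cone by means, and the exponential moments of the tilted box luck).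
Everything else (`FIn`, `FLuck`, `FTilt`, `FTail`, `FL0`) is deduced from it (and from LE, row 621, for `FTail`) in `Frame.lean`.
-/

namespace Pool.Agent.W_7d29a1_G

open MeasureTheory ProbabilityTheory Filter Topology Pool.Agent.W_7d29a1_F Pool.Agent.W_7d29a1_h4g Pool.Agent.W_7d29a1_L

noncomputable section

/-- The natural width of the scale `n`. -/
def wA (μ : Measure ℝ) (n : ℕ) : ℝ := vA μ 1 n * n

/-- The output of row 620: at every scale `n ≥ n₀` there are a width `w`, a tilt `h` with `h w` of the size of the unit and a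
unit of luck `Y ≤ C E(n)`: the displacements `(4 n, 2 n + x)`, `|x| < w`, have mean cost `≤ A E(n)`, and the tilted lucks (tilts
`h / 2` and `- h / 2`) of every box of time `n` and width `w` have exponential moments at the unit `Y`. -/
def FrOut (μ : Measure ℝ) : Prop :=
  ∃ (A C c : ℝ) (n₀ : ℕ), 0 < c ∧ ∀ n : ℕ, n₀ ≤ n → ∃ (w : ℕ) (h Y : ℝ), 1 ≤ w ∧ w ≤ n ∧ 0 < h ∧ 1 ≤ Y ∧
    Y ≤ C * EE μ n ∧ c * EE μ n ≤ h * w ∧ h * w ≤ C * EE μ n ∧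
    (∀ y : ℤ, |(y : ℝ) - 2 * n| < w → e μ 0 (4 * n) y ≤ A * EE μ n) ∧
    ∀ z : ℝ, ∫ η, Real.exp (Mh μ 0 (1 / 2) (h / 2) w z n η / Y) ∂(law μ) ≤ 4 * Real.exp 1 ∧
      ∫ η, Real.exp (Mh μ 0 (1 / 2) (-(h / 2)) w z n η / Y) ∂(law μ) ≤ 4 * Real.exp 1

/-- One cone: the same with the tilt `s = h / 2`, one constant `C`, the unit of luck `C E(n)`, and the width `w` comparable with the
natural width `w_n = wA μ n`. -/
def FrW (μ : Measure ℝ) : Prop :=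
  ∃ (C c : ℝ) (n₀ : ℕ), 0 < c ∧ 1 ≤ C ∧ 1 ≤ n₀ ∧ ∀ n : ℕ, n₀ ≤ n → ∃ (w : ℕ) (s : ℝ), 1 ≤ w ∧ w ≤ n ∧ 0 < s ∧
    wA μ n ≤ C * w ∧ (w : ℝ) ≤ C * wA μ n ∧ c * EE μ n ≤ s * w ∧ s * w ≤ C * EE μ n ∧
    (∀ y : ℤ, |(y : ℝ) - 2 * n| < w → e μ 0 (4 * n) y ≤ C * EE μ n) ∧
    ∀ z : ℝ, ∫ η, Real.exp (Mh μ 0 (1 / 2) s w z n η / (C * EE μ n)) ∂(law μ) ≤ 4 * Real.exp 1 ∧
      ∫ η, Real.exp (Mh μ 0 (1 / 2) (-s) w z n η / (C * EE μ n)) ∂(law μ) ≤ 4 * Real.exp 1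

/-- (in): the inner cone, at all times up to `H n`. -/
def FIn (μ : Measure ℝ) : Prop :=
  ∃ c₀ : ℝ, 0 < c₀ ∧ ∀ H : ℕ, ∃ (C : ℝ) (n₀ : ℕ), ∀ n : ℕ, n₀ ≤ n → ∀ (m : ℕ) (y : ℤ), m ≤ H * n → 0 ≤ y → y ≤ m →
    |(y : ℝ) - m / 2| ≤ c₀ * vA μ 1 n * m + 1 → ep μ m y ≤ C * EE μ n

/-- Exponential moments of the tilted luck (tilts `t`, `|t| w_n ≤ c E(n)`, for instance `t = 0`) of the boxes of time `H n` and
width `w_n`, at the unit `E(n)`. -/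
def FLuck (μ : Measure ℝ) : Prop :=
  ∀ H : ℕ, ∃ (c C : ℝ) (n₀ : ℕ), 0 < c ∧ ∀ n : ℕ, n₀ ≤ n → ∀ t z : ℝ, |t| * wA μ n ≤ c * EE μ n →
    ∫ η, Real.exp (c / EE μ n * Mh μ 0 (1 / 2) t (wA μ n) z (H * n) η) ∂(law μ) ≤ C

/-- The tilted free end weight from one start: `E (∑_y W(0; m, y) exp (c E(n) |y - m / 2| / w_n)) ^ (c / E(n)) ≤ C`. -/
def FTilt (μ : Measure ℝ) : Prop :=
  ∀ H : ℕ, ∃ (c C : ℝ) (n₀ : ℕ), 0 < c ∧ ∀ n : ℕ, n₀ ≤ n → ∀ m : ℕ, m ≤ H * n →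
    ∫ η, Real.exp (c / EE μ n * Real.log (∑ y ∈ Finset.Icc (0 : ℤ) m,
      W μ 0 η 0 m y * Real.exp (c * EE μ n / wA μ n * |(y : ℝ) - m / 2|))) ∂(law μ) ≤ C

/-- (TAIL): a functional which is hard in the mean is exponentially rarely easy. `log G` is at most one unit plus the (tilted)
box luck, for instance `log G ≤ V_t`, `t ≤ H n`. -/
def FTail (μ : Measure ℝ) : Prop :=
  ∀ H : ℕ, ∃ (c C : ℝ) (n₀ : ℕ), 0 < c ∧ ∀ n : ℕ, n₀ ≤ n → ∀ (S : Set Pt) (G : Env → ℝ), Poly S G → (∀ η, 0 < G η) →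
    (∃ t z : ℝ, |t| * wA μ n ≤ c * EE μ n ∧ ∀ η, Real.log (G η) ≤ EE μ n + Mh μ 0 (1 / 2) t (wA μ n) z (H * n) η) →
    0 ≤ -∫ η, Real.log (G η) ∂(law μ) →
    ∫ η, Real.exp (c / EE μ n * Real.log (G η)) ∂(law μ) ≤
      C * Real.exp (-(c / EE μ n * (-∫ η, Real.log (G η) ∂(law μ)) / 2))

/-- (TAIL) for the functionals `log G ≤ V_t(0)`, `t ≤ H n`. -/
def FTail0 (μ : Measure ℝ) : Prop :=
  ∀ H : ℕ, ∃ (c C : ℝ) (n₀ : ℕ), 0 < c ∧ ∀ n : ℕ, n₀ ≤ n → ∀ (t : ℕ) (G : Env → ℝ), t ≤ H * n → Poly (rows 0 t) G →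
    (∀ η, 0 < G η) → (∀ η, Real.log (G η) ≤ V μ 0 η 0 t) →
    ∫ η, Real.exp (c / EE μ n * Real.log (G η)) ∂(law μ) ≤
      C * Real.exp (-(c / EE μ n * (-∫ η, Real.log (G η) ∂(law μ)) / 2))

/-- (L0): `P(max_{t ≤ H n} V_t(0) ≥ k E(n)) ≤ C e^{- c k}`. -/
def FL0 (μ : Measure ℝ) : Prop :=
  ∀ H : ℕ, ∃ (c C : ℝ) (n₀ : ℕ), 0 < c ∧ ∀ n : ℕ, n₀ ≤ n → ∀ k : ℝ,
    (law μ).real {η | ∃ t : ℕ, t ≤ H * n ∧ k * EE μ n ≤ V μ 0 η 0 t} ≤ C * Real.exp (-(c * k))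

end

end Pool.Agent.W_7d29a1_G
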