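import Pool.Agent.W_7d29a1_G.Oct52b

/-!
MP_7d29a1_pr, track G, D4 (row 619), section 4: the probabilistic inputs of the inner edge at an octave which is not soft.
-/

namespace Pool.Agent.W_7d29a1_G

open MeasureTheory ProbabilityTheory Filter Topology Pool.Agent.W_7d29a1_F Pool.Agent.W_7d29a1_h4g
open Pool.Agent.W_7d29a1_g

variable {μ : Measure ℝ} [IsProbabilityMeasure μ]

/-- Concentration of a passage at an octave which is not soft. -/
theorem i52_conc {x : ℕ} {α : ℝ} (hS : ¬ Sf μ x α) (hα : 0 ≤ α) {l : ℕ} {d : ℤ} (hl : l ≤ 2 ^ x) (h0 : 0 ≤ d) (h1 : d ≤ l)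
    (he : e μ 0 l d ≤ (2 : ℝ) ^ α * EE μ (2 ^ x)) {κ p : ℝ} (hκ : (2 : ℝ) ^ (-α) ≤ κ) (hp : (2 : ℝ) ^ (-α) ≤ p) :
    (law μ).real {η | κ * EE μ (2 ^ x) ≤ |X μ 0 η 0 l d - e μ 0 l d|} ≤ p := by
  have hE := one_le_EE (μ := μ) (2 ^ x)
  have hl' : (l : ℝ) ≤ (2 : ℝ) ^ ((x : ℝ) + α) := by
    have h1 : (l : ℝ) ≤ (2 : ℝ) ^ x := by exact_mod_cast hl
    have h2 : (2 : ℝ) ^ (x : ℝ) ≤ (2 : ℝ) ^ ((x : ℝ) + α) :=
      Real.rpow_le_rpow_of_exponent_le one_le_two (by linarith)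
    rw [Real.rpow_natCast] at h2
    linarith
  have hWpos : ∀ η : Env, 0 < W μ 0 η 0 l d := fun η => W_pos η 0 h0 h1
  have e1 : ∫ η, Real.log (W μ 0 η 0 l d) ∂(law μ) = -e μ 0 l d := by
    unfold e X
    rw [integral_neg, neg_neg]
  have c1 := conc_of_not_Sf hS hl' (G := fun η => W μ 0 η 0 l d) (poly_WR0 Set.univ l d) hWpos
    (log_WR_le_V Set.univ 0 h0 h1 hWpos) (by
      show -((2 : ℝ) ^ α * EE μ (2 ^ x)) ≤ ∫ η, Real.log (W μ 0 η 0 l d) ∂(law μ)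
      rw [e1]
      linarith)
  simp only [e1, sub_neg_eq_add] at c1
  refine le_trans (measureReal_mono (fun η hη => ?_) (measure_ne_top _ _)) (c1.le.trans hp)
  have hη' : κ * EE μ (2 ^ x) ≤ |X μ 0 η 0 l d - e μ 0 l d| := hη
  show (2 : ℝ) ^ (-α) * EE μ (2 ^ x) ≤ |Real.log (W μ 0 η 0 l d) + e μ 0 l d|
  have h3 : |Real.log (W μ 0 η 0 l d) + e μ 0 l d| = |X μ 0 η 0 l d - e μ 0 l d| := by
    rw [← abs_neg]
    congr 1
    unfold X
    ring
  rw [h3]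
  exact (mul_le_mul_of_nonneg_right hκ (by linarith)).trans hη'

theorem i52_low {x : ℕ} {α : ℝ} (hS : ¬ Sf μ x α) (hα : 0 ≤ α) {l : ℕ} {d : ℤ} (hl : l ≤ 2 ^ x) (h0 : 0 ≤ d) (h1 : d ≤ l)
    (he : e μ 0 l d ≤ (2 : ℝ) ^ α * EE μ (2 ^ x)) {κ p : ℝ} (hκ : (2 : ℝ) ^ (-α) ≤ κ) (hp : (2 : ℝ) ^ (-α) ≤ p) :
    (law μ).real {η | X μ 0 η 0 l d < e μ 0 l d - κ * EE μ (2 ^ x)} ≤ p := by
  refine le_trans (measureReal_mono (fun η hη => ?_) (measure_ne_top _ _)) (i52_conc hS hα hl h0 h1 he hκ hp)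
  have hη' : X μ 0 η 0 l d < e μ 0 l d - κ * EE μ (2 ^ x) := hη
  show κ * EE μ (2 ^ x) ≤ |X μ 0 η 0 l d - e μ 0 l d|
  rw [abs_sub_comm]
  exact le_trans (by linarith) (le_abs_self _)

/-- The references and the path (inputs `hr1`, `hr2`, `hpath` of `inner4`). -/
theorem i52_up {x : ℕ} {α : ℝ} (hS : ¬ Sf μ x α) (hα : 0 ≤ α) {l : ℕ} {d : ℤ} (hl : l ≤ 2 ^ x) (h0 : 0 ≤ d) (h1 : d ≤ l)
    (he : e μ 0 l d ≤ (2 : ℝ) ^ α * EE μ (2 ^ x)) {κ p : ℝ} (hκ : (2 : ℝ) ^ (-α) ≤ κ) (hp : (2 : ℝ) ^ (-α) ≤ p)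
    {r : ℝ} (hr : e μ 0 l d + κ * EE μ (2 ^ x) ≤ r) :
    (law μ).real {η | r < X μ 0 η 0 l d} ≤ p := by
  refine le_trans (measureReal_mono (fun η hη => ?_) (measure_ne_top _ _)) (i52_conc hS hα hl h0 h1 he hκ hp)
  have hη' : r < X μ 0 η 0 l d := hη
  show κ * EE μ (2 ^ x) ≤ |X μ 0 η 0 l d - e μ 0 l d|
  exact le_trans (by linarith) (le_abs_self _)

/-- The pieces (input `hpiece` of `inner4`): `α₀` depends on the level `B` of the truncation, on the error `κ` and on `p`. -/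
theorem i52_piece (hEM : Pool.Agent.W_7d29a1_h47.EM μ) (hnd : Pool.Agent.W_7d29a1_h47.Nondeg μ) {p κ B : ℝ} (hp : 0 < p)
    (hκ : 0 < κ) (hB : 0 ≤ B) : ∃ α₀ : ℝ, 0 ≤ α₀ ∧ ∀ (x : ℕ) (α : ℝ), α₀ ≤ α → ¬ Sf μ x α → ∀ l : ℕ, l ≤ 2 ^ x → ∀ d : ℤ,
      0 ≤ d → d ≤ l → (law μ).real {η | X μ 0 η 0 l d < min (e μ 0 l d) (B * EE μ (2 ^ x)) - κ * EE μ (2 ^ x)} ≤ p := by
  obtain ⟨T, C, hMC⟩ := mean_of_prob_EE (μ := μ) hEM hnd hp
  obtain ⟨M, hM⟩ : ∃ M : ℝ, M = max (max (2 * B) C) (6 * (T + 1)) + 1 := ⟨_, rfl⟩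
  have hM1 : 1 ≤ M := by
    rw [hM]
    have : (0 : ℝ) ≤ max (max (2 * B) C) (6 * (T + 1)) := le_trans (by positivity) (le_max_right _ _)
    linarith
  refine ⟨max 0 (max (Real.logb 2 M) (max (Real.logb 2 (1 / κ)) (Real.logb 2 (1 / p)))), le_max_left _ _,
    fun x α hα hS l hl d h0 h1 => ?_⟩
  have hα0 : 0 ≤ α := (le_max_left _ _).trans hα
  have hαM : M ≤ (2 : ℝ) ^ α := (Real.logb_le_iff_le_rpow one_lt_two (by linarith)).1
    (((le_max_left _ _).trans (le_max_right _ _)).trans hα)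
  have hακ : (2 : ℝ) ^ (-α) ≤ κ := by
    have h2 : 1 / κ ≤ (2 : ℝ) ^ α := (Real.logb_le_iff_le_rpow one_lt_two (by positivity)).1
      ((((le_max_left _ _).trans (le_max_right _ _)).trans (le_max_right _ _)).trans hα)
    rw [Real.rpow_neg two_pos.le]
    have h3 := inv_anti₀ (by positivity) h2
    rwa [one_div, inv_inv] at h3
  have hαp : (2 : ℝ) ^ (-α) ≤ p := by
    have h2 : 1 / p ≤ (2 : ℝ) ^ α := (Real.logb_le_iff_le_rpow one_lt_two (by positivity)).1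
      ((((le_max_right _ _).trans (le_max_right _ _)).trans (le_max_right _ _)).trans hα)
    rw [Real.rpow_neg two_pos.le]
    have h3 := inv_anti₀ (by positivity) h2
    rwa [one_div, inv_inv] at h3
  have hE := one_le_EE (μ := μ) (2 ^ x)
  by_cases he : e μ 0 l d ≤ (2 : ℝ) ^ α * EE μ (2 ^ x)
  · refine le_trans (measureReal_mono (fun η hη => ?_) (measure_ne_top _ _)) (i52_low hS hα0 hl h0 h1 he hακ hαp)
    have hη' : X μ 0 η 0 l d < min (e μ 0 l d) (B * EE μ (2 ^ x)) - κ * EE μ (2 ^ x) := hη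
    show X μ 0 η 0 l d < e μ 0 l d - κ * EE μ (2 ^ x)
    have := min_le_left (e μ 0 l d) (B * EE μ (2 ^ x))
    linarith
  · push Not at he
    by_contra hcon
    push Not at hcon
    have hWpos : ∀ η : Env, 0 < W μ 0 η 0 l d := fun η => W_pos η 0 h0 h1
    have e1 : ∫ η, Real.log (W μ 0 η 0 l d) ∂(law μ) = -e μ 0 l d := by
      unfold e X
      rw [integral_neg, neg_neg]
    have h2 := hMC l ((T + 1) * l) (Nat.mul_le_mul_right l (Nat.le_succ T)) (fun η => W μ 0 η 0 l d)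
      (poly_WR0 Set.univ l d) hWpos (log_WR_le_V Set.univ 0 h0 h1 hWpos) (B * EE μ (2 ^ x)) (by
        refine hcon.le.trans (measureReal_mono (fun η hη => ?_) (measure_ne_top _ _))
        have hη' : X μ 0 η 0 l d < min (e μ 0 l d) (B * EE μ (2 ^ x)) - κ * EE μ (2 ^ x) := hη
        show -(B * EE μ (2 ^ x)) ≤ Real.log (W μ 0 η 0 l d)
        have h3 := min_le_right (e μ 0 l d) (B * EE μ (2 ^ x))
        have h4 : 0 ≤ κ * EE μ (2 ^ x) := by positivity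
        unfold X at hη'
        linarith)
    rw [e1, neg_neg] at h2
    have h5 : EE μ ((T + 1) * l) ≤ (T + 1) * EE μ (2 ^ x) := by
      have h6 := EE_mul hEM (T + 1) l (by omega)
      have h7 : EE μ l ≤ EE μ (2 ^ x) := EE_mono hl
      push_cast at h6
      have h8 : ((T : ℝ) + 1) * EE μ l ≤ (T + 1) * EE μ (2 ^ x) := mul_le_mul_of_nonneg_left h7 (by positivity)
      linarith
    have h9 : max (max (2 * (B * EE μ (2 ^ x))) C) (6 * EE μ ((T + 1) * l)) ≤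
        max (max (2 * B) C) (6 * (T + 1)) * EE μ (2 ^ x) := by
      have hm0 : (0 : ℝ) ≤ max (max (2 * B) C) (6 * (T + 1)) := le_trans (by positivity) (le_max_right _ _)
      refine max_le (max_le ?_ ?_) ?_
      · have h10 : 2 * B ≤ max (max (2 * B) C) (6 * (T + 1)) := (le_max_left _ _).trans (le_max_left _ _)
        have h11 := mul_le_mul_of_nonneg_right h10 (show (0 : ℝ) ≤ EE μ (2 ^ x) by linarith)
        linarith
      · have h10 : C ≤ max (max (2 * B) C) (6 * ((T : ℝ) + 1)) := (le_max_right _ _).trans (le_max_left _ _)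
        nlinarith
      · have h10 : 6 * ((T : ℝ) + 1) ≤ max (max (2 * B) C) (6 * (T + 1)) := le_max_right _ _
        have h11 := mul_le_mul_of_nonneg_right h10 (show (0 : ℝ) ≤ EE μ (2 ^ x) by linarith)
        linarith
    have h12 : max (max (2 * B) C) (6 * ((T : ℝ) + 1)) * EE μ (2 ^ x) ≤ (2 : ℝ) ^ α * EE μ (2 ^ x) :=
      mul_le_mul_of_nonneg_right (by rw [hM] at hαM; linarith) (by linarith)
    linarith

/-- The walls (inputs `hwr`, `hwl` of `inner4`): the price at the time `t ≤ N` of a displacement beyond the edge of the scale `N`. -/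
theorem i52_wall (hμ : Pool.Agent.W_7d29a1_h47.EM μ) {A0 A1 : ℝ} (h0 : 0 < A0) (h01 : A0 < A1) {N : ℕ}
    (hu : vA μ A1 N ≤ 1 / 4) {R : ℝ} (hR : 1 ≤ R) {t : ℕ} (ht : 1 ≤ t) (htN : t ≤ N) {y : ℤ}
    (hy : (t : ℝ) / 2 + vA μ A0 N * t + R * (vA μ A1 N - vA μ A0 N) * N ≤ y) (hyt : y ≤ t) :
    R * (A1 - A0) * EE μ N ≤ e μ 0 t y := by
  have ht0 : (0 : ℝ) < t := by exact_mod_cast ht
  have hN0 : (0 : ℝ) < N := by exact_mod_cast (ht.trans htN)
  have htN' : (t : ℝ) ≤ N := by exact_mod_cast htN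
  have hv := vA_nonneg hμ h0.le N
  have huv := vA_mono hμ h0.le h01.le N
  have hE := one_le_EE (μ := μ) N
  have hy0 : (0 : ℝ) ≤ y := by
    have h1 : 0 ≤ vA μ A0 N * t := by positivity
    have h2 : 0 ≤ R * (vA μ A1 N - vA μ A0 N) * N := by
      have : 0 ≤ vA μ A1 N - vA μ A0 N := by linarith
      positivity
    linarith
  have hy0' : 0 ≤ y := by exact_mod_cast hy0
  have h1 := J_le_e hμ ht hy0' hyt
  have hyt' : (y : ℝ) ≤ t := by exact_mod_cast hyt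
  have h2 : ((y : ℝ) - t / 2) / t ≤ 1 / 2 := by
    rw [div_le_iff₀ ht0]
    linarith
  have hr : 1 ≤ R * N / t := by
    rw [le_div_iff₀ ht0]
    nlinarith
  have h3 := o52_far hμ h0 h01 hu hr (s := ((y : ℝ) - t / 2) / t) (by
    rw [le_div_iff₀ ht0, add_mul]
    have e1 : R * N / t * (vA μ A1 N - vA μ A0 N) * t = R * (vA μ A1 N - vA μ A0 N) * N := by
      field_simp
    rw [e1]
    linarith) h2
  have h4 : R * (A1 - A0) * EE μ N * N ≤ t * J μ (((y : ℝ) - t / 2) / t) * N := by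
    have h5 := mul_le_mul_of_nonneg_left h3 ht0.le
    have e2 : (t : ℝ) * ((A0 + R * N / t * (A1 - A0)) * EE μ N) = A0 * t * EE μ N + R * (A1 - A0) * EE μ N * N := by
      field_simp
    rw [e2] at h5
    have h6 : 0 ≤ A0 * t * EE μ N := by positivity
    linarith
  exact (le_of_mul_le_mul_right h4 hN0).trans h1

/-- The centre is cheap. -/
theorem i52_center (hμ : Pool.Agent.W_7d29a1_h47.EM μ) {t n : ℕ} (h : t ≤ n) : e μ 0 t (md t) ≤ EE μ n := by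
  have h1 := ep_le_EE (μ := μ) h
  have h2 := e_le_ep (μ := μ) hμ (n := t) (y := md t) (md_nonneg t) (md_le t)
  linarith

end Pool.Agent.W_7d29a1_G
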