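import Pool.Agent.W_7d29a1_G.Defs
import Pool.Agent.W_7d29a1_h4g.Grow

/-!
MP_7d29a1_pr, track G. Definitions for the unit (D1) (direction `0`) and the frame of proofs row 620: this is the unit of the
master text (rows 618, 619, 620). `An`, `vn`, `Es`, `Eb`, `vb` of `Defs.lean` (half cone) are a fallback and are not used.

Coordinates of `W_7d29a1_F`, tilt `0`; the centre of the displacements of time `n` is `y = n / 2`; slopes `v` are relative to it.
-/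

namespace Pool.Agent.W_7d29a1_G

open MeasureTheory ProbabilityTheory Filter Topology Pool.Agent.W_7d29a1_F Pool.Agent.W_7d29a1_h4g

noncomputable section

/-- The reference displacement of time `m`. -/
def md (m : ℕ) : ℤ := (m : ℤ) / 2

lemma md_nonneg (m : ℕ) : 0 ≤ md m := by unfold md; omega

lemma md_le (m : ℕ) : md m ≤ m := by unfold md; omega

/-- The unit (D1): `E(n) = 1 + max_{m ≤ n} E X⁺(0, (m, m / 2))`. -/
def EE (μ : Measure ℝ) (n : ℕ) : ℝ := EU μ 0 md n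

/-- The mean cost of direction `0`. -/
def e0 (μ : Measure ℝ) (n : ℕ) : ℝ := e μ 0 n (md n)

/-- The width of the cone at the scale `n` and the level `A`: `n J(v) = A E(n)`. -/
def vA (μ : Measure ℝ) (A : ℝ) (n : ℕ) : ℝ := sSup {v : ℝ | 0 ≤ v ∧ v ≤ 1 / 2 ∧ n * J μ v ≤ A * EE μ n}

/-- The functionals of the scale `n` (row 619, class `F_n`): logarithms of sums of path weights `G ≤ exp V_t`, `t ≤ n`. -/
def Fn (μ : Measure ℝ) (n : ℕ) (G : Env → ℝ) : Prop :=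
  ∃ t : ℕ, t ≤ n ∧ Poly (rows 0 t) G ∧ (∀ η, 0 < G η) ∧ ∀ η, Real.log (G η) ≤ V μ 0 η 0 t

/-- The octave `x` is soft at the level `α`: some functional of duration at most `2 ^ (x + α)` and mean at least `- 2 ^ α` units
fluctuates by `2 ^ (- α)` units with probability at least `2 ^ (- α)`. -/
def Sf (μ : Measure ℝ) (x : ℕ) (α : ℝ) : Prop :=
  ∃ (l : ℕ) (G : Env → ℝ), (l : ℝ) ≤ (2 : ℝ) ^ ((x : ℝ) + α) ∧ Poly (rows 0 l) G ∧ (∀ η, 0 < G η) ∧
    (∀ η, Real.log (G η) ≤ V μ 0 η 0 l) ∧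
    -((2 : ℝ) ^ α * EE μ (2 ^ x)) ≤ ∫ η, Real.log (G η) ∂(law μ) ∧
    (2 : ℝ) ^ (-α) ≤ (law μ).real {η | (2 : ℝ) ^ (-α) * EE μ (2 ^ x) ≤
      |Real.log (G η) - ∫ ξ, Real.log (G ξ) ∂(law μ)|}

/-- `g x = log₂ E(2 ^ x)`. -/
def gg (μ : Measure ℝ) (x : ℕ) : ℝ := Real.logb 2 (EE μ (2 ^ x))

/-- `f x = - log₂ v(2 ^ x)` at the level `A`. -/
def ff (μ : Measure ℝ) (A : ℝ) (x : ℕ) : ℝ := -Real.logb 2 (vA μ A (2 ^ x))

end

end Pool.Agent.W_7d29a1_G
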