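import Pool.Agent.W_7d29a1_G.D4Inner
import Pool.Agent.W_7d29a1_G.D4Slow
import Pool.Agent.W_7d29a1_G.InnerIn52
import Pool.Agent.W_7d29a1_G.FrDefs
import Pool.Agent.W_7d29a1_h18.HEU

/-!
MP_7d29a1_pr, track G, D4, section 4 of row 619: the inner edge in a stretch without soft scale. Part 2: the choice of the numbers
and the assembly. (helper88)
-/

set_option autoImplicit false

namespace Pool.Agent.W_7d29a1_G

open MeasureTheory ProbabilityTheory Filter Topology Pool.Agent.W_7d29a1_F Pool.Agent.W_7d29a1_h4g Pool.Agent.W_7d29a1_g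

variable {μ : Measure ℝ} [IsProbabilityMeasure μ]

theorem md_bd88 (n : ℕ) : ((n : ℝ) - 1) / 2 ≤ (md n : ℝ) ∧ (md n : ℝ) ≤ n / 2 := by
  have h1 : 2 * md n ≤ n := by
    unfold md
    omega
  have h2 : (n : ℤ) ≤ 2 * md n + 1 := by
    unfold md
    omega
  have h3 : (2 : ℝ) * (md n : ℝ) ≤ n := by exact_mod_cast h1
  have h4 : (n : ℝ) ≤ 2 * (md n : ℝ) + 1 := by exact_mod_cast h2
  constructor <;> linarith

/-- The wall at one time. -/
theorem wall_one88 (hμ : Pool.Agent.W_7d29a1_h47.EM μ) {N t : ℕ} {R Δ : ℝ} (hu : vA μ 2 N ≤ 1 / 4) (hR : 1 ≤ R)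
    (ht : 1 ≤ t) (htN : t ≤ N) {y : ℤ} (hΔ : vA μ 2 N - vA μ 1 N ≤ Δ)
    (hy : (t : ℝ) / 2 + vA μ 1 N * t + R * Δ * N ≤ y) (hyt : y ≤ t) :
    (R - 1) * EE μ N ≤ e μ 0 t y - e μ 0 t (md t) := by
  have hN0 : (0 : ℝ) ≤ N := Nat.cast_nonneg N
  have h1 := i52_wall hμ one_pos one_lt_two hu hR ht htN (y := y) (by
    have h2 : R * (vA μ 2 N - vA μ 1 N) * N ≤ R * Δ * N :=
      mul_le_mul_of_nonneg_right (mul_le_mul_of_nonneg_left hΔ (by linarith)) hN0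
    linarith) hyt
  have h3 := i52_center hμ htN
  linarith

/-- The choice of the windows, of the width of the cells and of the cheap displacement of the windows. -/
theorem num88 {a Δ δ c0 : ℝ} {L : ℕ} (ha : 0 < a) (ha1 : a ≤ 1 / 8) (hδ : 0 < δ) (hδc : 64 * δ ≤ c0) (hc01 : c0 ≤ 1)
    (hΔL : 4 / δ ≤ Δ * L) (hΔa : 4 * Δ ≤ a) :
    ∃ n' w X0 : ℕ, 8 ≤ n' ∧ (n' : ℝ) ≤ L / 4 ∧ Δ * L / 2 ≤ a * n' ∧ a * n' ≤ Δ * L ∧ δ * (a * n') ≤ w ∧
      (w : ℝ) ≤ 2 * δ * (a * n') ∧ w ≤ X0 ∧ 1 ≤ w ∧ (X0 : ℝ) ≤ c0 * a * n' ∧ c0 * a * n' / 2 ≤ X0 ∧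
      md n' + X0 + 1 ≤ n' := by
  have hδ1 : δ ≤ 1 / 64 := by linarith
  have h256 : 256 ≤ 4 / δ := by
    rw [le_div_iff₀ hδ]
    linarith
  have hL0 : (0 : ℝ) ≤ L := Nat.cast_nonneg L
  have hΔL1 : 4 ≤ δ * (Δ * L) := by
    have := (div_le_iff₀ hδ).1 hΔL
    linarith
  obtain ⟨t, ht⟩ : ∃ t : ℝ, t = Δ * L / a / 2 := ⟨_, rfl⟩
  have hat : a * t = Δ * L / 2 := by
    rw [ht]
    field_simp
  have ht128 : 128 ≤ t := by
    by_contra hcon
    rw [not_le] at hcon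
    nlinarith
  have hn1 : t ≤ (⌈t⌉₊ : ℝ) := Nat.le_ceil t
  have hn2 : (⌈t⌉₊ : ℝ) < t + 1 := Nat.ceil_lt_add_one (by linarith)
  obtain ⟨n', hn'⟩ : ∃ n' : ℕ, n' = ⌈t⌉₊ := ⟨_, rfl⟩
  rw [← hn'] at hn1 hn2
  have han1 : Δ * L / 2 ≤ a * n' := by
    rw [← hat]
    exact mul_le_mul_of_nonneg_left hn1 ha.le
  have han2 : a * n' ≤ Δ * L := by
    have h1 : a * n' ≤ a * (2 * t) := mul_le_mul_of_nonneg_left (by linarith) ha.le
    linarith
  have hs : 2 ≤ δ * (a * n') := by nlinarith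
  have hw1 : δ * (a * n') ≤ (⌈δ * (a * n')⌉₊ : ℝ) := Nat.le_ceil _
  have hw2 : (⌈δ * (a * n')⌉₊ : ℝ) < δ * (a * n') + 1 := Nat.ceil_lt_add_one (by linarith)
  have hanpos : 0 < a * n' := by
    by_contra hcon
    rw [not_lt] at hcon
    nlinarith
  have hc : 64 * (δ * (a * n')) ≤ c0 * a * n' := by
    have := mul_le_mul_of_nonneg_right hδc hanpos.le
    linarith
  have hX1 : (⌊c0 * a * n'⌋₊ : ℝ) ≤ c0 * a * n' := Nat.floor_le (by linarith)
  have hX2 : c0 * a * n' < (⌊c0 * a * n'⌋₊ : ℝ) + 1 := Nat.lt_floor_add_one _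
  have hn0 : (0 : ℝ) ≤ n' := Nat.cast_nonneg n'
  refine ⟨n', ⌈δ * (a * n')⌉₊, ⌊c0 * a * n'⌋₊, ?_, ?_, han1, han2, hw1, by linarith, ?_, ?_, hX1, by linarith, ?_⟩
  · have : (8 : ℝ) ≤ n' := by linarith
    exact_mod_cast this
  · -- a n' ≤ Δ L ≤ a L / 4
    have h1 : a * n' ≤ a * (L / 4) := by
      have := mul_le_mul_of_nonneg_right hΔa hL0
      linarith
    exact le_of_mul_le_mul_left h1 ha
  · have : ((⌈δ * (a * n')⌉₊ : ℕ) : ℝ) ≤ (⌊c0 * a * n'⌋₊ : ℕ) := by linarith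
    exact_mod_cast this
  · have : (1 : ℝ) ≤ (⌈δ * (a * n')⌉₊ : ℕ) := by linarith
    exact_mod_cast this
  · have h1 := (md_bd88 n').2
    have h2 : c0 * a * n' ≤ n' / 8 := by
      have : c0 * a ≤ 1 / 8 := by nlinarith
      have := mul_le_mul_of_nonneg_right this hn0
      linarith
    have h3 : ((md n' + (⌊c0 * a * n'⌋₊ : ℕ) + 1 : ℤ) : ℝ) ≤ ((n' : ℤ) : ℝ) := by
      push_cast
      linarith
    exact_mod_cast h3

/-- The walls at the start of a window. -/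
theorem walls88 (hμ : Pool.Agent.W_7d29a1_h47.EM μ) {N T w J : ℕ} {R Ci Δ Bd v : ℝ} {lo ze : ℤ} (hv : v = vA μ 1 N)
    (hu : vA μ 2 N ≤ 1 / 4) (hR : 1 ≤ R) (hCi : 0 ≤ Ci) (hT1 : 1 ≤ T) (hTN : T + 1 ≤ N) (hv8 : v ≤ 1 / 8)
    (hΔ : vA μ 2 N - v ≤ Δ) (hRΔ : R * Δ * N + 3 ≤ 3 / 8 * ((N : ℝ) - T)) (hΔN : 1 ≤ Δ * N)
    (hlo : lo = ⌊(T : ℝ) / 2 + v * T - (R + Ci) * Δ * N⌋ - 1) (hze : ze = ⌊(N : ℝ) / 2 + (v - Ci * Δ) * N⌋)
    (hJw1 : (2 * R + Ci + 1) * Δ * N ≤ J * w) (hJw2 : (J : ℝ) * w ≤ T / 4) (hB : Bd < (R - 1) * EE μ N) :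
    (∃ c : ℤ, 0 ≤ c ∧ c ≤ (T : ℕ) ∧ c ≤ lo + J * w + 1 ∧ Bd < e μ 0 T (lo + J * w + 1) - e μ 0 T c) ∧
    (∃ c : ℤ, 0 ≤ c ∧ c ≤ (N - T : ℕ) ∧ lo - 1 + c ≤ ze ∧ Bd < e μ 0 (N - T) (ze - (lo - 1)) - e μ 0 (N - T) c) := by
  have hT0 : (1 : ℝ) ≤ T := by exact_mod_cast hT1
  have hTN' : (T : ℝ) + 1 ≤ N := by exact_mod_cast hTN
  have hv0 : 0 ≤ v := by rw [hv]; exact vA_nonneg hμ (by norm_num) N
  have hRΔ0 : 0 ≤ R * (Δ * N) := mul_nonneg (by linarith) (by linarith)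
  have hCΔ0 : 0 ≤ Ci * (Δ * N) := mul_nonneg hCi (by linarith)
  have hvT : 0 ≤ v * T := mul_nonneg hv0 (by linarith)
  have hvT8 : v * T ≤ T / 8 := by nlinarith
  have f1 := Int.floor_le ((T : ℝ) / 2 + v * T - (R + Ci) * Δ * N)
  have f2 := Int.lt_floor_add_one ((T : ℝ) / 2 + v * T - (R + Ci) * Δ * N)
  have hlo' : (lo : ℝ) = (⌊(T : ℝ) / 2 + v * T - (R + Ci) * Δ * N⌋ : ℝ) - 1 := by
    rw [hlo]
    push_cast
    ring
  have g1 := Int.floor_le ((N : ℝ) / 2 + (v - Ci * Δ) * N)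
  have g2 := Int.lt_floor_add_one ((N : ℝ) / 2 + (v - Ci * Δ) * N)
  rw [← hze] at g1 g2
  have hnn : (R + Ci) * Δ * N = R * (Δ * N) + Ci * (Δ * N) := by ring
  have hnn2 : (2 * R + Ci + 1) * Δ * N = 2 * (R * (Δ * N)) + Ci * (Δ * N) + Δ * N := by ring
  have hnn3 : R * Δ * N = R * (Δ * N) := by ring
  have hnn4 : (v - Ci * Δ) * N = v * N - Ci * (Δ * N) := by ring
  rw [hnn] at f1 f2 hlo'
  rw [hnn2] at hJw1
  rw [hnn3] at hRΔ
  rw [hnn4] at g1 g2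
  constructor
  · have q1 : ((lo + J * w + 1 : ℤ) : ℝ) = lo + J * w + 1 := by push_cast; ring
    have q2 : (T : ℝ) / 2 + v * T + R * (Δ * N) ≤ ((lo + J * w + 1 : ℤ) : ℝ) := by
      rw [q1]
      linarith
    have q3 : ((lo + J * w + 1 : ℤ) : ℝ) ≤ T := by
      rw [q1]
      linarith
    have q3' : (lo + J * w + 1 : ℤ) ≤ T := by exact_mod_cast q3
    refine ⟨md T, md_nonneg T, md_le T, ?_, ?_⟩
    · have h1 := (md_bd88 T).2
      have h2 : ((md T : ℤ) : ℝ) ≤ ((lo + J * w + 1 : ℤ) : ℝ) := by linarith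
      exact_mod_cast h2
    · refine hB.trans_le (wall_one88 hμ hu hR hT1 (by omega) (Δ := Δ) (by rw [← hv]; exact hΔ) ?_ q3')
      rw [← hv, hnn3]
      exact q2
  · have hS : ((N - T : ℕ) : ℝ) = N - T := by
      rw [Nat.cast_sub (by omega)]
    have q1 : ((ze - (lo - 1) : ℤ) : ℝ) = ze - lo + 1 := by push_cast; ring
    have hvS : v * ((N : ℝ) - T) = v * N - v * T := by ring
    have hvS0 : 0 ≤ v * ((N : ℝ) - T) := mul_nonneg hv0 (by linarith)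
    have hvS8 : v * ((N : ℝ) - T) ≤ ((N : ℝ) - T) / 8 := by nlinarith
    have q2 : ((N - T : ℕ) : ℝ) / 2 + v * ((N - T : ℕ) : ℝ) + R * (Δ * N) ≤ ((ze - (lo - 1) : ℤ) : ℝ) := by
      rw [q1, hS, hvS]
      linarith
    have q3 : ((ze - (lo - 1) : ℤ) : ℝ) ≤ ((N - T : ℕ) : ℝ) := by
      rw [q1, hS]
      linarith
    have q3' : (ze - (lo - 1) : ℤ) ≤ (N - T : ℕ) := by exact_mod_cast q3
    refine ⟨md (N - T), md_nonneg _, md_le _, ?_, ?_⟩
    · have h1 := (md_bd88 (N - T)).2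
      have h2 : ((lo - 1 + md (N - T) : ℤ) : ℝ) ≤ (ze : ℝ) := by
        rw [hS] at q2
        push_cast at q1 q2 h1 ⊢
        rw [hS] at h1
        linarith
      exact_mod_cast h2
    · refine hB.trans_le (wall_one88 hμ hu hR (by omega) (Nat.sub_le N T) (Δ := Δ) (by rw [← hv]; exact hΔ) ?_ q3')
      rw [← hv, hnn3]
      exact q2


/-- `2 ^ (- α)` is small when `α` is large. -/
theorem rpow_small88 {κ α : ℝ} (hκ : 0 < κ) (h : Real.logb 2 (1 / κ) ≤ α) : (2 : ℝ) ^ (-α) ≤ κ := by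
  have h2 : 1 / κ ≤ (2 : ℝ) ^ α := (Real.logb_le_iff_le_rpow one_lt_two (by positivity)).1 h
  rw [Real.rpow_neg two_pos.le]
  have h3 := inv_anti₀ (by positivity) h2
  rwa [one_div, inv_inv] at h3

/-- THE INNER EDGE at one scale which is not soft. -/
theorem core88 (hEM : Pool.Agent.W_7d29a1_h47.EM μ) (hnd : Pool.Agent.W_7d29a1_h47.Nondeg μ) {Ci c1 c0 C0 cg : ℝ}
    {n0 n1 n2 : ℕ} (hCi : 0 ≤ Ci) (hc1 : 1 ≤ c1)
    (hEdge : ∀ n : ℕ, n0 ≤ n → ∀ y : ℤ,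
      |(y : ℝ) - n / 2| ≤ (vA μ 1 n - Ci * (vA μ 2 n - vA μ 1 n)) * n → e μ 0 n y ≤ c1 * EE μ n)
    (hc0 : 0 < c0) (hc01 : c0 ≤ 1) (hC0 : 1 ≤ C0)
    (hIn : ∀ n : ℕ, n1 ≤ n → ∀ (m : ℕ) (y : ℤ), m ≤ n → 0 ≤ y → y ≤ m →
      |(y : ℝ) - m / 2| ≤ c0 * vA μ 1 n * m + 1 → ep μ m y ≤ C0 * EE μ n)
    (hcg : 0 < cg) (hgap : ∀ n : ℕ, n2 ≤ n → cg * EE μ n ≤ (vA μ 2 n - vA μ 1 n) * n)
    {ε : ℝ} (hε : 0 < ε) (hε1 : ε ≤ 1) {m : ℕ} (hm : 4 * (c1 + 1) ≤ ε * 2 ^ m) :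
    ∃ (α Λ η : ℝ) (n3 : ℕ), 0 < η ∧ ∀ (z L : ℕ) (a b : ℝ), ¬ Sf μ z α → n3 ≤ L → 2 ^ z ≤ 2 ^ (m + 1) * L →
      2 ^ m * L ≤ 2 ^ z → (∀ n : ℕ, L ≤ n → n ≤ 2 ^ z → Λ ≤ EE μ n) → 0 < a →
      (∀ n : ℕ, L ≤ n → n ≤ 2 ^ z → a ≤ vA μ 1 n ∧ vA μ 2 n ≤ b) → b ≤ η →
      ∀ d : ℤ, |(d : ℝ) - L / 2| ≤ (a - (Ci + 4) * (b - a)) * L → e μ 0 L d ≤ Em μ L + ε * EE μ (2 ^ z) := by
  -- the numbers
  obtain ⟨M, hM⟩ : ∃ M : ℕ, M + 1 = 2 ^ m := ⟨2 ^ m - 1, Nat.sub_add_cancel Nat.one_le_two_pow⟩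
  have hK : (M : ℝ) + 1 = 2 ^ m := by exact_mod_cast hM
  have hmK : 4 * (c1 + 1) ≤ ε * ((M : ℝ) + 1) := by rw [hK]; exact hm
  have hM0 : (0 : ℝ) ≤ M := Nat.cast_nonneg M
  have hM7 : (7 : ℝ) ≤ M := by
    have h1 : ε * ((M : ℝ) + 1) ≤ 1 * ((M : ℝ) + 1) := mul_le_mul_of_nonneg_right hε1 (by linarith only [hM0])
    linarith only [hmK, h1, hc1]
  have hM1 : 1 ≤ M := by
    have : (1 : ℝ) ≤ M := by linarith
    exact_mod_cast this
  obtain ⟨T₀, Cw, hI4⟩ := Geo.inner4 (μ := μ) hEM hnd (pw := 1 / (8 * (M : ℝ))) (div_pos one_pos (by linarith))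
  obtain ⟨R, hR⟩ : ∃ R : ℝ, R = 6 * (c1 + 1) + 6 * 2 ^ T₀ + 4 := ⟨_, rfl⟩
  have hT1 : (1 : ℝ) ≤ 2 ^ T₀ := one_le_pow₀ (by norm_num)
  have hR1 : 22 ≤ R := by rw [hR]; linarith
  obtain ⟨δ, hδ'⟩ : ∃ δ : ℝ, δ = c0 * ε / (64 * C0) := ⟨_, rfl⟩
  have hδ : 0 < δ := by rw [hδ']; positivity
  have hδC : 64 * (δ * C0) = c0 * ε := by
    rw [hδ']
    field_simp
  have hδc : 64 * δ ≤ c0 := by
    have h1 : δ * 1 ≤ δ * C0 := mul_le_mul_of_nonneg_left hC0 hδ.le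
    have h2 : c0 * ε ≤ c0 * 1 := mul_le_mul_of_nonneg_left hε1 hc0.le
    linarith
  have hδ1 : δ ≤ 1 / 64 := by linarith
  obtain ⟨J, hJ⟩ : ∃ J : ℕ, J = ⌈2 * ((M : ℝ) + 1) * (2 * R + Ci + 1) / δ⌉₊ + 1 := ⟨_, rfl⟩
  have hJ1 : 1 ≤ J := by omega
  have hJr1 : (1 : ℝ) ≤ J := by exact_mod_cast hJ1
  have hJδ : 2 * ((M : ℝ) + 1) * (2 * R + Ci + 1) ≤ J * δ := by
    have h1 : 2 * ((M : ℝ) + 1) * (2 * R + Ci + 1) / δ ≤ J := by
      rw [hJ]
      push_cast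
      have := Nat.le_ceil (2 * ((M : ℝ) + 1) * (2 * R + Ci + 1) / δ)
      linarith
    rwa [div_le_iff₀ hδ] at h1
  obtain ⟨p, hp'⟩ : ∃ p : ℝ, p = 1 / (24 * ((M : ℝ) + 1) * (J : ℝ) ^ 2) := ⟨_, rfl⟩
  have hp : 0 < p := by rw [hp']; positivity
  have hpJ : 24 * (((M : ℝ) + 1) * (J : ℝ) ^ 2 * p) = 1 := by
    rw [hp']
    field_simp
  have hp4 : p ≤ 1 / 4 := by
    have h1 : (1 : ℝ) ≤ ((M : ℝ) + 1) * (J : ℝ) ^ 2 := by nlinarith [one_le_pow₀ (n := 2) hJr1]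
    have h2 := mul_le_mul_of_nonneg_right h1 hp.le
    linarith
  obtain ⟨B, hB⟩ : ∃ B : ℝ, B = c1 + 5 * ((M : ℝ) + 1) + 3 := ⟨_, rfl⟩
  obtain ⟨α₀, hα₀, hpiece⟩ := i52_piece (μ := μ) hEM hnd (p := p) (κ := ε / 16) (B := B) hp (by positivity)
    (by rw [hB]; linarith)
  obtain ⟨α, hα⟩ : ∃ α : ℝ, α = max α₀ (max (Real.logb 2 (c1 + 2)) (max (Real.logb 2 (1 / (ε / 16)))
    (Real.logb 2 (1 / p)))) := ⟨_, rfl⟩
  have hαα₀ : α₀ ≤ α := by rw [hα]; exact le_max_left _ _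
  have hαc : c1 + 2 ≤ (2 : ℝ) ^ α := by
    refine (Real.logb_le_iff_le_rpow one_lt_two (by linarith)).1 ?_
    rw [hα]
    exact (le_max_left _ _).trans (le_max_right _ _)
  have hακ : (2 : ℝ) ^ (-α) ≤ ε / 16 := by
    refine rpow_small88 (by positivity) ?_
    rw [hα]
    exact ((le_max_left _ _).trans (le_max_right _ _)).trans (le_max_right _ _)
  have hαp : (2 : ℝ) ^ (-α) ≤ p := by
    refine rpow_small88 hp ?_
    rw [hα]
    exact ((le_max_right _ _).trans (le_max_right _ _)).trans (le_max_right _ _)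
  have hα0 : 0 ≤ α := hα₀.trans hαα₀
  obtain ⟨Λ, hΛ'⟩ : ∃ Λ : ℝ, Λ = max (2 * Real.log (4 * M)) (max Cw (max (4 / ε * (Real.log 2 + M * Real.log (2 * J)))
    (4 / (δ * cg)))) := ⟨_, rfl⟩
  have hΛ1 : 2 * Real.log (4 * M) ≤ Λ := by rw [hΛ']; exact le_max_left _ _
  have hΛ2 : Cw ≤ Λ := by rw [hΛ']; exact (le_max_left _ _).trans (le_max_right _ _)
  have hΛ3 : 4 / ε * (Real.log 2 + M * Real.log (2 * J)) ≤ Λ := by
    rw [hΛ']
    exact ((le_max_left _ _).trans (le_max_right _ _)).trans (le_max_right _ _)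
  have hΛ4 : 4 / (δ * cg) ≤ Λ := by
    rw [hΛ']
    exact ((le_max_right _ _).trans (le_max_right _ _)).trans (le_max_right _ _)
  obtain ⟨η, hη'⟩ : ∃ η : ℝ, η = 1 / (8 * (R * ((M : ℝ) + 1) + 2 * J)) := ⟨_, rfl⟩
  have hηd : 0 < 8 * (R * ((M : ℝ) + 1) + 2 * J) := by positivity
  have hη : 0 < η := by rw [hη']; exact div_pos one_pos hηd
  have hηe : 8 * (η * (R * ((M : ℝ) + 1))) + 16 * (η * J) = 1 := by
    have : η * (8 * (R * ((M : ℝ) + 1) + 2 * J)) = 1 := by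
      rw [hη']
      exact div_mul_cancel₀ 1 hηd.ne'
    linarith
  have hηR : 8 * (η * (R * ((M : ℝ) + 1))) ≤ 1 := by
    have : 0 ≤ η * J := by positivity
    linarith
  have hηJ : 16 * (η * J) ≤ 1 := by
    have : 0 ≤ η * (R * ((M : ℝ) + 1)) := by positivity
    linarith
  have hη16 : η ≤ 1 / 16 := by
    have : η * 1 ≤ η * J := mul_le_mul_of_nonneg_left hJr1 hη.le
    linarith
  refine ⟨α, Λ, η, max (max n0 n1) (max n2 48), hη, ?_⟩
  intro z L a b hS hn3 hz1 hz2 hΛ ha hab hbη d hd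
  have hLn0 : n0 ≤ L := ((le_max_left _ _).trans (le_max_left _ _)).trans hn3
  have hLn1 : n1 ≤ L := ((le_max_right _ _).trans (le_max_left _ _)).trans hn3
  have hLn2 : n2 ≤ L := ((le_max_left _ _).trans (le_max_right _ _)).trans hn3
  have hL48 : 48 ≤ L := ((le_max_right _ _).trans (le_max_right _ _)).trans hn3
  have hLr : (48 : ℝ) ≤ L := by exact_mod_cast hL48
  have hLz : L ≤ 2 ^ z := le_trans (Nat.le_mul_of_pos_left L (by positivity)) hz2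
  obtain ⟨Δ, hΔ⟩ : ∃ Δ : ℝ, Δ = b - a := ⟨_, rfl⟩
  rw [← hΔ] at hd
  have habL := hab L le_rfl hLz
  have hΔL : 4 / δ ≤ Δ * L := by
    have h1 := hgap L hLn2
    have h2 := hΛ L le_rfl hLz
    have h3 : (vA μ 2 L - vA μ 1 L) * L ≤ Δ * L :=
      mul_le_mul_of_nonneg_right (by rw [hΔ]; linarith only [habL.1, habL.2]) (by linarith only [hLr])
    have h4 : 4 / (δ * cg) ≤ EE μ L := hΛ4.trans h2
    rw [div_le_iff₀ (by positivity)] at h4
    rw [div_le_iff₀ hδ]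
    have h5 := mul_le_mul_of_nonneg_left (h1.trans h3) hδ.le
    linarith only [h4, h5]
  have h4δ : 256 ≤ 4 / δ := by
    rw [le_div_iff₀ hδ]
    linarith only [hδ1]
  have hΔL256 : 256 ≤ Δ * L := h4δ.trans hΔL
  have hC4 : (Ci + 4) * Δ ≤ a := by
    have h1 : 0 ≤ (a - (Ci + 4) * Δ) * L := (abs_nonneg _).trans hd
    have h2 : 0 ≤ a - (Ci + 4) * Δ := nonneg_of_mul_nonneg_left h1 (by linarith only [hLr])
    linarith only [h2]
  have hΔ0 : 0 < Δ := by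
    by_contra hcon
    rw [not_lt] at hcon
    have := mul_nonpos_of_nonpos_of_nonneg hcon (show (0 : ℝ) ≤ L by linarith only [hLr])
    linarith only [this, hΔL256]
  have hCiΔ : 0 ≤ Ci * Δ := mul_nonneg hCi hΔ0.le
  have hΔa : 4 * Δ ≤ a := by linarith only [hC4, hCiΔ]
  have haη : a ≤ η := by linarith only [hΔ, hΔ0, hbη]
  have hΔη : Δ ≤ η := by linarith only [hΔ, ha, hbη]
  obtain ⟨n', w, X0, hn8, hn4, han1, han2, hw1, hw2, hwX, hw1', hX1, hX2, hmdX⟩ :=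
    num88 (L := L) ha (by linarith only [haη, hη16]) hδ hδc hc01 hΔL hΔa
  have hn'L : n' ≤ L := by
    have : (n' : ℝ) ≤ L := by linarith only [hn4, hLr]
    exact_mod_cast this
  obtain ⟨L', hL'⟩ : ∃ L' : ℕ, L = L' + n' := ⟨L - n', by omega⟩
  have hLr2 : (L : ℝ) = L' + n' := by exact_mod_cast hL'
  obtain ⟨N, hN⟩ : ∃ N : ℕ, N = (M + 1) * L' + n' := ⟨_, rfl⟩
  have hNr : (N : ℝ) = ((M : ℝ) + 1) * L' + n' := by exact_mod_cast hN
  have hn0r : (0 : ℝ) ≤ n' := Nat.cast_nonneg n'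
  have hL'r : 3 / 4 * (L : ℝ) ≤ L' := by linarith only [hLr2, hn4]
  have hL'0 : (0 : ℝ) ≤ L' := Nat.cast_nonneg L'
  have hL'1 : 1 ≤ L' := by
    have : (1 : ℝ) ≤ L' := by linarith only [hL'r, hLr]
    exact_mod_cast this
  have hn'L' : n' ≤ L' := by
    have : (n' : ℝ) ≤ L' := by linarith only [hn4, hL'r, hLr]
    exact_mod_cast this
  have hNKL : (N : ℝ) = ((M : ℝ) + 1) * L - M * n' := by rw [hNr, hLr2]; ring
  have hMn : 0 ≤ (M : ℝ) * n' := mul_nonneg hM0 hn0r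
  have hLN : L ≤ N := by
    rw [hN, hL']
    have : 1 * L' ≤ (M + 1) * L' := Nat.mul_le_mul_right L' (by omega)
    omega
  have hNz : N ≤ 2 ^ z := by
    refine le_trans ?_ hz2
    rw [← hM, hN, hL', Nat.mul_add]
    have : 1 * n' ≤ (M + 1) * n' := Nat.mul_le_mul_right n' (by omega)
    omega
  have hLNr : (L : ℝ) ≤ N := by exact_mod_cast hLN
  have hEN := hΛ N hLN hNz
  have hEN1 := one_le_EE (μ := μ) N
  obtain ⟨hab1, hab2⟩ := hab N hLN hNz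
  have hE3 : EE μ (2 ^ z) ≤ 3 * EE μ N := by
    have h1 : 2 ^ z ≤ 3 * N := by
      have h2 : ((2 ^ z : ℕ) : ℝ) ≤ ((2 ^ (m + 1) * L : ℕ) : ℝ) := by exact_mod_cast hz1
      have h3 : ((2 ^ (m + 1) * L : ℕ) : ℝ) = 2 * (((M : ℝ) + 1) * L) := by
        push_cast
        rw [hK, pow_succ]
        ring
      have h4 : 3 / 4 * (((M : ℝ) + 1) * L) ≤ ((M : ℝ) + 1) * L' := by
        have := mul_le_mul_of_nonneg_left hL'r (show (0 : ℝ) ≤ (M : ℝ) + 1 by linarith only [hM0])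
        linarith only [this]
      have h5 : 0 ≤ ((M : ℝ) + 1) * L := by positivity
      have h6 : ((2 ^ z : ℕ) : ℝ) ≤ ((3 * N : ℕ) : ℝ) := by
        push_cast at h2 h3 ⊢
        linarith only [h2, h3, h4, h5, hNr, hn0r]
      exact_mod_cast h6
    have h2 := EE_mul (μ := μ) hEM 3 N (by norm_num)
    push_cast at h2
    exact (EE_mono h1).trans h2
  obtain ⟨E, hE⟩ : ∃ E : ℝ, E = EE μ (2 ^ z) := ⟨_, rfl⟩
  have hENE : EE μ N ≤ E := by rw [hE]; exact EE_mono hNz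
  have hE1 : 1 ≤ E := hEN1.trans hENE
  have hEmE : Em μ L ≤ E := by
    have h1 := Em_le_EE17 (μ := μ) hEM L
    have h2 : EE μ L ≤ E := by rw [hE]; exact EE_mono hLz
    linarith only [h1, h2]
  have hEm0 : 0 ≤ Em μ L := Em_nonneg (μ := μ) hEM L
  obtain ⟨v, hv⟩ : ∃ v : ℝ, v = vA μ 1 N := ⟨_, rfl⟩
  rw [← hv] at hab1
  have hv0 : 0 < v := by linarith only [ha, hab1]
  have hvv : vA μ 2 N - v ≤ Δ := by rw [hΔ]; linarith only [hab1, hab2]
  have hv12 : v ≤ vA μ 2 N := by rw [hv]; exact vA_mono hEM (by norm_num) (by norm_num) N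
  have hvη : v ≤ η := by linarith only [hv12, hab2, hbη]
  -- the end of the path and the average displacement
  obtain ⟨ze, hze⟩ : ∃ ze : ℤ, ze = ⌊(N : ℝ) / 2 + (v - Ci * Δ) * N⌋ := ⟨_, rfl⟩
  have g1 := Int.floor_le ((N : ℝ) / 2 + (v - Ci * Δ) * N)
  have g2 := Int.lt_floor_add_one ((N : ℝ) / 2 + (v - Ci * Δ) * N)
  rw [← hze] at g1 g2
  have hN0 : (0 : ℝ) ≤ N := by linarith only [hLNr, hLr]
  have hΔN : Δ * L ≤ Δ * N := mul_le_mul_of_nonneg_left hLNr hΔ0.le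
  have hvC : 4 * Δ ≤ v - Ci * Δ := by linarith only [hC4, hab1]
  have hvCN : 4 * (Δ * N) ≤ (v - Ci * Δ) * N := by
    have := mul_le_mul_of_nonneg_right hvC hN0
    linarith only [this]
  have hvCN2 : (v - Ci * Δ) * N ≤ 1 / 16 * N := mul_le_mul_of_nonneg_right (by linarith only [hvη, hη16, hCiΔ]) hN0
  have hze0 : 0 ≤ ze := by
    have : (0 : ℝ) ≤ ze := by linarith only [g2, hvCN, hΔN, hΔL256, hN0]
    exact_mod_cast this
  have hzeN : ze ≤ N := by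
    have : (ze : ℝ) ≤ N := by linarith only [g1, hvCN2, hN0]
    exact_mod_cast this
  have hpathc : e μ 0 N ze ≤ c1 * EE μ N := by
    refine hEdge N (hLn0.trans hLN) ze ?_
    rw [← hv, abs_le]
    have h1 : (v - Ci * Δ) * N ≤ (v - Ci * (vA μ 2 N - v)) * N := by
      refine mul_le_mul_of_nonneg_right ?_ hN0
      have := mul_le_mul_of_nonneg_left hvv hCi
      linarith only [this]
    constructor <;> linarith only [h1, g1, g2, hvCN, hΔN, hΔL256]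
  obtain ⟨x, hx⟩ : ∃ x : ℤ, x = ⌊(L : ℝ) / 2 + (a - (Ci + 1) * Δ) * L⌋ - 1 := ⟨_, rfl⟩
  have x1 := Int.floor_le ((L : ℝ) / 2 + (a - (Ci + 1) * Δ) * L)
  have x2 := Int.lt_floor_add_one ((L : ℝ) / 2 + (a - (Ci + 1) * Δ) * L)
  have hxr : (x : ℝ) = (⌊(L : ℝ) / 2 + (a - (Ci + 1) * Δ) * L⌋ : ℝ) - 1 := by
    rw [hx]
    push_cast
    ring
  have hxlow : (L : ℝ) / 2 + (a - (Ci + 4) * Δ) * L ≤ x := by
    rw [hxr]
    have : (a - (Ci + 1) * Δ) * L = (a - (Ci + 4) * Δ) * L + 3 * (Δ * L) := by ring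
    linarith only [this, x2, hΔL256]
  have hxup : (x : ℝ) ≤ L / 2 + (a - (Ci + 1) * Δ) * L - 1 := by
    rw [hxr]
    linarith only [x1]
  have hcone : 0 ≤ (a - (Ci + 4) * Δ) * L := (abs_nonneg _).trans hd
  have hx2L : (L : ℤ) ≤ 2 * x := by
    have : (L : ℝ) ≤ 2 * x := by linarith only [hxlow, hcone]
    exact_mod_cast this
  have hxL : x + 1 ≤ L := by
    have h1 : (a - (Ci + 1) * Δ) * L ≤ 1 / 16 * L :=
      mul_le_mul_of_nonneg_right (by linarith only [haη, hη16, hCiΔ, hΔ0]) (by linarith only [hLr])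
    have : (x : ℝ) + 1 ≤ L := by linarith only [hxup, h1, hLr]
    exact_mod_cast this
  have hx0 : 0 ≤ x := by omega
  have hxx : e μ 0 L x ≤ e μ 0 L (x + 1) := by
    refine e_le_of_center hEM (by omega) hxL ?_
    rw [abs_of_nonneg (by omega), abs_of_nonneg (by omega)]
    omega
  have hdx : e μ 0 L d ≤ e μ 0 L x := by
    refine e_le_of_center hEM hx0 (by omega) ?_
    have h1 : |2 * (d : ℝ) - L| = 2 * |(d : ℝ) - L / 2| := by
      rw [show 2 * (d : ℝ) - L = 2 * ((d : ℝ) - L / 2) by ring, abs_mul, abs_of_pos two_pos]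
    have h2 : |2 * (d : ℝ) - L| ≤ |2 * (x : ℝ) - L| := by
      rw [h1]
      refine le_trans ?_ (le_abs_self _)
      linarith only [hd, hxlow]
    exact_mod_cast h2
  have hxz : ((M : ℤ) + 1) * x ≤ ze + M * md n' := by
    have h1 := (md_bd88 n').1
    have h2 : ((M : ℝ) + 1) * x ≤ ((M : ℝ) + 1) * (L / 2 + (a - (Ci + 1) * Δ) * L - 1) :=
      mul_le_mul_of_nonneg_left hxup (by linarith only [hM0])
    have h3 : (M : ℝ) * (((n' : ℝ) - 1) / 2) ≤ M * (md n' : ℝ) := mul_le_mul_of_nonneg_left h1 hM0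
    have h4 : (a - Ci * Δ) * N ≤ (v - Ci * Δ) * N := mul_le_mul_of_nonneg_right (by linarith only [hab1]) hN0
    have h5 : (a - Ci * Δ) * (M * n') ≤ a * (M * n') := mul_le_mul_of_nonneg_right (by linarith only [hCiΔ]) hMn
    have h6 : M * (a * n') ≤ M * (Δ * L) := mul_le_mul_of_nonneg_left han2 hM0
    have h7 : (a - Ci * Δ) * N = ((M : ℝ) + 1) * ((a - Ci * Δ) * L) - (a - Ci * Δ) * (M * n') := by
      rw [hNKL]
      ring
    have h8 : ((M : ℝ) + 1) * (L / 2 + (a - (Ci + 1) * Δ) * L - 1) = ((M : ℝ) + 1) * L / 2 +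
      ((M : ℝ) + 1) * ((a - Ci * Δ) * L) - M * (Δ * L) - Δ * L - (M + 1) := by ring
    have h9 : a * (M * n') = M * (a * n') := by ring
    have h10 : ((((M : ℤ) + 1) * x : ℤ) : ℝ) ≤ ((ze + M * md n' : ℤ) : ℝ) := by
      push_cast
      have h11 : (N : ℝ) / 2 = ((M : ℝ) + 1) * L / 2 - M * n' / 2 := by
        rw [hNKL]
        ring
      have h12 : (M : ℝ) * (((n' : ℝ) - 1) / 2) = M * n' / 2 - M / 2 := by ring
      rw [h12] at h3
      rw [h11] at g2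
      linarith only [h2, h3, h4, h5, h6, h7, h8, h9, g2, hΔL256, hM0]
    exact_mod_cast h10
  -- the references
  have hX01 : 1 ≤ X0 := hw1'.trans hwX
  have hep : e μ 0 n' (md n' + X0) ≤ C0 * EE μ N := by
    have hmd := md_bd88 n'
    have h0 : 0 ≤ md n' + (X0 : ℤ) := by
      have := md_nonneg n'
      omega
    refine (e_le_ep (μ := μ) hEM h0 (by omega)).trans (hIn N (hLn1.trans hLN) n' _ (hn'L.trans hLN) h0 (by omega) ?_)
    rw [← hv]
    have h1 : c0 * a * n' ≤ c0 * v * n' :=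
      mul_le_mul_of_nonneg_right (mul_le_mul_of_nonneg_left hab1 hc0.le) hn0r
    have h2 : (0 : ℝ) ≤ X0 := Nat.cast_nonneg X0
    have h3 : 0 ≤ c0 * v * n' := by positivity
    push_cast
    rw [abs_le]
    constructor <;> linarith only [hmd.1, hmd.2, h1, h2, h3, hX1]
  have e1 : ((n' / 2 : ℕ) : ℤ) = md n' := by
    unfold md
    push_cast
    rfl
  have hrefmd : e μ 0 n' (md n') ≤ Em μ L := by
    have := Pool.Agent.W_7d29a1_g.e0_le_Em (μ := μ) hn'L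
    unfold Pool.Agent.W_7d29a1_g.e0 at this
    rw [e1] at this
    exact this
  have hrefw : e μ 0 n' (md n' + w) ≤ Em μ L + ε / 16 * E := by
    have h1 := ref_cost88 (μ := μ) hEM hwX hX01 hmdX hep
    have h2 : e0 μ n' ≤ Em μ L := hrefmd
    have hX0r : (0 : ℝ) < X0 := by exact_mod_cast hX01
    have h3 : (w : ℝ) / X0 * C0 ≤ ε / 16 := by
      rw [div_mul_eq_mul_div, div_le_iff₀ hX0r]
      have h4 : (w : ℝ) * C0 ≤ 2 * δ * (a * n') * C0 := mul_le_mul_of_nonneg_right hw2 (by linarith only [hC0])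
      have h5 : 2 * δ * (a * n') * C0 = 2 * (δ * C0) * (a * n') := by ring
      have h6 : 64 * (2 * (δ * C0) * (a * n')) = 2 * (c0 * ε) * (a * n') := by rw [← hδC]; ring
      have h7 : ε / 16 * (c0 * a * n' / 2) ≤ ε / 16 * X0 := mul_le_mul_of_nonneg_left hX2 (by positivity)
      have h8 : ε / 16 * (c0 * a * n' / 2) = 2 * (c0 * ε) * (a * n') / 64 := by ring
      linarith only [h4, h5, h6, h7, h8]
    have h4 : (w : ℝ) / X0 * (C0 * EE μ N) ≤ ε / 16 * E := by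
      have h5 : (w : ℝ) / X0 * C0 * EE μ N ≤ ε / 16 * EE μ N :=
        mul_le_mul_of_nonneg_right h3 (by linarith only [hEN1])
      have h6 : ε / 16 * EE μ N ≤ ε / 16 * E := mul_le_mul_of_nonneg_left hENE (by positivity)
      linarith only [h5, h6]
    linarith only [h1, h2, h4]
  have hεE : 0 ≤ ε / 16 * E := by positivity
  have hεE2 : ε / 16 * E ≤ 1 / 16 * E := mul_le_mul_of_nonneg_right (by linarith only [hε1]) (by linarith only [hE1])
  have hαE : (c1 + 2) * E ≤ (2 : ℝ) ^ α * E := mul_le_mul_of_nonneg_right hαc (by linarith only [hE1])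
  have hc1E : 1 * E ≤ c1 * E := mul_le_mul_of_nonneg_right hc1 (by linarith only [hE1])
  have hlog : Real.log 2 + M * Real.log (2 * J) ≤ ε / 4 * E := by
    have h1 : 4 / ε * (Real.log 2 + M * Real.log (2 * J)) ≤ E := hΛ3.trans (hEN.trans hENE)
    have h2 := mul_le_mul_of_nonneg_left h1 (show 0 ≤ ε / 4 by positivity)
    have h3 : ε / 4 * (4 / ε * (Real.log 2 + M * Real.log (2 * J))) = Real.log 2 + M * Real.log (2 * J) := by
      field_simp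
    linarith only [h2, h3]
  -- the walls
  have hwalls : ∀ k : ℕ, 1 ≤ k → k ≤ M →
      (∃ c : ℤ, 0 ≤ c ∧ c ≤ (k * L' : ℕ) ∧
        c ≤ (⌊((k * L' : ℕ) : ℝ) / 2 + v * ((k * L' : ℕ) : ℝ) - (R + Ci) * Δ * N⌋ - 1) + J * w + 1 ∧
        max (max (2 * ((c1 + 1) * E + Real.log (4 * M))) Cw) (6 * EU μ 0 md (2 ^ T₀ * N)) <
        e μ 0 (k * L') ((⌊((k * L' : ℕ) : ℝ) / 2 + v * ((k * L' : ℕ) : ℝ) - (R + Ci) * Δ * N⌋ - 1) + J * w + 1) -
          e μ 0 (k * L') c) ∧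
      (∃ c : ℤ, 0 ≤ c ∧ c ≤ (N - k * L' : ℕ) ∧
        (⌊((k * L' : ℕ) : ℝ) / 2 + v * ((k * L' : ℕ) : ℝ) - (R + Ci) * Δ * N⌋ - 1) - 1 + c ≤ ze ∧
        max (max (2 * ((c1 + 1) * E + Real.log (4 * M))) Cw) (6 * EU μ 0 md (2 ^ T₀ * N)) <
        e μ 0 (N - k * L') (ze - ((⌊((k * L' : ℕ) : ℝ) / 2 + v * ((k * L' : ℕ) : ℝ) - (R + Ci) * Δ * N⌋ - 1) - 1)) -
          e μ 0 (N - k * L') c) := by
    intro k hk1 hkM
    have hkL1 : 1 ≤ k * L' := Nat.mul_pos hk1 hL'1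
    have hkL2 : k * L' ≤ M * L' := Nat.mul_le_mul_right L' hkM
    have hkL3 : 1 * L' ≤ k * L' := Nat.mul_le_mul_right L' hk1
    have hkL2r : ((k * L' : ℕ) : ℝ) ≤ M * L' := by exact_mod_cast hkL2
    have hkL3r : (L' : ℝ) ≤ ((k * L' : ℕ) : ℝ) := by
      rw [one_mul] at hkL3
      exact_mod_cast hkL3
    have hNT : (L : ℝ) ≤ (N : ℝ) - ((k * L' : ℕ) : ℝ) := by
      rw [hNr, hLr2]
      linarith only [hkL2r]
    refine walls88 (μ := μ) hEM hv (by linarith only [hab2, hbη, hη16]) (R := R) (Δ := Δ) (Ci := Ci)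
      (by linarith only [hR1]) hCi hkL1 ?_ (by linarith only [hvη, hη16]) hvv ?_
      (by linarith only [hΔN, hΔL256]) rfl hze ?_ ?_ ?_
    · have : ((k * L' + 1 : ℕ) : ℝ) ≤ (N : ℕ) := by
        push_cast at hNT ⊢
        linarith only [hNT, hLr]
      exact_mod_cast this
    · have h1 : R * Δ * N ≤ R * η * (((M : ℝ) + 1) * L) := by
        have h2 : (N : ℝ) ≤ ((M : ℝ) + 1) * L := by linarith only [hNKL, hMn]
        have h3 : R * Δ ≤ R * η := mul_le_mul_of_nonneg_left hΔη (by linarith only [hR1])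
        exact mul_le_mul h3 h2 hN0 (by positivity)
      have h2 : R * η * (((M : ℝ) + 1) * L) = η * (R * ((M : ℝ) + 1)) * L := by ring
      have h3 : η * (R * ((M : ℝ) + 1)) * L ≤ 1 / 8 * L :=
        mul_le_mul_of_nonneg_right (by linarith only [hηR]) (by linarith only [hLr])
      linarith only [h1, h2, h3, hNT, hLr]
    · have h1 : (J : ℝ) * (δ * (a * n')) ≤ J * w := mul_le_mul_of_nonneg_left hw1 (by linarith only [hJr1])
      have h2 : (J : ℝ) * δ * (Δ * L / 2) ≤ J * δ * (a * n') := mul_le_mul_of_nonneg_left han1 (by positivity)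
      have h3 : 2 * ((M : ℝ) + 1) * (2 * R + Ci + 1) * (Δ * L / 2) ≤ J * δ * (Δ * L / 2) :=
        mul_le_mul_of_nonneg_right hJδ (by linarith only [hΔL256])
      have h4 : (2 * R + Ci + 1) * Δ * N ≤ (2 * R + Ci + 1) * Δ * (((M : ℝ) + 1) * L) := by
        refine mul_le_mul_of_nonneg_left (by linarith only [hNKL, hMn]) ?_
        have : 0 ≤ 2 * R + Ci + 1 := by linarith only [hR1, hCi]
        exact mul_nonneg this hΔ0.le
      linarith only [h1, h2, h3, h4]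
    · have h1 : (J : ℝ) * w ≤ J * (2 * δ * (a * n')) := mul_le_mul_of_nonneg_left hw2 (by linarith only [hJr1])
      have h2 : (J : ℝ) * (2 * δ) * (a * n') ≤ J * (2 * δ) * (Δ * L) := mul_le_mul_of_nonneg_left han2 (by positivity)
      have h3 : (J : ℝ) * (2 * δ) * (Δ * L) ≤ J * (1 / 32) * (η * L) := by
        refine mul_le_mul (mul_le_mul_of_nonneg_left (by linarith only [hδ1]) (by linarith only [hJr1]))
          (mul_le_mul_of_nonneg_right hΔη (by linarith only [hLr])) (by linarith only [hΔL256]) (by positivity)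
      have h4 : (J : ℝ) * (1 / 32) * (η * L) = 1 / 32 * (η * J) * L := by ring
      have h5 : 1 / 32 * (η * J) * L ≤ 1 / 32 * (1 / 16) * L :=
        mul_le_mul_of_nonneg_right (by linarith only [hηJ]) (by linarith only [hLr])
      linarith only [h1, h2, h3, h4, h5, hL'r, hkL3r, hLr]
    · have hRE : (R - 1) * EE μ N = 6 * (c1 + 1) * EE μ N + 6 * 2 ^ T₀ * EE μ N + 3 * EE μ N := by
        rw [hR]
        ring
      have hTE : 0 ≤ 6 * 2 ^ T₀ * EE μ N := by positivity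
      have hcE : 0 ≤ 6 * (c1 + 1) * EE μ N := by
        have : 0 ≤ c1 + 1 := by linarith only [hc1]
        positivity
      rw [hRE]
      refine max_lt (max_lt ?_ ?_) ?_
      · have h1 : (c1 + 1) * E ≤ (c1 + 1) * (3 * EE μ N) := 
          mul_le_mul_of_nonneg_left (by rw [hE]; exact hE3) (by linarith only [hc1])
        linarith only [h1, hΛ1, hEN, hEN1, hTE]
      · linarith only [hΛ2, hEN, hEN1, hTE, hcE]
      · have h1 := EE_mul (μ := μ) hEM (2 ^ T₀) N Nat.one_le_two_pow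
        push_cast at h1
        have h2 : EU μ 0 md (2 ^ T₀ * N) ≤ 2 ^ T₀ * EE μ N := h1
        linarith only [h2, hcE, hEN1]
  -- the junction inequality
  have hfin := hI4 0 md (fun m => ⟨md_nonneg m, md_le m⟩)
    ⟨L', n', w, J, md n' + w, fun k => ⌊((k * L' : ℕ) : ℝ) / 2 + v * ((k * L' : ℕ) : ℝ) - (R + Ci) * Δ * N⌋ - 1⟩
    M N ze x (Em μ L + ε / 16 * E) (ε / 16 * E) (B * E) p (1 / 4) ((c1 + 1) * E) ((c1 + 1) * E + Real.log (4 * M))
    hN hM1 hL'1 hn'L' hJ1 hw1'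
    (by
      show 0 ≤ md n' + (w : ℤ) - w
      have := md_nonneg n'
      omega)
    (by
      show md n' + (w : ℤ) ≤ n'
      omega) hp.le (fun k h1 h2 => (hwalls k h1 h2).1) (fun k h1 h2 => (hwalls k h1 h2).2)
    (fun d' h0 h1 => by
      have h2 : d' ≤ L := by rw [hL']; exact h1
      have h3 := hpiece z α hαα₀ hS L hLz d' h0 h2
      rw [← hE, hL'] at h3
      exact h3)
    (by
      show (law μ).real {η | Em μ L + ε / 16 * E + ε / 16 * E < X μ 0 η 0 n' (md n' + (w : ℤ))} ≤ p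
      refine i52_up hS hα0 (hn'L.trans hLz) (by have := md_nonneg n'; omega) (by omega) ?_ hακ hαp ?_
      · rw [← hE]
        linarith only [hrefw, hEmE, hεE2, hαE, hc1E, hE1]
      · rw [← hE]
        linarith only [hrefw])
    (by
      have e2 : md n' + (w : ℤ) - w = md n' := add_sub_cancel_right _ _
      show (law μ).real {η | Em μ L + ε / 16 * E + ε / 16 * E < X μ 0 η 0 n' (md n' + (w : ℤ) - w)} ≤ p
      rw [e2]
      refine i52_up hS hα0 (hn'L.trans hLz) (md_nonneg n') (md_le n') ?_ hακ hαp ?_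
      · rw [← hE]
        linarith only [hrefmd, hEmE, hαE, hc1E, hE1]
      · rw [← hE]
        linarith only [hrefmd, hεE])
    hze0 hzeN
    (by
      have hc1EN : c1 * EE μ N ≤ c1 * E := mul_le_mul_of_nonneg_left hENE (by linarith only [hc1])
      refine i52_up hS hα0 hNz hze0 hzeN ?_ (κ := 1) ((hαp.trans hp4).trans (by norm_num)) (hαp.trans hp4) ?_
      · rw [← hE]
        linarith only [hpathc, hc1EN, hαE, hE1]
      · rw [← hE]
        linarith only [hpathc, hc1EN])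
    (by
      have h4M : (0 : ℝ) < 4 * M := by linarith only [hM7]
      rw [neg_add, Real.exp_add, Real.exp_neg (Real.log (4 * M)), Real.exp_log h4M]
      refine le_of_eq ?_
      field_simp) hx0 (by show x + 1 ≤ ((L' + n' : ℕ) : ℤ); rw [← hL']; exact hxL)
    (by show e μ 0 (L' + n') x ≤ e μ 0 (L' + n') (x + 1); rw [← hL']; exact hxx)
    (by
      show ((M : ℤ) + 1) * x ≤ ze + M * (md n' + (w : ℤ) - w)
      rw [add_sub_cancel_right]
      exact hxz)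
    (by
      have : 0 ≤ B := by rw [hB]; linarith only [hM0, hc1]
      exact mul_nonneg this (by linarith only [hE1]))
    (by
      show 6 * ((M : ℝ) + 1) * (J : ℝ) ^ 2 * p + (2 * M * (1 / (8 * (M : ℝ))) + 1 / 4) < 1
      have h1 : 2 * (M : ℝ) * (1 / (8 * (M : ℝ))) = 1 / 4 := by
        have : (M : ℝ) ≠ 0 := by
          intro h0
          linarith only [hM7, h0]
        field_simp
        norm_num
      rw [h1]
      linarith only [hpJ])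
  have hfin' : min (((M : ℝ) + 1) * e μ 0 L x) (B * E) ≤ (c1 + 1) * E + Real.log 2 + ((M : ℝ) + 1) * (ε / 16 * E) +
      M * (Em μ L + ε / 16 * E + ε / 16 * E) + M * Real.log (2 * J) := by
    rw [hL'] at hfin ⊢
    exact hfin
  have t1 : ((M : ℝ) + 1) * (ε / 16 * E) ≤ ((M : ℝ) + 1) * (1 / 16 * E) :=
    mul_le_mul_of_nonneg_left hεE2 (by linarith only [hM0])
  have t2 : M * (Em μ L + ε / 16 * E + ε / 16 * E) ≤ M * (E + 1 / 16 * E + 1 / 16 * E) :=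
    mul_le_mul_of_nonneg_left (by linarith only [hEmE, hεE2]) hM0
  have t3 : ε / 4 * E ≤ 1 / 4 * E := mul_le_mul_of_nonneg_right (by linarith only [hε1]) (by linarith only [hE1])
  have t4 : 0 ≤ M * E := mul_nonneg hM0 (by linarith only [hE1])
  have hlt : (c1 + 1) * E + Real.log 2 + ((M : ℝ) + 1) * (ε / 16 * E) +
      M * (Em μ L + ε / 16 * E + ε / 16 * E) + M * Real.log (2 * J) < B * E := by
    rw [hB]
    linarith only [t1, t2, t3, t4, hlog, hE1]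
  have hmain : ((M : ℝ) + 1) * e μ 0 L x ≤ (c1 + 1) * E + Real.log 2 + ((M : ℝ) + 1) * (ε / 16 * E) +
      M * (Em μ L + ε / 16 * E + ε / 16 * E) + M * Real.log (2 * J) := by
    rcases min_le_iff.1 hfin' with h | h
    · exact h
    · exact absurd h (not_le.2 hlt)
  have s1 : (c1 + 1) * E ≤ ((M : ℝ) + 1) * (ε / 4 * E) := by
    have := mul_le_mul_of_nonneg_right hmK (show 0 ≤ E by linarith only [hE1])
    linarith only [this]
  have s2 : 0 ≤ M * (ε / 16 * E) := mul_nonneg hM0 hεE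
  refine hdx.trans ?_
  rw [← hE]
  refine le_of_mul_le_mul_left ?_ (show 0 < (M : ℝ) + 1 by linarith only [hM0])
  linarith only [hmain, hlog, s1, s2, hεE, hEm0]

/-- **(4.1) of row 619: the inner edge on a stretch without soft scale**, from the frame. -/
theorem innerE (hEM : Pool.Agent.W_7d29a1_h47.EM μ) (hnd : Pool.Agent.W_7d29a1_h47.Nondeg μ) (hI : FIn μ)
    (hE : EdgeIn μ 1 2) : InnerE μ 1 := by
  obtain ⟨Ci, c1, n0, hCi, hc1, hEdge⟩ := hE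
  obtain ⟨c₀, hc₀, hFI⟩ := hI
  obtain ⟨C, n1, hFI1⟩ := hFI 1
  obtain ⟨cg, n2, hcg, hgap⟩ := edge_gap88 (μ := μ) hEM hnd zero_le_one one_lt_two
  obtain ⟨k0, hk0⟩ := slow_edges (μ := μ) hEM one_pos two_pos
  refine ⟨Ci + 4, 4 * (c1 + 1), k0, by linarith, by linarith, fun ε m hε hε1 hm => ?_⟩
  have hIn : ∀ n : ℕ, n1 ≤ n → ∀ (m : ℕ) (y : ℤ), m ≤ n → 0 ≤ y → y ≤ m →
      |(y : ℝ) - m / 2| ≤ min c₀ 1 * vA μ 1 n * m + 1 → ep μ m y ≤ max C 1 * EE μ n := by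
    intro n hn m y hmn h0 h1 h2
    have h3 : min c₀ 1 * vA μ 1 n * m ≤ c₀ * vA μ 1 n * m :=
      mul_le_mul_of_nonneg_right (mul_le_mul_of_nonneg_right (min_le_left _ _) (vA_nonneg hEM zero_le_one n))
        (Nat.cast_nonneg m)
    have h4 := hFI1 n hn m y (by rw [one_mul]; exact hmn) h0 h1 (by linarith)
    have h5 : C * EE μ n ≤ max C 1 * EE μ n :=
      mul_le_mul_of_nonneg_right (le_max_left _ _) (by linarith [one_le_EE (μ := μ) n])
    linarith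
  obtain ⟨α, Λ, η, n3, hη, hcore⟩ := core88 (μ := μ) hEM hnd hCi hc1 hEdge (lt_min hc₀ one_pos) (min_le_right _ _)
    (le_max_right _ _) hIn hcg hgap hε hε1 hm
  obtain ⟨nΛ, hΛ⟩ := eventually_atTop.1
    ((Pool.Agent.W_7d29a1_h18.EE_tendsto (μ := μ) hEM hnd).eventually (eventually_ge_atTop Λ))
  obtain ⟨nη, hnη⟩ := eventually_atTop.1
    ((vA_tendsto (μ := μ) hEM hnd (zero_le_one' ℝ)).eventually (eventually_le_nhds hη))
  refine ⟨α, max n3 (max nΛ nη), fun a b hx0 hS hslow y hy1 hy2 L hL1 hL2 d hd => ?_⟩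
  have hx1 : n3 ≤ a := (le_max_left _ _).trans hx0
  have hx2 : nΛ ≤ a := ((le_max_left _ _).trans (le_max_right _ _)).trans hx0
  have hx3 : nη ≤ a := ((le_max_right _ _).trans (le_max_right _ _)).trans hx0
  have hp1 : y - 1 < 2 ^ (y - 1) := Nat.lt_two_pow_self
  have hp2 : y - 1 - k0 < 2 ^ (y - 1 - k0) := Nat.lt_two_pow_self
  refine hcore (y + m) L (vA μ 1 (2 ^ (y + m + 3))) (vA μ 1 (2 ^ (y - 1 - k0))) (hS (y + m) (by omega) (by omega))
    (by omega) ?_ ?_ (fun n h1 h2 => hΛ n (by omega)) (vA_pos hEM one_pos _)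
    (fun n h1 h2 => hk0 a b hslow (y - 1) (y + m) n (by omega) (by omega) (hL1.trans h1) h2)
    (hnη _ (by omega)) d hd
  · calc 2 ^ (y + m) = 2 ^ (m + 1) * 2 ^ (y - 1) := by
          rw [← pow_add]
          congr 1
          omega
      _ ≤ 2 ^ (m + 1) * L := Nat.mul_le_mul_left _ hL1
  · calc 2 ^ m * L ≤ 2 ^ m * 2 ^ y := Nat.mul_le_mul_left _ hL2
      _ = 2 ^ (y + m) := by
          rw [← pow_add, Nat.add_comm]

end Pool.Agent.W_7d29a1_G
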