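import Pool.Agent.W_7d29a1_G.FR0
import Pool.Agent.W_7d29a1_h57g.TubeLine

/-!
Track G (MP_7d29a1_pr), D4: the straight tube at one scale, in absolute slopes (`a ≤ v(A₀)`, `v(A₁) ≤ b`; the width of the
edge is `b - a`). (helper57)
-/

namespace Pool.Agent.W_7d29a1_G

open MeasureTheory ProbabilityTheory Filter Topology Pool.Agent.W_7d29a1_F Pool.Agent.W_7d29a1_h4g
open Pool.Agent.W_7d29a1_g Pool.Agent.W_7d29a1_h57g

variable {μ : Measure ℝ} [IsProbabilityMeasure μ]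

theorem J_mono57 (hμ : Pool.Agent.W_7d29a1_h47.EM μ) (hnd : Pool.Agent.W_7d29a1_h47.Nondeg μ) {u v : ℝ} (hu : 0 ≤ u)
    (huv : u ≤ v) (hv : v ≤ 1 / 2) : J μ u ≤ J μ v := by
  rcases huv.eq_or_lt with h | h
  · rw [h]
  · exact (J_strict hμ hnd hu h hv).le

/-- Convexity beyond the edge, in absolute slopes. -/
theorem J_beyond57 (hμ : Pool.Agent.W_7d29a1_h47.EM μ) (hnd : Pool.Agent.W_7d29a1_h47.Nondeg μ) {A₀ A₁ a b r : ℝ}
    {n : ℕ} (hA₀ : 0 ≤ A₀) (hA₁ : 0 ≤ A₁) (ha0 : 0 ≤ a) (ha : a ≤ vA μ A₀ n) (hb : vA μ A₁ n ≤ b) (hlt : vA μ A₁ n < 1 / 2)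
    (hab : a ≤ b) (hr : 1 ≤ r) (hr1 : a + r * (b - a) ≤ 1 / 2) :
    (A₁ + (r - 1) * (A₁ - A₀)) * EE μ n ≤ n * J μ (a + r * (b - a)) := by
  have hr0 : 0 < r := by linarith
  have hbx : b ≤ a + r * (b - a) := by nlinarith
  have hn : (0 : ℝ) ≤ n := Nat.cast_nonneg n
  have h1 : n * J μ a ≤ A₀ * EE μ n := by
    have h2 := J_mono57 hμ hnd ha0 ha (vA_le hμ hA₀ n)
    exact (mul_le_mul_of_nonneg_left h2 hn).trans (vA_mem hμ hA₀ n)
  have h2 : A₁ * EE μ n ≤ n * J μ b := by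
    rw [← vA_eq' hμ hA₁ hlt]
    exact mul_le_mul_of_nonneg_left (J_mono57 hμ hnd (vA_nonneg hμ hA₁ n) hb (hbx.trans hr1)) hn
  have h3 : r * J μ b ≤ (r - 1) * J μ a + J μ (a + r * (b - a)) := by
    obtain ⟨-, hcv⟩ := J_convex hμ
    have hm1 : a ∈ Set.Icc (-(1 / 2 : ℝ)) (1 / 2) := ⟨by linarith, by linarith⟩
    have hm2 : a + r * (b - a) ∈ Set.Icc (-(1 / 2 : ℝ)) (1 / 2) := ⟨by linarith, hr1⟩
    have hc := hcv hm1 hm2 (show 0 ≤ 1 - 1 / r by rw [sub_nonneg, div_le_one hr0]; exact hr)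
      (show 0 ≤ 1 / r by positivity) (by ring)
    simp only [smul_eq_mul] at hc
    have e1 : (1 - 1 / r) * a + 1 / r * (a + r * (b - a)) = b := by
      field_simp
      ring
    rw [e1] at hc
    have h4 := mul_le_mul_of_nonneg_left hc hr0.le
    have e2 : r * ((1 - 1 / r) * J μ a + 1 / r * J μ (a + r * (b - a))) = (r - 1) * J μ a + J μ (a + r * (b - a)) := by
      field_simp
    rwa [e2] at h4
  have h5 := mul_le_mul_of_nonneg_left h3 hn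
  have h6 := mul_le_mul_of_nonneg_left h1 (show 0 ≤ r - 1 by linarith)
  have h7 := mul_le_mul_of_nonneg_left h2 hr0.le
  nlinarith

/-- THE STRAIGHT TUBE AT ONE SCALE. Slope `u`, half width `D`, duration `T`. -/
theorem D4Tube (hEM : Pool.Agent.W_7d29a1_h47.EM μ) (hnd : Pool.Agent.W_7d29a1_h47.Nondeg μ) {ε c₁ A₀ A₁ : ℝ}
    (hε : 0 < ε) (hc₁ : 1 ≤ c₁) (hA₀ : 0 ≤ A₀) (hA : A₀ < A₁) :
    ∃ C₂ C₃ : ℝ, 1 ≤ C₂ ∧ 1 ≤ C₃ ∧ ∀ (T : ℕ) (a b u D : ℝ), 4 ≤ T → Real.log (4 * T) ≤ c₁ * EE μ T → 0 ≤ a → a ≤ b →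
      a ≤ vA μ A₀ (2 * T) → vA μ A₁ (2 * T) ≤ b → vA μ A₁ (2 * T) < 1 / 2 → 0 ≤ u → u ≤ 1 / 8 → 1 ≤ D → D ≤ 4 * u * T →
      (∀ (m : ℕ) (y : ℤ), T ≤ m → m ≤ 2 * T → |(y : ℝ) - m / 2| ≤ u * m + 2 → e μ 0 m y ≤ c₁ * EE μ (2 * T)) →
      a + C₂ * (b - a) ≤ u + (D - 1) / (2 * T) →
      1 - ε ≤ (law μ).real {η | X μ 0 η 0 T ⌊(1 / 2 + u) * T⌋ ≤ C₃ * EE μ (2 * T)} ∧
      1 - ε ≤ (law μ).real {η | W μ 0 η 0 T ⌊(1 / 2 + u) * T⌋ ≤
        2 * WR μ 0 (Tube 0 (1 / 2 + u) D) η 0 T ⌊(1 / 2 + u) * T⌋} ∧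
      HasPath (Tube 0 (1 / 2 + u) D) 0 T ⌊(1 / 2 + u) * T⌋ ∧
      eR μ 0 (Tube 0 (1 / 2 + u) D) 0 T ⌊(1 / 2 + u) * T⌋ ≤ C₃ * EE μ (2 * T) := by
  obtain ⟨S, C, hC, h⟩ := tube_line (μ := μ) hEM hnd hε hc₁
  have hS1 : (1 : ℝ) ≤ 2 ^ S := one_le_pow₀ (by norm_num)
  have hd : 0 < A₁ - A₀ := by linarith
  refine ⟨1 + (C * 2 ^ S + 1) / (A₁ - A₀), C * 2 ^ S, ?_, ?_, ?_⟩
  · have : 0 ≤ (C * 2 ^ S + 1) / (A₁ - A₀) := by positivity
    linarith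
  · nlinarith
  intro T a b u D hT hlog ha0 hab ha hb hlt hu0 hu1 hD1 hD2 hch hw
  have hTR : (4 : ℝ) ≤ T := by exact_mod_cast hT
  have hE1 : 1 ≤ EE μ T := one_le_EE T
  have hE2 : EE μ T ≤ EE μ (2 * T) := EE_mono (by omega)
  have hB : EU μ 0 md (2 ^ S * T) ≤ 2 ^ S * EE μ (2 * T) := by
    have h1 := EE_mul (μ := μ) hEM (2 ^ S) T Nat.one_le_two_pow
    push_cast at h1
    exact h1.trans (mul_le_mul_of_nonneg_left hE2 (by positivity))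
  have hc0 : 0 ≤ 1 / 2 + u := by linarith
  have hc1 : 1 / 2 + u ≤ 1 := by linarith
  have h2T : ((2 * T : ℕ) : ℝ) = 2 * T := by push_cast; ring
  have hKB : c₁ * EE μ (2 * T) ≤ c₁ * (2 ^ S * EE μ (2 * T)) := by
    refine mul_le_mul_of_nonneg_left ?_ (by linarith)
    nlinarith
  have key := h 0 md (fun m => ⟨md_nonneg m, md_le m⟩) (1 / 2 + u) D (2 ^ S * EE μ (2 * T)) T hc0 hc1 hD1 (by omega) hB ?_
    ?_ ?_ ?_
  · refine ⟨?_, key.2.1, key.2.2.1, ?_⟩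
    · rw [mul_assoc]
      exact key.1
    · rw [mul_assoc]
      exact key.2.2.2
  · refine hlog.trans ((mul_le_mul_of_nonneg_left hE2 (by linarith)).trans hKB)
  · intro m y hm1 hm2 _ _ hy
    refine (hch m y hm1 hm2 ?_).trans hKB
    rw [abs_le] at hy ⊢
    have hm0 : (0 : ℝ) ≤ m := Nat.cast_nonneg m
    have := mul_nonneg hu0 hm0
    constructor <;> nlinarith [hy.1, hy.2]
  · intro y hy
    rw [h2T] at hy
    rw [abs_le] at hy
    have huT : 0 ≤ u * T := by positivity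
    have huT' : u * T ≤ T / 8 := by nlinarith
    have hy1 : |(y : ℝ) - T| ≤ 2 * (u * T) + 1 := by
      rw [abs_le]
      constructor <;> nlinarith [hy.1, hy.2]
    rw [abs_le] at hy1
    refine ⟨?_, ?_, ?_⟩
    · have : (0 : ℝ) ≤ y := by linarith [hy1.1]
      exact_mod_cast this
    · have : (y : ℝ) ≤ (2 * T : ℕ) := by
        rw [h2T]
        linarith [hy1.2]
      exact_mod_cast this
    · refine (hch (2 * T) y (by omega) le_rfl ?_).trans hKB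
      rw [h2T, abs_le]
      constructor <;> linarith [hy1.1, hy1.2]
  · intro y hy
    rw [h2T] at hy
    rw [abs_le] at hy
    have huT' : u * T ≤ T / 8 := by nlinarith
    have hy0 : (0 : ℝ) ≤ y := by nlinarith [hy.1]
    have hy0' : 0 ≤ y := by exact_mod_cast hy0
    have hy2 : (y : ℝ) ≤ (2 * T : ℕ) := by
      rw [h2T]
      nlinarith [hy.2]
    have hy2' : y ≤ (2 * T : ℕ) := by exact_mod_cast hy2
    have h1 := J_le_e (μ := μ) hEM (n := 2 * T) (y := y) (by omega) hy0' hy2'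
    rw [h2T] at h1
    have hq : u + (D - 1) / (2 * T) ≤ ((y : ℝ) - 2 * T / 2) / (2 * T) := by
      rw [le_div_iff₀ (by positivity), add_mul, div_mul_cancel₀ _ (by positivity)]
      nlinarith [hy.1]
    have hq1 : ((y : ℝ) - 2 * T / 2) / (2 * T) ≤ 1 / 2 := by
      rw [div_le_iff₀ (by positivity)]
      rw [h2T] at hy2
      linarith
    have hr : 1 ≤ 1 + (C * 2 ^ S + 1) / (A₁ - A₀) := by
      have : 0 ≤ (C * 2 ^ S + 1) / (A₁ - A₀) := by positivity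
      linarith
    have h2 := J_beyond57 (μ := μ) hEM hnd (n := 2 * T) hA₀ (by linarith) ha0 ha hb hlt hab hr ((hw.trans hq).trans hq1)
    have h3 := J_mono57 (μ := μ) hEM hnd (u := a + (1 + (C * 2 ^ S + 1) / (A₁ - A₀)) * (b - a))
      (add_nonneg ha0 (mul_nonneg (by linarith) (by linarith))) (hw.trans hq) hq1
    have h4 : (2 * T : ℝ) * J μ (a + (1 + (C * 2 ^ S + 1) / (A₁ - A₀)) * (b - a)) ≤
        2 * T * J μ (((y : ℝ) - 2 * T / 2) / (2 * T)) := mul_le_mul_of_nonneg_left h3 (by positivity)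
    rw [h2T] at h2
    have h5 : (A₁ + (1 + (C * 2 ^ S + 1) / (A₁ - A₀) - 1) * (A₁ - A₀)) = A₁ + C * 2 ^ S + 1 := by
      field_simp
      ring
    rw [h5] at h2
    have h6 : 0 < EE μ (2 * T) := by linarith
    nlinarith

end Pool.Agent.W_7d29a1_G
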