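import Pool.Agent.W_7d29a1_F.Defs

/-!
MP_7d29a1_pr, track G (`ν < 1`, `χ > 0` for `d = 1`, all laws, all `β`). Definitions.

Everything is at the tilt `0` of the library `W_7d29a1_F` (coordinates `(time, position)`, steps `(1, 0)`, `(1, 1)`); the centre of the
displacements of time `n` is `y = n / 2`, slopes `v` are relative to the centre: `y = n / 2 + v n`, `|v| ≤ 1 / 2`.

The unit: `A_n(v)` is the largest mean of `X⁺` over the displacements of time `n` and slope at most `v` (with slack `2`),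
`v_n = sup {v : A_n(v) ≥ 2 n J(2 v)}` (half cone), `E#(n) = 2 n J(2 v_n)`, `Eb(n) = 1 + max_{m ≤ n} E#(m)` and
`n J(2 vb_n) = Eb(n) / 2`.
-/

namespace Pool.Agent.W_7d29a1_G

open MeasureTheory ProbabilityTheory Filter Topology Pool.Agent.W_7d29a1_F

noncomputable section

/-- The mean of `X⁺` for the displacement `(n, y)`. -/
def ep (μ : Measure ℝ) (n : ℕ) (y : ℤ) : ℝ := ∫ η, max (X μ 0 η 0 n y) 0 ∂(law μ)

/-- The rate function relative to the centre. -/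
def J (μ : Measure ℝ) (v : ℝ) : ℝ := sSup {r | ∃ s : ℝ, r = s * v - (lam μ s - lam μ 0 - s / 2)}

/-- The displacements of time `n` and slope at most `v` (relative to the centre), with slack `2`. -/
def Cn (n : ℕ) (v : ℝ) : Finset ℤ :=
  (Finset.Icc (0 : ℤ) n).filter fun y => |(y : ℝ) - n / 2| ≤ v * n + 2

lemma mem_Cn {n : ℕ} {v : ℝ} {y : ℤ} :
    y ∈ Cn n v ↔ 0 ≤ y ∧ y ≤ n ∧ |(y : ℝ) - n / 2| ≤ v * n + 2 := by
  unfold Cn
  rw [Finset.mem_filter, Finset.mem_Icc]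
  tauto

/-- `A_n(v)`: the largest mean of `X⁺` in the cone of slope `v`. -/
def An (μ : Measure ℝ) (n : ℕ) (v : ℝ) : ℝ := sSup {r | ∃ y ∈ Cn n v, r = ep μ n y}

/-- `v_n`. -/
def vn (μ : Measure ℝ) (n : ℕ) : ℝ := sSup {v : ℝ | 0 ≤ v ∧ v ≤ 1 / 4 ∧ 2 * n * J μ (2 * v) ≤ An μ n v}

/-- `E#(n)`. -/
def Es (μ : Measure ℝ) (n : ℕ) : ℝ := 2 * n * J μ (2 * vn μ n)

/-- The unit `Eb(n)`. -/
def Eb (μ : Measure ℝ) (n : ℕ) : ℝ := 1 + sSup {r | ∃ m : ℕ, m ≤ n ∧ r = Es μ m}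

/-- The slope `vb_n` of the half cone at the scale `n`. -/
def vb (μ : Measure ℝ) (n : ℕ) : ℝ := sSup {v : ℝ | 0 ≤ v ∧ v ≤ 1 / 4 ∧ 2 * n * J μ (2 * v) ≤ Eb μ n}

/-- The width of the half cone at the scale `n`. -/
def wb (μ : Measure ℝ) (n : ℕ) : ℝ := vb μ n * n

end

end Pool.Agent.W_7d29a1_G
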