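import Pool.Agent.W_7d29a1_G.FR0
import Pool.Agent.W_7d29a1_G.FinM
import Pool.Agent.W_7d29a1_G.OctDefs
import Pool.Agent.W_7d29a1_h75g.WallIn

/-!
MP_7d29a1_pr, track G: the edges at every scale (proofs row 622) on the frame of the unit (D1), in the form used by the other
sections. The two levels are `A₀ < A₁`; `v = vA μ A₀ n`, `v' = vA μ A₁ n`, `y_n v_n = v' - v`.
-/

namespace Pool.Agent.W_7d29a1_G

open MeasureTheory ProbabilityTheory Filter Topology Pool.Agent.W_7d29a1_F Pool.Agent.W_7d29a1_h4g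
open Pool.Agent.W_7d29a1_h75g (EdgeHyp inner wall)

variable {μ : Measure ℝ} [IsProbabilityMeasure μ]

/-! ### The rate function between and beyond two levels -/

theorem vA_lt (hμ : Pool.Agent.W_7d29a1_h47.EM μ) {A B : ℝ} (hA : 0 ≤ A) (hAB : A < B) {n : ℕ}
    (hB : vA μ B n < 1 / 2) : vA μ A n < vA μ B n := by
  have h1 := vA_mono (μ := μ) hμ hA hAB.le n
  refine lt_of_le_of_ne h1 fun h => ?_
  have h2 := vA_eq' hμ hA (n := n) (by rw [h]; exact hB)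
  have h3 := vA_eq' hμ (hA.trans hAB.le) hB
  rw [h, h3] at h2
  have h4 := one_le_EE (μ := μ) n
  nlinarith

/-- The chord: beyond the lower level the rate function lies above a line (`(0.1)` of row 622). -/
theorem J_chord (hμ : Pool.Agent.W_7d29a1_h47.EM μ) {A B : ℝ} (hA : 0 < A) (hAB : A < B) {n : ℕ}
    (hB : vA μ B n < 1 / 2) {x : ℝ} (h0 : vA μ A n ≤ x) (h1 : x ≤ 1 / 2) :
    min A (B - A) * EE μ n * (x - vA μ A n) ≤ n * J μ x * (vA μ B n - vA μ A n) := by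
  have hlt := vA_lt hμ hA.le hAB hB
  have hv0 := vA_nonneg (μ := μ) hμ hA.le n
  have e0 := vA_eq' hμ hA.le (n := n) (hlt.trans hB)
  have e1 := vA_eq' hμ (hA.le.trans hAB.le) hB
  obtain ⟨v, hv⟩ : ∃ v, v = vA μ A n := ⟨_, rfl⟩
  obtain ⟨v', hv'⟩ : ∃ v', v' = vA μ B n := ⟨_, rfl⟩
  have hE := one_le_EE (μ := μ) n
  rw [← hv] at hlt hv0 e0 h0 ⊢
  rw [← hv'] at hlt hB e1 ⊢
  have hn : (0 : ℝ) ≤ n := Nat.cast_nonneg n
  have hm1 : min A (B - A) ≤ A := min_le_left _ _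
  have hm2 : min A (B - A) ≤ B - A := min_le_right _ _
  have hm0 : 0 < min A (B - A) := lt_min hA (by linarith)
  obtain ⟨q, hq⟩ : ∃ q, q = min A (B - A) := ⟨_, rfl⟩
  rw [← hq] at hm0 hm1 hm2 ⊢
  rcases le_total x v' with hx | hx
  · have h2 : A * EE μ n ≤ n * J μ x := by
      rw [← e0]
      exact mul_le_mul_of_nonneg_left (J_mono' hμ hv0 h0 h1) hn
    have h3 : q * EE μ n ≤ n * J μ x := (mul_le_mul_of_nonneg_right hm1 (by linarith)).trans h2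
    have h4 : 0 ≤ n * J μ x := by
      have : 0 ≤ q * EE μ n := by positivity
      linarith
    calc q * EE μ n * (x - v) ≤ n * J μ x * (x - v) :=
          mul_le_mul_of_nonneg_right h3 (by linarith)
      _ ≤ n * J μ x * (v' - v) := mul_le_mul_of_nonneg_left (by linarith) h4
  · have hxv : 0 < x - v := by linarith
    have h2 := (J_convex hμ).2 (show v ∈ Set.Icc (-(1 / 2) : ℝ) (1 / 2) from ⟨by linarith, by linarith⟩)
      (show x ∈ Set.Icc (-(1 / 2) : ℝ) (1 / 2) from ⟨by linarith, h1⟩)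
      (show 0 ≤ (x - v') / (x - v) from div_nonneg (by linarith) hxv.le)
      (show 0 ≤ (v' - v) / (x - v) from div_nonneg (by linarith) hxv.le)
      (by rw [← add_div, show x - v' + (v' - v) = x - v by ring, div_self hxv.ne'])
    simp only [smul_eq_mul] at h2
    have h3 : (x - v') / (x - v) * v + (v' - v) / (x - v) * x = v' := by
      field_simp
      ring
    rw [h3] at h2
    have h4 : (x - v) * J μ v' ≤ (x - v') * J μ v + (v' - v) * J μ x := by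
      have := mul_le_mul_of_nonneg_left h2 hxv.le
      have h5 : (x - v) * ((x - v') / (x - v) * J μ v + (v' - v) / (x - v) * J μ x) =
          (x - v') * J μ v + (v' - v) * J μ x := by
        field_simp
      rwa [h5] at this
    have h5 : (x - v) * (B * EE μ n) ≤ (x - v') * (A * EE μ n) + (v' - v) * (n * J μ x) := by
      rw [← e0, ← e1]
      have := mul_le_mul_of_nonneg_left h4 hn
      linarith
    have h6 : q * EE μ n * (x - v) ≤ (B - A) * EE μ n * (x - v) :=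
      mul_le_mul_of_nonneg_right (mul_le_mul_of_nonneg_right hm2 (by linarith)) hxv.le
    have h7 : 0 ≤ (v' - v) * (A * EE μ n) := mul_nonneg (by linarith) (by positivity)
    nlinarith

/-- The mean cost in the cone of slope `v` is at most `(J v + ε) N` for large `N`. -/
theorem e_up' (hμ : Pool.Agent.W_7d29a1_h47.EM μ) (hnd : Pool.Agent.W_7d29a1_h47.Nondeg μ) {v : ℝ}
    (h0 : 0 ≤ v) (h1 : v < 1 / 2) {ε : ℝ} (hε : 0 < ε) :
    ∀ᶠ N : ℕ in atTop, ∀ y ∈ Cn N v, e μ 0 N y ≤ (J μ v + ε) * N := by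
  have hc : ContinuousWithinAt (J μ) (Set.Icc 0 (1 / 2)) v := J_cont0 hμ v ⟨h0, h1.le⟩
  have hc2 := hc.eventually (eventually_lt_nhds (show J μ v < J μ v + ε / 2 by linarith))
  have hne : (𝓝[Set.Ioc v (1 / 2)] v).NeBot := by
    rw [nhdsWithin_Ioc_eq_nhdsGT h1]
    infer_instance
  have hc3 : ∀ᶠ w in 𝓝[Set.Ioc v (1 / 2)] v, J μ w < J μ v + ε / 2 :=
    hc2.filter_mono (nhdsWithin_mono _ (Set.Ioc_subset_Icc_self.trans (Set.Icc_subset_Icc_left h0)))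
  have hc4 : ∀ᶠ w in 𝓝[Set.Ioc v (1 / 2)] v, w < 1 / 2 :=
    (eventually_lt_nhds h1).filter_mono nhdsWithin_le_nhds
  obtain ⟨w, hw1, hw2, hw3⟩ := (hc3.and (hc4.and self_mem_nhdsWithin)).exists
  obtain ⟨s, hs0, hs⟩ := exists_deriv hμ hnd (v := w) (h0.trans_lt hw3.1) hw2
  filter_upwards [up_tilt hμ hnd hs0 h0 (by rw [hs]; exact hw3.1) (half_pos hε)] with N hN y hy
  have h2 := mem_Cn.1 hy
  have h3 := (e_le_ep hμ h2.1 h2.2.1).trans (le_An hy)
  rw [hs] at hN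
  refine (h3.trans hN).trans (mul_le_mul_of_nonneg_right ?_ (Nat.cast_nonneg N))
  linarith

/-- The lateral lengths are large: `(v' - v) n ≥ c E(n)`. -/
theorem vA_gap (hμ : Pool.Agent.W_7d29a1_h47.EM μ) (hnd : Pool.Agent.W_7d29a1_h47.Nondeg μ) {A B : ℝ}
    (hA : 0 < A) (hAB : A < B) : ∃ c : ℝ, 0 < c ∧ ∀ᶠ n : ℕ in atTop,
      c * EE μ n ≤ (vA μ B n - vA μ A n) * n ∧ c * EE μ n ≤ vA μ A n * n := by
  have hJ := J_pos hμ hnd (v := 1 / 2) (by norm_num) le_rfl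
  refine ⟨min (min A (B - A) / (4 * J μ (1 / 2))) (A / (2 * J μ (1 / 2))),
    lt_min (div_pos (lt_min hA (by linarith)) (by positivity)) (by positivity), ?_⟩
  filter_upwards [vA_lt_half hμ hnd (A := B) (hA.le.trans hAB.le),
    (vA_tendsto hμ hnd hA.le).eventually (eventually_lt_nhds (show (0 : ℝ) < 1 / 4 by norm_num))] with n hn hn2
  have hE := one_le_EE (μ := μ) n
  have hE0 : 0 ≤ EE μ n := by linarith
  have hn0 : (0 : ℝ) ≤ n := Nat.cast_nonneg n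
  constructor
  · refine (mul_le_mul_of_nonneg_right (min_le_left _ _) hE0).trans ?_
    have h1 := J_chord hμ hA hAB hn (x := 1 / 2) (by linarith) le_rfl
    have h2 : min A (B - A) * EE μ n * (1 / 4) ≤ min A (B - A) * EE μ n * (1 / 2 - vA μ A n) :=
      mul_le_mul_of_nonneg_left (by linarith) (mul_nonneg (le_min hA.le (by linarith)) hE0)
    rw [div_mul_eq_mul_div, div_le_iff₀ (by positivity)]
    nlinarith
  · refine (mul_le_mul_of_nonneg_right (min_le_right _ _) hE0).trans ?_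
    have hp := vA_pos hμ hA n
    have h1 := J_mul hμ (v := vA μ A n) (t := 1 / (2 * vA μ A n)) hp.le (by
      rw [le_div_iff₀ (by positivity)]
      linarith) (by
      rw [div_mul_eq_mul_div, one_mul, div_le_div_iff₀ (by positivity) (by norm_num)]
      linarith)
    have h2 : 1 / (2 * vA μ A n) * vA μ A n = 1 / 2 := by
      field_simp
    rw [h2] at h1
    have h3 := vA_eq' hμ hA.le (n := n) (by linarith)
    have h4 : J μ (vA μ A n) ≤ 2 * vA μ A n * J μ (1 / 2) := by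
      rw [div_mul_eq_mul_div, one_mul, div_le_iff₀ (by positivity)] at h1
      linarith
    rw [div_mul_eq_mul_div, div_le_iff₀ (by positivity), ← h3]
    have h5 := mul_le_mul_of_nonneg_left h4 hn0
    nlinarith

/-! ### The choice of the cells -/

/-- The data of the cells at the scale `n` for the levels `A < B` and the constant `c₀` of `(in)`. -/
structure Cells (μ : Measure ℝ) (A B c₀ : ℝ) (n w S : ℕ) (y₀ : ℤ) : Prop where
  w_one : 1 ≤ w
  w_ge : min (vA μ B n - vA μ A n) (c₀ / 16 * vA μ A n) * n ≤ w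
  w_le : (w : ℝ) ≤ 2 * (min (vA μ B n - vA μ A n) (c₀ / 16 * vA μ A n) * n)
  S_one : 1 ≤ S
  S_le : 4 * S ≤ n
  cell : ∀ r : ℤ, 0 ≤ r → r < w → 0 ≤ y₀ + r ∧ y₀ + r ≤ S ∧
    |((y₀ + r : ℤ) : ℝ) - S / 2| ≤ c₀ * vA μ A n * S + 1
  shift : |2 * (y₀ : ℝ) + w - 1 - 2 * (1 / 2 + vA μ A n) * S| ≤ (3 + 2 / c₀) * w

theorem exists_cells (hμ : Pool.Agent.W_7d29a1_h47.EM μ) (hnd : Pool.Agent.W_7d29a1_h47.Nondeg μ) {A B : ℝ}
    (hA : 0 < A) (hAB : A < B) (hEE : Tendsto (EE μ) atTop atTop) {c₀ : ℝ} (hc₀ : 0 < c₀) (hc₁ : c₀ ≤ 1) :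
    ∀ᶠ n : ℕ in atTop, ∃ (w S : ℕ) (y₀ : ℤ), Cells μ A B c₀ n w S y₀ := by
  obtain ⟨c, hc, hgap⟩ := vA_gap hμ hnd hA hAB
  filter_upwards [hgap, hEE.eventually_ge_atTop (1 / c), hEE.eventually_ge_atTop (16 / (c₀ * c)),
    (vA_tendsto hμ hnd hA.le).eventually (eventually_lt_nhds (show (0 : ℝ) < 1 / 8 by norm_num)),
    eventually_ge_atTop 16, vA_lt_half hμ hnd (A := B) (hA.le.trans hAB.le)] with n hn h1 h2 h3 h4 h5
  obtain ⟨v, hv⟩ : ∃ v, v = vA μ A n := ⟨_, rfl⟩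
  obtain ⟨v', hv'⟩ : ∃ v', v' = vA μ B n := ⟨_, rfl⟩
  have hlt : v < v' := by
    rw [hv, hv']
    exact vA_lt hμ hA.le hAB h5
  have hv0 : 0 < v := hv ▸ vA_pos hμ hA n
  obtain ⟨u, hu⟩ : ∃ u, u = min (vA μ B n - vA μ A n) (c₀ / 16 * vA μ A n) := ⟨_, rfl⟩
  rw [div_le_iff₀ hc] at h1
  rw [div_le_iff₀ (by positivity)] at h2
  have hn0 : (0 : ℝ) < n := by
    have : 0 < n := by omega
    exact_mod_cast this
  have hun : 1 ≤ u * n := by
    rw [hu, min_mul_of_nonneg _ _ hn0.le, le_min_iff]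
    constructor
    · linarith [hn.1]
    · have h6 := mul_le_mul_of_nonneg_left hn.2 (show 0 ≤ c₀ / 16 by positivity)
      nlinarith
  rw [← hv] at h3
  have hu1 : u ≤ c₀ / 16 * v := by
    rw [hu, hv]
    exact min_le_right _ _
  -- w
  obtain ⟨w, hw⟩ : ∃ w : ℕ, w = ⌈u * n⌉₊ := ⟨_, rfl⟩
  have hw1 : u * n ≤ w := hw ▸ Nat.le_ceil _
  have hw2 : (w : ℝ) ≤ 2 * (u * n) := by
    have := Nat.ceil_lt_add_one (show 0 ≤ u * n by linarith)
    rw [← hw] at this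
    linarith
  have hwr : (1 : ℝ) ≤ w := hun.trans hw1
  have hwn : 1 ≤ w := by exact_mod_cast hwr
  -- S
  obtain ⟨S, hS⟩ : ∃ S : ℕ, S = ⌈w / (c₀ * v)⌉₊ := ⟨_, rfl⟩
  have hcv : 0 < c₀ * v := by positivity
  have hcv8 : c₀ * v ≤ 1 / 8 := by nlinarith
  have hS1 : w / (c₀ * v) ≤ S := hS ▸ Nat.le_ceil _
  have hS2 : (S : ℝ) ≤ w / (c₀ * v) + 1 := by
    have := Nat.ceil_lt_add_one (show 0 ≤ w / (c₀ * v) by positivity)
    rw [← hS] at this
    linarith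
  have hS3 : (w : ℝ) ≤ c₀ * v * S := by
    rw [div_le_iff₀ hcv] at hS1
    linarith
  have hS8 : 8 * (w : ℝ) ≤ S := by
    have hS0 : (0 : ℝ) ≤ S := Nat.cast_nonneg _
    nlinarith
  have hSn : 4 * (S : ℝ) ≤ n := by
    have h6 : w / (c₀ * v) ≤ n / 8 := by
      rw [div_le_iff₀ hcv]
      have h7 : u * n ≤ c₀ / 16 * v * n := mul_le_mul_of_nonneg_right hu1 hn0.le
      nlinarith
    have h7 : (16 : ℝ) ≤ n := by exact_mod_cast h4
    linarith
  obtain ⟨a, ha⟩ : ∃ a : ℕ, a = S / 2 := ⟨_, rfl⟩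
  obtain ⟨b, hb⟩ : ∃ b : ℕ, b = w / 2 := ⟨_, rfl⟩
  refine ⟨w, S, (a : ℤ) - (b : ℤ), ?_⟩
  have a1 : (2 : ℝ) * (a : ℝ) ≤ S := by
    have : 2 * a ≤ S := by omega
    exact_mod_cast this
  have a2 : (S : ℝ) ≤ 2 * (a : ℝ) + 1 := by
    have : S ≤ 2 * a + 1 := by omega
    exact_mod_cast this
  have b1 : (2 : ℝ) * (b : ℝ) ≤ w := by
    have : 2 * b ≤ w := by omega
    exact_mod_cast this
  have b2 : (w : ℝ) ≤ 2 * (b : ℝ) + 1 := by
    have : w ≤ 2 * b + 1 := by omega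
    exact_mod_cast this
  refine ⟨hwn, by rw [← hu]; exact hw1, by rw [← hu]; exact hw2, ?_, by exact_mod_cast hSn, ?_, ?_⟩
  · have : (1 : ℝ) ≤ S := by linarith
    exact_mod_cast this
  · intro r hr0 hrw
    have hr0' : (0 : ℝ) ≤ r := by exact_mod_cast hr0
    have hrw' : (r : ℝ) + 1 ≤ w := by exact_mod_cast hrw
    have e1 : (((a : ℤ) - (b : ℤ) + r : ℤ) : ℝ) = (a : ℝ) - (b : ℝ) + r := by push_cast; ring
    refine ⟨?_, ?_, ?_⟩
    · have : (0 : ℝ) ≤ (((a : ℤ) - (b : ℤ) + r : ℤ) : ℝ) := by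
        rw [e1]
        linarith
      exact_mod_cast this
    · have : (((a : ℤ) - (b : ℤ) + r : ℤ) : ℝ) ≤ ((S : ℤ) : ℝ) := by
        rw [e1, Int.cast_natCast]
        linarith
      exact_mod_cast this
    · rw [e1, ← hv, abs_le]
      constructor
      · linarith
      · linarith
  · rw [← hv, abs_le]
    have e2 : (((a : ℤ) - (b : ℤ) : ℤ) : ℝ) = (a : ℝ) - (b : ℝ) := by push_cast; ring
    rw [e2]
    have h6 : v * S ≤ w / c₀ + v := by
      have h7 := mul_le_mul_of_nonneg_left hS2 hv0.le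
      have h8 : v * (w / (c₀ * v) + 1) = w / c₀ + v := by
        field_simp
      linarith
    have h7 : (3 + 2 / c₀) * (w : ℝ) = 3 * w + 2 * (w / c₀) := by ring
    have h8 : 0 ≤ w / c₀ := by positivity
    have h9 : 0 ≤ v * S := by positivity
    rw [h7]
    constructor
    · linarith
    · linarith

/-- The constant of `hout`. -/
noncomputable def Del (A B c₀ c' : ℝ) : ℝ := c' * (min A (B - A) * min 1 (c₀ * A / (16 * (B - A))) / 2)

theorem Del_pos {A B c₀ c' : ℝ} (hA : 0 < A) (hAB : A < B) (hc₀ : 0 < c₀) (hc' : 0 < c') : 0 < Del A B c₀ c' := by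
  have : 0 < B - A := by linarith
  unfold Del
  positivity

theorem cells_out (hμ : Pool.Agent.W_7d29a1_h47.EM μ) {A B : ℝ}
    (hA : 0 < A) (hAB : A < B) {c₀ : ℝ} (hc₀ : 0 < c₀) {n w S : ℕ} {y₀ : ℤ} (hn : vA μ B n < 1 / 2)
    (hC : Cells μ A B c₀ n w S y₀) {N : ℕ} (hN : n ≤ N) (hN2 : N ≤ 2 * n) {ρ : ℝ} (hρ : 0 ≤ ρ) {z : ℤ}
    (hz : (1 / 2 + vA μ A n) * N + ρ * w ≤ z) (hzN : z ≤ N) {c' : ℝ} (hc' : 0 ≤ c') :
    Del A B c₀ c' * ρ ≤ c' / EE μ n * e μ 0 N z := by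
  obtain ⟨v, hv⟩ : ∃ v, v = vA μ A n := ⟨_, rfl⟩
  obtain ⟨v', hv'⟩ : ∃ v', v' = vA μ B n := ⟨_, rfl⟩
  have hlt : v < v' := by
    rw [hv, hv']
    exact vA_lt hμ hA.le hAB hn
  have hv0 : 0 < v := hv ▸ vA_pos hμ hA n
  have hE := one_le_EE (μ := μ) n
  have hBA : 0 < B - A := by linarith
  have hn1 : 1 ≤ n := by have := hC.S_le; have := hC.S_one; omega
  have hn0 : (0 : ℝ) < n := by exact_mod_cast hn1
  have hN0 : (0 : ℝ) < N := by
    have : 1 ≤ N := hn1.trans hN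
    exact_mod_cast this
  have hNr : (n : ℝ) ≤ N := by exact_mod_cast hN
  have hN2r : (N : ℝ) ≤ 2 * n := by exact_mod_cast hN2
  have hw0 : (0 : ℝ) ≤ w := Nat.cast_nonneg w
  rw [← hv] at hz
  have hz0 : 0 ≤ z := by
    have : (0 : ℝ) ≤ z := by
      have h1 : 0 ≤ (1 / 2 + v) * (N : ℝ) := by positivity
      have h2 : 0 ≤ ρ * w := mul_nonneg hρ hw0
      linarith
    exact_mod_cast this
  have hzr : (z : ℝ) ≤ N := by exact_mod_cast hzN
  obtain ⟨x, hx⟩ : ∃ x : ℝ, x = ((z : ℝ) - N / 2) / N := ⟨_, rfl⟩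
  have hxN : x * N = z - N / 2 := by rw [hx]; field_simp
  have hx1 : x ≤ 1 / 2 := by
    rw [hx, div_le_iff₀ hN0]
    linarith
  have hx0 : ρ * w / N ≤ x - v := by
    rw [div_le_iff₀ hN0]
    nlinarith
  have hxv : v ≤ x := by
    have : 0 ≤ ρ * w / N := by positivity
    linarith
  have h1 : N * J μ x ≤ e μ 0 N z := by
    have := J_le_e hμ (n := N) (y := z) (hn1.trans hN) hz0 hzN
    rwa [← hx] at this
  have hJ0 : 0 ≤ J μ x := J_nonneg hμ (abs_le.2 ⟨by linarith, hx1⟩)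
  have h2 := J_chord hμ hA hAB hn (x := x) (by rw [← hv]; exact hxv) hx1
  rw [← hv, ← hv'] at h2
  -- the width of the cells
  obtain ⟨q, hq⟩ : ∃ q : ℝ, q = min 1 (c₀ * A / (16 * (B - A))) := ⟨_, rfl⟩
  have hq0 : 0 < q := by rw [hq]; positivity
  have hsc : v' - v ≤ (B - A) / A * v := by
    have h3 := vA_scale hμ hA hAB.le n
    rw [← hv, ← hv'] at h3
    have h4 : B / A = 1 + (B - A) / A := by field_simp; ring
    rw [h4] at h3
    linarith
  have hw1 : q * (v' - v) * n ≤ w := by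
    refine le_trans ?_ hC.w_ge
    refine mul_le_mul_of_nonneg_right ?_ hn0.le
    rw [← hv, ← hv']
    refine le_min ?_ ?_
    · have h3 : q ≤ 1 := hq ▸ min_le_left _ _
      nlinarith
    · have h3 : q ≤ c₀ * A / (16 * (B - A)) := hq ▸ min_le_right _ _
      calc q * (v' - v) ≤ c₀ * A / (16 * (B - A)) * ((B - A) / A * v) :=
            mul_le_mul h3 hsc (by linarith) (by positivity)
        _ = c₀ / 16 * v := by field_simp
  have h3 : q / 2 * ρ * (v' - v) ≤ x - v := by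
    refine le_trans ?_ hx0
    rw [le_div_iff₀ hN0]
    have h4 : 0 ≤ q / 2 * ρ * (v' - v) := mul_nonneg (by positivity) (by linarith)
    calc q / 2 * ρ * (v' - v) * N ≤ q / 2 * ρ * (v' - v) * (2 * n) := mul_le_mul_of_nonneg_left hN2r h4
      _ = ρ * (q * (v' - v) * n) := by ring
      _ ≤ ρ * w := mul_le_mul_of_nonneg_left hw1 hρ
  obtain ⟨m, hm⟩ : ∃ m : ℝ, m = min A (B - A) := ⟨_, rfl⟩
  have hm0 : 0 < m := by rw [hm]; exact lt_min hA hBA
  rw [← hm] at h2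
  have h4 : m * EE μ n * (q / 2 * ρ) ≤ n * J μ x := by
    have h5 : m * EE μ n * (q / 2 * ρ * (v' - v)) ≤ n * J μ x * (v' - v) :=
      (mul_le_mul_of_nonneg_left h3 (by positivity)).trans h2
    have h6 : 0 < v' - v := by linarith
    rw [← mul_assoc] at h5
    exact le_of_mul_le_mul_right h5 h6
  have h5 : (n : ℝ) * J μ x ≤ N * J μ x := mul_le_mul_of_nonneg_right hNr hJ0
  have h6 : m * EE μ n * (q / 2 * ρ) ≤ e μ 0 N z := h4.trans (h5.trans h1)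
  have hE0 : 0 < EE μ n := by linarith
  unfold Del
  rw [← hm, ← hq]
  calc c' * (m * q / 2) * ρ = c' / EE μ n * (m * EE μ n * (q / 2 * ρ)) := by field_simp
    _ ≤ c' / EE μ n * e μ 0 N z := mul_le_mul_of_nonneg_left h6 (by positivity)

/-! ### The inputs -/

/-- `(in)` for the means (part of the frame `F_in`). -/
def MeanIn (μ : Measure ℝ) (C c₀ : ℝ) (n₀ : ℕ) : Prop :=
  ∀ n : ℕ, n₀ ≤ n → ∀ m : ℕ, m ≤ n → ∀ y : ℤ, 0 ≤ y → y ≤ m → |(y : ℝ) - m / 2| ≤ c₀ * vA μ 1 n * m + 1 →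
    e μ 0 m y ≤ C * EE μ n

/-- `(TAIL)` for the point to point weights (part of the frame `F_tail`). -/
def PtTail (μ : Measure ℝ) (C c : ℝ) (n₀ : ℕ) : Prop :=
  ∀ n : ℕ, n₀ ≤ n → ∀ N : ℕ, N ≤ 2 * n → ∀ z : ℤ, 0 ≤ z → z ≤ N →
    ∫ η, W μ 0 η 0 N z ^ (c / EE μ n) ∂(law μ) ≤ C * Real.exp (-(c / EE μ n * e μ 0 N z / 2))

private theorem rpow_jensen (hμ : Pool.Agent.W_7d29a1_h47.EM μ) {θ p : ℝ} (hθ : 0 ≤ θ) (hp0 : 0 ≤ p) (hp1 : p ≤ 1)
    (N : ℕ) (z : ℤ) :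
    ∫ η, W μ 0 η 0 N z ^ (θ * p) ∂(law μ) ≤ (∫ η, W μ 0 η 0 N z ^ θ ∂(law μ)) ^ p := by
  have hi : ∀ {t : ℝ}, 0 ≤ t → Integrable (fun η => W μ 0 η 0 N z ^ t) (law μ) := by
    intro t ht
    have h1 := WS_rpow_integrable (μ := μ) (s := 0) hμ 0 N {z} ht
    simpa [WS] using h1
  have hW : ∀ η : Env, 0 ≤ W μ 0 η 0 N z := fun η => W_nonneg _ _ _ _
  have h2 := (Real.concaveOn_rpow hp0 hp1).le_map_integral (μ := law μ)
    (f := fun η => W μ 0 η 0 N z ^ θ) ((Real.continuous_rpow_const hp0).continuousOn) isClosed_Ici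
    (Filter.Eventually.of_forall fun η => Real.rpow_nonneg (hW η) _) (hi hθ)
    ((hi (mul_nonneg hθ hp0)).congr (Filter.Eventually.of_forall fun η => Real.rpow_mul (hW η) _ _))
  refine le_trans (le_of_eq (integral_congr_ae (Filter.Eventually.of_forall fun η => ?_))) h2
  exact Real.rpow_mul (hW η) _ _

/-- A smaller exponent. -/
theorem PtTail.mono (hμ : Pool.Agent.W_7d29a1_h47.EM μ) {C c c' : ℝ} {n₀ : ℕ} (h : PtTail μ C c n₀) (hc' : 0 < c')
    (hcc : c' ≤ c) : PtTail μ (max 1 C) c' n₀ := by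
  intro n hn N hN z h0 h1
  have hE : 0 < EE μ n := by linarith [one_le_EE (μ := μ) n]
  have hc : 0 < c := by linarith
  have hp1 : c' / c ≤ 1 := by rwa [div_le_one hc]
  have hp0 : 0 < c' / c := by positivity
  have h2 := rpow_jensen (μ := μ) hμ (θ := c / EE μ n) (p := c' / c) (by positivity) hp0.le hp1 N z
  have h3 : c / EE μ n * (c' / c) = c' / EE μ n := by field_simp
  rw [h3] at h2
  refine h2.trans ?_
  have h4 := h n hn N hN z h0 h1
  have h5 : 0 ≤ ∫ η, W μ 0 η 0 N z ^ (c / EE μ n) ∂(law μ) :=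
    integral_nonneg fun η => Real.rpow_nonneg (W_nonneg _ _ _ _) _
  have h6 : 0 ≤ C := by
    have := h5.trans h4
    exact nonneg_of_mul_nonneg_left this (Real.exp_pos _)
  have h7 := Real.rpow_le_rpow h5 h4 hp0.le
  refine h7.trans ?_
  rw [Real.mul_rpow h6 (Real.exp_pos _).le, ← Real.exp_mul]
  have h8 : -(c / EE μ n * e μ 0 N z / 2) * (c' / c) = -(c' / EE μ n * e μ 0 N z / 2) := by
    field_simp
  rw [h8]
  refine mul_le_mul_of_nonneg_right ?_ (Real.exp_pos _).le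
  calc C ^ (c' / c) ≤ (max 1 C) ^ (c' / c) := Real.rpow_le_rpow h6 (le_max_right _ _) hp0.le
    _ ≤ (max 1 C) ^ (1 : ℝ) := Real.rpow_le_rpow_of_exponent_le (le_max_left _ _) hp1
    _ = max 1 C := Real.rpow_one _

/-- The direction `v_n` is not decaying faster than `θ n J(v_n)` in the time `n`. -/
theorem not_Dec (hμ : Pool.Agent.W_7d29a1_h47.EM μ) (hnd : Pool.Agent.W_7d29a1_h47.Nondeg μ) {v θ : ℝ}
    (h0 : 0 < v) (h1 : v < 1 / 2) (hθ : 0 < θ) : ¬ Dec μ 0 θ (1 / 2 + v) (θ * (2 * J μ v)) := by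
  have hJ := J_pos hμ hnd h0 h1.le
  have hlarge : ∀ᶠ N : ℕ in atTop, 2 ≤ (1 / 2 - v) * (N : ℝ) := by
    have : Tendsto (fun n : ℕ => (1 / 2 - v) * (n : ℝ)) atTop atTop :=
      tendsto_natCast_atTop_atTop.const_mul_atTop (by linarith)
    exact this.eventually_ge_atTop 2
  obtain ⟨N, hN1, hN2, hN3⟩ := ((e_up' hμ hnd h0.le h1 (half_pos hJ)).and
    (hlarge.and (eventually_ge_atTop 1))).exists
  intro hD
  have hN0 : (0 : ℝ) < N := by exact_mod_cast hN3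
  obtain ⟨z, hz⟩ : ∃ z : ℤ, z = ⌈(1 / 2 + v) * (N : ℝ)⌉ := ⟨_, rfl⟩
  have hz1 : (1 / 2 + v) * (N : ℝ) ≤ z := hz ▸ Int.le_ceil _
  have hz2 : (z : ℝ) < (1 / 2 + v) * (N : ℝ) + 1 := hz ▸ Int.ceil_lt_add_one _
  have hz0 : 0 ≤ z := by
    have : (0 : ℝ) ≤ z := le_trans (by positivity) hz1
    exact_mod_cast this
  have hzN : z ≤ N := by
    have : (z : ℝ) ≤ ((N : ℤ) : ℝ) := by
      rw [Int.cast_natCast]
      linarith
    exact_mod_cast this
  have hzC : z ∈ Cn N v := by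
    rw [mem_Cn]
    refine ⟨hz0, hzN, ?_⟩
    rw [abs_le]
    have : 0 ≤ v * N := by positivity
    constructor <;> linarith
  have he := hN1 z hzC
  have h2 : Real.exp (-(θ * e μ 0 N z)) ≤ ∫ η, W μ 0 η 0 N z ^ θ ∂(law μ) := by
    have hS : Sub fun η => (-θ) * X μ 0 η 0 N z := (Sub_X (μ := μ) (s := 0) 0 hz0 hzN).const_mul (-θ)
    have h2 := hS.exp_integral_le hμ
    rw [integral_const_mul, integral_X] at h2
    have h3 : ∀ η : Env, Real.exp (-θ * X μ 0 η 0 N z) = W μ 0 η 0 N z ^ θ := by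
      intro η
      rw [Real.rpow_def_of_pos (W_pos η 0 hz0 hzN)]
      congr 1
      unfold X
      ring
    simp only [h3] at h2
    refine le_trans (Real.exp_le_exp.2 ?_) h2
    linarith
  have h3 : ∫ η, W μ 0 η 0 N z ^ θ ∂(law μ) ≤ ∫ η, Fv μ 0 η 0 N (1 / 2 + v) ^ θ ∂(law μ) := by
    refine integral_mono ?_ (Fv_rpow_integrable hμ _ _ _ hθ.le) fun η => ?_
    · have h1 := WS_rpow_integrable (μ := μ) (s := 0) hμ 0 N {z} hθ.le
      simpa [WS] using h1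
    · refine Real.rpow_le_rpow (W_nonneg _ _ _ _) ?_ hθ.le
      unfold Fv WS
      refine Finset.single_le_sum (f := fun y => W μ 0 η 0 N y) (fun y _ => W_nonneg _ _ _ _) ?_
      rw [Finset.mem_filter, Finset.mem_Icc]
      exact ⟨⟨hz0, hzN⟩, hz1⟩
  have h4 := hD N hN3
  have h5 := Real.exp_le_exp.1 (h2.trans (h3.trans h4))
  have h6 : N * (θ * (2 * J μ v)) ≤ θ * ((J μ v + J μ v / 2) * N) := by
    have := mul_le_mul_of_nonneg_left he hθ.le
    linarith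
  have h7 : 0 < N * (θ * J μ v) := by positivity
  nlinarith

/-! ### The edges -/

/-- The data at the scale `n`: the hypotheses of row 622 hold for the times `N = S + L' + S`, `n ≤ N ≤ 2 n`. -/
theorem edge_data (hμ : Pool.Agent.W_7d29a1_h47.EM μ) (hnd : Pool.Agent.W_7d29a1_h47.Nondeg μ) {A B : ℝ}
    (hA : 0 < A) (hAB : A < B) (hEE : Tendsto (EE μ) atTop atTop) {C c₀ : ℝ} {n₀ : ℕ} (hc₀ : 0 < c₀)
    (hin : MeanIn μ C c₀ n₀) {C' c : ℝ} {n₁ : ℕ} (hc : 0 < c) (htail : PtTail μ C' c n₁) :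
    ∃ c' C₁ Δ κ : ℝ, 0 < c' ∧ c' ≤ 1 ∧ 0 ≤ C₁ ∧ 0 < Δ ∧ 0 ≤ κ ∧ ∀ᶠ n : ℕ in atTop, ∃ (w S : ℕ) (y₀ : ℤ),
      (w : ℝ) ≤ 2 * ((vA μ B n - vA μ A n) * n) ∧ 4 * S ≤ n ∧ ∀ L' : ℕ, 1 ≤ L' → n ≤ S + L' + S →
        S + L' + S ≤ 2 * n → EdgeHyp μ 0 (c' / EE μ n) (1 / 2 + vA μ A n) κ Δ C₁ w S L' y₀ := by
  obtain ⟨a, ha⟩ : ∃ a : ℝ, a = min 1 (c₀ / max 1 A) := ⟨_, rfl⟩
  have hmax : (0 : ℝ) < max 1 A := lt_of_lt_of_le one_pos (le_max_left _ _)
  have ha0 : 0 < a := by rw [ha]; positivity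
  have ha1 : a ≤ 1 := ha ▸ min_le_left _ _
  obtain ⟨c', hc'⟩ : ∃ c' : ℝ, c' = min c (1 / max 1 C) := ⟨_, rfl⟩
  have hmC : (0 : ℝ) < max 1 C := lt_of_lt_of_le one_pos (le_max_left _ _)
  have hc'0 : 0 < c' := by rw [hc']; positivity
  have hc'c : c' ≤ c := hc' ▸ min_le_left _ _
  have hc'C : c' * max 1 C ≤ 1 := by
    have : c' ≤ 1 / max 1 C := hc' ▸ min_le_right _ _
    rwa [le_div_iff₀ hmC] at this
  have hc'1 : c' ≤ 1 := by
    have : c' * 1 ≤ c' * max 1 C := mul_le_mul_of_nonneg_left (le_max_left _ _) hc'0.le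
    linarith
  have ht := htail.mono hμ hc'0 hc'c
  refine ⟨c', max 1 C', Del A B a c', 3 + 2 / a, hc'0, hc'1, le_trans zero_le_one (le_max_left _ _),
    Del_pos hA hAB ha0 hc'0, by positivity, ?_⟩
  filter_upwards [exists_cells hμ hnd hA hAB hEE ha0 ha1, eventually_ge_atTop n₀, eventually_ge_atTop n₁,
    vA_lt_half hμ hnd (A := B) (hA.le.trans hAB.le)] with n hcells hn0 hn1 hB
  obtain ⟨w, S, y₀, hC⟩ := hcells
  have hE := one_le_EE (μ := μ) n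
  have hE0 : 0 < EE μ n := by linarith
  have hn1' : 1 ≤ n := by have := hC.S_le; have := hC.S_one; omega
  have hnr : (0 : ℝ) < n := by exact_mod_cast hn1'
  refine ⟨w, S, y₀, ?_, hC.S_le, fun L' hL1 hN hN2 => ⟨by positivity, ?_, hC.w_one, hL1, ?_, hC.shift, ?_, ?_⟩⟩
  · refine hC.w_le.trans (mul_le_mul_of_nonneg_left ?_ two_pos.le)
    exact mul_le_mul_of_nonneg_right (min_le_left _ _) hnr.le
  · rw [div_le_one hE0]
    linarith
  · intro r hr0 hrw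
    obtain ⟨h1, h2, h3⟩ := hC.cell r hr0 hrw
    refine ⟨h1, h2, ?_⟩
    have hS : S ≤ n := by have := hC.S_le; omega
    have hv : a * vA μ A n ≤ c₀ * vA μ 1 n := by
      have h4 : vA μ A n ≤ max 1 A * vA μ 1 n := by
        rcases le_total A 1 with h | h
        · rw [max_eq_left h, one_mul]
          exact vA_mono hμ hA.le h n
        · rw [max_eq_right h]
          have := vA_scale hμ one_pos h n
          rwa [div_one] at this
      have h5 : a ≤ c₀ / max 1 A := ha ▸ min_le_right _ _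
      have h6 := vA_nonneg (μ := μ) hμ hA.le n
      calc a * vA μ A n ≤ c₀ / max 1 A * (max 1 A * vA μ 1 n) :=
            mul_le_mul h5 h4 h6 (by positivity)
        _ = c₀ * vA μ 1 n := by field_simp
    have h4 := hin n hn0 S hS (y₀ + r) h1 h2 (h3.trans (by
      have := mul_le_mul_of_nonneg_right hv (Nat.cast_nonneg (α := ℝ) S)
      linarith))
    have h5 : e μ 0 S (y₀ + r) ≤ max 1 C * EE μ n :=
      h4.trans (mul_le_mul_of_nonneg_right (le_max_right _ _) hE0.le)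
    calc c' / EE μ n * e μ 0 S (y₀ + r) ≤ c' / EE μ n * (max 1 C * EE μ n) :=
          mul_le_mul_of_nonneg_left h5 (by positivity)
      _ = c' * max 1 C := by field_simp
      _ ≤ 1 := hc'C
  · exact fun z h0 h1 => ht n hn1 _ hN2 z h0 h1
  · exact fun z ρ hρ hz hzN => cells_out hμ hA hAB ha0 hB hC hN hN2 (by linarith) hz hzN hc'0.le

/-- **(IN) at every scale** (row 622). -/
theorem edgeIn_of (hμ : Pool.Agent.W_7d29a1_h47.EM μ) (hnd : Pool.Agent.W_7d29a1_h47.Nondeg μ) {A B : ℝ}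
    (hA : 0 < A) (hAB : A < B) (hEE : Tendsto (EE μ) atTop atTop) {C c₀ : ℝ} {n₀ : ℕ} (hc₀ : 0 < c₀)
    (hin : MeanIn μ C c₀ n₀) {C' c : ℝ} {n₁ : ℕ} (hc : 0 < c) (htail : PtTail μ C' c n₁) : EdgeIn μ A B := by
  obtain ⟨c', C₁, Δ, κ, hc'0, hc'1, hC₁, hΔ, hκ, hdata⟩ := edge_data hμ hnd hA hAB hEE hc₀ hin hc htail
  obtain ⟨C₂, K, hC₂, hK, hI⟩ := inner (A := 2 * c' * A) (by positivity) hC₁ hΔ hκ
  obtain ⟨n₂, hn₂⟩ := eventually_atTop.1 (hdata.and ((vA_lt_half hμ hnd (A := B) (hA.le.trans hAB.le)).and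
    (eventually_ge_atTop 1)))
  refine ⟨2 * C₂, max 1 (K / c'), n₂, by positivity, le_max_left _ _, fun n hn y hy => ?_⟩
  obtain ⟨⟨w, S, y₀, hw2, hS, hH⟩, hB, hn1⟩ := hn₂ n hn
  have hE := one_le_EE (μ := μ) n
  have hE0 : 0 < EE μ n := by linarith
  have hnr : (0 : ℝ) < n := by exact_mod_cast hn1
  have hAh : vA μ A n < 1 / 2 := (vA_lt hμ hA.le hAB hB).trans hB
  have hv0 := vA_pos hμ hA n
  have hθ : 0 < c' / EE μ n := by positivity
  obtain ⟨L', hL'⟩ : ∃ L' : ℕ, S + L' + S = n := ⟨n - 2 * S, by omega⟩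
  have hLr : (L' : ℝ) ≤ n := by
    have : L' ≤ n := by omega
    exact_mod_cast this
  have h0 := hI μ 0 hμ (c' / EE μ n) (1 / 2 + vA μ A n) (c' / EE μ n * (2 * J μ (vA μ A n))) w S L' y₀
    (hH L' (by omega) hL'.ge (by omega))
    (by
      have h1 := vA_eq' hμ hA.le hAh
      have hJ := J_nonneg hμ (v := vA μ A n) (abs_le.2 ⟨by linarith, hAh.le⟩)
      have h2 : 0 ≤ c' / EE μ n * (2 * J μ (vA μ A n)) := by positivity
      calc c' / EE μ n * (2 * J μ (vA μ A n)) * (L' : ℝ)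
          ≤ c' / EE μ n * (2 * J μ (vA μ A n)) * n := mul_le_mul_of_nonneg_left hLr h2
        _ = c' / EE μ n * 2 * (n * J μ (vA μ A n)) := by ring
        _ = 2 * c' * A := by rw [h1]; field_simp)
    (not_Dec hμ hnd hv0 hAh hθ)
  rw [hL'] at h0
  obtain ⟨z, hz0, hz1, hz2, hz3⟩ := h0
  have h1 : e μ 0 n z ≤ K / c' * EE μ n := by
    rw [div_mul_eq_mul_div, le_div_iff₀ hc'0]
    rw [div_mul_eq_mul_div, div_le_iff₀ hE0] at hz3
    linarith
  have h2 : |(y : ℝ) - n / 2| ≤ (z : ℝ) - n / 2 := by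
    refine hy.trans ?_
    have h3 : C₂ * w ≤ C₂ * (2 * ((vA μ B n - vA μ A n) * n)) := mul_le_mul_of_nonneg_left hw2 hC₂
    nlinarith
  have h3 : |2 * y - (n : ℤ)| ≤ |2 * z - n| := by
    have h4 : |2 * (y : ℝ) - n| ≤ |2 * (z : ℝ) - n| := by
      have h5 : 2 * (y : ℝ) - n = 2 * ((y : ℝ) - n / 2) := by ring
      have h6 : 2 * (z : ℝ) - n = 2 * ((z : ℝ) - n / 2) := by ring
      rw [h5, h6, abs_mul, abs_mul]
      exact mul_le_mul_of_nonneg_left (h2.trans (le_abs_self _)) (abs_nonneg _)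
    have h5 : ((|2 * y - (n : ℤ)| : ℤ) : ℝ) ≤ ((|2 * z - (n : ℤ)| : ℤ) : ℝ) := by
      push_cast
      exact h4
    exact_mod_cast h5
  refine (e_le_of_center hμ hz0 hz1 h3).trans (h1.trans ?_)
  exact mul_le_mul_of_nonneg_right (le_max_right _ _) hE0.le

/-- **(WALL) at every scale** (row 622): paths which cross the slab of length `n` from the left of `x₀` to the right of the line of
slope `v_n` by `a y_n v_n n`. -/
def EdgeWall (μ : Measure ℝ) (A B : ℝ) : Prop :=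
  ∃ (C c : ℝ) (n₀ : ℕ), 0 ≤ C ∧ 0 < c ∧ ∀ n : ℕ, n₀ ≤ n → ∀ (a : ℝ) (t x₀ : ℤ), 0 ≤ a →
    (law μ).real {η | ∃ x x' : ℤ, x ≤ x₀ ∧
      (x₀ : ℝ) + n / 2 + (vA μ A n + a * (vA μ B n - vA μ A n)) * n ≤ x' ∧
      Real.exp (-(c * a * EE μ n)) ≤ W μ 0 η (t, x) n (x' - x)} ≤ C * Real.exp (-(c * a))

theorem edgeWall_of (hμ : Pool.Agent.W_7d29a1_h47.EM μ) (hnd : Pool.Agent.W_7d29a1_h47.Nondeg μ) {A B : ℝ}
    (hA : 0 < A) (hAB : A < B) (hEE : Tendsto (EE μ) atTop atTop) {C c₀ : ℝ} {n₀ : ℕ} (hc₀ : 0 < c₀)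
    (hin : MeanIn μ C c₀ n₀) {C' c : ℝ} {n₁ : ℕ} (hc : 0 < c) (htail : PtTail μ C' c n₁) : EdgeWall μ A B := by
  obtain ⟨c', C₁, Δ, κ, hc'0, hc'1, hC₁, hΔ, hκ, hdata⟩ := edge_data hμ hnd hA hAB hEE hc₀ hin hc htail
  obtain ⟨C₂, c₂, hC₂, hc₂, hW⟩ := wall hC₁ hΔ hκ
  obtain ⟨n₂, hn₂⟩ := eventually_atTop.1 (hdata.and (eventually_ge_atTop 1))
  refine ⟨C₂, c₂ / 2, n₂, hC₂, by positivity, fun n hn a t x₀ ha => ?_⟩
  obtain ⟨⟨w, S, y₀, hw2, hS, hH⟩, hn1⟩ := hn₂ n hn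
  have hE := one_le_EE (μ := μ) n
  have hE0 : 0 < EE μ n := by linarith
  have hnr : (0 : ℝ) < n := by exact_mod_cast hn1
  obtain ⟨x₁, hx₁⟩ : ∃ x₁ : ℤ, x₁ = ⌈(n : ℝ) / 2 + (vA μ A n + a * (vA μ B n - vA μ A n)) * n⌉ := ⟨_, rfl⟩
  have hx₂ : (n : ℝ) / 2 + (vA μ A n + a * (vA μ B n - vA μ A n)) * n ≤ x₁ := hx₁ ▸ Int.le_ceil _
  have h3 := hW μ 0 hμ (c' / EE μ n) (1 / 2 + vA μ A n) w S n y₀ (hH n hn1 (by omega) (by omega))
    (a / 2) x₁ t x₀ (by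
      have h4 := mul_le_mul_of_nonneg_left hw2 (show 0 ≤ a / 2 by linarith)
      nlinarith)
  have h4 : (law μ).real {η | ∃ x x' : ℤ, x ≤ x₀ ∧
        (x₀ : ℝ) + n / 2 + (vA μ A n + a * (vA μ B n - vA μ A n)) * n ≤ x' ∧
        Real.exp (-(c₂ / 2 * a * EE μ n)) ≤ W μ 0 η (t, x) n (x' - x)} ≤
      (law μ).real {η | ∃ x x' : ℤ, x ≤ x₀ ∧ x₀ + x₁ ≤ x' ∧
        Real.exp (-(c₂ * (a / 2) / (c' / EE μ n))) ≤ W μ 0 η (t, x) n (x' - x)} := by
    refine measureReal_mono ?_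
    rintro η ⟨x, x', hx, hx', hxx⟩
    refine ⟨x, x', hx, ?_, le_trans (Real.exp_le_exp.2 (neg_le_neg ?_)) hxx⟩
    · have h5 : x₁ ≤ x' - x₀ := by
        rw [hx₁, Int.ceil_le]
        push_cast
        linarith
      omega
    · rw [div_div_eq_mul_div, le_div_iff₀ hc'0]
      have : 0 ≤ c₂ / 2 * a * EE μ n := by positivity
      nlinarith
  refine h4.trans (h3.trans (le_of_eq ?_))
  have h5 : c₂ * (a / 2) = c₂ / 2 * a := by ring
  rw [h5]

end Pool.Agent.W_7d29a1_G
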