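import Pool.Agent.W_7d29a1_F.MainV
import Pool.Agent.W_7d29a1_qs.Ded

/-!
MP_7d29a1_pr, track G: from the power convexity of the free energy at the tilt `0` to the exponents of the
problem (`ν < 1`, `χ > 0`) and to the rate function.
-/

set_option autoImplicit false

namespace Pool.Agent.W_7d29a1_G

open MeasureTheory ProbabilityTheory Filter Topology Set
open Pool.Agent.W_MP_7d29a1_pr (Site nu IID)
open Pool.Agent.W_7d29a1_h46 (nuT chiT tv Expd)
open Pool.Agent.W_7d29a1_h47 (LamN EM_of Nondeg_of map_toEnv tendsto_logZ log_endMGF endMGF endP Lam)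

/-- A power bound of the free energy at `0` is a power bound of its Legendre transform. -/
lemma legendre_pow {lam : ℝ → ℝ} {a C : ℝ} (ha : 0 < a) (hC : 1 ≤ C)
    (hlam : ∀ h : ℝ, |h| ≤ 1 → lam h ≤ C * |h| ^ (1 + a)) {v j : ℝ} (hv : |v| < 1)
    (hj : IsLUB (Set.range fun h => h * v - lam h) j) :
    (1 / (2 * C)) ^ (1 / a) / 2 * |v| ^ (1 + 1 / a) ≤ j := by
  rcases eq_or_ne v 0 with rfl | hv0
  · have h1 : lam 0 ≤ 0 := by
      have h2 := hlam 0 (by simp)
      rwa [abs_zero, Real.zero_rpow (by linarith), mul_zero] at h2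
    have h2 : 0 * 0 - lam 0 ≤ j := hj.1 ⟨0, rfl⟩
    rw [abs_zero, Real.zero_rpow (by positivity), mul_zero]
    linarith
  have hvp : 0 < |v| := abs_pos.2 hv0
  set t : ℝ := (|v| / (2 * C)) ^ (1 / a) with ht
  have hb : 0 < |v| / (2 * C) := by positivity
  have hb1 : |v| / (2 * C) ≤ 1 := by
    rw [div_le_one (by positivity)]
    linarith
  have ht0 : 0 < t := Real.rpow_pos_of_pos hb _
  have ht1 : t ≤ 1 := Real.rpow_le_one hb.le hb1 (by positivity)
  have hta : t ^ a = |v| / (2 * C) := by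
    rw [ht, ← Real.rpow_mul hb.le, one_div_mul_cancel ha.ne', Real.rpow_one]
  have hteq : t = (1 / (2 * C)) ^ (1 / a) * |v| ^ (1 / a) := by
    rw [ht, div_eq_mul_one_div, mul_comm, Real.mul_rpow (by positivity) (abs_nonneg v)]
  set h : ℝ := if 0 ≤ v then t else -t with hh
  have hhabs : |h| = t := by
    rw [hh]
    split_ifs
    · exact abs_of_pos ht0
    · rw [abs_neg]
      exact abs_of_pos ht0
  have hhv : h * v = t * |v| := by
    rw [hh]
    split_ifs with hs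
    · rw [abs_of_nonneg hs]
    · rw [abs_of_neg (not_le.1 hs)]
      ring
  have h1 : h * v - lam h ≤ j := hj.1 ⟨h, rfl⟩
  have h2 := hlam h (by rw [hhabs]; exact ht1)
  have h3 : |h| ^ (1 + a) = t * (|v| / (2 * C)) := by
    rw [hhabs, Real.rpow_add ht0, Real.rpow_one, hta]
  have h4 : C * (t * (|v| / (2 * C))) = t * |v| / 2 := by
    field_simp
  rw [h3, h4] at h2
  rw [hhv] at h1
  have h5 : |v| ^ (1 + 1 / a) = |v| * |v| ^ (1 / a) := by
    rw [Real.rpow_add hvp, Real.rpow_one]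
  have h6 : (1 / (2 * C)) ^ (1 / a) / 2 * |v| ^ (1 + 1 / a) = t * |v| / 2 := by
    rw [h5, hteq]
    ring
  rw [h6]
  linarith

/-- The exponents of the problem from the power convexity of the free energy at the tilt `0`. -/
theorem exponents
    (hE : ∀ μ : Measure ℝ, Pool.Agent.W_7d29a1_h47.EM μ → Pool.Agent.W_7d29a1_h47.Nondeg μ →
      IsProbabilityMeasure μ → ∃ α : ℝ, 0 < α ∧ Expd (Lam μ) α 0 0)
    {Ω : Type*} [MeasurableSpace Ω] (P : Measure Ω) [IsProbabilityMeasure P]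
    (ω : ℕ × ℤ → Ω → ℝ) (hmeas : ∀ p, Measurable (ω p)) (hindep : iIndepFun ω P)
    (hident : ∀ p q, IdentDistrib (ω p) (ω q) P P) (hnc : ¬ ∃ c : ℝ, ∀ᵐ x ∂P, ω (0, 0) x = c)
    (hexp : ∀ b : ℝ, Integrable (fun x => Real.exp (b * ω (0, 0) x)) P) {β : ℝ} (hβ : 0 < β) :
    ∃ a : ℝ, 0 < a ∧
      nu P β (fun p : ℕ × Site 1 => ω (p.1, p.2 0)) ≤ 1 / 2 + 1 / (2 * (1 + a)) ∧
      a / (4 * (1 + a)) ≤ chiT P β (fun p : ℕ × Site 1 => ω (p.1, p.2 0)) 0 ∧
      ∃ (lam J : ℝ → ℝ) (c C : ℝ), 0 < c ∧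
        (∀ h, ∀ᵐ x ∂P, Tendsto (fun n : ℕ => Real.log (endMGF β h (fun p => ω p x) n) / n) atTop
          (𝓝 (lam h))) ∧
        (∀ v, |v| < 1 → ∀ y : ℕ → ℤ, (∀ n, (y n - n) % 2 = 0) →
          Tendsto (fun n : ℕ => (y n : ℝ) / n) atTop (𝓝 v) →
          ∀ᵐ x ∂P, Tendsto (fun n : ℕ => -Real.log (endP β (fun p => ω p x) n (y n)) / n) atTop
            (𝓝 (J v))) ∧
        (∀ h, |h| ≤ 1 → lam h ≤ C * |h| ^ (1 + a)) ∧
        ∀ v, |v| < 1 → c * |v| ^ (1 + 1 / a) ≤ J v := by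
  obtain ⟨⟨lam, J, -, -, -, -, -, h4, -, h6, h7, -⟩, -⟩ :=
    Pool.Agent.W_7d29a1_F.main_FV P ω hmeas hindep hident hnc hexp hβ
  obtain ⟨μ, hμdef⟩ : ∃ μ : Measure ℝ, μ = P.map fun x => β * ω (0, 0) x := ⟨_, rfl⟩
  have hm0 : Measurable fun x => β * ω (0, 0) x := (hmeas _).const_mul β
  have hprob : IsProbabilityMeasure μ := by
    rw [hμdef]
    exact Measure.isProbabilityMeasure_map hm0.aemeasurable
  have hμ : Pool.Agent.W_7d29a1_h47.EM μ := by
    rw [hμdef]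
    exact EM_of (hmeas _) hexp β
  have hnd : Pool.Agent.W_7d29a1_h47.Nondeg μ := by
    rw [hμdef]
    exact Nondeg_of (hmeas _) hnc hβ
  have hmp := map_toEnv hmeas hindep hident β
  rw [← hμdef] at hmp
  have hid : lam = LamN μ := by
    funext h
    have g1 := hmp.quasiMeasurePreserving.ae (tendsto_logZ hμ h)
    have g2 := hmp.quasiMeasurePreserving.ae (tendsto_logZ hμ 0)
    obtain ⟨x, hx1, hx2, hx3⟩ := (g1.and (g2.and (h4 h))).exists
    refine tendsto_nhds_unique hx3 ((hx1.sub hx2).congr fun n => ?_)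
    rw [log_endMGF, sub_div]
  obtain ⟨a, ha, hEx⟩ := hE μ hμ hnd hprob
  -- the exponents
  have hmeas' : ∀ p : ℕ × Site 1, Measurable (ω (p.1, p.2 0)) := fun p => hmeas _
  have hident' : ∀ p q : ℕ × Site 1, IdentDistrib (ω (p.1, p.2 0)) (ω (q.1, q.2 0)) P P :=
    fun p q => hident _ _
  have hindep' : iIndepFun (fun p : ℕ × Site 1 => ω (p.1, p.2 0)) P := by
    refine hindep.precomp (g := fun p : ℕ × Site 1 => (p.1, p.2 0)) ?_
    rintro ⟨i, y⟩ ⟨j, z⟩ h
    simp only [Prod.mk.injEq] at h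
    refine Prod.ext h.1 (funext fun k => ?_)
    rw [Subsingleton.elim k 0]
    exact h.2
  set ρ : Measure ℝ := P.map (ω (0, 0)) with hρ
  have : IsProbabilityMeasure ρ := Measure.isProbabilityMeasure_map (hmeas _).aemeasurable
  have hω : IID P ρ (fun p : ℕ × Site 1 => ω (p.1, p.2 0)) :=
    ⟨hmeas', hindep', fun p => (hident _ _).map_eq⟩
  have hnc' : ∀ c : ℝ, ρ {c} ≠ 1 := by
    intro c hc
    apply hnc
    refine ⟨c, ?_⟩
    rw [hρ, Measure.map_apply (hmeas _) (measurableSet_singleton c)] at hc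
    have h1 : MeasurableSet (ω (0, 0) ⁻¹' {c}) := hmeas _ (measurableSet_singleton c)
    exact (prob_compl_eq_zero_iff h1).2 hc
  have hexp' : ∀ b : ℝ, Integrable (fun t => Real.exp (b * t)) ρ := by
    intro b
    rw [hρ, integrable_map_measure (by fun_prop) (hmeas _).aemeasurable]
    exact hexp b
  have hμρ : ρ.map (fun t => β * t) = μ := by
    rw [hμdef, hρ, Measure.map_map (by fun_prop) (hmeas _)]
    rfl
  have hEx' : Expd (Lam (ρ.map fun t => β * t)) a 0 0 := by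
    rw [hμρ]
    exact hEx
  have hnc2 := Pool.Agent.W_7d29a1_qs.nu_chi_of_expd (β := β) hω hnc' hβ hexp' (h := 0) (v := 0) ha hEx'
  rw [Pool.Agent.W_7d29a1_qs.tv_zero', Pool.Agent.W_7d29a1_h46.nuT_zero] at hnc2
  refine ⟨a, ha, hnc2.1, hnc2.2, lam, J, ?_⟩
  obtain ⟨C, hC⟩ := hEx
  have hlam : ∀ h : ℝ, |h| ≤ 1 → lam h ≤ max C 1 * |h| ^ (1 + a) := by
    intro h hh
    have h1 := hC h hh
    rw [zero_add, zero_mul, add_zero] at h1
    have h2 : lam h = Lam μ h - Lam μ 0 := by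
      rw [hid]
      rfl
    have h3 : C * |h| ^ (1 + a) ≤ max C 1 * |h| ^ (1 + a) :=
      mul_le_mul_of_nonneg_right (le_max_left _ _) (by positivity)
    linarith
  refine ⟨(1 / (2 * max C 1)) ^ (1 / a) / 2, max C 1, by positivity, h4, h7, hlam, fun v hv => ?_⟩
  exact legendre_pow ha (le_max_right _ _) hlam hv (h6 v hv)

end Pool.Agent.W_7d29a1_G
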