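import Pool.Agent.W_7d29a1_G.Unit2b
import Pool.Agent.W_7d29a1_F.Iface

/-!
MP_7d29a1_pr, track G, the unit: `Eb n ≥ c log n` and the consequences of the abstract frame `FrA`.
-/

namespace Pool.Agent.W_7d29a1_G

open MeasureTheory ProbabilityTheory Filter Topology Pool.Agent.W_7d29a1_F Pool.Agent.W_7d29a1_g

variable {μ : Measure ℝ} [IsProbabilityMeasure μ]

omit [IsProbabilityMeasure μ] in
theorem vn_eq (n : ℕ) : vn μ n = avs (An μ) (fun v => J μ (2 * v)) n := rfl

omit [IsProbabilityMeasure μ] in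
theorem Es_eq (n : ℕ) : Es μ n = aEs (An μ) (fun v => J μ (2 * v)) n := rfl

omit [IsProbabilityMeasure μ] in
theorem Eb_eq (n : ℕ) : Eb μ n = aEb (An μ) (fun v => J μ (2 * v)) n := rfl

omit [IsProbabilityMeasure μ] in
theorem vb_eq (n : ℕ) : vb μ n = avb (An μ) (fun v => J μ (2 * v)) n := rfl

private theorem amgm {ι : Type*} (A : Finset ι) (hA : A.Nonempty) (w : ι → ℝ)
    (hw : ∀ i ∈ A, 0 < w i) :
    Real.log A.card + (∑ i ∈ A, Real.log (w i)) / A.card ≤ Real.log (∑ i ∈ A, w i) := by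
  have hc : (0 : ℝ) < A.card := by exact_mod_cast hA.card_pos
  have h1 := strictConcaveOn_log_Ioi.concaveOn.le_map_sum (t := A) (w := fun _ => 1 / (A.card : ℝ))
    (p := w) (fun _ _ => by positivity) (by
      rw [Finset.sum_const, nsmul_eq_mul]
      field_simp) (fun i hi => hw i hi)
  simp only [smul_eq_mul, ← Finset.mul_sum] at h1
  have h2 : 0 < ∑ i ∈ A, w i := Finset.sum_pos hw hA
  rw [Real.log_mul (by positivity) h2.ne', one_div, Real.log_inv] at h1
  rw [div_eq_inv_mul]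
  linarith

/-- A set of displacements of mean cost at most `c` has at most `exp c` elements. -/
theorem log_card_le (hμ : Pool.Agent.W_7d29a1_h47.EM μ) (s : ℝ) {n : ℕ} {A : Finset ℤ} (hne : A.Nonempty)
    (hA : ∀ y ∈ A, 0 ≤ y ∧ y ≤ n) {c : ℝ} (hc : ∀ y ∈ A, e μ s n y ≤ c) : Real.log A.card ≤ c := by
  have hcard0 : (0 : ℝ) < A.card := by exact_mod_cast hne.card_pos
  have hpt : ∀ η : Env, Real.log A.card - (∑ y ∈ A, X μ s η 0 n y) / A.card ≤ V μ s η 0 n := by
    intro η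
    have hw : ∀ y ∈ A, 0 < W μ s η 0 n y := fun y hy => W_pos η 0 (hA y hy).1 (hA y hy).2
    have h1 := amgm A hne (fun y => W μ s η 0 n y) hw
    have h2 : ∑ y ∈ A, Real.log (W μ s η 0 n y) = -∑ y ∈ A, X μ s η 0 n y := by
      rw [← Finset.sum_neg_distrib]
      refine Finset.sum_congr rfl fun y _ => ?_
      unfold X
      ring
    rw [h2, neg_div] at h1
    have h3 : Real.log (∑ y ∈ A, W μ s η 0 n y) ≤ V μ s η 0 n := by
      have h4 := WS_le_exp_V (μ := μ) (s := s) η 0 n A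
      have h5 : 0 < ∑ y ∈ A, W μ s η 0 n y := Finset.sum_pos hw hne
      unfold WS at h4
      rw [← Real.log_exp (V μ s η 0 n)]
      exact Real.log_le_log h5 h4
    linarith
  have hiX : ∀ y ∈ A, Integrable (fun η => X μ s η 0 n y) (law μ) := fun y hy =>
    (Sub_X 0 (hA y hy).1 (hA y hy).2).integrable hμ
  have hiS : Integrable (fun η => ∑ y ∈ A, X μ s η 0 n y) (law μ) :=
    integrable_finsetSum A hiX
  have hint : ∫ η, (Real.log A.card - (∑ y ∈ A, X μ s η 0 n y) / A.card) ∂(law μ) ≤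
      ∫ η, V μ s η 0 n ∂(law μ) :=
    integral_mono ((integrable_const (Real.log A.card)).sub (hiS.div_const _))
      ((Sub_V 0 n).integrable hμ) hpt
  have h6 : ∫ η, (Real.log A.card - (∑ y ∈ A, X μ s η 0 n y) / A.card) ∂(law μ) =
      Real.log A.card - (∑ y ∈ A, e μ s n y) / A.card := by
    rw [integral_sub (integrable_const _) (hiS.div_const _), integral_div,
      integral_finsetSum A hiX, integral_const]
    simp only [probReal_univ, one_smul]
    rfl
  rw [h6] at hint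
  have h7 := integral_V_nonpos hμ s n
  have h8 : ∑ y ∈ A, e μ s n y ≤ A.card * c := by
    have := Finset.sum_le_card_nsmul A (fun y => e μ s n y) c hc
    rwa [nsmul_eq_mul] at this
  have h9 : (∑ y ∈ A, e μ s n y) / A.card ≤ c := by
    rw [div_le_iff₀ hcard0]
    linarith
  linarith

/-- The same for a cone. -/
theorem log_le_of_cone (hμ : Pool.Agent.W_7d29a1_h47.EM μ) {n : ℕ} {v c : ℝ} (hn : 1 ≤ n) (h0 : 0 < v)
    (h1 : v ≤ 1 / 4) (hc : ∀ y ∈ Cn n v, ep μ n y ≤ c) : Real.log (v * n) ≤ c := by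
  classical
  have hn0 : (0 : ℝ) < n := by exact_mod_cast hn
  obtain ⟨A, hA⟩ : ∃ A : Finset ℤ, A = (Finset.range (⌊v * n⌋₊ + 1)).image
      (fun k : ℕ => ((n / 2 + k : ℕ) : ℤ)) := ⟨_, rfl⟩
  have hcard : A.card = ⌊v * n⌋₊ + 1 := by
    rw [hA, Finset.card_image_of_injective, Finset.card_range]
    intro a b hab
    simp only [Nat.cast_inj] at hab
    omega
  have hfl : (⌊v * n⌋₊ : ℝ) ≤ v * n := Nat.floor_le (by positivity)
  have hq1 : (n : ℝ) / 2 - 1 ≤ ((n / 2 : ℕ) : ℝ) := by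
    have : n ≤ 2 * (n / 2) + 1 := by omega
    have h2 : (n : ℝ) ≤ 2 * ((n / 2 : ℕ) : ℝ) + 1 := by exact_mod_cast this
    linarith
  have hq2 : ((n / 2 : ℕ) : ℝ) ≤ n / 2 := Nat.cast_div_le
  have hmem : ∀ y ∈ A, y ∈ Cn n v := by
    intro y hy
    rw [hA, Finset.mem_image] at hy
    obtain ⟨k, hk, rfl⟩ := hy
    rw [Finset.mem_range] at hk
    have hk1 : (k : ℝ) ≤ v * n := by
      have : (k : ℝ) ≤ (⌊v * n⌋₊ : ℝ) := by exact_mod_cast (show k ≤ ⌊v * n⌋₊ by omega)
      linarith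
    have hk0 : (0 : ℝ) ≤ k := Nat.cast_nonneg k
    have hv4 : v * n ≤ 1 / 4 * n := mul_le_mul_of_nonneg_right h1 hn0.le
    rw [mem_Cn]
    refine ⟨by positivity, ?_, ?_⟩
    · have : ((n / 2 + k : ℕ) : ℝ) ≤ n := by
        push_cast
        linarith
      exact_mod_cast this
    · rw [Int.cast_natCast, Nat.cast_add, abs_le]
      constructor <;> linarith
  have hne : A.Nonempty := by
    rw [← Finset.card_pos, hcard]
    omega
  have h2 := log_card_le hμ 0 hne (fun y hy => ⟨(mem_Cn.1 (hmem y hy)).1, (mem_Cn.1 (hmem y hy)).2.1⟩)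
    (c := c) (fun y hy => (e_le_ep hμ (mem_Cn.1 (hmem y hy)).1 (mem_Cn.1 (hmem y hy)).2.1).trans
      (hc y (hmem y hy)))
  refine le_trans (Real.log_le_log (by positivity) ?_) h2
  rw [hcard]
  push_cast
  exact (Nat.lt_floor_add_one _).le

/-- Power upper bound for `J` near `0`. -/
theorem J_le_pow (hμ : Pool.Agent.W_7d29a1_h47.EM μ) (hnd : Pool.Agent.W_7d29a1_h47.Nondeg μ) :
    ∃ c a : ℝ, 0 < c ∧ 0 < a ∧ ∀ v : ℝ, 0 < v → v ≤ a → J μ v ≤ v * (v / c) ^ (1 / 99 : ℝ) := by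
  obtain ⟨c, hc, hpc⟩ := Pool.Agent.W_7d29a1_h47.power_convex hμ hnd 0
  have key : ∀ s : ℝ, 0 < s → s ≤ 2 → c / 2 * (s / 2) ^ 100 ≤ LL μ s := by
    intro s h0 h1
    have h2 := hpc (s / 2) (by linarith) (by linarith)
    rw [zero_add, zero_sub, Pool.Agent.W_7d29a1_h47.Lam_even] at h2
    unfold LL lam
    rw [zero_div]
    linarith
  obtain ⟨c1, hc1⟩ : ∃ c1 : ℝ, c1 = c / 2 / 2 ^ 100 := ⟨_, rfl⟩
  have hc10 : 0 < c1 := by rw [hc1]; positivity
  have key1 : ∀ s : ℝ, 0 < s → s ≤ 2 → c1 * s ^ 100 ≤ LL μ s := by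
    intro s h0 h1
    have h2 := key s h0 h1
    have e1 : c / 2 * (s / 2) ^ 100 = c1 * s ^ 100 := by
      rw [hc1, div_pow]
      ring
    rwa [e1] at h2
  have h2 := (deriv_pos hμ hnd (s := 2) (by norm_num)).1
  refine ⟨c1, LL μ 2 / 2, hc10, by linarith, fun v hv0 hv1 => ?_⟩
  have hR0 : 0 ≤ v * (v / c1) ^ (1 / 99 : ℝ) := by positivity
  have hpos : ∀ s : ℝ, 0 ≤ s → s * v - LL μ s ≤ v * (v / c1) ^ (1 / 99 : ℝ) := by
    intro s hs
    rcases hs.eq_or_lt with h | h
    · rw [← h, LL_zero, zero_mul, sub_zero]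
      exact hR0
    rcases le_or_gt s 2 with h3 | h3
    · have h4 := key1 s h h3
      rcases le_or_gt s ((v / c1) ^ (1 / 99 : ℝ)) with h5 | h5
      · have h6 : s * v ≤ (v / c1) ^ (1 / 99 : ℝ) * v := mul_le_mul_of_nonneg_right h5 hv0.le
        have h7 := LL_nonneg hμ s
        linarith
      · -- `c1 s ^ 99 ≥ v`
        have h6 : v / c1 ≤ s ^ 99 := by
          have h8 : ((v / c1) ^ (1 / 99 : ℝ)) ^ (99 : ℕ) ≤ s ^ 99 :=
            pow_le_pow_left₀ (by positivity) h5.le 99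
          have h9 : ((v / c1) ^ (1 / 99 : ℝ)) ^ (99 : ℕ) = v / c1 := by
            rw [← Real.rpow_natCast, ← Real.rpow_mul (by positivity)]
            norm_num
          rwa [h9] at h8
        rw [div_le_iff₀ hc10] at h6
        have h7 : s * v ≤ c1 * s ^ 100 := by
          calc s * v ≤ s * (s ^ 99 * c1) := mul_le_mul_of_nonneg_left h6 hs
            _ = c1 * s ^ 100 := by ring
        linarith
    · -- convexity beyond `2`
      have h4 := (LL_convex hμ).2 (Set.mem_univ s) (Set.mem_univ 0) (show (0 : ℝ) ≤ 2 / s by positivity)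
        (show (0 : ℝ) ≤ 1 - 2 / s by rw [sub_nonneg, div_le_one h]; exact h3.le) (by ring)
      simp only [smul_eq_mul, mul_zero, add_zero] at h4
      rw [LL_zero, mul_zero, add_zero, div_mul_cancel₀ _ h.ne'] at h4
      have h5 : s * LL μ 2 ≤ 2 * LL μ s := by
        have := mul_le_mul_of_nonneg_left h4 h.le
        have e1 : s * (2 / s * LL μ s) = 2 * LL μ s := by field_simp
        linarith
      nlinarith
  refine J_le fun s => ?_
  rcases le_total 0 s with h | h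
  · exact hpos s h
  · have h3 := hpos (-s) (by linarith)
    rw [LL_neg hμ] at h3
    have h4 : s * v ≤ 0 := mul_nonpos_of_nonpos_of_nonneg h hv0.le
    have h5 : 0 ≤ -s * v := mul_nonneg (by linarith) hv0.le
    linarith

end Pool.Agent.W_7d29a1_G
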