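import Pool.Agent.W_7d29a1_G.Defs1
import Pool.Agent.W_7d29a1_G.Soft1
import Pool.Agent.W_7d29a1_G.Unit2c

/-!
MP_7d29a1_pr, track G, FR0: the rate function `J`, the unit `EE` (direction `0`) and the width `vA`.
-/

namespace Pool.Agent.W_7d29a1_G

open MeasureTheory ProbabilityTheory Filter Topology Pool.Agent.W_7d29a1_F Pool.Agent.W_7d29a1_h4g

variable {μ : Measure ℝ} [IsProbabilityMeasure μ]

/-! ### The rate function -/

theorem J_zero (hμ : Pool.Agent.W_7d29a1_h47.EM μ) : J μ 0 = 0 := by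
  refine le_antisymm (J_le fun s => ?_) ?_
  · rw [mul_zero]
    linarith [LL_nonneg hμ s]
  · have := J_ge hμ (v := 0) (by norm_num) 0
    rw [LL_zero] at this
    linarith

theorem J_neg (hμ : Pool.Agent.W_7d29a1_h47.EM μ) (v : ℝ) : J μ (-v) = J μ v := by
  unfold J
  congr 1
  ext r
  constructor
  · rintro ⟨s, rfl⟩
    refine ⟨-s, ?_⟩
    have := LL_neg hμ s
    unfold LL at this
    linarith
  · rintro ⟨s, rfl⟩
    refine ⟨-s, ?_⟩
    have := LL_neg hμ s
    unfold LL at this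
    linarith

theorem J_abs (hμ : Pool.Agent.W_7d29a1_h47.EM μ) (v : ℝ) : J μ |v| = J μ v := by
  rcases le_total 0 v with h | h
  · rw [abs_of_nonneg h]
  · rw [abs_of_nonpos h, J_neg hμ]

theorem J_nonneg (hμ : Pool.Agent.W_7d29a1_h47.EM μ) {v : ℝ} (hv : |v| ≤ 1 / 2) : 0 ≤ J μ v := by
  have := J_ge hμ hv 0
  rw [LL_zero] at this
  linarith

theorem J_convex (hμ : Pool.Agent.W_7d29a1_h47.EM μ) :
    ConvexOn ℝ (Set.Icc (-(1 / 2)) (1 / 2)) (J μ) := by
  refine ⟨convex_Icc _ _, fun x hx y hy a b ha hb hab => ?_⟩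
  simp only [smul_eq_mul]
  refine J_le fun s => ?_
  have h1 := mul_le_mul_of_nonneg_left (J_ge hμ (abs_le.2 hx) s) ha
  have h2 := mul_le_mul_of_nonneg_left (J_ge hμ (abs_le.2 hy) s) hb
  have e1 : s * (a * x + b * y) - LL μ s = a * (s * x - LL μ s) + b * (s * y - LL μ s) := by
    have : LL μ s = (a + b) * LL μ s := by rw [hab, one_mul]
    linear_combination -this
  rw [e1]
  linarith

theorem J_cont0 (hμ : Pool.Agent.W_7d29a1_h47.EM μ) : ContinuousOn (J μ) (Set.Icc 0 (1 / 2)) := by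
  intro x hx
  rcases hx.2.lt_or_eq with h | h
  · have h1 : ConvexOn ℝ (Set.Ioo (-(1 / 2)) (1 / 2)) (J μ) :=
      (J_convex hμ).subset Set.Ioo_subset_Icc_self (convex_Ioo _ _)
    have h2 : ContinuousOn (J μ) (Set.Ioo (-(1 / 2)) (1 / 2)) := h1.continuousOn isOpen_Ioo
    exact (h2.continuousAt (Ioo_mem_nhds (by linarith [hx.1]) h)).continuousWithinAt
  · subst h
    rw [Metric.continuousWithinAt_iff]
    intro ε hε
    obtain ⟨s, hs⟩ : ∃ s : ℝ, J μ (1 / 2) - ε / 2 < s * (1 / 2) - LL μ s := by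
      by_contra hcon
      push Not at hcon
      have := J_le (μ := μ) (v := 1 / 2) hcon
      linarith
    refine ⟨ε / (2 * (|s| + 1)), by positivity, fun {v} hv hd => ?_⟩
    rw [Real.dist_eq] at hd ⊢
    have h1 := J_mono' hμ hv.1 hv.2 le_rfl
    have h2 := J_ge hμ (v := v) (by rw [abs_of_nonneg hv.1]; exact hv.2) s
    have h3 : |s| * |v - 1 / 2| ≤ ε / 2 := by
      have h4 : |s| * |v - 1 / 2| ≤ (|s| + 1) * (ε / (2 * (|s| + 1))) :=
        mul_le_mul (by linarith) hd.le (abs_nonneg _) (by positivity)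
      have h5 : (|s| + 1) * (ε / (2 * (|s| + 1))) = ε / 2 := by
        have : |s| + 1 ≠ 0 := by positivity
        field_simp
      linarith
    have h6 : -(|s| * |v - 1 / 2|) ≤ s * (v - 1 / 2) := by
      rw [← abs_mul]
      exact neg_abs_le _
    rw [abs_lt]
    constructor
    · have e1 : s * (v - 1 / 2) = s * v - s * (1 / 2) := by ring
      linarith
    · linarith

theorem J_cont (hμ : Pool.Agent.W_7d29a1_h47.EM μ) :
    ContinuousOn (J μ) (Set.Icc (-(1 / 2)) (1 / 2)) := by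
  have h1 : ContinuousOn (fun v : ℝ => J μ |v|) (Set.Icc (-(1 / 2)) (1 / 2)) :=
    (J_cont0 hμ).comp continuous_abs.continuousOn fun v hv => ⟨abs_nonneg v, abs_le.2 hv⟩
  refine h1.congr fun v _ => ?_
  exact (J_abs hμ v).symm

theorem J_mul (hμ : Pool.Agent.W_7d29a1_h47.EM μ) {v t : ℝ} (hv : 0 ≤ v) (ht : 1 ≤ t)
    (htv : t * v ≤ 1 / 2) : t * J μ v ≤ J μ (t * v) := by
  have ht0 : 0 < t := by linarith
  have h1 : J μ v ≤ J μ (t * v) / t := by
    refine J_le fun s => ?_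
    rw [le_div_iff₀ ht0]
    have h2 := J_ge hμ (v := t * v) (by rw [abs_of_nonneg (by positivity)]; exact htv) s
    have h3 := LL_nonneg hμ s
    nlinarith
  rw [le_div_iff₀ ht0] at h1
  linarith

theorem J_pos (hμ : Pool.Agent.W_7d29a1_h47.EM μ) (hnd : Pool.Agent.W_7d29a1_h47.Nondeg μ) {v : ℝ}
    (h0 : 0 < v) (h1 : v ≤ 1 / 2) : 0 < J μ v := by
  obtain ⟨s, hs0, hs⟩ := exists_deriv hμ hnd (v := min v (1 / 4)) (lt_min h0 (by norm_num))
    (lt_of_le_of_lt (min_le_right _ _) (by norm_num))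
  have hw : 0 < deriv (LL μ) s := by rw [hs]; exact lt_min h0 (by norm_num)
  have hs1 : s ≠ 0 := by
    rintro rfl
    have h3 := LL_tangent hμ hnd 0 (-1)
    have h4 := LL_tangent hμ hnd 0 1
    have h6 : HasDerivAt (fun x => LL μ (-x)) (-(deriv (LL μ) 0)) 0 := by
      have h7 := LL_hasDerivAt hμ hnd 0
      have h8 : HasDerivAt (LL μ) (deriv (LL μ) 0) (-0) := by rwa [neg_zero]
      have h9 := h8.comp (0 : ℝ) (hasDerivAt_neg (0 : ℝ))
      rw [mul_neg, mul_one] at h9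
      exact h9
    have h7 : (fun x => LL μ (-x)) = LL μ := funext fun x => LL_neg hμ x
    rw [h7] at h6
    have := h6.unique (LL_hasDerivAt hμ hnd 0)
    linarith
  have hsp : 0 < s := lt_of_le_of_ne hs0 (Ne.symm hs1)
  have h2 : LL μ (s / 2) < LL μ s / 2 := by
    have h3 := (Pool.Agent.W_7d29a1_h47.Lam_strictConvex hμ hnd).2 (Set.mem_univ (s / 2))
      (Set.mem_univ 0) (by
        intro h
        linarith) (show (0 : ℝ) < 1 / 2 by norm_num) (show (0 : ℝ) < 1 / 2 by norm_num) (by norm_num)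
    simp only [smul_eq_mul] at h3
    rw [show 1 / 2 * (s / 2) + 1 / 2 * 0 = s / 2 / 2 by ring] at h3
    unfold LL lam
    rw [zero_div]
    linarith
  have h3 := LL_tangent hμ hnd s (s / 2)
  have h4 := J_deriv hμ hnd s
  have h5 : 0 < J μ (deriv (LL μ) s) := by
    rw [h4]
    nlinarith
  rw [hs] at h5
  exact lt_of_lt_of_le h5 (J_mono' hμ (le_min h0.le (by norm_num)) (min_le_left _ _) h1)

theorem J_strict (hμ : Pool.Agent.W_7d29a1_h47.EM μ) (hnd : Pool.Agent.W_7d29a1_h47.Nondeg μ) {u v : ℝ}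
    (hu : 0 ≤ u) (huv : u < v) (hv : v ≤ 1 / 2) : J μ u < J μ v := by
  rcases hu.eq_or_lt with rfl | hu0
  · rw [J_zero hμ]
    exact J_pos hμ hnd huv hv
  · have h1 : 1 < v / u := by rwa [one_lt_div hu0]
    have h2 := J_mul hμ (v := u) (t := v / u) hu h1.le (by rw [div_mul_cancel₀ _ hu0.ne']; exact hv)
    rw [div_mul_cancel₀ _ hu0.ne'] at h2
    have h3 := J_pos hμ hnd hu0 (by linarith)
    nlinarith

/-- The lower bound of the means by the rate function. -/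
theorem J_le_e (hμ : Pool.Agent.W_7d29a1_h47.EM μ) {n : ℕ} {y : ℤ} (hn : 1 ≤ n) (h0 : 0 ≤ y)
    (h1 : y ≤ n) : n * J μ (((y : ℝ) - n / 2) / n) ≤ e μ 0 n y := by
  have hn0 : (0 : ℝ) < n := by exact_mod_cast hn
  have h2 : J μ (((y : ℝ) - n / 2) / n) ≤ e μ 0 n y / n := by
    refine J_le fun s => ?_
    rw [le_div_iff₀ hn0]
    have h3 := e_nonneg hμ s h0 h1
    rw [e_tilt hμ 0 s h0 h1, LL_zero] at h3
    have e1 : (s * (((y : ℝ) - n / 2) / n) - LL μ s) * n = s * ((y : ℝ) - n / 2) - LL μ s * n := by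
      field_simp
    rw [e1]
    linarith
  rw [le_div_iff₀ hn0] at h2
  linarith

/-! ### The unit -/

private lemma Zr_mir (η : Env) (n : ℕ) (y : ℤ) :
    Zr Set.univ (fun p => η (p.1, p.1 - p.2)) 0 n (n - y) = Zr Set.univ η 0 n y := by
  induction n generalizing y with
  | zero =>
    simp only [Zr, Nat.cast_zero, zero_sub, neg_eq_zero]
  | succ n ih =>
    have h1 := ih y
    have h2 := ih (y - 1)
    have e1 : ((n : ℤ) - (y - 1)) = ((n + 1 : ℕ) : ℤ) - y := by push_cast; ring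
    have e2 : ((n + 1 : ℕ) : ℤ) - y - 1 = (n : ℤ) - y := by push_cast; ring
    rw [e1] at h2
    simp only [Zr]
    rw [e2, h1, h2]
    simp only [Set.indicator_univ, Prod.fst_zero, Prod.snd_zero, zero_add]
    have e3 : ((n : ℤ) + 1 - (((n + 1 : ℕ) : ℤ) - y)) = y := by push_cast; ring
    rw [e3]
    ring

omit [IsProbabilityMeasure μ] in
theorem meas_Xp (n : ℕ) (y : ℤ) : Measurable fun η : Env => max (X μ 0 η 0 n y) 0 := by
  unfold X
  exact (Real.measurable_log.comp (measurable_W 0 n y)).neg.max measurable_const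

theorem ep_mirror (n : ℕ) (y : ℤ) : ep μ n (n - y) = ep μ n y := by
  have hX : ∀ η : Env, X μ 0 (fun p => η (p.1, p.1 - p.2)) 0 n (n - y) = X μ 0 η 0 n y := by
    intro η
    unfold X W WR
    rw [Zr_mir]
    simp
  unfold ep
  have h := (mp_mirror (μ := μ)).map_eq
  conv_lhs => rw [← h]
  rw [integral_map (mp_mirror (μ := μ)).measurable.aemeasurable
    (meas_Xp n (n - y)).aestronglyMeasurable]
  exact integral_congr_ae (Filter.Eventually.of_forall fun η => by simp only [hX η])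

theorem ep_sh (a : Pt) (n : ℕ) (y : ℤ) : ∫ η, max (X μ 0 η a n y) 0 ∂(law μ) = ep μ n y := by
  unfold ep
  have h := (mp_sh (μ := μ) a).map_eq
  conv_rhs => rw [← h]
  rw [integral_map (mp_sh (μ := μ) a).measurable.aemeasurable (meas_Xp n y).aestronglyMeasurable]
  refine integral_congr_ae (Filter.Eventually.of_forall fun η => ?_)
  simp only
  rw [X_sh, zero_add]

omit [IsProbabilityMeasure μ] in
theorem ep_nonneg (n : ℕ) (y : ℤ) : 0 ≤ ep μ n y := integral_nonneg fun _ => le_max_right _ _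

theorem ep_add (hμ : Pool.Agent.W_7d29a1_h47.EM μ) {m n : ℕ} {k y : ℤ} (h0 : 0 ≤ k) (h1 : k ≤ m)
    (h2 : 0 ≤ y) (h3 : y ≤ n) : ep μ (m + n) (k + y) ≤ ep μ m k + ep μ n y := by
  have i1 : Integrable (fun η => max (X μ 0 η 0 m k) 0) (law μ) := int_Xp hμ 0 h0 h1
  have i2 : Integrable (fun η => max (X μ 0 η ((0 : Pt).1 + m, (0 : Pt).2 + k) n y) 0) (law μ) :=
    (Sub.integrable hμ (Sub_X _ h2 h3)).pos_part
  rw [← ep_sh ((0 : Pt).1 + m, (0 : Pt).2 + k) n y]
  unfold ep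
  rw [← integral_add i1 i2]
  refine integral_mono (int_Xp hμ 0 (by omega) (by push_cast; omega)) (i1.add i2) fun η => ?_
  have h4 := X_add_le (μ := μ) (s := 0) η 0 h0 h1 h2 h3
  exact max_le (h4.trans (add_le_add (le_max_left _ _) (le_max_left _ _)))
    (add_nonneg (le_max_right _ _) (le_max_right _ _))

/-- The reference displacements are subadditive (exactly). -/
theorem ep_md_add (hμ : Pool.Agent.W_7d29a1_h47.EM μ) (m n : ℕ) :
    ep μ (m + n) (md (m + n)) ≤ ep μ m (md m) + ep μ n (md n) := by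
  by_cases h : md (m + n) = md m + md n
  · rw [h]
    exact ep_add hμ (md_nonneg m) (md_le m) (md_nonneg n) (md_le n)
  · have h2 : md (m + n) = md m + (n - md n) := by
      unfold md at h ⊢
      push_cast at h ⊢
      omega
    rw [h2, ← ep_mirror n (md n)]
    refine ep_add hμ (md_nonneg m) (md_le m) ?_ ?_
    · linarith [md_le n]
    · linarith [md_nonneg n]

theorem ep_le_EE {m n : ℕ} (h : m ≤ n) : ep μ m (md m) ≤ EE μ n - 1 := ref_le_EU h

omit [IsProbabilityMeasure μ] in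
theorem EE_le {n : ℕ} {c : ℝ} (h : ∀ m ≤ n, 1 + ep μ m (md m) ≤ c) : EE μ n ≤ c := by
  unfold EE EU
  have : (Finset.range (n + 1)).sup' ⟨0, by simp⟩ (fun m => ∫ η, max (X μ 0 η 0 m (md m)) 0 ∂(law μ)) ≤
      c - 1 := by
    refine Finset.sup'_le _ _ fun m hm => ?_
    have := h m (by rw [Finset.mem_range] at hm; omega)
    unfold ep at this
    linarith
  linarith

theorem EE_two (hμ : Pool.Agent.W_7d29a1_h47.EM μ) (n : ℕ) : EE μ (2 * n) ≤ 2 * EE μ n := by
  have h1 := one_le_EE (μ := μ) n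
  refine EE_le fun m hm => ?_
  rcases le_or_gt m n with h | h
  · have := ep_le_EE (μ := μ) h
    linarith
  · obtain ⟨k, rfl⟩ : ∃ k, m = n + k := ⟨m - n, by omega⟩
    have h2 := ep_md_add hμ n k
    have h3 := ep_le_EE (μ := μ) (le_refl n)
    have h4 := ep_le_EE (μ := μ) (show k ≤ n by omega)
    linarith

theorem EE_mul (hμ : Pool.Agent.W_7d29a1_h47.EM μ) (k n : ℕ) (hk : 1 ≤ k) :
    EE μ (k * n) ≤ k * EE μ n := by
  induction k with
  | zero => omega
  | succ k ih =>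
    rcases Nat.eq_zero_or_pos k with h | h
    · subst h
      simp
    · have h0 := ih h
      have h1 := one_le_EE (μ := μ) n
      have h2 := one_le_EE (μ := μ) (k * n)
      push_cast
      refine EE_le fun m hm => ?_
      rcases le_or_gt m (k * n) with h3 | h3
      · have := ep_le_EE (μ := μ) h3
        linarith
      · obtain ⟨l, rfl⟩ : ∃ l, m = k * n + l := ⟨m - k * n, by omega⟩
        have h4 := ep_md_add hμ (k * n) l
        have h5 := ep_le_EE (μ := μ) (le_refl (k * n))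
        have h6 := ep_le_EE (μ := μ) (show l ≤ n by
          rw [Nat.add_mul, one_mul] at hm
          omega)
        linarith

theorem EE_div_tendsto (hμ : Pool.Agent.W_7d29a1_h47.EM μ) (hnd : Pool.Agent.W_7d29a1_h47.Nondeg μ) :
    Tendsto (fun n : ℕ => EE μ n / n) atTop (𝓝 0) := by
  have hmd : ∀ m : ℕ, md m ∈ Cn m 0 := fun m => half_mem_Cn m le_rfl
  rw [Metric.tendsto_atTop]
  intro ε hε
  have hup := up hμ hnd 0 le_rfl (by norm_num) (ε / 4) (by linarith)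
  obtain ⟨n0, hn0⟩ := eventually_atTop.1 hup
  obtain ⟨N, hN⟩ : ∃ N : ℕ, (4 / ε) * EE μ (max n0 1) < N := exists_nat_gt _
  refine ⟨max N (max n0 1), fun n hn => ?_⟩
  have hn1 : N ≤ n := (le_max_left _ _).trans hn
  have hn2 : max n0 1 ≤ n := (le_max_right _ _).trans hn
  have hn3 : 1 ≤ n := (le_max_right _ _).trans hn2
  have hnn : (0 : ℝ) < n := by exact_mod_cast hn3
  have hE1 := one_le_EE (μ := μ) (max n0 1)
  have hb : EE μ (max n0 1) < ε / 4 * n := by
    have : (N : ℝ) ≤ n := by exact_mod_cast hn1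
    have h2 : (4 / ε) * EE μ (max n0 1) < n := lt_of_lt_of_le hN this
    rw [div_mul_eq_mul_div, div_lt_iff₀ hε] at h2
    linarith
  have h1 : EE μ n ≤ ε / 2 * n := by
    refine EE_le fun m hm => ?_
    rcases le_or_gt m (max n0 1) with h | h
    · have := ep_le_EE (μ := μ) h
      nlinarith
    · have h2 := hn0 m (by omega)
      have h4 : ep μ m (md m) ≤ An μ m 0 := le_An (hmd m)
      have h5 : J μ (2 * 0) = 0 := by rw [mul_zero]; exact J_zero hμ
      have h6 : An μ m 0 ≤ (J μ (2 * 0) + ε / 4) * m := h2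
      rw [h5, zero_add] at h6
      have h3 : (m : ℝ) ≤ n := by exact_mod_cast hm
      nlinarith
  rw [Real.dist_eq, sub_zero, abs_of_nonneg (by have := one_le_EE (μ := μ) n; positivity), div_lt_iff₀ hnn]
  nlinarith

/-! ### The width -/

omit [IsProbabilityMeasure μ] in
theorem vA_bdd (A : ℝ) (n : ℕ) : BddAbove {v : ℝ | 0 ≤ v ∧ v ≤ 1 / 2 ∧ n * J μ v ≤ A * EE μ n} :=
  ⟨1 / 2, fun _ hv => hv.2.1⟩

theorem vA_ne (hμ : Pool.Agent.W_7d29a1_h47.EM μ) {A : ℝ} (hA : 0 ≤ A) (n : ℕ) :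
    (0 : ℝ) ∈ {v : ℝ | 0 ≤ v ∧ v ≤ 1 / 2 ∧ n * J μ v ≤ A * EE μ n} := by
  refine ⟨le_rfl, by norm_num, ?_⟩
  rw [J_zero hμ, mul_zero]
  have := one_le_EE (μ := μ) n
  positivity

theorem vA_nonneg (hμ : Pool.Agent.W_7d29a1_h47.EM μ) {A : ℝ} (hA : 0 ≤ A) (n : ℕ) : 0 ≤ vA μ A n :=
  le_csSup (vA_bdd A n) (vA_ne hμ hA n)

theorem vA_le (hμ : Pool.Agent.W_7d29a1_h47.EM μ) {A : ℝ} (hA : 0 ≤ A) (n : ℕ) : vA μ A n ≤ 1 / 2 :=
  csSup_le ⟨0, vA_ne hμ hA n⟩ fun _ hv => hv.2.1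

theorem vA_mem (hμ : Pool.Agent.W_7d29a1_h47.EM μ) {A : ℝ} (hA : 0 ≤ A) (n : ℕ) :
    n * J μ (vA μ A n) ≤ A * EE μ n := by
  have h1 : IsClosed {v : ℝ | 0 ≤ v ∧ v ≤ 1 / 2 ∧ n * J μ v ≤ A * EE μ n} := by
    have h1 : {v : ℝ | 0 ≤ v ∧ v ≤ 1 / 2 ∧ n * J μ v ≤ A * EE μ n} =
        {v : ℝ | v ∈ Set.Icc (0 : ℝ) (1 / 2) ∧ n * J μ v ≤ A * EE μ n} := by
      ext v
      simp only [Set.mem_ofPred_eq, Set.mem_Icc, and_assoc]
    rw [h1]
    exact isClosed_Icc.isClosed_le (ContinuousOn.mul continuousOn_const (J_cont0 hμ)) continuousOn_const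
  exact (h1.csSup_mem ⟨0, vA_ne hμ hA n⟩ (vA_bdd A n)).2.2

omit [IsProbabilityMeasure μ] in
theorem le_vA {A v : ℝ} {n : ℕ} (h0 : 0 ≤ v) (h1 : v ≤ 1 / 2) (h : n * J μ v ≤ A * EE μ n) :
    v ≤ vA μ A n := le_csSup (vA_bdd A n) ⟨h0, h1, h⟩

/-- The defining equation. -/
theorem vA_eq' (hμ : Pool.Agent.W_7d29a1_h47.EM μ) {A : ℝ} (hA : 0 ≤ A) {n : ℕ} (h : vA μ A n < 1 / 2) :
    n * J μ (vA μ A n) = A * EE μ n := by
  refine le_antisymm (vA_mem hμ hA n) ?_
  have h0 := vA_nonneg (μ := μ) hμ hA n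
  have h2 : Tendsto (fun v : ℝ => n * J μ v) (𝓝[Set.Ioc (vA μ A n) (1 / 2)] (vA μ A n))
      (𝓝 (n * J μ (vA μ A n))) := by
    refine (((J_cont0 hμ) (vA μ A n) ⟨h0, h.le⟩).const_mul (n : ℝ)).mono_left (nhdsWithin_mono _ ?_)
    intro v hv
    exact ⟨h0.trans hv.1.le, hv.2⟩
  have hne : (𝓝[Set.Ioc (vA μ A n) (1 / 2)] (vA μ A n)).NeBot := by
    rw [nhdsWithin_Ioc_eq_nhdsGT h]
    infer_instance
  refine ge_of_tendsto h2 (eventually_nhdsWithin_of_forall fun v hv => ?_)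
  by_contra hcon
  rw [not_le] at hcon
  exact absurd (le_vA (h0.trans hv.1.le) hv.2 hcon.le) (not_le.2 hv.1)

/-- The width does not grow by doubling the time. -/
theorem vA_two (hμ : Pool.Agent.W_7d29a1_h47.EM μ) {A : ℝ} (hA : 0 ≤ A) (n : ℕ) :
    vA μ A (2 * n) ≤ vA μ A n := by
  refine csSup_le ⟨0, vA_ne hμ hA _⟩ ?_
  rintro v ⟨hv0, hv1, hv2⟩
  refine le_vA hv0 hv1 ?_
  have h1 := mul_le_mul_of_nonneg_left (EE_two hμ n) hA
  push_cast at hv2
  linarith

theorem vA_tendsto (hμ : Pool.Agent.W_7d29a1_h47.EM μ) (hnd : Pool.Agent.W_7d29a1_h47.Nondeg μ) {A : ℝ}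
    (hA : 0 ≤ A) : Tendsto (vA μ A) atTop (𝓝 0) := by
  rw [Metric.tendsto_atTop]
  intro ε hε
  obtain ⟨a, ha0, ha1, ha2⟩ : ∃ a : ℝ, 0 < a ∧ a ≤ 1 / 2 ∧ a < ε := by
    refine ⟨min (1 / 2) (ε / 2), by positivity, min_le_left _ _, ?_⟩
    exact lt_of_le_of_lt (min_le_right _ _) (by linarith)
  have hJa := J_pos hμ hnd ha0 ha1
  have hE := (EE_div_tendsto hμ hnd).const_mul A
  rw [mul_zero] at hE
  obtain ⟨n0, hn0⟩ := eventually_atTop.1 (hE.eventually (eventually_lt_nhds hJa))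
  refine ⟨max n0 1, fun n hn => ?_⟩
  have hn3 : 1 ≤ n := (le_max_right _ _).trans hn
  have hnn : (0 : ℝ) < n := by exact_mod_cast hn3
  have h1 := hn0 n ((le_max_left _ _).trans hn)
  rw [← mul_div_assoc, div_lt_iff₀ hnn] at h1
  rw [Real.dist_eq, sub_zero, abs_of_nonneg (vA_nonneg hμ hA n)]
  refine lt_of_le_of_lt ?_ ha2
  by_contra h
  rw [not_le] at h
  have h2 := vA_mem hμ hA n
  have h3 := J_mono' hμ ha0.le h.le (vA_le hμ hA n)
  nlinarith

theorem vA_lt_half (hμ : Pool.Agent.W_7d29a1_h47.EM μ) (hnd : Pool.Agent.W_7d29a1_h47.Nondeg μ) {A : ℝ}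
    (hA : 0 ≤ A) : ∀ᶠ n : ℕ in atTop, vA μ A n < 1 / 2 :=
  (vA_tendsto hμ hnd hA).eventually (eventually_lt_nhds (by norm_num))

theorem vA_eq (hμ : Pool.Agent.W_7d29a1_h47.EM μ) (hnd : Pool.Agent.W_7d29a1_h47.Nondeg μ) {A : ℝ}
    (hA : 0 ≤ A) : ∀ᶠ n : ℕ in atTop, n * J μ (vA μ A n) = A * EE μ n := by
  filter_upwards [vA_lt_half hμ hnd hA] with n hn
  exact vA_eq' hμ hA hn

theorem vA_pos (hμ : Pool.Agent.W_7d29a1_h47.EM μ) {A : ℝ} (hA : 0 < A) (n : ℕ) : 0 < vA μ A n := by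
  rcases (vA_nonneg (μ := μ) hμ hA.le n).eq_or_lt with h0 | h0
  · exfalso
    have h1 := vA_eq' hμ hA.le (n := n) (by rw [← h0]; norm_num)
    rw [← h0, J_zero hμ, mul_zero] at h1
    have := one_le_EE (μ := μ) n
    have : 0 < A * EE μ n := by positivity
    linarith
  · exact h0

/-- Monotone in the level; a larger level gives at most the proportional width. -/
theorem vA_mono (hμ : Pool.Agent.W_7d29a1_h47.EM μ) {A B : ℝ} (hA : 0 ≤ A) (hAB : A ≤ B) (n : ℕ) :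
    vA μ A n ≤ vA μ B n := by
  refine le_vA (vA_nonneg hμ hA n) (vA_le hμ hA n) ((vA_mem hμ hA n).trans ?_)
  exact mul_le_mul_of_nonneg_right hAB (by linarith [one_le_EE (μ := μ) n])

theorem vA_scale (hμ : Pool.Agent.W_7d29a1_h47.EM μ) {A B : ℝ} (hA : 0 < A) (hAB : A ≤ B) (n : ℕ) :
    vA μ B n ≤ B / A * vA μ A n := by
  have hB : 0 < B := by linarith
  have hr : 1 ≤ B / A := by rwa [one_le_div hA]
  have h1 : vA μ B n / (B / A) ≤ vA μ A n := by
    have h2 : vA μ B n / (B / A) ≤ vA μ B n := div_le_self (vA_nonneg hμ hB.le n) hr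
    refine le_vA (div_nonneg (vA_nonneg hμ hB.le n) (by linarith)) (h2.trans (vA_le hμ hB.le n)) ?_
    have h3 := J_mul hμ (v := vA μ B n / (B / A)) (t := B / A)
      (div_nonneg (vA_nonneg hμ hB.le n) (by linarith)) hr
      (by rw [mul_div_cancel₀ _ (by positivity : (B / A) ≠ 0)]; exact vA_le hμ hB.le n)
    rw [mul_div_cancel₀ _ (by positivity : (B / A) ≠ 0)] at h3
    have h4 := vA_mem (μ := μ) hμ hB.le n
    have hn : (0 : ℝ) ≤ n := Nat.cast_nonneg n
    have h5 : B / A * (n * J μ (vA μ B n / (B / A))) ≤ B * EE μ n := by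
      calc B / A * (n * J μ (vA μ B n / (B / A))) = n * (B / A * J μ (vA μ B n / (B / A))) := by ring
        _ ≤ n * J μ (vA μ B n) := mul_le_mul_of_nonneg_left h3 hn
        _ ≤ B * EE μ n := h4
    have h6 : B / A * (n * J μ (vA μ B n / (B / A))) ≤ B / A * (A * EE μ n) := by
      have : B / A * (A * EE μ n) = B * EE μ n := by field_simp
      rw [this]
      exact h5
    exact le_of_mul_le_mul_left h6 (by positivity)
  rw [div_le_iff₀ (by positivity)] at h1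
  linarith

/-- Far displacements: slope `k` times the width. -/
theorem J_far (hμ : Pool.Agent.W_7d29a1_h47.EM μ) {A : ℝ} (hA : 0 ≤ A) {n : ℕ} (h : vA μ A n < 1 / 2)
    {k : ℝ} (hk : 1 ≤ k) (hk1 : k * vA μ A n ≤ 1 / 2) : k * (A * EE μ n) ≤ n * J μ (k * vA μ A n) := by
  have h1 := J_mul hμ (vA_nonneg hμ hA n) hk hk1
  rw [← vA_eq' hμ hA h]
  have : (0 : ℝ) ≤ n := Nat.cast_nonneg n
  nlinarith [mul_le_mul_of_nonneg_left h1 this]

/-- The linear form of the same: `J` lies above the line of slope `A EE / (n vA)` beyond `vA`. -/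
theorem J_line (hμ : Pool.Agent.W_7d29a1_h47.EM μ) {A : ℝ} (hA : 0 < A) {n : ℕ} (h : vA μ A n < 1 / 2)
    {v : ℝ} (hv : vA μ A n ≤ v) (hv1 : v ≤ 1 / 2) : A * EE μ n * (v / vA μ A n) ≤ n * J μ v := by
  have hp := vA_pos hμ hA n
  have h1 := J_far hμ hA.le h (k := v / vA μ A n) (by rwa [le_div_iff₀ hp, one_mul])
    (by rw [div_mul_cancel₀ _ hp.ne']; exact hv1)
  rw [div_mul_cancel₀ _ hp.ne'] at h1
  linarith

/-- **The cost of a tilt** at the scale `n`. -/
theorem LL_le_EE (hμ : Pool.Agent.W_7d29a1_h47.EM μ) (hnd : Pool.Agent.W_7d29a1_h47.Nondeg μ) {A : ℝ}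
    (hA : 0 < A) {n : ℕ} (h : vA μ A n < 1 / 2) {s : ℝ} (hs : |s| * (n * vA μ A n) ≤ A * EE μ n) :
    n * LL μ s ≤ A * EE μ n := by
  have hp := vA_pos hμ hA n
  have hE := one_le_EE (μ := μ) n
  have hn : (0 : ℝ) ≤ n := Nat.cast_nonneg n
  have key : ∀ r : ℝ, 0 ≤ r → r * (n * vA μ A n) ≤ A * EE μ n → n * LL μ r ≤ A * EE μ n := by
    intro r hr hr2
    have hd := abs_lt.1 (LL_le hμ hnd r)
    have hJ := J_deriv hμ hnd r
    obtain ⟨u, hu⟩ : ∃ u : ℝ, u = deriv (LL μ) r := ⟨_, rfl⟩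
    rw [← hu] at hd hJ
    rcases le_total u (vA μ A n) with h1 | h1
    · have h2 : 0 ≤ J μ u := J_nonneg hμ (abs_le.2 ⟨hd.1.le, hd.2.le⟩)
      have h3 : n * (r * u) ≤ n * (r * vA μ A n) :=
        mul_le_mul_of_nonneg_left (mul_le_mul_of_nonneg_left h1 hr) hn
      have h4 : LL μ r ≤ r * u := by linarith
      have h5 := mul_le_mul_of_nonneg_left h4 hn
      nlinarith
    · have h2 := J_line hμ hA h h1 hd.2.le
      have h3 : n * (r * u) ≤ A * EE μ n * (u / vA μ A n) := by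
        have h4 : n * (r * u) = r * (n * vA μ A n) * (u / vA μ A n) := by
          field_simp
        rw [h4]
        exact mul_le_mul_of_nonneg_right hr2 (div_nonneg (hp.le.trans h1) hp.le)
      have h5 : n * LL μ r = n * (r * u) - n * J μ u := by
        have : LL μ r = r * u - J μ u := by linarith
        rw [this]
        ring
      have : 0 ≤ A * EE μ n := by positivity
      linarith
  rcases le_total 0 s with h0 | h0
  · exact key s h0 (by rwa [abs_of_nonneg h0] at hs)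
  · have := key (-s) (by linarith) (by rwa [abs_of_nonpos h0] at hs)
    rwa [LL_neg hμ] at this

end Pool.Agent.W_7d29a1_G
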