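import Pool.Agent.W_7d29a1_g.AbsX
import Pool.Agent.W_7d29a1_F.CoreB3

/-!
Track G (MP_7d29a1_pr), final step `hF2`, (ii) and a part of (iii): two alternatives with small means have almost
equal costs; two independent almost equal random variables are almost constant. (helper70)
-/

namespace Pool.Agent.W_7d29a1_G

open MeasureTheory ProbabilityTheory Pool.Agent.W_7d29a1_F Pool.Agent.W_7d29a1_g

variable {μ : Measure ℝ} [IsProbabilityMeasure μ] {s : ℝ}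

/-- The integral of an indicator. -/
theorem integral_ind {S : Set Env} (hS : MeasurableSet S) :
    ∫ η, S.indicator (fun _ => (1 : ℝ)) η ∂(law μ) = (law μ).real S := by
  rw [integral_indicator hS, setIntegral_const, smul_eq_mul, mul_one]

/-- Two independent variables which are almost equal are almost constant. -/
theorem exists_const {f g : Env → ℝ} {A : Set Pt} (hf : Measurable f) (hg : Measurable g) (hfA : DependsOn f Aᶜ)
    (hgA : DependsOn g A) (a : ℝ) :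
    ∃ c : ℝ, (law μ).real {η | a < |f η - c|} ≤ (law μ).real {η | a < |f η - g η|} := by
  classical
  have hmS : ∀ c : ℝ, MeasurableSet {η : Env | a < |f η - c|} := fun c =>
    measurableSet_lt measurable_const (measurable_norm.comp (hf.sub measurable_const))
  have hm : MeasurableSet {η : Env | a < |f η - g η|} :=
    measurableSet_lt measurable_const (measurable_norm.comp (hf.sub hg))
  obtain ⟨φ, hφ⟩ : ∃ φ : Env → ℝ, φ = {η : Env | a < |f η - g η|}.indicator fun _ => (1 : ℝ) := ⟨_, rfl⟩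
  have hφm : Measurable φ := by
    rw [hφ]
    exact measurable_const.indicator hm
  have hφi : Integrable φ (law μ) := by
    rw [hφ]
    exact (integrable_const (1 : ℝ)).indicator hm
  obtain ⟨h1, h2, -⟩ := integral_glue (μ := μ) A hφm hφi
  have key : ∀ η : Env, ∫ η', φ (fun p => if p ∈ A then η p else η' p) ∂(law μ) =
      (law μ).real {η' | a < |f η' - g η|} := by
    intro η
    rw [← integral_ind (hmS (g η))]
    refine integral_congr_ae (Filter.Eventually.of_forall fun η' => ?_)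
    have e1 : f (fun p => if p ∈ A then η p else η' p) = f η' := hfA fun p hp => if_neg hp
    have e2 : g (fun p => if p ∈ A then η p else η' p) = g η := hgA fun p hp => if_pos hp
    show φ (fun p => if p ∈ A then η p else η' p) = {η' : Env | a < |f η' - g η|}.indicator (fun _ => (1 : ℝ)) η'
    rw [hφ]
    unfold Set.indicator
    simp only [Set.mem_setOf_eq]
    rw [e1, e2]
  have h3 : ∫ η, φ η ∂(law μ) = (law μ).real {η | a < |f η - g η|} := by
    rw [hφ]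
    exact integral_ind hm
  obtain ⟨η, hη⟩ := exists_le_integral h2
  refine ⟨g η, ?_⟩
  rw [← key η, ← h3, h1]
  exact hη

/-- Two alternatives: `0 → (m0, a1) → (m0 + m, a1 + k) → Q` and the same with `a2`; the middle pieces have almost equal
costs if all means are small. -/
theorem two_alt (hEM : Pool.Agent.W_7d29a1_h47.EM μ) {m0 m m1 : ℕ} {a1 a2 b1 b2 k : ℤ}
    (ha1 : 0 ≤ a1 ∧ a1 ≤ m0) (ha2 : 0 ≤ a2 ∧ a2 ≤ m0) (hb1 : 0 ≤ b1 ∧ b1 ≤ m1) (hb2 : 0 ≤ b2 ∧ b2 ≤ m1)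
    (hk : 0 ≤ k ∧ k ≤ m) (hab : a1 + b1 = a2 + b2) :
    ∫ η, |X μ s η ((m0 : ℤ), a1) m k - X μ s η ((m0 : ℤ), a2) m k| ∂(law μ) ≤
      2 * (e μ s m0 a1 + e μ s m1 b1 + e μ s m0 a2 + e μ s m1 b2 + e μ s m k) := by
  have hi : ∀ {u : Env → ℝ}, Sub u → Integrable u (law μ) := fun hu => hu.integrable hEM
  -- the pieces
  have s1 : Sub fun η : Env => X μ s η 0 m0 a1 := Sub_X (0 : Pt) ha1.1 ha1.2
  have s2 : Sub fun η : Env => X μ s η 0 m0 a2 := Sub_X (0 : Pt) ha2.1 ha2.2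
  have y1 : Sub fun η : Env => X μ s η ((m0 : ℤ), a1) m k := Sub_X _ hk.1 hk.2
  have y2 : Sub fun η : Env => X μ s η ((m0 : ℤ), a2) m k := Sub_X _ hk.1 hk.2
  have t1 : Sub fun η : Env => X μ s η (((m0 : ℤ) + m, a1 + k)) m1 b1 := Sub_X _ hb1.1 hb1.2
  have t2 : Sub fun η : Env => X μ s η (((m0 : ℤ) + m, a2 + k)) m1 b2 := Sub_X _ hb2.1 hb2.2
  have q : Sub fun η : Env => X μ s η 0 (m0 + (m + m1)) (a1 + (k + b1)) :=
    Sub_X (0 : Pt) (by omega) (by push_cast; omega)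
  -- the costs of the alternatives
  have c1 : ∀ η, X μ s η 0 (m0 + (m + m1)) (a1 + (k + b1)) ≤
      X μ s η 0 m0 a1 + (X μ s η ((m0 : ℤ), a1) m k + X μ s η (((m0 : ℤ) + m, a1 + k)) m1 b1) := by
    intro η
    have h1 := X_add_le (μ := μ) (s := s) η (0 : Pt) (m := m0) (n := m + m1) (k := a1) (y := k + b1) ha1.1 ha1.2
      (by omega) (by push_cast; omega)
    have h2 := X_add_le (μ := μ) (s := s) η (((0 : Pt).1 + m0, (0 : Pt).2 + a1)) (m := m) (n := m1) (k := k) (y := b1)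
      hk.1 hk.2 hb1.1 hb1.2
    have e1 : (((0 : Pt).1 + m0, (0 : Pt).2 + a1) : Pt) = ((m0 : ℤ), a1) := by
      ext <;> simp
    rw [e1] at h1 h2
    linarith
  have c2 : ∀ η, X μ s η 0 (m0 + (m + m1)) (a1 + (k + b1)) ≤
      X μ s η 0 m0 a2 + (X μ s η ((m0 : ℤ), a2) m k + X μ s η (((m0 : ℤ) + m, a2 + k)) m1 b2) := by
    intro η
    have e0 : a1 + (k + b1) = a2 + (k + b2) := by omega
    rw [e0]
    have h1 := X_add_le (μ := μ) (s := s) η (0 : Pt) (m := m0) (n := m + m1) (k := a2) (y := k + b2) ha2.1 ha2.2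
      (by omega) (by push_cast; omega)
    have h2 := X_add_le (μ := μ) (s := s) η (((0 : Pt).1 + m0, (0 : Pt).2 + a2)) (m := m) (n := m1) (k := k) (y := b2)
      hk.1 hk.2 hb2.1 hb2.2
    have e1 : (((0 : Pt).1 + m0, (0 : Pt).2 + a2) : Pt) = ((m0 : ℤ), a2) := by
      ext <;> simp
    rw [e1] at h1 h2
    linarith
  -- independence
  have hfA : DependsOn (fun η : Env => X μ s η ((m0 : ℤ), a1) m k - X μ s η ((m0 : ℤ), a2) m k)
      (rows (m0 : ℤ) ((m0 : ℤ) + m)) := by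
    intro η η' h
    have h1 := X_dep_rows (μ := μ) (s := s) (((m0 : ℤ), a1) : Pt) m k h
    have h2 := X_dep_rows (μ := μ) (s := s) (((m0 : ℤ), a2) : Pt) m k h
    simp only at h1 h2 ⊢
    rw [h1, h2]
  have hgB : DependsOn (fun η : Env => (X μ s η 0 m0 a1 - X μ s η 0 m0 a2) +
      (X μ s η (((m0 : ℤ) + m, a1 + k)) m1 b1 - X μ s η (((m0 : ℤ) + m, a2 + k)) m1 b2))
      (rows 0 (m0 : ℤ) ∪ rows ((m0 : ℤ) + m) ((m0 : ℤ) + m + m1)) := by
    intro η η' h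
    have g1 : ∀ p ∈ rows (0 : Pt).1 ((0 : Pt).1 + m0), η p = η' p := fun p hp => h p (Or.inl (by simpa using hp))
    have g2 : ∀ p ∈ rows ((m0 : ℤ) + m) ((m0 : ℤ) + m + m1), η p = η' p := fun p hp => h p (Or.inr hp)
    have h1 := X_dep_rows (μ := μ) (s := s) (0 : Pt) m0 a1 g1
    have h2 := X_dep_rows (μ := μ) (s := s) (0 : Pt) m0 a2 g1
    have h3 := X_dep_rows (μ := μ) (s := s) ((((m0 : ℤ) + m, a1 + k)) : Pt) m1 b1 g2
    have h4 := X_dep_rows (μ := μ) (s := s) ((((m0 : ℤ) + m, a2 + k)) : Pt) m1 b2 g2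
    simp only at h1 h2 h3 h4 ⊢
    rw [h1, h2, h3, h4]
  have hd : Disjoint (rows (m0 : ℤ) ((m0 : ℤ) + m)) (rows 0 (m0 : ℤ) ∪ rows ((m0 : ℤ) + m) ((m0 : ℤ) + m + m1)) := by
    rw [Set.disjoint_union_right]
    exact ⟨(rows_disj le_rfl).symm, rows_disj le_rfl⟩
  have key := abs_le_abs_add hEM (y1.sub y2) ((s1.sub s2).add (t1.sub t2)) hfA hgB hd
  -- means
  have m1' : ∫ η, X μ s η 0 m0 a1 ∂(law μ) = e μ s m0 a1 := integral_X 0 m0 a1
  have m2' : ∫ η, X μ s η 0 m0 a2 ∂(law μ) = e μ s m0 a2 := integral_X 0 m0 a2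
  have m3' : ∫ η, X μ s η (((m0 : ℤ) + m, a1 + k)) m1 b1 ∂(law μ) = e μ s m1 b1 := integral_X _ m1 b1
  have m4' : ∫ η, X μ s η (((m0 : ℤ) + m, a2 + k)) m1 b2 ∂(law μ) = e μ s m1 b2 := integral_X _ m1 b2
  have m5' : ∫ η, X μ s η ((m0 : ℤ), a1) m k ∂(law μ) = e μ s m k := integral_X _ m k
  have m6' : ∫ η, X μ s η ((m0 : ℤ), a2) m k ∂(law μ) = e μ s m k := integral_X _ m k
  have m7' : ∫ η, X μ s η 0 (m0 + (m + m1)) (a1 + (k + b1)) ∂(law μ) = e μ s (m0 + (m + m1)) (a1 + (k + b1)) :=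
    integral_X 0 _ _
  have n1 : 0 ≤ e μ s m0 a1 := e_nonneg hEM s ha1.1 ha1.2
  have n2 : 0 ≤ e μ s m0 a2 := e_nonneg hEM s ha2.1 ha2.2
  have n3 : 0 ≤ e μ s m1 b1 := e_nonneg hEM s hb1.1 hb1.2
  have n4 : 0 ≤ e μ s m1 b2 := e_nonneg hEM s hb2.1 hb2.2
  have n7 : 0 ≤ e μ s (m0 + (m + m1)) (a1 + (k + b1)) := e_nonneg hEM s (by omega) (by push_cast; omega)
  have hz : ∫ η, ((X μ s η 0 m0 a1 - X μ s η 0 m0 a2) +
      (X μ s η (((m0 : ℤ) + m, a1 + k)) m1 b1 - X μ s η (((m0 : ℤ) + m, a2 + k)) m1 b2)) ∂(law μ) =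
      (e μ s m0 a1 - e μ s m0 a2) + (e μ s m1 b1 - e μ s m1 b2) := by
    rw [integral_add (hi (s1.sub s2)) (hi (t1.sub t2)), integral_sub (hi s1) (hi s2), integral_sub (hi t1) (hi t2),
      m1', m2', m3', m4']
  have hza : |∫ η, ((X μ s η 0 m0 a1 - X μ s η 0 m0 a2) +
      (X μ s η (((m0 : ℤ) + m, a1 + k)) m1 b1 - X μ s η (((m0 : ℤ) + m, a2 + k)) m1 b2)) ∂(law μ)| ≤
      e μ s m0 a1 + e μ s m0 a2 + (e μ s m1 b1 + e μ s m1 b2) := by
    rw [hz, abs_le]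
    constructor <;> linarith
  have hpt : ∀ η, |(X μ s η ((m0 : ℤ), a1) m k - X μ s η ((m0 : ℤ), a2) m k) +
      ((X μ s η 0 m0 a1 - X μ s η 0 m0 a2) +
      (X μ s η (((m0 : ℤ) + m, a1 + k)) m1 b1 - X μ s η (((m0 : ℤ) + m, a2 + k)) m1 b2))| ≤
      ((X μ s η 0 m0 a1 + X μ s η 0 m0 a2) + (X μ s η ((m0 : ℤ), a1) m k + X μ s η ((m0 : ℤ), a2) m k) +
      (X μ s η (((m0 : ℤ) + m, a1 + k)) m1 b1 + X μ s η (((m0 : ℤ) + m, a2 + k)) m1 b2)) -
      2 * X μ s η 0 (m0 + (m + m1)) (a1 + (k + b1)) := by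
    intro η
    have h1 := c1 η
    have h2 := c2 η
    rw [abs_le]
    constructor <;> linarith
  have hq2 := q.const_mul 2
  have hsy := (s1.add s2).add (y1.add y2)
  have hsyt := hsy.add (t1.add t2)
  have hmono := integral_mono (hi ((y1.sub y2).add ((s1.sub s2).add (t1.sub t2))).abs)
    (hi (hsyt.sub hq2)) hpt
  have hsum : ∫ η, (((X μ s η 0 m0 a1 + X μ s η 0 m0 a2) +
      (X μ s η ((m0 : ℤ), a1) m k + X μ s η ((m0 : ℤ), a2) m k) +
      (X μ s η (((m0 : ℤ) + m, a1 + k)) m1 b1 + X μ s η (((m0 : ℤ) + m, a2 + k)) m1 b2)) -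
      2 * X μ s η 0 (m0 + (m + m1)) (a1 + (k + b1))) ∂(law μ) =
      (e μ s m0 a1 + e μ s m0 a2) + (e μ s m k + e μ s m k) + (e μ s m1 b1 + e μ s m1 b2) -
        2 * e μ s (m0 + (m + m1)) (a1 + (k + b1)) := by
    rw [integral_sub (hi hsyt) (hi hq2), integral_add (hi hsy) (hi (t1.add t2)),
      integral_add (hi (s1.add s2)) (hi (y1.add y2)), integral_add (hi s1) (hi s2), integral_add (hi y1) (hi y2),
      integral_add (hi t1) (hi t2), integral_const_mul, m1', m2', m3', m4', m5', m6', m7']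
  have hmono' : ∫ η, |(X μ s η ((m0 : ℤ), a1) m k - X μ s η ((m0 : ℤ), a2) m k) +
      ((X μ s η 0 m0 a1 - X μ s η 0 m0 a2) +
      (X μ s η (((m0 : ℤ) + m, a1 + k)) m1 b1 - X μ s η (((m0 : ℤ) + m, a2 + k)) m1 b2))| ∂(law μ) ≤
      (e μ s m0 a1 + e μ s m0 a2) + (e μ s m k + e μ s m k) + (e μ s m1 b1 + e μ s m1 b2) -
        2 * e μ s (m0 + (m + m1)) (a1 + (k + b1)) := hsum ▸ hmono
  linarith

end Pool.Agent.W_7d29a1_G
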