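import Pool.Agent.W_7d29a1_G.FinA
import Pool.Agent.W_7d29a1_h95g.Exit
import Pool.Agent.W_7d29a1_h60.LuckBound

/-!
Track G (MP_7d29a1_pr), final step `hF2`, (iii): a point to point weight is carried by the paths which do not touch a
far line (the price of the way to the line is paid by a tilt), hence two point to point costs on the two sides of a line
are almost independent. (helper70)
-/

namespace Pool.Agent.W_7d29a1_G

open MeasureTheory ProbabilityTheory Pool.Agent.W_7d29a1_F Pool.Agent.W_7d29a1_g Pool.Agent.W_7d29a1_h95g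

variable {μ : Measure ℝ} {s : ℝ}

/-- Change of the tilt. -/
theorem W_tilt (s h : ℝ) (η : Env) (a : Pt) (n : ℕ) (y : ℤ) :
    W μ s η a n y = W μ (s + h) η a n y * Real.exp (n * (lam μ (s + h) - lam μ s) - h * y) := by
  unfold W WR
  rw [mul_right_comm, ← Real.exp_add]
  congr 2
  ring

/-- The weight of the paths which touch the line is small. -/
theorem exit_bound {L : Set Pt} {c : ℤ → ℤ} (hL : ExitAt L c) {a : Pt} (ha : a ∈ L) (s h : ℝ) (n : ℕ) (y : ℤ)
    (η : Env) {Y D : ℝ} (hY1 : ∀ j < n, V μ (s + h) η a (j + 1) ≤ Y)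
    (hY2 : ∀ j < n, V μ s η (bk c a j) (n - (j + 1)) ≤ Y)
    (hD : ∀ j < n, ((j : ℝ) + 1) * (lam μ (s + h) - lam μ s) - h * (dk c a j : ℝ) ≤ -D) :
    W μ s η a n y ≤ WR μ s L η a n y + n * Real.exp (2 * Y - D) := by
  have h1 := exit_decomp hL Set.univ η ha n y
  rw [Set.univ_inter] at h1
  have h2 : W μ s η a n y = WR μ s L η a n y + ∑ k ∈ Finset.range n,
      Real.exp (s * y - n * lam μ s) * (Fk Set.univ L c η a k * Zr Set.univ η (bk c a k) (n - (k + 1)) (y - dk c a k)) := by
    unfold W WR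
    rw [h1, mul_add, Finset.mul_sum]
  rw [h2]
  have h3 : ∀ k ∈ Finset.range n, Real.exp (s * y - n * lam μ s) *
      (Fk Set.univ L c η a k * Zr Set.univ η (bk c a k) (n - (k + 1)) (y - dk c a k)) ≤ Real.exp (2 * Y - D) := by
    intro k hk
    rw [Finset.mem_range] at hk
    have hF : Fk Set.univ L c η a k ≤ Zr Set.univ η a (k + 1) (dk c a k) := by
      unfold Fk
      exact Zr_mono (Set.inter_subset_left) η a _ _
    have hZ : 0 ≤ Zr Set.univ η (bk c a k) (n - (k + 1)) (y - dk c a k) := Zr_nonneg _ _ _ _ _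
    have e1 : Real.exp (s * y - n * lam μ s) =
        Real.exp (s * (dk c a k : ℝ) - ((k + 1 : ℕ) : ℝ) * lam μ s) *
          Real.exp (s * ((y - dk c a k : ℤ) : ℝ) - ((n - (k + 1) : ℕ) : ℝ) * lam μ s) := by
      rw [← Real.exp_add]
      congr 1
      rw [Nat.cast_sub (by omega)]
      push_cast
      ring
    have e2 : Real.exp (s * y - n * lam μ s) *
        (Zr Set.univ η a (k + 1) (dk c a k) * Zr Set.univ η (bk c a k) (n - (k + 1)) (y - dk c a k)) =
        W μ s η a (k + 1) (dk c a k) * W μ s η (bk c a k) (n - (k + 1)) (y - dk c a k) := by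
      unfold W WR
      rw [e1]
      ring
    have g1 : W μ s η a (k + 1) (dk c a k) ≤ Real.exp (Y - D) := by
      rw [W_tilt s h]
      have g2 : W μ (s + h) η a (k + 1) (dk c a k) ≤ Real.exp (V μ (s + h) η a (k + 1)) := by
        have g3 := WS_le_exp_V (μ := μ) (s := s + h) η a (k + 1) {dk c a k}
        unfold WS at g3
        rwa [Finset.sum_singleton] at g3
      have g4 : Real.exp (((k + 1 : ℕ) : ℝ) * (lam μ (s + h) - lam μ s) - h * (dk c a k : ℝ)) ≤ Real.exp (-D) := by
        rw [Real.exp_le_exp]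
        have := hD k hk
        push_cast
        exact this
      calc W μ (s + h) η a (k + 1) (dk c a k) *
            Real.exp (((k + 1 : ℕ) : ℝ) * (lam μ (s + h) - lam μ s) - h * (dk c a k : ℝ))
          ≤ Real.exp (V μ (s + h) η a (k + 1)) * Real.exp (-D) :=
            mul_le_mul g2 g4 (Real.exp_pos _).le (Real.exp_pos _).le
        _ ≤ Real.exp Y * Real.exp (-D) :=
            mul_le_mul_of_nonneg_right (Real.exp_le_exp.2 (hY1 k hk)) (Real.exp_pos _).le
        _ = Real.exp (Y - D) := by rw [← Real.exp_add]; rfl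
    have g5 : W μ s η (bk c a k) (n - (k + 1)) (y - dk c a k) ≤ Real.exp Y := by
      have g3 := WS_le_exp_V (μ := μ) (s := s) η (bk c a k) (n - (k + 1)) {y - dk c a k}
      unfold WS at g3
      rw [Finset.sum_singleton] at g3
      exact g3.trans (Real.exp_le_exp.2 (hY2 k hk))
    calc Real.exp (s * y - n * lam μ s) *
          (Fk Set.univ L c η a k * Zr Set.univ η (bk c a k) (n - (k + 1)) (y - dk c a k))
        ≤ Real.exp (s * y - n * lam μ s) *
          (Zr Set.univ η a (k + 1) (dk c a k) * Zr Set.univ η (bk c a k) (n - (k + 1)) (y - dk c a k)) :=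
          mul_le_mul_of_nonneg_left (mul_le_mul_of_nonneg_right hF hZ) (Real.exp_pos _).le
      _ = W μ s η a (k + 1) (dk c a k) * W μ s η (bk c a k) (n - (k + 1)) (y - dk c a k) := e2
      _ ≤ Real.exp (Y - D) * Real.exp Y := mul_le_mul g1 g5 (W_nonneg _ _ _ _) (Real.exp_pos _).le
      _ = Real.exp (2 * Y - D) := by
          rw [← Real.exp_add]
          congr 1
          ring
  have h4 := Finset.sum_le_card_nsmul (Finset.range n) _ _ h3
  rw [Finset.card_range, nsmul_eq_mul] at h4
  linarith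

/-- Under the bounds of `exit_bound`, the cost inside `L` is the cost up to `log 2`. -/
theorem cost_inside {L : Set Pt} {c : ℤ → ℤ} (hL : ExitAt L c) {a : Pt} (ha : a ∈ L) (s h : ℝ) {n : ℕ} {y : ℤ}
    (h0 : 0 ≤ y) (h1 : y ≤ n) (η : Env) {Y Z D : ℝ} (hY1 : ∀ j < n, V μ (s + h) η a (j + 1) ≤ Y)
    (hY2 : ∀ j < n, V μ s η (bk c a j) (n - (j + 1)) ≤ Y)
    (hD : ∀ j < n, ((j : ℝ) + 1) * (lam μ (s + h) - lam μ s) - h * (dk c a j : ℝ) ≤ -D)
    (hX : X μ s η a n y ≤ Z) (hn : Real.log (2 * n) + 2 * Y + Z ≤ D) :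
    0 < WR μ s L η a n y ∧ |-Real.log (WR μ s L η a n y) - X μ s η a n y| ≤ Real.log 2 := by
  have hb := exit_bound hL ha s h n y η hY1 hY2 hD
  have hW := W_pos (μ := μ) (s := s) η a h0 h1
  have hWZ : Real.exp (-Z) ≤ W μ s η a n y := by
    have e1 : W μ s η a n y = Real.exp (-X μ s η a n y) := by
      unfold X
      rw [neg_neg, Real.exp_log hW]
    rw [e1, Real.exp_le_exp]
    linarith
  have hhalf : (n : ℝ) * Real.exp (2 * Y - D) ≤ (1 / 2) * W μ s η a n y := by
    rcases Nat.eq_zero_or_pos n with hn0 | hn0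
    · subst hn0
      simp only [Nat.cast_zero, zero_mul]
      positivity
    · have hn1 : (0 : ℝ) < n := by exact_mod_cast hn0
      have e1 : 2 * (n : ℝ) * Real.exp (2 * Y - D) ≤ Real.exp (-Z) := by
        rw [← Real.exp_log (show (0 : ℝ) < 2 * n by positivity), ← Real.exp_add, Real.exp_le_exp]
        linarith
      linarith
  have hlow : (1 / 2) * W μ s η a n y ≤ WR μ s L η a n y := by linarith
  have hpos : 0 < WR μ s L η a n y := lt_of_lt_of_le (by positivity) hlow
  refine ⟨hpos, ?_⟩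
  have hup := WR_le_W (μ := μ) (s := s) L η a n y
  have l1 := Real.log_le_log hpos hup
  have l2 := Real.log_le_log (by positivity) hlow
  rw [Real.log_mul (by norm_num) hW.ne', one_div, Real.log_inv] at l2
  have l3 : 0 ≤ Real.log 2 := Real.log_nonneg (by norm_num)
  unfold X
  rw [abs_le]
  constructor <;> linarith

end Pool.Agent.W_7d29a1_G
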