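import Pool.Agent.W_7d29a1_G.FinB
import Pool.Agent.W_7d29a1_h60.LuckDens

/-!
Track G (MP_7d29a1_pr), final step `hF2`, (iii) and (iv): the cost of a displacement is concentrated around a constant,
the constant is at least `-` small, and the mean negative part is small. (helper70)
-/

namespace Pool.Agent.W_7d29a1_G

open MeasureTheory ProbabilityTheory Pool.Agent.W_7d29a1_F Pool.Agent.W_7d29a1_g Pool.Agent.W_7d29a1_h95g

variable {μ : Measure ℝ} [IsProbabilityMeasure μ] {s : ℝ}

theorem measurable_logWR (R : Set Pt) (a : Pt) (n : ℕ) (y : ℤ) :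
    Measurable fun η : Env => -Real.log (WR μ s R η a n y) :=
  (Real.measurable_log.comp (measurable_WR R a n y)).neg

/-- The cost of a displacement is concentrated around a constant if the costs at two places on the two sides of a line
are almost equal and are the costs inside the two half planes up to `log 2`. -/
theorem conc_const {c : ℤ → ℤ} {a1 a2 : Pt} {m : ℕ} {k : ℤ} {b ε1 ε2 ε3 : ℝ}
    (hg1 : (law μ).real {η | ¬ |-Real.log (WR μ s {p | c p.1 < p.2} η a1 m k) - X μ s η a1 m k| ≤ Real.log 2} ≤ ε1)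
    (hg2 : (law μ).real {η | ¬ |-Real.log (WR μ s {p | p.2 < c p.1} η a2 m k) - X μ s η a2 m k| ≤ Real.log 2} ≤ ε2)
    (h12 : (law μ).real {η | b < |X μ s η a1 m k - X μ s η a2 m k|} ≤ ε3) :
    ∃ c0 : ℝ, (law μ).real {η | b + 3 * Real.log 2 < |X μ s η 0 m k - c0|} ≤ 2 * ε1 + ε2 + ε3 := by
  have hf := measurable_logWR (μ := μ) (s := s) {p : Pt | c p.1 < p.2} a1 m k
  have hg := measurable_logWR (μ := μ) (s := s) {p : Pt | p.2 < c p.1} a2 m k
  have hfA : DependsOn (fun η : Env => -Real.log (WR μ s {p : Pt | c p.1 < p.2} η a1 m k))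
      ({p : Pt | p.2 < c p.1})ᶜ := by
    intro η η' h
    have h1 : WR μ s {p : Pt | c p.1 < p.2} η a1 m k = WR μ s {p : Pt | c p.1 < p.2} η' a1 m k :=
      WR_dep (μ := μ) (s := s) _ a1 m k fun p hp => h p fun hq => by
        have h3 : c p.1 < p.2 := hp.2
        have h4 : p.2 < c p.1 := hq
        omega
    show -Real.log (WR μ s {p : Pt | c p.1 < p.2} η a1 m k) = -Real.log (WR μ s {p : Pt | c p.1 < p.2} η' a1 m k)
    rw [h1]
  have hgA : DependsOn (fun η : Env => -Real.log (WR μ s {p : Pt | p.2 < c p.1} η a2 m k)) {p : Pt | p.2 < c p.1} := by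
    intro η η' h
    have h1 : WR μ s {p : Pt | p.2 < c p.1} η a2 m k = WR μ s {p : Pt | p.2 < c p.1} η' a2 m k :=
      WR_dep (μ := μ) (s := s) _ a2 m k fun p hp => h p hp.2
    show -Real.log (WR μ s {p : Pt | p.2 < c p.1} η a2 m k) = -Real.log (WR μ s {p : Pt | p.2 < c p.1} η' a2 m k)
    rw [h1]
  obtain ⟨c0, hc0⟩ := exists_const (μ := μ) hf hg hfA hgA (b + 2 * Real.log 2)
  refine ⟨c0, ?_⟩
  have hbad : (law μ).real {η | b + 2 * Real.log 2 < |-Real.log (WR μ s {p : Pt | c p.1 < p.2} η a1 m k) -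
      -Real.log (WR μ s {p : Pt | p.2 < c p.1} η a2 m k)|} ≤ ε1 + (ε2 + ε3) := by
    refine le_trans (measureReal_mono (s₂ := {η | ¬ |-Real.log (WR μ s {p | c p.1 < p.2} η a1 m k) - X μ s η a1 m k| ≤ Real.log 2} ∪
      ({η | ¬ |-Real.log (WR μ s {p | p.2 < c p.1} η a2 m k) - X μ s η a2 m k| ≤ Real.log 2} ∪
      {η | b < |X μ s η a1 m k - X μ s η a2 m k|})) ?_) ?_
    · intro η hη
      by_contra hcon
      simp only [Set.mem_union, Set.mem_ofPred_eq, not_or, not_not, not_lt] at hcon hη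
      obtain ⟨g1, g2, g3⟩ := hcon
      rw [abs_le] at g1 g2 g3
      have : |-Real.log (WR μ s {p : Pt | c p.1 < p.2} η a1 m k) -
          -Real.log (WR μ s {p : Pt | p.2 < c p.1} η a2 m k)| ≤ b + 2 * Real.log 2 := by
        rw [abs_le]
        constructor <;> linarith [g1.1, g1.2, g2.1, g2.2, g3.1, g3.2]
      linarith
    · refine (measureReal_union_le _ _).trans (add_le_add hg1 ((measureReal_union_le _ _).trans (add_le_add hg2 h12)))
  have hX : (law μ).real {η | b + 3 * Real.log 2 < |X μ s η a1 m k - c0|} ≤ ε1 + (ε1 + (ε2 + ε3)) := by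
    refine le_trans (measureReal_mono (s₂ := {η | ¬ |-Real.log (WR μ s {p | c p.1 < p.2} η a1 m k) - X μ s η a1 m k| ≤ Real.log 2} ∪
      {η | b + 2 * Real.log 2 < |-Real.log (WR μ s {p : Pt | c p.1 < p.2} η a1 m k) - c0|}) ?_) ?_
    · intro η hη
      by_contra hcon
      simp only [Set.mem_union, Set.mem_ofPred_eq, not_or, not_not, not_lt] at hcon hη
      obtain ⟨g1, g2⟩ := hcon
      rw [abs_le] at g1 g2
      have : |X μ s η a1 m k - c0| ≤ b + 3 * Real.log 2 := by
        rw [abs_le]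
        constructor <;> linarith [g1.1, g1.2, g2.1, g2.2]
      linarith
    · exact (measureReal_union_le _ _).trans (add_le_add hg1 (hc0.trans hbad))
  have hm : MeasurableSet {η : Env | b + 3 * Real.log 2 < |X μ s η 0 m k - c0|} :=
    measurableSet_lt measurable_const (measurable_norm.comp ((measurable_X 0 m k).sub measurable_const))
  have hsh := real_sh (μ := μ) a1 hm
  have e1 : {η : Env | sh a1 η ∈ {η : Env | b + 3 * Real.log 2 < |X μ s η 0 m k - c0|}} =
      {η | b + 3 * Real.log 2 < |X μ s η a1 m k - c0|} := by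
    ext η
    simp only [Set.mem_ofPred_eq]
    rw [X_sh, zero_add]
  rw [e1] at hsh
  rw [← hsh]
  linarith

/-- Subadditivity along a line. -/
theorem X_iter_le (η : Env) {m : ℕ} {k : ℤ} (hk : 0 ≤ k ∧ k ≤ m) (N : ℕ) :
    X μ s η 0 (N * m) (N * k) ≤ ∑ i ∈ Finset.range N, X μ s η (((i * m : ℕ) : ℤ), (i * k : ℤ)) m k := by
  induction N with
  | zero =>
    simp only [Nat.cast_zero, zero_mul, Finset.range_zero, Finset.sum_empty]
    unfold X W WR
    simp [Zr]
  | succ N ih =>
    rw [Finset.sum_range_succ]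
    have hk1 : 0 ≤ (N : ℤ) * k := mul_nonneg (Nat.cast_nonneg _) hk.1
    have hk2 : (N : ℤ) * k ≤ ((N * m : ℕ) : ℤ) := by
      push_cast
      exact mul_le_mul_of_nonneg_left hk.2 (Nat.cast_nonneg _)
    have h := X_add_le (μ := μ) (s := s) η (0 : Pt) (m := N * m) (n := m) (k := N * k) (y := k) hk1 hk2 hk.1 hk.2
    have e1 : (N + 1) * m = N * m + m := by ring
    have e2 : (((N + 1 : ℕ) : ℤ) * k) = N * k + k := by push_cast; ring
    rw [e1, e2]
    have e3 : (((0 : Pt).1 + ((N * m : ℕ) : ℤ), (0 : Pt).2 + (N : ℤ) * k) : Pt) = (((N * m : ℕ) : ℤ), (N * k : ℤ)) := by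
      ext <;> simp
    rw [e3] at h
    linarith

/-- If the cost is concentrated around `c0`, then `- c0` is small. -/
theorem const_ge (hEM : Pool.Agent.W_7d29a1_h47.EM μ) {m : ℕ} {k : ℤ} (hk : 0 ≤ k ∧ k ≤ m) {c0 b ε A : ℝ}
    (hconc : (law μ).real {η | b < |X μ s η 0 m k - c0|} ≤ ε) {N : ℕ} (hN1 : 1 ≤ N) (hN : N * ε ≤ 1 / 2)
    (hA : ∫ η, max (X μ s η 0 (N * m) (N * k)) 0 ∂(law μ) ≤ A) : -c0 - b ≤ 2 * A / N := by
  by_contra hcon
  push Not at hcon
  have hA0 : 0 ≤ A := (integral_nonneg fun η => le_max_right _ _).trans hA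
  have hNpos : (0 : ℝ) < N := by exact_mod_cast hN1
  have hx : 0 < -c0 - b := lt_of_le_of_lt (by positivity) hcon
  have hk1 : 0 ≤ (N : ℤ) * k := mul_nonneg (Nat.cast_nonneg _) hk.1
  have hk2 : (N : ℤ) * k ≤ ((N * m : ℕ) : ℤ) := by
    push_cast
    exact mul_le_mul_of_nonneg_left hk.2 (Nat.cast_nonneg _)
  have hXN : Sub fun η : Env => X μ s η 0 (N * m) (N * k) := Sub_X (0 : Pt) hk1 hk2
  -- the good event
  obtain ⟨B, hB⟩ : ∃ B : ℕ → Set Env, B = fun i => {η | b < |X μ s η (((i * m : ℕ) : ℤ), (i * k : ℤ)) m k - c0|} :=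
    ⟨_, rfl⟩
  have hBm : ∀ i, MeasurableSet (B i) := by
    intro i
    rw [hB]
    exact measurableSet_lt measurable_const (measurable_norm.comp ((measurable_X _ m k).sub measurable_const))
  have hBi : ∀ i, (law μ).real (B i) ≤ ε := by
    intro i
    have hm : MeasurableSet {η : Env | b < |X μ s η 0 m k - c0|} :=
      measurableSet_lt measurable_const (measurable_norm.comp ((measurable_X 0 m k).sub measurable_const))
    have hsh := real_sh (μ := μ) (((i * m : ℕ) : ℤ), (i * k : ℤ)) hm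
    have e1 : {η : Env | sh (((i * m : ℕ) : ℤ), (i * k : ℤ)) η ∈ {η : Env | b < |X μ s η 0 m k - c0|}} = B i := by
      rw [hB]
      ext η
      simp only [Set.mem_ofPred_eq]
      rw [X_sh, zero_add]
    rw [e1] at hsh
    rw [hsh]
    exact hconc
  obtain ⟨U, hU⟩ : ∃ U : Set Env, U = ⋃ i ∈ Finset.range N, B i := ⟨_, rfl⟩
  have hUm : MeasurableSet U := by
    rw [hU]
    exact Finset.measurableSet_biUnion _ fun i _ => hBm i
  have hUp : (law μ).real U ≤ 1 / 2 := by
    rw [hU]
    refine (measureReal_biUnion_finset_le _ _).trans ?_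
    refine (Finset.sum_le_card_nsmul _ _ _ fun i _ => hBi i).trans ?_
    rw [Finset.card_range, nsmul_eq_mul]
    exact hN
  have hUc : 1 / 2 ≤ (law μ).real Uᶜ := by
    rw [probReal_compl_eq_one_sub hUm]
    linarith
  -- on the good event the cost of the `N` slots is very negative
  have hpt : ∀ η, Uᶜ.indicator (fun _ => (N : ℝ) * (-c0 - b)) η ≤ max (-X μ s η 0 (N * m) (N * k)) 0 := by
    intro η
    by_cases hη : η ∈ Uᶜ
    · rw [Set.indicator_of_mem hη]
      refine le_trans ?_ (le_max_left _ _)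
      have h1 := X_iter_le (μ := μ) (s := s) η hk N
      have h2 : ∑ i ∈ Finset.range N, X μ s η (((i * m : ℕ) : ℤ), (i * k : ℤ)) m k ≤ N * (c0 + b) := by
        have h3 : ∀ i ∈ Finset.range N, X μ s η (((i * m : ℕ) : ℤ), (i * k : ℤ)) m k ≤ c0 + b := by
          intro i hi
          have h4 : η ∉ B i := fun h5 => hη (by rw [hU]; exact Set.mem_biUnion hi h5)
          rw [hB] at h4
          simp only [Set.mem_ofPred_eq, not_lt] at h4
          rw [abs_le] at h4
          linarith [h4.2]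
        have h5 := Finset.sum_le_card_nsmul _ _ _ h3
        rwa [Finset.card_range, nsmul_eq_mul] at h5
      nlinarith
    · rw [Set.indicator_of_notMem hη]
      exact le_max_right _ _
  have hneg : Sub fun η : Env => max (-X μ s η 0 (N * m) (N * k)) 0 := hXN.neg.max (Sub.const 0)
  have h1 := integral_mono ((integrable_const ((N : ℝ) * (-c0 - b))).indicator hUm.compl) (hneg.integrable hEM) hpt
  rw [integral_indicator hUm.compl, setIntegral_const, smul_eq_mul] at h1
  -- the mean negative part is at most the mean positive part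
  have e2 : ∀ η, max (-X μ s η 0 (N * m) (N * k)) 0 = max (X μ s η 0 (N * m) (N * k)) 0 - X μ s η 0 (N * m) (N * k) := by
    intro η
    rcases le_total 0 (X μ s η 0 (N * m) (N * k)) with h | h
    · rw [max_eq_right (by linarith), max_eq_left h]
      ring
    · rw [max_eq_left (by linarith), max_eq_right h]
      ring
  have h2 : ∫ η, max (-X μ s η 0 (N * m) (N * k)) 0 ∂(law μ) ≤ A := by
    have h3 : ∫ η, max (-X μ s η 0 (N * m) (N * k)) 0 ∂(law μ) =
        (∫ η, max (X μ s η 0 (N * m) (N * k)) 0 ∂(law μ)) - e μ s (N * m) (N * k) := by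
      rw [integral_congr_ae (Filter.Eventually.of_forall e2),
        integral_sub ((hXN.max (Sub.const 0)).integrable hEM) (hXN.integrable hEM), integral_X 0 (N * m) (N * k)]
    rw [h3]
    have h4 := e_nonneg hEM s hk1 hk2
    linarith
  have h5 : (1 / 2) * ((N : ℝ) * (-c0 - b)) ≤ (law μ).real Uᶜ * ((N : ℝ) * (-c0 - b)) :=
    mul_le_mul_of_nonneg_right hUc (by positivity)
  rw [div_lt_iff₀ hNpos] at hcon
  linarith

/-- The mean of the luck on a small event (from the luck bound for bounded densities). -/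
theorem luck_bad (hEM : Pool.Agent.W_7d29a1_h47.EM μ) {m M : ℕ} (z : ℕ → ℤ) (hz : ∀ j ≤ M, 0 ≤ z j ∧ z j ≤ j)
    {A ε δ : ℝ} (hX : ∀ j ≤ M, ∫ η, max (X μ s η 0 j (z j)) 0 ∂(law μ) ≤ A) {S : Set Env} (hS : MeasurableSet S)
    (hSd : ∀ η η' : Env, (∀ p ∈ rows 0 (m : ℤ), η p = η' p) → (η ∈ S ↔ η' ∈ S)) (hSe : (law μ).real S ≤ ε)
    (hδ : 0 < δ) (hδ1 : δ ≤ 1) (hmM : m ≤ M) (hM : 2 / δ * m ≤ M) :
    ∫ η, S.indicator (fun η => max (V μ s η 0 m) 0) η ∂(law μ) ≤ 7 * A * (ε + δ) := by
  classical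
  have hA : 0 ≤ A := (integral_nonneg fun η => le_max_right _ _).trans (hX 0 (Nat.zero_le _))
  have hε : 0 ≤ ε := measureReal_nonneg.trans hSe
  have hVS : Sub fun η : Env => V μ s η 0 m := Sub_V 0 m
  have hVd : DependsOn (fun η : Env => V μ s η 0 m) (rows 0 (m : ℤ)) := by
    have h := V_dep_rows (μ := μ) (s := s) (0 : Pt) m
    simpa using h
  obtain ⟨T, hT⟩ : ∃ T : Set Env, T = S ∩ {η | 0 ≤ V μ s η 0 m} := ⟨_, rfl⟩
  have hTm : MeasurableSet T := by
    rw [hT]
    exact hS.inter (measurableSet_le measurable_const hVS.1)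
  have hTe : (law μ).real T ≤ ε := by
    rw [hT]
    exact (measureReal_mono Set.inter_subset_left).trans hSe
  obtain ⟨q, hq⟩ : ∃ q : ℝ, q = (law μ).real T + δ := ⟨_, rfl⟩
  have hqδ : δ ≤ q := by rw [hq]; linarith [measureReal_nonneg (μ := law μ) (s := T)]
  have hq0 : 0 < q := hδ.trans_le hqδ
  have hqe : q ≤ ε + δ := by rw [hq]; linarith
  obtain ⟨f, hf⟩ : ∃ f : Env → ℝ, f = fun η => (T.indicator (fun _ => (1 : ℝ)) η + δ) / q := ⟨_, rfl⟩
  have hi1 : Integrable (T.indicator fun _ => (1 : ℝ)) (law μ) := (integrable_const _).indicator hTm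
  have hfm : Measurable f := by
    rw [hf]
    exact ((measurable_const.indicator hTm).add measurable_const).div_const q
  have hind : ∀ η, 0 ≤ T.indicator (fun _ => (1 : ℝ)) η ∧ T.indicator (fun _ => (1 : ℝ)) η ≤ 1 := fun η => by
    by_cases h : η ∈ T
    · rw [Set.indicator_of_mem h]; norm_num
    · rw [Set.indicator_of_notMem h]; norm_num
  have hf0 : ∀ η, 0 ≤ f η := fun η => by
    rw [hf]
    have := (hind η).1
    positivity
  have hfD : ∀ η, f η ≤ 2 / δ := fun η => by
    rw [hf]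
    show (T.indicator (fun _ => (1 : ℝ)) η + δ) / q ≤ 2 / δ
    have := (hind η).2
    exact div_le_div₀ (by norm_num) (by linarith) hδ hqδ
  have hf1 : ∫ η, f η ∂(law μ) = 1 := by
    rw [hf]
    show ∫ η, (T.indicator (fun _ => (1 : ℝ)) η + δ) / q ∂(law μ) = 1
    rw [integral_div, integral_add hi1 (integrable_const _), integral_ind hTm, integral_const, probReal_univ, one_smul,
      ← hq, div_self hq0.ne']
  have hfd : DependsOn f (rows 0 (m : ℤ)) := by
    intro η η' h
    have h1 : η ∈ T ↔ η' ∈ T := by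
      rw [hT]
      have h2 : V μ s η 0 m = V μ s η' 0 m := hVd h
      simp only [Set.mem_inter_iff, Set.mem_ofPred_eq]
      rw [h2, hSd η η' h]
    rw [hf]
    show (T.indicator (fun _ => (1 : ℝ)) η + δ) / q = (T.indicator (fun _ => (1 : ℝ)) η' + δ) / q
    by_cases h3 : η ∈ T
    · rw [Set.indicator_of_mem h3, Set.indicator_of_mem (h1.1 h3)]
    · rw [Set.indicator_of_notMem h3, Set.indicator_of_notMem fun h4 => h3 (h1.2 h4)]
  have key := Pool.Agent.W_7d29a1_h60.luck_density hEM s m M z hz hX hfm hf0 hfD hf1 hfd hM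
  -- lower bound of the mean of `V`
  have hV0 : -A ≤ ∫ η, V μ s η 0 m ∂(law μ) := by
    have hzm := hz m hmM
    have hXS : Sub fun η : Env => X μ s η 0 m (z m) := Sub_X (0 : Pt) hzm.1 hzm.2
    have h1 : ∫ η, -max (X μ s η 0 m (z m)) 0 ∂(law μ) ≤ ∫ η, V μ s η 0 m ∂(law μ) := by
      refine integral_mono (((hXS.max (Sub.const 0)).neg).integrable hEM) (hVS.integrable hEM) fun η => ?_
      have h2 := neg_X_le_V (μ := μ) (s := s) η 0 hzm.1 hzm.2
      have h3 := le_max_left (X μ s η 0 m (z m)) 0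
      show -max (X μ s η 0 m (z m)) 0 ≤ V μ s η 0 m
      linarith
    rw [integral_neg] at h1
    have h4 := hX m hmM
    linarith
  -- the integral of `f V`
  have hfV : ∫ η, f η * V μ s η 0 m ∂(law μ) =
      ((∫ η, S.indicator (fun η => max (V μ s η 0 m) 0) η ∂(law μ)) + δ * ∫ η, V μ s η 0 m ∂(law μ)) / q := by
    have e1 : ∀ η, f η * V μ s η 0 m =
        (S.indicator (fun η => max (V μ s η 0 m) 0) η + δ * V μ s η 0 m) / q := by
      intro η
      rw [hf]
      show (T.indicator (fun _ => (1 : ℝ)) η + δ) / q * V μ s η 0 m =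
        (S.indicator (fun η => max (V μ s η 0 m) 0) η + δ * V μ s η 0 m) / q
      have e2 : T.indicator (fun _ => (1 : ℝ)) η * V μ s η 0 m = S.indicator (fun η => max (V μ s η 0 m) 0) η := by
        by_cases h3 : η ∈ S
        · rw [Set.indicator_of_mem h3]
          rcases le_or_gt 0 (V μ s η 0 m) with h4 | h4
          · have h5 : η ∈ T := by
              rw [hT]
              exact ⟨h3, h4⟩
            rw [Set.indicator_of_mem h5, one_mul, max_eq_left h4]
          · have h5 : η ∉ T := fun h6 => by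
              rw [hT] at h6
              exact absurd h6.2 (not_le.2 h4)
            rw [Set.indicator_of_notMem h5, zero_mul, max_eq_right h4.le]
        · have h5 : η ∉ T := fun h6 => by
            rw [hT] at h6
            exact h3 h6.1
          rw [Set.indicator_of_notMem h3, Set.indicator_of_notMem h5, zero_mul]
      rw [← e2]
      ring
    rw [integral_congr_ae (Filter.Eventually.of_forall e1), integral_div, integral_add
      (((hVS.max (Sub.const 0)).integrable hEM).indicator hS) ((hVS.const_mul δ).integrable hEM), integral_const_mul]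
  rw [hfV, div_le_iff₀ hq0] at key
  have h5 : 6 * A * q ≤ 6 * A * (ε + δ) := mul_le_mul_of_nonneg_left hqe (by positivity)
  nlinarith

/-- The mean negative part of the cost. -/
theorem minus_small (hEM : Pool.Agent.W_7d29a1_h47.EM μ) {m M : ℕ} {k : ℤ} (hk : 0 ≤ k ∧ k ≤ m) {c0 b ε A A' δ : ℝ}
    (hb : 0 ≤ b) (hconc : (law μ).real {η | b < |X μ s η 0 m k - c0|} ≤ ε) {N : ℕ} (hN1 : 1 ≤ N)
    (hN : N * ε ≤ 1 / 2) (hA : ∫ η, max (X μ s η 0 (N * m) (N * k)) 0 ∂(law μ) ≤ A)
    (z : ℕ → ℤ) (hz : ∀ j ≤ M, 0 ≤ z j ∧ z j ≤ j) (hX : ∀ j ≤ M, ∫ η, max (X μ s η 0 j (z j)) 0 ∂(law μ) ≤ A')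
    (hδ : 0 < δ) (hδ1 : δ ≤ 1) (hmM : m ≤ M) (hM : 2 / δ * m ≤ M) :
    ∫ η, max (-X μ s η 0 m k) 0 ∂(law μ) ≤ 2 * b + 2 * A / N + 7 * A' * (ε + δ) := by
  have hc := const_ge hEM hk hconc hN1 hN hA
  have hA0 : 0 ≤ A := (integral_nonneg fun η => le_max_right _ _).trans hA
  have hNpos : (0 : ℝ) < N := by exact_mod_cast hN1
  have hAN : 0 ≤ 2 * A / N := by positivity
  have hXS : Sub fun η : Env => X μ s η 0 m k := Sub_X (0 : Pt) hk.1 hk.2
  have hVS : Sub fun η : Env => V μ s η 0 m := Sub_V 0 m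
  obtain ⟨S, hS⟩ : ∃ S : Set Env, S = {η : Env | b < |X μ s η 0 m k - c0|} := ⟨_, rfl⟩
  have hm : MeasurableSet S := by
    rw [hS]
    exact measurableSet_lt measurable_const (measurable_norm.comp ((measurable_X 0 m k).sub measurable_const))
  have hSd : ∀ η η' : Env, (∀ p ∈ rows 0 (m : ℤ), η p = η' p) → (η ∈ S ↔ η' ∈ S) := by
    intro η η' h
    have h1 : X μ s η 0 m k = X μ s η' 0 m k := by
      have h2 := X_dep_rows (μ := μ) (s := s) (0 : Pt) m k
      exact h2 fun p hp => h p (by simpa using hp)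
    rw [hS]
    simp only [Set.mem_ofPred_eq]
    rw [h1]
  have hSe : (law μ).real S ≤ ε := by
    rw [hS]
    exact hconc
  have hbad := luck_bad (s := s) hEM z hz hX hm hSd hSe hδ hδ1 hmM hM
  have hpt : ∀ η, max (-X μ s η 0 m k) 0 ≤ (2 * b + 2 * A / N) + S.indicator (fun η => max (V μ s η 0 m) 0) η := by
    intro η
    by_cases hη : η ∈ S
    · rw [Set.indicator_of_mem hη]
      have h1 := neg_X_le_V (μ := μ) (s := s) η 0 hk.1 hk.2
      have h2 := le_max_left (V μ s η 0 m) 0
      have h3 := le_max_right (V μ s η 0 m) 0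
      refine max_le ?_ ?_ <;> linarith
    · rw [Set.indicator_of_notMem hη]
      rw [hS] at hη
      simp only [Set.mem_ofPred_eq, not_lt] at hη
      rw [abs_le] at hη
      refine max_le ?_ ?_ <;> linarith [hη.1]
  have hi2 : Integrable (S.indicator fun η => max (V μ s η 0 m) 0) (law μ) :=
    ((hVS.max (Sub.const 0)).integrable hEM).indicator hm
  have h1 := integral_mono ((hXS.neg.max (Sub.const 0)).integrable hEM)
    ((integrable_const (2 * b + 2 * A / N)).add hi2) hpt
  have h2 : ∫ η, ((2 * b + 2 * A / N) + S.indicator (fun η => max (V μ s η 0 m) 0) η) ∂(law μ) =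
      (2 * b + 2 * A / N) + ∫ η, S.indicator (fun η => max (V μ s η 0 m) 0) η ∂(law μ) := by
    rw [integral_add (integrable_const _) hi2, integral_const, probReal_univ, one_smul]
  have h3 : ∫ η, max (-X μ s η 0 m k) 0 ∂(law μ) ≤
      (2 * b + 2 * A / N) + ∫ η, S.indicator (fun η => max (V μ s η 0 m) 0) η ∂(law μ) := h2 ▸ h1
  linarith

end Pool.Agent.W_7d29a1_G
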