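import Pool.Agent.W_7d29a1_G.FinC
import Pool.Agent.W_7d29a1_L78.HitA
import Pool.Agent.W_7d29a1_G.Unit2a
import Pool.Agent.W_7d29a1_G.Defs1

/-!
Track G (MP_7d29a1_pr), final step `hF2`, (ii) + (iii): if the means of the displacements which lead to two far places
are small, the cost of the reference displacement is concentrated around a constant. (helper70)
-/

namespace Pool.Agent.W_7d29a1_G

open MeasureTheory ProbabilityTheory Pool.Agent.W_7d29a1_F Pool.Agent.W_7d29a1_g Pool.Agent.W_7d29a1_h95g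
  Pool.Agent.W_7d29a1_L

variable {μ : Measure ℝ} [IsProbabilityMeasure μ] {s : ℝ}

omit [IsProbabilityMeasure μ] in
/-- The probability of a large luck from `HitV`. -/
theorem hit_prob_le {v w : ℝ} {n : ℕ} {A : ℝ} (h : HitV μ s v w n A) (z : ℝ) {Y : ℝ} (hY : A < Y) (hY0 : 0 < Y) :
    (law μ).real {η | ∃ q ∈ Bx v w z n, Y ≤ V μ s η ((q.1.1 : ℤ), q.1.2) q.2} ≤ 4 * A / (Y - A) := by
  obtain ⟨G, hGm, hG0, hGi, hGA, hp⟩ := h
  have h1 := hp z Y hY0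
  have h2 : (law μ).real {η | Y - A ≤ G η} ≤ A / (Y - A) := by
    have h3 := mul_meas_ge_le_integral_of_nonneg (Filter.Eventually.of_forall hG0) hGi (Y - A)
    rw [le_div_iff₀ (by linarith)]
    rw [mul_comm]
    exact h3.trans hGA
  calc (law μ).real {η | ∃ q ∈ Bx v w z n, Y ≤ V μ s η ((q.1.1 : ℤ), q.1.2) q.2}
      ≤ 4 * (law μ).real {η | Y - A ≤ G η} := h1
    _ ≤ 4 * (A / (Y - A)) := mul_le_mul_of_nonneg_left h2 (by norm_num)
    _ = 4 * A / (Y - A) := by ring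

/-- A large luck from a fixed start. -/
theorem luck_start {n : ℕ} {A : ℝ} (h : HitV μ s (1 / 2) 1 n A) (a : Pt) {Y : ℝ} (hY : A < Y) (hY0 : 0 < Y) :
    (law μ).real {η | ∃ j ≤ n, Y ≤ V μ s η a j} ≤ 4 * A / (Y - A) := by
  have hm : MeasurableSet {η : Env | ∃ j ≤ n, Y ≤ V μ s η 0 j} := by
    have e1 : {η : Env | ∃ j ≤ n, Y ≤ V μ s η 0 j} = ⋃ j ∈ Finset.range (n + 1), {η | Y ≤ V μ s η 0 j} := by
      ext η
      simp only [Set.mem_ofPred_eq, Set.mem_iUnion, exists_prop, Finset.mem_range, Nat.lt_succ_iff]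
    rw [e1]
    exact Finset.measurableSet_biUnion _ fun j _ => measurableSet_le measurable_const (Sub_V _ _).1
  have h1 := real_sh (μ := μ) a hm
  have e2 : {η : Env | sh a η ∈ {η : Env | ∃ j ≤ n, Y ≤ V μ s η 0 j}} = {η | ∃ j ≤ n, Y ≤ V μ s η a j} := by
    ext η
    simp only [Set.mem_ofPred_eq]
    constructor
    · rintro ⟨j, hj, hh⟩
      rw [V_sh, zero_add] at hh
      exact ⟨j, hj, hh⟩
    · rintro ⟨j, hj, hh⟩
      exact ⟨j, hj, by rw [V_sh, zero_add]; exact hh⟩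
  rw [e2] at h1
  rw [h1]
  refine (measureReal_mono fun η hη => ?_).trans (hit_prob_le h (-1) hY hY0)
  obtain ⟨j, hj, hh⟩ := hη
  refine ⟨((0, 0), j), ?_, ?_⟩
  · rw [mem_Bx (by norm_num) (by norm_num)]
    refine ⟨by simpa using hj, by norm_num, by norm_num⟩
  · exact hh

/-- The line `x = t / 2`. -/
def cl (t : ℤ) : ℤ := t / 2

theorem cl_exit_right : ExitAt {p : Pt | cl p.1 < p.2} cl := exitAt_right fun t => by unfold cl; omega

theorem cl_exit_left : ExitAt {p : Pt | p.2 < cl p.1} cl := exitAt_left fun t => by unfold cl; omega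

/-- A large luck from a point of the line after its first visit. -/
theorem luck_line {n : ℕ} {A : ℝ} (h : HitV μ s (1 / 2) 1 n A) {a : Pt} {k0 : ℤ} (ha : a.1 = 2 * k0) {Y : ℝ}
    (hY : A < Y) (hY0 : 0 < Y) :
    (law μ).real {η | ∃ j < n, Y ≤ V μ s η (bk cl a j) (n - (j + 1))} ≤ 4 * A / (Y - A) := by
  obtain ⟨b, hb⟩ : ∃ b : Pt, b = (a.1, k0) := ⟨_, rfl⟩
  have hm : MeasurableSet {η : Env | ∃ j < n, Y ≤ V μ s η (((j : ℤ) + 1, ((j : ℤ) + 1) / 2)) (n - (j + 1))} := by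
    have e1 : {η : Env | ∃ j < n, Y ≤ V μ s η (((j : ℤ) + 1, ((j : ℤ) + 1) / 2)) (n - (j + 1))} =
        ⋃ j ∈ Finset.range n, {η | Y ≤ V μ s η (((j : ℤ) + 1, ((j : ℤ) + 1) / 2)) (n - (j + 1))} := by
      ext η
      simp only [Set.mem_ofPred_eq, Set.mem_iUnion, exists_prop, Finset.mem_range]
    rw [e1]
    exact Finset.measurableSet_biUnion _ fun j _ => measurableSet_le measurable_const (Sub_V _ _).1
  have h1 := real_sh (μ := μ) b hm
  have e3 : ∀ j : ℕ, ((((j : ℤ) + 1, ((j : ℤ) + 1) / 2) : Pt) + b) = bk cl a j := by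
    intro j
    rw [hb]
    unfold bk cl
    ext
    · show (j : ℤ) + 1 + a.1 = a.1 + ((j : ℤ) + 1)
      ring
    · show ((j : ℤ) + 1) / 2 + k0 = (a.1 + ((j : ℤ) + 1)) / 2
      rw [ha]
      omega
  have e2 : {η : Env | sh b η ∈ {η : Env | ∃ j < n, Y ≤ V μ s η (((j : ℤ) + 1, ((j : ℤ) + 1) / 2)) (n - (j + 1))}} =
      {η | ∃ j < n, Y ≤ V μ s η (bk cl a j) (n - (j + 1))} := by
    ext η
    simp only [Set.mem_ofPred_eq]
    constructor
    · rintro ⟨j, hj, hh⟩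
      rw [V_sh, e3] at hh
      exact ⟨j, hj, hh⟩
    · rintro ⟨j, hj, hh⟩
      exact ⟨j, hj, by rw [V_sh, e3]; exact hh⟩
  rw [e2] at h1
  rw [h1]
  refine (measureReal_mono fun η hη => ?_).trans (hit_prob_le h (-1) hY hY0)
  obtain ⟨j, hj, hh⟩ := hη
  refine ⟨((j + 1, ((j : ℤ) + 1) / 2), n - (j + 1)), ?_, ?_⟩
  · rw [mem_Bx (by norm_num) (by norm_num)]
    have h2 : (((((j : ℤ) + 1) / 2 : ℤ)) : ℝ) ≤ ((j : ℝ) + 1) / 2 := by
      have h3 : 2 * (((j : ℤ) + 1) / 2) ≤ (j : ℤ) + 1 := by omega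
      have h4 : (2 : ℝ) * (((((j : ℤ) + 1) / 2 : ℤ)) : ℝ) ≤ (j : ℝ) + 1 := by exact_mod_cast h3
      linarith
    have h5 : ((j : ℝ) + 1) / 2 - 1 < (((((j : ℤ) + 1) / 2 : ℤ)) : ℝ) := by
      have h3 : (j : ℤ) + 1 < 2 * (((j : ℤ) + 1) / 2) + 2 := by omega
      have h4 : (j : ℝ) + 1 < (2 : ℝ) * (((((j : ℤ) + 1) / 2 : ℤ)) : ℝ) + 2 := by exact_mod_cast h3
      linarith
    refine ⟨by show j + 1 + (n - (j + 1)) ≤ n; omega, ?_, ?_⟩
    · show (-1 : ℝ) < (((((j : ℤ) + 1) / 2 : ℤ)) : ℝ) - 1 / 2 * ((j + 1 : ℕ) : ℝ)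
      push_cast
      linarith
    · show (((((j : ℤ) + 1) / 2 : ℤ)) : ℝ) - 1 / 2 * ((j + 1 : ℕ) : ℝ) ≤ -1 + 1
      push_cast
      linarith
  · have e4 : ((((j + 1 : ℕ) : ℤ), ((j : ℤ) + 1) / 2) : Pt) = ((j : ℤ) + 1, ((j : ℤ) + 1) / 2) := by
      push_cast
      rfl
    show Y ≤ V μ s η ((((j + 1 : ℕ) : ℤ), ((j : ℤ) + 1) / 2)) (n - (j + 1))
    rw [e4]
    exact hh

/-- Markov's inequality for the cost of the reference displacement. -/
theorem cost_markov (hEM : Pool.Agent.W_7d29a1_h47.EM μ) (a : Pt) {m : ℕ} {k : ℤ} (h0 : 0 ≤ k) (h1 : k ≤ m) {A Z : ℝ}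
    (hA : ∫ η, max (X μ s η 0 m k) 0 ∂(law μ) ≤ A) (hZ : 0 < Z) :
    (law μ).real {η | Z < X μ s η a m k} ≤ A / Z := by
  have hS : Sub fun η : Env => max (X μ s η a m k) 0 := (Sub_X a h0 h1).max (Sub.const 0)
  have h2 := mul_meas_ge_le_integral_of_nonneg (μ := law μ)
    (Filter.Eventually.of_forall fun η => le_max_right (X μ s η a m k) 0) (hS.integrable hEM) Z
  rw [le_div_iff₀ hZ, mul_comm]
  have h3 : ∫ η, max (X μ s η a m k) 0 ∂(law μ) ≤ A := by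
    rw [Pool.Agent.W_7d29a1_L78.integral_Xp a m k]
    exact hA
  refine le_trans (mul_le_mul_of_nonneg_left (measureReal_mono fun η hη => ?_) hZ.le) (h2.trans h3)
  have hη' : Z < X μ s η a m k := hη
  exact hη'.le.trans (le_max_left _ _)

/-- (ii) + (iii) of `hF2`. -/
theorem conc_of_cone (hEM : Pool.Agent.W_7d29a1_h47.EM μ) {m m0 : ℕ} {r : ℕ} (hr0 : 1 ≤ r) (hr : r ≤ m0) {h A a b Y Z D : ℝ}
    (hh : 0 ≤ h)
    (he1 : e μ 0 (2 * m0) (m0 + r) ≤ a) (he2 : e μ 0 (2 * m0) (m0 - r) ≤ a) (he3 : e μ 0 m (md m) ≤ a)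
    (hV0 : HitV μ 0 (1 / 2) 1 m A) (hVp : HitV μ h (1 / 2) 1 m A) (hVm : HitV μ (-h) (1 / 2) 1 m A)
    (hA : 0 ≤ A) (hY : A < Y) (hZ : 0 < Z) (hb : 0 < b)
    (hX : ∫ η, max (X μ 0 η 0 m (md m)) 0 ∂(law μ) ≤ A)
    (hD : D ≤ h * r - m * LL μ h - h) (hn : Real.log (2 * m) + 2 * Y + Z ≤ D) :
    ∃ c0 : ℝ, (law μ).real {η | b + 3 * Real.log 2 < |X μ 0 η 0 m (md m) - c0|} ≤
      3 * (8 * A / (Y - A) + A / Z) + 10 * a / b := by
  have hY0 : 0 < Y := lt_of_le_of_lt hA hY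
  have hLL : 0 ≤ LL μ h := LL_nonneg hEM h
  obtain ⟨a1, ha1⟩ : ∃ a1 : Pt, a1 = (((2 * m0 : ℕ) : ℤ), (m0 : ℤ) + r) := ⟨_, rfl⟩
  obtain ⟨a2, ha2⟩ : ∃ a2 : Pt, a2 = (((2 * m0 : ℕ) : ℤ), (m0 : ℤ) - r) := ⟨_, rfl⟩
  have h11 : a1.1 = 2 * (m0 : ℤ) := by rw [ha1]; push_cast; rfl
  have h21 : a2.1 = 2 * (m0 : ℤ) := by rw [ha2]; push_cast; rfl
  have hmem1 : a1 ∈ {p : Pt | cl p.1 < p.2} := by
    show cl a1.1 < a1.2
    rw [h11, ha1]
    unfold cl
    show 2 * (m0 : ℤ) / 2 < (m0 : ℤ) + r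
    have : (1 : ℤ) ≤ r := by exact_mod_cast hr0
    omega
  have hmem2 : a2 ∈ {p : Pt | p.2 < cl p.1} := by
    show a2.2 < cl a2.1
    rw [h21, ha2]
    unfold cl
    show (m0 : ℤ) - r < 2 * (m0 : ℤ) / 2
    have : (1 : ℤ) ≤ r := by exact_mod_cast hr0
    omega
  have hmd0 := md_nonneg m
  have hmd1 := md_le m
  -- the displacement to the line
  have hdk1 : ∀ j : ℕ, (dk cl a1 j : ℝ) ≤ ((j : ℝ) + 1) / 2 - r := by
    intro j
    have h1 : 2 * dk cl a1 j ≤ (j : ℤ) + 1 - 2 * r := by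
      unfold dk cl
      rw [h11, ha1]
      show 2 * ((2 * (m0 : ℤ) + ((j : ℤ) + 1)) / 2 - ((m0 : ℤ) + r)) ≤ _
      omega
    have h2 : 2 * (dk cl a1 j : ℝ) ≤ (j : ℝ) + 1 - 2 * r := by exact_mod_cast h1
    linarith
  have hdk2 : ∀ j : ℕ, ((j : ℝ) + 1) / 2 - 1 + r ≤ (dk cl a2 j : ℝ) := by
    intro j
    have h1 : (j : ℤ) + 1 - 2 + 2 * r ≤ 2 * dk cl a2 j := by
      unfold dk cl
      rw [h21, ha2]
      show _ ≤ 2 * ((2 * (m0 : ℤ) + ((j : ℤ) + 1)) / 2 - ((m0 : ℤ) - r))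
      omega
    have h2 : (j : ℝ) + 1 - 2 + 2 * r ≤ 2 * (dk cl a2 j : ℝ) := by exact_mod_cast h1
    linarith
  have hjm : ∀ j < m, ((j : ℝ) + 1) * LL μ h ≤ m * LL μ h := by
    intro j hj
    refine mul_le_mul_of_nonneg_right ?_ hLL
    exact_mod_cast hj
  have hD1 : ∀ j < m, ((j : ℝ) + 1) * (lam μ (0 + -h) - lam μ 0) - -h * (dk cl a1 j : ℝ) ≤ -D := by
    intro j hj
    have e1 : lam μ (0 + -h) - lam μ 0 = LL μ h - h / 2 := by
      rw [← LL_neg hEM h, zero_add]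
      unfold LL
      ring
    rw [e1]
    have h1 := hjm j hj
    have h2 := mul_le_mul_of_nonneg_left (hdk1 j) hh
    nlinarith
  have hD2 : ∀ j < m, ((j : ℝ) + 1) * (lam μ (0 + h) - lam μ 0) - h * (dk cl a2 j : ℝ) ≤ -D := by
    intro j hj
    have e1 : lam μ (0 + h) - lam μ 0 = LL μ h + h / 2 := by
      rw [zero_add]
      unfold LL
      ring
    rw [e1]
    have h1 := hjm j hj
    have h2 := mul_le_mul_of_nonneg_left (hdk2 j) hh
    nlinarith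
  -- the bad events
  have hbad : ∀ (a' : Pt) (L : Set Pt) (h' : ℝ), HitV μ (0 + h') (1 / 2) 1 m A → ExitAt L cl → a' ∈ L →
      a'.1 = 2 * (m0 : ℤ) → (∀ j < m, ((j : ℝ) + 1) * (lam μ (0 + h') - lam μ 0) - h' * (dk cl a' j : ℝ) ≤ -D) →
      (law μ).real {η | ¬ |-Real.log (WR μ 0 L η a' m (md m)) - X μ 0 η a' m (md m)| ≤ Real.log 2} ≤
        8 * A / (Y - A) + A / Z := by
    intro a' L h' hV hL hmem ha' hDD
    have hsub : {η | ¬ |-Real.log (WR μ 0 L η a' m (md m)) - X μ 0 η a' m (md m)| ≤ Real.log 2} ⊆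
        {η | ∃ j ≤ m, Y ≤ V μ (0 + h') η a' j} ∪ ({η | ∃ j < m, Y ≤ V μ 0 η (bk cl a' j) (m - (j + 1))} ∪
          {η | Z < X μ 0 η a' m (md m)}) := by
      intro η hη
      by_contra hcon
      simp only [Set.mem_union, Set.mem_ofPred_eq, not_or, not_exists, not_and, not_le, not_lt] at hcon
      obtain ⟨g1, g2, g3⟩ := hcon
      exact hη (cost_inside hL hmem 0 h' hmd0 hmd1 η (fun j hj => (g1 (j + 1) (by omega)).le)
        (fun j hj => (g2 j hj).le) hDD g3 hn).2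
    refine (measureReal_mono hsub).trans ((measureReal_union_le _ _).trans ?_)
    have p1 := luck_start hV a' hY hY0
    have p2 := luck_line (s := 0) hV0 ha' hY hY0
    have p3 := cost_markov hEM a' hmd0 hmd1 hX hZ
    have p4 := (measureReal_union_le (μ := law μ) {η | ∃ j < m, Y ≤ V μ 0 η (bk cl a' j) (m - (j + 1))}
      {η | Z < X μ 0 η a' m (md m)}).trans (add_le_add p2 p3)
    have e1 : 8 * A / (Y - A) = 4 * A / (Y - A) + 4 * A / (Y - A) := by ring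
    rw [e1]
    linarith
  have hg1 := hbad a1 {p : Pt | cl p.1 < p.2} (-h) (by rw [zero_add]; exact hVm) cl_exit_right hmem1 h11 hD1
  have hg2 := hbad a2 {p : Pt | p.2 < cl p.1} h (by rw [zero_add]; exact hVp) cl_exit_left hmem2 h21 hD2
  -- the two alternatives
  have hrm : (r : ℤ) ≤ m0 := by exact_mod_cast hr
  have h12 : (law μ).real {η | b < |X μ 0 η a1 m (md m) - X μ 0 η a2 m (md m)|} ≤ 10 * a / b := by
    have ht := two_alt (μ := μ) (s := 0) hEM (m0 := 2 * m0) (m := m) (m1 := 2 * m0) (a1 := (m0 : ℤ) + r)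
      (a2 := (m0 : ℤ) - r) (b1 := (m0 : ℤ) - r) (b2 := (m0 : ℤ) + r) (k := md m) ⟨by omega, by push_cast; omega⟩
      ⟨by omega, by push_cast; omega⟩ ⟨by omega, by push_cast; omega⟩ ⟨by omega, by push_cast; omega⟩ ⟨hmd0, hmd1⟩
      (by ring)
    have ht' : ∫ η, |X μ 0 η a1 m (md m) - X μ 0 η a2 m (md m)| ∂(law μ) ≤ 10 * a := by
      rw [ha1, ha2]
      linarith
    have hS : Sub fun η : Env => |X μ 0 η a1 m (md m) - X μ 0 η a2 m (md m)| :=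
      ((Sub_X a1 hmd0 hmd1).sub (Sub_X a2 hmd0 hmd1)).abs
    have h2 := mul_meas_ge_le_integral_of_nonneg (μ := law μ)
      (Filter.Eventually.of_forall fun η => abs_nonneg (X μ 0 η a1 m (md m) - X μ 0 η a2 m (md m)))
      (hS.integrable hEM) b
    rw [le_div_iff₀ hb, mul_comm]
    refine le_trans (mul_le_mul_of_nonneg_left (measureReal_mono fun η hη => ?_) hb.le) (h2.trans ht')
    have hη' : b < |X μ 0 η a1 m (md m) - X μ 0 η a2 m (md m)| := hη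
    exact hη'.le
  obtain ⟨c0, hc0⟩ := conc_const (μ := μ) (s := 0) (c := cl) (a1 := a1) (a2 := a2) (m := m) (k := md m) hg1 hg2 h12
  refine ⟨c0, hc0.trans (le_of_eq ?_)⟩
  ring

end Pool.Agent.W_7d29a1_G
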