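import Pool.Agent.W_7d29a1_G.FinD
import Pool.Agent.W_7d29a1_G.FinM
import Pool.Agent.W_7d29a1_G.ElemD1

/-!
Track G (MP_7d29a1_pr), final step `hF2`: the assembly at one scale. If the means of the displacements in a cone are small
against the unit, the cone is far wider than the fluctuations and the unit grows slowly, then the unit is small. (helper70)
-/

namespace Pool.Agent.W_7d29a1_G

open MeasureTheory ProbabilityTheory Filter Topology Pool.Agent.W_7d29a1_F Pool.Agent.W_7d29a1_L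

variable {μ : Measure ℝ} [IsProbabilityMeasure μ]

omit [IsProbabilityMeasure μ] in
theorem EE_win' {x j k : ℕ} (hE1 : 0 < EE μ (2 ^ x)) (hE2 : 0 < EE μ (2 ^ (x + j)))
    (h : gg μ (x + j) ≤ gg μ x + 3 / 4 * j) (hk : 3 * j ≤ 4 * k) :
    EE μ (2 ^ (x + j)) ≤ 2 ^ k * EE μ (2 ^ x) := by
  have e1 : (2 : ℝ) ^ (gg μ (x + j)) = EE μ (2 ^ (x + j)) := by
    unfold gg
    rw [Real.rpow_logb two_pos (by norm_num) hE2]
  have e2 : (2 : ℝ) ^ (gg μ x) = EE μ (2 ^ x) := by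
    unfold gg
    rw [Real.rpow_logb two_pos (by norm_num) hE1]
  rw [← e1, ← e2, ← Real.rpow_natCast, ← Real.rpow_add two_pos]
  refine Real.rpow_le_rpow_of_exponent_le one_le_two ?_
  have : (3 : ℝ) * j ≤ 4 * k := by exact_mod_cast hk
  linarith

/-- The unit in a window of slow growth. -/
theorem EE_win {x j k : ℕ} (h : gg μ (x + j) ≤ gg μ x + 3 / 4 * j) (hk : 3 * j ≤ 4 * k) :
    EE μ (2 ^ j * 2 ^ x) ≤ 2 ^ k * EE μ (2 ^ x) := by
  have e : 2 ^ j * 2 ^ x = 2 ^ (x + j) := by rw [pow_add, mul_comm]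
  rw [e]
  exact EE_win' (EE_pos _) (EE_pos _) h hk

theorem EE_double {x T : ℕ} (h : gg μ x + 1 ≤ gg μ (x + T)) : 2 * EE μ (2 ^ x) ≤ EE μ (2 ^ (x + T)) := by
  rw [← two_rpow_gg (μ := μ) x, ← two_rpow_gg (μ := μ) (x + T)]
  have e : 2 * (2 : ℝ) ^ (gg μ x) = 2 ^ (gg μ x + 1) := by
    rw [Real.rpow_add two_pos, Real.rpow_one]
    ring
  rw [e]
  exact Real.rpow_le_rpow_of_exponent_le one_le_two h

/-- The unit in the past. -/
theorem EE_past {T x₀ : ℕ} (h : ∀ x, x₀ ≤ x → gg μ x + 1 ≤ gg μ (x + T)) (i : ℕ) {y : ℕ} (hy : x₀ ≤ y) :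
    2 ^ i * EE μ (2 ^ y) ≤ EE μ (2 ^ (y + T * i)) := by
  induction i with
  | zero => simp
  | succ i ih =>
    have h1 := EE_double (h (y + T * i) (by omega))
    have e1 : y + T * i + T = y + T * (i + 1) := by ring
    rw [e1] at h1
    have e2 : (2 : ℝ) ^ (i + 1) * EE μ (2 ^ y) = 2 * (2 ^ i * EE μ (2 ^ y)) := by ring
    rw [e2]
    linarith

theorem gEm_le_EE (hEM : Pool.Agent.W_7d29a1_h47.EM μ) (n : ℕ) : Pool.Agent.W_7d29a1_g.Em μ n ≤ EE μ n := by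
  obtain ⟨m, hm, h⟩ := Pool.Agent.W_7d29a1_g.exists_Em (μ := μ) n
  rw [h]
  have h1 := ep_le_EE (μ := μ) hm
  have h2 := e_le_ep hEM (md_nonneg m) (md_le m)
  have h3 : Pool.Agent.W_7d29a1_g.e0 μ m = e μ 0 m (md m) := by
    unfold Pool.Agent.W_7d29a1_g.e0 md
    push_cast
    rfl
  rw [h3]
  linarith

/-- The mean of the positive part of a displacement near the centre. -/
theorem near_pos (hEM : Pool.Agent.W_7d29a1_h47.EM μ) {m : ℕ} {k : ℤ} (h0 : 0 ≤ k) (h1 : k ≤ m) :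
    ep μ m k ≤ 2 * e μ 0 m k + ep μ (2 * m) (md (2 * m)) := by
  have h := Pool.Agent.W_7d29a1_g.pos_X_le (μ := μ) (s := 0) hEM (m := m) (n := m) (k := k) (y := m - k) h0 h1
    (by omega) (by omega)
  rw [Pool.Agent.W_7d29a1_g.e_mirror0] at h
  have e1 : k + ((m : ℤ) - k) = md (2 * m) := by
    unfold md
    push_cast
    omega
  have e2 : m + m = 2 * m := by ring
  rw [e1, e2] at h
  unfold ep
  linarith

omit [IsProbabilityMeasure μ] in
/-- The cost at a tilt. -/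
theorem X_tilt (s : ℝ) (η : Env) {n : ℕ} {y : ℤ} (h0 : 0 ≤ y) (h1 : y ≤ n) :
    X μ s η 0 n y = X μ 0 η 0 n y + n * LL μ s + s * ((n : ℝ) / 2 - y) := by
  have h := W_tilt (μ := μ) s (-s) η 0 n y
  rw [add_neg_cancel] at h
  have hW : 0 < W μ 0 η 0 n y := W_pos η 0 h0 h1
  unfold X
  rw [h, Real.log_mul hW.ne' (Real.exp_pos _).ne', Real.log_exp]
  unfold LL
  ring

theorem Xp_tilt (hEM : Pool.Agent.W_7d29a1_h47.EM μ) (s : ℝ) {n : ℕ} {y : ℤ} (h0 : 0 ≤ y) (h1 : y ≤ n) :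
    ∫ η, max (X μ s η 0 n y) 0 ∂(law μ) ≤ ep μ n y + n * LL μ s + |s| * |(n : ℝ) / 2 - y| := by
  have hL := LL_nonneg hEM s
  have hc : 0 ≤ n * LL μ s + |s| * |(n : ℝ) / 2 - y| := by positivity
  have i1 : Integrable (fun η => max (X μ 0 η 0 n y) 0) (law μ) := int_Xp hEM 0 h0 h1
  have h2 : ∀ η, max (X μ s η 0 n y) 0 ≤ max (X μ 0 η 0 n y) 0 + (n * LL μ s + |s| * |(n : ℝ) / 2 - y|) := by
    intro η
    rw [X_tilt s η h0 h1]
    have h3 : s * ((n : ℝ) / 2 - y) ≤ |s| * |(n : ℝ) / 2 - y| := by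
      rw [← abs_mul]
      exact le_abs_self _
    have h4 := le_max_left (X μ 0 η 0 n y) 0
    have h5 := le_max_right (X μ 0 η 0 n y) 0
    refine max_le ?_ ?_ <;> linarith
  have h6 := integral_mono (int_Xp hEM s h0 h1) (i1.add (integrable_const _)) h2
  have h7 : ∫ η, (max (X μ 0 η 0 n y) 0 + (n * LL μ s + |s| * |(n : ℝ) / 2 - y|)) ∂(law μ) =
      ep μ n y + (n * LL μ s + |s| * |(n : ℝ) / 2 - y|) := by
    rw [integral_add i1 (integrable_const _), integral_const, probReal_univ, one_smul]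
    rfl
  have h8 : ∫ η, max (X μ s η 0 n y) 0 ∂(law μ) ≤
      ∫ η, (max (X μ 0 η 0 n y) 0 + (n * LL μ s + |s| * |(n : ℝ) / 2 - y|)) ∂(law μ) := h6
  rw [h7] at h8
  linarith

/-- The hit bound near the centre at a small tilt. -/
theorem hit_near (hEM : Pool.Agent.W_7d29a1_h47.EM μ) {m : ℕ} (hm : 8 ≤ m) {s c : ℝ} (hc : 0 < c)
    (hLL : (4 * m : ℕ) * LL μ s ≤ c) (hs : |s| * 3 ≤ c) (hEE : EE μ (4 * m) ≤ c)
    (he : ∀ p : ℤ, 0 ≤ p → p ≤ 2 → e μ 0 m (md m + p) ≤ c) :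
    HitV μ s (1 / 2) 1 m (4 * (5 * c)) := by
  have hfl : ∀ q : ℕ, ⌊(1 / 2 : ℝ) * (q : ℝ)⌋ = md q := by
    intro q
    rw [Int.floor_eq_iff]
    unfold md
    have h1 : 2 * ((q : ℤ) / 2) ≤ q := by omega
    have h2 : (q : ℤ) < 2 * ((q : ℤ) / 2) + 2 := by omega
    have h1' : (2 : ℝ) * (((q : ℤ) / 2 : ℤ) : ℝ) ≤ q := by exact_mod_cast h1
    have h2' : (q : ℝ) < 2 * (((q : ℤ) / 2 : ℤ) : ℝ) + 2 := by exact_mod_cast h2
    constructor <;> linarith
  have hLL0 := LL_nonneg hEM s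
  have hs0 := abs_nonneg s
  have hmdc : ∀ q : ℕ, |(q : ℝ) / 2 - md q| ≤ 1 / 2 := by
    intro q
    unfold md
    have h1 : 2 * ((q : ℤ) / 2) ≤ q := by omega
    have h2 : (q : ℤ) ≤ 2 * ((q : ℤ) / 2) + 1 := by omega
    have h1' : (2 : ℝ) * (((q : ℤ) / 2 : ℤ) : ℝ) ≤ q := by exact_mod_cast h1
    have h2' : (q : ℝ) ≤ 2 * (((q : ℤ) / 2 : ℤ) : ℝ) + 1 := by exact_mod_cast h2
    rw [abs_le]
    constructor <;> linarith
  have hcen : ∀ q : ℕ, q ≤ 4 * m → ∫ η, max (X μ s η 0 q (md q)) 0 ∂(law μ) ≤ 5 * c := by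
    intro q hq
    have h1 := Xp_tilt hEM s (md_nonneg q) (md_le q)
    have h2 := ep_le_EE (μ := μ) hq
    have h3 : (q : ℝ) * LL μ s ≤ (4 * m : ℕ) * LL μ s :=
      mul_le_mul_of_nonneg_right (by exact_mod_cast hq) hLL0
    have h4 : |s| * |(q : ℝ) / 2 - md q| ≤ |s| * 3 := mul_le_mul_of_nonneg_left ((hmdc q).trans (by norm_num)) hs0
    linarith
  have hnc : ⌈(1 : ℝ)⌉₊ = 1 := by simp
  refine Pool.Agent.W_7d29a1_L78.hitV hEM (by norm_num) (by norm_num) ?_ (by positivity) ?_ ?_ ?_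
  · rw [hfl, hnc]
    unfold md
    push_cast
    omega
  · intro q h1 h2
    rw [hfl]
    exact hcen q (by omega)
  · rw [hfl]
    exact hcen _ le_rfl
  · intro p hp0 hp1
    rw [hnc] at hp1
    rw [hfl]
    have hp2 : p ≤ 2 := by
      push_cast at hp1
      omega
    have g0 : 0 ≤ md m + p := by have := md_nonneg m; omega
    have g1 : md m + p ≤ m := by
      unfold md
      omega
    have h1 := Xp_tilt hEM s g0 g1
    have h2 := near_pos hEM g0 g1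
    have h3 := ep_le_EE (μ := μ) (show 2 * m ≤ 4 * m by omega)
    have h4 := he p hp0 hp2
    have h5 : (m : ℝ) * LL μ s ≤ (4 * m : ℕ) * LL μ s :=
      mul_le_mul_of_nonneg_right (by exact_mod_cast (show m ≤ 4 * m by omega)) hLL0
    have h6 : |(m : ℝ) / 2 - ((md m + p : ℤ) : ℝ)| ≤ 3 := by
      have h7 := abs_le.1 (hmdc m)
      have h8 : (0 : ℝ) ≤ p := by exact_mod_cast hp0
      have h9 : (p : ℝ) ≤ 2 := by exact_mod_cast hp2
      rw [abs_le]
      push_cast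
      constructor <;> linarith
    have h7 : |s| * |(m : ℝ) / 2 - ((md m + p : ℤ) : ℝ)| ≤ |s| * 3 := mul_le_mul_of_nonneg_left h6 hs0
    linarith

/-- The mean of `N` steps. -/
theorem e_iter (hEM : Pool.Agent.W_7d29a1_h47.EM μ) {m : ℕ} {k : ℤ} (h0 : 0 ≤ k) (h1 : k ≤ m) (N : ℕ) :
    e μ 0 (N * m) (N * k) ≤ N * e μ 0 m k := by
  induction N with
  | zero =>
    simp [e_zero]
  | succ N ih =>
    have hk1 : 0 ≤ (N : ℤ) * k := mul_nonneg (Nat.cast_nonneg _) h0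
    have hk2 : (N : ℤ) * k ≤ ((N * m : ℕ) : ℤ) := by
      push_cast
      exact mul_le_mul_of_nonneg_left h1 (Nat.cast_nonneg _)
    have h := e_add_le (μ := μ) (s := 0) hEM hk1 hk2 h0 h1
    have e1 : (N + 1) * m = N * m + m := by ring
    have e2 : (((N + 1 : ℕ) : ℤ) * k) = N * k + k := by push_cast; ring
    rw [e1, e2]
    push_cast
    linarith

end Pool.Agent.W_7d29a1_G
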