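import Pool.Agent.W_7d29a1_G.FinE

/-!
Track G (MP_7d29a1_pr), final step `hF2`: one scale. (helper70)
-/

namespace Pool.Agent.W_7d29a1_G

open MeasureTheory ProbabilityTheory Filter Topology Pool.Agent.W_7d29a1_F Pool.Agent.W_7d29a1_L

variable {μ : Measure ℝ} [IsProbabilityMeasure μ]

theorem ep_eq (hEM : Pool.Agent.W_7d29a1_h47.EM μ) {m : ℕ} {k : ℤ} (h0 : 0 ≤ k) (h1 : k ≤ m) :
    ep μ m k = e μ 0 m k + ∫ η, max (-X μ 0 η 0 m k) 0 ∂(law μ) := by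
  have hS : Sub fun η : Env => X μ 0 η 0 m k := Sub_X (0 : Pt) h0 h1
  rw [← integral_X (μ := μ) (s := 0) 0 m k, ← integral_add (hS.integrable hEM)
    ((hS.neg.max (Sub.const 0)).integrable hEM)]
  unfold ep
  refine integral_congr_ae (Filter.Eventually.of_forall fun η => ?_)
  simp only
  rcases le_total 0 (X μ 0 η 0 m k) with h | h
  · rw [max_eq_left h, max_eq_right (by linarith), add_zero]
  · rw [max_eq_right h, max_eq_left (by linarith)]
    ring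

/-- Concentration of the reference displacement at one scale. -/
theorem conc_scale (hEM : Pool.Agent.W_7d29a1_h47.EM μ) {n T S : ℕ} {E a h v Cl : ℝ} (hn : 8 ≤ n)
    (hE : EE μ n = E) {m : ℕ} (hm1 : n ≤ m) (hm2 : m ≤ 2 ^ T * n) (hTS : T ≤ S + 1)
    (hv0 : 0 ≤ v) (hv1 : v ≤ 1 / 2) (hvn : 16 ≤ v * n)
    (hcone : ∀ (q : ℕ) (y : ℤ), n ≤ q → q ≤ 2 ^ (S + 1) * n → |(y : ℝ) - (q : ℝ) / 2| ≤ v * q / 4 →
      e μ 0 q y ≤ a)
    (ha : a * 2 ^ (4 * T + 46) ≤ E)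
    (hh0 : 0 ≤ h) (hh1 : n * LL μ h ≤ E) (hh2 : 3 * h ≤ E)
    (hlog : Real.log (2 * m) ≤ Cl * E)
    (hdist : Cl * E + 2 ^ (5 * T + 51) * E + 2 ^ T * E + E ≤ h * (v * (2 ^ S * n) / 4)) :
    ∃ c0 : ℝ, (law μ).real {η | E / 32 + 3 * Real.log 2 < |X μ 0 η 0 m (md m) - c0|} ≤
      1 / 2 ^ (4 * T + 35) := by
  have hE1 : 1 ≤ E := hE ▸ one_le_EE n
  have hEp : 0 < E := by linarith
  have hLL0 := LL_nonneg hEM h
  have hnR : (8 : ℝ) ≤ n := by exact_mod_cast hn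
  have hnp : (0 : ℝ) < n := by linarith
  have hmn : (n : ℝ) ≤ m := by exact_mod_cast hm1
  have hm2R : (m : ℝ) ≤ 2 ^ T * n := by exact_mod_cast hm2
  obtain ⟨Q, hQ⟩ : ∃ Q : ℝ, Q = 2 ^ T := ⟨_, rfl⟩
  have hQ1 : 1 ≤ Q := by rw [hQ]; exact one_le_pow₀ one_le_two
  obtain ⟨P, hP⟩ : ∃ P : ℝ, P = 2 ^ (4 * T + 35) := ⟨_, rfl⟩
  have hP1 : 1 ≤ P := by rw [hP]; exact one_le_pow₀ one_le_two
  have hPQ : (2 : ℝ) ^ (5 * T + 51) = 65536 * P * Q := by
    rw [hP, hQ, show 5 * T + 51 = 4 * T + 35 + T + 16 by ring, pow_add, pow_add]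
    norm_num
    ring
  have hP11 : (2 : ℝ) ^ (4 * T + 46) = 2048 * P := by
    rw [hP, show 4 * T + 46 = 4 * T + 35 + 11 by ring, pow_add]
    norm_num
    ring
  rw [hP11] at ha
  have hm2S : m ≤ 2 ^ (S + 1) * n :=
    hm2.trans (Nat.mul_le_mul_right n (Nat.pow_le_pow_right (by norm_num) hTS))
  -- near the centre
  have hnear : ∀ p : ℤ, 0 ≤ p → p ≤ 2 → e μ 0 m (md m + p) ≤ a := by
    intro p hp0 hp2
    refine hcone m _ hm1 hm2S ?_
    have h1 : 2 * md m ≤ m := by unfold md; omega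
    have h2 : (m : ℤ) ≤ 2 * md m + 1 := by unfold md; omega
    have h1' : (2 : ℝ) * (md m : ℝ) ≤ m := by exact_mod_cast h1
    have h2' : (m : ℝ) ≤ 2 * (md m : ℝ) + 1 := by exact_mod_cast h2
    have h3 : (0 : ℝ) ≤ p := by exact_mod_cast hp0
    have h4 : (p : ℝ) ≤ 2 := by exact_mod_cast hp2
    have h5 : v * n ≤ v * m := mul_le_mul_of_nonneg_left hmn hv0
    rw [abs_le]
    push_cast
    constructor <;> linarith
  have ha0 : 0 ≤ a := (e_nonneg hEM 0 (md_nonneg m) (md_le m)).trans (by simpa using hnear 0 le_rfl (by norm_num))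
  have haE : a ≤ E := by nlinarith
  -- the hit bounds
  obtain ⟨c, hc⟩ : ∃ c : ℝ, c = 4 * Q * E := ⟨_, rfl⟩
  have hcE : E ≤ c := by rw [hc]; nlinarith
  have hcp : 0 < c := by linarith
  have hEE4 : EE μ (4 * m) ≤ c := by
    have h1 : EE μ (4 * m) ≤ EE μ (4 * 2 ^ T * n) := EE_mono (by rw [mul_assoc]; omega)
    have h2 := EE_mul hEM (4 * 2 ^ T) n (by have := Nat.one_le_two_pow (n := T); omega)
    rw [hE] at h2
    push_cast at h2
    rw [hc, hQ]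
    linarith
  have hLLm : ((4 * m : ℕ) : ℝ) * LL μ h ≤ c := by
    have h1 : (m : ℝ) * LL μ h ≤ 2 ^ T * n * LL μ h := mul_le_mul_of_nonneg_right hm2R hLL0
    have h2 : (2 : ℝ) ^ T * (n * LL μ h) ≤ 2 ^ T * E := mul_le_mul_of_nonneg_left hh1 (by positivity)
    push_cast
    rw [hc, hQ]
    linarith
  have hhit : ∀ s : ℝ, LL μ s ≤ LL μ h → |s| ≤ h → HitV μ s (1 / 2) 1 m (4 * (5 * c)) := by
    intro s h1 h2
    refine hit_near hEM (by omega) hcp ?_ (by linarith) hEE4 fun p hp0 hp2 => ((hnear p hp0 hp2).trans haE).trans hcE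
    exact (mul_le_mul_of_nonneg_left h1 (Nat.cast_nonneg _)).trans hLLm
  have hV0 := hhit 0 (by rw [LL_zero]; exact hLL0) (by rw [abs_zero]; exact hh0)
  have hVp := hhit h le_rfl (by rw [abs_of_nonneg hh0])
  have hVm := hhit (-h) (by rw [LL_neg hEM]) (by rw [abs_neg, abs_of_nonneg hh0])
  obtain ⟨A, hA⟩ : ∃ A : ℝ, A = 4 * (5 * c) := ⟨_, rfl⟩
  rw [← hA] at hV0 hVp hVm
  have hAp : 0 < A := by rw [hA]; positivity
  -- the position of the two places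
  obtain ⟨m0, hm0⟩ : ∃ m0 : ℕ, m0 = 2 ^ S * n := ⟨_, rfl⟩
  have hm0R : (m0 : ℝ) = 2 ^ S * n := by rw [hm0]; push_cast; ring
  have hSone : (1 : ℝ) ≤ 2 ^ S := one_le_pow₀ one_le_two
  have hm0n : (n : ℝ) ≤ m0 := by rw [hm0R]; nlinarith
  have h2m0 : 2 * m0 = 2 ^ (S + 1) * n := by rw [hm0, pow_succ]; ring
  have hvm0 : 16 ≤ v * m0 := hvn.trans (mul_le_mul_of_nonneg_left hm0n hv0)
  obtain ⟨r, hr⟩ : ∃ r : ℕ, r = ⌊v * m0 / 2⌋₊ := ⟨_, rfl⟩
  have hr1 : (r : ℝ) ≤ v * m0 / 2 := by rw [hr]; exact Nat.floor_le (by positivity)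
  have hr2 : v * m0 / 2 < r + 1 := by rw [hr]; exact Nat.lt_floor_add_one _
  have hr0 : 1 ≤ r := by
    have : (1 : ℝ) ≤ r := by linarith
    exact_mod_cast this
  have hrm : r ≤ m0 := by
    have : (r : ℝ) ≤ m0 := by nlinarith
    exact_mod_cast this
  have hnm0 : n ≤ 2 * m0 := by
    have : (n : ℝ) ≤ 2 * m0 := by linarith
    exact_mod_cast this
  have he1 : e μ 0 (2 * m0) (m0 + r) ≤ a := by
    refine hcone _ _ hnm0 h2m0.le ?_
    push_cast
    rw [show (m0 : ℝ) + r - 2 * m0 / 2 = r by ring, abs_of_nonneg (Nat.cast_nonneg r)]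
    linarith
  have he2 : e μ 0 (2 * m0) (m0 - r) ≤ a := by
    refine hcone _ _ hnm0 h2m0.le ?_
    push_cast
    rw [show (m0 : ℝ) - r - 2 * m0 / 2 = -r by ring, abs_neg, abs_of_nonneg (Nat.cast_nonneg r)]
    linarith
  have he3 : e μ 0 m (md m) ≤ a := by simpa using hnear 0 le_rfl (by norm_num)
  have hX : ∫ η, max (X μ 0 η 0 m (md m)) 0 ∂(law μ) ≤ A := by
    have h1 := ep_le_EE (μ := μ) (show m ≤ 4 * m by omega)
    unfold ep at h1
    rw [hA]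
    linarith
  have hYA : A < A + 128 * P * A := by
    have : 0 < 128 * P * A := by positivity
    linarith
  have hZ : 0 < 16 * P * A := by positivity
  have hAE : A = 80 * Q * E := by rw [hA, hc]; ring
  have hD : Real.log (2 * m) + 2 * (A + 128 * P * A) + 16 * P * A ≤ h * r - m * LL μ h - h := by
    have h1 : h * (v * m0 / 4) ≤ h * r := mul_le_mul_of_nonneg_left (by linarith) hh0
    have h2 : (m : ℝ) * LL μ h ≤ Q * E := by
      have h1 : (m : ℝ) * LL μ h ≤ 2 ^ T * n * LL μ h := mul_le_mul_of_nonneg_right hm2R hLL0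
      have h2 : (2 : ℝ) ^ T * (n * LL μ h) ≤ 2 ^ T * E := mul_le_mul_of_nonneg_left hh1 (by positivity)
      rw [hQ]
      linarith
    rw [hm0R] at h1
    rw [hPQ, ← hQ] at hdist
    have h3 : 2 * (A + 128 * P * A) + 16 * P * A ≤ 65536 * P * Q * E := by
      rw [hAE]
      have h4 : Q * E ≤ P * (Q * E) := le_mul_of_one_le_left (by positivity) hP1
      nlinarith [mul_pos (show (0:ℝ) < P by linarith) (mul_pos (show (0 : ℝ) < Q by linarith) hEp)]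
    linarith
  obtain ⟨c0, hc0⟩ := conc_of_cone hEM hr0 hrm (b := E / 32) hh0 he1 he2 he3 hV0 hVp hVm hAp.le hYA hZ (by positivity) hX
    (D := Real.log (2 * m) + 2 * (A + 128 * P * A) + 16 * P * A) hD le_rfl
  refine ⟨c0, hc0.trans ?_⟩
  rw [← hP]
  have e1 : 8 * A / (A + 128 * P * A - A) = 1 / 16 * (1 / P) := by
    field_simp
    ring
  have e2 : A / (16 * P * A) = 1 / 16 * (1 / P) := by
    field_simp
  have e3 : 10 * a / (E / 32) ≤ 320 / 2048 * (1 / P) := by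
    rw [div_le_iff₀ (by positivity)]
    have h5 : 320 / 2048 * (1 / P) * (E / 32) = 10 * (E / (2048 * P)) := by
      field_simp
      norm_num
    rw [h5]
    have h6 : a ≤ E / (2048 * P) := by
      rw [le_div_iff₀ (by positivity)]
      exact ha
    linarith
  rw [e1, e2]
  have : 0 < 1 / P := by positivity
  linarith

/-- The unit at one scale. -/
theorem fin_scale (hEM : Pool.Agent.W_7d29a1_h47.EM μ) {n T S : ℕ} {E a h v Cl : ℝ} (hn : 8 ≤ n)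
    (hE : EE μ n = E) (hE1 : 200 ≤ E) {m : ℕ} (hm1 : n ≤ m) (hm2 : m ≤ 2 ^ T * n) (hTS : T ≤ S + 1)
    (hv0 : 0 ≤ v) (hv1 : v ≤ 1 / 2) (hvn : 16 ≤ v * n)
    (hcone : ∀ (q : ℕ) (y : ℤ), n ≤ q → q ≤ 2 ^ (S + 1) * n → |(y : ℝ) - (q : ℝ) / 2| ≤ v * q / 4 →
      e μ 0 q y ≤ a)
    (ha : a * 2 ^ (4 * T + 46) ≤ E)
    (hh0 : 0 ≤ h) (hh1 : n * LL μ h ≤ E) (hh2 : 3 * h ≤ E)
    (hlog : Real.log (2 * m) ≤ Cl * E)
    (hdist : Cl * E + 2 ^ (5 * T + 51) * E + 2 ^ T * E + E ≤ h * (v * (2 ^ S * n) / 4))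
    (hw1 : EE μ (2 ^ (5 * T + 25) * n) ≤ 2 ^ (4 * T + 19) * E)
    (hw2 : EE μ (2 ^ (4 * T + 36) * n) ≤ 2 ^ (3 * T + 27) * E) :
    ep μ m (md m) ≤ E / 2 := by
  obtain ⟨c0, hc0⟩ := conc_scale hEM hn hE hm1 hm2 hTS hv0 hv1 hvn hcone ha hh0 hh1 hh2 hlog hdist
  have hEp : 0 < E := by linarith
  have hnR : (8 : ℝ) ≤ n := by exact_mod_cast hn
  have hmn : (n : ℝ) ≤ m := by exact_mod_cast hm1
  have hm2S : m ≤ 2 ^ (S + 1) * n :=
    hm2.trans (Nat.mul_le_mul_right n (Nat.pow_le_pow_right (by norm_num) hTS))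
  have he3 : e μ 0 m (md m) ≤ a := by
    refine hcone m _ hm1 hm2S ?_
    have h1 : 2 * md m ≤ m := by unfold md; omega
    have h2 : (m : ℤ) ≤ 2 * md m + 1 := by unfold md; omega
    have h1' : (2 : ℝ) * (md m : ℝ) ≤ m := by exact_mod_cast h1
    have h2' : (m : ℝ) ≤ 2 * (md m : ℝ) + 1 := by exact_mod_cast h2
    have h5 : v * n ≤ v * m := mul_le_mul_of_nonneg_left hmn hv0
    rw [abs_le]
    constructor <;> linarith
  have ha0 : 0 ≤ a := (e_nonneg hEM 0 (md_nonneg m) (md_le m)).trans he3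
  have haE : a ≤ E / 64 := by
    have h1 : (64 : ℝ) ≤ 2 ^ (4 * T + 46) := by
      calc (64 : ℝ) = 2 ^ 6 := by norm_num
        _ ≤ 2 ^ (4 * T + 46) := pow_le_pow_right₀ one_le_two (by omega)
    have h2 := mul_le_mul_of_nonneg_left h1 ha0
    linarith
  -- the number of slots
  obtain ⟨N, hN⟩ : ∃ N : ℕ, N = 2 ^ (4 * T + 24) := ⟨_, rfl⟩
  have hN1 : 1 ≤ N := by rw [hN]; exact Nat.one_le_two_pow
  have hNR : (N : ℝ) = 2 ^ (4 * T + 24) := by rw [hN]; push_cast; ring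
  have hNε : (N : ℝ) * (1 / 2 ^ (4 * T + 35)) ≤ 1 / 2 := by
    have e1 : (2 : ℝ) ^ (4 * T + 35) = 2048 * 2 ^ (4 * T + 24) := by ring
    rw [hNR, e1, mul_one_div, div_le_iff₀ (by positivity)]
    have : (0 : ℝ) < 2 ^ (4 * T + 24) := by positivity
    linarith
  have hk1 : 0 ≤ (N : ℤ) * md m := mul_nonneg (Nat.cast_nonneg _) (md_nonneg m)
  have hk2 : (N : ℤ) * md m ≤ ((N * m : ℕ) : ℤ) := by
    push_cast
    exact mul_le_mul_of_nonneg_left (md_le m) (Nat.cast_nonneg _)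
  have hAN : ∫ η, max (X μ 0 η 0 (N * m) (N * md m)) 0 ∂(law μ) ≤ 2 * (N * a) + 2 ^ (4 * T + 19) * E := by
    have h1 := near_pos hEM hk1 hk2
    have h2 := e_iter hEM (md_nonneg m) (md_le m) N
    have h3 : (N : ℝ) * e μ 0 m (md m) ≤ N * a := mul_le_mul_of_nonneg_left he3 (Nat.cast_nonneg _)
    have h4 : 2 * (N * m) ≤ 2 ^ (5 * T + 25) * n := by
      calc 2 * (N * m) ≤ 2 * (N * (2 ^ T * n)) := by gcongr
        _ = 2 ^ (5 * T + 25) * n := by
          rw [hN]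
          ring
    have h5 := ep_le_EE (μ := μ) h4
    unfold ep at h1 h5
    linarith
  -- the small lucks
  obtain ⟨δ, hδ⟩ : ∃ δ : ℝ, δ = 1 / 2 ^ (3 * T + 35) := ⟨_, rfl⟩
  have hδ0 : 0 < δ := by rw [hδ]; positivity
  have hδ1 : δ ≤ 1 := by
    rw [hδ, div_le_one (by positivity)]
    exact one_le_pow₀ one_le_two
  have hmM : m ≤ 2 ^ (4 * T + 36) * n :=
    hm2.trans (Nat.mul_le_mul_right n (Nat.pow_le_pow_right (by norm_num) (by omega)))
  have hM : 2 / δ * m ≤ ((2 ^ (4 * T + 36) * n : ℕ) : ℝ) := by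
    have h1 : 2 / δ = 2 ^ (3 * T + 36) := by
      rw [hδ, one_div, div_inv_eq_mul, show 3 * T + 36 = 3 * T + 35 + 1 by ring, pow_succ]
      ring
    rw [h1]
    have h2 : (m : ℝ) ≤ 2 ^ T * n := by exact_mod_cast hm2
    calc (2 : ℝ) ^ (3 * T + 36) * m ≤ 2 ^ (3 * T + 36) * (2 ^ T * n) := mul_le_mul_of_nonneg_left h2 (by positivity)
      _ = ((2 ^ (4 * T + 36) * n : ℕ) : ℝ) := by
        push_cast
        rw [← mul_assoc, ← pow_add]
        congr 2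
        ring
  have hX : ∀ j ≤ 2 ^ (4 * T + 36) * n, ∫ η, max (X μ 0 η 0 j (md j)) 0 ∂(law μ) ≤ 2 ^ (3 * T + 27) * E := by
    intro j hj
    have h1 := ep_le_EE (μ := μ) hj
    unfold ep at h1
    linarith
  have hmin := minus_small (s := 0) hEM ⟨md_nonneg m, md_le m⟩ (b := E / 32 + 3 * Real.log 2)
    (by have := Real.log_pos one_lt_two; positivity) hc0 hN1 hNε hAN md (fun j _ => ⟨md_nonneg j, md_le j⟩) hX hδ0 hδ1
    hmM hM
  rw [ep_eq hEM (md_nonneg m) (md_le m)]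
  have e1 : 2 * (2 * (N * a) + 2 ^ (4 * T + 19) * E) / N = 4 * a + E / 16 := by
    have hNp : (0 : ℝ) < N := by rw [hNR]; positivity
    have e3 : (2 : ℝ) ^ (4 * T + 19) = N / 32 := by
      rw [hNR]
      ring
    rw [e3, div_eq_iff hNp.ne']
    ring
  have e2 : 7 * (2 ^ (3 * T + 27) * E) * (1 / 2 ^ (4 * T + 35) + δ) ≤ E * (14 / 256) := by
    have h1 : (1 : ℝ) / 2 ^ (4 * T + 35) ≤ δ := by
      rw [hδ]
      refine one_div_le_one_div_of_le (by positivity) (pow_le_pow_right₀ one_le_two (by omega))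
    have h2 : 7 * (2 ^ (3 * T + 27) * E) * (1 / 2 ^ (4 * T + 35) + δ) ≤ 7 * (2 ^ (3 * T + 27) * E) * (δ + δ) :=
      mul_le_mul_of_nonneg_left (by linarith) (by positivity)
    refine h2.trans (le_of_eq ?_)
    have e3 : (2 : ℝ) ^ (3 * T + 27) * δ = 1 / 256 := by
      rw [hδ, mul_one_div, div_eq_iff (by positivity)]
      ring
    calc 7 * (2 ^ (3 * T + 27) * E) * (δ + δ) = 14 * E * (2 ^ (3 * T + 27) * δ) := by ring
      _ = E * (14 / 256) := by rw [e3]; ring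
  have hl2 := Real.log_two_lt_d9
  rw [e1] at hmin
  linarith

end Pool.Agent.W_7d29a1_G
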