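import Pool.Agent.W_7d29a1_G.FinF

/-!
Track G (MP_7d29a1_pr), final step `hF2`: the assembly (`HF2` from the tubes of flat windows and the logarithmic lower
bound of the unit). (helper70)
-/

namespace Pool.Agent.W_7d29a1_G

open MeasureTheory ProbabilityTheory Filter Topology Pool.Agent.W_7d29a1_F Pool.Agent.W_7d29a1_L
open Pool.Agent.W_7d29a1_h47 (EM Nondeg)
open Pool.Agent.W_7d29a1_g (Tube HasPath eR)

/-- Cheap tubes in windows in which the cone does not close (`tube_flat`). -/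
def TubeF (μ : Measure ℝ) : Prop :=
  ∃ (C7 c7 : ℝ) (H0 : ℕ), 0 < C7 ∧ 0 < c7 ∧ ∀ H : ℕ, H0 ≤ H → ∀ D : ℝ, 0 < D →
    ∃ (L x1 : ℕ) (d : ℝ), 0 < d ∧ ∀ x, x1 ≤ x → (∀ j : ℕ, j ≤ L → gg μ (x + j) ≤ gg μ x + 3 / 4 * j) →
      ff μ 1 (x + L) < ff μ 1 x + d →
      ∃ (v w : ℝ) (R : Set Pt) (z : ℤ), c7 * vA μ 1 (2 ^ x) ≤ v ∧ v ≤ 1 / 2 ∧ 0 ≤ w ∧ w ≤ D * (v * 2 ^ x) ∧
        (0 : Pt) ∈ R ∧ R ⊆ Tube 0 (1 / 2 + v) w ∧ HasPath R 0 (H * 2 ^ x) z ∧
        eR μ 0 R 0 (H * 2 ^ x) z ≤ C7 * EE μ (H * 2 ^ x)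

/-- The unit is at least of the order of the logarithm of the time. -/
def LogEE (μ : Measure ℝ) : Prop := ∃ C : ℝ, 0 < C ∧ ∀ n : ℕ, 1 ≤ n → Real.log n ≤ C * EE μ n

variable {μ : Measure ℝ} [IsProbabilityMeasure μ]

omit [IsProbabilityMeasure μ] in
theorem EE_ev (h : LogEE μ) (M : ℝ) : ∃ x1 : ℕ, ∀ x, x1 ≤ x → M ≤ EE μ (2 ^ x) := by
  obtain ⟨C, hC, h⟩ := h
  have hl := Real.log_pos one_lt_two
  obtain ⟨x1, hx1⟩ := exists_nat_ge (C * M / Real.log 2)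
  refine ⟨x1, fun x hx => ?_⟩
  have h1 := h (2 ^ x) Nat.one_le_two_pow
  push_cast at h1
  rw [Real.log_pow] at h1
  have h2 : (x1 : ℝ) ≤ x := by exact_mod_cast hx
  rw [div_le_iff₀ hl] at hx1
  have h3 : (x1 : ℝ) * Real.log 2 ≤ x * Real.log 2 := mul_le_mul_of_nonneg_right h2 hl.le
  have h4 : C * M ≤ C * EE μ (2 ^ x) := by linarith
  exact le_of_mul_le_mul_left h4 hC

theorem nvA_ge (hEM : EM μ) {n : ℕ} (h : vA μ 1 n < 1 / 2) :
    EE μ n ≤ 2 * J μ (1 / 2) * (n * vA μ 1 n) := by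
  have hp := vA_pos hEM one_pos n
  have h1 := J_mul hEM (v := vA μ 1 n) (t := 1 / 2 / vA μ 1 n) hp.le
    (by rw [le_div_iff₀ hp, one_mul]; exact h.le) (by rw [div_mul_cancel₀ _ hp.ne'])
  rw [div_mul_cancel₀ _ hp.ne'] at h1
  have h2 := vA_eq' hEM zero_le_one h
  have h3 : J μ (vA μ 1 n) ≤ 2 * J μ (1 / 2) * vA μ 1 n := by
    have h4 := mul_le_mul_of_nonneg_right h1 (show 0 ≤ 2 * vA μ 1 n by positivity)
    have e : 1 / 2 / vA μ 1 n * J μ (vA μ 1 n) * (2 * vA μ 1 n) = J μ (vA μ 1 n) := by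
      field_simp
    rw [e] at h4
    linarith
  have h5 := mul_le_mul_of_nonneg_left h3 (Nat.cast_nonneg (α := ℝ) n)
  rw [h2] at h5
  linarith

/-- **The last step** (`hF2`): if the unit doubles in boundedly many octaves, the cone closes in every window of slow growth. -/
theorem hF2_of (hEM : EM μ) (hnd : Nondeg μ) (hT : TubeF μ) (hlog : LogEE μ) {T x₀ : ℕ}
    (hgrow : ∀ x, x₀ ≤ x → gg μ x + 1 ≤ gg μ (x + T)) :
    ∃ (L x₁ : ℕ) (δ : ℝ), 0 < δ ∧ ∀ x, x₁ ≤ x → (∀ j : ℕ, j ≤ L → gg μ (x + j) ≤ gg μ x + 3 / 4 * j) →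
      ff μ 1 x + δ ≤ ff μ 1 (x + L) := by
  have hev := EE_ev hlog
  obtain ⟨C7, c7, H0, hC7, hc7, hT⟩ := hT
  obtain ⟨Cl0, hCl0, hlog⟩ := hlog
  obtain ⟨i, hi⟩ : ∃ i : ℕ, i = T * (4 * T + 50) := ⟨_, rfl⟩
  -- the distance
  obtain ⟨Cl, hCl⟩ : ∃ Cl : ℝ, Cl = 1 + T + Cl0 := ⟨_, rfl⟩
  obtain ⟨S0, hS0⟩ := pow_unbounded_of_one_lt (4 * (Cl + 2 ^ (5 * T + 51) + 2 ^ T + 1) / c7) (one_lt_two (α := ℝ))
  obtain ⟨S, hS⟩ : ∃ S : ℕ, S = S0 + T := ⟨_, rfl⟩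
  have hS1 : Cl + 2 ^ (5 * T + 51) + 2 ^ T + 1 ≤ c7 * 2 ^ S / 4 := by
    have h1 : (2 : ℝ) ^ S0 ≤ 2 ^ S := pow_le_pow_right₀ one_le_two (by omega)
    rw [div_lt_iff₀ hc7] at hS0
    have h2 := mul_le_mul_of_nonneg_right h1 hc7.le
    linarith
  -- the duration of the tube
  obtain ⟨g0, hg0⟩ := pow_unbounded_of_one_lt (13 * C7 * 2 ^ (4 * T + 47)) (one_lt_two (α := ℝ))
  obtain ⟨g, hg⟩ : ∃ g : ℕ, g = g0 + H0 + 1 := ⟨_, rfl⟩
  have hg1 : 13 * C7 * 2 ^ (4 * T + 47) ≤ 2 ^ g :=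
    hg0.le.trans (pow_le_pow_right₀ one_le_two (by omega))
  obtain ⟨κ, hκ⟩ : ∃ κ : ℕ, κ = 3 * (S + 2) + 4 * g := ⟨_, rfl⟩
  obtain ⟨H, hH⟩ : ∃ H : ℕ, H = 2 ^ (4 * (S + 2 + g)) := ⟨_, rfl⟩
  have hHH : H0 ≤ H := by
    have h1 : g < 2 ^ g := Nat.lt_two_pow_self
    have h2 : 2 ^ g ≤ H := by rw [hH]; exact Nat.pow_le_pow_right (by norm_num) (by omega)
    omega
  obtain ⟨Lt, xt, d, hd, htube⟩ := hT H hHH (1 / 2 ^ (i + 3)) (by positivity)
  -- the first octave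
  obtain ⟨n0, hn0⟩ := eventually_atTop.1 (vA_lt_half (μ := μ) hEM hnd zero_le_one)
  have hJ : 0 < J μ (1 / 2) := J_pos hEM hnd (by norm_num) le_rfl
  obtain ⟨xE1, hE1⟩ := hev 200
  obtain ⟨xE2, hE2⟩ := hev (2 * J μ (1 / 2) * 3)
  obtain ⟨xE3, hE3⟩ := hev (2 * J μ (1 / 2) * ((16 + 2 ^ (i + 3)) / c7))
  refine ⟨Lt + 4 * (S + 2 + g) + (5 * T + 36), xt + (x₀ + i + 1) + n0 + 3 + xE1 + xE2 + xE3, d, hd,
    fun x hx hwin => ?_⟩
  by_contra hcon
  push Not at hcon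
  have hff : ff μ 1 (x + Lt) < ff μ 1 x + d :=
    lt_of_le_of_lt (ff_mono hEM one_pos (by omega)) hcon
  obtain ⟨v, w, R, z, hv1, hv2, hw0, hw1, h0R, hR, hpath, hcost⟩ :=
    htube x (by omega) (fun j hj => hwin j (by omega)) hff
  obtain ⟨E, hE⟩ : ∃ E : ℝ, E = EE μ (2 ^ x) := ⟨_, rfl⟩
  have hE200 : 200 ≤ E := hE ▸ hE1 x (by omega)
  have hEp : 0 < E := by linarith
  obtain ⟨n, hn⟩ : ∃ n : ℕ, n = 2 ^ x := ⟨_, rfl⟩
  have hnR : (n : ℝ) = 2 ^ x := by rw [hn]; push_cast; ring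
  have hnn0 : n0 ≤ n := by
    have : x < 2 ^ x := Nat.lt_two_pow_self
    omega
  have hn8 : 8 ≤ n := by
    rw [hn]
    calc 8 = 2 ^ 3 := by norm_num
      _ ≤ 2 ^ x := Nat.pow_le_pow_right (by norm_num) (by omega)
  have hnp : (0 : ℝ) < n := by rw [hnR]; positivity
  have hEn : EE μ n = E := by rw [hn, hE]
  rw [← hn] at hv1 hpath hcost
  rw [← hnR] at hw1
  have hvAh := hn0 n hnn0
  have hvAp := vA_pos (μ := μ) hEM one_pos n
  have hnv := nvA_ge hEM hvAh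
  rw [hEn] at hnv
  have hnv3 : 3 ≤ n * vA μ 1 n := by
    have h1 := hE2 x (by omega)
    rw [← hE] at h1
    exact le_of_mul_le_mul_left (h1.trans hnv) (mul_pos two_pos hJ)
  have hnvi : (16 + 2 ^ (i + 3)) / c7 ≤ n * vA μ 1 n := by
    have h1 := hE3 x (by omega)
    rw [← hE] at h1
    exact le_of_mul_le_mul_left (h1.trans hnv) (mul_pos two_pos hJ)
  have hvn : 16 + 2 ^ (i + 3) ≤ v * n := by
    rw [div_le_iff₀ hc7] at hnvi
    have h1 := mul_le_mul_of_nonneg_right hv1 hnp.le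
    linarith
  have hv0 : 0 ≤ v := (mul_nonneg hc7.le hvAp.le).trans hv1
  -- windows
  have hw2 := EE_win (μ := μ) (x := x) (j := 5 * T + 25) (k := 4 * T + 19) (hwin _ (by omega)) (by omega)
  have hw3 := EE_win (μ := μ) (x := x) (j := 4 * T + 36) (k := 3 * T + 27) (hwin _ (by omega)) (by omega)
  have hw4 := EE_win (μ := μ) (x := x) (j := 4 * (S + 2 + g)) (k := 3 * (S + 2 + g)) (hwin _ (by omega)) (by omega)
  rw [← hn, hEn] at hw2 hw3 hw4
  -- the past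
  obtain ⟨x', hx'⟩ : ∃ x' : ℕ, x = x' + 1 + i := ⟨x - 1 - i, by omega⟩
  have hpast := EE_past hgrow (4 * T + 50) (y := x' + 1) (by omega)
  rw [← hi, ← hx', ← hE] at hpast
  obtain ⟨ρ, hρ⟩ : ∃ ρ : ℕ, ρ = 2 ^ x' := ⟨_, rfl⟩
  have hnρ : n = ρ * 2 ^ (i + 1) := by
    rw [hn, hρ, hx', ← pow_add]
    congr 1
    ring
  have hρR : (n : ℝ) = ρ * 2 ^ (i + 1) := by rw [hnρ]; push_cast; ring
  have hρ1 : 1 ≤ ρ := by rw [hρ]; exact Nat.one_le_two_pow
  have hρn : 2 * ρ ≤ n := by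
    rw [hnρ, pow_succ]
    have : 1 ≤ 2 ^ i := Nat.one_le_two_pow
    nlinarith
  have hww : 2 * w + 2 ≤ v * ρ := by
    have h1 : 1 / 2 ^ (i + 3) * (v * n) = v * ρ / 4 := by
      rw [hρR, show i + 3 = i + 1 + 2 by ring, pow_add]
      field_simp
      norm_num
      ring
    rw [h1] at hw1
    have h2 : v * n = v * ρ * 2 ^ (i + 1) := by rw [hρR]; ring
    have h3 : (4 : ℝ) ≤ v * ρ := by
      have h4 : (4 : ℝ) * 2 ^ (i + 1) ≤ v * ρ * 2 ^ (i + 1) := by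
        rw [← h2]
        have h5 : (4 : ℝ) * 2 ^ (i + 1) = 2 ^ (i + 3) := by
          rw [show i + 3 = i + 1 + 2 by ring, pow_add]
          norm_num
          ring
        rw [h5]
        linarith
      exact le_of_mul_le_mul_right h4 (by positivity)
    linarith
  -- the means
  obtain ⟨a, ha⟩ : ∃ a : ℝ, a = E / 2 ^ (4 * T + 46) := ⟨_, rfl⟩
  have hcone : ∀ (q : ℕ) (y : ℤ), n ≤ q → q ≤ 2 ^ (S + 1) * n → |(y : ℝ) - (q : ℝ) / 2| ≤ v * q / 4 →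
      e μ 0 q y ≤ a := by
    intro q y hq1 hq2 hy
    have hqR : (n : ℝ) ≤ q := by exact_mod_cast hq1
    have hvq : v * n ≤ v * q := mul_le_mul_of_nonneg_left hqR hv0
    have hpt : q - q / 2 + q / 2 = q := by omega
    have hp2 : (q : ℝ) / 2 ≤ ((q - q / 2 : ℕ) : ℝ) := by
      have h1 : q ≤ 2 * (q - q / 2) := by omega
      have h2 : (q : ℝ) ≤ 2 * ((q - q / 2 : ℕ) : ℝ) := by exact_mod_cast h1
      linarith
    have hvp : v * (q / 2) ≤ v * ((q - q / 2 : ℕ) : ℝ) := mul_le_mul_of_nonneg_left hp2 hv0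
    have hK2 : 2 ≤ 2 ^ κ := by
      calc 2 = 2 ^ 1 := by norm_num
        _ ≤ 2 ^ κ := Nat.pow_le_pow_right (by norm_num) (by omega)
    have hHn : (2 ^ κ + 1) * (q - q / 2 + q / 2) ≤ H * n := by
      rw [hpt]
      have h1 : 2 ^ κ + 1 ≤ 2 ^ (κ + 1) := by rw [pow_succ]; omega
      calc (2 ^ κ + 1) * q ≤ 2 ^ (κ + 1) * (2 ^ (S + 1) * n) := Nat.mul_le_mul h1 hq2
        _ = H * n := by
          rw [hH, hκ, ← mul_assoc, ← pow_add]
          congr 2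
          ring
    have h := Pool.Agent.W_7d29a1_G.cone_mean hEM h0R hR hpath hw0 ρ hρ1 hww
      (c := C7 * (2 ^ (3 * (S + 2 + g)) * E)) ?_ (by positivity) (q - q / 2) (q / 2) (2 ^ κ) (by omega) (by omega) hK2
      hHn y ?_
    · rw [hpt] at h
      have h1 := gEm_le_EE hEM (2 * ρ)
      have e1 : 2 * ρ = 2 ^ (x' + 1) := by rw [hρ, pow_succ]; ring
      rw [e1] at h1 h
      have h2 : 6 * Pool.Agent.W_7d29a1_g.Em μ (2 ^ (x' + 1)) ≤ E / 2 ^ (4 * T + 47) := by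
        rw [le_div_iff₀ (by positivity)]
        have h3 : (2 : ℝ) ^ (4 * T + 50) = 8 * 2 ^ (4 * T + 47) := by
          rw [show 4 * T + 50 = 4 * T + 47 + 3 by ring, pow_add]
          norm_num
          ring
        rw [h3] at hpast
        have h4 := mul_le_mul_of_nonneg_right h1 (show (0 : ℝ) ≤ 2 ^ (4 * T + 47) by positivity)
        have h5 := EE_pos (μ := μ) (2 ^ (x' + 1))
        have h6 : 0 < EE μ (2 ^ (x' + 1)) * 2 ^ (4 * T + 47) := by positivity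
        linarith
      have h3 : 13 * (C7 * (2 ^ (3 * (S + 2 + g)) * E)) / ((2 ^ κ : ℕ) : ℝ) ≤ E / 2 ^ (4 * T + 47) := by
        have e2 : 13 * (C7 * (2 ^ (3 * (S + 2 + g)) * E)) / ((2 ^ κ : ℕ) : ℝ) = 13 * C7 * E / 2 ^ g := by
          push_cast
          rw [hκ, show 3 * (S + 2) + 4 * g = 3 * (S + 2 + g) + g by ring, pow_add]
          field_simp
        rw [e2, div_le_div_iff₀ (by positivity) (by positivity)]
        have h4 := mul_le_mul_of_nonneg_right hg1 hEp.le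
        linarith
      have h4 : E / 2 ^ (4 * T + 47) + E / 2 ^ (4 * T + 47) = a := by
        rw [ha, show 4 * T + 47 = 4 * T + 46 + 1 by ring, pow_succ]
        field_simp
        norm_num
      linarith
    · refine hcost.trans (mul_le_mul_of_nonneg_left ?_ hC7.le)
      rw [hH]
      exact hw4
    · rw [hpt]
      refine hy.trans ?_
      have : (0 : ℝ) < 2 ^ (i + 3) := by positivity
      linarith
  -- the tilt
  obtain ⟨h, hh⟩ : ∃ h : ℝ, h = E / (n * vA μ 1 n) := ⟨_, rfl⟩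
  have hnvp : 0 < n * vA μ 1 n := by linarith
  have hh0 : 0 ≤ h := by rw [hh]; positivity
  have hhE : h * (n * vA μ 1 n) = E := by rw [hh]; exact div_mul_cancel₀ _ hnvp.ne'
  have hh1 : n * LL μ h ≤ E := by
    have h1 := LL_le_EE hEM hnd one_pos hvAh (s := h) (by rw [abs_of_nonneg hh0, hhE, hEn, one_mul])
    rw [hEn, one_mul] at h1
    exact h1
  have hh2 : 3 * h ≤ E := by
    rw [← hhE]
    have := mul_le_mul_of_nonneg_left hnv3 hh0
    linarith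
  have hdist : Cl * E + 2 ^ (5 * T + 51) * E + 2 ^ T * E + E ≤ h * (v * (2 ^ S * n) / 4) := by
    have h1 : h * (c7 * vA μ 1 n * (2 ^ S * n) / 4) ≤ h * (v * (2 ^ S * n) / 4) := by
      gcongr
    have h2 : h * (c7 * vA μ 1 n * (2 ^ S * n) / 4) = c7 * 2 ^ S / 4 * E := by
      rw [← hhE]
      ring
    rw [h2] at h1
    have h3 := mul_le_mul_of_nonneg_right hS1 hEp.le
    linarith
  -- the unit
  have hall : ∀ m : ℕ, n ≤ m → m ≤ 2 ^ T * n → ep μ m (md m) ≤ E / 2 := by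
    intro m hm1 hm2
    have hmR : (m : ℝ) ≤ 2 ^ T * n := by exact_mod_cast hm2
    have hm0 : (0 : ℝ) < m := hnp.trans_le (by exact_mod_cast hm1)
    have hlogm : Real.log (2 * m) ≤ Cl * E := by
      have h1 : Real.log (2 * m) ≤ Real.log (2 ^ (T + 1) * n) := by
        refine Real.log_le_log (by positivity) ?_
        rw [pow_succ]
        linarith
      rw [Real.log_mul (by positivity) hnp.ne', Real.log_pow] at h1
      have h2 := hlog n (by omega)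
      rw [hEn] at h2
      have h3 : ((T + 1 : ℕ) : ℝ) * Real.log 2 ≤ (T + 1) * E := by
        push_cast
        have h4 := Real.log_two_lt_d9
        have h5 : Real.log 2 ≤ E := by linarith
        exact mul_le_mul_of_nonneg_left h5 (by positivity)
      rw [hCl]
      linarith
    have hv16 : 16 ≤ v * n := by
      have : (0 : ℝ) < 2 ^ (i + 3) := by positivity
      linarith
    exact fin_scale hEM hn8 hEn hE200 hm1 hm2 (by omega) hv0 hv2 hv16 hcone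
      (by rw [ha, div_mul_cancel₀ _ (by positivity)]) hh0 hh1 hh2 hlogm hdist hw2 hw3
  have hsm : EE μ (2 ^ T * n) ≤ 3 / 2 * E := by
    refine EE_le fun m hm => ?_
    rcases le_or_gt m n with h1 | h1
    · have h2 := ep_le_EE (μ := μ) h1
      rw [hEn] at h2
      linarith
    · have h2 := hall m h1.le hm
      linarith
  have hdb := EE_double (hgrow x (by omega))
  rw [← hE, pow_add, ← hn, mul_comm n] at hdb
  linarith

theorem HF2_of (hEM : EM μ) (hnd : Nondeg μ) (hT : TubeF μ) (hlog : LogEE μ) : HF2 μ :=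
  fun _ _ _ hgrow _ _ => hF2_of hEM hnd hT hlog hgrow

end Pool.Agent.W_7d29a1_G
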