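import Pool.Agent.W_7d29a1_G.FR0

/-!
MP_7d29a1_pr, track G, Frame3: from the cone at the four-fold time to the cone at all times (`FIn`).
-/

namespace Pool.Agent.W_7d29a1_G

open MeasureTheory ProbabilityTheory Filter Topology Pool.Agent.W_7d29a1_F Pool.Agent.W_7d29a1_h4g

variable {μ : Measure ℝ} [IsProbabilityMeasure μ]

/-- The mean positive cost is at most the mean cost plus one unit. -/
theorem ep_le_e_EE (hμ : Pool.Agent.W_7d29a1_h47.EM μ) {m : ℕ} {y : ℤ} (h0 : 0 ≤ y) (h1 : y ≤ m) :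
    ep μ m y ≤ e μ 0 m y + (EE μ m - 1) := by
  have hX := int_X hμ 0 h0 h1
  have hV : Integrable (fun η => V μ 0 η 0 m) (law μ) := (Sub_V 0 m).integrable hμ
  have hM := int_Xp hμ 0 (md_nonneg m) (md_le m)
  have hpt : ∀ η, max (X μ 0 η 0 m y) 0 ≤
      X μ 0 η 0 m y + (V μ 0 η 0 m + max (X μ 0 η 0 m (md m)) 0) := by
    intro η
    have h2 := neg_X_le_V (μ := μ) (s := 0) η 0 h0 h1
    have h3 := neg_X_le_V (μ := μ) (s := 0) η 0 (md_nonneg m) (md_le m)
    have h4 : X μ 0 η 0 m (md m) ≤ max (X μ 0 η 0 m (md m)) 0 := le_max_left _ _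
    have h5 : 0 ≤ max (X μ 0 η 0 m (md m)) 0 := le_max_right _ _
    exact max_le (by linarith) (by linarith)
  have hI : Integrable (fun η => V μ 0 η 0 m + max (X μ 0 η 0 m (md m)) 0) (law μ) := hV.add hM
  have h6 := integral_mono (int_Xp hμ 0 h0 h1) (hX.add hI) hpt
  have h7 : ∫ η, (X μ 0 η 0 m y + (V μ 0 η 0 m + max (X μ 0 η 0 m (md m)) 0)) ∂(law μ) =
      e μ 0 m y + (∫ η, V μ 0 η 0 m ∂(law μ) + ep μ m (md m)) := by
    rw [integral_add hX hI, integral_add hV hM]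
    rfl
  have h8 := integral_V_nonpos hμ 0 m
  have h9 := ep_le_EE (μ := μ) (le_refl m)
  have h10 : ep μ m y ≤ e μ 0 m y + (∫ η, V μ 0 η 0 m ∂(law μ) + ep μ m (md m)) := by
    rw [← h7]
    exact h6
  linarith

/-- Small displacements. -/
theorem ep_small (hμ : Pool.Agent.W_7d29a1_h47.EM μ) (M : ℕ) : ∃ C : ℝ, 0 ≤ C ∧ ∀ (m : ℕ) (y : ℤ), m ≤ M →
    0 ≤ y → y ≤ m → ep μ m y ≤ C := by
  obtain ⟨C, hC, h⟩ := e_le_linear hμ 0
  refine ⟨C * M + EE μ M, ?_, fun m y hm h0 h1 => ?_⟩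
  · have := one_le_EE (μ := μ) M
    positivity
  · have h2 := ep_le_e_EE hμ h0 h1
    have h3 := h m y h0 h1
    have h4 : EE μ m ≤ EE μ M := EE_mono hm
    have h5 : C * (m : ℝ) ≤ C * M := mul_le_mul_of_nonneg_left (by exact_mod_cast hm) hC.le
    linarith

/-- The unit per time decreases, up to the factor `2`. -/
theorem EE_rate (hμ : Pool.Agent.W_7d29a1_h47.EM μ) {k n : ℕ} (hk : 1 ≤ k) (hkn : k ≤ n) :
    k * EE μ n ≤ 2 * (n * EE μ k) := by
  have hk0 : (0 : ℝ) < k := by exact_mod_cast hk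
  obtain ⟨q, hq⟩ : ∃ q : ℕ, q = n / k + 1 := ⟨_, rfl⟩
  have h1 : n ≤ q * k := by
    rw [hq]
    have := Nat.lt_div_mul_add (a := n) (b := k) (by omega)
    rw [Nat.add_mul, one_mul]
    omega
  have h2 : EE μ n ≤ q * EE μ k := (EE_mono h1).trans (EE_mul hμ q k (by rw [hq]; exact Nat.le_add_left 1 _))
  have h3 : (q : ℝ) * k ≤ 2 * n := by
    have h4 : q * k ≤ 2 * n := by
      rw [hq, Nat.add_mul, one_mul]
      have := Nat.div_mul_le_self n k
      omega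
    exact_mod_cast h4
  have hE := one_le_EE (μ := μ) k
  calc (k : ℝ) * EE μ n ≤ k * (q * EE μ k) := mul_le_mul_of_nonneg_left h2 hk0.le
    _ = (q * k) * EE μ k := by ring
    _ ≤ (2 * n) * EE μ k := mul_le_mul_of_nonneg_right h3 (by linarith)
    _ = 2 * (n * EE μ k) := by ring

/-- (0.2) of row 622. -/
theorem vA_le_two (hμ : Pool.Agent.W_7d29a1_h47.EM μ) {A : ℝ} (hA : 0 ≤ A) {k n : ℕ} (hk : 1 ≤ k)
    (hkn : k ≤ n) : vA μ A n ≤ 2 * vA μ A k := by
  have h0 := vA_nonneg (μ := μ) hμ hA n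
  have h1 := vA_le (μ := μ) hμ hA n
  have hn0 : (0 : ℝ) < n := by exact_mod_cast (show 0 < n by omega)
  have hk0 : (0 : ℝ) < k := by exact_mod_cast hk
  have h2 : vA μ A n / 2 ≤ vA μ A k := by
    refine le_vA (by linarith) (by linarith) ?_
    have h3 := J_mul hμ (v := vA μ A n / 2) (t := 2) (by linarith) (by norm_num) (by linarith)
    rw [mul_div_cancel₀ _ (two_ne_zero' ℝ)] at h3
    have h4 := vA_mem (μ := μ) hμ hA n
    have h5 := mul_le_mul_of_nonneg_left (EE_rate hμ hk hkn) hA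
    -- `k * J(v/2) ≤ k J(v) / 2 ≤ k A EE n / (2 n) ≤ A EE k`
    have h6 : (n : ℝ) * (k * J μ (vA μ A n / 2)) ≤ n * (A * EE μ k) := by
      have h7 : (n : ℝ) * (k * (2 * J μ (vA μ A n / 2))) ≤ k * (A * EE μ n) := by
        calc (n : ℝ) * (k * (2 * J μ (vA μ A n / 2))) = k * (n * (2 * J μ (vA μ A n / 2))) := by ring
          _ ≤ k * (n * J μ (vA μ A n)) :=
            mul_le_mul_of_nonneg_left (mul_le_mul_of_nonneg_left h3 hn0.le) hk0.le
          _ ≤ k * (A * EE μ n) := mul_le_mul_of_nonneg_left h4 hk0.le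
      nlinarith
    exact le_of_mul_le_mul_left h6 hn0
  linarith

/-- The width in sites is at least a constant times the unit. -/
theorem wA_ge (hμ : Pool.Agent.W_7d29a1_h47.EM μ) (hnd : Pool.Agent.W_7d29a1_h47.Nondeg μ) {A : ℝ}
    (hA : 0 < A) : ∃ C : ℝ, 0 < C ∧ ∀ᶠ n : ℕ in atTop, EE μ n ≤ C * (vA μ A n * n) := by
  have hJ := J_pos hμ hnd (v := 1 / 2) (by norm_num) le_rfl
  refine ⟨2 * J μ (1 / 2) / A, by positivity, ?_⟩
  filter_upwards [vA_lt_half hμ hnd hA.le] with n hn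
  have h0 := vA_pos hμ hA n
  have h1 := vA_eq' hμ hA.le hn
  have h2 := J_mul hμ (v := vA μ A n) (t := 1 / 2 / vA μ A n) h0.le (by
    rw [le_div_iff₀ h0]
    linarith) (by rw [div_mul_cancel₀ _ h0.ne'])
  rw [div_mul_cancel₀ _ h0.ne'] at h2
  have h3 : J μ (vA μ A n) ≤ 2 * J μ (1 / 2) * vA μ A n := by
    have h4 := mul_le_mul_of_nonneg_left h2 h0.le
    have h5 : vA μ A n * (1 / 2 / vA μ A n * J μ (vA μ A n)) = J μ (vA μ A n) / 2 := by
      field_simp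
    linarith
  have hn0 : (0 : ℝ) ≤ n := Nat.cast_nonneg n
  have h4 : A * EE μ n ≤ n * (2 * J μ (1 / 2) * vA μ A n) := by
    rw [← h1]
    exact mul_le_mul_of_nonneg_left h3 hn0
  rw [div_mul_eq_mul_div, le_div_iff₀ hA]
  linarith

/-- Cutting with the slack `1`. -/
theorem cut_one {κ : ℝ} (h0 : 0 ≤ κ) (h1 : κ ≤ 1 / 4) {m n : ℕ} (hm : 4 ≤ m) (hn : 4 ≤ n) {y : ℤ}
    (hy : |(y : ℝ) - (m + n : ℕ) / 2| ≤ κ * (m + n : ℕ) + 1) : ∃ y1 y2 : ℤ, y = y1 + y2 ∧
      0 ≤ y1 ∧ y1 ≤ m ∧ |(y1 : ℝ) - m / 2| ≤ κ * m + 1 ∧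
      0 ≤ y2 ∧ y2 ≤ n ∧ |(y2 : ℝ) - n / 2| ≤ κ * n + 1 := by
  have hm0 : (4 : ℝ) ≤ m := by exact_mod_cast hm
  have hn0 : (4 : ℝ) ≤ n := by exact_mod_cast hn
  push_cast at hy
  rw [abs_le] at hy
  obtain ⟨D, hD⟩ : ∃ D : ℝ, D = (y : ℝ) - (m + n) / 2 := ⟨_, rfl⟩
  rw [← hD] at hy
  obtain ⟨l, hl⟩ : ∃ l : ℝ, l = max (-(κ * m + 1)) (D - (κ * n + 1)) := ⟨_, rfl⟩
  have hκm : 0 ≤ κ * m := by positivity
  have hκn : 0 ≤ κ * n := by positivity
  obtain ⟨y1, hy1⟩ : ∃ y1 : ℤ, y1 = ⌈(m : ℝ) / 2 + l⌉ := ⟨_, rfl⟩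
  have a1 : (m : ℝ) / 2 + l ≤ y1 := by rw [hy1]; exact Int.le_ceil _
  have a2 : (y1 : ℝ) < m / 2 + l + 1 := by rw [hy1]; exact Int.ceil_lt_add_one _
  have l1 : -(κ * m + 1) ≤ l := by rw [hl]; exact le_max_left _ _
  have l2 : D - (κ * n + 1) ≤ l := by rw [hl]; exact le_max_right _ _
  have l3 : l + 1 ≤ κ * m + 1 := by
    rw [hl]
    rcases le_total (-(κ * m + 1)) (D - (κ * n + 1)) with h | h
    · rw [max_eq_right h]
      linarith
    · rw [max_eq_left h]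
      linarith
  have l4 : l + 1 ≤ D + (κ * n + 1) := by
    rw [hl]
    rcases le_total (-(κ * m + 1)) (D - (κ * n + 1)) with h | h
    · rw [max_eq_right h]
      linarith
    · rw [max_eq_left h]
      linarith
  have b1 : |(y1 : ℝ) - m / 2| ≤ κ * m + 1 := by
    rw [abs_le]
    constructor <;> linarith
  have b2 : |(((y - y1 : ℤ)) : ℝ) - n / 2| ≤ κ * n + 1 := by
    push_cast
    rw [abs_le]
    constructor <;> linarith
  have hκ4m : κ * m ≤ 1 / 4 * m := mul_le_mul_of_nonneg_right h1 (by linarith)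
  have hκ4n : κ * n ≤ 1 / 4 * n := mul_le_mul_of_nonneg_right h1 (by linarith)
  refine ⟨y1, y - y1, by ring, ?_, ?_, b1, ?_, ?_, b2⟩
  · have : (0 : ℝ) ≤ y1 := by linarith [(abs_le.1 b1).1]
    exact_mod_cast this
  · have : (y1 : ℝ) ≤ m := by linarith [(abs_le.1 b1).2]
    exact_mod_cast this
  · have : (0 : ℝ) ≤ ((y - y1 : ℤ) : ℝ) := by linarith [(abs_le.1 b2).1]
    exact_mod_cast this
  · have : ((y - y1 : ℤ) : ℝ) ≤ n := by linarith [(abs_le.1 b2).2]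
    exact_mod_cast this

/-- **Frame3**, raw form: cones at the times `4 n` give cones at all times `m ≤ H n`. -/
theorem FIn_raw (hμ : Pool.Agent.W_7d29a1_h47.EM μ) (hnd : Pool.Agent.W_7d29a1_h47.Nondeg μ)
    (hE : Tendsto (EE μ) atTop atTop) {A C : ℝ} {n0 : ℕ} (hA : 0 ≤ A) (hC : 0 < C)
    (hcone : ∀ n : ℕ, n0 ≤ n → ∃ w : ℝ, vA μ 1 n * n ≤ C * w ∧ ∀ y : ℤ, 0 ≤ y → y ≤ 4 * n →
      |(y : ℝ) - 2 * n| < w → e μ 0 (4 * n) y ≤ A * EE μ n) :
    ∃ c0 : ℝ, 0 < c0 ∧ ∀ H : ℕ, ∃ (C' : ℝ) (n1 : ℕ), 0 < C' ∧ ∀ n : ℕ, n1 ≤ n → ∀ m : ℕ, m ≤ H * n →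
      ∀ y : ℤ, 0 ≤ y → y ≤ m → |(y : ℝ) - m / 2| ≤ c0 * vA μ 1 n * m + 1 → ep μ m y ≤ C' * EE μ n := by
  obtain ⟨Cw, hCw, hw⟩ := wA_ge hμ hnd (A := 1) one_pos
  obtain ⟨c0, hc0⟩ : ∃ c0 : ℝ, c0 = min (1 / 2) (1 / (28 * C)) := ⟨_, rfl⟩
  have hc00 : 0 < c0 := by rw [hc0]; exact lt_min (by norm_num) (by positivity)
  have hc01 : c0 ≤ 1 / 2 := by rw [hc0]; exact min_le_left _ _
  have hc02 : 14 * c0 ≤ 1 / (2 * C) := by
    have : c0 ≤ 1 / (28 * C) := by rw [hc0]; exact min_le_right _ _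
    have h2 : 14 * (1 / (28 * C)) = 1 / (2 * C) := by field_simp; norm_num
    linarith
  have hbig : ∀ᶠ n : ℕ in atTop, 4 * C * Cw < EE μ n := hE.eventually (eventually_gt_atTop _)
  obtain ⟨k0, hk0⟩ := eventually_atTop.1 (hw.and hbig)
  obtain ⟨K, hK⟩ : ∃ K : ℕ, K = max (max n0 k0) 1 := ⟨_, rfl⟩
  have hKn0 : n0 ≤ K := by rw [hK]; exact (le_max_left _ _).trans (le_max_left _ _)
  have hKk0 : k0 ≤ K := by rw [hK]; exact (le_max_right _ _).trans (le_max_left _ _)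
  have hK1 : 1 ≤ K := by rw [hK]; exact le_max_right _ _
  obtain ⟨Cs, hCs, hsm⟩ := ep_small hμ (4 * K + 8)
  have hκ : ∀ n : ℕ, 0 ≤ c0 * vA μ 1 n ∧ c0 * vA μ 1 n ≤ 1 / 4 := by
    intro n
    have h1 := vA_nonneg (μ := μ) hμ zero_le_one n
    have h2 := vA_le (μ := μ) hμ zero_le_one n
    refine ⟨by positivity, ?_⟩
    calc c0 * vA μ 1 n ≤ 1 / 2 * (1 / 2) := mul_le_mul hc01 h2 h1 (by norm_num)
      _ = 1 / 4 := by norm_num
  -- the case `m ≤ n`
  have hbase : ∀ n m : ℕ, m ≤ n → ∀ y : ℤ, 0 ≤ y → y ≤ m →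
      |(y : ℝ) - m / 2| ≤ c0 * vA μ 1 n * m + 1 → ep μ m y ≤ (Cs + A + 5) * EE μ n := by
    intro n m hmn y hy0 hy1 hy2
    have hEn := one_le_EE (μ := μ) n
    rcases le_or_gt m (4 * K + 8) with hm | hm
    · have h1 := hsm m y hm hy0 hy1
      nlinarith
    · obtain ⟨k, r, hkr, hr⟩ : ∃ k r : ℕ, m = 4 * k + r ∧ r < 4 := ⟨m / 4, m % 4, by omega, by omega⟩
      have hkK : K ≤ k := by omega
      have hk1 : 1 ≤ k := by omega
      have hkn : k ≤ n := by omega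
      obtain ⟨w, hw1, hw2⟩ := hcone k (by omega)
      obtain ⟨hw3, hw4⟩ := hk0 k (by omega)
      have hkR : (1 : ℝ) ≤ k := by exact_mod_cast hk1
      have hrR : (r : ℝ) ≤ 3 := by exact_mod_cast (show r ≤ 3 by omega)
      have hr0 : (0 : ℝ) ≤ r := Nat.cast_nonneg r
      have hv1 := vA_nonneg (μ := μ) hμ zero_le_one k
      have hv2 := vA_le_two (μ := μ) hμ zero_le_one hk1 hkn
      have hm7 : (m : ℝ) ≤ 7 * k := by
        rw [hkr]
        push_cast
        linarith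
      have hmd : |(r : ℝ) / 2 - (md r : ℝ)| ≤ 1 / 2 := by
        have h1 : 2 * md r ≤ r := by unfold md; omega
        have h2 : (r : ℤ) ≤ 2 * md r + 1 := by unfold md; omega
        have h1' : 2 * (md r : ℝ) ≤ r := by exact_mod_cast h1
        have h2' : (r : ℝ) ≤ 2 * (md r : ℝ) + 1 := by exact_mod_cast h2
        rw [abs_le]
        constructor <;> linarith
      have hwk : 14 * c0 * (vA μ 1 k * k) + 2 < w := by
        have h1 : 14 * c0 * (vA μ 1 k * k) ≤ 1 / (2 * C) * (vA μ 1 k * k) :=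
          mul_le_mul_of_nonneg_right hc02 (by positivity)
        have h2 : 2 < 1 / (2 * C) * (vA μ 1 k * k) := by
          rw [one_div, ← div_eq_inv_mul, lt_div_iff₀ (by positivity)]
          have h3 : 4 * C * Cw < Cw * (vA μ 1 k * k) := lt_of_lt_of_le hw4 hw3
          have h4 : Cw * (2 * (2 * C)) < Cw * (vA μ 1 k * k) := by linarith
          exact lt_of_mul_lt_mul_left h4 hCw.le
        have h3 : 1 / (2 * C) * (vA μ 1 k * k) + 1 / (2 * C) * (vA μ 1 k * k) ≤ w := by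
          have h4 : 1 / (2 * C) * (vA μ 1 k * k) + 1 / (2 * C) * (vA μ 1 k * k) =
              (vA μ 1 k * k) / C := by
            have : 1 / (2 * C) = 1 / 2 * (1 / C) := by field_simp
            rw [this]
            ring
          rw [h4, div_le_iff₀ hC]
          linarith
        linarith
      have hd : |(y : ℝ) - m / 2| < w - 1 / 2 := by
        have h1 : c0 * vA μ 1 n * m ≤ 14 * c0 * (vA μ 1 k * k) := by
          calc c0 * vA μ 1 n * m ≤ c0 * (2 * vA μ 1 k) * (7 * k) :=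
                mul_le_mul (mul_le_mul_of_nonneg_left hv2 hc00.le) hm7 (Nat.cast_nonneg _) (by positivity)
            _ = 14 * c0 * (vA μ 1 k * k) := by ring
        linarith
      have hy3 : |((y - md r : ℤ) : ℝ) - 2 * k| < w := by
        have e1 : ((y - md r : ℤ) : ℝ) - 2 * k = ((y : ℝ) - m / 2) + ((r : ℝ) / 2 - (md r : ℝ)) := by
          rw [hkr]
          push_cast
          ring
        rw [e1]
        refine lt_of_le_of_lt (abs_add_le _ _) ?_
        linarith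
      -- the position is admissible
      have hmR : ((4 * k + r : ℕ) : ℝ) = m := by rw [hkr]
      have hκn := hκ n
      have hmpos : (8 : ℝ) ≤ m := by exact_mod_cast (show 8 ≤ m by omega)
      have hy4 := abs_le.1 hy2
      have hκm : c0 * vA μ 1 n * m ≤ 1 / 4 * m := mul_le_mul_of_nonneg_right hκn.2 (by linarith)
      have hmK : (12 : ℝ) ≤ m := by exact_mod_cast (show 12 ≤ m by omega)
      have hmdr : (md r : ℝ) ≤ 3 / 2 := by
        have h1 : 2 * md r ≤ r := by unfold md; omega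
        have h1' : 2 * (md r : ℝ) ≤ r := by exact_mod_cast h1
        linarith
      have hmdr0 : (0 : ℝ) ≤ (md r : ℝ) := by exact_mod_cast md_nonneg r
      have hmdr1 : (r : ℝ) ≤ 2 * (md r : ℝ) + 1 := by
        have h2 : (r : ℤ) ≤ 2 * md r + 1 := by unfold md; omega
        exact_mod_cast h2
      have hk3 : (3 : ℝ) ≤ k := by exact_mod_cast (show 3 ≤ k by omega)
      have hm4k : (m : ℝ) = 4 * k + r := by rw [hkr]; push_cast; ring
      have hz0 : 0 ≤ y - md r := by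
        have : (0 : ℝ) ≤ ((y - md r : ℤ) : ℝ) := by push_cast; linarith [hy4.1]
        exact_mod_cast this
      have hz1 : y - md r ≤ ((4 * k : ℕ) : ℤ) := by
        have : ((y - md r : ℤ) : ℝ) ≤ ((4 * k : ℕ) : ℝ) := by push_cast; linarith [hy4.2]
        exact_mod_cast this
      have h1 := hw2 (y - md r) hz0 (by push_cast at hz1 ⊢; omega) hy3
      have h2 := ep_le_e_EE hμ hz0 hz1
      have h3 : EE μ (4 * k) ≤ 4 * EE μ k := by
        have := EE_mul hμ 4 k (by norm_num)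
        simpa using this
      have h4 : EE μ k ≤ EE μ n := EE_mono hkn
      have h5 := ep_add hμ hz0 hz1 (md_nonneg r) (md_le r)
      rw [sub_add_cancel, ← hkr] at h5
      have h6 := ep_le_EE (μ := μ) (show r ≤ n by omega)
      have h7 : A * EE μ k ≤ A * EE μ n := mul_le_mul_of_nonneg_left h4 hA
      nlinarith
  refine ⟨c0, hc00, fun H => ?_⟩
  -- doubling
  have hdbl : ∀ q : ℕ, ∀ n m : ℕ, m ≤ 2 ^ q * n → ∀ y : ℤ, 0 ≤ y → y ≤ m →
      |(y : ℝ) - m / 2| ≤ c0 * vA μ 1 n * m + 1 → ep μ m y ≤ 2 ^ q * (Cs + A + 5) * EE μ n := by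
    intro q
    induction q with
    | zero =>
      intro n m hm y h0 h1 h2
      rw [pow_zero, one_mul]
      exact hbase n m (by simpa using hm) y h0 h1 h2
    | succ q ih =>
      intro n m hm y h0 h1 h2
      have hEn := one_le_EE (μ := μ) n
      rcases le_or_gt m 8 with h8 | h8
      · have h3 := hsm m y (by omega) h0 h1
        have h4 : (1 : ℝ) ≤ 2 ^ (q + 1) := one_le_pow₀ (by norm_num)
        have h5 : Cs ≤ 2 ^ (q + 1) * (Cs + A + 5) := by nlinarith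
        have h6 : (0 : ℝ) ≤ 2 ^ (q + 1) * (Cs + A + 5) := by positivity
        nlinarith
      · obtain ⟨a, b, hab, ha, hb, han, hbn⟩ : ∃ a b : ℕ, m = a + b ∧ 4 ≤ a ∧ 4 ≤ b ∧
            a ≤ 2 ^ q * n ∧ b ≤ 2 ^ q * n := by
          refine ⟨m / 2, m - m / 2, by omega, by omega, by omega, ?_, ?_⟩
          · rw [pow_succ] at hm
            have : 2 ^ q * 2 * n = 2 * (2 ^ q * n) := by ring
            omega
          · rw [pow_succ] at hm
            have : 2 ^ q * 2 * n = 2 * (2 ^ q * n) := by ring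
            omega
        subst hab
        obtain ⟨y1, y2, hy, a0, a1, a2, b0, b1, b2⟩ := cut_one (hκ n).1 (hκ n).2 ha hb h2
        rw [hy]
        have h3 := ep_add hμ a0 a1 b0 b1
        have h4 := ih n a han y1 a0 a1 a2
        have h5 := ih n b hbn y2 b0 b1 b2
        have e1 : (2 : ℝ) ^ (q + 1) * (Cs + A + 5) * EE μ n =
            2 ^ q * (Cs + A + 5) * EE μ n + 2 ^ q * (Cs + A + 5) * EE μ n := by
          rw [pow_succ]
          ring
        rw [e1]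
        linarith
  refine ⟨2 ^ H * (Cs + A + 5), 0, by positivity, fun n _ m hm y h0 h1 h2 => ?_⟩
  refine hdbl H n m (hm.trans (Nat.mul_le_mul_right _ ?_)) y h0 h1 h2
  exact Nat.lt_two_pow_self.le

end Pool.Agent.W_7d29a1_G
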