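import Pool.Agent.W_7d29a1_G.FrDefs
import Pool.Agent.W_7d29a1_h30g.Fr8
import Pool.Agent.W_7d29a1_h18.HEU

/-!
MP_7d29a1_pr, track G: the output of row 620 in the form of `FrDefs.lean` (`FrOut`), from the frame at every scale
(`W_7d29a1_h30g.frame`) and `EE_log` (helper18). (helper80)
-/

namespace Pool.Agent.W_7d29a1_G

open MeasureTheory ProbabilityTheory Filter Topology Pool.Agent.W_7d29a1_F Pool.Agent.W_7d29a1_h4g Pool.Agent.W_7d29a1_L

noncomputable section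

/-- `FrOut` from the frame, with the growth of the unit as a hypothesis. -/
theorem frOut_of_log {μ : Measure ℝ} [IsProbabilityMeasure μ] (hEM : Pool.Agent.W_7d29a1_h47.EM μ)
    (hnd : Pool.Agent.W_7d29a1_h47.Nondeg μ)
    (hlog : ∀ K : ℝ, ∃ n0 : ℕ, ∀ n, n0 ≤ n → K * Real.log n ≤ EE μ n) : FrOut μ := by
  obtain ⟨C, n0, hC, hF⟩ := Pool.Agent.W_7d29a1_h30g.frame hEM hnd hlog
  refine ⟨C, C, 1 / 3, n0, by norm_num, fun n hn => ?_⟩
  obtain ⟨w, h, Y, hw3, hwn, hh0, _, hlo, hhi, hY1, _, hYC, he, _, hM⟩ := hF n hn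
  have hw3' : (3 : ℝ) ≤ w := by exact_mod_cast hw3
  have ew : ((w - 2 : ℕ) : ℝ) = (w : ℝ) - 2 := by
    rw [Nat.cast_sub (by omega)]
    norm_num
  refine ⟨w - 2, h, Y, by omega, by omega, hh0, hY1, hYC, ?_, ?_, ?_, ?_⟩
  · rw [ew]
    nlinarith
  · rw [ew]
    nlinarith
  · intro y hy
    rw [ew] at hy
    have hx : |y - 2 * (n : ℤ)| < (w : ℤ) := by
      have h1 : |((y - 2 * (n : ℤ) : ℤ) : ℝ)| < ((w : ℤ) : ℝ) := by
        push_cast
        linarith
      exact_mod_cast h1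
    have h2 := he (y - 2 * (n : ℤ)) hx
    rwa [show 2 * (n : ℤ) + (y - 2 * (n : ℤ)) = y by ring] at h2
  · intro z
    rw [ew]
    constructor
    · exact hM n le_rfl (h / 2) z (by rw [abs_of_pos (by linarith)])
    · exact hM n le_rfl (-(h / 2)) z (by rw [abs_neg, abs_of_pos (by linarith)])

/-- The output of row 620. -/
theorem frOut {μ : Measure ℝ} [IsProbabilityMeasure μ] (hEM : Pool.Agent.W_7d29a1_h47.EM μ)
    (hnd : Pool.Agent.W_7d29a1_h47.Nondeg μ) : FrOut μ :=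
  frOut_of_log hEM hnd fun K => Pool.Agent.W_7d29a1_h18.EE_log hEM hnd K

end

end Pool.Agent.W_7d29a1_G
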