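import Pool.Agent.W_7d29a1_G.Width
import Pool.Agent.W_7d29a1_L.LsA1

/-!
MP_7d29a1_pr, track G, THE FRAME: FrW implies FLuck (exponential moments of the box luck with the natural width), FTilt, FL0. helper85
-/

namespace Pool.Agent.W_7d29a1_G

open MeasureTheory ProbabilityTheory Filter Topology Pool.Agent.W_7d29a1_F Pool.Agent.W_7d29a1_h4g Pool.Agent.W_7d29a1_L

noncomputable section

variable {μ : Measure ℝ}

/-- Two tilts `± s` dominate the tilts `|t| ≤ s`. -/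
theorem exp_T_le {t s : ℝ} (hts : |t| ≤ s) (η : Env) (a : Pt) (n : ℕ) :
    Real.exp (T μ 0 (1 / 2) t η a n) ≤ Real.exp (T μ 0 (1 / 2) s η a n) + Real.exp (T μ 0 (1 / 2) (-s) η a n) := by
  rw [exp_T, exp_T, exp_T, ← Finset.sum_add_distrib]
  refine Finset.sum_le_sum fun y _ => ?_
  rw [← mul_add]
  refine mul_le_mul_of_nonneg_left ?_ (W_nonneg _ _ _ _)
  obtain ⟨r, hr⟩ : ∃ r : ℝ, r = (y : ℝ) - 1 / 2 * n := ⟨_, rfl⟩
  rw [← hr]
  have h1 : t * r ≤ s * |r| := by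
    calc t * r ≤ |t * r| := le_abs_self _
      _ = |t| * |r| := abs_mul _ _
      _ ≤ s * |r| := mul_le_mul_of_nonneg_right hts (abs_nonneg _)
  rcases abs_cases r with ⟨h2, _⟩ | ⟨h2, _⟩
  · have h3 : Real.exp (t * r) ≤ Real.exp (s * r) := Real.exp_le_exp.2 (by rw [h2] at h1; exact h1)
    linarith [Real.exp_pos (-s * r)]
  · have h3 : Real.exp (t * r) ≤ Real.exp (-s * r) := Real.exp_le_exp.2 (by rw [h2] at h1; linarith)
    linarith [Real.exp_pos (s * r)]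

/-- The same for the box maxima. -/
theorem exp_Mh_le {t s w z : ℝ} (hts : |t| ≤ s) (n : ℕ) (η : Env) :
    Real.exp (Mh μ 0 (1 / 2) t w z n η) ≤
      Real.exp (Mh μ 0 (1 / 2) s w z n η) + Real.exp (Mh μ 0 (1 / 2) (-s) w z n η) := by
  obtain ⟨S, hS⟩ : ∃ S : ℝ, S = Real.exp (Mh μ 0 (1 / 2) s w z n η) + Real.exp (Mh μ 0 (1 / 2) (-s) w z n η) :=
    ⟨_, rfl⟩
  have h1 : 1 ≤ Real.exp (Mh μ 0 (1 / 2) s w z n η) := Real.one_le_exp (Mh_nonneg η)
  have hS1 : 1 ≤ S := by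
    rw [hS]
    linarith [Real.exp_pos (Mh μ 0 (1 / 2) (-s) w z n η)]
  have hS0 : 0 < S := by linarith
  rw [← hS]
  have h2 : Mh μ 0 (1 / 2) t w z n η ≤ Real.log S := by
    refine Mh_le η (Real.log_nonneg hS1) fun q hq => ?_
    rw [Real.le_log_iff_exp_le hS0]
    refine (exp_T_le hts η _ _).trans ?_
    rw [hS]
    exact add_le_add (Real.exp_le_exp.2 (le_Mh η hq)) (Real.exp_le_exp.2 (le_Mh η hq))
  calc Real.exp (Mh μ 0 (1 / 2) t w z n η) ≤ Real.exp (Real.log S) := Real.exp_le_exp.2 h2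
    _ = S := Real.exp_log hS0

theorem exp_mul_Mh_le {t s w z θ : ℝ} (hts : |t| ≤ s) (h0 : 0 ≤ θ) (h1 : θ ≤ 1) (n : ℕ) (η : Env) :
    Real.exp (θ * Mh μ 0 (1 / 2) t w z n η) ≤
      Real.exp (θ * Mh μ 0 (1 / 2) s w z n η) + Real.exp (θ * Mh μ 0 (1 / 2) (-s) w z n η) := by
  have h2 := Real.rpow_le_rpow (Real.exp_pos _).le (exp_Mh_le (μ := μ) (w := w) (z := z) hts n η) h0
  have h3 := Real.rpow_add_le_add_rpow (Real.exp_pos (Mh μ 0 (1 / 2) s w z n η)).le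
    (Real.exp_pos (Mh μ 0 (1 / 2) (-s) w z n η)).le h0 h1
  have h4 := h2.trans h3
  rw [← Real.exp_mul, ← Real.exp_mul, ← Real.exp_mul, mul_comm _ θ, mul_comm _ θ, mul_comm _ θ] at h4
  exact h4

/-- A wide box is covered by `k` cells, and a smaller duration is contained. -/
theorem exp_cover {t w w₂ z θ : ℝ} {m n k : ℕ} (hw : 0 < w) (hk : 1 ≤ k) (hwk : w₂ ≤ k * w) (hmn : m ≤ n) (hθ : 0 < θ)
    (η : Env) : Real.exp (θ * Mh μ 0 (1 / 2) t w₂ z m η) ≤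
      ∑ i ∈ Finset.range k, Real.exp (θ * Mh μ 0 (1 / 2) t w (z + i * w) n η) := by
  obtain ⟨S, hS⟩ : ∃ S : ℝ, S = ∑ i ∈ Finset.range k, Real.exp (θ * Mh μ 0 (1 / 2) t w (z + i * w) n η) := ⟨_, rfl⟩
  have hle : ∀ i : ℕ, i < k → Real.exp (θ * Mh μ 0 (1 / 2) t w (z + i * w) n η) ≤ S := by
    intro i hi
    rw [hS]
    exact Finset.single_le_sum (f := fun i : ℕ => Real.exp (θ * Mh μ 0 (1 / 2) t w (z + i * w) n η))
      (fun i _ => (Real.exp_pos _).le) (Finset.mem_range.2 hi)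
  have hS1 : 1 ≤ S := by
    refine le_trans ?_ (hle 0 (by omega))
    exact Real.one_le_exp (mul_nonneg hθ.le (Mh_nonneg η))
  have hS0 : 0 < S := by linarith
  rw [← hS]
  have h2 : Mh μ 0 (1 / 2) t w₂ z m η ≤ Real.log S / θ := by
    refine Mh_le η (div_nonneg (Real.log_nonneg hS1) hθ.le) fun q hq => ?_
    rw [mem_Bx (by norm_num) (by norm_num)] at hq
    obtain ⟨hq1, hq2, hq3⟩ := hq
    obtain ⟨u, hu⟩ : ∃ u : ℝ, u = ((q.1.2 : ℝ) - 1 / 2 * (q.1.1 : ℝ) - z) / w := ⟨_, rfl⟩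
    have hu0 : 0 < u := by rw [hu]; exact div_pos (by linarith) hw
    have huk : u ≤ k := by
      rw [hu, div_le_iff₀ hw]
      linarith
    have huw : u * w = (q.1.2 : ℝ) - 1 / 2 * (q.1.1 : ℝ) - z := by rw [hu]; field_simp
    obtain ⟨i, hi⟩ : ∃ i : ℕ, i = ⌈u⌉₊ - 1 := ⟨_, rfl⟩
    have hc1 : 1 ≤ ⌈u⌉₊ := Nat.one_le_ceil_iff.2 hu0
    have hc2 : ⌈u⌉₊ ≤ k := Nat.ceil_le.2 huk
    have hi1 : i + 1 = ⌈u⌉₊ := by omega
    have hi2 : (i : ℝ) < u := by
      have := Nat.ceil_lt_add_one hu0.le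
      rw [← hi1] at this
      push_cast at this
      linarith
    have hi3 : u ≤ (i : ℝ) + 1 := by
      have := Nat.le_ceil u
      rw [← hi1] at this
      push_cast at this
      exact this
    have hbx : q ∈ Bx (1 / 2) w (z + i * w) n := by
      rw [mem_Bx (by norm_num) (by norm_num)]
      have h5 := mul_lt_mul_of_pos_right hi2 hw
      have h6 := mul_le_mul_of_nonneg_right hi3 hw.le
      rw [huw] at h5 h6
      refine ⟨hq1.trans hmn, by linarith, by linarith⟩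
    have h7 := le_Mh (μ := μ) (s := 0) (h := t) η hbx
    rw [le_div_iff₀ hθ, mul_comm, Real.le_log_iff_exp_le hS0]
    exact (Real.exp_le_exp.2 (mul_le_mul_of_nonneg_left h7 hθ.le)).trans (hle i (by omega))
  calc Real.exp (θ * Mh μ 0 (1 / 2) t w₂ z m η) ≤ Real.exp (θ * (Real.log S / θ)) :=
        Real.exp_le_exp.2 (mul_le_mul_of_nonneg_left h2 hθ.le)
    _ = S := by
      rw [mul_div_cancel₀ _ hθ.ne', Real.exp_log hS0]

variable [IsProbabilityMeasure μ]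

theorem int_exp_Mh (hμ : Pool.Agent.W_7d29a1_h47.EM μ) (θ t w z : ℝ) (n : ℕ) :
    Integrable (fun η => Real.exp (θ * Mh μ 0 (1 / 2) t w z n η)) (law μ) := (Sub_Mh.const_mul θ).exp_int hμ

/-- FrW implies FLuck. -/
theorem fLuck_of_frW (hμ : Pool.Agent.W_7d29a1_h47.EM μ) (h : FrW μ) : FLuck μ := by
  obtain ⟨C, c, n₀, hc, hC, hn₀, h⟩ := h
  intro H
  obtain ⟨L, hL⟩ : ∃ L : ℕ, L = H + 1 := ⟨_, rfl⟩
  have hL1 : 1 ≤ L := by omega
  have hL0 : (1 : ℝ) ≤ L := by exact_mod_cast hL1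
  obtain ⟨k, hk⟩ : ∃ k : ℕ, C ≤ k := exists_nat_ge C
  have hk1 : 1 ≤ k := by
    have : (1 : ℝ) ≤ k := hC.trans hk
    exact_mod_cast this
  obtain ⟨c', hc'⟩ : ∃ c' : ℝ, c' = min (c / (2 * C * L)) (1 / (C * L)) := ⟨_, rfl⟩
  have hC0 : 0 < C := by linarith
  have hLp : (0 : ℝ) < L := by linarith
  have hc'0 : 0 < c' := by rw [hc']; exact lt_min (by positivity) (by positivity)
  have hc'1 : c' ≤ c / (2 * C * L) := by rw [hc']; exact min_le_left _ _
  have hc'2 : c' ≤ 1 / (C * L) := by rw [hc']; exact min_le_right _ _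
  have hCL : 1 ≤ C * L := by nlinarith
  have hc'3 : c' ≤ 1 := hc'2.trans (by rw [div_le_one (by linarith)]; exact hCL)
  refine ⟨c', k * (8 * Real.exp 1), n₀, hc'0, fun n hn t z ht => ?_⟩
  have hn1 : 1 ≤ n := hn₀.trans hn
  obtain ⟨N, hN⟩ : ∃ N : ℕ, N = L * n := ⟨_, rfl⟩
  have hnN : n ≤ N := by rw [hN]; exact Nat.le_mul_of_pos_left n (by omega)
  have hHN : H * n ≤ N := by rw [hN, hL]; exact Nat.mul_le_mul_right n (Nat.le_succ H)
  obtain ⟨w, s, hw1, hwN, hs, hw2, hw3, hs1, hs2, he, hM⟩ := h N (hn.trans hnN)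
  have hw0 : (1 : ℝ) ≤ w := by exact_mod_cast hw1
  have hE1 := one_le_EE (μ := μ) n
  have hEN1 := one_le_EE (μ := μ) N
  have hEN : EE μ N ≤ L * EE μ n := by rw [hN]; exact EE_mul hμ L n hL1
  have hEm : EE μ n ≤ EE μ N := EE_mono hnN
  have hwA0 := wA_pos hμ hn1
  have hwAN : wA μ N ≤ 2 * L * wA μ n := by rw [hN]; exact wA_mul_le hμ hL1 hn1
  have hwAm : wA μ n ≤ wA μ N := wA_mono hμ hnN
  -- the tilt
  have hts : |t| ≤ s := by
    have h1 : c * EE μ n ≤ s * (2 * C * L) * wA μ n := by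
      have h2 : s * w ≤ s * (C * (2 * L * wA μ n)) := by
        refine mul_le_mul_of_nonneg_left (hw3.trans ?_) hs.le
        exact mul_le_mul_of_nonneg_left hwAN hC0.le
      have h3 : c * EE μ n ≤ c * EE μ N := mul_le_mul_of_nonneg_left hEm hc.le
      calc c * EE μ n ≤ s * w := h3.trans hs1
        _ ≤ s * (C * (2 * L * wA μ n)) := h2
        _ = s * (2 * C * L) * wA μ n := by ring
    have h4 : |t| * wA μ n * (2 * C * L) ≤ s * wA μ n * (2 * C * L) := by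
      have h5 : c' * EE μ n * (2 * C * L) ≤ c * EE μ n := by
        have h6 := mul_le_mul_of_nonneg_right hc'1 (show 0 ≤ EE μ n * (2 * C * L) by positivity)
        have e1 : c / (2 * C * L) * (EE μ n * (2 * C * L)) = c * EE μ n := by field_simp
        rw [e1] at h6
        linarith
      have h7 := mul_le_mul_of_nonneg_right ht (show 0 ≤ 2 * C * L by positivity)
      calc |t| * wA μ n * (2 * C * L) ≤ c' * EE μ n * (2 * C * L) := h7
        _ ≤ c * EE μ n := h5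
        _ ≤ s * (2 * C * L) * wA μ n := h1
        _ = s * wA μ n * (2 * C * L) := by ring
    have h8 := le_of_mul_le_mul_right h4 (by positivity)
    exact le_of_mul_le_mul_right h8 hwA0
  obtain ⟨θ, hθ⟩ : ∃ θ : ℝ, θ = c' / EE μ n := ⟨_, rfl⟩
  have hE0 : 0 < EE μ n := by linarith
  have hθ0 : 0 < θ := by rw [hθ]; positivity
  have hθ1 : θ ≤ 1 := by
    rw [hθ, div_le_one hE0]
    linarith
  have hθ2 : θ ≤ 1 / (C * EE μ N) := by
    rw [hθ, div_le_div_iff₀ hE0 (by positivity), one_mul]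
    have h1 : c' * (C * EE μ N) ≤ c' * (C * (L * EE μ n)) :=
      mul_le_mul_of_nonneg_left (mul_le_mul_of_nonneg_left hEN hC0.le) hc'0.le
    have h2 := mul_le_mul_of_nonneg_right hc'2 (show 0 ≤ C * L * EE μ n by positivity)
    have e1 : 1 / (C * L) * (C * L * EE μ n) = EE μ n := by field_simp
    rw [e1] at h2
    linarith
  rw [← hθ]
  have hwk : wA μ n ≤ k * w := by
    have : C * w ≤ k * w := mul_le_mul_of_nonneg_right hk (by linarith)
    linarith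
  have hpt : ∀ η : Env, Real.exp (θ * Mh μ 0 (1 / 2) t (wA μ n) z (H * n) η) ≤ ∑ i ∈ Finset.range k,
      (Real.exp (θ * Mh μ 0 (1 / 2) s w (z + i * w) N η) + Real.exp (θ * Mh μ 0 (1 / 2) (-s) w (z + i * w) N η)) := by
    intro η
    refine (exp_cover (by linarith) hk1 hwk hHN hθ0 η).trans (Finset.sum_le_sum fun i _ => ?_)
    exact exp_mul_Mh_le hts hθ0.le hθ1 N η
  have hint : ∀ i ∈ Finset.range k, Integrable (fun η =>
      Real.exp (θ * Mh μ 0 (1 / 2) s w (z + i * w) N η) + Real.exp (θ * Mh μ 0 (1 / 2) (-s) w (z + i * w) N η))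
      (law μ) := fun i _ => (int_exp_Mh hμ _ _ _ _ _).add (int_exp_Mh hμ _ _ _ _ _)
  refine (integral_mono (int_exp_Mh hμ _ _ _ _ _) (integrable_finsetSum _ hint) hpt).trans ?_
  rw [integral_finsetSum _ hint]
  have hone : ∀ i ∈ Finset.range k, ∫ η, (Real.exp (θ * Mh μ 0 (1 / 2) s w (z + i * w) N η) +
      Real.exp (θ * Mh μ 0 (1 / 2) (-s) w (z + i * w) N η)) ∂(law μ) ≤ 8 * Real.exp 1 := by
    intro i _
    rw [integral_add (int_exp_Mh hμ _ _ _ _ _) (int_exp_Mh hμ _ _ _ _ _)]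
    have key : ∀ r : ℝ, ∫ η, Real.exp (Mh μ 0 (1 / 2) r w (z + i * w) N η / (C * EE μ N)) ∂(law μ) ≤ 4 * Real.exp 1 →
        ∫ η, Real.exp (θ * Mh μ 0 (1 / 2) r w (z + i * w) N η) ∂(law μ) ≤ 4 * Real.exp 1 := by
      intro r hr
      refine le_trans (integral_mono (int_exp_Mh hμ _ _ _ _ _) ?_ fun η => ?_) hr
      · refine (int_exp_Mh hμ (1 / (C * EE μ N)) r w (z + i * w) N).congr (Filter.Eventually.of_forall fun η => ?_)
        show Real.exp _ = Real.exp _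
        congr 1
        ring
      · refine Real.exp_le_exp.2 ?_
        have := mul_le_mul_of_nonneg_right hθ2 (Mh_nonneg (μ := μ) (s := 0) (v := 1 / 2) (h := r) (w := w)
          (z := z + i * w) (n := N) η)
        refine this.trans (le_of_eq ?_)
        ring
    have h1 := key s (hM (z + i * w)).1
    have h2 := key (-s) (hM (z + i * w)).2
    linarith
  refine (Finset.sum_le_sum hone).trans (le_of_eq ?_)
  rw [Finset.sum_const, Finset.card_range, nsmul_eq_mul]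

theorem T_tilt_zero (η : Env) (a : Pt) (n : ℕ) : T μ 0 (1 / 2) 0 η a n = V μ 0 η a n := by
  unfold T kap
  simp

theorem mem_Bx_zero {w : ℝ} (hw : 0 < w) {m n : ℕ} (h : m ≤ n) :
    (((0, (0 : ℤ)), m) : (ℕ × ℤ) × ℕ) ∈ Bx (1 / 2) w (-(w / 2)) n := by
  rw [mem_Bx (by norm_num) (by norm_num)]
  refine ⟨by simpa using h, ?_, ?_⟩
  · simp only [Int.cast_zero, Nat.cast_zero, mul_zero, sub_zero]
    linarith
  · simp only [Int.cast_zero, Nat.cast_zero, mul_zero, sub_zero]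
    linarith

/-- FLuck implies FL0. -/
theorem fL0_of_fLuck (hμ : Pool.Agent.W_7d29a1_h47.EM μ) (h : FLuck μ) : FL0 μ := by
  intro H
  obtain ⟨c, C, n₀, hc, h⟩ := h H
  refine ⟨c, C, max n₀ 1, hc, fun n hn k => ?_⟩
  have hn1 : 1 ≤ n := (le_max_right _ _).trans hn
  have hE := EE_pos' (μ := μ) n
  have hwA := wA_pos hμ hn1
  have h1 := h n ((le_max_left _ _).trans hn) 0 (-(wA μ n / 2)) (by rw [abs_zero, zero_mul]; positivity)
  have h2 := measure_ge_le_exp_mul_mgf (μ := law μ) (X := fun η => Mh μ 0 (1 / 2) 0 (wA μ n) (-(wA μ n / 2)) (H * n) η)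
    (k * EE μ n) (t := c / EE μ n) (by positivity) (int_exp_Mh hμ _ _ _ _ _)
  have h3 : (law μ).real {η | ∃ t : ℕ, t ≤ H * n ∧ k * EE μ n ≤ V μ 0 η 0 t} ≤
      (law μ).real {η | k * EE μ n ≤ Mh μ 0 (1 / 2) 0 (wA μ n) (-(wA μ n / 2)) (H * n) η} := by
    refine measureReal_mono ?_
    rintro η ⟨t, ht, hV⟩
    refine hV.trans ?_
    have h4 := le_Mh (μ := μ) (s := 0) (h := 0) η (mem_Bx_zero hwA ht)
    rw [T_tilt_zero] at h4
    exact h4
  refine h3.trans (h2.trans ?_)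
  have e1 : -(c / EE μ n) * (k * EE μ n) = -(c * k) := by field_simp
  rw [e1, mul_comm]
  exact mul_le_mul_of_nonneg_right h1 (Real.exp_pos _).le

/-- FLuck implies FTilt. -/
theorem fTilt_of_fLuck (hμ : Pool.Agent.W_7d29a1_h47.EM μ) (h : FLuck μ) : FTilt μ := by
  intro H
  obtain ⟨c, C, n₀, hc, h⟩ := h H
  obtain ⟨c', hc'⟩ : ∃ c' : ℝ, c' = min c 1 := ⟨_, rfl⟩
  have hc'0 : 0 < c' := by rw [hc']; exact lt_min hc one_pos
  have hc'1 : c' ≤ c := by rw [hc']; exact min_le_left _ _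
  have hc'2 : c' ≤ 1 := by rw [hc']; exact min_le_right _ _
  refine ⟨c', C + C, max n₀ 1, hc'0, fun n hn m hm => ?_⟩
  have hn1 : 1 ≤ n := (le_max_right _ _).trans hn
  have hE := EE_pos' (μ := μ) n
  have hE1 := one_le_EE (μ := μ) n
  have hwA := wA_pos hμ hn1
  obtain ⟨τ, hτ⟩ : ∃ τ : ℝ, τ = c' * EE μ n / wA μ n := ⟨_, rfl⟩
  have hτ0 : 0 ≤ τ := by rw [hτ]; positivity
  obtain ⟨θ, hθ⟩ : ∃ θ : ℝ, θ = c' / EE μ n := ⟨_, rfl⟩
  have hθ0 : 0 < θ := by rw [hθ]; positivity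
  have hθ1 : θ ≤ 1 := by
    rw [hθ, div_le_one hE]
    linarith
  have hτw : τ * wA μ n ≤ c * EE μ n := by
    rw [hτ, div_mul_cancel₀ _ hwA.ne']
    exact mul_le_mul_of_nonneg_right hc'1 hE.le
  have key : ∀ r : ℝ, |r| = τ →
      ∫ η, Real.exp (θ * Mh μ 0 (1 / 2) r (wA μ n) (-(wA μ n / 2)) (H * n) η) ∂(law μ) ≤ C := by
    intro r hr
    refine le_trans (integral_mono (int_exp_Mh hμ _ _ _ _ _) (int_exp_Mh hμ (c / EE μ n) _ _ _ _) fun η => ?_)
      (h n ((le_max_left _ _).trans hn) r (-(wA μ n / 2)) (by rw [hr]; exact hτw))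
    refine Real.exp_le_exp.2 (mul_le_mul_of_nonneg_right ?_ (Mh_nonneg η))
    rw [hθ]
    exact div_le_div_of_nonneg_right hc'1 hE.le
  have h1 := key τ (abs_of_nonneg hτ0)
  have h2 := key (-τ) (by rw [abs_neg, abs_of_nonneg hτ0])
  rw [← hτ, ← hθ]
  obtain ⟨M1, hM1⟩ : ∃ M1 : Env → ℝ, M1 = fun η => Mh μ 0 (1 / 2) τ (wA μ n) (-(wA μ n / 2)) (H * n) η := ⟨_, rfl⟩
  obtain ⟨M2, hM2⟩ : ∃ M2 : Env → ℝ, M2 = fun η => Mh μ 0 (1 / 2) (-τ) (wA μ n) (-(wA μ n / 2)) (H * n) η := ⟨_, rfl⟩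
  have i1 : Integrable (fun η => Real.exp (θ * M1 η)) (law μ) := by rw [hM1]; exact int_exp_Mh hμ _ _ _ _ _
  have i2 : Integrable (fun η => Real.exp (θ * M2 η)) (law μ) := by rw [hM2]; exact int_exp_Mh hμ _ _ _ _ _
  have hpt : ∀ η : Env, Real.exp (θ * Real.log (∑ y ∈ Finset.Icc (0 : ℤ) m,
      W μ 0 η 0 m y * Real.exp (τ * |(y : ℝ) - m / 2|))) ≤ Real.exp (θ * M1 η) + Real.exp (θ * M2 η) := by
    intro η
    obtain ⟨S, hS⟩ : ∃ S : ℝ, S = ∑ y ∈ Finset.Icc (0 : ℤ) m,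
      W μ 0 η 0 m y * Real.exp (τ * |(y : ℝ) - m / 2|) := ⟨_, rfl⟩
    have hS0 : 0 < S := by
      rw [hS]
      refine Finset.sum_pos (fun y hy => ?_) ⟨0, by simp⟩
      rw [Finset.mem_Icc] at hy
      exact mul_pos (W_pos _ _ hy.1 hy.2) (Real.exp_pos _)
    have hSle : S ≤ Real.exp (M1 η) + Real.exp (M2 η) := by
      have h3 := le_Mh (μ := μ) (s := 0) (h := τ) η (mem_Bx_zero hwA hm)
      have h4 := le_Mh (μ := μ) (s := 0) (h := -τ) η (mem_Bx_zero hwA hm)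
      have h5 := add_le_add (Real.exp_le_exp.2 h3) (Real.exp_le_exp.2 h4)
      rw [exp_T, exp_T, ← Finset.sum_add_distrib] at h5
      rw [hM1, hM2]
      refine le_trans ?_ h5
      rw [hS]
      refine Finset.sum_le_sum fun y _ => ?_
      rw [← mul_add]
      refine mul_le_mul_of_nonneg_left ?_ (W_nonneg _ _ _ _)
      have e1 : (y : ℝ) - (m : ℝ) / 2 = (y : ℝ) - 1 / 2 * m := by ring
      simp only at e1 ⊢
      rw [e1]
      rcases abs_cases ((y : ℝ) - 1 / 2 * m) with ⟨h6, _⟩ | ⟨h6, _⟩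
      · rw [h6]
        linarith [Real.exp_pos (-τ * ((y : ℝ) - 1 / 2 * m))]
      · rw [h6, show τ * -((y : ℝ) - 1 / 2 * m) = -τ * ((y : ℝ) - 1 / 2 * m) by ring]
        linarith [Real.exp_pos (τ * ((y : ℝ) - 1 / 2 * m))]
    rw [← hS, mul_comm, Real.exp_mul, Real.exp_log hS0]
    refine (Real.rpow_le_rpow hS0.le hSle hθ0.le).trans ?_
    refine (Real.rpow_add_le_add_rpow (Real.exp_pos _).le (Real.exp_pos _).le hθ0.le hθ1).trans (le_of_eq ?_)
    rw [← Real.exp_mul, ← Real.exp_mul, mul_comm _ θ, mul_comm _ θ]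
  by_cases hint : Integrable (fun η => Real.exp (θ * Real.log (∑ y ∈ Finset.Icc (0 : ℤ) m,
      W μ 0 η 0 m y * Real.exp (τ * |(y : ℝ) - m / 2|)))) (law μ)
  · refine (integral_mono hint (i1.add i2) hpt).trans ?_
    have h3 : ∫ η, (Real.exp (θ * M1 η) + Real.exp (θ * M2 η)) ∂(law μ) ≤ C + C := by
      rw [integral_add i1 i2, hM1, hM2]
      exact add_le_add h1 h2
    exact h3
  · rw [integral_undef hint]
    have h3 : 0 ≤ ∫ η, Real.exp (θ * Mh μ 0 (1 / 2) τ (wA μ n) (-(wA μ n / 2)) (H * n) η) ∂(law μ) :=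
      integral_nonneg fun η => (Real.exp_pos _).le
    linarith

end

end Pool.Agent.W_7d29a1_G
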