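import Pool.Agent.W_7d29a1_G.Frame3
import Pool.Agent.W_7d29a1_G.FrDefs
import Pool.Agent.W_7d29a1_h18.HEU

/-!
MP_7d29a1_pr, track G, Frame3: `FIn` from the one cone `FrW`.
-/

namespace Pool.Agent.W_7d29a1_G

open MeasureTheory ProbabilityTheory Filter Topology Pool.Agent.W_7d29a1_F Pool.Agent.W_7d29a1_h4g

variable {μ : Measure ℝ} [IsProbabilityMeasure μ]

/-- The inner cone. -/
theorem fIn_of (hμ : Pool.Agent.W_7d29a1_h47.EM μ) (hnd : Pool.Agent.W_7d29a1_h47.Nondeg μ)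
    (h : FrW μ) : FIn μ := by
  obtain ⟨C, c, n₀, hc, hC, hn₀, hW⟩ := h
  obtain ⟨c₀, hc₀, hI⟩ := FIn_raw hμ hnd (Pool.Agent.W_7d29a1_h18.EE_tendsto hμ hnd) (A := C) (C := C)
    (n0 := n₀) (by linarith) (by linarith) (fun n hn => by
      obtain ⟨w, s, _, _, _, hw, _, _, _, hy, _⟩ := hW n hn
      exact ⟨w, hw, fun y _ _ h2 => hy y h2⟩)
  refine ⟨c₀, hc₀, fun H => ?_⟩
  obtain ⟨C', n₁, _, h1⟩ := hI H
  exact ⟨C', n₁, fun n hn m y hm h2 h3 h4 => h1 n hn m hm y h2 h3 h4⟩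

end Pool.Agent.W_7d29a1_G
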