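import Pool.Agent.W_7d29a1_G.FrDefs
import Pool.Agent.W_7d29a1_G.Edge1
import Pool.Agent.W_7d29a1_LE.LE
import Pool.Agent.W_7d29a1_L.LsA1

/-!
MP_7d29a1_pr, track G, the frame: exponential lower tails relative to the mean for all sums of path weights (row 621 (3.1) on the
unit (D1)).
-/

namespace Pool.Agent.W_7d29a1_G

open MeasureTheory ProbabilityTheory Filter Topology Pool.Agent.W_7d29a1_F Pool.Agent.W_7d29a1_h4g
open Pool.Agent.W_7d29a1_L (Mh T Bx kap)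

/-- `FTail` without the sign condition. -/
def FTailS (μ : Measure ℝ) : Prop :=
  ∀ H : ℕ, ∃ (c C : ℝ) (n₀ : ℕ), 0 < c ∧ ∀ n : ℕ, n₀ ≤ n → ∀ (S : Set Pt) (G : Env → ℝ),
    Poly S G → (∀ η, 0 < G η) → (∃ t z : ℝ, |t| * wA μ n ≤ c * EE μ n ∧
      ∀ η, Real.log (G η) ≤ EE μ n + Mh μ 0 (1 / 2) t (wA μ n) z (H * n) η) →
    ∫ η, Real.exp (c / EE μ n * Real.log (G η)) ∂(law μ) ≤
      C * Real.exp (-(c / EE μ n * (-∫ η, Real.log (G η) ∂(law μ)) / 2))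

variable {μ : Measure ℝ} [IsProbabilityMeasure μ]

/-- `LE_tail_le` without the sign condition. -/
theorem LE_any (hμ : Pool.Agent.W_7d29a1_h47.EM μ) (hnd : Pool.Agent.W_7d29a1_h47.Nondeg μ) :
    ∃ κ : ℝ, 0 < κ ∧ κ ≤ 1 ∧ ∀ (S : Set Pt) (G : Env → ℝ), Poly S G → (∀ η, 0 < G η) → ∀ t1 c1 : ℝ, 0 < t1 →
      t1 ≤ 1 → 0 ≤ c1 → ∫ η, Real.exp (t1 * Real.log (G η)) ∂(law μ) ≤ Real.exp c1 → ∀ t : ℝ, 0 < t → t ≤ κ * t1 →
      ∫ η, Real.exp (t * Real.log (G η)) ∂(law μ) ≤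
        Real.exp c1 * Real.exp (-(t * (-∫ η, Real.log (G η) ∂(law μ)) / 2)) := by
  obtain ⟨κ, hκ0, hκ1, h⟩ := Pool.Agent.W_7d29a1_LE.LE_tail_le hμ hnd
  refine ⟨κ, hκ0, hκ1, fun S G hP hG t1 c1 ht0 ht1 hc1 hmom t ht htt => ?_⟩
  rcases le_total 0 (-∫ η, Real.log (G η) ∂(law μ)) with he | he
  · exact h S G hP hG t1 c1 ht0 ht1 hc1 hmom he t ht htt
  · have htt1 : t ≤ t1 := htt.trans (by nlinarith)
    refine (Pool.Agent.W_7d29a1_LE.moment_mono hμ hP hG ht htt1 hmom).trans ?_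
    rw [← Real.exp_add]
    refine Real.exp_le_exp.2 ?_
    have h1 : t / t1 * c1 ≤ 1 * c1 := mul_le_mul_of_nonneg_right (by rwa [div_le_one ht0]) hc1
    have h2 : 0 ≤ -(t * (-∫ η, Real.log (G η) ∂(law μ)) / 2) := by nlinarith
    linarith

/-- The exponential moments of a sum of path weights below the luck of a box. -/
theorem exp_log_le_Mh (hμ : Pool.Agent.W_7d29a1_h47.EM μ) {S : Set Pt} {G : Env → ℝ} (hP : Poly S G)
    (hG : ∀ η, 0 < G η) {a t w z θ : ℝ} {N : ℕ} (hθ : 0 ≤ θ)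
    (h : ∀ η, Real.log (G η) ≤ a + Mh μ 0 (1 / 2) t w z N η) :
    ∫ η, Real.exp (θ * Real.log (G η)) ∂(law μ) ≤
      Real.exp (θ * a) * ∫ η, Real.exp (θ * Mh μ 0 (1 / 2) t w z N η) ∂(law μ) := by
  rw [← integral_const_mul]
  refine integral_mono (Pool.Agent.W_7d29a1_LE.poly_exp_int hμ hP hG hθ)
    (((Pool.Agent.W_7d29a1_L.Sub_Mh.const_mul θ).exp_int hμ).const_mul _) fun η => ?_
  show Real.exp (θ * Real.log (G η)) ≤ Real.exp (θ * a) * Real.exp (θ * Mh μ 0 (1 / 2) t w z N η)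
  rw [← Real.exp_add, ← mul_add]
  exact Real.exp_le_exp.2 (mul_le_mul_of_nonneg_left (h η) hθ)

/-- **(TAIL)** below the luck of a box. -/
theorem fTailS_of (hμ : Pool.Agent.W_7d29a1_h47.EM μ) (hnd : Pool.Agent.W_7d29a1_h47.Nondeg μ) (hL : FLuck μ) :
    FTailS μ := by
  obtain ⟨κ, hκ0, hκ1, hLE⟩ := LE_any hμ hnd
  intro H
  obtain ⟨c, C, n₀, hc, h⟩ := hL H
  obtain ⟨c₁, hc₁⟩ : ∃ c₁ : ℝ, c₁ = min c 1 := ⟨_, rfl⟩
  have hc₁0 : 0 < c₁ := by rw [hc₁]; positivity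
  have hc₁c : c₁ ≤ c := hc₁ ▸ min_le_left _ _
  have hc₁1 : c₁ ≤ 1 := hc₁ ▸ min_le_right _ _
  refine ⟨κ * c₁, Real.exp (1 + Real.log (max 1 C)), n₀, by positivity, fun n hn S G hP hG hbd => ?_⟩
  obtain ⟨t, z, htz, hbd⟩ := hbd
  have hE := one_le_EE (μ := μ) n
  have hE0 : 0 < EE μ n := by linarith
  have hmC : (1 : ℝ) ≤ max 1 C := le_max_left _ _
  have ht : |t| * wA μ n ≤ c * EE μ n := htz.trans (mul_le_mul_of_nonneg_right (by nlinarith) hE0.le)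
  have h1 := h n hn t z ht
  -- the exponent `c₁ / EE`
  have hM0 : ∀ η : Env, 0 ≤ Mh μ 0 (1 / 2) t (wA μ n) z (H * n) η := fun η =>
    Pool.Agent.W_7d29a1_L.Mh_nonneg η
  have h2 : ∫ η, Real.exp (c₁ / EE μ n * Mh μ 0 (1 / 2) t (wA μ n) z (H * n) η) ∂(law μ) ≤ max 1 C := by
    refine le_trans ?_ (h1.trans (le_max_right _ _))
    refine integral_mono ((Pool.Agent.W_7d29a1_L.Sub_Mh.const_mul _).exp_int hμ)
      ((Pool.Agent.W_7d29a1_L.Sub_Mh.const_mul _).exp_int hμ) fun η => ?_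
    exact Real.exp_le_exp.2 (mul_le_mul_of_nonneg_right (div_le_div_of_nonneg_right hc₁c hE0.le) (hM0 η))
  have h3 := exp_log_le_Mh hμ hP hG (θ := c₁ / EE μ n) (by positivity) hbd
  have h4 : ∫ η, Real.exp (c₁ / EE μ n * Real.log (G η)) ∂(law μ) ≤
      Real.exp (1 + Real.log (max 1 C)) := by
    refine h3.trans ?_
    rw [Real.exp_add, Real.exp_log (by linarith)]
    refine mul_le_mul (Real.exp_le_exp.2 ?_) h2 (integral_nonneg fun η => (Real.exp_pos _).le) (Real.exp_pos _).le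
    rw [div_mul_cancel₀ _ hE0.ne']
    exact hc₁1
  have h5 := hLE S G hP hG (c₁ / EE μ n) (1 + Real.log (max 1 C)) (by positivity)
    (by rw [div_le_one hE0]; linarith) (by have := Real.log_nonneg hmC; linarith) h4
    (κ * c₁ / EE μ n) (by positivity) (le_of_eq (by ring))
  exact h5

omit [IsProbabilityMeasure μ] in
theorem FTailS.fTail (h : FTailS μ) : FTail μ := by
  intro H
  obtain ⟨c, C, n₀, hc, h⟩ := h H
  exact ⟨c, C, n₀, hc, fun n hn S G hP hG hb _ => h n hn S G hP hG hb⟩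

omit [IsProbabilityMeasure μ] in
theorem F4_T_zero (η : Env) (a : Pt) (n : ℕ) : T μ 0 (1 / 2) 0 η a n = V μ 0 η a n := by
  unfold T kap
  rw [add_zero, sub_self, zero_mul, sub_zero, mul_zero, add_zero]

/-- **(TAIL)** for the polymers which start at the origin. -/
theorem FTailS.fTail0 (hμ : Pool.Agent.W_7d29a1_h47.EM μ) (hT : FTailS μ) : FTail0 μ := by
  intro H
  obtain ⟨c, C, n₀, hc, h⟩ := hT H
  refine ⟨c, C, max n₀ 1, hc, fun n hn t G ht hP hG hV => ?_⟩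
  have hn1 : 1 ≤ n := (le_max_right _ _).trans hn
  have hE := one_le_EE (μ := μ) n
  have hw : 0 < wA μ n := by
    unfold wA
    have := vA_pos hμ one_pos n
    have hn0 : (0 : ℝ) < n := by exact_mod_cast hn1
    positivity
  refine h n ((le_max_left _ _).trans hn) _ G hP hG ⟨0, -(wA μ n) / 2, ?_, fun η => ?_⟩
  · rw [abs_zero, zero_mul]
    positivity
  · refine (hV η).trans ?_
    have hq : (((0, 0), t) : (ℕ × ℤ) × ℕ) ∈ Bx (1 / 2) (wA μ n) (-(wA μ n) / 2) (H * n) := by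
      rw [Pool.Agent.W_7d29a1_L.mem_Bx (by norm_num) (by norm_num)]
      refine ⟨by simpa using ht, ?_, ?_⟩
      · simp only [Nat.cast_zero, Int.cast_zero, mul_zero, sub_zero]
        linarith
      · simp only [Nat.cast_zero, Int.cast_zero, mul_zero, sub_zero]
        linarith
    have h1 := Pool.Agent.W_7d29a1_L.le_Mh (μ := μ) (s := 0) (h := 0) η hq
    rw [F4_T_zero] at h1
    have h2 : V μ 0 η (((0 : ℕ) : ℤ), (0 : ℤ)) t = V μ 0 η 0 t := rfl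
    have h3 : V μ 0 η (((0 : ℕ) : ℤ), (0 : ℤ)) t ≤
        Mh μ 0 (1 / 2) 0 (wA μ n) (-(wA μ n) / 2) (H * n) η := h1
    rw [h2] at h3
    linarith

omit [IsProbabilityMeasure μ] in
theorem F4_log_W_le_V (η : Env) {n : ℕ} {y : ℤ} (h0 : 0 ≤ y) (h1 : y ≤ n) : Real.log (W μ 0 η 0 n y) ≤ V μ 0 η 0 n := by
  refine Real.log_le_log (W_pos η 0 h0 h1) ?_
  unfold WS
  exact Finset.single_le_sum (f := fun y => W μ 0 η 0 n y) (fun y _ => W_nonneg _ _ _ _)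
    (Finset.mem_Icc.2 ⟨h0, h1⟩)

omit [IsProbabilityMeasure μ] in
/-- **(TAIL)** for the point to point weights: the input of `Edge1.lean`. -/
theorem ptTail_of (hT : FTail0 μ) : ∃ (C c : ℝ) (n₀ : ℕ), 0 < c ∧ PtTail μ C c n₀ := by
  obtain ⟨c, C, n₀, hc, h⟩ := hT 2
  refine ⟨C, c, n₀, hc, fun n hn N hN z h0 h1 => ?_⟩
  have h2 := h n hn N (fun η => W μ 0 η 0 N z) hN ((poly_W 0 N z).mono fun p hp => ⟨by simpa using hp.1,
    by simpa using hp.2.1⟩) (fun η => W_pos η 0 h0 h1) fun η => F4_log_W_le_V η h0 h1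
  have h3 : -∫ η, Real.log (W μ 0 η 0 N z) ∂(law μ) = e μ 0 N z := by
    unfold e X
    rw [integral_neg]
  have h4 : ∀ η : Env, Real.exp (c / EE μ n * Real.log (W μ 0 η 0 N z)) = W μ 0 η 0 N z ^ (c / EE μ n) := by
    intro η
    rw [Real.rpow_def_of_pos (W_pos η 0 h0 h1), mul_comm]
  rw [h3] at h2
  simp only [h4] at h2
  exact h2

/-- **(in)** for the means: the input of `Edge1.lean`. -/
theorem meanIn_of (hμ : Pool.Agent.W_7d29a1_h47.EM μ) (hI : FIn μ) :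
    ∃ (C c₀ : ℝ) (n₀ : ℕ), 0 < c₀ ∧ MeanIn μ C c₀ n₀ := by
  obtain ⟨c₀, hc₀, h⟩ := hI
  obtain ⟨C, n₀, h⟩ := h 1
  exact ⟨C, c₀, n₀, hc₀, fun n hn m hm y h0 h1 hy =>
    (e_le_ep hμ h0 h1).trans (h n hn m y (by omega) h0 h1 hy)⟩

/-- **(TAIL)** from LE (row 621) and the luck of the frame. -/
theorem fTail_of (hμ : Pool.Agent.W_7d29a1_h47.EM μ) (hnd : Pool.Agent.W_7d29a1_h47.Nondeg μ) (hL : FLuck μ) :
    FTail μ := (fTailS_of hμ hnd hL).fTail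

theorem fTail0_of (hμ : Pool.Agent.W_7d29a1_h47.EM μ) (hnd : Pool.Agent.W_7d29a1_h47.Nondeg μ) (hL : FLuck μ) :
    FTail0 μ := FTailS.fTail0 hμ (fTailS_of hμ hnd hL)

/-- **(IN) and (WALL) at every scale** from the frame. -/
theorem edges_of (hμ : Pool.Agent.W_7d29a1_h47.EM μ) (hnd : Pool.Agent.W_7d29a1_h47.Nondeg μ)
    (hEE : Tendsto (EE μ) atTop atTop) (hI : FIn μ) (hL : FLuck μ) {A B : ℝ} (hA : 0 < A) (hAB : A < B) :
    EdgeIn μ A B ∧ EdgeWall μ A B := by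
  obtain ⟨C, c₀, n₀, hc₀, hin⟩ := meanIn_of hμ hI
  obtain ⟨C', c, n₁, hc, htail⟩ := ptTail_of (fTail0_of hμ hnd hL)
  exact ⟨edgeIn_of hμ hnd hA hAB hEE hc₀ hin hc htail, edgeWall_of hμ hnd hA hAB hEE hc₀ hin hc htail⟩

end Pool.Agent.W_7d29a1_G
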