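import Pool.Agent.W_7d29a1_G.Cone2
import Pool.Agent.W_7d29a1_G.Frame2
import Pool.Agent.W_7d29a1_G.Frame3b
import Pool.Agent.W_7d29a1_G.Frame4
import Pool.Agent.W_7d29a1_G.FrOut

/-!
MP_7d29a1_pr, track G: THE FRAME, assembled. Everything from `FrOut` (row 620, file Fr7 / Fr9 of helper30 and helper80). helper85
-/

namespace Pool.Agent.W_7d29a1_G

open MeasureTheory ProbabilityTheory

/-- All statements of the frame. -/
structure Frame (μ : Measure ℝ) : Prop where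
  w : FrW μ
  in' : FIn μ
  luck : FLuck μ
  tilt : FTilt μ
  l0 : FL0 μ
  tail : FTail μ
  tail0 : FTail0 μ

theorem frame_of {μ : Measure ℝ} [IsProbabilityMeasure μ] (hμ : Pool.Agent.W_7d29a1_h47.EM μ)
    (hnd : Pool.Agent.W_7d29a1_h47.Nondeg μ) (h : FrOut μ) : Frame μ := by
  have hW := frW_of_frOut hμ hnd h
  have hL := fLuck_of_frW hμ hW
  exact ⟨hW, fIn_of hμ hnd hW, hL, fTilt_of_fLuck hμ hL, fL0_of_fLuck hμ hL, fTail_of hμ hnd hL, fTail0_of hμ hnd hL⟩

/-- THE FRAME, unconditional. -/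
theorem frame {μ : Measure ℝ} [IsProbabilityMeasure μ] (hμ : Pool.Agent.W_7d29a1_h47.EM μ)
    (hnd : Pool.Agent.W_7d29a1_h47.Nondeg μ) : Frame μ := frame_of hμ hnd (frOut hμ hnd)

end Pool.Agent.W_7d29a1_G
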