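import Pool.Agent.W_7d29a1_G.InnerFin52

/-!
MP_7d29a1_pr, track G, D4 (row 619), section 4, (4.1): the inner edge on a stretch without soft scale, in the form `InnerE`.
-/

namespace Pool.Agent.W_7d29a1_G

open MeasureTheory ProbabilityTheory Filter Topology Pool.Agent.W_7d29a1_F Pool.Agent.W_7d29a1_h4g
open Pool.Agent.W_7d29a1_g (Em Em_mono Em_nonneg)

variable {μ : Measure ℝ} [IsProbabilityMeasure μ]

theorem i52_EE_large {Cl : ℝ} {n2 : ℕ} (hlog : ∀ n : ℕ, n2 ≤ n → Real.log n ≤ Cl * EE μ n) (B : ℝ) :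
    ∃ x0 : ℕ, ∀ x : ℕ, x0 ≤ x → B ≤ EE μ (2 ^ x) := by
  obtain ⟨k, hk⟩ := exists_nat_ge (B * (|Cl| + 1) / Real.log 2)
  refine ⟨max n2 k, fun x hx => ?_⟩
  have h1 := hlog (2 ^ x) (((le_max_left _ _).trans hx).trans (Nat.lt_two_pow_self).le)
  have hl2 : 0 < Real.log 2 := Real.log_pos (by norm_num)
  push_cast at h1
  rw [Real.log_pow] at h1
  have h2 : (k : ℝ) ≤ x := by exact_mod_cast (le_max_right _ _).trans hx
  have h3 : B * (|Cl| + 1) ≤ x * Real.log 2 := by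
    rw [div_le_iff₀ hl2] at hk
    nlinarith
  have h4 : Cl * EE μ (2 ^ x) ≤ (|Cl| + 1) * EE μ (2 ^ x) :=
    mul_le_mul_of_nonneg_right (by linarith [le_abs_self Cl]) (by linarith [one_le_EE (μ := μ) (2 ^ x)])
  have h5 : 0 < |Cl| + 1 := by positivity
  have h6 : (|Cl| + 1) * B ≤ (|Cl| + 1) * EE μ (2 ^ x) := by linarith
  exact le_of_mul_le_mul_left h6 h5

/-- THE INNER EDGE. -/
theorem innerE52 (hEM : Pool.Agent.W_7d29a1_h47.EM μ) (hnd : Pool.Agent.W_7d29a1_h47.Nondeg μ) {A0 A1 : ℝ}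
    (hA0 : 0 < A0) (hA : A0 < A1) (hI : FIn μ) (hIN : EdgeIn μ A0 A1)
    (hlog : ∃ (Cl : ℝ) (n2 : ℕ), ∀ n : ℕ, n2 ≤ n → Real.log n ≤ Cl * EE μ n) : InnerE μ A0 := by
  obtain ⟨Ci, c1, n1, hCi, hc1, hin⟩ := hIN
  obtain ⟨Cl, n2, hlog⟩ := hlog
  have hA1 : 0 < A1 := hA0.trans hA
  obtain ⟨kj, hkj⟩ := o52_exists_k hA0 hA1
  have hJ : 0 ≤ J μ (1 / 2) := J_nonneg hEM (by rw [abs_of_pos (by norm_num)])
  obtain ⟨cJ, hcJ⟩ : ∃ cJ : ℝ, cJ = (A1 - A0) / (4 * J μ (1 / 2) + 1) := ⟨_, rfl⟩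
  have hcJ0 : 0 < cJ := by
    rw [hcJ]
    exact div_pos (by linarith) (by linarith)
  have h4J : 0 < 4 / cJ := by positivity
  refine ⟨Ci + 5 + 4 / cJ, 8 * (c1 + 1), kj, by linarith, by linarith, fun ε m hε hε1 hm => ?_⟩
  have h2m : (16 : ℝ) ≤ 2 ^ m := by
    have h1 : ε * 2 ^ m ≤ 1 * 2 ^ m := mul_le_mul_of_nonneg_right hε1 (by positivity)
    linarith
  have hm1 : 1 ≤ m := by
    rcases Nat.eq_zero_or_pos m with h | h
    · exfalso
      rw [h, pow_zero] at h2m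
      linarith
    · exact h
  obtain ⟨M, hM⟩ : ∃ M : ℕ, M = 2 ^ m - 1 := ⟨_, rfl⟩
  have hM2 : M + 1 = 2 ^ m := by
    have : 1 ≤ 2 ^ m := Nat.one_le_two_pow
    omega
  have hMr : (M : ℝ) + 1 = 2 ^ m := by exact_mod_cast hM2
  have hM1 : 1 ≤ M := by
    have : (1 : ℝ) ≤ M := by linarith
    exact_mod_cast this
  obtain ⟨κ, hκ⟩ : ∃ κ : ℝ, κ = ε / 16 := ⟨_, rfl⟩
  have hκ0 : 0 < κ := by rw [hκ]; positivity
  have hκ1 : κ ≤ 1 := by rw [hκ]; linarith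
  obtain ⟨θ, n3, hθ, hθ1, href⟩ := i52_ref hEM hnd hI hA0 hκ0
  obtain ⟨R, JM, α₀, hR, hJM, hcore⟩ := i52_core hEM hnd hA0 hA hM1 hCi hc1 hκ0 hκ1 hθ hθ1
  -- thresholds
  obtain ⟨Z, hZ⟩ : ∃ Z : ℝ, Z = 8 + 8 * (5 + 2 * R * (M + 1)) + 8 * (2 + Ci + R) * (M + 1) + (n3 + 4) / cJ := ⟨_, rfl⟩
  have hZ0 : 0 < Z := by rw [hZ]; positivity
  obtain ⟨x1, hx1⟩ := i52_EE_large hlog (max (Real.log (2 * JM) / κ) (max (Real.log 2 / κ) (max (2 / (θ * cJ)) (4 / cJ))))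
  obtain ⟨x2, hx2⟩ := eventually_atTop.1 (((vA_tendsto hEM hnd hA0.le).comp
    (tendsto_pow_atTop_atTop_of_one_lt (one_lt_two : (1 : ℕ) < 2))).eventually (eventually_le_nhds (show (0 : ℝ) < 1 / Z by positivity)))
  refine ⟨α₀, max x1 (max x2 (max n1 5)), fun a b ha hnS hslow y hy hb L hL1 hL2 d hd => ?_⟩
  have ha1 : x1 ≤ a := (le_max_left _ _).trans ha
  have ha2 : x2 ≤ a := ((le_max_left _ _).trans (le_max_right _ _)).trans ha
  have ha3 : n1 ≤ a := ((le_max_left _ _).trans ((le_max_right _ _).trans (le_max_right _ _))).trans ha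
  have ha4 : 5 ≤ a := ((le_max_right _ _).trans ((le_max_right _ _).trans (le_max_right _ _))).trans ha
  obtain ⟨V1, hV1⟩ : ∃ V1 : ℝ, V1 = vA μ A0 (2 ^ (y + m + 3)) := ⟨_, rfl⟩
  obtain ⟨V0, hV0⟩ : ∃ V0 : ℝ, V0 = vA μ A0 (2 ^ (y - 1 - kj)) := ⟨_, rfl⟩
  rw [← hV1, ← hV0] at hd
  obtain ⟨δ, hδ⟩ : ∃ δ : ℝ, δ = V0 - V1 := ⟨_, rfl⟩
  rw [← hδ] at hd
  have hsl : ∀ n : ℕ, 2 ^ (y - 1) ≤ n → n ≤ 2 ^ (y + m) → V1 ≤ vA μ A0 n ∧ vA μ A1 n ≤ V0 := by
    intro n h1 h2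
    rw [hV1, hV0]
    exact o52_slopes hEM hA0 hA1 (hkj kj le_rfl) hslow (by omega) hm1 (by omega) h1 h2
  have hV10 : 0 < V1 := by rw [hV1]; exact vA_pos hEM hA0 _
  have hV01 : V1 ≤ V0 := by rw [hV1, hV0]; exact o52_vA_anti hEM hA0.le (by omega)
  have hV0Z : V0 ≤ 1 / Z := by rw [hV0]; exact hx2 _ (by omega)
  have hV00 : 0 < V0 := by linarith
  have hV0Z' : V0 * Z ≤ 1 := by rwa [le_div_iff₀ hZ0] at hV0Z
  have hδ0 : 0 ≤ δ := by rw [hδ]; linarith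
  have hx1y : ∀ x : ℕ, a ≤ x → Real.log (2 * JM) ≤ κ * EE μ (2 ^ x) ∧ Real.log 2 ≤ κ * EE μ (2 ^ x) ∧
      2 ≤ θ * (cJ * EE μ (2 ^ x)) ∧ 4 ≤ cJ * EE μ (2 ^ x) := by
    intro x hx
    have h1 := hx1 x (ha1.trans hx)
    have g1 := (le_max_left _ _).trans h1
    have g2 := ((le_max_left _ _).trans (le_max_right _ _)).trans h1
    have g3 := ((le_max_left _ _).trans ((le_max_right _ _).trans (le_max_right _ _))).trans h1
    have g4 := ((le_max_right _ _).trans ((le_max_right _ _).trans (le_max_right _ _))).trans h1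
    rw [div_le_iff₀ hκ0] at g1 g2
    rw [div_le_iff₀ (by positivity)] at g3 g4
    exact ⟨by linarith, by linarith, by linarith, by linarith⟩
  have h32 : 32 ≤ 2 ^ a := by
    have : 2 ^ 5 ≤ 2 ^ a := Nat.pow_le_pow_right (by norm_num) ha4
    omega
  have hL32 : 32 ≤ L := by
    have : 2 ^ a ≤ 2 ^ (y - 1) := Nat.pow_le_pow_right (by norm_num) (by omega)
    omega
  have hL32r : (32 : ℝ) ≤ L := by exact_mod_cast hL32
  have hL0 : (0 : ℝ) < L := by linarith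
  have hLym : L ≤ 2 ^ (y + m) := hL2.trans (Nat.pow_le_pow_right (by norm_num) (by omega))
  obtain ⟨hsL1, hsL2⟩ := hsl L hL1 hLym
  have hZbig : V0 * 8 ≤ 1 := by
    have h1 : 0 ≤ V0 * (8 * (5 + 2 * R * (M + 1)) + 8 * (2 + Ci + R) * (M + 1) + (n3 + 4) / cJ) := by positivity
    rw [hZ] at hV0Z'
    linarith
  -- the width of the edge
  have hwid : cJ * EE μ (2 ^ (y - 1)) ≤ δ * L := by
    have h5 := o52_width hEM hA0 hA (n := L) (by linarith)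
    rw [← hcJ] at h5
    have h6 : EE μ (2 ^ (y - 1)) ≤ EE μ L := EE_mono hL1
    have h7 : (vA μ A1 L - vA μ A0 L) * L ≤ δ * L := mul_le_mul_of_nonneg_right (by rw [hδ]; linarith) hL0.le
    have h8 : cJ * EE μ (2 ^ (y - 1)) ≤ cJ * EE μ L := mul_le_mul_of_nonneg_left h6 hcJ0.le
    linarith
  obtain ⟨-, -, hy3, hy4⟩ := hx1y (y - 1) (by omega)
  obtain ⟨hy1, hy2, -, -⟩ := hx1y (y + m) (by omega)
  have hδL4 : 4 ≤ δ * L := by linarith
  -- the inner edge is not empty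
  have hCeV : (Ci + 5 + 4 / cJ) * δ ≤ V1 := by
    have h1 : 0 ≤ (V1 - (Ci + 5 + 4 / cJ) * δ) * L := (abs_nonneg _).trans hd
    have h2 := nonneg_of_mul_nonneg_left h1 hL0
    linarith
  have h4Jδ : 0 ≤ 4 / cJ * δ := by positivity
  have hCi4 : (Ci + 4) * δ ≤ V1 := by linarith
  have h5δ : 5 * δ ≤ V1 := by
    have : 0 ≤ Ci * δ := by positivity
    linarith
  -- the duration of the references
  obtain ⟨n', hn'⟩ : ∃ n' : ℕ, n' = ⌈δ * L / V1⌉₊ := ⟨_, rfl⟩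
  have hn1 : δ * L / V1 ≤ n' := by rw [hn']; exact Nat.le_ceil _
  have hn2 : (n' : ℝ) < δ * L / V1 + 1 := by rw [hn']; exact Nat.ceil_lt_add_one (by positivity)
  have hn3 : δ * L ≤ V1 * n' := by
    rw [div_le_iff₀ hV10] at hn1
    linarith
  have hn4 : V1 * n' ≤ δ * L + 1 := by
    have h1 := mul_le_mul_of_nonneg_left hn2.le hV10.le
    rw [mul_add, mul_div_cancel₀ _ hV10.ne'] at h1
    linarith
  have hn5 : 2 * (n' : ℝ) ≤ L := by
    have h1 : δ * L / V1 ≤ L / 5 := by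
      rw [div_le_div_iff₀ hV10 (by norm_num)]
      nlinarith
    linarith
  have hn6 : 2 * n' ≤ L := by exact_mod_cast hn5
  have hcJL : cJ ≤ δ * L := by
    have h1 := one_le_EE (μ := μ) (2 ^ (y - 1))
    nlinarith
  have hn7 : ((n3 : ℝ) + 4) ≤ n' := by
    refine le_trans ?_ hn1
    rw [le_div_iff₀ hV10]
    have h1 : V0 * ((n3 + 4) / cJ) ≤ 1 := by
      have h2 : 0 ≤ V0 * (8 + 8 * (5 + 2 * R * (M + 1)) + 8 * (2 + Ci + R) * (M + 1)) := by positivity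
      rw [hZ] at hV0Z'
      linarith
    have h3 : V1 * ((n3 + 4) / cJ) ≤ 1 := (mul_le_mul_of_nonneg_right hV01 (by positivity)).trans h1
    rw [← mul_div_assoc, div_le_iff₀ hcJ0] at h3
    linarith
  have hn8 : n3 + 4 ≤ n' := by exact_mod_cast hn7
  -- the duration of the path
  obtain ⟨N, hN⟩ : ∃ N : ℕ, N = (M + 1) * (L - n') + n' := ⟨_, rfl⟩
  have hNup : N ≤ 2 ^ (y + m) := by
    have h1 : N ≤ (M + 1) * L := by
      obtain ⟨L', hL'⟩ : ∃ L', L = L' + n' := ⟨L - n', by omega⟩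
      rw [hN, hL', Nat.add_sub_cancel, mul_add]
      have : n' ≤ (M + 1) * n' := Nat.le_mul_of_pos_left n' (by omega)
      omega
    have h2 : (M + 1) * L ≤ 2 ^ m * 2 ^ y := by
      rw [hM2]
      exact Nat.mul_le_mul_left _ hL2
    rw [← pow_add] at h2
    rw [add_comm y m]
    exact h1.trans h2
  have hNlo4 : 2 ^ (y + m) ≤ 4 * N := by
    have h1 : L ≤ 2 * (L - n') := by omega
    have h2 : (M + 1) * L ≤ 2 * ((M + 1) * (L - n')) := by
      have := Nat.mul_le_mul_left (M + 1) h1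
      linarith
    have h3 : 2 ^ m * 2 ^ (y - 1) ≤ (M + 1) * L := by
      rw [hM2]
      exact Nat.mul_le_mul_left _ hL1
    have h4 : 2 ^ (y + m) = 2 * (2 ^ m * 2 ^ (y - 1)) := by
      rw [← pow_add, ← pow_succ']
      congr 1
      omega
    omega
  have hLN : L ≤ N := by
    have h1 : 1 * (L - n') ≤ M * (L - n') := Nat.mul_le_mul_right _ hM1
    have h2 : (M + 1) * (L - n') = M * (L - n') + (L - n') := by ring
    omega
  obtain ⟨hsN1, hsN2⟩ := hsl N (hL1.trans hLN) hNup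
  obtain ⟨w, hw0, hw1, hw2, hw3⟩ := hcore α₀ (y + m) L n' N V0 V1 δ le_rfl (hnS (y + m) (by omega) (by omega)) hδ hδ0 hV10 hCi4
    (by
      have h2 : 0 ≤ V0 * ((n3 + 4) / cJ) := by positivity
      rw [hZ] at hV0Z'
      linarith) hsN1 hsN2 hN hn6 (by omega) (by omega) hn3 hn4 (by
      have h1 : θ * (cJ * EE μ (2 ^ (y - 1))) ≤ θ * (V1 * n') := mul_le_mul_of_nonneg_left (hwid.trans hn3) hθ.le
      linarith) hδL4 hNup hNlo4 hy1 hy2 (fun q hq => hin N (by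
      have : a < 2 ^ a := Nat.lt_two_pow_self
      have : 2 ^ a ≤ 2 ^ (y - 1) := Nat.pow_le_pow_right (by norm_num) (by omega)
      omega) q (hq.trans (mul_le_mul_of_nonneg_right (by
        have h1 : Ci * (vA μ A1 N - vA μ A0 N) ≤ Ci * δ := mul_le_mul_of_nonneg_left (by rw [hδ]; linarith) hCi
        linarith) (Nat.cast_nonneg N)))) (fun w hw0 hw1 => by
      have h1 := href n' (by omega) w N (by omega) hw0 (hw1.trans (by
        have h2 : θ * (V1 * n') ≤ θ * (vA μ A0 N * n') :=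
          mul_le_mul_of_nonneg_left (mul_le_mul_of_nonneg_right hsN1 (Nat.cast_nonneg n')) hθ.le
        linarith))
      have h2 := i52_e0_le_Em (μ := μ) (m := n') (n := L) (by omega)
      have h3 : EE μ n' ≤ EE μ (2 ^ (y + m)) := EE_mono (by omega)
      have h4 : κ * EE μ n' ≤ κ * EE μ (2 ^ (y + m)) := mul_le_mul_of_nonneg_left h3 hκ0.le
      linarith)
  have hxx := hw2 (Ci + 5 + 4 / cJ) (by
    have h1 : (Ci + 5 + 4 / cJ - Ci - 1) * (δ * L) = 4 * (δ * L) + 4 / cJ * (δ * L) := by ring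
    have h2 : 0 ≤ 4 / cJ * (δ * L) := by positivity
    rw [h1]
    linarith)
  have hdx : |(d : ℝ) - L / 2| ≤ (w : ℝ) - L / 2 := hd.trans hxx
  have hmono : e μ 0 L d ≤ e μ 0 L w := by
    refine e_le_of_center hEM hw0 hw1 ?_
    have h1 := abs_le.1 hdx
    have h2 : |((2 * d - L : ℤ) : ℝ)| ≤ |((2 * w - L : ℤ) : ℝ)| := by
      push_cast
      rw [abs_of_nonneg (show (0 : ℝ) ≤ 2 * (w : ℝ) - L by linarith), abs_le]
      constructor <;> linarith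
    exact_mod_cast h2
  have hEy := one_le_EE (μ := μ) (2 ^ (y + m))
  have hfinal : (c1 + 1) / (M + 1) * EE μ (2 ^ (y + m)) ≤ ε / 8 * EE μ (2 ^ (y + m)) := by
    refine mul_le_mul_of_nonneg_right ?_ (by linarith)
    rw [hMr, div_le_iff₀ (by positivity)]
    linarith
  have hκE : 5 * (κ * EE μ (2 ^ (y + m))) = 5 / 16 * ε * EE μ (2 ^ (y + m)) := by rw [hκ]; ring
  rw [hκE] at hw3
  have hεE : 0 ≤ ε * EE μ (2 ^ (y + m)) := by positivity
  linarith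

end Pool.Agent.W_7d29a1_G
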