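import Pool.Agent.W_7d29a1_h68.Sites
import Pool.Agent.W_7d29a1_G.ElemD1

/-!
MP_7d29a1_pr, track G, section B, single sites: `HB0` of the interface. (helper68)

If the octave `x` is not soft at the level `α = max (g - f / 2 + C₀) 3` then the point to point cost
of time `2 ^ (x + 1)` is within `r = 2 ^ (- α) E` of its mean off an event of probability `1 / 8`;
the one site inequality (`fluct`) and the confinement to the cone (width `v n`, `v = 2 ^ (- f)`)
give `c ≤ v (2 r² + K²)`, while `v r² ≤ 2 ^ (- 2 C₀)` and `v → 0`.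
-/

namespace Pool.Agent.W_7d29a1_G

open MeasureTheory ProbabilityTheory Filter Topology Pool.Agent.W_7d29a1_F Pool.Agent.W_7d29a1_h4g
open Pool.Agent.W_7d29a1_h47 (EM Nondeg)
open Pool.Agent.W_7d29a1_h48 (pin)
open Pool.Agent.W_7d29a1_h68

/-- Confinement of the polymer to the cone at all times (helper71). -/
def ConfH (μ : Measure ℝ) : Prop :=
  ∀ δ : ℝ, 0 < δ → ∃ (R : ℝ) (n₀ : ℕ), ∀ x : ℕ, n₀ ≤ 2 ^ x → ∀ N : ℕ, Even N → 2 ^ x ≤ N →
    N ≤ 2 * 2 ^ x → ∀ t : ℕ, t ≤ N → 1 - δ ≤ ∫ η, ∑ p ∈ cell (R * (vA μ 1 (2 ^ x) * 2 ^ x)) t,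
      pin μ 0 η t (N - t) ((N : ℤ) / 2) p ∂(law μ)

variable {μ : Measure ℝ} [IsProbabilityMeasure μ]

/-- The width of the cone is at least of order one. -/
lemma one_le_width (hμ : EM μ) {n : ℕ} (hn : 1 ≤ n) :
    1 ≤ (2 * J μ (1 / 2) + 2) * (vA μ 1 n * n) := by
  have hn0 : (1 : ℝ) ≤ n := by exact_mod_cast hn
  have hv0 := vA_pos (μ := μ) hμ one_pos n
  have hv1 := vA_le (μ := μ) hμ zero_le_one n
  have hJ := J_nonneg (μ := μ) hμ (v := 1 / 2) (by norm_num [abs_of_pos])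
  rcases hv1.lt_or_eq with h | h
  · have h1 := vA_eq' (μ := μ) hμ zero_le_one h
    rw [one_mul] at h1
    have h2 := one_le_EE (μ := μ) n
    have h3 := J_mul (μ := μ) hμ (v := vA μ 1 n) (t := 1 / (2 * vA μ 1 n)) hv0.le (by
      rw [le_div_iff₀ (by positivity)]
      linarith) (by
      field_simp
      norm_num)
    have e1 : 1 / (2 * vA μ 1 n) * vA μ 1 n = 1 / 2 := by
      field_simp
    rw [e1, div_mul_eq_mul_div, one_mul, div_le_iff₀ (by positivity)] at h3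
    have h4 : n * J μ (vA μ 1 n) ≤ n * (J μ (1 / 2) * (2 * vA μ 1 n)) :=
      mul_le_mul_of_nonneg_left h3 (by linarith)
    have h5 : 0 ≤ 2 * (vA μ 1 n * n) := by positivity
    nlinarith
  · rw [h]
    nlinarith

/-- Every octave is soft at some level. -/
lemma exists_Sf (hμ : EM μ) (hnd : Nondeg μ) (x : ℕ) : ∃ α : ℝ, Sf μ x α := by
  obtain ⟨p, q, hpq, hp, hq⟩ := Pool.Agent.W_7d29a1_h47.exists_gap hnd
  have hlog : ∀ η : Env, Real.log (W μ 0 η 0 1 0) = η (1, 0) - lam μ 0 := by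
    intro η
    have h1 : W μ 0 η 0 1 0 = Real.exp (0 * ((0 : ℤ) : ℝ) - ((1 : ℕ) : ℝ) * lam μ 0) *
      (Set.univ.indicator (fun p => Real.exp (η p)) ((0 : Pt).1 + (((0 : ℕ) : ℤ) + 1), (0 : Pt).2 + 0) *
      ((if (0 : ℤ) = 0 then (1 : ℝ) else 0) + (if (0 : ℤ) - 1 = 0 then (1 : ℝ) else 0))) := rfl
    have e1 : (((0 : Pt).1 + (((0 : ℕ) : ℤ) + 1), (0 : Pt).2 + 0) : Pt) = (1, 0) := by simp
    rw [h1, Set.indicator_univ, e1, Real.log_mul (Real.exp_pos _).ne' (by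
      simp), Real.log_exp]
    simp
    ring
  obtain ⟨c, hc⟩ : ∃ c, c = ∫ ξ, Real.log (W μ 0 ξ 0 1 0) ∂(law μ) := ⟨_, rfl⟩
  have hE := one_le_EE (μ := μ) (2 ^ x)
  -- the fluctuation
  have hfl : min (μ.real (Set.Iic p)) (μ.real (Set.Ici q)) ≤
      (law μ).real {η | (q - p) / 2 ≤ |Real.log (W μ 0 η 0 1 0) - c|} := by
    have hmp : MeasurePreserving (fun g : Env => g (1, 0)) (law μ) μ :=
      measurePreserving_eval_infinitePi (fun _ : Pt => μ) (1, 0)
    rcases le_total ((p + q) / 2) (c + lam μ 0) with h | h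
    · refine (min_le_left _ _).trans ?_
      rw [← hmp.measureReal_preimage measurableSet_Iic.nullMeasurableSet]
      refine measureReal_mono (fun η hη => ?_) (measure_ne_top _ _)
      have h1 : η (1, 0) ≤ p := hη
      show (q - p) / 2 ≤ |Real.log (W μ 0 η 0 1 0) - c|
      rw [hlog]
      refine le_trans ?_ (neg_le_abs _)
      linarith
    · refine (min_le_right _ _).trans ?_
      rw [← hmp.measureReal_preimage measurableSet_Ici.nullMeasurableSet]
      refine measureReal_mono (fun η hη => ?_) (measure_ne_top _ _)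
      have h1 : q ≤ η (1, 0) := hη
      show (q - p) / 2 ≤ |Real.log (W μ 0 η 0 1 0) - c|
      rw [hlog]
      refine le_trans ?_ (le_abs_self _)
      linarith
  obtain ⟨e, he⟩ : ∃ e, e = min (μ.real (Set.Iic p)) (μ.real (Set.Ici q)) := ⟨_, rfl⟩
  have he0 : 0 < e := by
    rw [he]
    exact lt_min hp hq
  obtain ⟨B, hB⟩ : ∃ B, B = 1 + 2 * EE μ (2 ^ x) / (q - p) + e⁻¹ + |c| := ⟨_, rfl⟩
  have hqp : 0 < q - p := by linarith
  have hB1 : 0 ≤ 2 * EE μ (2 ^ x) / (q - p) := by positivity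
  have hB2 : 0 < e⁻¹ := inv_pos.2 he0
  have hB3 := abs_nonneg c
  have hB0 : 0 < B := by
    rw [hB]
    positivity
  have hα : (2 : ℝ) ^ (Real.logb 2 B) = B := Real.rpow_logb two_pos (by norm_num) hB0
  have hα0 : 0 ≤ Real.logb 2 B := Real.logb_nonneg one_lt_two (by rw [hB]; linarith)
  refine ⟨Real.logb 2 B, 1, fun η => W μ 0 η 0 1 0, ?_, ?_, fun η => W_pos η 0 le_rfl (by norm_num),
    fun η => ?_, ?_, ?_⟩
  · push_cast
    exact Real.one_le_rpow one_le_two (by positivity)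
  · refine (poly_W 0 1 0).mono fun r hr => ?_
    exact ⟨hr.1, by simpa using hr.2.1⟩
  · have := neg_X_le_V (μ := μ) (s := 0) η 0 (n := 1) (y := 0) le_rfl (by norm_num)
    unfold X at this
    rwa [neg_neg] at this
  · rw [hα, ← hc]
    have h1 : |c| ≤ B := by rw [hB]; linarith
    have h2 : -|c| ≤ c := neg_abs_le c
    have h3 : B ≤ B * EE μ (2 ^ x) := le_mul_of_one_le_right hB0.le hE
    linarith
  · rw [Real.rpow_neg two_pos.le, hα, ← hc]
    have h1 : B⁻¹ ≤ e := by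
      rw [inv_le_comm₀ hB0 he0, hB]
      linarith
    refine h1.trans (le_trans (by rw [he]) (hfl.trans (measureReal_mono (fun η hη => ?_)
      (measure_ne_top _ _))))
    have h2 : (q - p) / 2 ≤ |Real.log (W μ 0 η 0 1 0) - c| := hη
    show B⁻¹ * EE μ (2 ^ x) ≤ |Real.log (W μ 0 η 0 1 0) - c|
    refine le_trans ?_ h2
    rw [inv_mul_le_iff₀ hB0]
    have h3 : 2 * EE μ (2 ^ x) / (q - p) ≤ B := by rw [hB]; linarith
    rw [div_le_iff₀ hqp] at h3
    linarith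

/-- **Single sites** (`HB0` of the interface), from the confinement. -/
theorem hb0_of_conf (hμ : EM μ) (hnd : Nondeg μ) (hconf : ConfH μ) : HB0 μ 3 := by
  obtain ⟨c, K, hc, hK, H⟩ := fluct (s := 0) hμ hnd
  obtain ⟨R, n₀, hR⟩ := hconf (1 / 8) (by norm_num)
  have hJ := J_nonneg (μ := μ) hμ (v := 1 / 2) (by norm_num [abs_of_pos])
  obtain ⟨C₁, hC₁⟩ : ∃ C₁, C₁ = 2 * J μ (1 / 2) + 2 := ⟨_, rfl⟩
  have hC₁0 : 0 < C₁ := by
    rw [hC₁]
    linarith
  obtain ⟨c₂, hc₂⟩ : ∃ c₂, c₂ = c / (2 * |R| + C₁) := ⟨_, rfl⟩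
  have hR0 := abs_nonneg R
  have hc₂0 : 0 < c₂ := by
    rw [hc₂]
    positivity
  -- the thresholds
  have hv : ∀ᶠ x : ℕ in atTop, vA μ 1 (2 ^ x) * K ^ 2 ≤ c₂ / 4 := by
    have h1 : Tendsto (fun x : ℕ => vA μ 1 (2 ^ x) * K ^ 2) atTop (𝓝 (0 * K ^ 2)) :=
      ((vA_tendsto (μ := μ) hμ hnd zero_le_one).comp
        (tendsto_pow_atTop_atTop_of_one_lt one_lt_two)).mul_const _
    rw [zero_mul] at h1
    filter_upwards [h1.eventually (gt_mem_nhds (show (0 : ℝ) < c₂ / 4 by positivity))] with x hx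
    exact hx.le
  obtain ⟨x₁, hx₁⟩ := eventually_atTop.1 hv
  obtain ⟨x₀, hx₀⟩ : ∃ x₀, x₀ = max x₁ n₀ := ⟨_, rfl⟩
  choose α hα using exists_Sf (μ := μ) hμ hnd
  obtain ⟨C', hC'⟩ := ((Finset.range x₀).image fun x => α x - gg μ x + ff μ 1 x / 2).exists_le
  obtain ⟨Ca, hCa⟩ : ∃ Ca, Ca = max 0 (Real.logb 2 (8 / c₂)) := ⟨_, rfl⟩
  have hCa0 : 0 ≤ Ca := by
    rw [hCa]
    exact le_max_left _ _
  have hCa1 : (2 : ℝ) ^ (-(2 * Ca)) ≤ c₂ / 8 := by
    have h1 : (2 : ℝ) ^ (-(2 * Ca)) ≤ (2 : ℝ) ^ (-Real.logb 2 (8 / c₂)) := by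
      refine Real.rpow_le_rpow_of_exponent_le one_le_two ?_
      have : Real.logb 2 (8 / c₂) ≤ Ca := by
        rw [hCa]
        exact le_max_right _ _
      linarith
    have h2 : (2 : ℝ) ^ (-Real.logb 2 (8 / c₂)) = c₂ / 8 := by
      rw [Real.rpow_neg two_pos.le, Real.rpow_logb two_pos (by norm_num) (by positivity), inv_div]
    rwa [h2] at h1
  refine ⟨max Ca C', fun x => ?_⟩
  rcases lt_or_ge x x₀ with hx | hx
  · -- small octaves
    refine (hα x).mono (le_trans ?_ (le_max_left _ _))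
    have h1 := hC' _ (Finset.mem_image_of_mem _ (Finset.mem_range.2 hx))
    have h2 : C' ≤ max Ca C' := le_max_right _ _
    linarith
  · by_contra hcon
    obtain ⟨a, ha⟩ : ∃ a, a = max (gg μ x - ff μ 1 x / 2 + max Ca C') 3 := ⟨_, rfl⟩
    rw [← ha] at hcon
    have ha3 : 3 ≤ a := by
      rw [ha]
      exact le_max_right _ _
    have haC : gg μ x - ff μ 1 x / 2 + Ca ≤ a := by
      have h1 : Ca ≤ max Ca C' := le_max_left _ _
      have h2 : gg μ x - ff μ 1 x / 2 + max Ca C' ≤ a := by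
        rw [ha]
        exact le_max_left _ _
      linarith
    have hx1 : x₁ ≤ x := (le_max_left _ _).trans (hx₀ ▸ hx)
    have hx2 : n₀ ≤ 2 ^ x := ((le_max_right x₁ n₀).trans (hx₀ ▸ hx)).trans (Nat.lt_two_pow_self).le
    obtain ⟨n, hn⟩ : ∃ n : ℕ, n = 2 ^ x := ⟨_, rfl⟩
    have hn1 : 1 ≤ n := by
      rw [hn]
      exact Nat.one_le_two_pow
    have hnr : (1 : ℝ) ≤ n := by exact_mod_cast hn1
    obtain ⟨v, hvd⟩ : ∃ v, v = vA μ 1 n := ⟨_, rfl⟩
    have hv0 : 0 < v := by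
      rw [hvd]
      exact vA_pos hμ one_pos n
    have hE1 := one_le_EE (μ := μ) n
    obtain ⟨r, hr⟩ : ∃ r, r = (2 : ℝ) ^ (-a) * EE μ n := ⟨_, rfl⟩
    have hr0 : 0 ≤ r := by
      rw [hr]
      positivity
    have hmd : (((2 * n : ℕ) : ℤ) / 2) = n := by omega
    have hy0 : (0 : ℤ) ≤ (((2 * n : ℕ) : ℤ) / 2) := by omega
    have hy1 : (((2 * n : ℕ) : ℤ) / 2) ≤ ((2 * n : ℕ) : ℤ) := by omega
    -- not soft
    have hP : (law μ).real {η | r ≤ |Real.log (W μ 0 η 0 (2 * n) (((2 * n : ℕ) : ℤ) / 2)) -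
        ∫ ξ, Real.log (W μ 0 ξ 0 (2 * n) (((2 * n : ℕ) : ℤ) / 2)) ∂(law μ)|} ≤ 1 / 8 := by
      by_contra hP
      rw [not_le] at hP
      refine hcon ⟨2 * n, fun η => W μ 0 η 0 (2 * n) (((2 * n : ℕ) : ℤ) / 2), ?_, ?_,
        fun η => W_pos η 0 hy0 hy1, fun η => ?_, ?_, ?_⟩
      · rw [Real.rpow_add two_pos, Real.rpow_natCast, hn]
        push_cast
        have h1 : (2 : ℝ) ^ (1 : ℝ) ≤ (2 : ℝ) ^ a :=
          Real.rpow_le_rpow_of_exponent_le one_le_two (by linarith)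
        rw [Real.rpow_one] at h1
        have h2 : (0 : ℝ) < 2 ^ x := by positivity
        nlinarith
      · refine (poly_W 0 _ _).mono fun q hq => ?_
        exact ⟨hq.1, by simpa using hq.2.1⟩
      · have := neg_X_le_V (μ := μ) (s := 0) η 0 hy0 hy1
        unfold X at this
        rwa [neg_neg] at this
      · have h1 := e_le_ep (μ := μ) hμ hy0 hy1
        have h2 := ep_le_EE (μ := μ) (le_refl (2 * n))
        have h3 := EE_two (μ := μ) hμ n
        have h4 : ∫ η, Real.log (W μ 0 η 0 (2 * n) (((2 * n : ℕ) : ℤ) / 2)) ∂(law μ) =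
            -e μ 0 (2 * n) (((2 * n : ℕ) : ℤ) / 2) := by
          unfold e X
          rw [integral_neg, neg_neg]
        have h5 : (2 : ℝ) ^ (1 : ℝ) ≤ (2 : ℝ) ^ a :=
          Real.rpow_le_rpow_of_exponent_le one_le_two (by linarith)
        rw [Real.rpow_one] at h5
        have h6 : ep μ (2 * n) (((2 * n : ℕ) : ℤ) / 2) ≤ EE μ (2 * n) - 1 := h2
        show -((2 : ℝ) ^ a * EE μ (2 ^ x)) ≤
          ∫ η, Real.log (W μ 0 η 0 (2 * n) (((2 * n : ℕ) : ℤ) / 2)) ∂(law μ)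
        rw [h4, ← hn]
        have h7 : 2 * EE μ n ≤ (2 : ℝ) ^ a * EE μ n := mul_le_mul_of_nonneg_right h5 (by linarith)
        linarith
      · have h1 : (2 : ℝ) ^ (-a) ≤ 1 / 8 := by
          have h2 : (2 : ℝ) ^ (-a) ≤ (2 : ℝ) ^ (-3 : ℝ) :=
            Real.rpow_le_rpow_of_exponent_le one_le_two (by linarith)
          have h3 : (2 : ℝ) ^ (-3 : ℝ) = 1 / 8 := by
            rw [Real.rpow_neg two_pos.le]
            norm_num
          rwa [h3] at h2
        refine h1.trans ?_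
        rw [← hn, ← hr]
        exact hP.le
    -- the lower bound
    obtain ⟨b, hb⟩ : ∃ b, b = R * (v * n) := ⟨_, rfl⟩
    have hcf : ∀ t : ℕ, 1 ≤ t → t ≤ 2 * n → 7 / 8 ≤ ∫ η, ∑ z ∈ cell b t,
        pin μ 0 η t (2 * n - t) (((2 * n : ℕ) : ℤ) / 2) z ∂(law μ) := by
      intro t _ ht
      have h1 := hR x hx2 (2 * n) (even_two_mul n) (by omega) (by omega) t ht
      have e1 : R * (vA μ 1 (2 ^ x) * 2 ^ x) = b := by
        rw [hb, hvd, hn]
        push_cast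
        ring
      rw [e1] at h1
      linarith
    have h1 := H (2 * n) (((2 * n : ℕ) : ℤ) / 2) b hy0 hy1 hcf _ r hr0 hP
    -- `2 |b| + 1 ≤ (2 |R| + C₁) v n`
    have hvn : 0 < v * n := by positivity
    have hw := one_le_width (μ := μ) hμ hn1
    rw [← hvd, ← hC₁] at hw
    have hb1 : 2 * |b| + 1 ≤ (2 * |R| + C₁) * (v * n) := by
      rw [hb, abs_mul, abs_of_pos hvn]
      nlinarith
    have hq : 0 ≤ r ^ 2 + (r + K) ^ 2 / 8 := by positivity
    have h2 : c * ((2 * n : ℕ) : ℝ) ≤ (2 * |R| + C₁) * (v * n) * (r ^ 2 + (r + K) ^ 2 / 8) :=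
      h1.trans (mul_le_mul_of_nonneg_right hb1 hq)
    have hn0 : (0 : ℝ) < n := by linarith
    have h3 : c ≤ (2 * |R| + C₁) * (v * (2 * r ^ 2 + K ^ 2)) := by
      have h4 : r ^ 2 + (r + K) ^ 2 / 8 ≤ 2 * (2 * r ^ 2 + K ^ 2) := by nlinarith [sq_nonneg (r - K)]
      have h5 := mul_le_mul_of_nonneg_left h4 (show 0 ≤ (2 * |R| + C₁) * (v * n) by positivity)
      push_cast at h2
      have h6 : n * (2 * c) ≤ n * (2 * ((2 * |R| + C₁) * (v * (2 * r ^ 2 + K ^ 2)))) := by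
        calc n * (2 * c) = c * (2 * n) := by ring
          _ ≤ _ := h2
          _ ≤ _ := h5
          _ = _ := by ring
      have h7 := le_of_mul_le_mul_left h6 hn0
      linarith
    have h4 : c₂ ≤ v * (2 * r ^ 2 + K ^ 2) := by
      rw [hc₂, div_le_iff₀ (by positivity)]
      linarith
    -- `v r² ≤ 2 ^ (- 2 C₀)`
    have hvf : v = (2 : ℝ) ^ (-ff μ 1 x) := by
      rw [two_rpow_ff hμ one_pos, hvd, hn]
    have hEg : EE μ n = (2 : ℝ) ^ (gg μ x) := by
      rw [two_rpow_gg, hn]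
    have hr1 : r ≤ (2 : ℝ) ^ (ff μ 1 x / 2 - Ca) := by
      rw [hr, hEg, ← Real.rpow_add two_pos]
      exact Real.rpow_le_rpow_of_exponent_le one_le_two (by linarith)
    have hr2 : v * r ^ 2 ≤ (2 : ℝ) ^ (-(2 * Ca)) := by
      have h5 := pow_le_pow_left₀ hr0 hr1 2
      have h6 : ((2 : ℝ) ^ (ff μ 1 x / 2 - Ca)) ^ 2 = (2 : ℝ) ^ (ff μ 1 x - 2 * Ca) := by
        rw [← Real.rpow_natCast, ← Real.rpow_mul two_pos.le]
        congr 1
        push_cast
        ring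
      rw [h6] at h5
      refine (mul_le_mul_of_nonneg_left h5 hv0.le).trans (le_of_eq ?_)
      rw [hvf, ← Real.rpow_add two_pos]
      congr 1
      ring
    have h5 := hx₁ x hx1
    rw [← hn, ← hvd] at h5
    have h6 : v * (2 * r ^ 2 + K ^ 2) = 2 * (v * r ^ 2) + v * K ^ 2 := by ring
    rw [h6] at h4
    linarith

end Pool.Agent.W_7d29a1_G
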