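import Pool.Agent.W_7d29a1_G.Final0
import Pool.Agent.W_7d29a1_G.Frame
import Pool.Agent.W_7d29a1_G.InnerE52
import Pool.Agent.W_7d29a1_g.EL67M
import Pool.Agent.W_7d29a1_h48.HB

/-!
MP_7d29a1_pr, track G, closed: the free energy is power convex at the tilt `0` for every nondegenerate law with exponential moments.
-/

set_option autoImplicit false

namespace Pool.Agent.W_7d29a1_G

open MeasureTheory ProbabilityTheory Filter Topology Set Pool.Agent.W_7d29a1_F Pool.Agent.W_7d29a1_h46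

variable {μ : Measure ℝ} [IsProbabilityMeasure μ]

theorem targets (hμ : W_7d29a1_h47.EM μ) (hnd : W_7d29a1_h47.Nondeg μ) : Targets μ := by
  have F := frame hμ hnd
  have hE := (edges_of hμ hnd (W_7d29a1_h18.EE_tendsto hμ hnd) F.in' F.luck one_pos one_lt_two).1
  exact targets_of hμ hnd F.in' F.luck (W_7d29a1_g.K67.elout hμ hnd F.in')
    (innerE52 hμ hnd one_pos one_lt_two F.in' hE (hlog92 hμ hnd))
    ⟨3, W_7d29a1_h48.hb hμ hnd F.in' F.tilt⟩

/-- **The power law of the rate function**: `J v ≥ c v ^ K` near `0`. -/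
theorem pow0 (hμ : W_7d29a1_h47.EM μ) (hnd : W_7d29a1_h47.Nondeg μ) :
    ∃ c K v₀ : ℝ, 0 < c ∧ 1 < K ∧ 0 < v₀ ∧ ∀ v, 0 ≤ v → v ≤ v₀ → c * v ^ K ≤ J μ v :=
  pow_of hμ hnd (targets hμ hnd)

/-- **Power convexity of the free energy at the tilt `0`.** -/
theorem expd0 (hμ : W_7d29a1_h47.EM μ) (hnd : W_7d29a1_h47.Nondeg μ) :
    ∃ α : ℝ, 0 < α ∧ Expd (W_7d29a1_h47.Lam μ) α 0 0 :=
  expd_of hμ hnd (targets hμ hnd)

end Pool.Agent.W_7d29a1_G
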