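import Pool.Agent.W_7d29a1_G.Defs1
import Pool.Agent.W_7d29a1_h47.LamA

/-!
Track G: `c log n ≤ E(n)` for the unit of any reference displacements (in particular direction `0`), all laws, all tilts.

Proof. There is `a > log ∫ e^u` with `q = P(a ≤ ω) > 0`; on the event that all the sites of a box are at least `a` the luck of
time `m` is at least `m δ`, `δ = a - log ∫ e^u`; so some displacement `(m, y)` has weight at least `e` with probability
`p0 > 0` (independent of the tilt); `k` blocks in a row give `P(k ≤ V_(k m)) ≥ p0 ^ k`, and `luck_rare` says that a luck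
larger than `6 A` of duration `l` has probability less than `l / n`. (helper11)
-/

namespace Pool.Agent.W_7d29a1_G

open MeasureTheory ProbabilityTheory Filter Topology Pool.Agent.W_7d29a1_F Pool.Agent.W_7d29a1_h4g
  Pool.Agent.W_7d29a1_h60

variable {μ : Measure ℝ} [IsProbabilityMeasure μ]

/-- A value above the annealed mean. -/
theorem exists_high (hEM : Pool.Agent.W_7d29a1_h47.EM μ) (hnd : Pool.Agent.W_7d29a1_h47.Nondeg μ) :
    ∃ a : ℝ, Real.log (∫ u, Real.exp u ∂μ) < a ∧ 0 < μ.real {u | a ≤ u} := by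
  obtain ⟨M, hM⟩ : ∃ M, M = ∫ u, Real.exp u ∂μ := ⟨_, rfl⟩
  rw [← hM]
  have hint : Integrable (fun u : ℝ => Real.exp u) μ := by
    refine (hEM 1).mono' (by fun_prop) (Filter.Eventually.of_forall fun u => ?_)
    rw [Real.norm_eq_abs, abs_of_pos (Real.exp_pos _)]
    exact Real.exp_le_exp.2 (by rw [one_mul]; exact le_abs_self u)
  have hM0 : 0 < M := by
    rw [hM]
    exact integral_exp_pos hint
  by_contra hcon
  push Not at hcon
  have h1 : ∀ a : ℝ, Real.log M < a → μ {u | a ≤ u} = 0 := by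
    intro a ha
    have h2 := le_antisymm (hcon a ha) measureReal_nonneg
    rwa [measureReal_eq_zero_iff] at h2
  have h2 : ∀ᵐ u ∂μ, u ≤ Real.log M := by
    have h3 : ∀ n : ℕ, ∀ᵐ u ∂μ, u < Real.log M + 1 / ((n : ℝ) + 1) := by
      intro n
      have h4 := h1 (Real.log M + 1 / ((n : ℝ) + 1)) (by
        have : 0 < 1 / ((n : ℝ) + 1) := by positivity
        linarith)
      rw [ae_iff]
      convert h4 using 2
      ext u
      simp
    have h5 := ae_all_iff.2 h3
    filter_upwards [h5] with u hu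
    refine le_of_forall_pos_lt_add fun ε hε => ?_
    obtain ⟨n, hn⟩ := exists_nat_one_div_lt hε
    exact (hu n).trans (by linarith)
  have h3 : ∀ᵐ u ∂μ, Real.exp u ≤ M := by
    filter_upwards [h2] with u hu
    calc Real.exp u ≤ Real.exp (Real.log M) := Real.exp_le_exp.2 hu
      _ = M := Real.exp_log hM0
  have h4 : ∀ᵐ u ∂μ, M - Real.exp u = 0 := by
    have h5 : ∫ u, (M - Real.exp u) ∂μ = 0 := by
      rw [integral_sub (integrable_const _) hint, integral_const, ← hM]
      simp
    have h6 := (integral_eq_zero_iff_of_nonneg_ae (by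
      filter_upwards [h3] with u hu
      show (0 : ℝ) ≤ M - Real.exp u
      linarith) ((integrable_const _).sub hint)).1 h5
    exact h6
  have h5 : ∀ᵐ u ∂μ, u = Real.log M := by
    filter_upwards [h4] with u hu
    have h6 : Real.exp u = M := by linarith
    rw [← h6, Real.log_exp]
  refine hnd (Real.log M) ?_
  have h6 : μ {Real.log M}ᶜ = 0 := by
    rw [ae_iff] at h5
    exact h5
  rw [prob_compl_eq_zero_iff (measurableSet_singleton _)] at h6
  exact h6

/-- The annealed upper bound of the free energy. -/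
theorem lam_le_annealed (hEM : Pool.Agent.W_7d29a1_h47.EM μ) (s : ℝ) :
    lam μ s ≤ Real.log (∫ u, Real.exp u ∂μ) + Real.log (1 + Real.exp s) := by
  have h1 : Pool.Agent.W_7d29a1_h47.Lam μ (s / 2) ≤
      Real.log (∫ u, Real.exp u ∂μ) + Real.log (2 * Real.cosh (s / 2)) := by
    refine Pool.Agent.W_7d29a1_h47.Lam_le (s / 2) fun n => ?_
    have h2 := Pool.Agent.W_7d29a1_h47.a_le_theta hEM (s / 2) n one_pos le_rfl
    simpa using h2
  have h2 : Real.log (1 + Real.exp s) = Real.log (2 * Real.cosh (s / 2)) + s / 2 := by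
    have h3 : 1 + Real.exp s = 2 * Real.cosh (s / 2) * Real.exp (s / 2) := by
      rw [Real.cosh_eq]
      have h4 : Real.exp s = Real.exp (s / 2) * Real.exp (s / 2) := by
        rw [← Real.exp_add]
        congr 1
        ring
      have h5 : Real.exp (-(s / 2)) * Real.exp (s / 2) = 1 := by
        rw [← Real.exp_add]
        simp
      rw [h4]
      linear_combination (-1 : ℝ) * h5
    rw [h3, Real.log_mul (by positivity) (by positivity), Real.log_exp]
  unfold lam
  rw [h2]
  linarith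

omit [IsProbabilityMeasure μ] in
/-- One step from `b` when both sites are at least `a`. -/
theorem V_one_ge (s : ℝ) (η : Env) (b : Pt) {a : ℝ} (h0 : a ≤ η (b.1 + 1, b.2)) (h1 : a ≤ η (b.1 + 1, b.2 + 1)) :
    a + Real.log (1 + Real.exp s) - lam μ s ≤ V μ s η b 1 := by
  have e0 : W μ s η b 1 0 = Real.exp (-lam μ s) * Real.exp (η (b.1 + 1, b.2)) := by
    unfold W WR
    have : Zr Set.univ η b 1 0 = Real.exp (η (b.1 + 1, b.2)) := by
      simp [Zr]
    rw [this]
    simp
  have e1 : W μ s η b 1 1 = Real.exp (s - lam μ s) * Real.exp (η (b.1 + 1, b.2 + 1)) := by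
    unfold W WR
    have : Zr Set.univ η b 1 1 = Real.exp (η (b.1 + 1, b.2 + 1)) := by
      simp [Zr]
    rw [this]
    simp
  have e2 : WS μ s η b 1 (Finset.Icc (0 : ℤ) (1 : ℕ)) = W μ s η b 1 0 + W μ s η b 1 1 := by
    unfold WS
    have : (Finset.Icc (0 : ℤ) (1 : ℕ)) = {0, 1} := by decide
    rw [this, Finset.sum_pair (by norm_num)]
  unfold V
  rw [e2, e0, e1]
  have h2 : Real.exp (-lam μ s) * Real.exp a ≤ Real.exp (-lam μ s) * Real.exp (η (b.1 + 1, b.2)) :=
    mul_le_mul_of_nonneg_left (Real.exp_le_exp.2 h0) (Real.exp_pos _).le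
  have h3 : Real.exp (s - lam μ s) * Real.exp a ≤ Real.exp (s - lam μ s) * Real.exp (η (b.1 + 1, b.2 + 1)) :=
    mul_le_mul_of_nonneg_left (Real.exp_le_exp.2 h1) (Real.exp_pos _).le
  have h4 : Real.exp (a - lam μ s) * (1 + Real.exp s) =
      Real.exp (-lam μ s) * Real.exp a + Real.exp (s - lam μ s) * Real.exp a := by
    rw [← Real.exp_add, ← Real.exp_add, mul_add, mul_one, ← Real.exp_add]
    congr 1
    · congr 1
      ring
    · congr 1
      ring
  have h5 : a + Real.log (1 + Real.exp s) - lam μ s = Real.log (Real.exp (a - lam μ s) * (1 + Real.exp s)) := by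
    rw [Real.log_mul (by positivity) (by positivity), Real.log_exp]
    ring
  rw [h5]
  refine Real.log_le_log (by positivity) ?_
  rw [h4]
  exact add_le_add h2 h3

omit [IsProbabilityMeasure μ] in
/-- The luck when all the sites of the box `(0, m] × [0, m]` are at least `a`. -/
theorem V_ge_of_high (s : ℝ) (η : Env) {a δ : ℝ} (hδ : δ ≤ a + Real.log (1 + Real.exp s) - lam μ s) (m : ℕ)
    (h : ∀ i j : ℕ, i < m → j ≤ m → a ≤ η ((i : ℤ) + 1, (j : ℤ))) : m * δ ≤ V μ s η 0 m := by
  have key : ∀ k : ℕ, k ≤ m → k * δ ≤ V μ s η 0 k := by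
    intro k
    induction k with
    | zero =>
      intro _
      rw [V_zero]
      simp
    | succ k ih =>
      intro hk
      have h1 := ih (by omega)
      have h2 : Real.exp (V μ s η 0 k + δ) ≤ Real.exp (V μ s η 0 (k + 1)) := by
        rw [exp_V_add, Real.exp_add, exp_V]
        unfold WS
        rw [Finset.sum_mul]
        refine Finset.sum_le_sum fun j hj => ?_
        rw [Finset.mem_Icc] at hj
        refine mul_le_mul_of_nonneg_left (Real.exp_le_exp.2 (hδ.trans ?_)) (W_nonneg _ _ _ _)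
        obtain ⟨i, rfl⟩ := Int.eq_ofNat_of_zero_le hj.1
        have hi : i ≤ k := by exact_mod_cast hj.2
        refine V_one_ge s η _ ?_ ?_
        · have h3 := h k i (by omega) (by omega)
          simpa using h3
        · have h3 := h k (i + 1) (by omega) (by omega)
          simpa using h3
      have h3 := Real.exp_le_exp.1 h2
      push_cast
      linarith
  exact key m le_rfl

/-- A block of weight at least `e`, with probability at least `p0`, uniformly in the tilt. -/
theorem exists_block (hEM : Pool.Agent.W_7d29a1_h47.EM μ) (hnd : Pool.Agent.W_7d29a1_h47.Nondeg μ) :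
    ∃ (m : ℕ) (p0 : ℝ), 1 ≤ m ∧ 0 < p0 ∧ p0 ≤ 1 ∧ ∀ s : ℝ, ∃ y : ℤ, 0 ≤ y ∧ y ≤ m ∧
      p0 ≤ (law μ).real {η | Real.exp 1 ≤ W μ s η 0 m y} := by
  classical
  obtain ⟨a, ha, hq⟩ := exists_high hEM hnd
  obtain ⟨δ, hδ⟩ : ∃ δ, δ = a - Real.log (∫ u, Real.exp u ∂μ) := ⟨_, rfl⟩
  have hδ0 : 0 < δ := by rw [hδ]; linarith
  -- the time `m`
  obtain ⟨m, hm1, hm⟩ : ∃ m : ℕ, 1 ≤ m ∧ 1 + Real.log (m + 1) ≤ m * δ := by
    have h1 : Tendsto (fun n : ℕ => (n : ℝ) * δ - Real.log ((n : ℝ) + 1)) atTop atTop := by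
      have h2 : ∀ n : ℕ, (n : ℝ) * (δ / 2) - Real.log (2 / δ) + 0 ≤ (n : ℝ) * δ - Real.log ((n : ℝ) + 1) + δ / 2 := by
        intro n
        have h3 := Real.add_one_le_exp (δ / 2 * ((n : ℝ) + 1) - 1)
        have h4 : Real.log (((n : ℝ) + 1) * (δ / 2)) ≤ ((n : ℝ) + 1) * (δ / 2) - 1 :=
          Real.log_le_sub_one_of_pos (by positivity)
        rw [Real.log_mul (by positivity) (by positivity)] at h4
        have h5 : Real.log (2 / δ) = -Real.log (δ / 2) := by
          rw [← Real.log_inv, inv_div]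
        rw [h5]
        nlinarith
      have h6 : Tendsto (fun n : ℕ => (n : ℝ) * (δ / 2)) atTop atTop :=
        Tendsto.atTop_mul_const (by positivity) tendsto_natCast_atTop_atTop
      refine tendsto_atTop_mono (fun n => ?_) (tendsto_atTop_add_const_right atTop (-Real.log (2 / δ) - δ / 2) h6)
      have := h2 n
      linarith
    obtain ⟨N, hN⟩ := (h1.eventually_ge_atTop 1).exists_forall_of_atTop
    refine ⟨max N 1, le_max_right _ _, ?_⟩
    have := hN (max N 1) (le_max_left _ _)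
    linarith
  -- the event
  obtain ⟨S, hS⟩ : ∃ S : Finset Pt, S = (Finset.Icc (1 : ℤ) m) ×ˢ (Finset.Icc (0 : ℤ) m) := ⟨_, rfl⟩
  obtain ⟨q, hqd⟩ : ∃ q, q = μ.real {u | a ≤ u} := ⟨_, rfl⟩
  rw [← hqd] at hq
  have hq1 : q ≤ 1 := by rw [hqd]; exact measureReal_le_one
  have hprob : (law μ).real {η | ∀ p ∈ S, η ∈ {ξ : Env | a ≤ ξ p}} = q ^ S.card := by
    rw [indep_events (μ := μ) S (fun p => {ξ : Env | a ≤ ξ p}) (fun p => {p})
      (fun p _ => measurableSet_le measurable_const (measurable_pi_apply p))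
      (fun p _ η η' hh => by
        show a ≤ η p ↔ a ≤ η' p
        rw [hh p rfl]) (fun i _ j _ hij => Set.disjoint_singleton.2 hij)]
    have h1 : ∀ p ∈ S, (law μ).real {ξ : Env | a ≤ ξ p} = q := by
      intro p _
      rw [hqd]
      have h2 : MeasurePreserving (fun ξ : Env => ξ p) (law μ) μ := by
        unfold law
        exact measurePreserving_eval_infinitePi (fun _ => μ) p
      exact h2.measureReal_preimage (measurableSet_le measurable_const measurable_id).nullMeasurableSet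
    rw [Finset.prod_congr rfl h1, Finset.prod_const]
  refine ⟨m, q ^ S.card / (m + 1), hm1, by positivity, ?_, fun s => ?_⟩
  · rw [div_le_one (by positivity)]
    have h1 : q ^ S.card ≤ 1 := pow_le_one₀ hq.le hq1
    have h2 : (0 : ℝ) ≤ m := Nat.cast_nonneg _
    linarith
  by_contra hcon
  push Not at hcon
  have hsub : {η : Env | ∀ p ∈ S, η ∈ {ξ : Env | a ≤ ξ p}} ⊆
      ⋃ y ∈ Finset.Icc (0 : ℤ) m, {η | Real.exp 1 ≤ W μ s η 0 m y} := by
    intro η hη
    have h1 : m * δ ≤ V μ s η 0 m := by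
      refine V_ge_of_high s η (a := a) ?_ m fun i j hi hj => ?_
      · have h2 := lam_le_annealed hEM s
        rw [hδ]
        linarith
      · refine hη ((i : ℤ) + 1, (j : ℤ)) ?_
        rw [hS, Finset.mem_product, Finset.mem_Icc, Finset.mem_Icc]
        refine ⟨⟨?_, ?_⟩, ?_, ?_⟩ <;> push_cast <;> omega
    by_contra hno
    rw [Set.mem_iUnion₂] at hno
    push Not at hno
    have h2 : Real.exp (V μ s η 0 m) < (m + 1) * Real.exp 1 := by
      rw [exp_V]
      unfold WS
      have h3 : ∑ y ∈ Finset.Icc (0 : ℤ) m, W μ s η 0 m y < ∑ _y ∈ Finset.Icc (0 : ℤ) m, Real.exp 1 := by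
        refine Finset.sum_lt_sum_of_nonempty ⟨0, Finset.mem_Icc.2 ⟨le_rfl, Int.natCast_nonneg m⟩⟩ fun y hy => ?_
        have h4 := hno y hy
        exact not_le.1 h4
      rw [Finset.sum_const, Int.card_Icc, nsmul_eq_mul] at h3
      have h5 : (((m : ℤ) + 1 - 0).toNat : ℝ) = m + 1 := by
        have : ((m : ℤ) + 1 - 0).toNat = m + 1 := by omega
        rw [this]
        push_cast
        ring
      rwa [h5] at h3
    have h3 : V μ s η 0 m < Real.log ((m + 1) * Real.exp 1) := by
      rw [← Real.log_exp (V μ s η 0 m)]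
      exact Real.log_lt_log (Real.exp_pos _) h2
    rw [Real.log_mul (by positivity) (by positivity), Real.log_exp] at h3
    linarith
  have h1 : q ^ S.card ≤ ∑ y ∈ Finset.Icc (0 : ℤ) m, (law μ).real {η | Real.exp 1 ≤ W μ s η 0 m y} := by
    rw [← hprob]
    exact (measureReal_mono hsub (measure_ne_top _ _)).trans (measureReal_biUnion_finset_le _ _)
  have h2 : ∑ y ∈ Finset.Icc (0 : ℤ) m, (law μ).real {η | Real.exp 1 ≤ W μ s η 0 m y} <
      ∑ _y ∈ Finset.Icc (0 : ℤ) m, q ^ S.card / (m + 1) := by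
    refine Finset.sum_lt_sum_of_nonempty ⟨0, Finset.mem_Icc.2 ⟨le_rfl, Int.natCast_nonneg m⟩⟩ fun y hy => ?_
    rw [Finset.mem_Icc] at hy
    exact hcon y hy.1 hy.2
  rw [Finset.sum_const, Int.card_Icc, nsmul_eq_mul] at h2
  have h5 : (((m : ℤ) + 1 - 0).toNat : ℝ) = m + 1 := by
    have : ((m : ℤ) + 1 - 0).toNat = m + 1 := by omega
    rw [this]
    push_cast
    ring
  rw [h5, mul_div_cancel₀ _ (by positivity)] at h2
  linarith

/-- `k` blocks in a row. -/
theorem V_blocks (s : ℝ) (m : ℕ) (y : ℤ) {p0 : ℝ}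
    (hp : p0 ≤ (law μ).real {η | Real.exp 1 ≤ W μ s η 0 m y}) (hp0 : 0 ≤ p0) (k : ℕ) :
    p0 ^ k ≤ (law μ).real {η | (k : ℝ) ≤ V μ s η 0 (k * m)} := by
  classical
  obtain ⟨b, hb⟩ : ∃ b : ℕ → Pt, b = fun i => (((i * m : ℕ) : ℤ), (i : ℤ) * y) := ⟨_, rfl⟩
  have hb1 : ∀ i, (b i).1 = ((i * m : ℕ) : ℤ) := fun i => by rw [hb]
  have hm : ∀ i, MeasurableSet {η : Env | Real.exp 1 ≤ W μ s η (b i) m y} := fun i =>
    measurableSet_le measurable_const (measurable_W _ _ _)
  have hind := indep_events (μ := μ) (Finset.range k) (fun i => {η : Env | Real.exp 1 ≤ W μ s η (b i) m y})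
    (fun i => rows ((i * m : ℕ) : ℤ) (((i + 1) * m : ℕ) : ℤ)) (fun i _ => hm i)
    (fun i _ η η' hh => by
      have h2 : W μ s η (b i) m y = W μ s η' (b i) m y := by
        refine W_dep_rows (b i) m y fun p hpp => hh p ?_
        rw [hb1] at hpp
        refine ⟨hpp.1, ?_⟩
        have := hpp.2
        push_cast at this ⊢
        linarith
      show Real.exp 1 ≤ W μ s η (b i) m y ↔ Real.exp 1 ≤ W μ s η' (b i) m y
      rw [h2])
    (fun i _ j _ hij => by
      rcases lt_or_gt_of_ne hij with h | h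
      · refine rows_disj ?_
        have : (i + 1) * m ≤ j * m := Nat.mul_le_mul_right _ h
        exact_mod_cast this
      · refine (rows_disj ?_).symm
        have : (j + 1) * m ≤ i * m := Nat.mul_le_mul_right _ h
        exact_mod_cast this)
  have heach : ∀ i ∈ Finset.range k, p0 ≤ (law μ).real {η : Env | Real.exp 1 ≤ W μ s η (b i) m y} := by
    intro i _
    have h2 := real_sh (μ := μ) (b i) (E := {η : Env | Real.exp 1 ≤ W μ s η 0 m y})
      (measurableSet_le measurable_const (measurable_W _ _ _))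
    have h3 : {η : Env | sh (b i) η ∈ {η : Env | Real.exp 1 ≤ W μ s η 0 m y}} =
        {η : Env | Real.exp 1 ≤ W μ s η (b i) m y} := by
      ext η
      show Real.exp 1 ≤ W μ s (sh (b i) η) 0 m y ↔ Real.exp 1 ≤ W μ s η (b i) m y
      rw [W_sh, zero_add]
    rw [h3] at h2
    rw [h2]
    exact hp
  have hprod : p0 ^ k ≤ ∏ i ∈ Finset.range k, (law μ).real {η : Env | Real.exp 1 ≤ W μ s η (b i) m y} := by
    have h2 := Finset.prod_le_prod (s := Finset.range k) (f := fun _ => p0)
      (g := fun i => (law μ).real {η : Env | Real.exp 1 ≤ W μ s η (b i) m y}) (fun _ _ => hp0) heach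
    rwa [Finset.prod_const, Finset.card_range] at h2
  rw [← hind] at hprod
  refine hprod.trans (measureReal_mono fun η hη => ?_)
  have key : ∀ j : ℕ, j ≤ k → Real.exp j ≤ W μ s η 0 (j * m) ((j : ℤ) * y) := by
    intro j
    induction j with
    | zero =>
      intro _
      unfold W WR
      simp [Zr]
    | succ j ih =>
      intro hj
      have h2 := ih (by omega)
      have h3 : Real.exp 1 ≤ W μ s η (b j) m y := hη j (Finset.mem_range.2 (by omega))
      have h4 := W_mul_le (μ := μ) (s := s) η 0 (j * m) m ((j : ℤ) * y) y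
      have h5 : (((0 : Pt).1 + (j * m : ℕ), (0 : Pt).2 + (j : ℤ) * y) : Pt) = b j := by
        rw [hb]
        ext
        · show (0 : ℤ) + ((j * m : ℕ) : ℤ) = ((j * m : ℕ) : ℤ)
          ring
        · show (0 : ℤ) + (j : ℤ) * y = (j : ℤ) * y
          ring
      rw [h5] at h4
      have h6 : (j + 1) * m = j * m + m := by ring
      have h7 : ((j + 1 : ℕ) : ℤ) * y = (j : ℤ) * y + y := by push_cast; ring
      rw [h6, h7]
      refine le_trans ?_ h4
      push_cast
      rw [Real.exp_add]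
      exact mul_le_mul h2 h3 (Real.exp_pos _).le (W_nonneg _ _ _ _)
  have h2 := key k le_rfl
  show (k : ℝ) ≤ V μ s η 0 (k * m)
  have h3 : W μ s η 0 (k * m) ((k : ℤ) * y) ≤ Real.exp (V μ s η 0 (k * m)) := by
    have h4 := WS_le_exp_V (μ := μ) (s := s) η 0 (k * m) {(k : ℤ) * y}
    unfold WS at h4
    rwa [Finset.sum_singleton] at h4
  exact Real.exp_le_exp.1 (h2.trans h3)

/-- `c log n ≤ EU n`, all tilts, all reference displacements. -/
theorem log_le_EU (hEM : Pool.Agent.W_7d29a1_h47.EM μ) (hnd : Pool.Agent.W_7d29a1_h47.Nondeg μ) :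
    ∃ c : ℝ, 0 < c ∧ ∀ (s : ℝ) (z : ℕ → ℤ), (∀ m, 0 ≤ z m ∧ z m ≤ m) → ∀ n : ℕ, 1 ≤ n →
      c * Real.log n ≤ EU μ s z n := by
  obtain ⟨m, p0, hm, hp0, hp1, hblock⟩ := exists_block hEM hnd
  have hm0 : (0 : ℝ) < m := by exact_mod_cast hm
  obtain ⟨L, hL⟩ : ∃ L : ℝ, L = 1 - Real.log p0 := ⟨_, rfl⟩
  have hlp : Real.log p0 ≤ 0 := Real.log_nonpos hp0.le hp1
  have hL0 : 1 ≤ L := by rw [hL]; linarith
  obtain ⟨c, hc⟩ : ∃ c : ℝ, c = 1 / (2 * (L + m)) := ⟨_, rfl⟩
  have hc0 : 0 < c := by rw [hc]; positivity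
  have hcL : c * (2 * (L + m)) = 1 := by
    rw [hc]
    field_simp
  refine ⟨c / 6, by positivity, fun s z hz n hn => ?_⟩
  have hn0 : (0 : ℝ) < n := by exact_mod_cast hn
  have hlog : 0 ≤ Real.log n := Real.log_nonneg (by exact_mod_cast hn)
  obtain ⟨k, hk⟩ : ∃ k : ℕ, k = ⌊c * Real.log n⌋₊ := ⟨_, rfl⟩
  have hk1 : (k : ℝ) ≤ c * Real.log n := by
    rw [hk]
    exact Nat.floor_le (by positivity)
  have hk2 : c * Real.log n < k + 1 := by
    rw [hk]
    exact Nat.lt_floor_add_one _
  obtain ⟨y, -, -, hpy⟩ := hblock s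
  have hV := V_blocks s m y hpy hp0.le k
  have hpk : 0 < p0 ^ k := by positivity
  -- `n p0 ^ k ≥ √n ≥ k m`
  have h1 : Real.exp (Real.log n / 2) ≤ n * p0 ^ k := by
    have h2 : (n : ℝ) * p0 ^ k = Real.exp (Real.log n + k * Real.log p0) := by
      rw [Real.exp_add, Real.exp_log hn0, Real.exp_nat_mul, Real.exp_log hp0]
    rw [h2]
    refine Real.exp_le_exp.2 ?_
    have h3 : -(c * Real.log n * L) ≤ k * Real.log p0 := by
      have h4 : Real.log p0 = 1 - L := by rw [hL]; ring
      rw [h4]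
      nlinarith
    have h5 : c * L ≤ 1 / 2 := by nlinarith
    nlinarith
  have h2 : (k * m : ℝ) ≤ Real.exp (Real.log n / 2) := by
    have h3 := Real.add_one_le_exp (Real.log n / 2)
    have h4 : (k * m : ℝ) ≤ Real.log n / 2 := by
      have h5 : (k * m : ℝ) ≤ c * Real.log n * m := mul_le_mul_of_nonneg_right hk1 hm0.le
      have h6 : c * m ≤ 1 / 2 := by nlinarith
      nlinarith
    linarith
  have h3 : (k : ℝ) ≤ 6 * (EU μ s z n - 1) := by
    by_contra hcon
    rw [not_le] at hcon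
    have h4 := luck_rare hEM s (k * m) n z (fun j _ => hz j) (A := EU μ s z n - 1) (Y := k)
      (fun j hj => ref_le_EU hj) hcon
    have h5 : ∫ η, io ((k : ℝ) ≤ V μ s η 0 (k * m)) ∂(law μ) = (law μ).real {η | (k : ℝ) ≤ V μ s η 0 (k * m)} := by
      classical
      have e : (fun η : Env => io ((k : ℝ) ≤ V μ s η 0 (k * m))) =
          Set.indicator {η | (k : ℝ) ≤ V μ s η 0 (k * m)} fun _ => (1 : ℝ) := by
        funext η
        by_cases hp : (k : ℝ) ≤ V μ s η 0 (k * m)
        · rw [io_of hp, Set.indicator_of_mem (show η ∈ {η | (k : ℝ) ≤ V μ s η 0 (k * m)} from hp)]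
        · rw [io_not hp, Set.indicator_of_notMem (show η ∉ {η | (k : ℝ) ≤ V μ s η 0 (k * m)} from hp)]
      rw [e, integral_indicator (measurableSet_le measurable_const (measurable_V _ _)), setIntegral_const, smul_eq_mul,
        mul_one]
    rw [h5] at h4
    rcases h4 with h4 | h4
    · have h6 : (n : ℝ) * p0 ^ k ≤ n * (law μ).real {η | (k : ℝ) ≤ V μ s η 0 (k * m)} :=
        mul_le_mul_of_nonneg_left hV hn0.le
      push_cast at h4
      linarith
    · linarith
  linarith

/-- `c log n ≤ E(n)` for the unit of direction `0`. -/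
theorem log_le_EE (hEM : Pool.Agent.W_7d29a1_h47.EM μ) (hnd : Pool.Agent.W_7d29a1_h47.Nondeg μ) :
    ∃ c : ℝ, 0 < c ∧ ∀ n : ℕ, 1 ≤ n → c * Real.log n ≤ EE μ n := by
  obtain ⟨c, hc, h⟩ := log_le_EU hEM hnd
  exact ⟨c, hc, fun n hn => h 0 md (fun m => ⟨md_nonneg m, md_le m⟩) n hn⟩

/-- The unit of direction `0` tends to infinity. -/
theorem EE_tendsto (hEM : Pool.Agent.W_7d29a1_h47.EM μ) (hnd : Pool.Agent.W_7d29a1_h47.Nondeg μ) :
    Tendsto (EE μ) atTop atTop := by
  obtain ⟨c, hc, h⟩ := log_le_EE hEM hnd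
  have h1 : Tendsto (fun n : ℕ => c * Real.log n) atTop atTop :=
    (Real.tendsto_log_atTop.comp tendsto_natCast_atTop_atTop).const_mul_atTop hc
  refine tendsto_atTop_mono' atTop ?_ h1
  filter_upwards [eventually_ge_atTop 1] with n hn using h n hn

end Pool.Agent.W_7d29a1_G
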