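import Pool.Agent.W_7d29a1_G.TubeFlatA
import Pool.Agent.W_7d29a1_G.OctDefs
import Pool.Agent.W_7d29a1_h57g.TubeLine

/-!
MP_7d29a1_pr, track G, last step, part (i): in a window in which the unit grows slowly and the cone does not close there
is a cheap thin tube with the slope of the cone, at all durations `H 2 ^ x`.
-/

namespace Pool.Agent.W_7d29a1_G

open MeasureTheory ProbabilityTheory Filter Topology
open Pool.Agent.W_7d29a1_F Pool.Agent.W_7d29a1_g Pool.Agent.W_7d29a1_h4g Pool.Agent.W_7d29a1_h57g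

variable {μ : Measure ℝ} [IsProbabilityMeasure μ]

/-- **The cheap tube of a flat window.** -/
theorem tube_flat (hμ : Pool.Agent.W_7d29a1_h47.EM μ) (hnd : Pool.Agent.W_7d29a1_h47.Nondeg μ)
    {A1 : ℝ} (hA1 : 1 < A1) (hIN : EdgeIn μ 1 A1)
    (hlog : ∃ C : ℝ, ∀ n : ℕ, 1 ≤ n → Real.log n ≤ C * EE μ n) :
    ∃ (C7 c7 : ℝ) (H0 : ℕ), 0 < C7 ∧ 0 < c7 ∧ ∀ H : ℕ, H0 ≤ H → ∀ D : ℝ, 0 < D → ∃ (L x1 : ℕ) (d : ℝ), 0 < d ∧
      ∀ x : ℕ, x1 ≤ x → (∀ j : ℕ, j ≤ L → gg μ (x + j) ≤ gg μ x + 3 / 4 * j) → ff μ 1 (x + L) < ff μ 1 x + d →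
      ∃ (v w : ℝ) (R : Set Pt) (z : ℤ), c7 * vA μ 1 (2 ^ x) ≤ v ∧ v ≤ 1 / 2 ∧ 0 ≤ w ∧ w ≤ D * (v * 2 ^ x) ∧
        (0 : Pt) ∈ R ∧ R ⊆ Tube 0 (1 / 2 + v) w ∧ HasPath R 0 (H * 2 ^ x) z ∧
        eR μ 0 R 0 (H * 2 ^ x) z ≤ C7 * EE μ (H * 2 ^ x) := by
  obtain ⟨Ci, c1, n0, hCi, hIN⟩ : ∃ (Ci c1 : ℝ) (n0 : ℕ), 1 ≤ Ci ∧ ∀ n : ℕ, n0 ≤ n → ∀ y : ℝ, 0 ≤ y →
      vA μ A1 n ≤ (1 + y) * vA μ 1 n → ∀ z : ℤ, |(z : ℝ) - n / 2| ≤ (1 - Ci * y) * vA μ 1 n * n →
      e μ 0 n z ≤ c1 * EE μ n := by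
    obtain ⟨Ci, c1, n0, hCi, -, hIN⟩ := hIN
    refine ⟨Ci + 1, c1, n0, by linarith, fun n hn y hy h1 z hz => hIN n hn z (hz.trans ?_)⟩
    have h2 : (0 : ℝ) ≤ n := Nat.cast_nonneg n
    refine mul_le_mul_of_nonneg_right ?_ h2
    have h3 := vA_nonneg hμ one_pos.le n (μ := μ)
    have h4 : Ci * (vA μ A1 n - vA μ 1 n) ≤ Ci * (y * vA μ 1 n) :=
      mul_le_mul_of_nonneg_left (by linarith) hCi
    clear * - h4 hy h3
    nlinarith [mul_nonneg hy h3]
  obtain ⟨Cl, hlog⟩ := hlog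
  obtain ⟨K, hK1, hKc, hKl⟩ : ∃ K : ℝ, 1 ≤ K ∧ 2 * max c1 0 ≤ K ∧ 4 * max Cl 0 ≤ K :=
    ⟨max 1 (max (2 * max c1 0) (4 * max Cl 0)), le_max_left _ _, (le_max_left _ _).trans (le_max_right _ _),
      (le_max_right _ _).trans (le_max_right _ _)⟩
  obtain ⟨T, C, hC1, htube⟩ := tube_line hμ hnd (ε := 1 / 2) (K := K) (by norm_num) hK1
  obtain ⟨i0, hi0⟩ := pow_unbounded_of_one_lt (32 * A1) (show (1 : ℝ) < 2 by norm_num)
  obtain ⟨K3, hK3⟩ : ∃ K3 : ℝ, K3 = C * 2 ^ T + 1 := ⟨_, rfl⟩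
  have h2T : (1 : ℝ) ≤ 2 ^ T := one_le_pow₀ (by norm_num)
  have hK30 : 0 < K3 := by rw [hK3]; positivity
  have hA : 0 < A1 - 1 := by linarith
  obtain ⟨κ, hκ⟩ : ∃ κ : ℝ, κ = 2 * Ci + 1 + K3 / (A1 - 1) := ⟨_, rfl⟩
  have hκ1 : 1 ≤ κ := by
    rw [hκ]
    have : 0 ≤ K3 / (A1 - 1) := by positivity
    linarith
  refine ⟨C * 2 ^ T, 1 / 4, 16 ^ i0, by positivity, by norm_num, fun H hH D hD => ?_⟩
  have hH1 : 1 ≤ H := le_trans (Nat.one_le_pow _ _ (by norm_num)) hH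
  have hHr : (1 : ℝ) ≤ H := by exact_mod_cast hH1
  obtain ⟨y, hy0, hyC, hyD, hyκ⟩ : ∃ y : ℝ, 0 < y ∧ y ≤ 1 / (4 * Ci) ∧ y ≤ D / (8 * H * κ) ∧ y ≤ 1 / (4 * κ) :=
    ⟨min (1 / (4 * Ci)) (min (D / (8 * H * κ)) (1 / (4 * κ))), by positivity, min_le_left _ _,
      (min_le_right _ _).trans (min_le_left _ _), (min_le_right _ _).trans (min_le_right _ _)⟩
  have hCiy : Ci * y ≤ 1 / 4 := by
    rw [le_div_iff₀ (by positivity)] at hyC
    linarith
  have hy1 : y ≤ 1 / 4 := by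
    refine le_trans ?_ hCiy
    exact le_mul_of_one_le_left hy0.le (by linarith)
  have hκy : κ * y ≤ 1 / 4 := by
    rw [le_div_iff₀ (by positivity)] at hyκ
    linarith
  have hHκy : 2 * H * κ * y ≤ D / 4 := by
    rw [le_div_iff₀ (by positivity)] at hyD
    linarith
  -- thresholds
  obtain ⟨n1, hn1⟩ := eventually_atTop.1 (((vA_tendsto hμ hnd one_pos.le).eventually
    (eventually_le_nhds (show (0 : ℝ) < 1 / 8 by norm_num))).and
    ((nvA_tendsto hμ hnd one_pos).eventually (eventually_ge_atTop (2 * (1 / y + 4 / D + 1)))))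
  refine ⟨4 * (2 * H), max n0 (max n1 2), Real.logb 2 (1 + y), Real.logb_pos one_lt_two (by linarith),
    fun x hx hslow hflat => ?_⟩
  have hx0 : n0 ≤ x := (le_max_left _ _).trans hx
  have hx1 : n1 ≤ x := (le_max_left _ _).trans ((le_max_right _ _).trans hx)
  have hx2 : 2 ≤ x := (le_max_right _ _).trans ((le_max_right _ _).trans hx)
  have hpow : ∀ k : ℕ, k ≤ 2 ^ k := fun k => Nat.lt_two_pow_self.le
  obtain ⟨v0, hv0⟩ : ∃ v0, v0 = vA μ 1 (2 ^ x) := ⟨_, rfl⟩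
  obtain ⟨vL, hvL⟩ : ∃ vL, vL = vA μ 1 (2 ^ (x + 4 * (2 * H))) := ⟨_, rfl⟩
  have hv0' := hn1 (2 ^ x) (hx1.trans (hpow x))
  rw [← hv0] at hv0'
  have hvL8 : vL ≤ 1 / 8 := by
    rw [hvL]
    exact (hn1 _ ((hx1.trans (Nat.le_add_right _ _)).trans (hpow _))).1
  have hvL0 : 0 < vL := by rw [hvL]; exact vA_pos hμ one_pos _
  have hv00 : 0 < v0 := by rw [hv0]; exact vA_pos hμ one_pos _
  have hvv : v0 < (1 + y) * vL := by
    have h1 := hflat
    unfold ff at h1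
    rw [← hv0, ← hvL] at h1
    have h2 : Real.logb 2 v0 < Real.logb 2 ((1 + y) * vL) := by
      rw [Real.logb_mul (by positivity) hvL0.ne']
      linarith
    exact (Real.logb_lt_logb_iff one_lt_two hv00 (by positivity)).1 h2
  obtain ⟨n, hn⟩ : ∃ n : ℕ, n = H * 2 ^ x := ⟨_, rfl⟩
  have h2x : 4 ≤ 2 ^ x := by
    calc 4 = 2 ^ 2 := by norm_num
      _ ≤ 2 ^ x := Nat.pow_le_pow_right (by norm_num) hx2
  have h2xn : 2 ^ x ≤ n := by
    rw [hn]
    exact Nat.le_mul_of_pos_left _ hH1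
  have hn4 : 4 ≤ n := h2x.trans h2xn
  have h2xr : (2 : ℝ) ^ x ≤ n := by exact_mod_cast h2xn
  have hn4r : (4 : ℝ) ≤ n := by exact_mod_cast hn4
  have hnH : (n : ℝ) = H * 2 ^ x := by rw [hn]; push_cast; ring
  have h2x0 : (0 : ℝ) < 2 ^ x := by positivity
  -- the absolute width
  have hbig : 1 / y + 4 / D + 1 ≤ vL * 2 ^ x := by
    have h1 := hv0'.2
    push_cast at h1
    have h3 : (2 : ℝ) ^ x * v0 ≤ 2 ^ x * (2 * vL) := mul_le_mul_of_nonneg_left
      (hvv.le.trans (mul_le_mul_of_nonneg_right (by linarith) hvL0.le)) h2x0.le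
    linarith
  have hby : 1 ≤ y * (vL * 2 ^ x) := by
    have h1 : 1 / y ≤ vL * 2 ^ x := by
      have : 0 < 4 / D := by positivity
      linarith
    rw [div_le_iff₀ hy0] at h1
    linarith
  have hbD : 1 ≤ D / 4 * (vL * 2 ^ x) := by
    have h1 : 4 / D ≤ vL * 2 ^ x := by
      have : 0 < 1 / y := by positivity
      linarith
    rw [div_le_iff₀ hD] at h1
    linarith
  have hb4 : 4 ≤ vL * 2 ^ x := by
    have h3 : 4 ≤ 1 / y := by
      rw [le_div_iff₀ hy0]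
      linarith
    have h4 : 0 < 4 / D := by positivity
    linarith
  have hbn : 4 ≤ vL * n := hb4.trans (mul_le_mul_of_nonneg_left h2xr hvL0.le)
  -- flatness at all the times of the octave
  have hfl : ∀ t : ℕ, n ≤ t → t ≤ 2 * n → vL ≤ vA μ 1 t ∧ vA μ A1 t ≤ v0 := by
    intro t h1 h2
    rw [hvL, hv0]
    refine flat_vA hμ hnd (by linarith) hi0 hH (l := 2 * H) (hpow (2 * H)) (by rw [← hv0]; linarith [hv0'.1])
      hslow (by rw [← hn]; exact h1) (by rw [← hn]; exact h2)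
  have hE0 := one_le_EE (μ := μ) n
  have hE2 := EE_two hμ n
  obtain ⟨B, hB⟩ : ∃ B : ℝ, B = 2 ^ T * EE μ n := ⟨_, rfl⟩
  have hBE : EE μ n ≤ B := by rw [hB]; exact le_mul_of_one_le_left (by linarith) h2T
  have hEB : EU μ 0 md (2 ^ T * n) ≤ B := by
    have h1 := EE_mul hμ (2 ^ T) n Nat.one_le_two_pow
    push_cast at h1
    rw [hB]
    exact h1
  obtain ⟨v, hv⟩ : ∃ v : ℝ, v = (1 - 2 * Ci * y) * vL := ⟨_, rfl⟩
  obtain ⟨W, hW⟩ : ∃ W : ℝ, W = κ * y * vL * (2 * n) + 1 := ⟨_, rfl⟩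
  have hvle : v ≤ vL := by
    rw [hv]
    exact mul_le_of_le_one_left hvL0.le (by linarith [mul_nonneg (by linarith : (0:ℝ) ≤ Ci) hy0.le])
  have hvge : vL / 2 ≤ v := by
    have h1 : 1 / 2 * vL ≤ (1 - 2 * Ci * y) * vL := mul_le_mul_of_nonneg_right (by linarith) hvL0.le
    rw [hv]
    linarith
  have hW1 : 1 ≤ W := by
    rw [hW]
    have : 0 ≤ κ * y * vL * (2 * n) := by positivity
    linarith
  have hWD : W ≤ D * (v * 2 ^ x) := by
    have h1 : κ * y * vL * (2 * n) ≤ D / 4 * (vL * 2 ^ x) := by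
      rw [hnH]
      calc κ * y * vL * (2 * (H * 2 ^ x)) = 2 * H * κ * y * (vL * 2 ^ x) := by ring
        _ ≤ D / 4 * (vL * 2 ^ x) := mul_le_mul_of_nonneg_right hHκy (by positivity)
    have h2 : D / 4 * (vL * 2 ^ x) + D / 4 * (vL * 2 ^ x) ≤ D * (v * 2 ^ x) := by
      calc D / 4 * (vL * 2 ^ x) + D / 4 * (vL * 2 ^ x) = D * (vL / 2 * 2 ^ x) := by ring
        _ ≤ D * (v * 2 ^ x) := by gcongr
    rw [hW]
    linarith
  have hWn : W + 1 ≤ v * (2 * n) := by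
    have h3 : κ * y * vL * (2 * n) ≤ 1 / 4 * (vL * (2 * n)) := by
      calc κ * y * vL * (2 * n) = κ * y * (vL * (2 * n)) := by ring
        _ ≤ 1 / 4 * (vL * (2 * n)) := mul_le_mul_of_nonneg_right hκy (by positivity)
    have h4 : vL / 2 * (2 * n) ≤ v * (2 * n) := mul_le_mul_of_nonneg_right hvge (by positivity)
    rw [hW]
    linarith
  have hcheap : ∀ (m : ℕ) (y' : ℤ), n ≤ m → m ≤ 2 * n → |(y' : ℝ) - m / 2| ≤ v * m + 1 → e μ 0 m y' ≤ K * B := by
    intro m y' h1 h2 h3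
    have h4 := hfl m h1 h2
    have hm : (n : ℝ) ≤ m := by exact_mod_cast h1
    have h5 := hIN m (hx0.trans ((hpow x).trans (h2xn.trans h1))) y hy0.le
      (h4.2.trans (hvv.le.trans (mul_le_mul_of_nonneg_left h4.1 (by linarith)))) y' ?_
    · have h6 : EE μ m ≤ 2 * EE μ n := (EE_mono h2).trans hE2
      have h7 := one_le_EE (μ := μ) m
      have h8 : 0 ≤ max c1 0 := le_max_right _ _
      calc e μ 0 m y' ≤ c1 * EE μ m := h5
        _ ≤ max c1 0 * EE μ m := mul_le_mul_of_nonneg_right (le_max_left _ _) (by linarith)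
        _ ≤ max c1 0 * (2 * EE μ n) := mul_le_mul_of_nonneg_left h6 h8
        _ = 2 * max c1 0 * EE μ n := by ring
        _ ≤ K * EE μ n := mul_le_mul_of_nonneg_right hKc (by linarith)
        _ ≤ K * B := mul_le_mul_of_nonneg_left hBE (by linarith)
    · refine h3.trans ?_
      have h9 : (1 - Ci * y) * vL * m ≤ (1 - Ci * y) * vA μ 1 m * m :=
        mul_le_mul_of_nonneg_right (mul_le_mul_of_nonneg_left h4.1 (by linarith)) (by linarith)
      have h10 : 1 ≤ Ci * (y * (vL * m)) := by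
        have h11 : vL * 2 ^ x ≤ vL * m := mul_le_mul_of_nonneg_left (h2xr.trans hm) hvL0.le
        have h12 : 1 ≤ y * (vL * m) := hby.trans (mul_le_mul_of_nonneg_left h11 hy0.le)
        exact h12.trans (le_mul_of_one_le_left (zero_le_one.trans h12) hCi)
      have h13 : v * m + Ci * (y * (vL * m)) = (1 - Ci * y) * vL * m := by rw [hv]; ring
      linarith
  have hcase := htube 0 md (fun m => ⟨md_nonneg m, md_le m⟩) (1 / 2 + v) W B n (by linarith) (by linarith) hW1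
    (by omega) hEB ?_ ?_ ?_ ?_
  · obtain ⟨-, -, h3, h4⟩ := hcase
    refine ⟨v, W, Tube 0 (1 / 2 + v) W, ⌊(1 / 2 + v) * (n : ℝ)⌋, ?_, by linarith, by linarith, hWD,
      mem_Tube_self 0 _ (by linarith), Set.Subset.rfl, ?_, ?_⟩
    · rw [← hv0]
      have h1 : (1 + y) * vL ≤ 2 * vL := mul_le_mul_of_nonneg_right (by linarith) hvL0.le
      linarith
    · rw [← hn]
      exact h3
    · rw [← hn]
      refine h4.trans (le_of_eq ?_)
      rw [hB]
      ring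
  · have h1 := hlog (4 * n) (by omega)
    push_cast at h1
    have h2 : EE μ (4 * n) ≤ 4 * EE μ n := by
      have := EE_mul hμ 4 n (by norm_num)
      exact_mod_cast this
    have h3 : 0 ≤ max Cl 0 := le_max_right _ _
    calc Real.log (4 * n) ≤ Cl * EE μ (4 * n) := h1
      _ ≤ max Cl 0 * EE μ (4 * n) :=
        mul_le_mul_of_nonneg_right (le_max_left _ _) (by linarith [one_le_EE (μ := μ) (4 * n)])
      _ ≤ max Cl 0 * (4 * EE μ n) := mul_le_mul_of_nonneg_left h2 h3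
      _ = 4 * max Cl 0 * EE μ n := by ring
      _ ≤ K * EE μ n := mul_le_mul_of_nonneg_right hKl (by linarith)
      _ ≤ K * B := mul_le_mul_of_nonneg_left hBE (by linarith)
  · intro m y' h1 h2 _ _ h3
    refine hcheap m y' h1 h2 ?_
    have h4 := abs_le.1 h3
    have h5 : 0 ≤ v * m := by
      have := Nat.cast_nonneg (α := ℝ) m
      have : 0 ≤ v := by linarith
      positivity
    rw [abs_le]
    clear * - h4 h5
    constructor <;> linarith [h4.1, h4.2]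
  · intro y' h3
    push_cast at h3
    have h4 := abs_le.1 h3
    have e1 : (1 / 2 + v) * (2 * (n : ℝ)) = n + v * (2 * n) := by ring
    rw [e1] at h4
    have hv8 : v * (2 * n) ≤ 1 / 8 * (2 * n) := mul_le_mul_of_nonneg_right (by linarith) (by linarith)
    have h0 : (0 : ℝ) ≤ y' := by linarith [h4.1]
    have h1 : (y' : ℝ) ≤ 2 * n := by linarith [h4.2]
    refine ⟨by exact_mod_cast h0, by push_cast; exact_mod_cast h1, ?_⟩
    refine hcheap (2 * n) y' (by omega) le_rfl ?_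
    push_cast
    rw [abs_le]
    constructor <;> linarith [h4.1, h4.2]
  · intro y' h3
    push_cast at h3
    have h4 := abs_le.1 h3
    have e1 : (1 / 2 + v) * (2 * (n : ℝ)) = n + v * (2 * n) := by ring
    rw [e1] at h4
    have hv8 : v * (2 * n) ≤ 1 / 8 * (2 * n) := mul_le_mul_of_nonneg_right (by linarith) (by linarith)
    have h0 : (0 : ℝ) ≤ y' := by linarith [h4.1]
    have h1 : (y' : ℝ) ≤ 2 * n := by linarith [h4.2]
    have h0' : (0 : ℤ) ≤ y' := by exact_mod_cast h0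
    have h1' : y' ≤ ((2 * n : ℕ) : ℤ) := by push_cast; exact_mod_cast h1
    have h5 := J_le_e hμ (n := 2 * n) (y := y') (by omega) h0' h1'
    obtain ⟨u, hu⟩ : ∃ u : ℝ, u = ((y' : ℝ) - ((2 * n : ℕ) : ℝ) / 2) / ((2 * n : ℕ) : ℝ) := ⟨_, rfl⟩
    rw [← hu] at h5
    have hu2 : u * (2 * n) = y' - n := by
      rw [hu]
      push_cast
      field_simp
    have h2n := hfl (2 * n) (by omega) le_rfl
    have hu3 : (1 + y + K3 * y / (A1 - 1)) * vL ≤ u := by
      have h6 : (1 + y + K3 * y / (A1 - 1)) * vL * (2 * n) ≤ u * (2 * n) := by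
        have h7 : (1 + y + K3 * y / (A1 - 1)) * vL * (2 * n) = v * (2 * n) + κ * y * vL * (2 * n) := by
          rw [hv, hκ]
          ring
        rw [h7, hu2]
        rw [hW] at h4
        linarith [h4.1]
      exact le_of_mul_le_mul_right h6 (by linarith)
    have hu4 : u ≤ 1 / 2 := by
      have h6 : u * (2 * n) ≤ 1 / 2 * (2 * n) := by rw [hu2]; linarith
      exact le_of_mul_le_mul_right h6 (by linarith)
    have h60 : (1 + y) * vL ≤ 2 * vL := mul_le_mul_of_nonneg_right (by linarith) hvL0.le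
    have h6 := hard_side hμ hA1 hy0 hvL0 h2n.1 (h2n.2.trans hvv.le) (by linarith) hK30.le hu3 hu4
    have h7 : EE μ n ≤ EE μ (2 * n) := EE_mono (by omega)
    calc C * B = C * 2 ^ T * EE μ n := by rw [hB]; ring
      _ < K3 * EE μ n := by
        rw [hK3]
        clear * - hE0
        linarith
      _ ≤ K3 * EE μ (2 * n) := mul_le_mul_of_nonneg_left h7 hK30.le
      _ ≤ ((2 * n : ℕ) : ℝ) * J μ u := h6
      _ ≤ e μ 0 (2 * n) y' := h5

end Pool.Agent.W_7d29a1_G
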