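import Pool.Agent.W_7d29a1_G.FinG
import Pool.Agent.W_7d29a1_G.TubeFlat
import Pool.Agent.W_7d29a1_G.LogEE

/-!
Track G (MP_7d29a1_pr): the hypothesis `hF2` of the interface, from the inner edge of the cone (`EdgeIn`). (helper70)
-/

namespace Pool.Agent.W_7d29a1_G

open MeasureTheory ProbabilityTheory Pool.Agent.W_7d29a1_F
open Pool.Agent.W_7d29a1_h47 (EM Nondeg)

variable {μ : Measure ℝ} [IsProbabilityMeasure μ]

theorem logEE (hEM : EM μ) (hnd : Nondeg μ) : LogEE μ := by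
  obtain ⟨c, hc, h⟩ := log_le_EE hEM hnd
  refine ⟨1 / c, by positivity, fun n hn => ?_⟩
  rw [one_div, ← div_eq_inv_mul, le_div_iff₀ hc, mul_comm]
  exact h n hn

/-- **`hF2`.** -/
theorem HF2_edge (hEM : EM μ) (hnd : Nondeg μ) {A1 : ℝ} (hA1 : 1 < A1) (hIN : EdgeIn μ 1 A1) : HF2 μ :=
  HF2_of hEM hnd (tube_flat hEM hnd hA1 hIN ((logEE hEM hnd).imp fun _ h => h.2)) (logEE hEM hnd)

end Pool.Agent.W_7d29a1_G
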