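import Pool.Agent.W_7d29a1_G.HI1
import Pool.Agent.W_7d29a1_G.FrDefs
import Pool.Agent.W_7d29a1_G.D4Defs

/-!
MP_7d29a1_pr, track G, (I1) on the frame: `FTilt μ → HI1 μ`.
-/

namespace Pool.Agent.W_7d29a1_G

open MeasureTheory ProbabilityTheory Filter Topology Pool.Agent.W_7d29a1_F Pool.Agent.W_7d29a1_h4g

variable {μ : Measure ℝ} [IsProbabilityMeasure μ]

/-- The exponential moment of the luck of one start. -/
theorem fV_of (hμ : Pool.Agent.W_7d29a1_h47.EM μ) (h : FTilt μ) : FV μ := by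
  obtain ⟨c, C, n0, hc, h⟩ := h 1
  refine ⟨c, C, n0, hc, fun n hn m hm => ?_⟩
  refine le_trans ?_ (h n hn m (by omega))
  have hE := EE_pos (μ := μ) n
  have hw : 0 ≤ wA μ n := mul_nonneg (vA_nonneg hμ one_pos.le n) (Nat.cast_nonneg n)
  obtain ⟨b, hb⟩ : ∃ b : ℝ, b = c * EE μ n / wA μ n := ⟨_, rfl⟩
  have hb0 : 0 ≤ b := by rw [hb]; positivity
  rw [← hb]
  obtain ⟨θ, hθ⟩ : ∃ θ : ℝ, θ = c / EE μ n := ⟨_, rfl⟩
  have hθ0 : 0 < θ := by rw [hθ]; positivity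
  rw [← hθ]
  have hVe : ∀ η, Real.exp (V μ 0 η 0 m) = ∑ y ∈ Finset.Icc (0 : ℤ) m, W μ 0 η 0 m y := fun η => by
    have h1 : 0 < WS μ 0 η 0 m (Finset.Icc (0 : ℤ) m) := by
      unfold WS
      exact Finset.sum_pos (fun y hy => W_pos (μ := μ) (s := 0) η 0 (Finset.mem_Icc.1 hy).1 (Finset.mem_Icc.1 hy).2)
        ⟨0, Finset.mem_Icc.2 ⟨le_rfl, by positivity⟩⟩
    unfold V
    rw [Real.exp_log h1]
    rfl
  have hlow : ∀ η, Real.exp (V μ 0 η 0 m) ≤
      ∑ y ∈ Finset.Icc (0 : ℤ) m, W μ 0 η 0 m y * Real.exp (b * |(y : ℝ) - m / 2|) := fun η => by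
    rw [hVe]
    refine Finset.sum_le_sum fun y _ => ?_
    have h1 : 1 ≤ Real.exp (b * |(y : ℝ) - m / 2|) := Real.one_le_exp (by positivity)
    have h2 := W_nonneg (μ := μ) (s := 0) η 0 m y
    nlinarith
  have hup : ∀ η, ∑ y ∈ Finset.Icc (0 : ℤ) m, W μ 0 η 0 m y * Real.exp (b * |(y : ℝ) - m / 2|) ≤
      Real.exp (b * m) * Real.exp (V μ 0 η 0 m) := fun η => by
    rw [hVe, Finset.mul_sum]
    refine Finset.sum_le_sum fun y hy => ?_
    rw [Finset.mem_Icc] at hy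
    have h0 : (0 : ℝ) ≤ y := by exact_mod_cast hy.1
    have h1 : (y : ℝ) ≤ m := by exact_mod_cast hy.2
    have h2 : |(y : ℝ) - m / 2| ≤ m := abs_le.2 ⟨by linarith, by linarith⟩
    rw [mul_comm]
    exact mul_le_mul_of_nonneg_right (Real.exp_le_exp.2 (mul_le_mul_of_nonneg_left h2 hb0))
      (W_nonneg _ _ _ _)
  have hmeas : Measurable fun η : Env => Real.log (∑ y ∈ Finset.Icc (0 : ℤ) m,
      W μ 0 η 0 m y * Real.exp (b * |(y : ℝ) - m / 2|)) :=
    Real.measurable_log.comp (Finset.measurable_sum _ fun y _ => (measurable_W 0 m y).mul_const _)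
  have hint : Integrable (fun η : Env => Real.exp (θ * Real.log (∑ y ∈ Finset.Icc (0 : ℤ) m,
      W μ 0 η 0 m y * Real.exp (b * |(y : ℝ) - m / 2|)))) (law μ) := by
    refine ((((Sub_V (μ := μ) (s := 0) 0 m).const_mul θ).exp_int hμ).const_mul (Real.exp (θ * (b * m)))).mono'
      (Real.measurable_exp.comp (hmeas.const_mul θ)).aestronglyMeasurable
      (Eventually.of_forall fun η => ?_)
    rw [Real.norm_of_nonneg (Real.exp_pos _).le, ← Real.exp_add]
    refine Real.exp_le_exp.2 ?_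
    have h1 := Real.log_le_log (lt_of_lt_of_le (Real.exp_pos _) (hlow η)) (hup η)
    rw [Real.log_mul (Real.exp_pos _).ne' (Real.exp_pos _).ne', Real.log_exp, Real.log_exp] at h1
    nlinarith
  refine integral_mono (((Sub_V (μ := μ) (s := 0) 0 m).const_mul θ).exp_int hμ) hint fun η => ?_
  refine Real.exp_le_exp.2 (mul_le_mul_of_nonneg_left ?_ hθ0.le)
  have h1 := Real.log_le_log (Real.exp_pos _) (hlow η)
  rwa [Real.log_exp] at h1

/-- **(I1)** from the frame. -/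
theorem hI1_of (hμ : Pool.Agent.W_7d29a1_h47.EM μ) (h : FTilt μ) : HI1 μ := by
  obtain ⟨α, x0, -, h1⟩ := EE_le_Em hμ (fV_of hμ h)
  refine ⟨α, x0, fun z hz hS => (h1 z hz hS).trans (le_of_eq (by ring))⟩

end Pool.Agent.W_7d29a1_G
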