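import Pool.Agent.W_7d29a1_G.Oct52

/-!
MP_7d29a1_pr, track G, D4 (row 619), section 7: the tube of one octave from the tube lemma for straight lines, and the octave.
-/

namespace Pool.Agent.W_7d29a1_G

open MeasureTheory ProbabilityTheory Filter Topology Pool.Agent.W_7d29a1_F Pool.Agent.W_7d29a1_h4g
open Pool.Agent.W_7d29a1_g (Em Em_mono Em_nonneg Tube tube_growth HasPath eR)

variable {μ : Measure ℝ} [IsProbabilityMeasure μ]

theorem o52_pow_EE (hEM : Pool.Agent.W_7d29a1_h47.EM μ) (k n : ℕ) : EE μ (2 ^ k * n) ≤ 2 ^ k * EE μ n := by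
  have h := EE_mul hEM (2 ^ k) n Nat.one_le_two_pow
  push_cast at h
  exact h

theorem tubeHyp52 (hEM : Pool.Agent.W_7d29a1_h47.EM μ) (hnd : Pool.Agent.W_7d29a1_h47.Nondeg μ) {A0 A1 : ℝ}
    (hA0 : 0 < A0) (hA : A0 < A1) : TubeHyp μ A0 A1 := by
  intro c1 hc1
  obtain ⟨T0, C, hC, h⟩ := Pool.Agent.W_7d29a1_h57g.tube_line (μ := μ) hEM hnd (ε := 1 / 4) (K := 2 * c1) (by norm_num)
    (by linarith)
  have h2p : (1 : ℝ) ≤ 2 ^ T0 := one_le_pow₀ (by norm_num)
  have hCp : 1 ≤ C * 2 ^ T0 := by nlinarith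
  have hAA : 0 < A1 - A0 := by linarith
  obtain ⟨C2, hC2⟩ : ∃ C2 : ℝ, C2 = (C * 2 ^ T0) / (A1 - A0) + 1 := ⟨_, rfl⟩
  have hC2a : 1 ≤ C2 := by
    rw [hC2]
    have : 0 < (C * 2 ^ T0) / (A1 - A0) := div_pos (by linarith) hAA
    linarith
  have hC2b : C2 * (A1 - A0) = C * 2 ^ T0 + (A1 - A0) := by
    rw [hC2]
    field_simp
  refine ⟨C2, C * 2 ^ T0, hC2a, hCp, fun T a b u D hT hlog ha hab hva hvb hv4 hu hu8 hD hDu hcheap hfar => ?_⟩
  have hTr : (4 : ℝ) ≤ T := by exact_mod_cast hT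
  have hB1 : EE μ (2 ^ T0 * T) ≤ 2 ^ T0 * EE μ T := o52_pow_EE hEM T0 T
  have hB2 : EE μ T ≤ EE μ (2 ^ T0 * T) := EE_mono (Nat.le_mul_of_pos_left T (by positivity))
  have hB3 : EE μ T ≤ EE μ (2 * T) := EE_mono (by omega)
  have hB4 := EE_two hEM T
  have hE1 := one_le_EE (μ := μ) T
  have hBK : c1 * EE μ (2 * T) ≤ 2 * c1 * EE μ (2 ^ T0 * T) := by
    have h1 : c1 * EE μ (2 * T) ≤ c1 * (2 * EE μ (2 ^ T0 * T)) :=
      mul_le_mul_of_nonneg_left (by linarith) (by linarith)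
    linarith
  have hB5 : C * EE μ (2 ^ T0 * T) ≤ C * 2 ^ T0 * EE μ (2 * T) := by
    have h1 : C * EE μ (2 ^ T0 * T) ≤ C * (2 ^ T0 * EE μ T) := mul_le_mul_of_nonneg_left hB1 (by linarith)
    have h2 : C * 2 ^ T0 * EE μ T ≤ C * 2 ^ T0 * EE μ (2 * T) := mul_le_mul_of_nonneg_left hB3 (by linarith)
    linarith
  obtain ⟨r1, r2, r3, r4⟩ := h 0 md (fun m => ⟨md_nonneg m, md_le m⟩) (1 / 2 + u) D (EE μ (2 ^ T0 * T)) T (by linarith)
    (by linarith) hD (by omega) le_rfl (by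
      have h1 : c1 * EE μ T ≤ 2 * c1 * EE μ (2 ^ T0 * T) := by
        have h2 : c1 * EE μ T ≤ c1 * EE μ (2 * T) := mul_le_mul_of_nonneg_left hB3 (by linarith)
        linarith
      linarith) (by
      intro m y hm1 hm2 _ _ hy
      refine (hcheap m y hm1 hm2 ?_).trans hBK
      rw [abs_le] at hy ⊢
      have : 0 ≤ u * m := by positivity
      constructor <;> linarith) (by
      intro y hy
      push_cast at hy
      rw [abs_le] at hy
      have h0u : 0 ≤ u * T := by positivity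
      have h8u : u * T ≤ 1 / 8 * T := mul_le_mul_of_nonneg_right hu8 (by linarith)
      have h1 : (0 : ℝ) ≤ y := by linarith
      have h2 : (y : ℝ) ≤ ((2 * T : ℕ) : ℤ) := by
        push_cast
        linarith
      refine ⟨by exact_mod_cast h1, by exact_mod_cast h2, (hcheap (2 * T) y (by omega) le_rfl ?_).trans hBK⟩
      push_cast
      rw [abs_le]
      constructor <;> linarith) (by
      intro y hy
      push_cast at hy
      rw [abs_le] at hy
      have h0u : 0 ≤ u * T := by positivity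
      have h8u : u * T ≤ 1 / 8 * T := mul_le_mul_of_nonneg_right hu8 (by linarith)
      have h1 : (0 : ℝ) ≤ y := by linarith
      have h2 : (y : ℝ) ≤ ((2 * T : ℕ) : ℤ) := by
        push_cast
        linarith
      have h3 := J_le_e hEM (n := 2 * T) (y := y) (by omega) (by exact_mod_cast h1) (by exact_mod_cast h2)
      push_cast at h2 h3
      have h4 : a + C2 * (b - a) ≤ ((y : ℝ) - 2 * T / 2) / (2 * T) := by
        refine hfar.trans ?_
        rw [le_div_iff₀ (by linarith), add_mul, div_mul_cancel₀ _ (by positivity)]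
        linarith
      have h5 : ((y : ℝ) - 2 * T / 2) / (2 * T) ≤ 1 / 2 := by
        rw [div_le_iff₀ (by linarith)]
        linarith
      have h6 := o52_far hEM hA0 hA (n := 2 * T) hv4 hC2a (s := ((y : ℝ) - 2 * T / 2) / (2 * T)) (by
        refine le_trans ?_ h4
        nlinarith) h5
      push_cast at h6
      have h7 : C * 2 ^ T0 * EE μ (2 * T) < (A0 + C2 * (A1 - A0)) * EE μ (2 * T) := by
        refine mul_lt_mul_of_pos_right ?_ (by linarith)
        rw [hC2b]
        linarith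
      linarith)
  exact ⟨r2, r3, r4.trans hB5⟩

/-- ONE OCTAVE (row 619, section 7): the hypotheses which are left are the edge at every scale and the inner edge. -/
theorem octave52 (hEM : Pool.Agent.W_7d29a1_h47.EM μ) (hnd : Pool.Agent.W_7d29a1_h47.Nondeg μ) {A0 A1 : ℝ}
    (hA0 : 0 < A0) (hA : A0 < A1) (hIN : EdgeIn μ A0 A1) (hInner : InnerE μ A0)
    (hlog : ∃ (Cl : ℝ) (n2 : ℕ), ∀ n : ℕ, n2 ≤ n → Real.log n ≤ Cl * EE μ n) : Octave μ A0 :=
  octave52' hEM hnd hA0 hA (tubeHyp52 hEM hnd hA0 hA) hIN hInner hlog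

end Pool.Agent.W_7d29a1_G
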