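import Pool.Agent.W_7d29a1_G.Main
import Pool.Agent.W_7d29a1_G.D4HS
import Pool.Agent.W_7d29a1_G.Oct52c
import Pool.Agent.W_7d29a1_G.HI1b
import Pool.Agent.W_7d29a1_G.HF2
import Pool.Agent.W_7d29a1_G.Frame2
import Pool.Agent.W_7d29a1_G.Frame3b
import Pool.Agent.W_7d29a1_G.Frame4
import Pool.Agent.W_7d29a1_G.Cone2
import Pool.Agent.W_7d29a1_h66.D7oct
import Pool.Agent.W_7d29a1_h71g.ConfPin
import Pool.Agent.W_7d29a1_h18.HEU

/-!
MP_7d29a1_pr, track G: the four targets from the frame (`FrOut`), the restart at a not soft scale (`ELout`), the inner edge on a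
stretch without soft scale (`InnerE`) and the insertion of slabs (`HB`).
-/

set_option autoImplicit false

namespace Pool.Agent.W_7d29a1_G

open MeasureTheory ProbabilityTheory Filter Topology Set Pool.Agent.W_7d29a1_F

variable {μ : Measure ℝ} [IsProbabilityMeasure μ]

theorem hlog92 (hμ : W_7d29a1_h47.EM μ) (hnd : W_7d29a1_h47.Nondeg μ) :
    ∃ (Cl : ℝ) (n2 : ℕ), ∀ n : ℕ, n2 ≤ n → Real.log n ≤ Cl * EE μ n := by
  obtain ⟨n0, h⟩ := W_7d29a1_h18.EE_log hμ hnd 1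
  exact ⟨1, n0, fun n hn => by have := h n hn; linarith⟩

/-- The section D7. -/
theorem hD7_of (hμ : W_7d29a1_h47.EM μ) (hnd : W_7d29a1_h47.Nondeg μ) (hI : FIn μ) (hI1 : HI1 μ)
    (hEL : W_7d29a1_h66.ELout μ) : HD7 μ := by
  obtain ⟨α1, z1, h1⟩ := hI1
  have h := W_7d29a1_h66.octave hμ hnd (W_7d29a1_h18.EE_tendsto hμ hnd) hI
    ⟨α1, z1, fun z hz hS => (h1 z hz hS).trans (by linarith)⟩ hEL
  intro s₀ hs₀
  obtain ⟨α, x₀, h2⟩ := h s₀ hs₀
  exact ⟨α, 0, x₀, fun z hz hS => h2 z hz (hS z le_rfl le_rfl)⟩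

/-- The targets from the open sections. -/
theorem targets_of (hμ : W_7d29a1_h47.EM μ) (hnd : W_7d29a1_h47.Nondeg μ) (hI : FIn μ) (hL : FLuck μ)
    (hEL : W_7d29a1_h66.ELout μ) (hInner : InnerE μ 1) (hB : ∃ α, HB μ α) : Targets μ := by
  have hT := fTilt_of_fLuck hμ hL
  have hI1 := hI1_of hμ hT
  have hE := (edges_of hμ hnd (W_7d29a1_h18.EE_tendsto hμ hnd) hI hL one_pos one_lt_two).1
  exact
    { hS := h93_HS hμ hnd le_rfl (octave52 hμ hnd one_pos one_lt_two hE hInner (hlog92 hμ hnd)) (hD7_of hμ hnd hI hI1 hEL) hI1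
      hB0 := ⟨3, W_7d29a1_h71g.hb0 hμ hnd⟩
      hB := hB
      hF2 := HF2_edge hμ hnd one_lt_two hE
      hEE := W_7d29a1_h18.EE_tendsto hμ hnd }

end Pool.Agent.W_7d29a1_G
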