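import Pool.Agent.W_7d29a1_G.D4Six
import Pool.Agent.W_7d29a1_G.FR0

/-!
MP_7d29a1_pr, track G, (I1): at a scale which is not soft the unit (the mean of `X⁺`) is at most twice the largest mean cost of
direction `0`. Input: the exponential moment of the luck of one start in the unit.
-/

namespace Pool.Agent.W_7d29a1_G

open MeasureTheory ProbabilityTheory Filter Topology Pool.Agent.W_7d29a1_F Pool.Agent.W_7d29a1_h4g
open Pool.Agent.W_7d29a1_g (Em e0_le_Em Em_nonneg)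

variable {μ : Measure ℝ} [IsProbabilityMeasure μ]

/-- The exponential moment of the luck of one start, in the unit, at every scale. -/
def FV (μ : Measure ℝ) : Prop :=
  ∃ (c C : ℝ) (n0 : ℕ), 0 < c ∧ ∀ n : ℕ, n0 ≤ n → ∀ m : ℕ, m ≤ n →
    ∫ η, Real.exp (c / EE μ n * V μ 0 η 0 m) ∂(law μ) ≤ C

/-- At a scale which is not soft the negative part of the cost is small. -/
theorem ep_le_of_not_Sf (hμ : Pool.Agent.W_7d29a1_h47.EM μ) {x : ℕ} {α c C K : ℝ} (hα : 0 ≤ α) (hc : 0 < c)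
    (hK : 0 ≤ K) (hS : ¬ Sf μ x α) {m : ℕ} (hm : m ≤ 2 ^ x)
    (hV : ∫ η, Real.exp (c / EE μ (2 ^ x) * V μ 0 η 0 m) ∂(law μ) ≤ C) :
    ep μ m (md m) ≤ e μ 0 m (md m) + ((2 : ℝ) ^ (-α) * (1 + K / c) + Real.exp (-K) * C / c) * EE μ (2 ^ x) := by
  have hE := one_le_EE (μ := μ) (2 ^ x)
  obtain ⟨E, hEE⟩ : ∃ E, E = EE μ (2 ^ x) := ⟨_, rfl⟩
  rw [← hEE] at hE hV ⊢
  have hE0 : 0 < E := by linarith
  have h0 := md_nonneg m
  have h1 := md_le m
  have iX : Integrable (fun η => X μ 0 η 0 m (md m)) (law μ) := int_X hμ 0 h0 h1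
  have hen := e_nonneg hμ (μ := μ) 0 h0 h1
  have hep : ep μ m (md m) ≤ E := by
    rw [hEE]
    exact ref_le_EE hm
  have hee : e μ 0 m (md m) ≤ E := (e_le_ep hμ h0 h1).trans hep
  have hlog : ∫ η, Real.log (W μ 0 η 0 m (md m)) ∂(law μ) = -e μ 0 m (md m) := by
    unfold e X
    rw [integral_neg, neg_neg]
  have h2α : (1 : ℝ) ≤ 2 ^ α := Real.one_le_rpow (by norm_num) hα
  have hna : (0 : ℝ) < 2 ^ (-α) := by positivity
  have hconc := conc_of_not_Sf hS (l := m) (by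
      have h2 : (m : ℝ) ≤ (2 : ℝ) ^ (x : ℝ) := by
        rw [Real.rpow_natCast]
        exact_mod_cast hm
      exact h2.trans (Real.rpow_le_rpow_of_exponent_le (by norm_num) (by linarith)))
    (poly_WR0 Set.univ m (md m)) (fun η => W_pos (μ := μ) (s := 0) η 0 h0 h1) (fun η => by
      have h3 := neg_X_le_V (μ := μ) (s := 0) η 0 h0 h1
      unfold X at h3
      rwa [neg_neg] at h3) (by
      show -((2 : ℝ) ^ α * EE μ (2 ^ x)) ≤ ∫ η, Real.log (W μ 0 η 0 m (md m)) ∂(law μ)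
      rw [hlog, ← hEE]
      nlinarith)
  change (law μ).real {η | (2 : ℝ) ^ (-α) * EE μ (2 ^ x) ≤ |Real.log (W μ 0 η 0 m (md m)) -
    ∫ ξ, Real.log (W μ 0 ξ 0 m (md m)) ∂(law μ)|} < (2 : ℝ) ^ (-α) at hconc
  rw [hlog, ← hEE] at hconc
  obtain ⟨S, hSd⟩ : ∃ S : Set Env, S = {η | (2 : ℝ) ^ (-α) * E ≤ |Real.log (W μ 0 η 0 m (md m)) - -e μ 0 m (md m)|} :=
    ⟨_, rfl⟩
  rw [← hSd] at hconc
  have hSm : MeasurableSet S := by
    rw [hSd]
    exact measurableSet_le measurable_const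
      (((Real.measurable_log.comp (measurable_W (μ := μ) (s := 0) 0 m (md m))).sub_const _).abs)
  have iV : Integrable (fun η => Real.exp (c / E * V μ 0 η 0 m)) (law μ) :=
    ((Sub_V (μ := μ) (s := 0) 0 m).const_mul (c / E)).exp_int hμ
  have iS : Integrable (S.indicator fun _ => (1 : ℝ)) (law μ) :=
    (integrable_const (1 : ℝ)).indicator hSm
  have hpt : ∀ η, max (X μ 0 η 0 m (md m)) 0 ≤ X μ 0 η 0 m (md m) + (2 : ℝ) ^ (-α) * E +
      E / c * K * S.indicator (fun _ => (1 : ℝ)) η + E / c * Real.exp (-K) * Real.exp (c / E * V μ 0 η 0 m) := by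
    intro η
    have hexp0 := Real.exp_pos (c / E * V μ 0 η 0 m)
    have hEc : 0 < E / c := by positivity
    by_cases hη : η ∈ S
    · rw [Set.indicator_of_mem hη, mul_one]
      have h3 := neg_X_le_V (μ := μ) (s := 0) η 0 h0 h1
      have h4 := Real.add_one_le_exp (c / E * V μ 0 η 0 m - K)
      have h5 : Real.exp (-K) * Real.exp (c / E * V μ 0 η 0 m) = Real.exp (c / E * V μ 0 η 0 m - K) := by
        rw [← Real.exp_add]
        congr 1
        ring
      have h6 : V μ 0 η 0 m ≤ E / c * (K + Real.exp (c / E * V μ 0 η 0 m - K)) := by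
        have h7 : V μ 0 η 0 m = E / c * (c / E * V μ 0 η 0 m) := by
          field_simp
        calc V μ 0 η 0 m = E / c * (c / E * V μ 0 η 0 m) := h7
          _ ≤ _ := mul_le_mul_of_nonneg_left (by linarith) hEc.le
      have h8 : 0 ≤ E / c * (K + Real.exp (c / E * V μ 0 η 0 m - K)) :=
        mul_nonneg hEc.le (by positivity)
      have h9 : E / c * (K + Real.exp (c / E * V μ 0 η 0 m - K)) =
          E / c * K + E / c * Real.exp (-K) * Real.exp (c / E * V μ 0 η 0 m) := by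
        rw [mul_assoc (E / c) (Real.exp (-K)), h5]
        ring
      have h10 : 0 ≤ (2 : ℝ) ^ (-α) * E := by positivity
      refine max_le ?_ ?_ <;> linarith
    · rw [Set.indicator_of_notMem hη, mul_zero]
      have h3 : |Real.log (W μ 0 η 0 m (md m)) - -e μ 0 m (md m)| < (2 : ℝ) ^ (-α) * E := by
        rw [hSd] at hη
        exact not_le.1 hη
      have h4 := (abs_lt.1 h3).2
      have h5 : -X μ 0 η 0 m (md m) ≤ (2 : ℝ) ^ (-α) * E := by
        unfold X
        rw [neg_neg]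
        linarith
      have h6 : 0 ≤ E / c * Real.exp (-K) * Real.exp (c / E * V μ 0 η 0 m) := by positivity
      have h10 : 0 ≤ (2 : ℝ) ^ (-α) * E := by positivity
      refine max_le ?_ ?_ <;> linarith
  have hint : ep μ m (md m) ≤ e μ 0 m (md m) + (2 : ℝ) ^ (-α) * E + E / c * K * (law μ).real S +
      E / c * Real.exp (-K) * ∫ η, Real.exp (c / E * V μ 0 η 0 m) ∂(law μ) := by
    unfold ep
    refine (integral_mono (int_Xp hμ 0 h0 h1) (((iX.add (integrable_const _)).add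
      (iS.const_mul (E / c * K))).add (iV.const_mul (E / c * Real.exp (-K)))) hpt).trans (le_of_eq ?_)
    have e1 := integral_add ((iX.add (integrable_const ((2 : ℝ) ^ (-α) * E))).add (iS.const_mul (E / c * K)))
      (iV.const_mul (E / c * Real.exp (-K)))
    have e2 := integral_add (iX.add (integrable_const ((2 : ℝ) ^ (-α) * E))) (iS.const_mul (E / c * K))
    have e3 := integral_add iX (integrable_const (μ := law μ) ((2 : ℝ) ^ (-α) * E))
    have e4 : ∫ η, S.indicator (fun _ => (1 : ℝ)) η ∂(law μ) = (law μ).real S := by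
      rw [integral_indicator_const (1 : ℝ) hSm, smul_eq_mul, mul_one]
    simp only [Pi.add_apply] at e1 e2 e3 ⊢
    have e5 : ∫ η, E / c * K * S.indicator (fun _ => (1 : ℝ)) η ∂(law μ) = E / c * K * (law μ).real S := by
      rw [integral_const_mul, e4]
    have e6 : ∫ η, E / c * Real.exp (-K) * Real.exp (c / E * V μ 0 η 0 m) ∂(law μ) =
        E / c * Real.exp (-K) * ∫ η, Real.exp (c / E * V μ 0 η 0 m) ∂(law μ) := integral_const_mul _ _
    have e7 : ∫ _ : Env, (2 : ℝ) ^ (-α) * E ∂(law μ) = (2 : ℝ) ^ (-α) * E := by simp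
    rw [e1, e2, e3, e5, e6, e7]
    rfl
  have hEc : 0 < E / c := by positivity
  have h3 : E / c * K * (law μ).real S ≤ E / c * K * (2 : ℝ) ^ (-α) :=
    mul_le_mul_of_nonneg_left hconc.le (by positivity)
  have h4 : E / c * Real.exp (-K) * ∫ η, Real.exp (c / E * V μ 0 η 0 m) ∂(law μ) ≤ E / c * Real.exp (-K) * C :=
    mul_le_mul_of_nonneg_left hV (by positivity)
  refine hint.trans ?_
  have e5 : e μ 0 m (md m) + ((2 : ℝ) ^ (-α) * (1 + K / c) + Real.exp (-K) * C / c) * E =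
      e μ 0 m (md m) + (2 : ℝ) ^ (-α) * E + E / c * K * (2 : ℝ) ^ (-α) + E / c * Real.exp (-K) * C := by
    field_simp
    ring
  rw [e5]
  linarith

/-- **(I1)** -/
theorem EE_le_Em (hμ : Pool.Agent.W_7d29a1_h47.EM μ) (hF : FV μ) : ∃ (α : ℝ) (x0 : ℕ), 0 ≤ α ∧ ∀ x : ℕ, x0 ≤ x →
    ¬ Sf μ x α → EE μ (2 ^ x) ≤ 2 * (1 + Em μ (2 ^ x)) := by
  obtain ⟨c, C, n0, hc, hF⟩ := hF
  obtain ⟨K, hK0, hK⟩ : ∃ K : ℝ, 0 ≤ K ∧ Real.exp (-K) * C / c ≤ 1 / 4 := by
    refine ⟨max 0 (4 * C / c), le_max_left _ _, ?_⟩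
    rcases le_or_gt C 0 with hC | hC
    · have h1 : Real.exp (-(max 0 (4 * C / c))) * C / c ≤ 0 :=
        div_nonpos_of_nonpos_of_nonneg (mul_nonpos_of_nonneg_of_nonpos (Real.exp_pos _).le hC) hc.le
      linarith
    · have h2 : 4 * C / c ≤ Real.exp (max 0 (4 * C / c)) :=
        (le_max_right 0 _).trans ((by linarith [Real.add_one_le_exp (max 0 (4 * C / c))]))
      rw [Real.exp_neg, div_le_iff₀ hc, inv_mul_le_iff₀ (Real.exp_pos _)]
      rw [div_le_iff₀ hc] at h2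
      linarith
  obtain ⟨a, ha⟩ := pow_unbounded_of_one_lt (4 * (1 + K / c)) (show (1 : ℝ) < 2 by norm_num)
  refine ⟨a, n0, Nat.cast_nonneg a, fun x hx hS => ?_⟩
  have hE := one_le_EE (μ := μ) (2 ^ x)
  have h1 : (2 : ℝ) ^ (-(a : ℝ)) * (1 + K / c) ≤ 1 / 4 := by
    rw [Real.rpow_neg (by norm_num), Real.rpow_natCast, inv_mul_le_iff₀ (by positivity)]
    linarith
  have h2 : EE μ (2 ^ x) ≤ 1 + Em μ (2 ^ x) + 1 / 2 * EE μ (2 ^ x) := by
    refine EE_le fun m hm => ?_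
    have h3 := ep_le_of_not_Sf hμ (Nat.cast_nonneg a) hc hK0 hS hm
      (hF (2 ^ x) (hx.trans Nat.lt_two_pow_self.le) m hm)
    have h4 : e μ 0 m (md m) ≤ Em μ (2 ^ x) := by
      refine le_trans (le_of_eq ?_) (e0_le_Em hm)
      unfold Pool.Agent.W_7d29a1_g.e0 md
      norm_cast
    have h5 : ((2 : ℝ) ^ (-(a : ℝ)) * (1 + K / c) + Real.exp (-K) * C / c) * EE μ (2 ^ x) ≤
        1 / 2 * EE μ (2 ^ x) := mul_le_mul_of_nonneg_right (by linarith) (by linarith)
    linarith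
  linarith

end Pool.Agent.W_7d29a1_G
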