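import Pool.Agent.W_7d29a1_G.Iface
import Pool.Agent.W_7d29a1_G.Soft1

/-!
Track G (MP_7d29a1_pr): the targets `HG` and `HV` of the interface. (helper4)
-/

namespace Pool.Agent.W_7d29a1_G

open MeasureTheory ProbabilityTheory Filter Topology Pool.Agent.W_7d29a1_F Pool.Agent.W_7d29a1_h4g

variable {μ : Measure ℝ} [IsProbabilityMeasure μ]

/-- Growth at soft scales. -/
theorem HG_all (hEM : Pool.Agent.W_7d29a1_h47.EM μ) (hnd : Pool.Agent.W_7d29a1_h47.Nondeg μ)
    (hEE : Tendsto (EE μ) atTop atTop) : HG μ := fun a => hG1 hEM hnd hEE a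

/-- Upper bound of the unit at soft scales. -/
theorem HV_all (hEM : Pool.Agent.W_7d29a1_h47.EM μ) : HV μ := fun a => hV1 hEM a

end Pool.Agent.W_7d29a1_G
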