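import Pool.Agent.W_7d29a1_G.InnerFin52a
import Pool.Agent.W_7d29a1_G.FinM

/-!
MP_7d29a1_pr, track G, D4 (row 619), section 4, (4.1): THE INNER EDGE on a stretch without soft scale, from `inner4` (numbers).
-/

namespace Pool.Agent.W_7d29a1_G

open MeasureTheory ProbabilityTheory Filter Topology Pool.Agent.W_7d29a1_F Pool.Agent.W_7d29a1_h4g
open Pool.Agent.W_7d29a1_g (Em Em_mono Em_nonneg exists_Em Geo)

variable {μ : Measure ℝ} [IsProbabilityMeasure μ]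

theorem i52_lev (c : ℝ) : ∃ α₀ : ℝ, ∀ α : ℝ, α₀ ≤ α → c ≤ (2 : ℝ) ^ α := by
  refine ⟨Real.logb 2 (max c 1), fun α hα => ?_⟩
  have h1 : (0 : ℝ) < max c 1 := lt_of_lt_of_le one_pos (le_max_right _ _)
  exact (le_max_left _ _).trans ((Real.logb_le_iff_le_rpow one_lt_two h1).1 hα)

theorem i52_lev' {κ : ℝ} (hκ : 0 < κ) : ∃ α₀ : ℝ, ∀ α : ℝ, α₀ ≤ α → (2 : ℝ) ^ (-α) ≤ κ := by
  obtain ⟨α₀, h⟩ := i52_lev (1 / κ)
  refine ⟨α₀, fun α hα => ?_⟩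
  rw [Real.rpow_neg two_pos.le]
  have h3 := inv_anti₀ (by positivity) (h α hα)
  rwa [one_div, inv_inv] at h3

theorem i52_pow_EE (hEM : Pool.Agent.W_7d29a1_h47.EM μ) (k n : ℕ) : EE μ (2 ^ k * n) ≤ 2 ^ k * EE μ n := by
  have h := EE_mul hEM (2 ^ k) n Nat.one_le_two_pow
  push_cast at h
  exact h

theorem i52_Em_le (hEM : Pool.Agent.W_7d29a1_h47.EM μ) {m n : ℕ} (h : m ≤ n) : Em μ m ≤ EE μ n := by
  obtain ⟨k, hk, h1⟩ := exists_Em (μ := μ) m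
  have e1 : md k = ((k / 2 : ℕ) : ℤ) := by
    unfold md
    push_cast
    rfl
  have h2 := i52_center (μ := μ) hEM (hk.trans h)
  rw [e1] at h2
  rw [h1]
  exact h2

/-- The last step of both walls. -/
theorem i52_win (hEM : Pool.Agent.W_7d29a1_h47.EM μ) {A0 A1 : ℝ} (hA0 : 0 < A0) (hA : A0 < A1) {N t : ℕ} {V0 δ R Q : ℝ} {y : ℤ}
    (hR1 : 1 ≤ R) (hu4 : vA μ A1 N ≤ 1 / 4) (hvV0 : vA μ A0 N ≤ V0) (hwδ : vA μ A1 N - vA μ A0 N ≤ δ) (hV0 : 0 ≤ V0)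
    (hδ0 : 0 ≤ δ) (b1 : (t : ℝ) / 2 + V0 * t + R * δ * N ≤ y) (b2 : (y : ℝ) ≤ t) (ht1 : 1 ≤ t) (htN : t ≤ N)
    (hRQ : R * (A1 - A0) = Q + (A1 - A0)) :
    0 ≤ md t ∧ md t ≤ t ∧ md t ≤ y ∧ (Q - 1) * EE μ N ≤ e μ 0 t y - e μ 0 t (md t) := by
  have hN0 : (0 : ℝ) ≤ N := Nat.cast_nonneg N
  have ht0 : (0 : ℝ) ≤ t := Nat.cast_nonneg t
  have hRδ : R * (vA μ A1 N - vA μ A0 N) * N ≤ R * δ * N :=
    mul_le_mul_of_nonneg_right (mul_le_mul_of_nonneg_left hwδ (by linarith)) hN0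
  have d1 : 0 ≤ V0 * t := by positivity
  have d2 : 0 ≤ R * δ * N := by positivity
  have b3 : y ≤ (t : ℤ) := by
    have : (y : ℝ) ≤ ((t : ℤ) : ℝ) := by
      rw [Int.cast_natCast]
      exact b2
    exact_mod_cast this
  have b5 : (t : ℤ) ≤ 2 * y := by
    have : ((t : ℤ) : ℝ) ≤ ((2 * y : ℤ) : ℝ) := by
      push_cast
      linarith
    exact_mod_cast this
  have b6 := i52_wall hEM hA0 hA (N := N) hu4 hR1 (t := t) ht1 htN (y := y) (by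
    have d3 : vA μ A0 N * t ≤ V0 * t := mul_le_mul_of_nonneg_right hvV0 ht0
    linarith) b3
  refine ⟨md_nonneg t, md_le t, by unfold md; omega, ?_⟩
  have b7 := i52_center (μ := μ) hEM (t := t) (n := N) htN
  have b9 : R * (A1 - A0) * EE μ N = Q * EE μ N + (A1 - A0) * EE μ N := by rw [hRQ]; ring
  have hE1 := one_le_EE (μ := μ) N
  have b10 : 0 ≤ (A1 - A0) * EE μ N := mul_nonneg (by linarith) (by linarith)
  linarith

omit [IsProbabilityMeasure μ] in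
/-- The right wall (arithmetic). -/
theorem i52_arR {t N L M V0 δ R Ci lo Jw w : ℝ} (a1 : lo ≤ t / 2 + V0 * t - (1 + Ci + R) * δ * N)
    (a2 : t / 2 + V0 * t - (1 + Ci + R) * δ * N - 1 ≤ lo) (hJw1 : (1 + Ci + 2 * R) * δ * N ≤ Jw)
    (hJw2 : Jw ≤ (1 + Ci + 2 * R) * δ * N + 2 * w) (hwt : w ≤ V0 * t) (ht8 : 8 ≤ t) (htL : L ≤ 2 * t) (hM : 0 ≤ M)
    (hNM : N ≤ (M + 1) * L) (hR : 0 ≤ R) (hV0 : 0 ≤ V0) (hδ : δ ≤ V0) (hN0 : 0 ≤ N)
    (s2 : V0 * (8 * (5 + 2 * R * (M + 1))) ≤ 1) :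
    t / 2 + V0 * t + R * δ * N ≤ lo + Jw + 1 ∧ lo + Jw + 1 ≤ t := by
  constructor
  · linarith
  · have d1 : R * δ * N ≤ R * V0 * N := mul_le_mul_of_nonneg_right (mul_le_mul_of_nonneg_left hδ hR) hN0
    have d2 : R * V0 * N ≤ R * V0 * ((M + 1) * (2 * t)) :=
      mul_le_mul_of_nonneg_left (hNM.trans (mul_le_mul_of_nonneg_left htL (by linarith))) (by positivity)
    have c3 : V0 * (8 * (5 + 2 * R * (M + 1))) * t ≤ 1 * t := mul_le_mul_of_nonneg_right s2 (by linarith)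
    have c4 : 0 ≤ V0 * t := mul_nonneg hV0 (by linarith)
    linarith

omit [IsProbabilityMeasure μ] in
/-- The left wall (arithmetic). -/
theorem i52_arL {t u N L M V0 V1 δ R Ci lo z : ℝ} (a1 : lo ≤ t / 2 + V0 * t - (1 + Ci + R) * δ * N)
    (a2 : t / 2 + V0 * t - (1 + Ci + R) * δ * N - 1 ≤ lo) (hz1 : z ≤ N / 2 + (V1 - Ci * δ) * N)
    (hz2 : N / 2 + (V1 - Ci * δ) * N - 1 ≤ z) (hut : u + t = N) (ht0 : 0 ≤ t) (huL : L ≤ u) (hL : 16 ≤ L) (hM : 0 ≤ M)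
    (hNM : N ≤ (M + 1) * L) (hR : 0 ≤ R) (hCi : 0 ≤ Ci) (hV0 : 0 ≤ V0) (hδ : δ ≤ V0) (hδe : δ = V0 - V1)
    (s3 : V0 * (8 * (2 + Ci + R) * (M + 1)) ≤ 1) :
    u / 2 + V0 * u + R * δ * N ≤ z - (lo - 1) ∧ z - (lo - 1) ≤ u := by
  have hN0 : 0 ≤ N := by linarith
  have hδN : δ * N = V0 * N - V1 * N := by rw [hδe]; ring
  have d0 : V0 * u = V0 * N - V0 * t := by rw [← hut]; ring
  constructor
  · rw [d0]
    linarith
  · have c1 : V0 * (8 * (2 + Ci + R) * (M + 1)) * L ≤ 1 * L := mul_le_mul_of_nonneg_right s3 (by linarith)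
    have c2 : V0 * (2 + R) * N ≤ V0 * (2 + R) * ((M + 1) * L) := mul_le_mul_of_nonneg_left hNM (by positivity)
    have c3 : 0 ≤ V0 * Ci * ((M + 1) * L) := by positivity
    have c4 : R * δ * N ≤ R * V0 * N := mul_le_mul_of_nonneg_right (mul_le_mul_of_nonneg_left hδ hR) hN0
    have c5 : 0 ≤ V0 * t := by positivity
    have c6 : 0 ≤ V0 * N := by positivity
    linarith

/-- THE INNER EDGE AT ONE SCALE. `x` is the octave of the unit (`N ≤ 2 ^ x ≤ 4 N`), not soft at the level `α`. All constants are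
explicit hypotheses. -/
theorem i52_core (hEM : Pool.Agent.W_7d29a1_h47.EM μ) (hnd : Pool.Agent.W_7d29a1_h47.Nondeg μ) {A0 A1 : ℝ} (hA0 : 0 < A0)
    (hA : A0 < A1) {M : ℕ} (hM : 1 ≤ M) {Ci c1 κ θ : ℝ} (hCi : 0 ≤ Ci) (hc1 : 1 ≤ c1) (hκ : 0 < κ) (hκ1 : κ ≤ 1)
    (hθ : 0 < θ) (hθ1 : θ ≤ 1) :
    ∃ (R JM α₀ : ℝ), 1 ≤ R ∧ 1 ≤ JM ∧ ∀ (α : ℝ) (x L n' N : ℕ) (V0 V1 δ : ℝ), α₀ ≤ α → ¬ Sf μ x α → δ = V0 - V1 → 0 ≤ δ →
      0 < V1 → (Ci + 4) * δ ≤ V1 → V0 * (8 + 8 * (5 + 2 * R * (M + 1)) + 8 * (2 + Ci + R) * (M + 1)) ≤ 1 →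
      V1 ≤ vA μ A0 N → vA μ A1 N ≤ V0 → N = (M + 1) * (L - n') + n' → 2 * n' ≤ L → 16 ≤ L → 4 ≤ n' →
      δ * L ≤ V1 * n' → V1 * n' ≤ δ * L + 1 → 2 ≤ θ * (V1 * n') → 4 ≤ δ * L → N ≤ 2 ^ x → 2 ^ x ≤ 4 * N →
      Real.log (2 * JM) ≤ κ * EE μ (2 ^ x) → Real.log 2 ≤ κ * EE μ (2 ^ x) →
      (∀ y : ℤ, |(y : ℝ) - N / 2| ≤ (V1 - Ci * δ) * N → e μ 0 N y ≤ c1 * EE μ N) →
      (∀ w : ℤ, 0 ≤ w → (w : ℝ) ≤ θ * (V1 * n') → e μ 0 n' (md n' + w) ≤ Em μ L + κ * EE μ (2 ^ x)) →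
      ∃ y : ℤ, 0 ≤ y ∧ y ≤ L ∧ (∀ Ce : ℝ, 4 ≤ (Ce - Ci - 1) * (δ * L) → (V1 - Ce * δ) * L ≤ (y : ℝ) - L / 2) ∧
        e μ 0 L y ≤ Em μ L + (c1 + 1) / (M + 1) * EE μ (2 ^ x) + 5 * (κ * EE μ (2 ^ x)) := by
  have hMr : (1 : ℝ) ≤ M := by exact_mod_cast hM
  obtain ⟨T₀, Cw, hin⟩ := Pool.Agent.W_7d29a1_g.Geo.inner4 hEM hnd (pw := 1 / (8 * M)) (by positivity)
  have hAA : 0 < A1 - A0 := by linarith
  obtain ⟨Q, hQ⟩ : ∃ Q : ℝ, Q = 2 + 8 * (c1 + 1) + 8 * M + |Cw| + 6 * 2 ^ T₀ := ⟨_, rfl⟩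
  have hCw := abs_nonneg Cw
  have h2T : (0 : ℝ) < 2 ^ T₀ := by positivity
  have hQ0 : 0 < Q := by rw [hQ]; positivity
  obtain ⟨R, hR⟩ : ∃ R : ℝ, R = Q / (A1 - A0) + 1 := ⟨_, rfl⟩
  have hR1 : 1 ≤ R := by
    rw [hR]
    have : 0 < Q / (A1 - A0) := div_pos hQ0 hAA
    linarith
  have hRQ : R * (A1 - A0) = Q + (A1 - A0) := by
    rw [hR]
    field_simp
  obtain ⟨Γ, hΓ⟩ : ∃ Γ : ℝ, Γ = 1 + Ci + 2 * R := ⟨_, rfl⟩
  have hΓ1 : 1 ≤ Γ := by rw [hΓ]; linarith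
  obtain ⟨JM, hJM⟩ : ∃ JM : ℝ, JM = 4 * Γ * (M + 1) / θ + 2 := ⟨_, rfl⟩
  have hJM1 : 1 ≤ JM := by
    rw [hJM]
    have : 0 ≤ 4 * Γ * (M + 1) / θ := by positivity
    linarith
  obtain ⟨p, hp⟩ : ∃ p : ℝ, p = 1 / (16 * (M + 1) * JM ^ 2) := ⟨_, rfl⟩
  have hp0 : 0 < p := by rw [hp]; positivity
  obtain ⟨B, hB⟩ : ∃ B : ℝ, B = c1 + 4 + 5 * (M + 1) := ⟨_, rfl⟩
  have hB0 : 0 ≤ B := by rw [hB]; positivity
  obtain ⟨α1, hα10, hpc⟩ := i52_piece hEM hnd (p := p) (κ := κ) (B := B) hp0 hκ hB0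
  obtain ⟨α2, hα2⟩ := i52_lev (c1 + 2)
  obtain ⟨α3, hα3⟩ := i52_lev' hκ
  obtain ⟨α4, hα4⟩ := i52_lev' hp0
  obtain ⟨α5, hα5⟩ := i52_lev' (show (0 : ℝ) < 1 / 4 by norm_num)
  refine ⟨R, JM, max α1 (max α2 (max α3 (max α4 α5))), hR1, hJM1, ?_⟩
  intro α x L n' N V0 V1 δ hα hS hδ hδ0 hV10 hCiδ hV0 hV1N hV0N hN h2n hL16 hn4 hδV hVδ hθV hδL hNx hxN hlJ hl2 hIN href
  have hαa : α1 ≤ α := (le_max_left _ _).trans hα
  have hαb := hα2 α (((le_max_left _ _).trans (le_max_right _ _)).trans hα)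
  have hαc := hα3 α (((le_max_left _ _).trans ((le_max_right _ _).trans (le_max_right _ _))).trans hα)
  have hαd := hα4 α (((le_max_left _ _).trans ((le_max_right _ _).trans ((le_max_right _ _).trans (le_max_right _ _)))).trans hα)
  have hαe := hα5 α (((le_max_right _ _).trans ((le_max_right _ _).trans ((le_max_right _ _).trans (le_max_right _ _)))).trans hα)
  have hα0 : 0 ≤ α := hα10.trans hαa
  obtain ⟨L', hL'⟩ : ∃ L' : ℕ, L' = L - n' := ⟨_, rfl⟩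
  rw [← hL'] at hN
  have hLL : L' + n' = L := by omega
  have hNL : N = M * L' + L := by rw [hN, ← hLL]; ring
  obtain ⟨E, hE⟩ : ∃ E : ℝ, E = EE μ (2 ^ x) := ⟨_, rfl⟩
  rw [← hE] at hlJ hl2 href ⊢
  have hE1 : 1 ≤ E := by rw [hE]; exact one_le_EE _
  have hEN1 := one_le_EE (μ := μ) N
  have hEN : EE μ N ≤ E := by rw [hE]; exact EE_mono hNx
  have hE4 : E ≤ 4 * EE μ N := by
    rw [hE]
    have h1 := EE_mul hEM 4 N (by norm_num)
    push_cast at h1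
    exact (EE_mono hxN).trans h1
  -- real forms
  have hLr : (16 : ℝ) ≤ L := by exact_mod_cast hL16
  have hn'r : (4 : ℝ) ≤ n' := by exact_mod_cast hn4
  have h2nr : 2 * (n' : ℝ) ≤ L := by exact_mod_cast h2n
  have hLLr : (L' : ℝ) + n' = L := by exact_mod_cast hLL
  have hNr : (N : ℝ) = M * L' + L := by exact_mod_cast hNL
  have hNr2 : (N : ℝ) = (M + 1) * L - M * n' := by rw [hNr, ← hLLr]; ring
  have hNM : (N : ℝ) ≤ (M + 1) * L := by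
    have : 0 ≤ (M : ℝ) * n' := by positivity
    linarith
  have hL'r : (L : ℝ) / 2 ≤ L' := by linarith
  have hN0 : (0 : ℝ) < N := by
    rw [hNr]
    positivity
  have hV01 : V1 ≤ V0 := by linarith
  have hV00 : 0 < V0 := by linarith
  have hM1 : (0 : ℝ) < M + 1 := by linarith
  have hM0 : (0 : ℝ) ≤ M := by linarith
  have hR0 : 0 ≤ R := by linarith
  -- smallness of the slopes
  have s1 : V0 * 8 ≤ 1 := by
    have h1 : 0 ≤ V0 * (8 * (5 + 2 * R * (M + 1)) + 8 * (2 + Ci + R) * (M + 1)) := by positivity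
    linarith only [h1, hV0]
  have s2 : V0 * (8 * (5 + 2 * R * (M + 1))) ≤ 1 := by
    have h1 : 0 ≤ V0 * (8 + 8 * (2 + Ci + R) * (M + 1)) := by positivity
    linarith only [h1, hV0]
  have s3 : V0 * (8 * (2 + Ci + R) * (M + 1)) ≤ 1 := by
    have h1 : 0 ≤ V0 * (8 + 8 * (5 + 2 * R * (M + 1))) := by positivity
    linarith only [h1, hV0]
  have hCiV : 4 * δ ≤ V1 - Ci * δ := by linarith
  have hCδ : 0 ≤ Ci * δ := by positivity
  have hδV0 : δ ≤ V0 := by linarith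
  -- the mesh
  obtain ⟨w, hw⟩ : ∃ w : ℕ, w = ⌊θ * (V1 * n')⌋₊ := ⟨_, rfl⟩
  have hw1 : (w : ℝ) ≤ θ * (V1 * n') := by rw [hw]; exact Nat.floor_le (by positivity)
  have hw2 : θ * (V1 * n') < w + 1 := by rw [hw]; exact Nat.lt_floor_add_one _
  have hw3 : θ * (V1 * n') / 2 ≤ w := by linarith
  have hw4 : (1 : ℝ) ≤ w := by linarith
  have hw5 : 1 ≤ w := by exact_mod_cast hw4
  have hw6 : (w : ℝ) ≤ V1 * n' := by
    have h1 : θ * (V1 * n') ≤ 1 * (V1 * n') := mul_le_mul_of_nonneg_right hθ1 (by positivity)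
    linarith
  have hw7 : (w : ℝ) ≤ n' / 8 := by
    have h1 : V1 * n' ≤ 1 / 8 * n' := mul_le_mul_of_nonneg_right (by linarith) (by linarith)
    linarith
  have hw0 : (0 : ℝ) < w := by linarith
  obtain ⟨J, hJ⟩ : ∃ J : ℕ, J = ⌈Γ * δ * N / w⌉₊ + 1 := ⟨_, rfl⟩
  have hJ1 : 1 ≤ J := by omega
  have hΓδ : 0 ≤ Γ * δ * N := by positivity
  have hJw1 : Γ * δ * N ≤ J * w := by
    have h1 : Γ * δ * N / w ≤ ⌈Γ * δ * N / w⌉₊ := Nat.le_ceil _
    rw [div_le_iff₀ hw0] at h1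
    have h2 : (J : ℝ) = ⌈Γ * δ * N / w⌉₊ + 1 := by rw [hJ]; push_cast; ring
    rw [h2, add_mul, one_mul]
    linarith only [h1, hw0]
  have hJr : (J : ℝ) ≤ Γ * δ * N / w + 2 := by
    have h1 : (⌈Γ * δ * N / w⌉₊ : ℝ) < Γ * δ * N / w + 1 := Nat.ceil_lt_add_one (by positivity)
    have h2 : (J : ℝ) = ⌈Γ * δ * N / w⌉₊ + 1 := by rw [hJ]; push_cast; ring
    rw [h2]
    linarith
  have hJw2 : (J : ℝ) * w ≤ Γ * δ * N + 2 * w := by
    have h1 := mul_le_mul_of_nonneg_right hJr hw0.le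
    rw [add_mul, div_mul_cancel₀ _ hw0.ne'] at h1
    exact h1
  have hJJM : (J : ℝ) ≤ JM := by
    have h1 : Γ * δ * N / w ≤ 4 * Γ * (M + 1) / θ := by
      rw [div_le_div_iff₀ hw0 hθ]
      have h2 : Γ * δ * N * θ ≤ Γ * δ * ((M + 1) * L) * θ := by gcongr
      have h3 : Γ * (M + 1) * θ * (δ * L) ≤ Γ * (M + 1) * θ * (V1 * n') := mul_le_mul_of_nonneg_left hδV (by positivity)
      have h4 : 4 * Γ * (M + 1) * (θ * (V1 * n') / 2) ≤ 4 * Γ * (M + 1) * w := mul_le_mul_of_nonneg_left hw3 (by positivity)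
      have h5 : 0 ≤ Γ * (M + 1) * θ * (V1 * n') := by positivity
      linarith
    rw [hJM]
    linarith
  -- the end point
  obtain ⟨z, hz⟩ : ∃ z : ℤ, z = ⌊(N : ℝ) / 2 + (V1 - Ci * δ) * N⌋ := ⟨_, rfl⟩
  have hz1 : (z : ℝ) ≤ N / 2 + (V1 - Ci * δ) * N := by rw [hz]; exact Int.floor_le _
  have hz2 : N / 2 + (V1 - Ci * δ) * N - 1 ≤ z := by
    have h1 : (N : ℝ) / 2 + (V1 - Ci * δ) * N < z + 1 := by rw [hz]; exact Int.lt_floor_add_one _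
    linarith
  have hLN : (L : ℝ) ≤ N := by
    rw [hNr]
    have : 0 ≤ (M : ℝ) * L' := by positivity
    linarith
  have hsN : 16 ≤ (V1 - Ci * δ) * N := by
    have h1 : 4 * (δ * L) ≤ 4 * δ * N := by
      have := mul_le_mul_of_nonneg_left hLN (show 0 ≤ 4 * δ by linarith)
      linarith
    have h2 := mul_le_mul_of_nonneg_right hCiV hN0.le
    linarith
  have hsN8 : (V1 - Ci * δ) * N ≤ V1 * N := mul_le_mul_of_nonneg_right (by linarith) hN0.le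
  have hV1N8 : V1 * N ≤ 1 / 8 * N := mul_le_mul_of_nonneg_right (by linarith) hN0.le
  have hz0 : 0 ≤ z := by
    have : (0 : ℝ) ≤ z := by linarith
    exact_mod_cast this
  have hzN : z ≤ N := by
    have : (z : ℝ) ≤ ((N : ℤ) : ℝ) := by
      rw [Int.cast_natCast]
      linarith
    exact_mod_cast this
  have hpathmean : e μ 0 N z ≤ c1 * EE μ N := hIN z (by
    rw [abs_le]
    constructor <;> linarith)
  -- the mean displacement of the pieces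
  obtain ⟨xx, hxx⟩ : ∃ xx : ℤ, xx = (z + M * md n') / (M + 1) := ⟨_, rfl⟩
  have hM1z : (0 : ℤ) < (M : ℤ) + 1 := by positivity
  have hxx1 : ((M : ℤ) + 1) * xx ≤ z + M * md n' := by
    rw [hxx]
    exact Int.mul_ediv_self_le hM1z.ne'
  have hxx2 : z + M * md n' < ((M : ℤ) + 1) * (xx + 1) := by
    rw [hxx]
    have := Int.lt_ediv_add_one_mul_self (z + M * md n') hM1z
    linarith
  have hxx1r : ((M : ℝ) + 1) * xx ≤ z + M * md n' := by exact_mod_cast hxx1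
  have hxx2r : (z : ℝ) + M * md n' ≤ ((M : ℝ) + 1) * (xx + 1) := by exact_mod_cast hxx2.le
  have hmd1 : (md n' : ℝ) ≤ n' / 2 := by
    have h1 : 2 * md n' ≤ n' := by unfold md; omega
    have h2 : (2 : ℝ) * (md n' : ℝ) ≤ n' := by exact_mod_cast h1
    linarith
  have hmd2 : ((n' : ℝ) - 1) / 2 ≤ md n' := by
    have h1 : (n' : ℤ) ≤ 2 * md n' + 1 := by unfold md; omega
    have h2 : (n' : ℝ) ≤ 2 * (md n' : ℝ) + 1 := by exact_mod_cast h1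
    linarith
  have hxlow : ∀ Ce : ℝ, 4 ≤ (Ce - Ci - 1) * (δ * L) → (V1 - Ce * δ) * L ≤ (xx : ℝ) - L / 2 := fun Ce hCe =>
    i52_x (M := M) (L := L) (N := N) (n' := n') (by linarith) hNr2 hCδ (by linarith) hVδ hz2 hmd2 hxx2r (by linarith) hCe
  have hx0r : (L : ℝ) / 2 ≤ xx := by
    have h1 := hxlow (Ci + 3) (by linarith)
    have h2 : 0 ≤ (V1 - (Ci + 3) * δ) * L := mul_nonneg (by linarith) (by linarith)
    linarith
  have hx1r : (xx : ℝ) + 1 ≤ L := by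
    have h1 : ((M : ℝ) + 1) * xx ≤ (M + 1) * (L / 2 + 1 / 8 * L) := by
      have h2 : (M : ℝ) * md n' ≤ M * (n' / 2) := mul_le_mul_of_nonneg_left hmd1 (by linarith)
      have h3 : 1 / 8 * (N : ℝ) ≤ 1 / 8 * ((M + 1) * L) := by linarith
      have h4 : (N : ℝ) / 2 = (M + 1) * L / 2 - M * n' / 2 := by rw [hNr2]; ring
      linarith
    have h5 := le_of_mul_le_mul_left h1 hM1
    linarith
  have hx0 : 0 ≤ xx := by
    have : (0 : ℝ) ≤ xx := by linarith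
    exact_mod_cast this
  have hx1 : xx + 1 ≤ (L : ℤ) := by
    have : ((xx + 1 : ℤ) : ℝ) ≤ ((L : ℤ) : ℝ) := by
      push_cast
      exact hx1r
    exact_mod_cast this
  have hxhalf : (L : ℤ) ≤ 2 * xx := by
    have : ((L : ℤ) : ℝ) ≤ ((2 * xx : ℤ) : ℝ) := by
      push_cast
      linarith
    exact_mod_cast this
  have hxmono : e μ 0 L xx ≤ e μ 0 L (xx + 1) := e_le_of_center hEM (by omega) hx1 (by
    rw [abs_of_nonneg (by omega), abs_of_nonneg (by omega)]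
    omega)
  -- the windows
  obtain ⟨lo, hlo⟩ : ∃ lo : ℕ → ℤ, lo = fun k => ⌊((k * L' : ℕ) : ℝ) / 2 + V0 * ((k * L' : ℕ) : ℝ) - (1 + Ci + R) * δ * N⌋ :=
    ⟨_, rfl⟩
  have hlo1 : ∀ k : ℕ, (lo k : ℝ) ≤ ((k * L' : ℕ) : ℝ) / 2 + V0 * ((k * L' : ℕ) : ℝ) - (1 + Ci + R) * δ * N := by
    intro k
    rw [hlo]
    exact Int.floor_le _
  have hlo2 : ∀ k : ℕ, ((k * L' : ℕ) : ℝ) / 2 + V0 * ((k * L' : ℕ) : ℝ) - (1 + Ci + R) * δ * N - 1 ≤ lo k := by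
    intro k
    have h1 : ((k * L' : ℕ) : ℝ) / 2 + V0 * ((k * L' : ℕ) : ℝ) - (1 + Ci + R) * δ * N < lo k + 1 := by
      rw [hlo]
      exact Int.lt_floor_add_one _
    linarith
  have hvu := vA_mono hEM hA0.le hA.le N
  have hu4 : vA μ A1 N ≤ 1 / 4 := by linarith
  have hwδ : vA μ A1 N - vA μ A0 N ≤ δ := by linarith
  have hvV0 : vA μ A0 N ≤ V0 := by linarith
  rw [hΓ] at hJw1 hJw2
  obtain ⟨C₃, hC₃⟩ : ∃ C₃ : ℝ, C₃ = c1 * EE μ N + κ * E := ⟨_, rfl⟩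
  obtain ⟨y, hy⟩ : ∃ y : ℝ, y = C₃ + Real.log (4 * M) := ⟨_, rfl⟩
  have hprice : max (max (2 * y) Cw) (6 * EE μ (2 ^ T₀ * N)) < (Q - 1) * EE μ N := by
    have hlog4 : Real.log (4 * M) ≤ 4 * M := by
      have := Real.log_le_sub_one_of_pos (show (0 : ℝ) < 4 * M by positivity)
      linarith
    have hκE : κ * E ≤ 1 * (4 * EE μ N) := mul_le_mul hκ1 hE4 (by linarith) (by norm_num)
    have hME : 4 * (M : ℝ) * 1 ≤ 4 * M * EE μ N := mul_le_mul_of_nonneg_left hEN1 (by positivity)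
    have hc1E : 0 ≤ c1 * EE μ N := by positivity
    have hCwE : |Cw| * 1 ≤ |Cw| * EE μ N := mul_le_mul_of_nonneg_left hEN1 hCw
    have hCw2 := le_abs_self Cw
    have h2TE : 0 < 2 ^ T₀ * EE μ N := by positivity
    have hpow := i52_pow_EE (μ := μ) hEM T₀ N
    have hQE : (Q - 1) * EE μ N = EE μ N + 8 * (c1 + 1) * EE μ N + 8 * M * EE μ N + |Cw| * EE μ N + 6 * (2 ^ T₀ * EE μ N) := by
      rw [hQ]
      ring
    have hME0 : 0 ≤ 8 * (M : ℝ) * EE μ N := by positivity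
    have hCwE0 : 0 ≤ |Cw| * EE μ N := by positivity
    rw [hQE]
    refine max_lt (max_lt ?_ ?_) ?_
    · rw [hy, hC₃]
      linarith
    · linarith
    · linarith
  have hMN : ∀ k : ℕ, k ≤ M → k * L' + L ≤ N := by
    intro k hk
    have := Nat.mul_le_mul_right L' hk
    omega
  have hkL : ∀ k : ℕ, 1 ≤ k → L' ≤ k * L' := fun k hk => Nat.le_mul_of_pos_left L' hk
  have hwallR : ∀ k : ℕ, 1 ≤ k → k ≤ M → ∃ c : ℤ, 0 ≤ c ∧ c ≤ (k * L' : ℕ) ∧ c ≤ lo k + J * w + 1 ∧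
      max (max (2 * y) Cw) (6 * EU μ 0 md (2 ^ T₀ * N)) <
        e μ 0 (k * L') (lo k + J * w + 1) - e μ 0 (k * L') c := by
    intro k hk1 hk2
    have a1 := hlo1 k
    have a2 := hlo2 k
    have a3 := hMN k hk2
    have a4 := hkL k hk1
    obtain ⟨t, ht⟩ : ∃ t : ℕ, t = k * L' := ⟨_, rfl⟩
    rw [← ht] at a1 a2 a3 a4 ⊢
    have ht1 : (L' : ℝ) ≤ t := by exact_mod_cast a4
    have ht8 : (8 : ℝ) ≤ t := by linarith only [ht1, hL'r, hLr]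
    have htL : (L : ℝ) ≤ 2 * t := by linarith only [ht1, hL'r]
    have hwt : (w : ℝ) ≤ V0 * t := by
      have d1 : V1 * n' ≤ V0 * n' := mul_le_mul_of_nonneg_right hV01 (by linarith only [hn'r])
      have d2 : V0 * n' ≤ V0 * t := mul_le_mul_of_nonneg_left (by linarith only [htL, h2nr]) hV00.le
      linarith only [d1, d2, hw6]
    obtain ⟨b1, b2⟩ := i52_arR (M := M) a1 a2 hJw1 hJw2 hwt ht8 htL hM0 hNM hR0 hV00.le hδV0 hN0.le s2
    have ht1' : 1 ≤ t := by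
      have : (1 : ℝ) ≤ t := by linarith only [ht8]
      exact_mod_cast this
    obtain ⟨g1, g2, g3, g4⟩ := i52_win hEM hA0 hA (y := lo k + J * w + 1) hR1 hu4 hvV0 hwδ hV00.le hδ0 (by
      push_cast
      exact b1) (by
      push_cast
      exact b2) ht1' ((Nat.le_add_right t L).trans a3) hRQ
    exact ⟨md t, g1, g2, g3, lt_of_lt_of_le hprice g4⟩
  have hwallL : ∀ k : ℕ, 1 ≤ k → k ≤ M → ∃ c : ℤ, 0 ≤ c ∧ c ≤ (N - k * L' : ℕ) ∧ lo k - 1 + c ≤ z ∧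
      max (max (2 * y) Cw) (6 * EU μ 0 md (2 ^ T₀ * N)) <
        e μ 0 (N - k * L') (z - (lo k - 1)) - e μ 0 (N - k * L') c := by
    intro k hk1 hk2
    have a1 := hlo1 k
    have a2 := hlo2 k
    have a3 := hMN k hk2
    obtain ⟨t, ht⟩ : ∃ t : ℕ, t = k * L' := ⟨_, rfl⟩
    rw [← ht] at a1 a2 a3 ⊢
    obtain ⟨u, hu⟩ : ∃ u : ℕ, N = t + (L + u) := ⟨N - t - L, by clear * - a3; omega⟩
    have hu2 : N - t = L + u := by rw [hu]; exact Nat.add_sub_cancel_left t (L + u)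
    rw [hu2]
    have hutr : ((L + u : ℕ) : ℝ) + t = N := by rw [hu]; push_cast; ring
    have huL : (L : ℝ) ≤ ((L + u : ℕ) : ℝ) := by exact_mod_cast Nat.le_add_right L u
    obtain ⟨b1, b2⟩ := i52_arL (M := M) (V1 := V1) a1 a2 hz1 hz2 hutr (Nat.cast_nonneg t) huL hLr hM0 hNM hR0 hCi hV00.le hδV0 hδ
      s3
    obtain ⟨g1, g2, g3, g4⟩ := i52_win hEM hA0 hA (t := L + u) (y := z - (lo k - 1)) hR1 hu4 hvV0 hwδ hV00.le hδ0
      (by
        rw [Int.cast_sub, Int.cast_sub, Int.cast_one]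
        exact b1) (by
        rw [Int.cast_sub, Int.cast_sub, Int.cast_one]
        exact b2) (by clear * - hL16; omega) (by rw [hu]; exact Nat.le_add_left _ _) hRQ
    exact ⟨md (L + u), g1, g2, by clear * - g3; omega, lt_of_lt_of_le hprice g4⟩
  -- the probabilities
  have hEmE : Em μ L ≤ E := by rw [hE]; exact i52_Em_le hEM (by omega)
  have hEm0 : 0 ≤ Em μ L := Em_nonneg hEM L
  have hκE : κ * E ≤ 1 * E := mul_le_mul_of_nonneg_right hκ1 (by linarith)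
  have hκE0 : 0 ≤ κ * E := by positivity
  have hLx : L ≤ 2 ^ x := by omega
  have hc1E' : c1 * EE μ N ≤ c1 * E := mul_le_mul_of_nonneg_left hEN (by linarith)
  have hc1E0 : 0 ≤ c1 * E := by positivity
  have hαE : (c1 + 2) * E ≤ (2 : ℝ) ^ α * EE μ (2 ^ x) := by
    rw [hE]
    exact mul_le_mul_of_nonneg_right hαb (by rw [← hE]; linarith)
  have hpiece : ∀ d : ℤ, 0 ≤ d → d ≤ (L' + n' : ℕ) →
      (law μ).real {η | X μ 0 η 0 (L' + n') d < min (e μ 0 (L' + n') d) (B * E) - κ * E} ≤ p := by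
    rw [hLL, hE]
    intro d h0 h1
    exact hpc x α hαa hS L hLx d h0 h1
  have hwn : md n' + (w : ℤ) ≤ n' := by
    have : ((md n' + (w : ℤ) : ℤ) : ℝ) ≤ ((n' : ℤ) : ℝ) := by
      push_cast
      linarith
    exact_mod_cast this
  have hmd0 := md_nonneg n'
  have hrA : (law μ).real {η | Em μ L + κ * E + κ * E < X μ 0 η 0 n' (md n' + w)} ≤ p := by
    have h1 := href w (by positivity) (by exact_mod_cast hw1)
    exact i52_up hS hα0 (by omega) (by omega) hwn (by linarith) hαc hαd (by rw [← hE]; linarith)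
  have hrB : (law μ).real {η | Em μ L + κ * E + κ * E < X μ 0 η 0 n' (md n' + w - w)} ≤ p := by
    have h1 := href 0 le_rfl (by
      rw [Int.cast_zero]
      positivity)
    rw [add_zero] at h1
    rw [add_sub_cancel_right]
    exact i52_up hS hα0 (by omega) (by omega) (md_le n') (by linarith) hαc hαd (by rw [← hE]; linarith)
  have hpath : (law μ).real {η | C₃ < X μ 0 η 0 N z} ≤ 1 / 4 :=
    i52_up hS hα0 hNx hz0 hzN (by linarith) hαc hαe (by rw [hC₃, ← hE]; linarith)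
  have hexp : 4 * (M : ℝ) * Real.exp (-y) ≤ Real.exp (-C₃) := by
    have h4M : (0 : ℝ) < 4 * M := by positivity
    have h1 : Real.exp (-y) = Real.exp (-C₃) / (4 * M) := by
      rw [hy, neg_add, Real.exp_add, Real.exp_neg (Real.log (4 * M)), Real.exp_log h4M, div_eq_mul_inv]
    rw [h1]
    exact le_of_eq (mul_div_cancel₀ _ h4M.ne')
  have hcount : 6 * ((M : ℝ) + 1) * (J : ℝ) ^ 2 * p + (2 * M * (1 / (8 * M)) + 1 / 4) < 1 := by
    have h1 : 6 * ((M : ℝ) + 1) * (J : ℝ) ^ 2 * p ≤ 6 * ((M : ℝ) + 1) * JM ^ 2 * p := by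
      have : (J : ℝ) ^ 2 ≤ JM ^ 2 := pow_le_pow_left₀ (by positivity) hJJM 2
      gcongr
    have h2 : 6 * ((M : ℝ) + 1) * JM ^ 2 * p = 6 / 16 := by
      rw [hp]
      field_simp
    have h3 : 2 * (M : ℝ) * (1 / (8 * M)) = 1 / 4 := by
      field_simp
      norm_num
    rw [h3]
    linarith
  have hfin : min (((M : ℝ) + 1) * e μ 0 (L' + n') xx) (B * E) ≤
      C₃ + Real.log 2 + (M + 1) * (κ * E) + M * (Em μ L + κ * E + κ * E) + M * Real.log (2 * J) :=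
    hin 0 md (fun m => ⟨md_nonneg m, md_le m⟩) ⟨L', n', w, J, md n' + w, lo⟩ M N z xx (Em μ L + κ * E) (κ * E) (B * E) p (1 / 4)
      C₃ y hN hM (by show 1 ≤ L'; omega) (by show n' ≤ L'; omega) hJ1 hw5 (by show 0 ≤ md n' + (w : ℤ) - w; omega) hwn hp0.le
      hwallR hwallL hpiece hrA hrB hz0 hzN hpath hexp hx0 (by show xx + 1 ≤ ((L' + n' : ℕ) : ℤ); rw [hLL]; exact hx1)
      (by show e μ 0 (L' + n') xx ≤ e μ 0 (L' + n') (xx + 1); rw [hLL]; exact hxmono)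
      (by show ((M : ℤ) + 1) * xx ≤ z + M * (md n' + w - w); rw [add_sub_cancel_right]; exact hxx1) (by positivity) hcount
  rw [hLL] at hfin
  have hJlog : Real.log (2 * J) ≤ κ * E := by
    refine le_trans (Real.log_le_log ?_ ?_) hlJ
    · have : (1 : ℝ) ≤ J := by exact_mod_cast hJ1
      linarith
    · linarith
  have hMJ : (M : ℝ) * Real.log (2 * J) ≤ M * (κ * E) := mul_le_mul_of_nonneg_left hJlog (by linarith)
  have hMk : (M : ℝ) * (κ * E) ≤ M * (1 * E) := mul_le_mul_of_nonneg_left hκE (by linarith)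
  have hMEm : (M : ℝ) * Em μ L ≤ M * E := mul_le_mul_of_nonneg_left hEmE (by linarith)
  have hMain : ((M : ℝ) + 1) * e μ 0 L xx ≤
      C₃ + Real.log 2 + (M + 1) * (κ * E) + M * (Em μ L + κ * E + κ * E) + M * Real.log (2 * J) := by
    rcases min_le_iff.1 hfin with h | h
    · exact h
    · exfalso
      have hBE : B * E = c1 * E + 4 * E + 5 * (M + 1) * E := by rw [hB]; ring
      rw [hBE, hC₃] at h
      linarith
  refine ⟨xx, hx0, by omega, hxlow, ?_⟩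
  have hres : ((M : ℝ) + 1) * e μ 0 L xx ≤ (M + 1) * (Em μ L + (c1 + 1) / (M + 1) * E + 5 * (κ * E)) := by
    have h1 : ((M : ℝ) + 1) * (Em μ L + (c1 + 1) / (M + 1) * E + 5 * (κ * E)) =
        (M + 1) * Em μ L + (c1 + 1) * E + (M + 1) * (5 * (κ * E)) := by
      field_simp
    have h2 : 0 ≤ (M : ℝ) * (κ * E) := by positivity
    rw [h1]
    rw [hC₃] at hMain
    linarith
  exact le_of_mul_le_mul_left hres hM1

end Pool.Agent.W_7d29a1_G
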