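import Pool.Agent.W_7d29a1_G.InnerIn52
import Pool.Agent.W_7d29a1_G.FrDefs
import Pool.Agent.W_7d29a1_G.Frame3
import Pool.Agent.W_7d29a1_g.Inner4

/-!
MP_7d29a1_pr, track G, D4 (row 619), section 4: the references and the arithmetic of the windows.
-/

namespace Pool.Agent.W_7d29a1_G

open MeasureTheory ProbabilityTheory Filter Topology Pool.Agent.W_7d29a1_F Pool.Agent.W_7d29a1_h4g
open Pool.Agent.W_7d29a1_g (Em Em_mono e0_le_Em)

variable {μ : Measure ℝ} [IsProbabilityMeasure μ]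

/-- Interpolation of the mean cost. -/
theorem i52_interp (hμ : Pool.Agent.W_7d29a1_h47.EM μ) {n : ℕ} {a w Y : ℤ} (h0 : 0 ≤ a) (hw0 : 0 ≤ w) (hw : w < Y)
    (h1 : a + Y ≤ n) :
    (Y : ℝ) * e μ 0 n (a + w) ≤ ((Y : ℝ) - w) * e μ 0 n a + w * e μ 0 n (a + Y) := by
  have hl := Pool.Agent.W_7d29a1_g.line_of_convex (f := fun y => e μ 0 n y) (n := (n : ℤ))
    (fun y hy1 hy2 => e_convex hμ hy1 hy2) (x := a + w) (by omega) (by omega)
  have h2 := hl a h0 (by omega)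
  have h3 := hl (a + Y) (by omega) h1
  push_cast at h2 h3
  have hw0' : (0 : ℝ) ≤ w := by exact_mod_cast hw0
  have hw' : (0 : ℝ) ≤ (Y : ℝ) - w := by
    have : (w : ℝ) ≤ Y := by exact_mod_cast hw.le
    linarith
  have h4 := mul_le_mul_of_nonneg_left h2 hw'
  have h5 := mul_le_mul_of_nonneg_left h3 hw0'
  nlinarith

theorem i52_vA_one (hμ : Pool.Agent.W_7d29a1_h47.EM μ) {A : ℝ} (hA : 0 < A) (n : ℕ) :
    vA μ A n ≤ (A + 1) * vA μ 1 n := by
  have h0 := vA_nonneg (μ := μ) hμ (show (0 : ℝ) ≤ 1 by norm_num) n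
  rcases le_total A 1 with h | h
  · have h1 := vA_mono (μ := μ) hμ hA.le h n
    nlinarith
  · have h1 := vA_scale (μ := μ) hμ (A := 1) (B := A) one_pos h n
    rw [div_one] at h1
    nlinarith

omit [IsProbabilityMeasure μ] in
theorem i52_e0_le_Em {m n : ℕ} (h : m ≤ n) : e μ 0 m (md m) ≤ Em μ n := by
  have h1 := e0_le_Em (μ := μ) h
  have e1 : md m = ((m / 2 : ℕ) : ℤ) := by
    unfold md
    push_cast
    rfl
  rw [e1]
  exact h1

/-- The references: a displacement off the centre by a small part of the width costs a small part of the unit. -/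
theorem i52_ref (hEM : Pool.Agent.W_7d29a1_h47.EM μ) (hnd : Pool.Agent.W_7d29a1_h47.Nondeg μ) (hI : FIn μ) {A : ℝ}
    (hA : 0 < A) {κ : ℝ} (hκ : 0 < κ) : ∃ (θ : ℝ) (n3 : ℕ), 0 < θ ∧ θ ≤ 1 ∧ ∀ n : ℕ, n3 ≤ n → ∀ (w : ℤ) (N : ℕ), n ≤ N → 0 ≤ w →
      (w : ℝ) ≤ θ * vA μ A N * n → e μ 0 n (md n + w) ≤ e μ 0 n (md n) + κ * EE μ n := by
  obtain ⟨c0, hc0, hI⟩ := hI
  obtain ⟨C, n0, hI⟩ := hI 1
  obtain ⟨n1, hn1⟩ := eventually_atTop.1 ((vA_tendsto hEM hnd (show (0 : ℝ) ≤ 1 by norm_num)).eventually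
    (eventually_le_nhds (show (0 : ℝ) < 1 / (4 * c0) by positivity)))
  obtain ⟨θ, hθ⟩ : ∃ θ : ℝ, θ = min 1 (min (c0 / (4 * (A + 1))) (κ * c0 / (2 * (A + 1) * (|C| + 1)))) := ⟨_, rfl⟩
  have hθ0 : 0 < θ := by
    rw [hθ]
    refine lt_min one_pos (lt_min (by positivity) ?_)
    have : 0 ≤ |C| := abs_nonneg C
    positivity
  have hθ1 : θ ≤ 1 := by rw [hθ]; exact min_le_left _ _
  have hθ2 : θ * (4 * (A + 1)) ≤ c0 := by
    have h1 : θ ≤ c0 / (4 * (A + 1)) := by rw [hθ]; exact (min_le_right _ _).trans (min_le_left _ _)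
    rwa [le_div_iff₀ (by positivity)] at h1
  have hθ3 : θ * (2 * (A + 1) * (|C| + 1)) ≤ κ * c0 := by
    have h1 : θ ≤ κ * c0 / (2 * (A + 1) * (|C| + 1)) := by rw [hθ]; exact (min_le_right _ _).trans (min_le_right _ _)
    rwa [le_div_iff₀ (by have := abs_nonneg C; positivity)] at h1
  refine ⟨θ, max (max n0 n1) 4, hθ0, hθ1, fun n hn w N hnN hw0 hw => ?_⟩
  have hn0 : n0 ≤ n := ((le_max_left _ _).trans (le_max_left _ _)).trans hn
  have hn1' : n1 ≤ n := ((le_max_right _ _).trans (le_max_left _ _)).trans hn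
  have hn4 : 4 ≤ n := (le_max_right _ _).trans hn
  have hn4' : (4 : ℝ) ≤ n := by exact_mod_cast hn4
  obtain ⟨v, hv⟩ : ∃ v : ℝ, v = vA μ 1 n := ⟨_, rfl⟩
  have hv0 : 0 < v := by rw [hv]; exact vA_pos hEM one_pos n
  have hv1 : v ≤ 1 / (4 * c0) := by rw [hv]; exact hn1 n hn1'
  have hcv : c0 * v ≤ 1 / 4 := by
    rw [le_div_iff₀ (by positivity)] at hv1
    linarith
  obtain ⟨Y, hY⟩ : ∃ Y : ℤ, Y = ⌈c0 * v * n⌉ := ⟨_, rfl⟩
  have hY1 : c0 * v * n ≤ Y := by rw [hY]; exact Int.le_ceil _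
  have hY2 : (Y : ℝ) < c0 * v * n + 1 := by rw [hY]; exact Int.ceil_lt_add_one _
  have hvn : 0 < c0 * v * n := by positivity
  have hvN : vA μ A N ≤ 2 * (A + 1) * v := by
    have h1 := vA_le_two hEM hA.le (show 1 ≤ n by omega) hnN
    have h2 := i52_vA_one (μ := μ) hEM hA n
    rw [hv]
    linarith
  have hwv : (w : ℝ) ≤ θ * (2 * (A + 1)) * (v * n) := by
    refine hw.trans ?_
    have h1 : θ * vA μ A N ≤ θ * (2 * (A + 1) * v) := mul_le_mul_of_nonneg_left hvN hθ0.le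
    have h2 := mul_le_mul_of_nonneg_right h1 (show (0 : ℝ) ≤ n by positivity)
    linarith
  have hvn' : 0 < v * n := by positivity
  have hwY : (w : ℝ) < Y := by
    have h1 : θ * (4 * (A + 1)) * (v * n) ≤ c0 * (v * n) := mul_le_mul_of_nonneg_right hθ2 hvn'.le
    linarith
  have hwY' : w < Y := by exact_mod_cast hwY
  have hY0 : (0 : ℝ) < Y := by linarith
  have hmd : (md n : ℝ) ≤ n / 2 := by
    have h1 : 2 * md n ≤ n := by unfold md; omega
    have h2 : (2 : ℝ) * (md n : ℝ) ≤ n := by exact_mod_cast h1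
    linarith
  have hmd2 : (n : ℝ) / 2 - 1 ≤ md n := by
    have h1 : (n : ℤ) ≤ 2 * md n + 1 := by unfold md; omega
    have h2 : (n : ℝ) ≤ 2 * (md n : ℝ) + 1 := by exact_mod_cast h1
    linarith
  have hYn : c0 * v * n ≤ 1 / 4 * n := mul_le_mul_of_nonneg_right hcv (by linarith)
  have hend : (md n : ℝ) + Y ≤ n := by linarith
  have hend' : md n + Y ≤ n := by exact_mod_cast hend
  have hYint : 0 < Y := by exact_mod_cast hY0
  have h1 := hI n hn0 n (md n + Y) (by omega) (by have := md_nonneg n; omega) hend' (by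
    rw [← hv]
    push_cast
    rw [abs_le]
    constructor <;> linarith)
  have h2 := e_le_ep (μ := μ) hEM (n := n) (y := md n + Y) (by have := md_nonneg n; omega) hend'
  have h3 := i52_interp (μ := μ) hEM (n := n) (a := md n) (w := w) (Y := Y) (md_nonneg n) hw0 hwY' hend'
  have hE := one_le_EE (μ := μ) n
  have he0 := e_nonneg hEM (μ := μ) 0 (md_nonneg n) (md_le n)
  have hw0' : (0 : ℝ) ≤ w := by exact_mod_cast hw0
  have h4 : (w : ℝ) * e μ 0 n (md n + Y) ≤ w * (|C| * EE μ n) := by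
    refine mul_le_mul_of_nonneg_left ?_ hw0'
    have h5 : C * EE μ n ≤ |C| * EE μ n := mul_le_mul_of_nonneg_right (le_abs_self C) (by linarith)
    linarith
  have h6 : (w : ℝ) * |C| ≤ κ * Y := by
    have h7 : (w : ℝ) * |C| ≤ θ * (2 * (A + 1)) * (v * n) * |C| := mul_le_mul_of_nonneg_right hwv (abs_nonneg C)
    have h8 : θ * (2 * (A + 1) * (|C| + 1)) * (v * n) ≤ κ * c0 * (v * n) := mul_le_mul_of_nonneg_right hθ3 hvn'.le
    have h9 : κ * (c0 * v * n) ≤ κ * Y := mul_le_mul_of_nonneg_left hY1 hκ.le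
    have h10 : 0 ≤ θ * (2 * (A + 1)) * (v * n) := by positivity
    linarith
  have h11 : (w : ℝ) * (|C| * EE μ n) ≤ κ * Y * EE μ n := by
    have h12 := mul_le_mul_of_nonneg_right h6 (show (0 : ℝ) ≤ EE μ n by linarith)
    linarith
  have h13 : (Y : ℝ) * e μ 0 n (md n + w) ≤ Y * (e μ 0 n (md n) + κ * EE μ n) := by
    have h14 : 0 ≤ (w : ℝ) * e μ 0 n (md n) := by positivity
    linarith
  exact le_of_mul_le_mul_left h13 hY0

omit [IsProbabilityMeasure μ] in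
/-- The mean displacement of the pieces (arithmetic). -/
theorem i52_x {M L N n' V1 δ Ci Ce z x dn : ℝ} (hM : 0 ≤ M) (hN : N = (M + 1) * L - M * n') (hV : 0 ≤ Ci * δ)
    (hn0 : 0 ≤ n') (hn : V1 * n' ≤ δ * L + 1) (hz : N / 2 + (V1 - Ci * δ) * N - 1 ≤ z) (hd : (n' - 1) / 2 ≤ dn)
    (hx : z + M * dn ≤ (M + 1) * (x + 1)) (hδL : 0 ≤ δ * L) (hbig : 4 ≤ (Ce - Ci - 1) * (δ * L)) :
    (V1 - Ce * δ) * L ≤ x - L / 2 := by
  have hM1 : 0 < M + 1 := by linarith
  have a1 : (V1 - Ci * δ) * n' ≤ δ * L + 1 := le_trans (mul_le_mul_of_nonneg_right (by linarith) hn0) hn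
  have a2 := mul_le_mul_of_nonneg_left a1 hM
  have a3 := mul_le_mul_of_nonneg_left hbig hM1.le
  have a4 : (V1 - Ci * δ) * N = (M + 1) * ((V1 - Ci * δ) * L) - M * ((V1 - Ci * δ) * n') := by rw [hN]; ring
  have a5 := mul_le_mul_of_nonneg_left hd hM
  have a6 : N / 2 = (M + 1) * (L / 2) - M * (n' / 2) := by rw [hN]; ring
  rw [a4, a6] at hz
  have key : (M + 1) * ((V1 - Ce * δ) * L) ≤ (M + 1) * (x - L / 2) := by nlinarith
  exact le_of_mul_le_mul_left key hM1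

end Pool.Agent.W_7d29a1_G
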