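import Pool.Agent.W_7d29a1_G.ElemD1
import Pool.Agent.W_7d29a1_G.IfaceGV
import Pool.Agent.W_7d29a1_G.Asm

/-!
MP_7d29a1_pr, track G: from the four sections (HS, HB0, HB, HF2) to the power law of the rate function and the power convexity
of the free energy.
-/

set_option autoImplicit false

namespace Pool.Agent.W_7d29a1_G

open MeasureTheory ProbabilityTheory Filter Topology Set Pool.Agent.W_7d29a1_F Pool.Agent.W_7d29a1_h46

/-- What the sections of the master text have to prove. -/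
structure Targets (μ : Measure ℝ) : Prop where
  hS : HS μ
  hB0 : ∃ α, HB0 μ α
  hB : ∃ α, HB μ α
  hF2 : HF2 μ
  hEE : Tendsto (EE μ) atTop atTop

variable {μ : Measure ℝ} [IsProbabilityMeasure μ]

/-- The cone closes like a power of the time. -/
theorem f_linear_of (hμ : W_7d29a1_h47.EM μ) (hnd : W_7d29a1_h47.Nondeg μ) (h : Targets μ) :
    ∃ c C : ℝ, 0 < c ∧ ∀ x : ℕ, c * x - C ≤ ff μ 1 x := by
  have he := elem hμ hnd
  obtain ⟨α, hB0⟩ := h.hB0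
  obtain ⟨β, hB⟩ := h.hB
  exact f_linear he h.hS (hB0.mono he.smono (le_max_left α β)) (hB.mono he.smono (le_max_right α β))
    (HG_all hμ hnd h.hEE) (HV_all hμ) h.hF2

theorem J_monotoneOn (hμ : W_7d29a1_h47.EM μ) : MonotoneOn (J μ) (Icc 0 (1 / 2)) := by
  intro u hu v hv huv
  rcases hu.1.eq_or_lt with h0 | h0
  · rw [← h0, J_zero hμ]
    exact J_nonneg hμ (by rw [abs_of_nonneg hv.1]; exact hv.2)
  · have ht : 1 ≤ v / u := (one_le_div h0).2 huv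
    have e1 : v / u * u = v := div_mul_cancel₀ v h0.ne'
    have h1 := J_mul hμ h0.le ht (by rw [e1]; exact hv.2)
    rw [e1] at h1
    have h2 : 0 ≤ J μ u := J_nonneg hμ (by rw [abs_of_nonneg hu.1]; exact hu.2)
    nlinarith

/-- The numbers of `pow_of_width` and `expd_of_ff`. -/
theorem width_facts (hμ : W_7d29a1_h47.EM μ) (hnd : W_7d29a1_h47.Nondeg μ) : ∃ x₀ : ℕ, ∀ x : ℕ, x₀ ≤ x →
    0 < vA μ 1 (2 ^ x) ∧ vA μ 1 (2 ^ x) ≤ 1 / 2 ∧ 1 * EE μ (2 ^ x) ≤ (2 : ℝ) ^ x * J μ (vA μ 1 (2 ^ x)) := by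
  obtain ⟨n₀, hn₀⟩ := Filter.eventually_atTop.1 (vA_eq hμ hnd (A := 1) zero_le_one)
  refine ⟨n₀, fun x hx => ⟨vA_pos hμ one_pos _, vA_le hμ zero_le_one _, ?_⟩⟩
  have h1 : x < 2 ^ x := Nat.lt_two_pow_self
  have h2 := hn₀ (2 ^ x) (hx.trans h1.le)
  push_cast at h2
  linarith

/-- **The power law of the rate function.** -/
theorem pow_of (hμ : W_7d29a1_h47.EM μ) (hnd : W_7d29a1_h47.Nondeg μ) (h : Targets μ) :
    ∃ c K v₀ : ℝ, 0 < c ∧ 1 < K ∧ 0 < v₀ ∧ ∀ v, 0 ≤ v → v ≤ v₀ → c * v ^ K ≤ J μ v := by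
  obtain ⟨x₀, hx₀⟩ := width_facts hμ hnd
  obtain ⟨c, C, hc, hf⟩ := f_linear_of hμ hnd h
  exact pow_of_width (J := J μ) (E := fun x => EE μ (2 ^ x)) (w := fun x => vA μ 1 (2 ^ x)) (b := 1 / 2) (κ := 1) (c := c)
    (C := C) (x₀ := x₀) (by norm_num) one_pos hc (J_monotoneOn hμ) (J_zero hμ).ge (fun x hx => (hx₀ x hx).1)
    (fun x hx => (hx₀ x hx).2.1) (fun x _ => one_le_EE _) (fun x hx => (hx₀ x hx).2.2) (fun x _ => hf x)

/-- **Power convexity of the free energy at the tilt `0`.** -/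
theorem expd_of (hμ : W_7d29a1_h47.EM μ) (hnd : W_7d29a1_h47.Nondeg μ) (h : Targets μ) :
    ∃ α : ℝ, 0 < α ∧ Expd (W_7d29a1_h47.Lam μ) α 0 0 := by
  obtain ⟨x₀, hx₀⟩ := width_facts hμ hnd
  obtain ⟨c, C, hc, hf⟩ := f_linear_of hμ hnd h
  exact expd_of_ff hμ one_pos (J_monotoneOn hμ) (J_zero hμ).ge (fun x hx => (hx₀ x hx).1)
    (fun x hx => (hx₀ x hx).2.1) (fun n => one_le_EE n) (fun x hx => (hx₀ x hx).2.2) hc hf

end Pool.Agent.W_7d29a1_G
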