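import Pool.Agent.W_7d29a1_G.Oct52b

/-!
MP_7d29a1_pr, track G, D4 (row 619), section 7: ONE OCTAVE. On a stretch without soft scale the growth of the cost of direction `0`
in the octave `x` is at most `2 ^ (x - y)` times the growth between `x` and `y + m` (plus `ε` units), as long as the tube of the
octave `y` has room for the paths of the octave `x`.
-/

namespace Pool.Agent.W_7d29a1_G

open MeasureTheory ProbabilityTheory Filter Topology Pool.Agent.W_7d29a1_F Pool.Agent.W_7d29a1_h4g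
open Pool.Agent.W_7d29a1_g (Em Em_mono Em_nonneg Tube tube_growth HasPath eR)

variable {μ : Measure ℝ} [IsProbabilityMeasure μ]

/-- The statement of the tube lemma used below. -/
def TubeHyp (μ : Measure ℝ) (A0 A1 : ℝ) : Prop :=
  ∀ c1 : ℝ, 1 ≤ c1 → ∃ C2 C3 : ℝ, 1 ≤ C2 ∧ 1 ≤ C3 ∧ ∀ (T : ℕ) (a b u D : ℝ), 4 ≤ T →
    Real.log (4 * T) ≤ c1 * EE μ T → 0 ≤ a → a ≤ b → a ≤ vA μ A0 (2 * T) → vA μ A1 (2 * T) ≤ b →
    vA μ A1 (2 * T) ≤ 1 / 4 → 0 ≤ u → u ≤ 1 / 8 → 1 ≤ D → D ≤ 4 * u * T →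
    (∀ (m : ℕ) (y : ℤ), T ≤ m → m ≤ 2 * T → |(y : ℝ) - m / 2| ≤ u * m + 2 → e μ 0 m y ≤ c1 * EE μ (2 * T)) →
    a + C2 * (b - a) ≤ u + (D - 1) / (2 * T) →
    1 - 1 / 4 ≤ (law μ).real {η | W μ 0 η 0 T ⌊(1 / 2 + u) * T⌋ ≤
      2 * WR μ 0 (Tube 0 (1 / 2 + u) D) η 0 T ⌊(1 / 2 + u) * T⌋} ∧
    HasPath (Tube 0 (1 / 2 + u) D) 0 T ⌊(1 / 2 + u) * T⌋ ∧
    eR μ 0 (Tube 0 (1 / 2 + u) D) 0 T ⌊(1 / 2 + u) * T⌋ ≤ C3 * EE μ (2 * T)

theorem o52_EE_large {Cl : ℝ} {n2 : ℕ} (hlog : ∀ n : ℕ, n2 ≤ n → Real.log n ≤ Cl * EE μ n) (B : ℝ) :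
    ∃ x0 : ℕ, ∀ x : ℕ, x0 ≤ x → B ≤ EE μ (2 ^ x) := by
  obtain ⟨k, hk⟩ := exists_nat_ge (B * (|Cl| + 1) / Real.log 2)
  refine ⟨max n2 k, fun x hx => ?_⟩
  have h1 := hlog (2 ^ x) (((le_max_left _ _).trans hx).trans (Nat.lt_two_pow_self).le)
  have hl2 : 0 < Real.log 2 := Real.log_pos (by norm_num)
  push_cast at h1
  rw [Real.log_pow] at h1
  have h2 : (k : ℝ) ≤ x := by exact_mod_cast (le_max_right _ _).trans hx
  have h3 : B * (|Cl| + 1) ≤ x * Real.log 2 := by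
    rw [div_le_iff₀ hl2] at hk
    nlinarith
  have h4 : Cl * EE μ (2 ^ x) ≤ (|Cl| + 1) * EE μ (2 ^ x) :=
    mul_le_mul_of_nonneg_right (by linarith [le_abs_self Cl]) (by linarith [one_le_EE (μ := μ) (2 ^ x)])
  have h5 : 0 < |Cl| + 1 := by positivity
  have h6 : (|Cl| + 1) * B ≤ (|Cl| + 1) * EE μ (2 ^ x) := by linarith
  exact le_of_mul_le_mul_left h6 h5

/-- The duration of the tube. -/
theorem o52_duration {x y m : ℕ} (hxy : x + 2 ≤ y) (h1 : 2 ^ x < m) (h2 : m ≤ 2 * 2 ^ x) :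
    2 ^ (y - 1) ≤ (2 ^ (y - x) - 2) * (m - m / 2) + m ∧ (2 ^ (y - x) - 2) * (m - m / 2) + m ≤ 2 ^ y := by
  obtain ⟨j, rfl⟩ : ∃ j, y = x + (j + 2) := ⟨y - x - 2, by omega⟩
  rw [show x + (j + 2) - x = j + 2 by omega, show x + (j + 2) - 1 = x + j + 1 by omega]
  have e1 : 2 ^ (j + 2) = 4 * 2 ^ j := by rw [pow_add]; ring
  have e2 : 2 ^ (x + j + 1) = 2 * (2 ^ x * 2 ^ j) := by rw [pow_succ, pow_add]; ring
  have e3 : 2 ^ (x + (j + 2)) = 4 * (2 ^ x * 2 ^ j) := by rw [pow_add, pow_add]; ring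
  rw [e1, e2, e3]
  have hj : 1 ≤ 2 ^ j := Nat.one_le_two_pow
  obtain ⟨P, hP⟩ : ∃ P, P = 2 ^ j := ⟨_, rfl⟩
  obtain ⟨Q, hQ⟩ : ∃ Q, Q = 2 ^ x := ⟨_, rfl⟩
  rw [← hP, ← hQ]
  rw [← hP] at hj
  rw [← hQ] at h1 h2
  obtain ⟨R, hR⟩ : ∃ R, 4 * P = R + 2 := ⟨4 * P - 2, by omega⟩
  rw [show 4 * P - 2 = R by omega]
  have hR2 : 2 ≤ R := by omega
  obtain ⟨h, hh⟩ : ∃ h, h = m - m / 2 := ⟨_, rfl⟩
  rw [← hh]
  have h3 : h ≤ Q := by omega
  have h4 : Q ≤ 2 * h := by omega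
  constructor
  · nlinarith
  · nlinarith

/-- ONE OCTAVE. -/
theorem octave52' (hEM : Pool.Agent.W_7d29a1_h47.EM μ) (hnd : Pool.Agent.W_7d29a1_h47.Nondeg μ) {A0 A1 : ℝ}
    (hA0 : 0 < A0) (hA : A0 < A1) (hTube : TubeHyp μ A0 A1) (hIN : EdgeIn μ A0 A1) (hInner : InnerE μ A0)
    (hlog : ∃ (Cl : ℝ) (n2 : ℕ), ∀ n : ℕ, n2 ≤ n → Real.log n ≤ Cl * EE μ n) : Octave μ A0 := by
  obtain ⟨Ci, c1, n1, hCi, hc1, hin⟩ := hIN
  obtain ⟨Ce, Km, ki, hCe, hKm, hinner⟩ := hInner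
  obtain ⟨Cl, n2, hlog⟩ := hlog
  have hA1 : 0 < A1 := hA0.trans hA
  obtain ⟨kj, hkj⟩ := o52_exists_k hA0 hA1
  obtain ⟨k0, hk0⟩ : ∃ k0, k0 = max ki kj := ⟨_, rfl⟩
  have hkik : ki ≤ k0 := by rw [hk0]; exact le_max_left _ _
  have hkjk : kj ≤ k0 := by rw [hk0]; exact le_max_right _ _
  obtain ⟨cT, hcT⟩ : ∃ cT : ℝ, cT = c1 + 4 * |Cl| := ⟨_, rfl⟩
  have hcT1 : 1 ≤ cT := by rw [hcT]; linarith [abs_nonneg Cl]
  obtain ⟨C2, C3, hC2, hC3, htube⟩ := hTube cT hcT1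
  have hJ : 0 ≤ J μ (1 / 2) := J_nonneg hEM (by rw [abs_of_pos (by norm_num)])
  obtain ⟨cJ, hcJ⟩ : ∃ cJ : ℝ, cJ = (A1 - A0) / (4 * J μ (1 / 2) + 1) := ⟨_, rfl⟩
  have hcJ0 : 0 < cJ := by
    rw [hcJ]
    exact div_pos (by linarith) (by linarith)
  obtain ⟨C', hC'⟩ : ∃ C' : ℝ, C' = Ce + Ci + 4 / cJ := ⟨_, rfl⟩
  have h4J : 0 < 4 / cJ := by positivity
  have hC'0 : 0 < C' := by rw [hC']; linarith
  obtain ⟨C0, hC0⟩ : ∃ C0 : ℝ, C0 = 32 * (C' + C2) + 16 / cJ + 2 * C' + 1 := ⟨_, rfl⟩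
  have h16J : 0 < 16 / cJ := by positivity
  have hC0a : 32 * (C' + C2) ≤ C0 := by rw [hC0]; linarith
  have hC0b : 16 / cJ ≤ C0 := by rw [hC0]; linarith
  have hC0c : 2 * C' ≤ C0 := by rw [hC0]; linarith
  have hC0d : 1 ≤ C0 := by rw [hC0]; linarith
  refine ⟨C0, 2 * Km + 2, k0, by linarith, by linarith, fun ε m hε hε1 hm => ?_⟩
  obtain ⟨αi, xi, hI⟩ := hinner (ε / 2) m (by linarith) (by linarith) (by linarith)
  have hm1 : 1 ≤ m := by
    rcases Nat.eq_zero_or_pos m with h | h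
    · exfalso
      rw [h, pow_zero, mul_one] at hm
      linarith
    · exact h
  -- the level of softness
  obtain ⟨α, hα1, hα2, hα3, hα4, hα5⟩ : ∃ α : ℝ, αi ≤ α ∧ 2 ≤ α ∧ cT ≤ (2 : ℝ) ^ α ∧ C3 ≤ (2 : ℝ) ^ α ∧
      2 * (2 : ℝ) ^ (-α) ≤ ε / 4 := by
    refine ⟨max αi (max 2 (max (Real.logb 2 cT) (max (Real.logb 2 C3) (Real.logb 2 (8 / ε))))), le_max_left _ _,
      (le_max_left _ _).trans (le_max_right _ _), ?_, ?_, ?_⟩
    · refine (Real.logb_le_iff_le_rpow one_lt_two ?_).1 ?_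
      · linarith
      · exact (le_max_left _ _).trans ((le_max_right _ _).trans (le_max_right _ _))
    · refine (Real.logb_le_iff_le_rpow one_lt_two ?_).1 ?_
      · linarith
      · exact (le_max_left _ _).trans ((le_max_right _ _).trans ((le_max_right _ _).trans (le_max_right _ _)))
    · have h1 : 8 / ε ≤ (2 : ℝ) ^ (max αi (max 2 (max (Real.logb 2 cT) (max (Real.logb 2 C3) (Real.logb 2 (8 / ε)))))) := by
        refine (Real.logb_le_iff_le_rpow one_lt_two ?_).1 ?_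
        · positivity
        · exact (le_max_right _ _).trans ((le_max_right _ _).trans ((le_max_right _ _).trans (le_max_right _ _)))
      rw [Real.rpow_neg two_pos.le]
      have h2 : 0 < 8 / ε := by positivity
      have h3 := inv_anti₀ h2 h1
      rw [inv_div] at h3
      linarith
  obtain ⟨x1, hx1⟩ := o52_EE_large hlog (4 * Real.log 2 / ε)
  obtain ⟨x2, hx2⟩ := eventually_atTop.1 (((vA_tendsto hEM hnd hA0.le).comp
    (tendsto_pow_atTop_atTop_of_one_lt (one_lt_two : (1 : ℕ) < 2))).eventually (eventually_le_nhds (show (0 : ℝ) < 1 / 8 by norm_num)))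
  refine ⟨α, max xi (max x1 (max x2 (max n1 (max n2 2)))), fun a b ha hnS hslow x y hx hy hb hf => ?_⟩
  have ha1 : xi ≤ a := (le_max_left _ _).trans ha
  have ha2 : x1 ≤ a := ((le_max_left _ _).trans (le_max_right _ _)).trans ha
  have ha3 : x2 ≤ a := ((le_max_left _ _).trans ((le_max_right _ _).trans (le_max_right _ _))).trans ha
  have ha4 : n1 ≤ a := ((le_max_left _ _).trans ((le_max_right _ _).trans ((le_max_right _ _).trans (le_max_right _ _)))).trans ha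
  have ha5 : n2 ≤ a := ((le_max_left _ _).trans ((le_max_right _ _).trans ((le_max_right _ _).trans
    ((le_max_right _ _).trans (le_max_right _ _))))).trans ha
  have ha6 : 2 ≤ a := ((le_max_right _ _).trans ((le_max_right _ _).trans ((le_max_right _ _).trans
    ((le_max_right _ _).trans (le_max_right _ _))))).trans ha
  -- the slopes
  obtain ⟨V1, hV1⟩ : ∃ V1 : ℝ, V1 = vA μ A0 (2 ^ (y + m + 3)) := ⟨_, rfl⟩
  obtain ⟨V0, hV0⟩ : ∃ V0 : ℝ, V0 = vA μ A0 (2 ^ (y - 1 - k0)) := ⟨_, rfl⟩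
  have hsl : ∀ n : ℕ, 2 ^ (y - 1) ≤ n → n ≤ 2 ^ (y + m) → V1 ≤ vA μ A0 n ∧ vA μ A1 n ≤ V0 := by
    intro n h1 h2
    rw [hV1, hV0]
    exact o52_slopes hEM hA0 hA1 (hkj k0 hkjk) hslow (by omega) hm1 (by omega) h1 h2
  have hV10 : 0 < V1 := by rw [hV1]; exact vA_pos hEM hA0 _
  have hV08 : V0 ≤ 1 / 8 := by rw [hV0]; exact hx2 _ (by omega)
  have hV01 : V1 ≤ V0 := by rw [hV1, hV0]; exact o52_vA_anti hEM hA0.le (by omega)
  obtain ⟨U, hU⟩ : ∃ U : ℝ, U = ff μ A0 (y + m + 3) - ff μ A0 (y - 1 - k0) := ⟨_, rfl⟩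
  rw [← hU] at hf
  have hU0 : 0 ≤ U := by
    rw [hU]
    linarith [ff_mono (μ := μ) hEM hA0 (show y - 1 - k0 ≤ y + m + 3 by omega)]
  have hhalf : ((1 : ℝ) / 2) ^ (y - x) ≤ 1 / 4 := by
    have h1 : ((1 : ℝ) / 2) ^ (y - x) ≤ (1 / 2) ^ 2 := pow_le_pow_of_le_one (by norm_num) (by norm_num) (by omega)
    linarith
  have hU1 : U ≤ 1 / 4 := (le_mul_of_one_le_left hU0 hC0d).trans (hf.trans hhalf)
  obtain ⟨δ, hδ⟩ : ∃ δ : ℝ, δ = V0 - V1 := ⟨_, rfl⟩
  have hδ0 : 0 ≤ δ := by rw [hδ]; linarith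
  have hδU : δ ≤ U * V1 := by
    rw [hδ, hU, hV1, hV0]
    refine o52_ratio hEM hA0 (by omega) ?_
    rw [← hU]
    linarith
  have hwid : ∀ n : ℕ, 2 ^ (y - 1) ≤ n → n ≤ 2 ^ (y + m) → cJ ≤ δ * n := by
    intro n h1 h2
    obtain ⟨h3, h4⟩ := hsl n h1 h2
    have h5 := o52_width hEM hA0 hA (n := n) (by linarith)
    rw [← hcJ] at h5
    have h6 := one_le_EE (μ := μ) n
    have h7 : (vA μ A1 n - vA μ A0 n) * n ≤ δ * n := mul_le_mul_of_nonneg_right (by rw [hδ]; linarith) (Nat.cast_nonneg n)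
    exact (le_mul_of_one_le_right hcJ0.le h6).trans (h5.trans h7)
  -- powers of two
  have epow : ((1 : ℝ) / 2) ^ (y - x) * 2 ^ y = 2 ^ x := by
    have h1 : (2 : ℝ) ^ y = 2 ^ (y - x) * 2 ^ x := by
      rw [← pow_add]
      congr 1
      omega
    rw [h1, ← mul_assoc, ← mul_pow]
    norm_num
  have h2y : (0 : ℝ) < 2 ^ y := by positivity
  have hwy := hwid (2 ^ y) (Nat.pow_le_pow_right (by norm_num) (by omega)) (Nat.pow_le_pow_right (by norm_num) (by omega))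
  push_cast at hwy
  have hfy : C0 * U * 2 ^ y ≤ 2 ^ x := by
    have h1 := mul_le_mul_of_nonneg_right hf h2y.le
    rwa [epow] at h1
  -- the slope and the width of the tube
  obtain ⟨u, hu⟩ : ∃ u : ℝ, u = V1 - C' * δ := ⟨_, rfl⟩
  have huV : V1 / 2 ≤ u := by
    have h1 : C' * δ ≤ C' * (U * V1) := mul_le_mul_of_nonneg_left hδU hC'0.le
    have h2 : C' * U ≤ 1 / 2 := by
      have h20 : 2 * C' * U ≤ C0 * U := mul_le_mul_of_nonneg_right hC0c hU0
      linarith only [h20, hf, hhalf]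
    have h3 : C' * (U * V1) ≤ 1 / 2 * V1 := by
      rw [← mul_assoc]
      exact mul_le_mul_of_nonneg_right h2 hV10.le
    rw [hu]
    linarith
  have hu0 : 0 ≤ u := by linarith
  have huV1 : u ≤ V1 := by
    have : 0 ≤ C' * δ := by positivity
    rw [hu]
    linarith
  obtain ⟨D, hD⟩ : ∃ D : ℝ, D = 2 * 2 ^ y * ((C' + C2) * δ) + 1 := ⟨_, rfl⟩
  have hD4 : 4 * D ≤ u * 2 ^ x := by
    have h1 : 32 * (C' + C2) * (U * 2 ^ y) ≤ 2 ^ x := by
      have h2 : 32 * (C' + C2) * (U * 2 ^ y) ≤ C0 * (U * 2 ^ y) := mul_le_mul_of_nonneg_right hC0a (by positivity)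
      linarith
    have h3 : (C' + C2) * δ * 2 ^ y ≤ (C' + C2) * (U * V1) * 2 ^ y :=
      mul_le_mul_of_nonneg_right (mul_le_mul_of_nonneg_left hδU (by linarith)) h2y.le
    have h4 : 32 * ((C' + C2) * (U * V1) * 2 ^ y) ≤ V1 * 2 ^ x := by
      have h5 := mul_le_mul_of_nonneg_left h1 hV10.le
      linarith
    have h6 : 16 ≤ V1 * 2 ^ x := by
      have h7 : 16 ≤ C0 * (δ * 2 ^ y) := by
        have h8 : 16 / cJ * cJ ≤ C0 * (δ * 2 ^ y) := mul_le_mul hC0b hwy hcJ0.le (by linarith)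
        rwa [div_mul_cancel₀ _ hcJ0.ne'] at h8
      have h9 : C0 * (δ * 2 ^ y) ≤ C0 * ((U * V1) * 2 ^ y) :=
        mul_le_mul_of_nonneg_left (mul_le_mul_of_nonneg_right hδU h2y.le) (by linarith)
      have h10 : V1 * (C0 * U * 2 ^ y) ≤ V1 * 2 ^ x := mul_le_mul_of_nonneg_left hfy hV10.le
      linarith
    have h11 : V1 / 2 * 2 ^ x ≤ u * 2 ^ x := mul_le_mul_of_nonneg_right huV (by positivity)
    rw [hD]
    linarith
  have hD2 : 2 ≤ D := by
    have h1 : 4 / cJ * cJ ≤ (C' + C2) * (δ * 2 ^ y) :=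
      mul_le_mul (by rw [hC']; linarith) hwy hcJ0.le (by linarith)
    rw [div_mul_cancel₀ _ hcJ0.ne'] at h1
    rw [hD]
    linarith
  have hEy := one_le_EE (μ := μ) (2 ^ (y + m))
  have hRHS : 0 ≤ Em μ (2 ^ (y + m)) - Em μ (2 ^ x) + ε * EE μ (2 ^ (y + m)) := by
    have h1 := Em_mono (μ := μ) (Nat.pow_le_pow_right (n := 2) (by norm_num) (show x ≤ y + m by omega))
    have h2 : 0 ≤ ε * EE μ (2 ^ (y + m)) := by positivity
    linarith
  have hhp : (0 : ℝ) < (1 / 2) ^ (y - x) := by positivity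
  rcases tube_growth (μ := μ) hEM (1 / 2 + u) D (2 ^ x) (by push_cast; linarith) with hcase | ⟨m', hm'1, hm'2, hEm', hall⟩
  · rw [pow_succ', hcase, sub_self]
    positivity
  · obtain ⟨hTlo, hThi⟩ := o52_duration (m := m') hy hm'1 hm'2
    obtain ⟨K, hK⟩ : ∃ K, K = 2 ^ (y - x) - 2 := ⟨_, rfl⟩
    rw [← hK] at hTlo hThi
    have hall' := hall 0 K
    obtain ⟨T, hT⟩ : ∃ T, T = K * (m' - m' / 2) + m' := ⟨_, rfl⟩
    rw [← hT] at hTlo hThi hall'
    have hT4 : 4 ≤ T := by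
      have h1 : 2 ^ 2 ≤ 2 ^ (y - 1) := Nat.pow_le_pow_right (by norm_num) (by omega)
      omega
    have hTpos : (0 : ℝ) < T := by
      have : 0 < T := by omega
      exact_mod_cast this
    have h2T : 2 * T ≤ 2 ^ (y + m) := by
      have h1 : 2 ^ (y + 1) ≤ 2 ^ (y + m) := Nat.pow_le_pow_right (by norm_num) (by omega)
      rw [pow_succ] at h1
      omega
    have haT : a ≤ T := by
      have h1 : a < 2 ^ a := Nat.lt_two_pow_self
      have h2 : 2 ^ a ≤ 2 ^ (y - 1) := Nat.pow_le_pow_right (by norm_num) (by omega)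
      omega
    have hTy : (T : ℝ) ≤ 2 ^ y := by exact_mod_cast hThi
    -- the displacements near the line are inside the inner edge
    have hinside : ∀ (n : ℕ) (d : ℤ), 2 ^ (y - 1) ≤ n → n ≤ 2 ^ (y + m) → |(d : ℝ) - n / 2| ≤ u * n + 2 →
        ∀ Cx : ℝ, 0 ≤ Cx → Cx + 4 / cJ ≤ C' → |(d : ℝ) - n / 2| ≤ (V1 - Cx * δ) * n := by
      intro n d h1 h2 h3 Cx hCx hCx'
      have h4 := hwid n h1 h2
      have h5 : 4 / cJ * cJ ≤ (C' - Cx) * (δ * n) := mul_le_mul (by linarith) h4 hcJ0.le (by linarith)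
      rw [div_mul_cancel₀ _ hcJ0.ne'] at h5
      rw [hu] at h3
      linarith
    have hcheap : ∀ (n : ℕ) (d : ℤ), T ≤ n → n ≤ 2 * T → |(d : ℝ) - n / 2| ≤ u * n + 2 →
        e μ 0 n d ≤ cT * EE μ (2 * T) := by
      intro n d h1 h2 h3
      have h4 := hinside n d (hTlo.trans h1) (h2.trans h2T) h3 Ci hCi (by rw [hC']; linarith)
      obtain ⟨h5, h6⟩ := hsl n (hTlo.trans h1) (h2.trans h2T)
      have h7 := vA_mono hEM hA0.le hA.le n
      have h8 : (V1 - Ci * δ) * n ≤ (vA μ A0 n - Ci * (vA μ A1 n - vA μ A0 n)) * n := by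
        refine mul_le_mul_of_nonneg_right ?_ (Nat.cast_nonneg n)
        have h9 : Ci * (vA μ A1 n - vA μ A0 n) ≤ Ci * δ := mul_le_mul_of_nonneg_left (by rw [hδ]; linarith) hCi
        linarith
      have h10 := hin n (by omega) d (h4.trans h8)
      have h11 : EE μ n ≤ EE μ (2 * T) := EE_mono h2
      have h12 := one_le_EE (μ := μ) n
      have h13 : c1 * EE μ n ≤ c1 * EE μ (2 * T) := mul_le_mul_of_nonneg_left h11 (by linarith)
      have h14 : c1 * EE μ (2 * T) ≤ cT * EE μ (2 * T) :=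
        mul_le_mul_of_nonneg_right (by rw [hcT]; linarith [abs_nonneg Cl]) (by linarith)
      linarith
    have hlogT : Real.log (4 * T) ≤ cT * EE μ T := by
      have h1 := hlog (4 * T) (by omega)
      push_cast at h1
      have h2 := EE_mul hEM 4 T (by norm_num)
      push_cast at h2
      have h3 := one_le_EE (μ := μ) T
      have h4 := one_le_EE (μ := μ) (4 * T)
      have h5 : Cl * EE μ (4 * T) ≤ |Cl| * (4 * EE μ T) :=
        (mul_le_mul_of_nonneg_right (le_abs_self Cl) (by linarith)).trans (mul_le_mul_of_nonneg_left h2 (abs_nonneg _))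
      have h6 : 0 ≤ c1 * EE μ T := by positivity
      rw [hcT]
      linarith
    obtain ⟨h2Ta, h2Tb⟩ := hsl (2 * T) (by omega) h2T
    have hx22 : (2 : ℝ) ^ x ≤ T := by
      have h1 : 2 ^ x ≤ 2 ^ (y - 1) := Nat.pow_le_pow_right (by norm_num) (by omega)
      exact_mod_cast h1.trans hTlo
    obtain ⟨q2, q3, q4⟩ := htube T V1 V0 u D hT4 hlogT hV10.le hV01 h2Ta h2Tb (by linarith) hu0 (by linarith) (by linarith)
      (by
        have g1 : u * 2 ^ x ≤ u * T := mul_le_mul_of_nonneg_left hx22 hu0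
        have g2 : 0 ≤ u * T := mul_nonneg hu0 hTpos.le
        linarith only [g1, g2, hD4]) hcheap (by
        have h1 : (C' + C2) * δ ≤ (D - 1) / (2 * T) := by
          rw [le_div_iff₀ (by positivity), hD]
          have h2 : (C' + C2) * δ * (2 * T) ≤ (C' + C2) * δ * (2 * 2 ^ y) :=
            mul_le_mul_of_nonneg_left (by linarith) (by positivity)
          linarith
        rw [hu, ← hδ]
        linarith)
    -- the end point
    obtain ⟨z, hz⟩ : ∃ z : ℤ, z = ⌊(1 / 2 + u) * (T : ℝ)⌋ := ⟨_, rfl⟩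
    rw [← hz] at q2 q3 q4
    have hz1 : (z : ℝ) ≤ (1 / 2 + u) * T := by rw [hz]; exact Int.floor_le _
    have hz2 : (1 / 2 + u) * T < z + 1 := by rw [hz]; exact Int.lt_floor_add_one _
    have hzc : |(z : ℝ) - T / 2| ≤ u * T + 2 := by
      have : 0 ≤ u * T := by positivity
      rw [abs_le]
      constructor <;> linarith
    have hzt : |(z : ℝ) - (1 / 2 + u) * T| + 1 ≤ D := by
      have : |(z : ℝ) - (1 / 2 + u) * T| ≤ 1 := by
        rw [abs_le]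
        constructor <;> linarith
      linarith
    have hbd := Pool.Agent.W_7d29a1_g.HasPath.bounds q3
    have hgrow := hall' z hbd.1 hbd.2 hzt
    have he := hcheap T z le_rfl (by omega) hzc
    have hE2T : EE μ (2 * T) ≤ EE μ (2 ^ (y + m)) := EE_mono h2T
    have hE2T1 := one_le_EE (μ := μ) (2 * T)
    have hmean := o52_mean (μ := μ) (hnS (y + m) (by omega) (by omega)) hα2 q3
      (hThi.trans (Nat.pow_le_pow_right (by norm_num) (by omega)))
      (he.trans (mul_le_mul hα3 hE2T (by linarith) (by positivity)))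
      (q4.trans (mul_le_mul hα4 hE2T (by linarith) (by positivity))) q2
    have hinn := hI a b ha1 (fun w hw1 hw2 hw3 => hnS w hw1 hw2 (hw3.mono hα1)) hslow y (by omega) hb T hTlo hThi z (by
      have h1 := hinside T z hTlo (by omega) hzc Ce hCe (by rw [hC']; linarith)
      refine h1.trans (mul_le_mul_of_nonneg_right ?_ hTpos.le)
      rw [← hV1]
      have h2 : vA μ A0 (2 ^ (y - 1 - ki)) ≤ V0 := by
        rw [hV0]
        exact o52_vA_anti hEM hA0.le (by omega)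
      have h3 : Ce * (vA μ A0 (2 ^ (y - 1 - ki)) - V1) ≤ Ce * δ := mul_le_mul_of_nonneg_left (by rw [hδ]; linarith) hCe
      linarith)
    have hEmT : Em μ T ≤ Em μ (2 ^ (y + m)) := Em_mono (by omega)
    have hElog : Real.log 2 ≤ ε / 4 * EE μ (2 ^ (y + m)) := by
      have h1 := hx1 (y + m) (by omega)
      rw [div_le_iff₀ hε] at h1
      linarith
    have hα6 : 2 * ((2 : ℝ) ^ (-α) * EE μ (2 ^ (y + m))) ≤ ε / 4 * EE μ (2 ^ (y + m)) := by
      have h1 := mul_le_mul_of_nonneg_right hα5 (show (0 : ℝ) ≤ EE μ (2 ^ (y + m)) by linarith)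
      linarith
    have hmono1 : Em μ (2 ^ x) ≤ Em μ (2 ^ (x + 1)) := Em_mono (Nat.pow_le_pow_right (by norm_num) (by omega))
    rw [← pow_succ'] at hgrow
    have hKr : (K : ℝ) * ((1 / 2) ^ (y - x)) ≥ 1 / 2 := by
      have h1 : (K : ℝ) = 2 ^ (y - x) - 2 := by
        rw [hK, Nat.cast_sub]
        · push_cast
          ring
        · have : 2 ^ 1 ≤ 2 ^ (y - x) := Nat.pow_le_pow_right (by norm_num) (by omega)
          simpa using this
      have h2 : (2 : ℝ) ^ (y - x) * (1 / 2) ^ (y - x) = 1 := by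
        rw [← mul_pow]
        norm_num
      rw [h1, sub_mul, h2]
      linarith only [hhalf]
    have hfin : K * (Em μ (2 ^ (x + 1)) - Em μ (2 ^ x)) ≤
        Em μ (2 ^ (y + m)) - Em μ (2 ^ x) + ε * EE μ (2 ^ (y + m)) := by linarith
    have h1 := mul_le_mul_of_nonneg_left hfin hhp.le
    have h2 : 1 / 2 * (Em μ (2 ^ (x + 1)) - Em μ (2 ^ x)) ≤
        K * ((1 / 2) ^ (y - x)) * (Em μ (2 ^ (x + 1)) - Em μ (2 ^ x)) :=
      mul_le_mul_of_nonneg_right hKr (by linarith)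
    linarith

end Pool.Agent.W_7d29a1_G
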