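import Pool.Agent.W_7d29a1_G.OctDefs
import Pool.Agent.W_7d29a1_G.ElemD1

/-!
MP_7d29a1_pr, track G, D4 (row 619), (0.1), (0.2), (7.1): the slopes of the edge along a stretch of slow growth.
-/

namespace Pool.Agent.W_7d29a1_G

open MeasureTheory ProbabilityTheory Filter Topology Pool.Agent.W_7d29a1_F Pool.Agent.W_7d29a1_h4g

variable {μ : Measure ℝ} [IsProbabilityMeasure μ]

/-- Convexity of `J` in the form of slopes. -/
theorem o52_slope (hμ : Pool.Agent.W_7d29a1_h47.EM μ) {a b c : ℝ} (ha : 0 ≤ a) (hab : a < b) (hbc : b < c)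
    (hc : c ≤ 1 / 2) : (J μ b - J μ a) / (b - a) ≤ (J μ c - J μ b) / (c - b) :=
  (J_convex hμ).slope_mono_adjacent ⟨by linarith, by linarith⟩ ⟨by linarith, hc⟩ hab hbc

/-- (0.2) of row 619: the edge has width at least a constant times `E(n) / n`. -/
theorem o52_width (hμ : Pool.Agent.W_7d29a1_h47.EM μ) {A0 A1 : ℝ} (h0 : 0 < A0) (h01 : A0 < A1) {n : ℕ}
    (hu : vA μ A1 n ≤ 1 / 4) :
    (A1 - A0) / (4 * J μ (1 / 2) + 1) * EE μ n ≤ (vA μ A1 n - vA μ A0 n) * n := by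
  have hA1 : 0 < A1 := h0.trans h01
  have e1 := vA_eq' hμ hA1.le (n := n) (by linarith)
  have hvu := vA_mono hμ h0.le h01.le n
  have e0' := vA_eq' hμ h0.le (n := n) (by linarith)
  have hv0 := vA_nonneg hμ h0.le n
  have hE := one_le_EE (μ := μ) n
  have hJ : 0 ≤ J μ (1 / 2) := J_nonneg hμ (by rw [abs_of_pos (by norm_num)])
  have hn : (0 : ℝ) ≤ n := Nat.cast_nonneg n
  have hlt : vA μ A0 n < vA μ A1 n := by
    rcases hvu.lt_or_eq with h | h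
    · exact h
    · exfalso
      rw [h, e1] at e0'
      nlinarith
  have hs : (J μ (vA μ A1 n) - J μ (vA μ A0 n)) / (vA μ A1 n - vA μ A0 n) ≤
      (J μ (1 / 2) - J μ (vA μ A1 n)) / (1 / 2 - vA μ A1 n) :=
    o52_slope hμ hv0 hlt (by linarith) le_rfl
  have hJu : 0 ≤ J μ (vA μ A1 n) := J_nonneg hμ (by rw [abs_of_nonneg (hv0.trans hvu)]; linarith)
  have h4 : (J μ (1 / 2) - J μ (vA μ A1 n)) / (1 / 2 - vA μ A1 n) ≤ 4 * J μ (1 / 2) := by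
    rw [div_le_iff₀ (by linarith)]
    nlinarith
  have h5 : J μ (vA μ A1 n) - J μ (vA μ A0 n) ≤ 4 * J μ (1 / 2) * (vA μ A1 n - vA μ A0 n) := by
    have := hs.trans h4
    rwa [div_le_iff₀ (by linarith)] at this
  have h6 : (A1 - A0) * EE μ n ≤ (4 * J μ (1 / 2)) * ((vA μ A1 n - vA μ A0 n) * n) := by
    have h7 := mul_le_mul_of_nonneg_left h5 hn
    nlinarith
  have h8 : 0 ≤ (vA μ A1 n - vA μ A0 n) * n := by
    have : 0 ≤ vA μ A1 n - vA μ A0 n := by linarith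
    positivity
  rw [div_mul_eq_mul_div, div_le_iff₀ (by linarith)]
  nlinarith

/-- (0.1) of row 619: the price beyond the edge. -/
theorem o52_far (hμ : Pool.Agent.W_7d29a1_h47.EM μ) {A0 A1 : ℝ} (h0 : 0 < A0) (h01 : A0 < A1) {n : ℕ}
    (hu : vA μ A1 n ≤ 1 / 4) {r s : ℝ} (hr : 1 ≤ r) (hs : vA μ A0 n + r * (vA μ A1 n - vA μ A0 n) ≤ s)
    (hs1 : s ≤ 1 / 2) : (A0 + r * (A1 - A0)) * EE μ n ≤ n * J μ s := by
  have hA1 : 0 < A1 := h0.trans h01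
  have e1 := vA_eq' hμ hA1.le (n := n) (by linarith)
  have hvu := vA_mono hμ h0.le h01.le n
  have e0' := vA_eq' hμ h0.le (n := n) (by linarith)
  have hv0 := vA_nonneg hμ h0.le n
  have hE := one_le_EE (μ := μ) n
  have hn : (0 : ℝ) ≤ n := Nat.cast_nonneg n
  have hlt : vA μ A0 n < vA μ A1 n := by
    rcases hvu.lt_or_eq with h | h
    · exact h
    · exfalso
      rw [h, e1] at e0'
      nlinarith
  obtain ⟨d, hd⟩ : ∃ d : ℝ, d = vA μ A1 n - vA μ A0 n := ⟨_, rfl⟩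
  have hd0 : 0 < d := by rw [hd]; linarith
  rw [← hd] at hs
  have hw : vA μ A0 n + r * d ≤ 1 / 2 := hs.trans hs1
  have h2 : (A0 + r * (A1 - A0)) * EE μ n ≤ n * J μ (vA μ A0 n + r * d) := by
    rcases hr.lt_or_eq with h | h
    · have hsl := o52_slope hμ hv0 hlt (show vA μ A1 n < vA μ A0 n + r * d by nlinarith) hw
      have ea : vA μ A0 n + r * d - vA μ A1 n = (r - 1) * d := by rw [hd]; ring
      rw [ea, ← hd, div_le_div_iff₀ hd0 (by nlinarith)] at hsl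
      have hsl2 : (J μ (vA μ A1 n) - J μ (vA μ A0 n)) * (r - 1) ≤
          J μ (vA μ A0 n + r * d) - J μ (vA μ A1 n) := by
        have h3 : d * ((J μ (vA μ A1 n) - J μ (vA μ A0 n)) * (r - 1)) ≤
            d * (J μ (vA μ A0 n + r * d) - J μ (vA μ A1 n)) := by nlinarith
        exact le_of_mul_le_mul_left h3 hd0
      have h3 := mul_le_mul_of_nonneg_left hsl2 hn
      have e3 : (n : ℝ) * ((J μ (vA μ A1 n) - J μ (vA μ A0 n)) * (r - 1)) =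
          (n * J μ (vA μ A1 n) - n * J μ (vA μ A0 n)) * (r - 1) := by ring
      rw [e3, e1, e0'] at h3
      nlinarith
    · have ea : vA μ A0 n + r * d = vA μ A1 n := by rw [← h, hd]; ring
      rw [ea, e1, ← h]
      nlinarith
  refine h2.trans (mul_le_mul_of_nonneg_left ?_ hn)
  exact J_mono' hμ (by nlinarith) hs hs1

omit [IsProbabilityMeasure μ] in
/-- The octave of a number. -/
theorem o52_octave {y M n : ℕ} (h1 : 2 ^ y ≤ n) (h2 : n ≤ 2 ^ (M + 1)) (hyM : y ≤ M) :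
    ∃ z, y ≤ z ∧ z ≤ M ∧ 2 ^ z ≤ n ∧ n ≤ 2 ^ (z + 1) := by
  induction M with
  | zero => exact ⟨0, by omega, le_rfl, by
      have : y = 0 := by omega
      subst this
      exact h1, h2⟩
  | succ M ih =>
    by_cases h3 : 2 ^ (M + 1) ≤ n
    · exact ⟨M + 1, hyM, le_rfl, h3, h2⟩
    · push Not at h3
      have hy : y ≤ M := by
        by_contra hcon
        push Not at hcon
        have h4 : 2 ^ (M + 1) ≤ 2 ^ y := Nat.pow_le_pow_right (by norm_num) hcon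
        omega
      obtain ⟨z, hz1, hz2, hz3, hz4⟩ := ih h3.le hy
      exact ⟨z, hz1, by omega, hz3, hz4⟩

theorem o52_vA_anti (hμ : Pool.Agent.W_7d29a1_h47.EM μ) {A : ℝ} (hA : 0 ≤ A) {y x : ℕ} (h : y ≤ x) :
    vA μ A (2 ^ x) ≤ vA μ A (2 ^ y) := by
  induction x with
  | zero =>
    have : y = 0 := by omega
    subst this
    exact le_rfl
  | succ x ih =>
    rcases Nat.lt_or_ge x y with h1 | h1
    · have : y = x + 1 := by omega
      rw [this]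
    · have h2 := vA_two hμ hA (2 ^ x)
      rw [← pow_succ'] at h2
      exact h2.trans (ih h1)

/-- (7.1), lower half. -/
theorem o52_slow_lo (hμ : Pool.Agent.W_7d29a1_h47.EM μ) {A : ℝ} (hA : 0 < A) {a b z n : ℕ} (hs : Slow μ a b)
    (h1 : a ≤ z) (h2 : z + 4 < b) (h3 : 2 ^ z ≤ n) (h4 : n ≤ 2 ^ (z + 1)) : vA μ A (2 ^ (z + 4)) ≤ vA μ A n := by
  refine le_vA (vA_nonneg hμ hA.le _) (vA_le hμ hA.le _) ?_
  have h5 := vA_mem hμ hA.le (2 ^ (z + 4))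
  have h6 := hs z (z + 4) h1 (by omega) h2
  rw [show z + 4 - z = 4 by omega] at h6
  have h7 : EE μ (2 ^ z) ≤ EE μ n := EE_mono h3
  have h8 : (n : ℝ) ≤ 2 ^ (z + 1) := by exact_mod_cast h4
  have hE := one_le_EE (μ := μ) (2 ^ z)
  have hz : (0 : ℝ) < 2 ^ z := by positivity
  have hJ : 0 ≤ J μ (vA μ A (2 ^ (z + 4))) := J_nonneg hμ (by
    rw [abs_of_nonneg (vA_nonneg hμ hA.le _)]
    exact vA_le hμ hA.le _)
  push_cast at h5
  rw [pow_add] at h5 h8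
  have h9 : A * EE μ (2 ^ (z + 4)) ≤ A * (3 * (5 / 4 : ℝ) ^ 4 * EE μ (2 ^ z)) := mul_le_mul_of_nonneg_left h6 hA.le
  have h10 : (n : ℝ) * J μ (vA μ A (2 ^ (z + 4))) ≤ 2 ^ z * 2 ^ 1 * J μ (vA μ A (2 ^ (z + 4))) :=
    mul_le_mul_of_nonneg_right h8 hJ
  have h11 : A * EE μ (2 ^ z) ≤ A * EE μ n := mul_le_mul_of_nonneg_left h7 hA.le
  have h12 : 0 < A * EE μ (2 ^ z) := by positivity
  norm_num at h9 h10 h5
  nlinarith

/-- (7.1), upper half. -/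
theorem o52_slow_hi (hμ : Pool.Agent.W_7d29a1_h47.EM μ) {A0 A1 : ℝ} (hA0 : 0 < A0) (hA1 : 0 < A1) {k : ℕ}
    (hk : 15 / 4 * A1 * (5 / 8 : ℝ) ^ k ≤ A0) {a b z n : ℕ} (hs : Slow μ a b) (h1 : a + k ≤ z) (h2 : z + 1 < b)
    (h3 : 2 ^ z ≤ n) (h4 : n ≤ 2 ^ (z + 1)) : vA μ A1 n ≤ vA μ A0 (2 ^ (z - k)) := by
  refine le_vA (vA_nonneg hμ hA1.le _) (vA_le hμ hA1.le _) ?_
  have h5 := vA_mem hμ hA1.le n
  have h6 := hs (z - k) (z + 1) (by omega) (by omega) h2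
  rw [show z + 1 - (z - k) = k + 1 by omega] at h6
  have h7 : EE μ n ≤ EE μ (2 ^ (z + 1)) := EE_mono h4
  have h8 : (2 ^ z : ℝ) ≤ n := by exact_mod_cast h3
  have hE := one_le_EE (μ := μ) (2 ^ (z - k))
  have hJ : 0 ≤ J μ (vA μ A1 n) := J_nonneg hμ (by
    rw [abs_of_nonneg (vA_nonneg hμ hA1.le _)]
    exact vA_le hμ hA1.le _)
  have e1 : (2 : ℝ) ^ z = 2 ^ (z - k) * 2 ^ k := by
    rw [← pow_add]
    congr 1
    omega
  have h9 : (2 : ℝ) ^ z * J μ (vA μ A1 n) ≤ A1 * (3 * (5 / 4 : ℝ) ^ (k + 1) * EE μ (2 ^ (z - k))) :=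
    (mul_le_mul_of_nonneg_right h8 hJ).trans (h5.trans (mul_le_mul_of_nonneg_left (h7.trans h6) hA1.le))
  have e2 : (5 / 4 : ℝ) ^ (k + 1) = 5 / 4 * ((5 / 8 : ℝ) ^ k * 2 ^ k) := by
    rw [pow_succ, ← mul_pow]
    norm_num
    ring
  rw [e1, e2] at h9
  have h2k : (0 : ℝ) < 2 ^ k := by positivity
  have h10 : 2 ^ k * ((2 : ℝ) ^ (z - k) * J μ (vA μ A1 n)) ≤
      2 ^ k * ((15 / 4 * A1 * (5 / 8 : ℝ) ^ k) * EE μ (2 ^ (z - k))) := by
    nlinarith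
  have h11 := le_of_mul_le_mul_left h10 h2k
  push_cast
  refine h11.trans (mul_le_mul_of_nonneg_right hk (by linarith))

theorem o52_exists_k {A0 A1 : ℝ} (hA0 : 0 < A0) (hA1 : 0 < A1) :
    ∃ k : ℕ, ∀ k' : ℕ, k ≤ k' → 15 / 4 * A1 * (5 / 8 : ℝ) ^ k' ≤ A0 := by
  obtain ⟨k, hk⟩ := exists_pow_lt_of_lt_one (show (0 : ℝ) < A0 / (15 / 4 * A1) by positivity)
    (show (5 / 8 : ℝ) < 1 by norm_num)
  refine ⟨k, fun k' hk' => ?_⟩
  have h1 : (5 / 8 : ℝ) ^ k' ≤ (5 / 8 : ℝ) ^ k := pow_le_pow_of_le_one (by norm_num) (by norm_num) hk'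
  have h2 := (h1.trans hk.le)
  rw [le_div_iff₀ (by positivity)] at h2
  linarith

/-- (7.1): all slopes of the scales between `2 ^ (y - 1)` and `2 ^ (y + m)`. -/
theorem o52_slopes (hμ : Pool.Agent.W_7d29a1_h47.EM μ) {A0 A1 : ℝ} (hA0 : 0 < A0) (hA1 : 0 < A1) {k : ℕ}
    (hk : 15 / 4 * A1 * (5 / 8 : ℝ) ^ k ≤ A0) {a b y m : ℕ} (hs : Slow μ a b) (h1 : a + k + 1 ≤ y) (hm : 1 ≤ m)
    (h2 : y + m + 3 < b) {n : ℕ} (h3 : 2 ^ (y - 1) ≤ n) (h4 : n ≤ 2 ^ (y + m)) :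
    vA μ A0 (2 ^ (y + m + 3)) ≤ vA μ A0 n ∧ vA μ A1 n ≤ vA μ A0 (2 ^ (y - 1 - k)) := by
  obtain ⟨z, hz1, hz2, hz3, hz4⟩ := o52_octave (y := y - 1) (M := y + m - 1) (n := n) h3 (by
    rw [show y + m - 1 + 1 = y + m by omega]
    exact h4) (by omega)
  constructor
  · exact (o52_vA_anti hμ hA0.le (show z + 4 ≤ y + m + 3 by omega)).trans
      (o52_slow_lo hμ hA0 hs (by omega) (by omega) hz3 hz4)
  · exact (o52_slow_hi hμ hA0 hA1 hk hs (by omega) (by omega) hz3 hz4).trans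
      (o52_vA_anti hμ hA0.le (by omega))

/-- The ratio of two slopes from the difference of the closings. -/
theorem o52_ratio (hμ : Pool.Agent.W_7d29a1_h47.EM μ) {A : ℝ} (hA : 0 < A) {y x : ℕ} (hyx : y ≤ x)
    (h : ff μ A x - ff μ A y ≤ 1) :
    vA μ A (2 ^ y) - vA μ A (2 ^ x) ≤ (ff μ A x - ff μ A y) * vA μ A (2 ^ x) := by
  have h1 := ff_mono (μ := μ) hμ hA hyx
  have hx := vA_pos hμ hA (2 ^ x)
  obtain ⟨u, hu⟩ : ∃ u : ℝ, u = ff μ A x - ff μ A y := ⟨_, rfl⟩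
  rw [← hu] at h ⊢
  have hu0 : 0 ≤ u := by rw [hu]; linarith
  have e1 : vA μ A (2 ^ y) = (2 : ℝ) ^ u * vA μ A (2 ^ x) := by
    rw [← two_rpow_ff hμ hA y, ← two_rpow_ff hμ hA x, ← Real.rpow_add two_pos]
    congr 1
    rw [hu]
    ring
  have h2 : (2 : ℝ) ^ u ≤ 1 + u := by
    have h3 := rpow_one_add_le_one_add_mul_self (s := 1) (by norm_num) hu0 h
    norm_num at h3
    linarith
  rw [e1]
  nlinarith

end Pool.Agent.W_7d29a1_G
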