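import Pool.Agent.W_7d29a1_G.Oct52a
import Pool.Agent.W_7d29a1_G.D4Six
import Pool.Agent.W_7d29a1_h57g.TubeLine

/-!
MP_7d29a1_pr, track G, D4 (row 619), section 6 in the form used by section 7: the mean cost of the polymer in a tube which carries
half of the weight with probability `3 / 4`, at an octave which is not soft.
-/

namespace Pool.Agent.W_7d29a1_G

open MeasureTheory ProbabilityTheory Filter Topology Pool.Agent.W_7d29a1_F Pool.Agent.W_7d29a1_h4g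
open Pool.Agent.W_7d29a1_g

variable {μ : Measure ℝ} [IsProbabilityMeasure μ]

theorem o52_mean {x : ℕ} {α : ℝ} (hS : ¬ Sf μ x α) (hα : 2 ≤ α) {R : Set Pt} {T : ℕ} {z : ℤ} (hpath : HasPath R 0 T z)
    (hT : T ≤ 2 ^ x) (he : e μ 0 T z ≤ (2 : ℝ) ^ α * EE μ (2 ^ x))
    (hR : eR μ 0 R 0 T z ≤ (2 : ℝ) ^ α * EE μ (2 ^ x))
    (hW : 1 - 1 / 4 ≤ (law μ).real {η | W μ 0 η 0 T z ≤ 2 * WR μ 0 R η 0 T z}) :
    eR μ 0 R 0 T z ≤ e μ 0 T z + 2 * ((2 : ℝ) ^ (-α) * EE μ (2 ^ x)) + Real.log 2 := by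
  have hbd := hpath.bounds
  obtain ⟨D, hD⟩ : ∃ D : ℝ, D = (2 : ℝ) ^ (-α) * EE μ (2 ^ x) := ⟨_, rfl⟩
  have hl : (T : ℝ) ≤ (2 : ℝ) ^ ((x : ℝ) + α) := by
    have h1 : (T : ℝ) ≤ (2 : ℝ) ^ x := by exact_mod_cast hT
    have h2 : (2 : ℝ) ^ (x : ℝ) ≤ (2 : ℝ) ^ ((x : ℝ) + α) :=
      Real.rpow_le_rpow_of_exponent_le one_le_two (by linarith)
    rw [Real.rpow_natCast] at h2
    linarith
  have hneg : (2 : ℝ) ^ (-α) ≤ 1 / 4 := by
    have h1 : (2 : ℝ) ^ (-α) ≤ (2 : ℝ) ^ (-(2 : ℝ)) := Real.rpow_le_rpow_of_exponent_le one_le_two (by linarith)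
    have h2 : (2 : ℝ) ^ (-(2 : ℝ)) = 1 / 4 := by
      rw [Real.rpow_neg two_pos.le, show (2 : ℝ) = ((2 : ℕ) : ℝ) by norm_num, Real.rpow_natCast]
      norm_num
    exact h1.trans h2.le
  have hWpos : ∀ η : Env, 0 < W μ 0 η 0 T z := fun η => W_pos η 0 hbd.1 hbd.2
  have hRpos : ∀ η : Env, 0 < WR μ 0 R η 0 T z := fun η => hpath.wr_pos η
  have e1 : ∫ η, Real.log (W μ 0 η 0 T z) ∂(law μ) = -e μ 0 T z := by
    unfold e X
    rw [integral_neg, neg_neg]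
  have e2 : ∫ η, Real.log (WR μ 0 R η 0 T z) ∂(law μ) = -eR μ 0 R 0 T z := by
    unfold eR
    rw [integral_neg, neg_neg]
  have c1 := conc_of_not_Sf hS hl (G := fun η => W μ 0 η 0 T z) (poly_WR0 Set.univ T z) hWpos
    (log_WR_le_V Set.univ 0 hbd.1 hbd.2 hWpos) (by
      show -((2 : ℝ) ^ α * EE μ (2 ^ x)) ≤ ∫ η, Real.log (W μ 0 η 0 T z) ∂(law μ)
      rw [e1]
      linarith)
  have c2 := conc_of_not_Sf hS hl (G := fun η => WR μ 0 R η 0 T z) (poly_WR0 R T z) hRpos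
    (log_WR_le_V R 0 hbd.1 hbd.2 hRpos) (by
      show -((2 : ℝ) ^ α * EE μ (2 ^ x)) ≤ ∫ η, Real.log (WR μ 0 R η 0 T z) ∂(law μ)
      rw [e2]
      linarith)
  rw [← hD] at c1 c2
  simp only [e1, sub_neg_eq_add] at c1
  simp only [e2, sub_neg_eq_add] at c2
  have hm : MeasurableSet {η : Env | W μ 0 η 0 T z ≤ 2 * WR μ 0 R η 0 T z} :=
    measurableSet_le (measurable_W 0 T z) ((measurable_WR R 0 T z).const_mul 2)
  have c3 : (law μ).real {η : Env | W μ 0 η 0 T z ≤ 2 * WR μ 0 R η 0 T z}ᶜ ≤ 1 / 4 := by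
    rw [probReal_compl_eq_one_sub hm]
    linarith
  obtain ⟨η, hη⟩ : ∃ η : Env, η ∉ ({η : Env | D ≤ |Real.log (W μ 0 η 0 T z) + e μ 0 T z|} ∪
      {η | D ≤ |Real.log (WR μ 0 R η 0 T z) + eR μ 0 R 0 T z|}) ∪
      {η : Env | W μ 0 η 0 T z ≤ 2 * WR μ 0 R η 0 T z}ᶜ := by
    by_contra hcon
    push Not at hcon
    have h1 := Set.eq_univ_of_forall hcon
    have h2 := measureReal_union_le (μ := law μ) ({η : Env | D ≤ |Real.log (W μ 0 η 0 T z) + e μ 0 T z|} ∪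
      {η | D ≤ |Real.log (WR μ 0 R η 0 T z) + eR μ 0 R 0 T z|})
      {η : Env | W μ 0 η 0 T z ≤ 2 * WR μ 0 R η 0 T z}ᶜ
    have h3 := measureReal_union_le (μ := law μ) {η : Env | D ≤ |Real.log (W μ 0 η 0 T z) + e μ 0 T z|}
      {η | D ≤ |Real.log (WR μ 0 R η 0 T z) + eR μ 0 R 0 T z|}
    rw [h1, probReal_univ] at h2
    linarith
  simp only [Set.mem_union, Set.mem_ofPred_eq, Set.mem_compl_iff, not_or, not_le] at hη
  obtain ⟨⟨h1, h2⟩, h3'⟩ := hη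
  have h3 := not_lt.1 h3'
  have h4 := Real.log_le_log (hWpos η) h3
  rw [Real.log_mul (by norm_num) (hRpos η).ne'] at h4
  have h5 := (abs_lt.1 h1).1
  have h6 := (abs_lt.1 h2).2
  rw [← hD]
  linarith

end Pool.Agent.W_7d29a1_G
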