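import Pool.Agent.W_7d29a1_G.Exponents

/-!
DRAFT of the hand-in PowerExponents (to be moved to `Pool/Agent/Results/MP_7d29a1_pr/PowerExponents.lean` when
Main.lean is complete: replace the hypothesis `hE` by the theorem of Main.lean).

# Directed polymers in dimension `1 + 1`: `ν < 1` and `χ > 0`

The definitions are in `Pool/Agent/W_7d29a1_h47/Model.lean` and `Pool/Agent/W_7d29a1_h47q/ModelQ.lean`
(`endMGF β h η n` is the moment generating function `E_n^{β,η}(e^{h S_n})` of the end point, `endP β η n y` the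
probability `P_n^{β,η}(S_n = y)`), in `Pool/Agent/W_MP_7d29a1_pr/Model.lean` (`nu P β ω` is the wandering
exponent `ν` of the problem; there the sites are functions `Fin d → ℤ`, here with `d = 1`), and in
`Pool/Agent/W_7d29a1_h46/Model.lean` (`chiT P β ω h` is the fluctuation exponent `χ` of the problem for the
partition function with the tilt `h`; for `h = 0` it is the `χ` of the problem).
-/

namespace Pool.Agent.W_7d29a1_G.Draft

open MeasureTheory ProbabilityTheory Filter Topology Pool.Agent.W_7d29a1_h47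
open Pool.Agent.W_MP_7d29a1_pr (Site nu)
open Pool.Agent.W_7d29a1_h46 (chiT)

/-- In dimension `1`, for every i.i.d. site disorder which is not almost surely constant and has all
exponential moments, and for every `β > 0`: the wandering exponent is smaller than `1` and the fluctuation
exponent is larger than `0`. More precisely, there is `a > 0` such that the free energy
`λ(h) = lim_n n⁻¹ log E_n^{β,ω}(e^{h S_n})` is at most `C |h| ^ (1 + a)` for `|h| ≤ 1`, the rate function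
`J(v) = - lim n⁻¹ log P_n^{β,ω}(S_n = y_n)`, `y_n / n → v ∈ (-1, 1)`, is at least `c |v| ^ (1 + 1 / a)`, and
`ν ≤ 1 / 2 + 1 / (2 (1 + a))`, `χ ≥ a / (4 (1 + a))`. -/
theorem result
    (hE : ∀ μ : Measure ℝ, EM μ → Nondeg μ → IsProbabilityMeasure μ →
      ∃ α : ℝ, 0 < α ∧ Pool.Agent.W_7d29a1_h46.Expd (Lam μ) α 0 0)
    {Ω : Type*} [MeasurableSpace Ω] (P : Measure Ω) [IsProbabilityMeasure P]
    (ω : ℕ × ℤ → Ω → ℝ) (hmeas : ∀ p, Measurable (ω p)) (hindep : iIndepFun ω P)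
    (hident : ∀ p q, IdentDistrib (ω p) (ω q) P P) (hnc : ¬ ∃ c : ℝ, ∀ᵐ x ∂P, ω (0, 0) x = c)
    (hexp : ∀ b : ℝ, Integrable (fun x => Real.exp (b * ω (0, 0) x)) P) {β : ℝ} (hβ : 0 < β) :
    nu P β (fun p : ℕ × Site 1 => ω (p.1, p.2 0)) < 1 ∧
    0 < chiT P β (fun p : ℕ × Site 1 => ω (p.1, p.2 0)) 0 ∧
    ∃ a : ℝ, 0 < a ∧
      nu P β (fun p : ℕ × Site 1 => ω (p.1, p.2 0)) ≤ 1 / 2 + 1 / (2 * (1 + a)) ∧
      a / (4 * (1 + a)) ≤ chiT P β (fun p : ℕ × Site 1 => ω (p.1, p.2 0)) 0 ∧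
      ∃ (lam J : ℝ → ℝ) (c C : ℝ), 0 < c ∧
        (∀ h, ∀ᵐ x ∂P, Tendsto (fun n : ℕ => Real.log (endMGF β h (fun p => ω p x) n) / n) atTop
          (𝓝 (lam h))) ∧
        (∀ v, |v| < 1 → ∀ y : ℕ → ℤ, (∀ n, (y n - n) % 2 = 0) →
          Tendsto (fun n : ℕ => (y n : ℝ) / n) atTop (𝓝 v) →
          ∀ᵐ x ∂P, Tendsto (fun n : ℕ => -Real.log (endP β (fun p => ω p x) n (y n)) / n) atTop
            (𝓝 (J v))) ∧
        (∀ h, |h| ≤ 1 → lam h ≤ C * |h| ^ (1 + a)) ∧
        ∀ v, |v| < 1 → c * |v| ^ (1 + 1 / a) ≤ J v := by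
  obtain ⟨a, ha, h1, h2, h3⟩ := exponents hE P ω hmeas hindep hident hnc hexp hβ
  refine ⟨lt_of_le_of_lt h1 ?_, lt_of_lt_of_le (by positivity) h2, a, ha, h1, h2, h3⟩
  have : 1 / (2 * (1 + a)) < 1 / 2 := by
    apply one_div_lt_one_div_of_lt (by norm_num)
    linarith
  linarith

end Pool.Agent.W_7d29a1_G.Draft
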