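import Pool.Agent.W_7d29a1_F.CoreD4

/-!
TRACK G, section (D7), part 1: cell kernels and their moments. helper20.
-/

namespace Pool.Agent.W_7d29a1_G20

open Pool.Agent.W_7d29a1_F MeasureTheory

/-- Nonnegative measurable functions which are at most the exponential of a function of linear growth. -/
def Dom (f : Env → ℝ) : Prop := Measurable f ∧ (∀ η, 0 ≤ f η) ∧ ∃ g, Sub g ∧ ∀ η, f η ≤ Real.exp (g η)

namespace Dom

variable {f g : Env → ℝ}

theorem meas (hf : Dom f) : Measurable f := hf.1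

theorem nonneg (hf : Dom f) (η : Env) : 0 ≤ f η := hf.2.1 η

theorem of_le (hf : Dom f) (hm : Measurable g) (h0 : ∀ η, 0 ≤ g η) (h : ∀ η, g η ≤ f η) : Dom g := by
  obtain ⟨-, -, u, hu, hfu⟩ := hf
  exact ⟨hm, h0, u, hu, fun η => (h η).trans (hfu η)⟩

theorem exp (hg : Sub g) : Dom fun η => Real.exp (g η) :=
  ⟨Real.measurable_exp.comp hg.1, fun _ => (Real.exp_pos _).le, g, hg, fun _ => le_rfl⟩

theorem const {c : ℝ} (hc : 0 ≤ c) : Dom fun _ => c :=
  (exp (Sub.const (Real.log (c + 1)))).of_le measurable_const (fun _ => hc) fun _ => by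
    rw [Real.exp_log (by linarith)]
    linarith

theorem add (hf : Dom f) (hg : Dom g) : Dom fun η => f η + g η := by
  obtain ⟨mf, f0, u, hu, hfu⟩ := hf
  obtain ⟨mg, g0, v, hv, hgv⟩ := hg
  refine ⟨mf.add mg, fun η => add_nonneg (f0 η) (g0 η), fun η => Max.max (u η) (v η) + Real.log 2,
    (hu.max hv).add (Sub.const _), fun η => ?_⟩
  rw [Real.exp_add, Real.exp_log (by norm_num)]
  have h1 := Real.exp_le_exp.2 (le_max_left (u η) (v η))
  have h2 := Real.exp_le_exp.2 (le_max_right (u η) (v η))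
  have h3 := hfu η
  have h4 := hgv η
  linarith

theorem mul (hf : Dom f) (hg : Dom g) : Dom fun η => f η * g η := by
  obtain ⟨mf, f0, u, hu, hfu⟩ := hf
  obtain ⟨mg, g0, v, hv, hgv⟩ := hg
  refine ⟨mf.mul mg, fun η => mul_nonneg (f0 η) (g0 η), fun η => u η + v η, hu.add hv, fun η => ?_⟩
  rw [Real.exp_add]
  exact mul_le_mul (hfu η) (hgv η) (g0 η) (Real.exp_pos _).le

theorem sum {ι : Type*} (I : Finset ι) {f : ι → Env → ℝ} (hf : ∀ i ∈ I, Dom (f i)) :
    Dom fun η => ∑ i ∈ I, f i η := by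
  classical
  induction I using Finset.induction_on with
  | empty => simpa using const le_rfl
  | @insert a I ha ih =>
    have h1 := (hf a (Finset.mem_insert_self a I)).add (ih fun i hi => hf i (Finset.mem_insert_of_mem hi))
    have h2 : (fun η => ∑ i ∈ insert a I, f i η) = fun η => f a η + ∑ i ∈ I, f i η := by
      funext η
      exact Finset.sum_insert ha
    rw [h2]
    exact h1

theorem iSup {w : ℕ} (hw : 0 < w) {f : Fin w → Env → ℝ} (hf : ∀ i, Dom (f i)) :
    Dom fun η => ⨆ i, f i η := by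
  haveI : Nonempty (Fin w) := ⟨⟨0, hw⟩⟩
  refine (sum Finset.univ fun i _ => hf i).of_le (Measurable.iSup fun i => (hf i).meas)
    (fun η => ?_) fun η => ?_
  · exact le_ciSup_of_le (Set.finite_range _).bddAbove ⟨0, hw⟩ ((hf _).nonneg η)
  · exact ciSup_le fun i => Finset.single_le_sum (f := fun i => f i η) (fun j _ => (hf j).nonneg η)
      (Finset.mem_univ i)

theorem comp_sh (a : Pt) (hf : Dom f) : Dom fun η => f (sh a η) := by
  obtain ⟨mf, f0, u, hu, hfu⟩ := hf
  exact ⟨mf.comp (mp_sh (μ := Measure.dirac (0 : ℝ)) a).measurable, fun η => f0 _, fun η => u (sh a η),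
    hu.comp_sh a, fun η => hfu _⟩

variable {μ : Measure ℝ} [IsProbabilityMeasure μ] {s : ℝ}

theorem rpow_int (hμ : Pool.Agent.W_7d29a1_h47.EM μ) (hf : Dom f) {θ : ℝ} (h0 : 0 ≤ θ) :
    Integrable (fun η => f η ^ θ) (law μ) := by
  obtain ⟨mf, f0, u, hu, hfu⟩ := hf
  refine ((hu.const_mul θ).exp_int hμ).mono' (mf.pow_const θ).aestronglyMeasurable
    (Filter.Eventually.of_forall fun η => ?_)
  rw [Real.norm_eq_abs, abs_of_nonneg (Real.rpow_nonneg (f0 η) _)]
  have h1 := Real.rpow_le_rpow (f0 η) (hfu η) h0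
  rwa [← Real.exp_mul, mul_comm] at h1

theorem W (a : Pt) (n : ℕ) (y : ℤ) : Dom fun η => W μ s η a n y := by
  refine (exp (Sub_V (μ := μ) (s := s) a n)).of_le (measurable_W a n y) (fun η => W_nonneg η a n y)
    fun η => ?_
  have h := WS_le_exp_V (μ := μ) (s := s) η a n {y}
  simpa [WS] using h

end Dom

variable {μ : Measure ℝ} [IsProbabilityMeasure μ] {s : ℝ}

/-- Sums of powers. -/
theorem rpow_sum_le {ι : Type*} (I : Finset ι) (f : ι → ℝ) (h0 : ∀ i ∈ I, 0 ≤ f i) {θ : ℝ} (hθ : 0 < θ)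
    (hθ1 : θ ≤ 1) : (∑ i ∈ I, f i) ^ θ ≤ ∑ i ∈ I, f i ^ θ := by
  classical
  induction I using Finset.induction_on with
  | empty => simp [Real.zero_rpow hθ.ne']
  | @insert a I ha ih =>
    rw [Finset.sum_insert ha, Finset.sum_insert ha]
    have h1 := ih fun i hi => h0 i (Finset.mem_insert_of_mem hi)
    have h2 := Real.rpow_add_le_add_rpow (h0 a (Finset.mem_insert_self a I))
      (Finset.sum_nonneg fun i hi => h0 i (Finset.mem_insert_of_mem hi)) hθ.le hθ1
    linarith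

/-- Decomposition of an interval of positions in cells of width `w`. -/
theorem sum_cells_eq {w : ℕ} (hw : 0 < w) (D : ℤ) (J : ℕ) (f : ℤ → ℝ) :
    ∑ x ∈ Finset.Ico (D - J * w) (D + (J + 1) * w), f x =
      ∑ j ∈ Finset.Icc (-(J : ℤ)) J, ∑ l ∈ Finset.range w, f (D + j * w + l) := by
  have hw' : (0 : ℤ) < w := by exact_mod_cast hw
  rw [← Finset.sum_product' (f := fun (j : ℤ) (l : ℕ) => f (D + j * w + l))]
  refine Finset.sum_nbij' (fun x => ((x - D) / w, ((x - D) % w).toNat))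
    (fun p => D + p.1 * w + p.2) ?_ ?_ ?_ ?_ ?_
  · intro x hx
    rw [Finset.mem_Ico] at hx
    have h1 : -(J : ℤ) ≤ (x - D) / w := by
      rw [Int.le_ediv_iff_mul_le hw']
      nlinarith [hx.1]
    have h2 : (x - D) / w < (J : ℤ) + 1 := by
      rw [Int.ediv_lt_iff_lt_mul hw']
      nlinarith [hx.2]
    have h3 := Int.emod_nonneg (x - D) hw'.ne'
    have h4 := Int.emod_lt_of_pos (x - D) hw'
    rw [Finset.mem_product, Finset.mem_Icc, Finset.mem_range]
    refine ⟨⟨h1, by omega⟩, ?_⟩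
    show ((x - D) % (w : ℤ)).toNat < w
    omega
  · rintro ⟨j, l⟩ hp
    rw [Finset.mem_product, Finset.mem_Icc, Finset.mem_range] at hp
    obtain ⟨⟨h1, h2⟩, h3⟩ := hp
    simp only at h1 h2 h3
    have h3' : (l : ℤ) < w := by exact_mod_cast h3
    rw [Finset.mem_Ico]
    constructor
    · show D - J * w ≤ D + j * w + l
      nlinarith
    · show D + j * w + l < D + (J + 1) * w
      nlinarith
  · intro x _
    have h3 := Int.emod_nonneg (x - D) hw'.ne'
    have h5 := Int.mul_ediv_add_emod (x - D) w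
    show D + (x - D) / w * w + (((x - D) % w).toNat : ℤ) = x
    rw [Int.toNat_of_nonneg h3]
    linarith [mul_comm ((x - D) / (w : ℤ)) (w : ℤ)]
  · rintro ⟨j, l⟩ hp
    rw [Finset.mem_product, Finset.mem_Icc, Finset.mem_range] at hp
    obtain ⟨-, h3⟩ := hp
    simp only at h3
    have h3' : (l : ℤ) < w := by exact_mod_cast h3
    have e1 : D + j * w + l - D = l + w * j := by ring
    ext1
    · show (D + j * w + l - D) / w = j
      rw [e1, Int.add_mul_ediv_left _ _ hw'.ne', Int.ediv_eq_zero_of_lt (by positivity) h3', zero_add]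
    · show ((D + j * w + l - D) % w).toNat = l
      rw [e1, Int.add_mul_emod_self_left, Int.emod_eq_of_lt (by positivity) h3']
      simp
  · intro x _
    have h3 := Int.emod_nonneg (x - D) hw'.ne'
    have h5 := Int.mul_ediv_add_emod (x - D) w
    show f x = f (D + (x - D) / w * w + (((x - D) % w).toNat : ℤ))
    rw [Int.toNat_of_nonneg h3]
    congr 1
    linarith [mul_comm ((x - D) / (w : ℤ)) (w : ℤ)]

theorem sum_cells {w : ℕ} (hw : 0 < w) (D : ℤ) (J : ℕ) (f : ℤ → ℝ) (hf : ∀ x, 0 ≤ f x) (S : Finset ℤ)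
    (hS : ∀ x ∈ S, D - J * w ≤ x ∧ x < D + (J + 1) * w) :
    ∑ x ∈ S, f x ≤ ∑ j ∈ Finset.Icc (-(J : ℤ)) J, ∑ l ∈ Finset.range w, f (D + j * w + l) := by
  rw [← sum_cells_eq hw D J f]
  exact Finset.sum_le_sum_of_subset_of_nonneg (fun x hx => Finset.mem_Ico.2 (hS x hx)) fun x _ _ => hf x

/-- The kernel from the cell `0` to the cell `k` (cells of width `w`, time `n`, displacement `D` of the
frame): the largest mass which a point of the first cell sends to the second cell. -/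
noncomputable def Bk (μ : Measure ℝ) (s : ℝ) (w n : ℕ) (D k : ℤ) (η : Env) : ℝ :=
  ⨆ i : Fin w, ∑ l ∈ Finset.range w, W μ s η (0, (i : ℤ)) n (D + k * w + l - (i : ℕ))

/-- The largest mass sent by a point of the cell `0`. -/
noncomputable def Gk (μ : Measure ℝ) (s : ℝ) (w n : ℕ) (η : Env) : ℝ :=
  ⨆ i : Fin w, Real.exp (V μ s η (0, (i : ℤ)) n)

theorem Bk_dom {w : ℕ} (hw : 0 < w) (n : ℕ) (D k : ℤ) : Dom (Bk μ s w n D k) :=
  Dom.iSup hw fun _ => Dom.sum _ fun _ _ => Dom.W _ _ _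

theorem Gk_dom {w : ℕ} (hw : 0 < w) (n : ℕ) : Dom (Gk μ s w n) :=
  Dom.iSup hw fun _ => Dom.exp (Sub_V _ _)

theorem le_Bk {w : ℕ} (n : ℕ) (D k : ℤ) (η : Env) (i : ℕ) (hi : i < w) :
    ∑ l ∈ Finset.range w, W μ s η (0, (i : ℤ)) n (D + k * w + l - i) ≤ Bk μ s w n D k η :=
  le_ciSup (f := fun i : Fin w => ∑ l ∈ Finset.range w, W μ s η (0, (i : ℤ)) n (D + k * w + l - (i : ℕ)))
    (Set.finite_range _).bddAbove ⟨i, hi⟩

theorem le_Gk {w : ℕ} (n : ℕ) (η : Env) (i : ℕ) (hi : i < w) :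
    Real.exp (V μ s η (0, (i : ℤ)) n) ≤ Gk μ s w n η :=
  le_ciSup (f := fun i : Fin w => Real.exp (V μ s η (0, (i : ℤ)) n)) (Set.finite_range _).bddAbove ⟨i, hi⟩

/-- The same for a cell anywhere. -/
theorem le_Bk_sh {w : ℕ} (n : ℕ) (D k : ℤ) (η : Env) (t x : ℤ) (i : ℕ) (hi : i < w) :
    ∑ l ∈ Finset.range w, W μ s η (t, x + i) n (D + k * w + l - i) ≤ Bk μ s w n D k (sh (t, x) η) := by
  refine le_trans (le_of_eq ?_) (le_Bk n D k (sh (t, x) η) i hi)
  refine Finset.sum_congr rfl fun l _ => ?_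
  rw [W_sh]
  congr 1
  exact Prod.ext (by simp) (by simp [add_comm])

theorem le_Gk_sh {w : ℕ} (n : ℕ) (η : Env) (t x : ℤ) (i : ℕ) (hi : i < w) :
    Real.exp (V μ s η (t, x + i) n) ≤ Gk μ s w n (sh (t, x) η) := by
  refine le_trans (le_of_eq ?_) (le_Gk n (sh (t, x) η) i hi)
  rw [V_sh]
  congr 2
  exact Prod.ext (by simp) (by simp [add_comm])

end Pool.Agent.W_7d29a1_G20
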