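import Pool.Agent.W_7d29a1_G.SecA1

/-!
TRACK G, section (D7), part 2: composition of cell kernels, moments of `M` slabs. helper20.
-/

namespace Pool.Agent.W_7d29a1_G20

open Pool.Agent.W_7d29a1_F MeasureTheory

variable {μ : Measure ℝ} [IsProbabilityMeasure μ] {s : ℝ}

theorem W_dep_rows (x : ℤ) (n : ℕ) (y : ℤ) :
    DependsOn (fun η : Env => W μ s η (0, x) n y) (rows 0 n) := by
  intro η η' h
  refine W_dep (μ := μ) (s := s) (0, x) n y fun p hp => h p ?_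
  obtain ⟨h1, h2, -⟩ := hp
  exact ⟨h1, by simpa using h2⟩

theorem V_dep_rows (x : ℤ) (n : ℕ) : DependsOn (fun η : Env => V μ s η (0, x) n) (rows 0 n) := by
  intro η η' h
  refine V_dep (μ := μ) (s := s) (0, x) n fun p hp => h p ?_
  obtain ⟨h1, h2, -⟩ := hp
  exact ⟨h1, by simpa using h2⟩

theorem Bk_dep (w n : ℕ) (D k : ℤ) : DependsOn (Bk μ s w n D k) (rows 0 n) := by
  intro η η' h
  unfold Bk
  refine iSup_congr fun i => Finset.sum_congr rfl fun l _ => ?_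
  exact W_dep_rows (μ := μ) (s := s) _ n _ h

theorem Gk_dep (w n : ℕ) : DependsOn (Gk μ s w n) (rows 0 n) := by
  intro η η' h
  unfold Gk
  refine iSup_congr fun i => ?_
  have h1 := V_dep_rows (μ := μ) (s := s) ((i : ℕ) : ℤ) n h
  simp only at h1
  rw [h1]

theorem sh_dep_rows {g : Env → ℝ} {n2 : ℕ} (hg : DependsOn g (rows 0 n2)) (n1 : ℕ) (x : ℤ) :
    DependsOn (fun η => g (sh ((n1 : ℤ), x) η)) (rows n1 (n1 + n2 : ℕ)) := by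
  intro η η' h
  refine hg fun p hp => ?_
  show η (p + ((n1 : ℤ), x)) = η' (p + ((n1 : ℤ), x))
  refine h _ ⟨?_, ?_⟩
  · have h1 := hp.1
    show (n1 : ℤ) < p.1 + n1
    omega
  · have h1 := hp.2
    show p.1 + (n1 : ℤ) ≤ ((n1 + n2 : ℕ) : ℤ)
    push_cast
    omega

theorem sh_integral {g : Env → ℝ} (hg : Measurable g) (a : Pt) :
    ∫ η, g (sh a η) ∂(law μ) = ∫ η, g η ∂(law μ) := by
  have h := (mp_sh (μ := μ) a).map_eq
  conv_rhs => rw [← h]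
  rw [integral_map (mp_sh (μ := μ) a).measurable.aemeasurable hg.aestronglyMeasurable]

theorem rows_disj (n1 n2 : ℕ) : Disjoint (rows 0 n1) (rows n1 (n1 + n2 : ℕ)) := by
  rw [Set.disjoint_left]
  intro p h1 h2
  have h3 := h1.2
  have h4 := h2.1
  omega

/-- Moments of a composition. -/
theorem mom_conv (hμ : Pool.Agent.W_7d29a1_h47.EM μ) {θ : ℝ} (hθ : 0 < θ) (hθ1 : θ ≤ 1) {ι : Type*}
    (I : Finset ι) (A B : ι → Env → ℝ) (x : ι → ℤ) (n1 n2 : ℕ) (hA : ∀ i ∈ I, Dom (A i))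
    (hB : ∀ i ∈ I, Dom (B i)) (dA : ∀ i ∈ I, DependsOn (A i) (rows 0 n1))
    (dB : ∀ i ∈ I, DependsOn (B i) (rows 0 n2)) {F : Env → ℝ} (hF : Dom F)
    (h : ∀ η, F η ≤ ∑ i ∈ I, A i η * B i (sh ((n1 : ℤ), x i) η)) :
    ∫ η, F η ^ θ ∂(law μ) ≤
      ∑ i ∈ I, (∫ η, A i η ^ θ ∂(law μ)) * ∫ η, B i η ^ θ ∂(law μ) := by
  have hAB : ∀ i ∈ I, Dom fun η => A i η * B i (sh ((n1 : ℤ), x i) η) := fun i hi =>
    (hA i hi).mul ((hB i hi).comp_sh _)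
  have h1 : ∫ η, F η ^ θ ∂(law μ) ≤
      ∫ η, ∑ i ∈ I, (A i η * B i (sh ((n1 : ℤ), x i) η)) ^ θ ∂(law μ) := by
    refine integral_mono (hF.rpow_int hμ hθ.le)
      (integrable_finsetSum _ fun i hi => (hAB i hi).rpow_int hμ hθ.le) fun η => ?_
    exact (Real.rpow_le_rpow (hF.nonneg η) (h η) hθ.le).trans
      (rpow_sum_le I _ (fun i hi => (hAB i hi).nonneg η) hθ hθ1)
  refine h1.trans (le_of_eq ?_)
  rw [integral_finsetSum _ fun i hi => (hAB i hi).rpow_int hμ hθ.le]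
  refine Finset.sum_congr rfl fun i hi => ?_
  have h2 : ∀ η : Env, (A i η * B i (sh ((n1 : ℤ), x i) η)) ^ θ =
      A i η ^ θ * B i (sh ((n1 : ℤ), x i) η) ^ θ := fun η =>
    Real.mul_rpow ((hA i hi).nonneg η) ((hB i hi).nonneg _)
  simp only [h2]
  have d1 : DependsOn (fun η => A i η ^ θ) (rows 0 n1) := fun η η' hh => by
    have := dA i hi hh
    simp only [this]
  have d2 : DependsOn (fun η => B i η ^ θ) (rows 0 n2) := fun η η' hh => by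
    have := dB i hi hh
    simp only [this]
  have h3 := integral_indep (μ := μ) (f := fun η => A i η ^ θ)
    (g := fun η => B i (sh ((n1 : ℤ), x i) η) ^ θ) (A := rows 0 n1) (B := rows n1 (n1 + n2 : ℕ))
    ((hA i hi).meas.pow_const θ) (((hB i hi).comp_sh _).meas.pow_const θ) d1
    (sh_dep_rows d2 n1 (x i)) (rows_disj n1 n2)
  rw [h3]
  congr 1
  exact sh_integral (μ := μ) (g := fun η => B i η ^ θ) ((hB i hi).meas.pow_const θ) _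

/-- All paths of `n1` steps from the cell `0`, by the cell of the end point. -/
theorem cells_W {w : ℕ} (hw : 0 < w) (n1 : ℕ) (D1 : ℤ) (J : ℕ) (hJ1 : D1 ≤ J * w)
    (hJ2 : (n1 : ℤ) ≤ D1 + J * w) (η : Env) (i : ℕ) (hi : i < w) (g : ℤ → ℝ) (hg : ∀ x, 0 ≤ g x) :
    ∑ y ∈ Finset.Icc (0 : ℤ) n1, W μ s η (0, (i : ℤ)) n1 y * g (i + y) ≤
      ∑ j ∈ Finset.Icc (-(J : ℤ)) J, ∑ l ∈ Finset.range w,
        W μ s η (0, (i : ℤ)) n1 (D1 + j * w + l - i) * g (D1 + j * w + l) := by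
  have hi' : (i : ℤ) < w := by exact_mod_cast hi
  have h1 : ∑ y ∈ Finset.Icc (0 : ℤ) n1, W μ s η (0, (i : ℤ)) n1 y * g (i + y) =
      ∑ x ∈ Finset.Icc (i : ℤ) (i + n1), W μ s η (0, (i : ℤ)) n1 (x - i) * g x := by
    refine Finset.sum_nbij' (fun y => (i : ℤ) + y) (fun x => x - i) ?_ ?_ ?_ ?_ ?_
    · intro y hy
      rw [Finset.mem_Icc] at hy ⊢
      omega
    · intro y hy
      rw [Finset.mem_Icc] at hy ⊢
      omega
    · intro y _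
      ring
    · intro y _
      ring
    · intro y _
      rw [add_sub_cancel_left]
  rw [h1]
  refine sum_cells hw D1 J _ (fun x => mul_nonneg (W_nonneg _ _ _ _) (hg x)) _ fun x hx => ?_
  rw [Finset.mem_Icc] at hx
  constructor
  · have : (0 : ℤ) ≤ (i : ℤ) := by positivity
    linarith [hx.1]
  · nlinarith [hx.2]

set_option maxHeartbeats 400000 in
theorem Bk_conv {w : ℕ} (hw : 0 < w) (n1 n2 : ℕ) (D1 D2 k : ℤ) (J : ℕ) (hJ1 : D1 ≤ J * w)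
    (hJ2 : (n1 : ℤ) ≤ D1 + J * w) (η : Env) :
    Bk μ s w (n1 + n2) (D1 + D2) k η ≤ ∑ j ∈ Finset.Icc (-(J : ℤ)) J,
      Bk μ s w n1 D1 j η * Bk μ s w n2 D2 (k - j) (sh ((n1 : ℤ), D1 + j * w) η) := by
  haveI : Nonempty (Fin w) := ⟨⟨0, hw⟩⟩
  obtain ⟨g, hg⟩ : ∃ g : ℤ → ℝ, g = fun x : ℤ =>
    ∑ l ∈ Finset.range w, W μ s η ((n1 : ℤ), x) n2 (D1 + D2 + k * w + l - x) := ⟨_, rfl⟩
  have hg0 : ∀ x, 0 ≤ g x := fun x => by
    rw [hg]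
    exact Finset.sum_nonneg fun l _ => W_nonneg _ _ _ _
  have hgB : ∀ j : ℤ, ∀ l ∈ Finset.range w, g (D1 + j * w + l) ≤
      Bk μ s w n2 D2 (k - j) (sh ((n1 : ℤ), D1 + j * w) η) := by
    intro j l hl
    refine le_trans (le_of_eq ?_) (le_Bk_sh n2 D2 (k - j) η n1 (D1 + j * w) l (Finset.mem_range.1 hl))
    rw [hg]
    refine Finset.sum_congr rfl fun l' _ => ?_
    congr 1
    ring
  refine ciSup_le fun i => ?_
  obtain ⟨i, hi⟩ := i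
  have h1 : ∑ l ∈ Finset.range w, W μ s η (0, (i : ℤ)) (n1 + n2) (D1 + D2 + k * w + l - i) =
      ∑ y ∈ Finset.Icc (0 : ℤ) n1, W μ s η (0, (i : ℤ)) n1 y * g (i + y) := by
    simp only [W_add]
    rw [Finset.sum_comm]
    refine Finset.sum_congr rfl fun y _ => ?_
    rw [hg, Finset.mul_sum]
    refine Finset.sum_congr rfl fun l _ => ?_
    rw [zero_add]
    congr 2
    ring
  have h3 := cells_W (μ := μ) (s := s) hw n1 D1 J hJ1 hJ2 η i hi g hg0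
  have h4 : ∑ l ∈ Finset.range w, W μ s η (0, (i : ℤ)) (n1 + n2) (D1 + D2 + k * w + l - i) ≤
      ∑ j ∈ Finset.Icc (-(J : ℤ)) J,
      Bk μ s w n1 D1 j η * Bk μ s w n2 D2 (k - j) (sh ((n1 : ℤ), D1 + j * w) η) := by
    rw [h1]
    refine h3.trans (Finset.sum_le_sum fun j _ => ?_)
    have h2 : ∑ l ∈ Finset.range w, W μ s η (0, (i : ℤ)) n1 (D1 + j * w + l - i) * g (D1 + j * w + l) ≤
        ∑ l ∈ Finset.range w, W μ s η (0, (i : ℤ)) n1 (D1 + j * w + l - i) *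
        Bk μ s w n2 D2 (k - j) (sh ((n1 : ℤ), D1 + j * w) η) :=
      Finset.sum_le_sum fun l hl => mul_le_mul_of_nonneg_left (hgB j l hl) (W_nonneg _ _ _ _)
    refine h2.trans ?_
    rw [← Finset.sum_mul]
    exact mul_le_mul_of_nonneg_right (le_Bk n1 D1 j η i hi) ((Bk_dom (μ := μ) hw _ _ _).nonneg _)
  exact h4

set_option maxHeartbeats 400000 in
theorem Gk_conv {w : ℕ} (hw : 0 < w) (n1 n2 : ℕ) (D1 : ℤ) (J : ℕ) (hJ1 : D1 ≤ J * w)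
    (hJ2 : (n1 : ℤ) ≤ D1 + J * w) (η : Env) :
    Gk μ s w (n1 + n2) η ≤ ∑ j ∈ Finset.Icc (-(J : ℤ)) J,
      Bk μ s w n1 D1 j η * Gk μ s w n2 (sh ((n1 : ℤ), D1 + j * w) η) := by
  haveI : Nonempty (Fin w) := ⟨⟨0, hw⟩⟩
  obtain ⟨g, hg⟩ : ∃ g : ℤ → ℝ, g = fun x : ℤ => Real.exp (V μ s η ((n1 : ℤ), x) n2) := ⟨_, rfl⟩
  have hg0 : ∀ x, 0 ≤ g x := fun x => by
    rw [hg]
    exact (Real.exp_pos _).le
  have hgB : ∀ j : ℤ, ∀ l ∈ Finset.range w, g (D1 + j * w + l) ≤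
      Gk μ s w n2 (sh ((n1 : ℤ), D1 + j * w) η) := by
    intro j l hl
    rw [hg]
    exact le_Gk_sh n2 η n1 (D1 + j * w) l (Finset.mem_range.1 hl)
  refine ciSup_le fun i => ?_
  obtain ⟨i, hi⟩ := i
  have h1 : Real.exp (V μ s η (0, (i : ℤ)) (n1 + n2)) =
      ∑ y ∈ Finset.Icc (0 : ℤ) n1, W μ s η (0, (i : ℤ)) n1 y * g (i + y) := by
    rw [exp_V_add, hg]
    refine Finset.sum_congr rfl fun y _ => ?_
    rw [zero_add]
  have h3 := cells_W (μ := μ) (s := s) hw n1 D1 J hJ1 hJ2 η i hi g hg0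
  have h4 : Real.exp (V μ s η (0, (i : ℤ)) (n1 + n2)) ≤ ∑ j ∈ Finset.Icc (-(J : ℤ)) J,
      Bk μ s w n1 D1 j η * Gk μ s w n2 (sh ((n1 : ℤ), D1 + j * w) η) := by
    rw [h1]
    refine h3.trans (Finset.sum_le_sum fun j _ => ?_)
    have h2 : ∑ l ∈ Finset.range w, W μ s η (0, (i : ℤ)) n1 (D1 + j * w + l - i) * g (D1 + j * w + l) ≤
        ∑ l ∈ Finset.range w, W μ s η (0, (i : ℤ)) n1 (D1 + j * w + l - i) *
        Gk μ s w n2 (sh ((n1 : ℤ), D1 + j * w) η) :=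
      Finset.sum_le_sum fun l hl => mul_le_mul_of_nonneg_left (hgB j l hl) (W_nonneg _ _ _ _)
    refine h2.trans ?_
    rw [← Finset.sum_mul]
    exact mul_le_mul_of_nonneg_right (le_Bk n1 D1 j η i hi) ((Gk_dom (μ := μ) hw _).nonneg _)
  exact h4

theorem Gk_le {w : ℕ} (hw : 0 < w) (n1 : ℕ) (D1 : ℤ) (J : ℕ) (hJ1 : D1 ≤ J * w)
    (hJ2 : (n1 : ℤ) ≤ D1 + J * w) (η : Env) :
    Gk μ s w n1 η ≤ ∑ j ∈ Finset.Icc (-(J : ℤ)) J, Bk μ s w n1 D1 j η := by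
  haveI : Nonempty (Fin w) := ⟨⟨0, hw⟩⟩
  refine ciSup_le fun i => ?_
  obtain ⟨i, hi⟩ := i
  show Real.exp (V μ s η (0, (i : ℤ)) n1) ≤ _
  rw [exp_V]
  unfold WS
  have h1 := cells_W (μ := μ) (s := s) hw n1 D1 J hJ1 hJ2 η i hi (fun _ => 1) fun _ => zero_le_one
  simp only [mul_one] at h1
  exact h1.trans (Finset.sum_le_sum fun j _ => le_Bk n1 D1 j η i hi)

theorem sum_range_mul (w : ℕ) (f : ℕ → ℝ) : ∀ N : ℕ,
    ∑ l ∈ Finset.range (N * w), f l = ∑ i ∈ Finset.range N, ∑ l ∈ Finset.range w, f (i * w + l)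
  | 0 => by simp
  | N + 1 => by
    rw [Nat.succ_mul, Finset.sum_range_add, sum_range_mul w f N, Finset.sum_range_succ]

/-- Large cells. -/
theorem Bk_big {w N : ℕ} (hw : 0 < w) (hN : 0 < N) (n : ℕ) (D k : ℤ) (η : Env) :
    Bk μ s (N * w) n D k η ≤ ∑ i ∈ Finset.range N, ∑ i' ∈ Finset.range N,
      Bk μ s w n D (k * N + i' - i) (sh (0, (i : ℤ) * w) η) := by
  haveI : Nonempty (Fin (N * w)) := ⟨⟨0, Nat.mul_pos hN hw⟩⟩
  refine ciSup_le fun a => ?_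
  obtain ⟨a, ha⟩ := a
  show ∑ l ∈ Finset.range (N * w), W μ s η (0, (a : ℤ)) n (D + k * ((N * w : ℕ) : ℤ) + l - a) ≤ _
  have h1 : a / w < N := (Nat.div_lt_iff_lt_mul hw).2 ha
  have h2 : a % w < w := Nat.mod_lt _ hw
  have h3 : a = a / w * w + a % w := by
    have := Nat.div_add_mod a w
    linarith [mul_comm w (a / w)]
  have h3' : (a : ℤ) = ((a / w : ℕ) : ℤ) * w + ((a % w : ℕ) : ℤ) := by exact_mod_cast h3
  rw [sum_range_mul]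
  refine le_trans ?_ (Finset.single_le_sum (f := fun i : ℕ => ∑ i' ∈ Finset.range N,
    Bk μ s w n D (k * N + i' - i) (sh (0, (i : ℤ) * w) η))
    (fun i _ => Finset.sum_nonneg fun i' _ => (Bk_dom (μ := μ) hw _ _ _).nonneg _) (Finset.mem_range.2 h1))
  refine Finset.sum_le_sum fun i' _ => ?_
  refine le_trans (le_of_eq ?_) (le_Bk_sh n D (k * N + i' - (a / w : ℕ)) η 0 (((a / w : ℕ) : ℤ) * w)
    (a % w) h2)
  refine Finset.sum_congr rfl fun l _ => ?_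
  rw [← h3']
  congr 1
  push_cast
  linarith [h3']

theorem Gk_big {w N : ℕ} (hw : 0 < w) (hN : 0 < N) (n : ℕ) (η : Env) :
    Gk μ s (N * w) n η ≤ ∑ i ∈ Finset.range N, Gk μ s w n (sh (0, (i : ℤ) * w) η) := by
  haveI : Nonempty (Fin (N * w)) := ⟨⟨0, Nat.mul_pos hN hw⟩⟩
  refine ciSup_le fun a => ?_
  obtain ⟨a, ha⟩ := a
  show Real.exp (V μ s η (0, (a : ℤ)) n) ≤ _
  have h1 : a / w < N := (Nat.div_lt_iff_lt_mul hw).2 ha
  have h2 : a % w < w := Nat.mod_lt _ hw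
  have h3 : a = a / w * w + a % w := by
    have := Nat.div_add_mod a w
    linarith [mul_comm w (a / w)]
  have h3' : (a : ℤ) = ((a / w : ℕ) : ℤ) * w + ((a % w : ℕ) : ℤ) := by exact_mod_cast h3
  refine le_trans ?_ (Finset.single_le_sum (f := fun i : ℕ => Gk μ s w n (sh (0, (i : ℤ) * w) η))
    (fun i _ => (Gk_dom (μ := μ) hw _).nonneg _) (Finset.mem_range.2 h1))
  have h4 := le_Gk_sh (μ := μ) (s := s) n η 0 (((a / w : ℕ) : ℤ) * w) (a % w) h2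
  rwa [← h3'] at h4

section Moments

variable {θ : ℝ}

theorem Bk_mom (hμ : Pool.Agent.W_7d29a1_h47.EM μ) (hθ : 0 < θ) (hθ1 : θ ≤ 1) {w : ℕ} (hw : 0 < w)
    (n1 n2 : ℕ) (D1 D2 k : ℤ) (J : ℕ) (hJ1 : D1 ≤ J * w) (hJ2 : (n1 : ℤ) ≤ D1 + J * w) :
    ∫ η, Bk μ s w (n1 + n2) (D1 + D2) k η ^ θ ∂(law μ) ≤ ∑ j ∈ Finset.Icc (-(J : ℤ)) J,
      (∫ η, Bk μ s w n1 D1 j η ^ θ ∂(law μ)) * ∫ η, Bk μ s w n2 D2 (k - j) η ^ θ ∂(law μ) :=
  mom_conv hμ hθ hθ1 _ (fun j => Bk μ s w n1 D1 j) (fun j => Bk μ s w n2 D2 (k - j))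
    (fun j => D1 + j * w) n1 n2 (fun _ _ => Bk_dom hw _ _ _) (fun _ _ => Bk_dom hw _ _ _)
    (fun _ _ => Bk_dep _ _ _ _) (fun _ _ => Bk_dep _ _ _ _) (Bk_dom hw _ _ _)
    (Bk_conv hw n1 n2 D1 D2 k J hJ1 hJ2)

theorem Gk_mom (hμ : Pool.Agent.W_7d29a1_h47.EM μ) (hθ : 0 < θ) (hθ1 : θ ≤ 1) {w : ℕ} (hw : 0 < w)
    (n1 n2 : ℕ) (D1 : ℤ) (J : ℕ) (hJ1 : D1 ≤ J * w) (hJ2 : (n1 : ℤ) ≤ D1 + J * w) :
    ∫ η, Gk μ s w (n1 + n2) η ^ θ ∂(law μ) ≤ (∑ j ∈ Finset.Icc (-(J : ℤ)) J,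
      ∫ η, Bk μ s w n1 D1 j η ^ θ ∂(law μ)) * ∫ η, Gk μ s w n2 η ^ θ ∂(law μ) := by
  rw [Finset.sum_mul]
  exact mom_conv hμ hθ hθ1 _ (fun j => Bk μ s w n1 D1 j) (fun _ => Gk μ s w n2)
    (fun j => D1 + j * w) n1 n2 (fun _ _ => Bk_dom hw _ _ _) (fun _ _ => Gk_dom hw _)
    (fun _ _ => Bk_dep _ _ _ _) (fun _ _ => Gk_dep _ _) (Gk_dom hw _)
    (Gk_conv hw n1 n2 D1 J hJ1 hJ2)

/-- A sum of functions seen from other sites of the row `0`. -/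
theorem mom_sum (hμ : Pool.Agent.W_7d29a1_h47.EM μ) (hθ : 0 < θ) (hθ1 : θ ≤ 1) {ι : Type*}
    (I : Finset ι) (A : ι → Env → ℝ) (x : ι → Pt) (hA : ∀ i ∈ I, Dom (A i)) {F : Env → ℝ} (hF : Dom F)
    (h : ∀ η, F η ≤ ∑ i ∈ I, A i (sh (x i) η)) :
    ∫ η, F η ^ θ ∂(law μ) ≤ ∑ i ∈ I, ∫ η, A i η ^ θ ∂(law μ) := by
  have h1 : ∫ η, F η ^ θ ∂(law μ) ≤ ∫ η, ∑ i ∈ I, A i (sh (x i) η) ^ θ ∂(law μ) := by
    refine integral_mono (hF.rpow_int hμ hθ.le)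
      (integrable_finsetSum _ fun i hi => ((hA i hi).comp_sh _).rpow_int hμ hθ.le) fun η => ?_
    exact (Real.rpow_le_rpow (hF.nonneg η) (h η) hθ.le).trans
      (rpow_sum_le I _ (fun i hi => (hA i hi).nonneg _) hθ hθ1)
  refine h1.trans (le_of_eq ?_)
  rw [integral_finsetSum _ fun i hi => ((hA i hi).comp_sh _).rpow_int hμ hθ.le]
  exact Finset.sum_congr rfl fun i hi =>
    sh_integral (μ := μ) (g := fun η => A i η ^ θ) ((hA i hi).meas.pow_const θ) _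

theorem Bk_big_mom (hμ : Pool.Agent.W_7d29a1_h47.EM μ) (hθ : 0 < θ) (hθ1 : θ ≤ 1) {w N : ℕ}
    (hw : 0 < w) (hN : 0 < N) (n : ℕ) (D k : ℤ) :
    ∫ η, Bk μ s (N * w) n D k η ^ θ ∂(law μ) ≤ ∑ i ∈ Finset.range N, ∑ i' ∈ Finset.range N,
      ∫ η, Bk μ s w n D (k * N + i' - i) η ^ θ ∂(law μ) := by
  rw [← Finset.sum_product']
  refine mom_sum hμ hθ hθ1 _ (fun p : ℕ × ℕ => Bk μ s w n D (k * N + p.2 - p.1))
    (fun p => (0, (p.1 : ℤ) * w)) (fun _ _ => Bk_dom hw _ _ _)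
    (Bk_dom (Nat.mul_pos hN hw) _ _ _) fun η => ?_
  rw [Finset.sum_product]
  exact Bk_big hw hN n D k η

theorem Gk_big_mom (hμ : Pool.Agent.W_7d29a1_h47.EM μ) (hθ : 0 < θ) (hθ1 : θ ≤ 1) {w N : ℕ}
    (hw : 0 < w) (hN : 0 < N) (n : ℕ) :
    ∫ η, Gk μ s (N * w) n η ^ θ ∂(law μ) ≤ N * ∫ η, Gk μ s w n η ^ θ ∂(law μ) := by
  have h := mom_sum (μ := μ) hμ hθ hθ1 (Finset.range N) (fun _ : ℕ => Gk μ s w n)
    (fun i => (0, (i : ℤ) * w)) (fun _ _ => Gk_dom hw _) (Gk_dom (Nat.mul_pos hN hw) n)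
    (Gk_big hw hN n)
  rwa [Finset.sum_const, Finset.card_range, nsmul_eq_mul] at h

end Moments

end Pool.Agent.W_7d29a1_G20
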