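import Pool.Agent.W_7d29a1_F.CoreD4

/-!
TRACK G, section (D7), part 4: one junction by vertical references, for a fixed environment. helper20.
-/

namespace Pool.Agent.W_7d29a1_G20

open Pool.Agent.W_7d29a1_F MeasureTheory

/-- The weight from `(t, x)` to `(t + n, y)`. -/
noncomputable def Wt (μ : Measure ℝ) (s : ℝ) (η : Env) (t x : ℤ) (n : ℕ) (y : ℤ) : ℝ :=
  W μ s η (t, x) n (y - x)

variable {μ : Measure ℝ} {s : ℝ}

theorem Wt_nonneg (η : Env) (t x : ℤ) (n : ℕ) (y : ℤ) : 0 ≤ Wt μ s η t x n y := W_nonneg _ _ _ _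

theorem Wt_eq_zero (η : Env) (t x : ℤ) (n : ℕ) (y : ℤ) (h : ¬ (x ≤ y ∧ y ≤ x + n)) :
    Wt μ s η t x n y = 0 := by
  unfold Wt
  refine W_eq_zero η _ ?_
  rintro ⟨h1, h2⟩
  exact h ⟨by omega, by omega⟩

/-- A sum over displacements as a sum over positions. -/
theorem sum_pos_eq (x : ℤ) (n : ℕ) (f : ℤ → ℝ) :
    ∑ k ∈ Finset.Icc (0 : ℤ) n, f (x + k) = ∑ g ∈ Finset.Icc x (x + n), f g := by
  refine Finset.sum_nbij' (fun k => x + k) (fun g => g - x) ?_ ?_ ?_ ?_ ?_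
  · intro k hk
    rw [Finset.mem_Icc] at hk ⊢
    omega
  · intro k hk
    rw [Finset.mem_Icc] at hk ⊢
    omega
  · intro k _
    ring
  · intro k _
    ring
  · intro k _
    rfl

theorem sum_pos_le (x : ℤ) (n : ℕ) (f : ℤ → ℝ) (h0 : ∀ g, 0 ≤ f g)
    (hz : ∀ g, ¬ (x ≤ g ∧ g ≤ x + n) → f g = 0) (S : Finset ℤ) :
    ∑ g ∈ S, f g ≤ ∑ g ∈ Finset.Icc x (x + n), f g := by
  classical
  have h1 : ∑ g ∈ Finset.Icc x (x + n), f g = ∑ g ∈ S ∪ Finset.Icc x (x + n), f g := by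
    refine Finset.sum_subset Finset.subset_union_right fun g _ hg => hz g ?_
    rintro ⟨h2, h3⟩
    exact hg (Finset.mem_Icc.2 ⟨h2, h3⟩)
  rw [h1]
  exact Finset.sum_le_sum_of_subset_of_nonneg Finset.subset_union_left fun g _ _ => h0 g

/-- Chapman-Kolmogorov, any set of intermediate points. -/
theorem Wt_ck (η : Env) (t x : ℤ) (n1 n2 : ℕ) (z : ℤ) (S : Finset ℤ) :
    ∑ g ∈ S, Wt μ s η t x n1 g * Wt μ s η (t + n1) g n2 z ≤ Wt μ s η t x (n1 + n2) z := by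
  refine (sum_pos_le x n1 _ (fun g => mul_nonneg (Wt_nonneg _ _ _ _ _) (Wt_nonneg _ _ _ _ _))
    (fun g hg => by rw [Wt_eq_zero η t x n1 g hg, zero_mul]) S).trans (le_of_eq ?_)
  rw [← sum_pos_eq x n1]
  unfold Wt
  rw [W_add]
  refine Finset.sum_congr rfl fun k _ => ?_
  rw [add_sub_cancel_left]
  congr 2
  ring

theorem Wt_ckV (η : Env) (t x : ℤ) (n1 n2 : ℕ) (S : Finset ℤ) :
    ∑ g ∈ S, Wt μ s η t x n1 g * Real.exp (V μ s η (t + n1, g) n2) ≤
      Real.exp (V μ s η (t, x) (n1 + n2)) := by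
  refine (sum_pos_le x n1 _ (fun g => mul_nonneg (Wt_nonneg _ _ _ _ _) (Real.exp_pos _).le)
    (fun g hg => by rw [Wt_eq_zero η t x n1 g hg, zero_mul]) S).trans (le_of_eq ?_)
  rw [← sum_pos_eq x n1, exp_V_add]
  refine Finset.sum_congr rfl fun k _ => ?_
  unfold Wt
  rw [add_sub_cancel_left]

theorem Wt_ckV_eq (η : Env) (t x : ℤ) (n1 n2 : ℕ) (S : Finset ℤ) (hS : Finset.Icc x (x + n1) ⊆ S) :
    Real.exp (V μ s η (t, x) (n1 + n2)) =
      ∑ g ∈ S, Wt μ s η t x n1 g * Real.exp (V μ s η (t + n1, g) n2) := by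
  have h1 : ∑ g ∈ Finset.Icc x (x + n1), Wt μ s η t x n1 g * Real.exp (V μ s η (t + n1, g) n2) =
      ∑ g ∈ S, Wt μ s η t x n1 g * Real.exp (V μ s η (t + n1, g) n2) := by
    refine Finset.sum_subset hS fun g _ hg => ?_
    rw [Wt_eq_zero η t x n1 g fun h => hg (Finset.mem_Icc.2 h), zero_mul]
  rw [← h1, ← sum_pos_eq x n1, exp_V_add]
  refine Finset.sum_congr rfl fun k _ => ?_
  unfold Wt
  rw [add_sub_cancel_left]

/-- Crossing pairs: the path is left of the reference at the beginning and right of it at the end. -/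
theorem Wt_tp_right (η : Env) (t g x : ℤ) (n : ℕ) (g' y : ℤ) (h1 : g ≤ x) (h2 : y ≤ g') :
    Wt μ s η t g n g' * Wt μ s η t x n y ≤ Wt μ s η t g n y * Wt μ s η t x n g' :=
  W_tp2 η t g x n y g' h1 h2

theorem Wt_tp_left (η : Env) (t g x : ℤ) (n : ℕ) (g' y : ℤ) (h1 : x ≤ g) (h2 : g' ≤ y) :
    Wt μ s η t g n g' * Wt μ s η t x n y ≤ Wt μ s η t g n y * Wt μ s η t x n g' := by
  have h := W_tp2 (μ := μ) (s := s) η t x g n g' y h1 h2
  unfold Wt
  linarith [mul_comm (W μ s η (t, g) n (g' - g)) (W μ s η (t, x) n (y - x)),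
    mul_comm (W μ s η (t, g) n (y - g)) (W μ s η (t, x) n (g' - x))]

/-- Cells of width `m` in `[x0, x0 + n m)`. -/
theorem sum_mesh {m : ℕ} (hm : 0 < m) (x0 : ℤ) (n : ℕ) (A : Finset ℤ)
    (hA : ∀ g ∈ A, x0 ≤ g ∧ g < x0 + n * m) (f : ℤ → ℝ) :
    ∑ g ∈ A, f g = ∑ j ∈ Finset.range n, ∑ g ∈ A.filter (fun g => ((g - x0) / m).toNat = j), f g := by
  refine (Finset.sum_fiberwise_of_maps_to (fun g hg => ?_) f).symm
  obtain ⟨h1, h2⟩ := hA g hg
  have hm' : (0 : ℤ) < m := by exact_mod_cast hm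
  have h3 : (g - x0) / m < n := by
    rw [Int.ediv_lt_iff_lt_mul hm']
    linarith
  have h4 : 0 ≤ (g - x0) / m := Int.ediv_nonneg (by linarith) hm'.le
  rw [Finset.mem_range]
  omega

theorem mem_mesh {m : ℕ} (hm : 0 < m) (x0 : ℤ) (n : ℕ) (A : Finset ℤ)
    (hA : ∀ g ∈ A, x0 ≤ g ∧ g < x0 + n * m) {j : ℕ} {g : ℤ}
    (hg : g ∈ A.filter (fun g => ((g - x0) / m).toNat = j)) :
    x0 + j * m ≤ g ∧ g < x0 + (j + 1) * m := by
  rw [Finset.mem_filter] at hg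
  obtain ⟨h0, h5⟩ := hg
  obtain ⟨h1, h2⟩ := hA g h0
  have hm' : (0 : ℤ) < m := by exact_mod_cast hm
  have h4 : 0 ≤ (g - x0) / m := Int.ediv_nonneg (by linarith) hm'.le
  have h6 : (g - x0) / m = j := by omega
  have h7 := Int.mul_ediv_add_emod (g - x0) m
  have h8 := Int.emod_nonneg (g - x0) hm'.ne'
  have h9 := Int.emod_lt_of_pos (g - x0) hm'
  rw [h6] at h7
  constructor
  · linarith [mul_comm (m : ℤ) j]
  · have : (m : ℤ) * j + (g - x0) % m < (j + 1) * m := by linarith [mul_comm (m : ℤ) j]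
    linarith

set_option maxHeartbeats 800000 in
/-- ONE JUNCTION. `Rf g` = weight before the point `(t, g)`, `T g'` = weight behind `(t + L, g')`. The
references have displacement `d` or `d - m`. -/
theorem junction_step {m : ℕ} (hm : 0 < m) (η : Env) (t x0 d : ℤ) (L n : ℕ) (A B : Finset ℤ)
    (hA : ∀ g ∈ A, x0 ≤ g ∧ g < x0 + n * m) (hB : ∀ g ∈ B, x0 + d ≤ g ∧ g < x0 + d + n * m)
    (Rf T : ℤ → ℝ) (hR : ∀ g, 0 ≤ Rf g) (hT : ∀ g, 0 ≤ T g) {Tr b1 b2 : ℝ}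
    (hr1 : ∀ j : ℕ, j ≤ n → Real.exp (-Tr) ≤ Wt μ s η t (x0 + j * m) L (x0 + d + j * m))
    (hr2 : ∀ j : ℕ, j < n → Real.exp (-Tr) ≤ Wt μ s η t (x0 + (j + 1) * m) L (x0 + d + j * m))
    (h1 : ∀ j : ℕ, j ≤ n → ∑ g ∈ A, Rf g * Wt μ s η t g L (x0 + d + j * m) ≤ b1)
    (h2 : ∀ j : ℕ, j ≤ n → ∑ g' ∈ B, Wt μ s η t (x0 + j * m) L g' * T g' ≤ b2) :
    ∑ g ∈ A, ∑ g' ∈ B, Rf g * Wt μ s η t g L g' * T g' ≤ n ^ 2 * (Real.exp Tr * (b1 * b2)) := by
  classical
  have key : ∀ j ∈ Finset.range n, ∀ j' ∈ Finset.range n,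
      ∑ g ∈ A.filter (fun g => ((g - x0) / m).toNat = j),
        ∑ g' ∈ B.filter (fun g' => ((g' - (x0 + d)) / m).toNat = j'), Rf g * Wt μ s η t g L g' * T g' ≤
      Real.exp Tr * (b1 * b2) := by
    intro j hj j' hj'
    rw [Finset.mem_range] at hj hj'
    have hm' : (0 : ℤ) < m := by exact_mod_cast hm
    -- the reference
    obtain ⟨x, y, hxy, hW, ⟨jx, hjx, hx⟩, ⟨jy, hjy, hy⟩⟩ : ∃ x y : ℤ,
        (∀ g ∈ A.filter (fun g => ((g - x0) / m).toNat = j),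
          ∀ g' ∈ B.filter (fun g' => ((g' - (x0 + d)) / m).toNat = j'),
          Wt μ s η t g L g' * Wt μ s η t x L y ≤ Wt μ s η t g L y * Wt μ s η t x L g') ∧
        Real.exp (-Tr) ≤ Wt μ s η t x L y ∧ (∃ jx : ℕ, jx ≤ n ∧ x = x0 + jx * m) ∧
        ∃ jy : ℕ, jy ≤ n ∧ y = x0 + d + jy * m := by
      rcases lt_trichotomy j j' with hlt | heq | hgt
      · refine ⟨x0 + j' * m, x0 + d + j' * m, ?_, hr1 j' hj'.le, ⟨j', hj'.le, rfl⟩, ⟨j', hj'.le, rfl⟩⟩
        intro g hg g' hg'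
        obtain ⟨a1, a2⟩ := mem_mesh hm x0 n A hA hg
        obtain ⟨a3, a4⟩ := mem_mesh hm (x0 + d) n B hB hg'
        refine Wt_tp_right η t g _ L g' _ ?_ a3
        have : (j : ℤ) + 1 ≤ j' := by exact_mod_cast hlt
        nlinarith
      · subst heq
        refine ⟨x0 + (j + 1) * m, x0 + d + j * m, ?_, hr2 j hj, ⟨j + 1, hj, by push_cast; ring⟩,
          ⟨j, hj.le, rfl⟩⟩
        intro g hg g' hg'
        obtain ⟨a1, a2⟩ := mem_mesh hm x0 n A hA hg
        obtain ⟨a3, a4⟩ := mem_mesh hm (x0 + d) n B hB hg'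
        exact Wt_tp_right η t g _ L g' _ a2.le a3
      · refine ⟨x0 + j * m, x0 + d + j * m, ?_, hr1 j hj.le, ⟨j, hj.le, rfl⟩, ⟨j, hj.le, rfl⟩⟩
        intro g hg g' hg'
        obtain ⟨a1, a2⟩ := mem_mesh hm x0 n A hA hg
        obtain ⟨a3, a4⟩ := mem_mesh hm (x0 + d) n B hB hg'
        refine Wt_tp_left η t g _ L g' _ a1 ?_
        have : (j' : ℤ) + 1 ≤ j := by exact_mod_cast hgt
        nlinarith
    have hpt : ∀ g ∈ A.filter (fun g => ((g - x0) / m).toNat = j),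
        ∀ g' ∈ B.filter (fun g' => ((g' - (x0 + d)) / m).toNat = j'),
        Rf g * Wt μ s η t g L g' * T g' ≤
          Real.exp Tr * ((Rf g * Wt μ s η t g L y) * (Wt μ s η t x L g' * T g')) := by
      intro g hg g' hg'
      have a1 := hxy g hg g' hg'
      have a2 : Wt μ s η t g L g' ≤ Real.exp Tr * (Wt μ s η t g L y * Wt μ s η t x L g') := by
        have a3 : Wt μ s η t g L g' * Real.exp (-Tr) ≤ Wt μ s η t g L y * Wt μ s η t x L g' :=
          (mul_le_mul_of_nonneg_left hW (Wt_nonneg _ _ _ _ _)).trans a1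
        have a4 : Real.exp Tr * Real.exp (-Tr) = 1 := by rw [← Real.exp_add]; simp
        calc Wt μ s η t g L g' = Real.exp Tr * (Wt μ s η t g L g' * Real.exp (-Tr)) := by
              rw [mul_comm (Wt μ s η t g L g'), ← mul_assoc, a4, one_mul]
          _ ≤ _ := mul_le_mul_of_nonneg_left a3 (Real.exp_pos _).le
      calc Rf g * Wt μ s η t g L g' * T g'
          ≤ Rf g * (Real.exp Tr * (Wt μ s η t g L y * Wt μ s η t x L g')) * T g' :=
            mul_le_mul_of_nonneg_right (mul_le_mul_of_nonneg_left a2 (hR g)) (hT g')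
        _ = _ := by ring
    refine (Finset.sum_le_sum fun g hg => Finset.sum_le_sum fun g' hg' => hpt g hg g' hg').trans ?_
    have e1 : ∑ g ∈ A.filter (fun g => ((g - x0) / m).toNat = j),
        ∑ g' ∈ B.filter (fun g' => ((g' - (x0 + d)) / m).toNat = j'),
          Real.exp Tr * ((Rf g * Wt μ s η t g L y) * (Wt μ s η t x L g' * T g')) =
        Real.exp Tr * ((∑ g ∈ A.filter (fun g => ((g - x0) / m).toNat = j), Rf g * Wt μ s η t g L y) *
          ∑ g' ∈ B.filter (fun g' => ((g' - (x0 + d)) / m).toNat = j'), Wt μ s η t x L g' * T g') := by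
      rw [Finset.sum_mul_sum]
      simp only [Finset.mul_sum]
    rw [e1]
    refine mul_le_mul_of_nonneg_left ?_ (Real.exp_pos _).le
    have c1 : ∑ g ∈ A.filter (fun g => ((g - x0) / m).toNat = j), Rf g * Wt μ s η t g L y ≤ b1 := by
      rw [hy]
      exact (Finset.sum_le_sum_of_subset_of_nonneg (Finset.filter_subset _ _) fun g _ _ =>
        mul_nonneg (hR g) (Wt_nonneg _ _ _ _ _)).trans (h1 jy hjy)
    have c2 : ∑ g' ∈ B.filter (fun g' => ((g' - (x0 + d)) / m).toNat = j'),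
        Wt μ s η t x L g' * T g' ≤ b2 := by
      rw [hx]
      exact (Finset.sum_le_sum_of_subset_of_nonneg (Finset.filter_subset _ _) fun g _ _ =>
        mul_nonneg (Wt_nonneg _ _ _ _ _) (hT g)).trans (h2 jx hjx)
    have c3 : 0 ≤ ∑ g' ∈ B.filter (fun g' => ((g' - (x0 + d)) / m).toNat = j'),
        Wt μ s η t x L g' * T g' := Finset.sum_nonneg fun g _ => mul_nonneg (Wt_nonneg _ _ _ _ _) (hT g)
    have c4 : 0 ≤ b1 := (Finset.sum_nonneg fun g _ => mul_nonneg (hR g) (Wt_nonneg _ _ _ _ _)).trans c1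
    exact mul_le_mul c1 c2 c3 c4
  rw [sum_mesh hm x0 n A hA]
  have e2 : ∀ j ∈ Finset.range n, ∑ g ∈ A.filter (fun g => ((g - x0) / m).toNat = j),
      ∑ g' ∈ B, Rf g * Wt μ s η t g L g' * T g' ≤ n * (Real.exp Tr * (b1 * b2)) := by
    intro j hj
    have e3 : ∑ g ∈ A.filter (fun g => ((g - x0) / m).toNat = j),
        ∑ g' ∈ B, Rf g * Wt μ s η t g L g' * T g' =
        ∑ j' ∈ Finset.range n, ∑ g ∈ A.filter (fun g => ((g - x0) / m).toNat = j),
          ∑ g' ∈ B.filter (fun g' => ((g' - (x0 + d)) / m).toNat = j'),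
            Rf g * Wt μ s η t g L g' * T g' := by
      refine Eq.trans (Finset.sum_congr rfl fun g _ => ?_) Finset.sum_comm
      exact sum_mesh hm (x0 + d) n B hB _
    rw [e3]
    refine (Finset.sum_le_sum fun j' hj' => key j hj j' hj').trans (le_of_eq ?_)
    rw [Finset.sum_const, Finset.card_range, nsmul_eq_mul]
  refine (Finset.sum_le_sum e2).trans (le_of_eq ?_)
  rw [Finset.sum_const, Finset.card_range, nsmul_eq_mul]
  ring

end Pool.Agent.W_7d29a1_G20
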