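import Pool.Agent.W_7d29a1_G.SecA4

/-!
TRACK G, section (D7), part 5: a block of `K + 3` slabs for a fixed environment: the paths which stay in the
region, and the paths which leave it. helper20.
-/

namespace Pool.Agent.W_7d29a1_G20

open Pool.Agent.W_7d29a1_F MeasureTheory

variable {μ : Measure ℝ} {s : ℝ}

/-- The time of slab `i`. -/
def tm (L i : ℕ) : ℤ := ((i * L : ℕ) : ℤ)

theorem tm_succ (L i : ℕ) : tm L i + (L : ℕ) = tm L (i + 1) := by
  unfold tm
  push_cast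
  ring

theorem zero_add_tm (L i : ℕ) : (0 : ℤ) + ((i * L : ℕ) : ℤ) = tm L i := by
  unfold tm
  rw [zero_add]

/-- The positions at time `i L` inside the region. -/
noncomputable def Ins (a x0 d : ℤ) (L n m i : ℕ) : Finset ℤ :=
  (Finset.Icc a (a + (i * L : ℕ))).filter fun g => x0 + i * d ≤ g ∧ g < x0 + i * d + n * m

/-- The positions at time `i L` outside the region. -/
noncomputable def Outs (a x0 d : ℤ) (L n m i : ℕ) : Finset ℤ :=
  (Finset.Icc a (a + (i * L : ℕ))).filter fun g => ¬ (x0 + i * d ≤ g ∧ g < x0 + i * d + n * m)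

/-- The weight of the paths from `a` to position `x` at the time `(i + 1) L` which are inside the region at the
times `L, .., i L`. -/
noncomputable def Rw (μ : Measure ℝ) (s : ℝ) (η : Env) (a x0 d : ℤ) (L n m : ℕ) : ℕ → ℤ → ℝ
  | 0, x => Wt μ s η 0 a L x
  | i + 1, x => ∑ g ∈ Ins a x0 d L n m (i + 1), Rw μ s η a x0 d L n m i g * Wt μ s η (tm L (i + 1)) g L x

variable {η : Env} {a x0 d : ℤ} {L n m : ℕ}

theorem Rw_nonneg : ∀ (i : ℕ) (x : ℤ), 0 ≤ Rw μ s η a x0 d L n m i x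
  | 0, _ => Wt_nonneg _ _ _ _ _
  | i + 1, _ => Finset.sum_nonneg fun g _ => mul_nonneg (Rw_nonneg i g) (Wt_nonneg _ _ _ _ _)

theorem Rw_le : ∀ (i : ℕ) (x : ℤ), Rw μ s η a x0 d L n m i x ≤ Wt μ s η 0 a ((i + 1) * L) x
  | 0, x => by
    rw [zero_add, one_mul]
    exact le_rfl
  | i + 1, x => by
    have h1 : Rw μ s η a x0 d L n m (i + 1) x ≤
        ∑ g ∈ Ins a x0 d L n m (i + 1), Wt μ s η 0 a ((i + 1) * L) g *
          Wt μ s η (0 + (((i + 1) * L : ℕ) : ℤ)) g L x := by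
      rw [zero_add_tm]
      exact Finset.sum_le_sum fun g _ => mul_le_mul_of_nonneg_right (Rw_le i g) (Wt_nonneg _ _ _ _ _)
    refine h1.trans ((Wt_ck η 0 a ((i + 1) * L) L x _).trans (le_of_eq ?_))
    congr 1
    ring

theorem Wt_le_expV (t x : ℤ) (n : ℕ) (y : ℤ) :
    Wt μ s η t x n y ≤ Real.exp (V μ s η (t, x) n) := by
  have h := WS_le_exp_V (μ := μ) (s := s) η (t, x) n {y - x}
  simpa [WS, Wt] using h

/-- The good environments. -/
structure Good (μ : Measure ℝ) (s : ℝ) (η : Env) (x0 d : ℤ) (L n m K : ℕ) (Tr Tp : ℝ) : Prop where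
  r1 : ∀ i : ℕ, 1 ≤ i → i ≤ K + 1 → ∀ j : ℕ, j ≤ n →
    Real.exp (-Tr) ≤ Wt μ s η (tm L i) (x0 + i * d + j * m) L (x0 + i * d + d + j * m)
  r2 : ∀ i : ℕ, 1 ≤ i → i ≤ K + 1 → ∀ j : ℕ, j < n →
    Real.exp (-Tr) ≤ Wt μ s η (tm L i) (x0 + i * d + (j + 1) * m) L (x0 + i * d + d + j * m)
  p : ∀ i : ℕ, 1 ≤ i → i ≤ K → ∀ j : ℕ, j ≤ n → ∀ j' : ℕ, j' ≤ n →
    Wt μ s η (tm L i) (x0 + i * d + j * m) (L + L) (x0 + (i + 2 : ℕ) * d + j' * m) ≤ Real.exp (-Tp)

theorem Ins_mem {i : ℕ} : ∀ g ∈ Ins a x0 d L n m i, x0 + i * d ≤ g ∧ g < x0 + i * d + n * m := fun _ hg =>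
  (Finset.mem_filter.1 hg).2

theorem Ins_mem' {i : ℕ} : ∀ g ∈ Ins a x0 d L n m (i + 1),
    x0 + i * d + d ≤ g ∧ g < x0 + i * d + d + n * m := fun g hg => by
  have h := Ins_mem g hg
  push_cast at h
  constructor
  · linarith [h.1]
  · linarith [h.2]

theorem Rw_mesh (hm : 0 < m) {K : ℕ} {Tr Tp : ℝ} (hG : Good μ s η x0 d L n m K Tr Tp) :
    ∀ i : ℕ, i ≤ K → ∀ j : ℕ, j ≤ n → Rw μ s η a x0 d L n m (i + 1) (x0 + (i + 1 : ℕ) * d + d + j * m) ≤
      (n ^ 2 * Real.exp (Tr - Tp)) ^ i * Real.exp (V μ s η (0, a) (L + L)) := by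
  intro i
  induction i with
  | zero =>
    intro _ j _
    rw [pow_zero, one_mul]
    refine (Rw_le 1 _).trans ?_
    have e1 : (1 + 1) * L = L + L := by ring
    rw [e1]
    exact Wt_le_expV _ _ _ _
  | succ i ih =>
    intro hi j hj
    have ih := ih (by omega)
    obtain ⟨z, hz⟩ : ∃ z : ℤ, z = x0 + (i + 1 + 1 : ℕ) * d + d + j * m := ⟨_, rfl⟩
    rw [← hz]
    have hz2 : z = x0 + ((i + 1 + 2 : ℕ) : ℤ) * d + j * m := by
      rw [hz]
      push_cast
      ring
    have e1 : Rw μ s η a x0 d L n m (i + 1 + 1) z =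
        ∑ g ∈ Ins a x0 d L n m (i + 1), ∑ g' ∈ Ins a x0 d L n m (i + 1 + 1),
          Rw μ s η a x0 d L n m i g * Wt μ s η (tm L (i + 1)) g L g' *
            Wt μ s η (tm L (i + 1) + (L : ℕ)) g' L z := by
      rw [Finset.sum_comm]
      rw [tm_succ]
      show ∑ g' ∈ Ins a x0 d L n m (i + 1 + 1), (∑ g ∈ Ins a x0 d L n m (i + 1),
        Rw μ s η a x0 d L n m i g * Wt μ s η (tm L (i + 1)) g L g') *
          Wt μ s η (tm L (i + 1 + 1)) g' L z = _
      exact Finset.sum_congr rfl fun g' _ => Finset.sum_mul _ _ _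
    rw [e1]
    have h := junction_step (μ := μ) (s := s) hm η (tm L (i + 1)) (x0 + (i + 1 : ℕ) * d) d L n
      (Ins a x0 d L n m (i + 1)) (Ins a x0 d L n m (i + 1 + 1)) Ins_mem Ins_mem'
      (Rw μ s η a x0 d L n m i) (fun g' => Wt μ s η (tm L (i + 1) + (L : ℕ)) g' L z)
      (Rw_nonneg i) (fun g => Wt_nonneg _ _ _ _ _) (Tr := Tr)
      (b1 := (n ^ 2 * Real.exp (Tr - Tp)) ^ i * Real.exp (V μ s η (0, a) (L + L)))
      (b2 := Real.exp (-Tp))
      (fun j' hj' => hG.r1 (i + 1) (by omega) (by omega) j' hj')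
      (fun j' hj' => hG.r2 (i + 1) (by omega) (by omega) j' hj')
      (fun j' hj' => ih j' hj')
      (fun j' hj' => by
        refine (Wt_ck η (tm L (i + 1)) _ L L z _).trans ?_
        rw [hz2]
        exact hG.p (i + 1) (by omega) hi j' hj' j hj)
    refine h.trans (le_of_eq ?_)
    rw [pow_succ]
    generalize (n ^ 2 * Real.exp (Tr - Tp)) ^ i = P
    have e2 : Real.exp (Tr - Tp) = Real.exp Tr * Real.exp (-Tp) := by
      rw [← Real.exp_add]
      rfl
    rw [e2]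
    ring

/-- The paths which stay inside. -/
theorem inside_le (hm : 0 < m) {K : ℕ} {Tr Tp b3 : ℝ} (hG : Good μ s η x0 d L n m K Tr Tp)
    (hb3 : ∀ j : ℕ, j ≤ n →
      Real.exp (V μ s η (tm L (K + 1), x0 + (K + 1 : ℕ) * d + j * m) (L + L)) ≤ b3) :
    ∑ x ∈ Ins a x0 d L n m (K + 2), Rw μ s η a x0 d L n m (K + 1) x *
        Real.exp (V μ s η (tm L (K + 2), x) L) ≤
      n ^ 2 * (Real.exp Tr * ((n ^ 2 * Real.exp (Tr - Tp)) ^ K *
        Real.exp (V μ s η (0, a) (L + L)) * b3)) := by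
  have e1 : ∑ x ∈ Ins a x0 d L n m (K + 2), Rw μ s η a x0 d L n m (K + 1) x *
        Real.exp (V μ s η (tm L (K + 2), x) L) =
      ∑ g ∈ Ins a x0 d L n m (K + 1), ∑ g' ∈ Ins a x0 d L n m (K + 1 + 1),
          Rw μ s η a x0 d L n m K g * Wt μ s η (tm L (K + 1)) g L g' *
            Real.exp (V μ s η (tm L (K + 1) + (L : ℕ), g') L) := by
    rw [Finset.sum_comm]
    rw [tm_succ]
    show ∑ g' ∈ Ins a x0 d L n m (K + 1 + 1), (∑ g ∈ Ins a x0 d L n m (K + 1),
      Rw μ s η a x0 d L n m K g * Wt μ s η (tm L (K + 1)) g L g') *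
        Real.exp (V μ s η (tm L (K + 1 + 1), g') L) = _
    exact Finset.sum_congr rfl fun g' _ => Finset.sum_mul _ _ _
  rw [e1]
  exact junction_step (μ := μ) (s := s) hm η (tm L (K + 1)) (x0 + (K + 1 : ℕ) * d) d L n
      (Ins a x0 d L n m (K + 1)) (Ins a x0 d L n m (K + 1 + 1)) Ins_mem Ins_mem'
      (Rw μ s η a x0 d L n m K) (fun g' => Real.exp (V μ s η (tm L (K + 1) + (L : ℕ), g') L))
      (Rw_nonneg K) (fun g => (Real.exp_pos _).le) (Tr := Tr)
      (b1 := (n ^ 2 * Real.exp (Tr - Tp)) ^ K * Real.exp (V μ s η (0, a) (L + L)))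
      (b2 := b3)
      (fun j' hj' => hG.r1 (K + 1) (by omega) (by omega) j' hj')
      (fun j' hj' => hG.r2 (K + 1) (by omega) (by omega) j' hj')
      (fun j' hj' => Rw_mesh hm hG K le_rfl j' hj')
      (fun j' hj' => (Wt_ckV η (tm L (K + 1)) _ L L _).trans (hb3 j' hj'))

/-- The mass which leaves the region at the time `i L`, `i ≤ M`. -/
noncomputable def Ex (μ : Measure ℝ) (s : ℝ) (η : Env) (a x0 d : ℤ) (L n m M i : ℕ) : ℝ :=
  ∑ x ∈ Outs a x0 d L n m i, Wt μ s η 0 a (i * L) x * Real.exp (V μ s η (tm L i, x) ((M - i) * L))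

/-- All paths: inside at all times or outside at some time. -/
theorem exp_V_le_exits (K : ℕ) :
    Real.exp (V μ s η (0, a) ((K + 3) * L)) ≤
      (∑ x ∈ Ins a x0 d L n m (K + 2), Rw μ s η a x0 d L n m (K + 1) x *
        Real.exp (V μ s η (tm L (K + 2), x) L)) +
      ∑ i ∈ Finset.range (K + 2), Ex μ s η a x0 d L n m (K + 3) (i + 1) := by
  -- the mass at the time `(i + 1) L`
  have split : ∀ i : ℕ, ∑ x ∈ Finset.Icc a (a + ((i + 1) * L : ℕ)), Rw μ s η a x0 d L n m i x *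
        Real.exp (V μ s η (tm L (i + 1), x) ((K + 3 - (i + 1)) * L)) ≤
      (∑ x ∈ Ins a x0 d L n m (i + 1), Rw μ s η a x0 d L n m i x *
        Real.exp (V μ s η (tm L (i + 1), x) ((K + 3 - (i + 1)) * L))) +
      Ex μ s η a x0 d L n m (K + 3) (i + 1) := by
    intro i
    have h1 := Finset.sum_filter_add_sum_filter_not (Finset.Icc a (a + ((i + 1) * L : ℕ)))
      (fun g => x0 + ((i + 1 : ℕ) : ℤ) * d ≤ g ∧ g < x0 + ((i + 1 : ℕ) : ℤ) * d + n * m)
      (fun x => Rw μ s η a x0 d L n m i x *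
        Real.exp (V μ s η (tm L (i + 1), x) ((K + 3 - (i + 1)) * L)))
    rw [← h1]
    refine add_le_add le_rfl ?_
    exact Finset.sum_le_sum fun x _ => mul_le_mul_of_nonneg_right (Rw_le i x) (Real.exp_pos _).le
  have step : ∀ i : ℕ, i ≤ K + 1 → Real.exp (V μ s η (0, a) ((K + 3) * L)) ≤
      (∑ x ∈ Ins a x0 d L n m (i + 1), Rw μ s η a x0 d L n m i x *
        Real.exp (V μ s η (tm L (i + 1), x) ((K + 3 - (i + 1)) * L))) +
      ∑ i' ∈ Finset.range (i + 1), Ex μ s η a x0 d L n m (K + 3) (i' + 1) := by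
    intro i
    induction i with
    | zero =>
      intro _
      rw [zero_add, Finset.sum_range_one]
      refine le_trans (le_of_eq ?_) (split 0)
      have e1 : (K + 3) * L = L + (K + 3 - (0 + 1)) * L := by
        have : K + 3 - (0 + 1) = K + 2 := by omega
        rw [this]
        ring
      rw [e1, Wt_ckV_eq η 0 a L ((K + 3 - (0 + 1)) * L) (Finset.Icc a (a + (((0 + 1) * L : ℕ) : ℤ)))
        (by rw [zero_add, one_mul])]
      refine Finset.sum_congr rfl fun x _ => ?_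
      have e2 : (0 : ℤ) + (L : ℕ) = tm L (0 + 1) := by
        unfold tm
        simp
      rw [e2]
      rfl
    | succ i ih =>
      intro hi
      refine (ih (by omega)).trans ?_
      rw [Finset.sum_range_succ _ (i + 1), add_comm (∑ i' ∈ Finset.range (i + 1),
        Ex μ s η a x0 d L n m (K + 3) (i' + 1)), ← add_assoc]
      refine add_le_add ?_ le_rfl
      refine le_trans (le_of_eq ?_) (split (i + 1))
      have e1 : K + 3 - (i + 1) = (K + 3 - (i + 1 + 1)) + 1 := by omega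
      have e2 : (K + 3 - (i + 1)) * L = L + (K + 3 - (i + 1 + 1)) * L := by
        rw [e1]
        ring
      have e3 : ∀ x ∈ Ins a x0 d L n m (i + 1), Rw μ s η a x0 d L n m i x *
          Real.exp (V μ s η (tm L (i + 1), x) ((K + 3 - (i + 1)) * L)) =
          ∑ g ∈ Finset.Icc a (a + ((i + 1 + 1) * L : ℕ)), (Rw μ s η a x0 d L n m i x *
            Wt μ s η (tm L (i + 1)) x L g) *
            Real.exp (V μ s η (tm L (i + 1 + 1), g) ((K + 3 - (i + 1 + 1)) * L)) := by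
        intro x hx
        have hx1 := Finset.mem_Icc.1 (Finset.mem_filter.1 hx).1
        rw [e2, Wt_ckV_eq η (tm L (i + 1)) x L ((K + 3 - (i + 1 + 1)) * L)
          (Finset.Icc a (a + (((i + 1 + 1) * L : ℕ) : ℤ))) ?_, Finset.mul_sum]
        · rw [tm_succ]
          exact Finset.sum_congr rfl fun g _ => by ring
        · refine Finset.Icc_subset_Icc hx1.1 ?_
          have := hx1.2
          push_cast at this ⊢
          linarith
      rw [Finset.sum_congr rfl e3, Finset.sum_comm]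
      exact Finset.sum_congr rfl fun g _ => (Finset.sum_mul _ _ _).symm
  have h := step (K + 1) le_rfl
  have e1 : (K + 3 - (K + 1 + 1)) * L = L := by
    have : K + 3 - (K + 1 + 1) = 1 := by omega
    rw [this, one_mul]
  rw [e1] at h
  exact h

end Pool.Agent.W_7d29a1_G20
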