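import Pool.Agent.W_7d29a1_G.SecA3
import Pool.Agent.W_7d29a1_G.SecA5

/-!
TRACK G, section (D7), part 6: the mass which leaves the region. helper20.
-/

namespace Pool.Agent.W_7d29a1_G20

open Pool.Agent.W_7d29a1_F MeasureTheory

variable {μ : Measure ℝ} [IsProbabilityMeasure μ] {s θ : ℝ}

/-- Cells at distance at least `N`. -/
noncomputable def FarC (J N : ℕ) : Finset ℤ := (Finset.Icc (-(J : ℤ)) J).filter fun j => (N : ℤ) ≤ |j|

theorem sh_sh (a b : Pt) (η : Env) : sh a (sh b η) = sh (a + b) η := by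
  funext p
  show η (p + a + b) = η (p + (a + b))
  rw [add_assoc]

/-- The mass which leaves the region at the time `i L`. -/
theorem exit_le {w m N n L M i : ℕ} (hw : 0 < w) {d : ℤ} (hd0 : 0 ≤ d) (hdL : d ≤ L)
    (hn : n * m = 3 * N * w) (η : Env) (i0 i1 : ℕ) (h0 : i0 < N) (h1 : i1 < w) :
    Ex μ s η (i0 * w + i1) (-(N * w)) d L n m M i ≤ ∑ j ∈ FarC (i * L) N,
      Bk μ s w (i * L) (i * d) j (sh (0, (i0 : ℤ) * w) η) *
        Gk μ s w ((M - i) * L) (sh (((i * L : ℕ) : ℤ), i * d + j * w) (sh (0, (i0 : ℤ) * w) η)) := by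
  classical
  have hw1 : (1 : ℤ) ≤ w := by exact_mod_cast hw
  have hi1 : (i1 : ℤ) < w := by exact_mod_cast h1
  have hi10 : (0 : ℤ) ≤ i1 := by positivity
  have hi0 : (i0 : ℤ) + 1 ≤ N := by exact_mod_cast h0
  have hi00 : (0 : ℤ) ≤ i0 := by positivity
  have hiL : (0 : ℤ) ≤ ((i * L : ℕ) : ℤ) := by positivity
  have hid0 : (0 : ℤ) ≤ (i : ℤ) * d := by positivity
  have hidL : (i : ℤ) * d ≤ ((i * L : ℕ) : ℤ) := by
    push_cast
    exact mul_le_mul_of_nonneg_left hdL (by positivity)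
  have hiLw : ((i * L : ℕ) : ℤ) ≤ ((i * L : ℕ) : ℤ) * w := by nlinarith
  have hn' : (n : ℤ) * m = 3 * N * w := by exact_mod_cast hn
  obtain ⟨f, hf⟩ : ∃ f : ℤ → ℝ, f = fun x => Wt μ s η 0 (i0 * w + i1) (i * L) x *
    Real.exp (V μ s η (tm L i, x) ((M - i) * L)) := ⟨_, rfl⟩
  have hf0 : ∀ x, 0 ≤ f x := fun x => by
    rw [hf]
    exact mul_nonneg (Wt_nonneg _ _ _ _ _) (Real.exp_pos _).le
  obtain ⟨f', hf'⟩ : ∃ f' : ℤ → ℝ, f' = fun x =>
    if ¬ (-((N : ℤ) * w) + i * d ≤ x ∧ x < -((N : ℤ) * w) + i * d + n * m) then f x else 0 := ⟨_, rfl⟩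
  have hf'0 : ∀ x, 0 ≤ f' x := fun x => by
    rw [hf']
    show (0 : ℝ) ≤ ite _ _ _
    split_ifs
    · exact le_rfl
    · exact hf0 x
  have hf'f : ∀ x, f' x ≤ f x := fun x => by
    rw [hf']
    show ite _ _ _ ≤ f x
    split_ifs
    · exact hf0 x
    · exact le_rfl
  have e1 : Ex μ s η (i0 * w + i1) (-(N * w)) d L n m M i =
      ∑ x ∈ Finset.Icc ((i0 : ℤ) * w + i1) ((i0 : ℤ) * w + i1 + (i * L : ℕ)), f' x := by
    unfold Ex Outs
    rw [Finset.sum_filter, hf', hf]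
  rw [e1]
  have e2 := sum_cells hw ((i0 : ℤ) * w + i * d) (i * L) f' hf'0
    (Finset.Icc ((i0 : ℤ) * w + i1) ((i0 : ℤ) * w + i1 + (i * L : ℕ))) (fun x hx => by
      rw [Finset.mem_Icc] at hx
      constructor
      · linarith [hx.1]
      · have := hx.2
        have h5 : (((i * L : ℕ) : ℤ) + 1) * w = ((i * L : ℕ) : ℤ) * w + w := by ring
        rw [h5]
        linarith)
  refine e2.trans ?_
  have e3 : ∑ j ∈ Finset.Icc (-((i * L : ℕ) : ℤ)) (i * L : ℕ), ∑ l ∈ Finset.range w,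
      f' ((i0 : ℤ) * w + i * d + j * w + l) =
      ∑ j ∈ FarC (i * L) N, ∑ l ∈ Finset.range w, f' ((i0 : ℤ) * w + i * d + j * w + l) := by
    symm
    refine Finset.sum_subset (Finset.filter_subset _ _) fun j hj hj2 => ?_
    have hj3 : ¬ (N : ℤ) ≤ |j| := fun h => hj2 (Finset.mem_filter.2 ⟨hj, h⟩)
    rw [not_le, abs_lt] at hj3
    refine Finset.sum_eq_zero fun l hl => ?_
    have hl1 : (l : ℤ) < w := by exact_mod_cast Finset.mem_range.1 hl
    have hl0 : (0 : ℤ) ≤ l := by positivity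
    rw [hf']
    show ite _ _ _ = (0 : ℝ)
    rw [if_neg]
    rw [not_not]
    constructor
    · have : -(N : ℤ) * w ≤ j * w := mul_le_mul_of_nonneg_right hj3.1.le (by positivity)
      nlinarith
    · have h6 : (j + 1) * w ≤ (N : ℤ) * w := mul_le_mul_of_nonneg_right (by linarith [hj3.2]) (by positivity)
      have h7 : ((i0 : ℤ) + 1) * w ≤ (N : ℤ) * w := mul_le_mul_of_nonneg_right hi0 (by positivity)
      rw [hn']
      nlinarith
  rw [e3]
  refine Finset.sum_le_sum fun j _ => ?_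
  have e4 : ∀ l ∈ Finset.range w, f' ((i0 : ℤ) * w + i * d + j * w + l) ≤
      W μ s η (0, (i0 : ℤ) * w + i1) (i * L) (i * d + j * w + l - i1) *
        Gk μ s w ((M - i) * L) (sh (((i * L : ℕ) : ℤ), i * d + j * w) (sh (0, (i0 : ℤ) * w) η)) := by
    intro l hl
    refine (hf'f _).trans ?_
    rw [hf]
    have a1 : Wt μ s η 0 (i0 * w + i1) (i * L) ((i0 : ℤ) * w + i * d + j * w + l) =
        W μ s η (0, (i0 : ℤ) * w + i1) (i * L) (i * d + j * w + l - i1) := by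
      unfold Wt
      congr 1
      ring
    have a2 : Real.exp (V μ s η (tm L i, (i0 : ℤ) * w + i * d + j * w + l) ((M - i) * L)) ≤
        Gk μ s w ((M - i) * L) (sh (((i * L : ℕ) : ℤ), i * d + j * w) (sh (0, (i0 : ℤ) * w) η)) := by
      rw [sh_sh]
      have h := le_Gk_sh (μ := μ) (s := s) ((M - i) * L) η (tm L i) ((i0 : ℤ) * w + i * d + j * w) l
        (Finset.mem_range.1 hl)
      have e5 : ((((i * L : ℕ) : ℤ), (i : ℤ) * d + j * w) : Pt) + (0, (i0 : ℤ) * w) =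
          (tm L i, (i0 : ℤ) * w + i * d + j * w) := by
        refine Prod.ext ?_ ?_
        · show ((i * L : ℕ) : ℤ) + 0 = tm L i
          unfold tm
          ring
        · show (i : ℤ) * d + j * w + i0 * w = i0 * w + i * d + j * w
          ring
      rw [e5]
      exact h
    show Wt μ s η 0 (i0 * w + i1) (i * L) ((i0 : ℤ) * w + i * d + j * w + l) * _ ≤ _
    rw [a1]
    exact mul_le_mul_of_nonneg_left a2 (W_nonneg _ _ _ _)
  refine (Finset.sum_le_sum e4).trans ?_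
  rw [← Finset.sum_mul]
  exact mul_le_mul_of_nonneg_right (le_Bk_sh (i * L) (i * d) j η 0 ((i0 : ℤ) * w) i1 h1)
    ((Gk_dom (μ := μ) hw _).nonneg _)

/-- All exits from one small cell. -/
noncomputable def AllEx (μ : Measure ℝ) (s : ℝ) (w N L : ℕ) (d : ℤ) (K : ℕ) (η : Env) : ℝ :=
  ∑ i ∈ Finset.range (K + 2), ∑ j ∈ FarC ((i + 1) * L) N,
    Bk μ s w ((i + 1) * L) ((i + 1 : ℕ) * d) j η *
      Gk μ s w ((K + 3 - (i + 1)) * L) (sh ((((i + 1) * L : ℕ) : ℤ), (i + 1 : ℕ) * d + j * w) η)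

theorem AllEx_dom {w : ℕ} (hw : 0 < w) (N L : ℕ) (d : ℤ) (K : ℕ) : Dom (AllEx μ s w N L d K) :=
  Dom.sum _ fun _ _ => Dom.sum _ fun _ _ => (Bk_dom hw _ _ _).mul ((Gk_dom hw _).comp_sh _)

theorem far_sum {ρ : ℝ} (h0 : 0 ≤ ρ) (h1 : ρ < 1) (J N : ℕ) :
    ∑ j ∈ FarC J N, ρ ^ (2 * j.natAbs) ≤ ρ ^ N * (2 / (1 - ρ)) := by
  have h2 : ∀ j ∈ FarC J N, ρ ^ (2 * j.natAbs) ≤ ρ ^ N * ρ ^ j.natAbs := by
    intro j hj
    have h3 := (Finset.mem_filter.1 hj).2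
    rw [← pow_add]
    refine pow_le_pow_of_le_one h0 h1.le ?_
    rw [Int.abs_eq_natAbs] at h3
    omega
  refine (Finset.sum_le_sum h2).trans ?_
  rw [← Finset.mul_sum]
  refine mul_le_mul_of_nonneg_left ?_ (pow_nonneg h0 _)
  exact (Finset.sum_le_sum_of_subset_of_nonneg (Finset.filter_subset _ _) fun _ _ _ =>
    pow_nonneg h0 _).trans (geom_abs h0 h1 J)

theorem AllEx_mom (hμ : Pool.Agent.W_7d29a1_h47.EM μ) (hθ : 0 < θ) (hθ1 : θ ≤ 1) {w L : ℕ} (hw : 0 < w)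
    {d : ℤ} (hd0 : 0 ≤ d) (hdL : d ≤ L) {C ρ : ℝ} (hC : 1 ≤ C) (h0 : 0 ≤ ρ) (h1 : ρ < 1)
    (hF : Mom μ s θ w L d C ρ) (N K : ℕ) :
    ∫ η, AllEx μ s w N L d K η ^ θ ∂(law μ) ≤
      (K + 2) * ((C * (2 / (1 - ρ))) ^ (K + 3) * (ρ ^ N * (2 / (1 - ρ)))) := by
  have hg := one_le_two_div h0 h1
  have hK0 : 0 ≤ C * (2 / (1 - ρ)) := mul_nonneg (by linarith) (by linarith)
  have hdom : ∀ i ∈ Finset.range (K + 2), Dom fun η => ∑ j ∈ FarC ((i + 1) * L) N,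
      Bk μ s w ((i + 1) * L) ((i + 1 : ℕ) * d) j η *
        Gk μ s w ((K + 3 - (i + 1)) * L) (sh ((((i + 1) * L : ℕ) : ℤ), (i + 1 : ℕ) * d + j * w) η) :=
    fun i _ => Dom.sum _ fun _ _ => (Bk_dom hw _ _ _).mul ((Gk_dom hw _).comp_sh _)
  have step1 := mom_sum (μ := μ) hμ hθ hθ1 (Finset.range (K + 2)) (fun i η => ∑ j ∈ FarC ((i + 1) * L) N,
      Bk μ s w ((i + 1) * L) ((i + 1 : ℕ) * d) j η *
        Gk μ s w ((K + 3 - (i + 1)) * L) (sh ((((i + 1) * L : ℕ) : ℤ), (i + 1 : ℕ) * d + j * w) η))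
      (fun _ => (0, 0)) hdom (AllEx_dom (μ := μ) (s := s) hw N L d K) (fun η => by
        have e0 : sh ((0, 0) : Pt) η = η := by
          funext p
          show η (p + 0) = η p
          rw [add_zero]
        simp only [e0]
        exact le_rfl)
  refine step1.trans ?_
  have step2 : ∀ i ∈ Finset.range (K + 2), ∫ η, (∑ j ∈ FarC ((i + 1) * L) N,
      Bk μ s w ((i + 1) * L) ((i + 1 : ℕ) * d) j η *
        Gk μ s w ((K + 3 - (i + 1)) * L) (sh ((((i + 1) * L : ℕ) : ℤ), (i + 1 : ℕ) * d + j * w) η)) ^ θ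
        ∂(law μ) ≤ (C * (2 / (1 - ρ))) ^ (K + 3) * (ρ ^ N * (2 / (1 - ρ))) := by
    intro i hi
    rw [Finset.mem_range] at hi
    have h2 := mom_conv (μ := μ) hμ hθ hθ1 (FarC ((i + 1) * L) N)
      (fun j => Bk μ s w ((i + 1) * L) ((i + 1 : ℕ) * d) j) (fun _ => Gk μ s w ((K + 3 - (i + 1)) * L))
      (fun j => (i + 1 : ℕ) * d + j * w) ((i + 1) * L) ((K + 3 - (i + 1)) * L)
      (fun _ _ => Bk_dom hw _ _ _) (fun _ _ => Gk_dom hw _) (fun _ _ => Bk_dep _ _ _ _)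
      (fun _ _ => Gk_dep _ _) (hdom i (Finset.mem_range.2 hi)) (fun η => le_rfl)
    refine h2.trans ?_
    have h3 : ∀ j ∈ FarC ((i + 1) * L) N,
        (∫ η, Bk μ s w ((i + 1) * L) ((i + 1 : ℕ) * d) j η ^ θ ∂(law μ)) *
          ∫ η, Gk μ s w ((K + 3 - (i + 1)) * L) η ^ θ ∂(law μ) ≤
        (C * (2 / (1 - ρ))) ^ (K + 3) * ρ ^ (2 * j.natAbs) := by
      intro j _
      have a1 := Bk_iter (s := s) hμ hθ hθ1 hw hd0 hdL hC h0 h1 hF (M := i + 1) (by omega) j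
      have a2 := Gk_iter (s := s) hμ hθ hθ1 hw hd0 hdL hC h0 h1 hF (K + 3 - (i + 1))
      refine (mul_le_mul a1 a2 (integral_nonneg fun η => Real.rpow_nonneg
        ((Gk_dom (μ := μ) hw _).nonneg η) _) (mul_nonneg (pow_nonneg hK0 _) (pow_nonneg h0 _))).trans
        (le_of_eq ?_)
      have e1 : K + 3 = (i + 1) + (K + 3 - (i + 1)) := by omega
      conv_rhs => rw [e1, pow_add]
      ring
    refine (Finset.sum_le_sum h3).trans ?_
    rw [← Finset.mul_sum]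
    exact mul_le_mul_of_nonneg_left (far_sum h0 h1 _ _) (pow_nonneg hK0 _)
  refine (Finset.sum_le_sum step2).trans (le_of_eq ?_)
  rw [Finset.sum_const, Finset.card_range, nsmul_eq_mul]
  push_cast
  ring

end Pool.Agent.W_7d29a1_G20
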