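import Pool.Agent.W_7d29a1_G.SecA6

/-!
TRACK G, section (D7), part 7: the moment of the total mass of a block. helper20.
-/

namespace Pool.Agent.W_7d29a1_G20

open Pool.Agent.W_7d29a1_F MeasureTheory

variable {μ : Measure ℝ} [IsProbabilityMeasure μ] {s θ : ℝ}

/-- The constant of the inside part. -/
noncomputable def cIn (n K : ℕ) (Tr Tp : ℝ) : ℝ :=
  n ^ 2 * (Real.exp Tr * (n ^ 2 * Real.exp (Tr - Tp)) ^ K)

theorem cIn_nonneg (n K : ℕ) (Tr Tp : ℝ) : 0 ≤ cIn n K Tr Tp := by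
  unfold cIn
  positivity

/-- The inside part. -/
noncomputable def InP (μ : Measure ℝ) (s : ℝ) (w N n m L : ℕ) (d : ℤ) (K : ℕ) (Tr Tp : ℝ) (η : Env) : ℝ :=
  ∑ j ∈ Finset.range (n + 1), (cIn n K Tr Tp * Gk μ s (N * w) (L + L) η) *
    Real.exp (V μ s (sh ((((K + 1) * L : ℕ) : ℤ), -(N * w) + (K + 1 : ℕ) * d + j * m) η) (0, 0) (L + L))

theorem E0_dom (L : ℕ) : Dom fun η => Real.exp (V μ s η (0, 0) L) := Dom.exp (Sub_V _ _)

theorem InP_dom {w N : ℕ} (hw : 0 < w) (hN : 0 < N) (n m L : ℕ) (d : ℤ) (K : ℕ) (Tr Tp : ℝ) :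
    Dom (InP μ s w N n m L d K Tr Tp) :=
  Dom.sum _ fun _ _ => ((Dom.const (cIn_nonneg n K Tr Tp)).mul (Gk_dom (Nat.mul_pos hN hw) _)).mul
    ((E0_dom (μ := μ) (s := s) (L + L)).comp_sh _)

/-- The total mass of a block in a good environment. -/
theorem good_le {w N n m L K : ℕ} (hw : 0 < w) (hN : 0 < N) (hm : 0 < m) {d : ℤ} (hd0 : 0 ≤ d)
    (hdL : d ≤ L) (hn : n * m = 3 * N * w) {Tr Tp : ℝ} {η : Env}
    (hG : Good μ s η (-(N * w)) d L n m K Tr Tp) :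
    Gk μ s (N * w) ((K + 3) * L) η ≤ InP μ s w N n m L d K Tr Tp η +
      ∑ i0 ∈ Finset.range N, AllEx μ s w N L d K (sh (0, (i0 : ℤ) * w) η) := by
  have hNw : 0 < N * w := Nat.mul_pos hN hw
  haveI : Nonempty (Fin (N * w)) := ⟨⟨0, hNw⟩⟩
  refine ciSup_le fun a => ?_
  obtain ⟨a, ha⟩ := a
  have h1 : a / w < N := (Nat.div_lt_iff_lt_mul hw).2 ha
  have h2 : a % w < w := Nat.mod_lt _ hw
  have h3 : a = a / w * w + a % w := by
    have := Nat.div_add_mod a w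
    linarith [mul_comm w (a / w)]
  have h3' : (a : ℤ) = ((a / w : ℕ) : ℤ) * w + ((a % w : ℕ) : ℤ) := by exact_mod_cast h3
  have h4 := exp_V_le_exits (μ := μ) (s := s) (η := η) (a := (a : ℤ)) (x0 := -((N : ℤ) * w)) (d := d)
    (L := L) (n := n) (m := m) K
  have h5 := inside_le (μ := μ) (s := s) (η := η) (a := (a : ℤ)) (x0 := -((N : ℤ) * w)) (d := d)
    (L := L) (n := n) (m := m) hm (K := K) (Tr := Tr) (Tp := Tp)
    (b3 := ∑ j ∈ Finset.range (n + 1),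
      Real.exp (V μ s η (tm L (K + 1), -((N : ℤ) * w) + (K + 1 : ℕ) * d + j * m) (L + L))) hG
    (fun j hj => Finset.single_le_sum (f := fun j : ℕ =>
      Real.exp (V μ s η (tm L (K + 1), -((N : ℤ) * w) + (K + 1 : ℕ) * d + j * m) (L + L)))
      (fun _ _ => (Real.exp_pos _).le) (Finset.mem_range.2 (by omega)))
  have h6 : Real.exp (V μ s η (0, (a : ℤ)) (L + L)) ≤ Gk μ s (N * w) (L + L) η :=
    le_Gk (L + L) η a ha
  have h7 : (n : ℝ) ^ 2 * (Real.exp Tr * ((n ^ 2 * Real.exp (Tr - Tp)) ^ K *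
        Real.exp (V μ s η (0, (a : ℤ)) (L + L)) * ∑ j ∈ Finset.range (n + 1),
      Real.exp (V μ s η (tm L (K + 1), -((N : ℤ) * w) + (K + 1 : ℕ) * d + j * m) (L + L)))) ≤
      InP μ s w N n m L d K Tr Tp η := by
    have e1 : (n : ℝ) ^ 2 * (Real.exp Tr * ((n ^ 2 * Real.exp (Tr - Tp)) ^ K *
        Real.exp (V μ s η (0, (a : ℤ)) (L + L)) * ∑ j ∈ Finset.range (n + 1),
      Real.exp (V μ s η (tm L (K + 1), -((N : ℤ) * w) + (K + 1 : ℕ) * d + j * m) (L + L)))) =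
      ∑ j ∈ Finset.range (n + 1), (cIn n K Tr Tp * Real.exp (V μ s η (0, (a : ℤ)) (L + L))) *
      Real.exp (V μ s η (tm L (K + 1), -((N : ℤ) * w) + (K + 1 : ℕ) * d + j * m) (L + L)) := by
      rw [← Finset.mul_sum]
      unfold cIn
      ring
    rw [e1]
    unfold InP
    refine Finset.sum_le_sum fun j _ => ?_
    have e2 : V μ s (sh ((((K + 1) * L : ℕ) : ℤ), -((N : ℤ) * w) + (K + 1 : ℕ) * d + j * m) η) (0, 0)
        (L + L) = V μ s η (tm L (K + 1), -((N : ℤ) * w) + (K + 1 : ℕ) * d + j * m) (L + L) := by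
      rw [V_sh]
      congr 1
      refine Prod.ext ?_ ?_
      · show (0 : ℤ) + (((K + 1) * L : ℕ) : ℤ) = tm L (K + 1)
        unfold tm
        rw [zero_add]
      · show (0 : ℤ) + _ = _
        rw [zero_add]
    rw [e2]
    exact mul_le_mul_of_nonneg_right (mul_le_mul_of_nonneg_left h6 (cIn_nonneg _ _ _ _))
      (Real.exp_pos _).le
  have h8 : ∑ i ∈ Finset.range (K + 2), Ex μ s η (a : ℤ) (-((N : ℤ) * w)) d L n m (K + 3) (i + 1) ≤
      ∑ i0 ∈ Finset.range N, AllEx μ s w N L d K (sh (0, (i0 : ℤ) * w) η) := by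
    refine le_trans ?_ (Finset.single_le_sum (f := fun i0 : ℕ =>
      AllEx μ s w N L d K (sh (0, (i0 : ℤ) * w) η))
      (fun _ _ => (AllEx_dom (μ := μ) (s := s) hw _ _ _ _).nonneg _) (Finset.mem_range.2 h1))
    unfold AllEx
    refine Finset.sum_le_sum fun i _ => ?_
    rw [h3']
    exact exit_le hw hd0 hdL hn η (a / w) (a % w) h1 h2
  show Real.exp (V μ s η (0, (a : ℤ)) ((K + 3) * L)) ≤ _
  exact h4.trans (add_le_add (h5.trans h7) h8)

theorem rows_mono' {a b : ℕ} (h : a ≤ b) : rows 0 (a : ℕ) ⊆ rows 0 (b : ℕ) := fun p hp =>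
  ⟨hp.1, hp.2.trans (by exact_mod_cast h)⟩

theorem dep_mono {f : Env → ℝ} {A B : Set Pt} (hf : DependsOn f A) (h : A ⊆ B) : DependsOn f B :=
  fun _ _ hh => hf fun p hp => hh p (h hp)

theorem InP_mom (hμ : Pool.Agent.W_7d29a1_h47.EM μ) (hθ : 0 < θ) (hθ1 : θ ≤ 1) {w L : ℕ} (hw : 0 < w)
    {d : ℤ} (hd0 : 0 ≤ d) (hdL : d ≤ L) {C ρ : ℝ} (hC : 1 ≤ C) (h0 : 0 ≤ ρ) (h1 : ρ < 1)
    (hF : Mom μ s θ w L d C ρ) {N K : ℕ} (hN : 0 < N) (hK : 1 ≤ K) (n m : ℕ) (Tr Tp : ℝ) :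
    ∫ η, InP μ s w N n m L d K Tr Tp η ^ θ ∂(law μ) ≤
      (n + 1) * (cIn n K Tr Tp ^ θ * (N * (C * (2 / (1 - ρ))) ^ 2) * (C * (2 / (1 - ρ))) ^ 2) := by
  have hNw : 0 < N * w := Nat.mul_pos hN hw
  have e2 : L + L = 2 * L := by ring
  have hg := one_le_two_div h0 h1
  have hK0 : 0 ≤ C * (2 / (1 - ρ)) := mul_nonneg (by linarith) (by linarith)
  have hKL : L + L ≤ (K + 1) * L := by
    rw [e2]
    exact Nat.mul_le_mul_right L (by omega)
  have hg2 := Gk_iter (s := s) hμ hθ hθ1 hw hd0 hdL hC h0 h1 hF 2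
  have a1 : ∫ η, (cIn n K Tr Tp * Gk μ s (N * w) (L + L) η) ^ θ ∂(law μ) ≤
      cIn n K Tr Tp ^ θ * (N * (C * (2 / (1 - ρ))) ^ 2) := by
    have b1 : ∀ η : Env, (cIn n K Tr Tp * Gk μ s (N * w) (L + L) η) ^ θ =
        cIn n K Tr Tp ^ θ * Gk μ s (N * w) (L + L) η ^ θ := fun η =>
      Real.mul_rpow (cIn_nonneg _ _ _ _) ((Gk_dom (μ := μ) hNw _).nonneg η)
    simp only [b1]
    rw [integral_const_mul]
    refine mul_le_mul_of_nonneg_left ?_ (Real.rpow_nonneg (cIn_nonneg _ _ _ _) _)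
    refine (Gk_big_mom (s := s) hμ hθ hθ1 hw hN (L + L)).trans ?_
    rw [e2]
    exact mul_le_mul_of_nonneg_left hg2 (by positivity)
  have a2 : ∫ η, Real.exp (V μ s η (0, 0) (L + L)) ^ θ ∂(law μ) ≤ (C * (2 / (1 - ρ))) ^ 2 := by
    refine le_trans ?_ hg2
    rw [← e2]
    refine integral_mono ((E0_dom (μ := μ) (s := s) (L + L)).rpow_int hμ hθ.le)
      ((Gk_dom (μ := μ) hw _).rpow_int hμ hθ.le) fun η => ?_
    refine Real.rpow_le_rpow (Real.exp_pos _).le ?_ hθ.le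
    have := le_Gk (μ := μ) (s := s) (L + L) η 0 hw
    simpa using this
  have dE : DependsOn (fun η : Env => Real.exp (V μ s η (0, 0) (L + L))) (rows 0 (L + L : ℕ)) :=
    fun η η' h => by
      have h1 := V_dep_rows (μ := μ) (s := s) 0 (L + L) h
      simp only at h1
      simp only [h1]
  have h2 := mom_conv (μ := μ) hμ hθ hθ1 (Finset.range (n + 1))
    (fun _ η => cIn n K Tr Tp * Gk μ s (N * w) (L + L) η)
    (fun _ η => Real.exp (V μ s η (0, 0) (L + L)))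
    (fun j => -((N : ℤ) * w) + (K + 1 : ℕ) * d + j * m) ((K + 1) * L) (L + L)
    (fun _ _ => (Dom.const (cIn_nonneg n K Tr Tp)).mul (Gk_dom hNw _)) (fun _ _ => E0_dom _)
    (fun _ _ => by
      refine dep_mono (A := rows 0 (L + L : ℕ)) ?_ (rows_mono' hKL)
      intro η η' h
      have := Gk_dep (μ := μ) (s := s) (N * w) (L + L) h
      simp only [this])
    (fun _ _ => dE) (InP_dom (μ := μ) (s := s) hw hN n m L d K Tr Tp) (fun η => le_rfl)
  refine h2.trans ?_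
  rw [Finset.sum_const, Finset.card_range, nsmul_eq_mul]
  push_cast
  refine mul_le_mul_of_nonneg_left ?_ (by positivity)
  exact mul_le_mul a1 a2 (integral_nonneg fun η => Real.rpow_nonneg (Real.exp_pos _).le _)
    (mul_nonneg (Real.rpow_nonneg (cIn_nonneg _ _ _ _) _) (by positivity))

/-- The moment of the total mass of a block. -/
theorem total_mom (hμ : Pool.Agent.W_7d29a1_h47.EM μ) (hθ : 0 < θ) (hθ1 : 2 * θ ≤ 1) {w L : ℕ}
    (hw : 0 < w) {d : ℤ} (hd0 : 0 ≤ d) (hdL : d ≤ L) {C ρ : ℝ} (hC : 1 ≤ C) (h0 : 0 ≤ ρ) (h1 : ρ < 1)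
    (hF : Mom μ s θ w L d C ρ) (hF2 : Mom μ s (2 * θ) w L d C ρ) {N K n m : ℕ} (hN : 0 < N)
    (hK : 1 ≤ K) (hm : 0 < m) (hn : n * m = 3 * N * w) {Tr Tp : ℝ} (B : Set Env)
    (hB : MeasurableSet B) (hGood : ∀ η, η ∉ B → Good μ s η (-(N * w)) d L n m K Tr Tp) {p l : ℝ}
    (hp : (law μ).real B ≤ p) (hl : 0 < l) :
    ∫ η, Gk μ s (N * w) ((K + 3) * L) η ^ θ ∂(law μ) ≤
      (n + 1) * (cIn n K Tr Tp ^ θ * (N * (C * (2 / (1 - ρ))) ^ 2) * (C * (2 / (1 - ρ))) ^ 2) +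
      N * ((K + 2) * ((C * (2 / (1 - ρ))) ^ (K + 3) * (ρ ^ N * (2 / (1 - ρ))))) +
      (l * p + N * (C * (2 / (1 - ρ))) ^ (K + 3) / l) := by
  have hNw : 0 < N * w := Nat.mul_pos hN hw
  have hθ1' : θ ≤ 1 := by linarith
  have hg := one_le_two_div h0 h1
  have hK0 : 0 ≤ C * (2 / (1 - ρ)) := mul_nonneg (by linarith) (by linarith)
  have dG : Dom (Gk μ s (N * w) ((K + 3) * L)) := Gk_dom hNw _
  have dI : Dom (InP μ s w N n m L d K Tr Tp) := InP_dom hw hN _ _ _ _ _ _ _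
  have dE : Dom fun η => ∑ i0 ∈ Finset.range N, AllEx μ s w N L d K (sh (0, (i0 : ℤ) * w) η) :=
    Dom.sum _ fun _ _ => (AllEx_dom hw _ _ _ _).comp_sh _
  have pt : ∀ η, Gk μ s (N * w) ((K + 3) * L) η ^ θ ≤ InP μ s w N n m L d K Tr Tp η ^ θ +
      (∑ i0 ∈ Finset.range N, AllEx μ s w N L d K (sh (0, (i0 : ℤ) * w) η)) ^ θ +
      (l * B.indicator (fun _ => (1 : ℝ)) η + (1 / l) * Gk μ s (N * w) ((K + 3) * L) η ^ (2 * θ)) := by
    intro η
    have a1 : 0 ≤ InP μ s w N n m L d K Tr Tp η ^ θ := Real.rpow_nonneg (dI.nonneg η) _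
    have a2 : 0 ≤ (∑ i0 ∈ Finset.range N, AllEx μ s w N L d K (sh (0, (i0 : ℤ) * w) η)) ^ θ :=
      Real.rpow_nonneg (dE.nonneg η) _
    have a3 : 0 ≤ (1 / l) * Gk μ s (N * w) ((K + 3) * L) η ^ (2 * θ) :=
      mul_nonneg (by positivity) (Real.rpow_nonneg (dG.nonneg η) _)
    by_cases hη : η ∈ B
    · have b1 : B.indicator (fun _ => (1 : ℝ)) η = 1 := Set.indicator_of_mem hη _
      rw [b1]
      have b2 : Gk μ s (N * w) ((K + 3) * L) η ^ (2 * θ) = (Gk μ s (N * w) ((K + 3) * L) η ^ θ) ^ 2 := by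
        rw [mul_comm 2 θ, Real.rpow_mul (dG.nonneg η)]
        norm_num
      rw [b2]
      obtain ⟨g, hg⟩ : ∃ g, g = Gk μ s (N * w) ((K + 3) * L) η ^ θ := ⟨_, rfl⟩
      rw [← hg]
      have b3 : g ≤ l * 1 + 1 / l * g ^ 2 := by
        have b4 : 0 ≤ (g - l) ^ 2 / l := by positivity
        have b5 : (g - l) ^ 2 / l = 1 / l * g ^ 2 - 2 * g + l := by
          field_simp
          ring
        have b6 : 0 ≤ 1 / l * g ^ 2 := by positivity
        nlinarith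
      linarith
    · have b1 : B.indicator (fun _ => (1 : ℝ)) η = 0 := Set.indicator_of_notMem hη _
      rw [b1, mul_zero, zero_add]
      have b2 := good_le (μ := μ) (s := s) hw hN hm hd0 hdL hn (hGood η hη)
      have b3 := (Real.rpow_le_rpow (dG.nonneg η) b2 hθ.le).trans
        (Real.rpow_add_le_add_rpow (dI.nonneg η) (dE.nonneg η) hθ.le hθ1')
      linarith
  have i1 := dI.rpow_int hμ hθ.le
  have i2 := dE.rpow_int hμ hθ.le
  have i3 : Integrable (fun η : Env => l * B.indicator (fun _ => (1 : ℝ)) η) (law μ) :=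
    ((integrable_const (1 : ℝ)).indicator hB).const_mul l
  have i4 : Integrable (fun η : Env => (1 / l) * Gk μ s (N * w) ((K + 3) * L) η ^ (2 * θ)) (law μ) :=
    (dG.rpow_int hμ (by linarith)).const_mul _
  have main := integral_mono (dG.rpow_int hμ hθ.le) ((i1.add i2).add (i3.add i4)) pt
  refine main.trans ?_
  have e1 : ∫ η, ((fun η => InP μ s w N n m L d K Tr Tp η ^ θ) +
      (fun η => (∑ i0 ∈ Finset.range N, AllEx μ s w N L d K (sh (0, (i0 : ℤ) * w) η)) ^ θ) +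
      ((fun η => l * B.indicator (fun _ => (1 : ℝ)) η) +
        fun η => (1 / l) * Gk μ s (N * w) ((K + 3) * L) η ^ (2 * θ))) η ∂(law μ) =
      ∫ η, InP μ s w N n m L d K Tr Tp η ^ θ ∂(law μ) +
      ∫ η, (∑ i0 ∈ Finset.range N, AllEx μ s w N L d K (sh (0, (i0 : ℤ) * w) η)) ^ θ ∂(law μ) +
      (l * (law μ).real B + (1 / l) * ∫ η, Gk μ s (N * w) ((K + 3) * L) η ^ (2 * θ) ∂(law μ)) := by
    rw [integral_add' (i1.add i2) (i3.add i4), integral_add' i1 i2, integral_add' i3 i4,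
      integral_const_mul, integral_const_mul, integral_indicator_const _ hB]
    simp
  rw [e1]
  have m1 := InP_mom (s := s) hμ hθ hθ1' hw hd0 hdL hC h0 h1 hF hN hK n m Tr Tp
  have m2 : ∫ η, (∑ i0 ∈ Finset.range N, AllEx μ s w N L d K (sh (0, (i0 : ℤ) * w) η)) ^ θ ∂(law μ) ≤
      N * ((K + 2) * ((C * (2 / (1 - ρ))) ^ (K + 3) * (ρ ^ N * (2 / (1 - ρ))))) := by
    refine (mom_sum (μ := μ) hμ hθ hθ1' (Finset.range N) (fun _ => AllEx μ s w N L d K)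
      (fun i0 => (0, (i0 : ℤ) * w)) (fun _ _ => AllEx_dom hw _ _ _ _) dE fun η => le_rfl).trans ?_
    rw [Finset.sum_const, Finset.card_range, nsmul_eq_mul]
    exact mul_le_mul_of_nonneg_left (AllEx_mom hμ hθ hθ1' hw hd0 hdL hC h0 h1 hF N K) (by positivity)
  have m3 : ∫ η, Gk μ s (N * w) ((K + 3) * L) η ^ (2 * θ) ∂(law μ) ≤
      N * (C * (2 / (1 - ρ))) ^ (K + 3) := by
    refine (Gk_big_mom (s := s) hμ (by linarith) hθ1 hw hN ((K + 3) * L)).trans ?_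
    exact mul_le_mul_of_nonneg_left (Gk_iter (s := s) hμ (by linarith) hθ1 hw hd0 hdL hC h0 h1 hF2
      (K + 3)) (by positivity)
  have m4 : l * (law μ).real B ≤ l * p := mul_le_mul_of_nonneg_left hp hl.le
  have m5 : (1 / l) * ∫ η, Gk μ s (N * w) ((K + 3) * L) η ^ (2 * θ) ∂(law μ) ≤
      N * (C * (2 / (1 - ρ))) ^ (K + 3) / l := by
    rw [one_div_mul_eq_div]
    exact div_le_div_of_nonneg_right m3 hl.le
  linarith

end Pool.Agent.W_7d29a1_G20
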