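import Pool.Agent.W_7d29a1_G.SecA7
import Pool.Agent.W_7d29a1_F.Bridge2

/-!
TRACK G, section (D7), part 8: the sum over the end cells of a block, contradiction with the free energy.
helper20.
-/

namespace Pool.Agent.W_7d29a1_G20

open Pool.Agent.W_7d29a1_F MeasureTheory Filter Topology

variable {μ : Measure ℝ} [IsProbabilityMeasure μ] {s θ : ℝ}

theorem Bk_le_Gk {w : ℕ} (hw : 0 < w) (n : ℕ) (D k : ℤ) (η : Env) :
    Bk μ s w n D k η ≤ Gk μ s w n η := by
  classical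
  haveI : Nonempty (Fin w) := ⟨⟨0, hw⟩⟩
  refine ciSup_le fun i => ?_
  obtain ⟨i, hi⟩ := i
  refine le_trans ?_ (le_Gk n η i hi)
  have h1 := WS_le_exp_V (μ := μ) (s := s) η (0, (i : ℤ)) n
    ((Finset.range w).image fun l : ℕ => D + k * w + l - i)
  unfold WS at h1
  rw [Finset.sum_image (by
    intro x _ y _ hxy
    simp only at hxy
    have : (x : ℤ) = y := by linarith
    exact_mod_cast this)] at h1
  exact h1

/-- The sum over the end cells. -/
theorem sum_blocks (hμ : Pool.Agent.W_7d29a1_h47.EM μ) (hθ : 0 < θ) (hθ1 : θ ≤ 1) {w L : ℕ} (hw : 0 < w)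
    {d : ℤ} (hd0 : 0 ≤ d) (hdL : d ≤ L) {C ρ : ℝ} (hC : 1 ≤ C) (h0 : 0 ≤ ρ) (h1 : ρ < 1)
    (hF : Mom μ s θ w L d C ρ) {N M : ℕ} (hN : 2 ≤ N) (hM : 1 ≤ M) (J : ℕ) :
    ∑ k ∈ Finset.Icc (-(J : ℤ)) J, ∫ η, Bk μ s (N * w) (M * L) (M * d) k η ^ θ ∂(law μ) ≤
      3 * (∫ η, Gk μ s (N * w) (M * L) η ^ θ ∂(law μ)) +
      N ^ 2 * ((C * (2 / (1 - ρ))) ^ M * (ρ ^ N * (2 / (1 - ρ)))) := by
  classical
  have hN0 : 0 < N := by omega
  have hNw : 0 < N * w := Nat.mul_pos hN0 hw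
  have hg := one_le_two_div h0 h1
  have hK0 : 0 ≤ C * (2 / (1 - ρ)) := mul_nonneg (by linarith) (by linarith)
  obtain ⟨G, hG⟩ : ∃ G, G = ∫ η, Gk μ s (N * w) (M * L) η ^ θ ∂(law μ) := ⟨_, rfl⟩
  have hG0 : 0 ≤ G := by
    rw [hG]
    exact integral_nonneg fun η => Real.rpow_nonneg ((Gk_dom (μ := μ) hNw _).nonneg η) _
  rw [← hG]
  have key : ∀ k ∈ Finset.Icc (-(J : ℤ)) J, ∫ η, Bk μ s (N * w) (M * L) (M * d) k η ^ θ ∂(law μ) ≤
      (if |k| ≤ 1 then G else 0) + (N ^ 2 * ((C * (2 / (1 - ρ))) ^ M * ρ ^ N)) * ρ ^ k.natAbs := by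
    intro k _
    have hpos : 0 ≤ (N ^ 2 * ((C * (2 / (1 - ρ))) ^ M * ρ ^ N)) * ρ ^ k.natAbs := by positivity
    by_cases hk : |k| ≤ 1
    · rw [if_pos hk]
      have h2 : ∫ η, Bk μ s (N * w) (M * L) (M * d) k η ^ θ ∂(law μ) ≤ G := by
        rw [hG]
        refine integral_mono ((Bk_dom (μ := μ) hNw _ _ _).rpow_int hμ hθ.le)
          ((Gk_dom (μ := μ) hNw _).rpow_int hμ hθ.le) fun η => ?_
        exact Real.rpow_le_rpow ((Bk_dom (μ := μ) hNw _ _ _).nonneg η) (Bk_le_Gk hNw _ _ _ η) hθ.le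
      linarith
    · rw [if_neg hk, zero_add]
      have hk2 : 2 ≤ k.natAbs := by
        rw [Int.abs_eq_natAbs] at hk
        omega
      refine (Bk_big_mom (s := s) hμ hθ hθ1 hw hN0 (M * L) (M * d) k).trans ?_
      have h3 : ∀ i ∈ Finset.range N, ∀ i' ∈ Finset.range N,
          ∫ η, Bk μ s w (M * L) (M * d) (k * N + i' - i) η ^ θ ∂(law μ) ≤
          (C * (2 / (1 - ρ))) ^ M * (ρ ^ N * ρ ^ k.natAbs) := by
        intro i hi i' hi'
        rw [Finset.mem_range] at hi hi'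
        refine (Bk_iter (s := s) hμ hθ hθ1 hw hd0 hdL hC h0 h1 hF hM _).trans ?_
        refine mul_le_mul_of_nonneg_left ?_ (pow_nonneg hK0 _)
        rw [← pow_add]
        refine pow_le_pow_of_le_one h0 h1.le ?_
        -- `|k N + i' - i| ≥ (|k| - 1) N`
        have a1 : k.natAbs * N ≤ (k * N + i' - i).natAbs + N := by
          have b1 : (k * N).natAbs = k.natAbs * N := by rw [Int.natAbs_mul, Int.natAbs_natCast]
          have b2 : (k * N).natAbs ≤ (k * N + i' - i).natAbs + N := by omega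
          rwa [b1] at b2
        nlinarith
      have h4 : ∑ i ∈ Finset.range N, ∑ i' ∈ Finset.range N,
          ∫ η, Bk μ s w (M * L) (M * d) (k * N + i' - i) η ^ θ ∂(law μ) ≤
          ∑ i ∈ Finset.range N, ∑ i' ∈ Finset.range N,
            (C * (2 / (1 - ρ))) ^ M * (ρ ^ N * ρ ^ k.natAbs) :=
        Finset.sum_le_sum fun i hi => Finset.sum_le_sum fun i' hi' => h3 i hi i' hi'
      refine h4.trans (le_of_eq ?_)
      rw [Finset.sum_const, Finset.sum_const, Finset.card_range, nsmul_eq_mul, nsmul_eq_mul]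
      ring
  refine (Finset.sum_le_sum key).trans ?_
  rw [Finset.sum_add_distrib, ← Finset.mul_sum]
  have h5 : ∑ k ∈ Finset.Icc (-(J : ℤ)) J, (if |k| ≤ 1 then G else 0) ≤ 3 * G := by
    rw [← Finset.sum_filter, Finset.sum_const, nsmul_eq_mul]
    refine mul_le_mul_of_nonneg_right ?_ hG0
    have h6 : (Finset.Icc (-(J : ℤ)) J).filter (fun k => |k| ≤ 1) ⊆ Finset.Icc (-1 : ℤ) 1 := by
      intro k hk
      have := (Finset.mem_filter.1 hk).2
      rw [abs_le] at this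
      exact Finset.mem_Icc.2 this
    have h7 := Finset.card_le_card h6
    have h8 : (Finset.Icc (-1 : ℤ) 1).card = 3 := by decide
    rw [h8] at h7
    exact_mod_cast h7
  have h9 : (N ^ 2 * ((C * (2 / (1 - ρ))) ^ M * ρ ^ N)) *
      ∑ k ∈ Finset.Icc (-(J : ℤ)) J, ρ ^ k.natAbs ≤
      N ^ 2 * ((C * (2 / (1 - ρ))) ^ M * (ρ ^ N * (2 / (1 - ρ)))) := by
    refine (mul_le_mul_of_nonneg_left (geom_abs h0 h1 J) (by positivity)).trans (le_of_eq ?_)
    ring
  linarith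

/-- The free energy: the mean of `V_n` is `o(n)`. -/
theorem meanV_small (hμ : Pool.Agent.W_7d29a1_h47.EM μ) (s : ℝ) :
    Tendsto (fun n : ℕ => (∫ η, V μ s η 0 n ∂(law μ)) / n) atTop (𝓝 0) := by
  have h1 := Pool.Agent.W_7d29a1_h47.tendsto_a hμ (s / 2)
  have h2 : Tendsto (fun n : ℕ => Pool.Agent.W_7d29a1_h47.a μ (s / 2) n / n -
      Pool.Agent.W_7d29a1_h47.Lam μ (s / 2)) atTop (𝓝 0) := by
    have h3 := h1.sub_const (Pool.Agent.W_7d29a1_h47.Lam μ (s / 2))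
    rwa [sub_self] at h3
  refine h2.congr' ?_
  filter_upwards [eventually_ge_atTop 1] with n hn
  have hn0 : (0 : ℝ) < n := by exact_mod_cast hn
  rw [integral_V_eq hμ]
  field_simp

/-- Exponential decay of the moments of the total mass is impossible. -/
theorem no_decay (hμ : Pool.Agent.W_7d29a1_h47.EM μ) (s : ℝ) (hθ : 0 < θ) {w T : ℕ} (hw : 0 < w)
    (hT : 0 < T) (h : ∀ N : ℕ, ∫ η, Gk μ s w (N * T) η ^ θ ∂(law μ) ≤ (1 / 2) ^ N) : False := by
  have hV : ∀ N : ℕ, θ * ∫ η, V μ s η 0 (N * T) ∂(law μ) ≤ -(N * Real.log 2) := by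
    intro N
    have hS : Sub fun η : Env => θ * V μ s η 0 (N * T) := (Sub_V (μ := μ) (s := s) 0 (N * T)).const_mul θ
    have h1 := hS.exp_integral_le hμ
    have h2 : ∫ η, Real.exp (θ * V μ s η 0 (N * T)) ∂(law μ) ≤
        ∫ η, Gk μ s w (N * T) η ^ θ ∂(law μ) := by
      refine integral_mono (hS.exp_int hμ) ((Gk_dom (μ := μ) hw _).rpow_int hμ hθ.le) fun η => ?_
      have h3 := le_Gk (μ := μ) (s := s) (N * T) η 0 hw
      have h4 : Real.exp (θ * V μ s η 0 (N * T)) = Real.exp (V μ s η (0, ((0 : ℕ) : ℤ)) (N * T)) ^ θ := by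
        rw [← Real.exp_mul, mul_comm θ]
        rfl
      show Real.exp (θ * V μ s η 0 (N * T)) ≤ Gk μ s w (N * T) η ^ θ
      rw [h4]
      exact Real.rpow_le_rpow (Real.exp_pos _).le h3 hθ.le
    rw [integral_const_mul] at h1
    have h5 := Real.log_le_log (Real.exp_pos _) (h1.trans (h2.trans (h N)))
    rw [Real.log_exp, Real.log_pow, one_div, Real.log_inv] at h5
    linarith
  have hlim := meanV_small (μ := μ) hμ s
  have hT0 : (0 : ℝ) < T := by exact_mod_cast hT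
  have hl2 : 0 < Real.log 2 := Real.log_pos (by norm_num)
  have hsub : Tendsto (fun N : ℕ => (∫ η, V μ s η 0 (N * T) ∂(law μ)) / ((N * T : ℕ) : ℝ)) atTop (𝓝 0) :=
    hlim.comp (tendsto_id.atTop_mul_const' hT)
  have hle : (0 : ℝ) ≤ -(Real.log 2 / (θ * T)) := by
    refine le_of_tendsto hsub ?_
    filter_upwards [eventually_ge_atTop 1] with N hN
    have hN0 : (0 : ℝ) < N := by exact_mod_cast hN
    have h1 := hV N
    push_cast
    rw [div_le_iff₀ (by positivity)]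
    have e1 : -(Real.log 2 / (θ * T)) * (N * T) = -(N * Real.log 2) / θ := by
      field_simp
    rw [e1, le_div_iff₀ hθ]
    linarith
  have : 0 < Real.log 2 / (θ * T) := by positivity
  linarith

end Pool.Agent.W_7d29a1_G20
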