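import Pool.Agent.W_7d29a1_G.SecA8

/-!
TRACK G, section (D7), part 9: the good environments. helper20.
-/

namespace Pool.Agent.W_7d29a1_G20

open Pool.Agent.W_7d29a1_F MeasureTheory Filter Topology

variable {μ : Measure ℝ} [IsProbabilityMeasure μ] {s : ℝ}

/-- The place `0` is bad. -/
def Pl (μ : Measure ℝ) (s : ℝ) (L m : ℕ) (d : ℤ) (J : ℕ) (Tr Tp Tf Ts Tv : ℝ) : Set Env :=
  ({η | Tr ≤ X μ s η 0 L d} ∪ {η | Tr ≤ X μ s η 0 L (d - m)}) ∪
  ((⋃ δ ∈ Finset.Icc (-(J : ℤ)) J, {η | X μ s η 0 (L + L) (2 * d + δ * m) ≤ Tp}) ∪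
  (({η | X μ s η 0 (L + L) (2 * d + J * m) ≤ Tf} ∪ {η | X μ s η 0 (L + L) (2 * d - J * m) ≤ Tf}) ∪
  ({η | Ts ≤ X μ s η 0 (L + L) (2 * d)} ∪ {η | Tv ≤ V μ s η 0 (L + L)})))

theorem measurable_X (a : Pt) (n : ℕ) (y : ℤ) : Measurable fun η : Env => X μ s η a n y :=
  (Real.measurable_log.comp (measurable_W (μ := μ) (s := s) a n y)).neg

theorem measurable_V (a : Pt) (n : ℕ) : Measurable fun η : Env => V μ s η a n :=
  Real.measurable_log.comp (measurable_WS (μ := μ) (s := s) a n _)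

theorem Pl_meas (L m : ℕ) (d : ℤ) (J : ℕ) (Tr Tp Tf Ts Tv : ℝ) :
    MeasurableSet (Pl μ s L m d J Tr Tp Tf Ts Tv) := by
  unfold Pl
  refine MeasurableSet.union (MeasurableSet.union ?_ ?_) (MeasurableSet.union ?_
    (MeasurableSet.union (MeasurableSet.union ?_ ?_) (MeasurableSet.union ?_ ?_)))
  · exact measurableSet_le measurable_const (measurable_X _ _ _)
  · exact measurableSet_le measurable_const (measurable_X _ _ _)
  · exact Finset.measurableSet_biUnion _ fun δ _ => measurableSet_le (measurable_X _ _ _) measurable_const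
  · exact measurableSet_le (measurable_X _ _ _) measurable_const
  · exact measurableSet_le (measurable_X _ _ _) measurable_const
  · exact measurableSet_le measurable_const (measurable_X _ _ _)
  · exact measurableSet_le measurable_const (measurable_V _ _)

theorem Pl_prob {L m : ℕ} {d : ℤ} {J : ℕ} {Tr Tp Tf Ts Tv ε pv : ℝ}
    (h1 : (law μ).real {η | Tr ≤ X μ s η 0 L d} ≤ ε)
    (h2 : (law μ).real {η | Tr ≤ X μ s η 0 L (d - m)} ≤ ε)
    (h3 : ∀ δ : ℤ, |δ| ≤ J → (law μ).real {η | X μ s η 0 (L + L) (2 * d + δ * m) ≤ Tp} ≤ ε)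
    (h4 : (law μ).real {η | X μ s η 0 (L + L) (2 * d + J * m) ≤ Tf} ≤ ε)
    (h5 : (law μ).real {η | X μ s η 0 (L + L) (2 * d - J * m) ≤ Tf} ≤ ε)
    (h6 : (law μ).real {η | Ts ≤ X μ s η 0 (L + L) (2 * d)} ≤ ε)
    (h7 : (law μ).real {η | Tv ≤ V μ s η 0 (L + L)} ≤ pv) :
    (law μ).real (Pl μ s L m d J Tr Tp Tf Ts Tv) ≤ (2 * J + 6) * ε + pv := by
  unfold Pl
  have u := fun A B : Set Env => measureReal_union_le (μ := law μ) A B
  have hb : (law μ).real (⋃ δ ∈ Finset.Icc (-(J : ℤ)) J,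
      {η | X μ s η 0 (L + L) (2 * d + δ * m) ≤ Tp}) ≤ (2 * J + 1) * ε := by
    refine (measureReal_biUnion_finset_le _ _).trans ?_
    refine (Finset.sum_le_sum fun δ hδ => h3 δ (abs_le.2 (Finset.mem_Icc.1 hδ))).trans (le_of_eq ?_)
    rw [Finset.sum_const, Int.card_Icc, nsmul_eq_mul]
    congr 1
    have : ((J : ℤ) + 1 - -(J : ℤ)).toNat = 2 * J + 1 := by omega
    rw [this]
    push_cast
    ring
  refine (u _ _).trans ?_
  refine (add_le_add (u _ _) (u _ _)).trans ?_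
  refine (add_le_add le_rfl (add_le_add le_rfl ((u _ _).trans (add_le_add (u _ _) (u _ _))))).trans ?_
  linarith

/-- The bad environments of a block. -/
def Bd (μ : Measure ℝ) (s : ℝ) (x0 : ℤ) (n K L m : ℕ) (d : ℤ) (J : ℕ) (Tr Tp Tf Ts Tv : ℝ) : Set Env :=
  ⋃ i ∈ Finset.Icc 1 (K + 1), ⋃ j ∈ Finset.range (n + 1),
    {η | sh (tm L i, x0 + i * d + j * m) η ∈ Pl μ s L m d J Tr Tp Tf Ts Tv}

theorem Bd_meas (x0 : ℤ) (n K L m : ℕ) (d : ℤ) (J : ℕ) (Tr Tp Tf Ts Tv : ℝ) :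
    MeasurableSet (Bd μ s x0 n K L m d J Tr Tp Tf Ts Tv) :=
  Finset.measurableSet_biUnion _ fun _ _ => Finset.measurableSet_biUnion _ fun _ _ =>
    (mp_sh (μ := Measure.dirac (0 : ℝ)) _).measurable (Pl_meas _ _ _ _ _ _ _ _ _)

theorem Bd_prob (x0 : ℤ) {n K L m : ℕ} {d : ℤ} {J : ℕ} {Tr Tp Tf Ts Tv p : ℝ}
    (h : (law μ).real (Pl μ s L m d J Tr Tp Tf Ts Tv) ≤ p) :
    (law μ).real (Bd μ s x0 n K L m d J Tr Tp Tf Ts Tv) ≤ (K + 1) * ((n + 1) * p) := by
  unfold Bd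
  refine (measureReal_biUnion_finset_le _ _).trans ?_
  have h1 : ∀ i ∈ Finset.Icc 1 (K + 1), (law μ).real (⋃ j ∈ Finset.range (n + 1),
      {η | sh (tm L i, x0 + i * d + j * m) η ∈ Pl μ s L m d J Tr Tp Tf Ts Tv}) ≤ (n + 1) * p := by
    intro i _
    refine (measureReal_biUnion_finset_le _ _).trans ?_
    refine (Finset.sum_le_sum (g := fun _ => p) fun j _ => ?_).trans (le_of_eq ?_)
    · rw [real_sh (μ := μ) _ (Pl_meas _ _ _ _ _ _ _ _ _)]
      exact h
    · rw [Finset.sum_const, Finset.card_range, nsmul_eq_mul]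
      push_cast
      ring
  refine (Finset.sum_le_sum h1).trans (le_of_eq ?_)
  rw [Finset.sum_const, Nat.card_Icc, nsmul_eq_mul]
  have : K + 1 + 1 - 1 = K + 1 := by omega
  rw [this]
  push_cast
  ring

theorem W_eq_exp (η : Env) (a : Pt) {n : ℕ} {y : ℤ} (h0 : 0 ≤ y) (h1 : y ≤ n) :
    W μ s η a n y = Real.exp (-X μ s η a n y) := by
  unfold X
  rw [neg_neg, Real.exp_log (W_pos η a h0 h1)]

/-- Outside of the bad set the environment is good. -/
theorem good_of (x0 : ℤ) {n K L m : ℕ} {d : ℤ} {J : ℕ} {Tr Tp Tf Ts Tv : ℝ} (hmd : (m : ℤ) ≤ d)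
    (hdL : d ≤ L) (hJ0 : (J : ℤ) * m ≤ 2 * d) (hJL : 2 * d + J * m ≤ 2 * L) (hT : Tp + Ts + Tv ≤ Tf)
    {η : Env} (hη : η ∉ Bd μ s x0 n K L m d J Tr Tp Tf Ts Tv) : Good μ s η x0 d L n m K Tr Tp := by
  have hm0 : (0 : ℤ) ≤ m := by positivity
  have hd0 : 0 ≤ d := by linarith
  have hJm : (0 : ℤ) ≤ (J : ℤ) * m := by positivity
  have pl : ∀ i : ℕ, 1 ≤ i → i ≤ K + 1 → ∀ j : ℕ, j ≤ n →
      sh (tm L i, x0 + i * d + j * m) η ∉ Pl μ s L m d J Tr Tp Tf Ts Tv := by
    intro i h1 h2 j h3 hc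
    refine hη ?_
    unfold Bd
    simp only [Set.mem_iUnion]
    exact ⟨i, Finset.mem_Icc.2 ⟨h1, h2⟩, j, Finset.mem_range.2 (by omega), hc⟩
  -- the facts at a place
  have fact : ∀ i : ℕ, 1 ≤ i → i ≤ K + 1 → ∀ j : ℕ, j ≤ n → ∀ x : ℤ, x = x0 + i * d + j * m →
      X μ s η (tm L i, x) L d < Tr ∧ X μ s η (tm L i, x) L (d - m) < Tr ∧
      (∀ δ : ℤ, |δ| ≤ J → Tp < X μ s η (tm L i, x) (L + L) (2 * d + δ * m)) ∧
      Tf < X μ s η (tm L i, x) (L + L) (2 * d + J * m) ∧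
      Tf < X μ s η (tm L i, x) (L + L) (2 * d - J * m) ∧
      X μ s η (tm L i, x) (L + L) (2 * d) < Ts ∧ V μ s η (tm L i, x) (L + L) < Tv := by
    intro i h1 h2 j h3 x hx
    have h4 := pl i h1 h2 j h3
    rw [← hx] at h4
    unfold Pl at h4
    simp only [Set.mem_union, Set.mem_iUnion, Set.mem_setOf_eq, not_or, not_exists, not_le, X_sh, V_sh,
      zero_add] at h4
    obtain ⟨⟨a1, a2⟩, a3, ⟨a4, a5⟩, a6, a7⟩ := h4
    exact ⟨a1, a2, fun δ hδ => a3 δ (Finset.mem_Icc.2 (abs_le.1 hδ)), a4, a5, a6, a7⟩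
  refine ⟨?_, ?_, ?_⟩
  · intro i h1 h2 j h3
    obtain ⟨a1, -⟩ := fact i h1 h2 j h3 _ rfl
    unfold Wt
    have e1 : x0 + i * d + d + j * m - (x0 + i * d + j * m) = d := by ring
    rw [e1, W_eq_exp η _ hd0 hdL]
    exact Real.exp_le_exp.2 (by linarith)
  · intro i h1 h2 j h3
    obtain ⟨-, a2, -⟩ := fact i h1 h2 (j + 1) h3 (x0 + i * d + (j + 1) * m) (by push_cast; ring)
    unfold Wt
    have e1 : x0 + i * d + d + j * m - (x0 + i * d + (j + 1) * m) = d - m := by ring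
    rw [e1, W_eq_exp η _ (by linarith) (by linarith)]
    exact Real.exp_le_exp.2 (by linarith)
  · intro i h1 h2 j h3 j' h3'
    have h2' : i ≤ K + 1 := by omega
    obtain ⟨-, -, b3, b4, b5, -, -⟩ := fact i h1 h2' j h3 _ rfl
    have eL : ((L + L : ℕ) : ℤ) = 2 * L := by push_cast; ring
    -- a piece with a moderate displacement
    by_cases hnear : |(j' : ℤ) - j| ≤ J
    · unfold Wt
      have hn := abs_le.1 hnear
      have e1 : x0 + (i + 2 : ℕ) * d + j' * m - (x0 + i * d + j * m) = 2 * d + ((j' : ℤ) - j) * m := by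
        push_cast
        ring
      have a1 : -((J : ℤ) * m) ≤ ((j' : ℤ) - j) * m := by nlinarith [hn.1]
      have a2 : ((j' : ℤ) - j) * m ≤ (J : ℤ) * m := mul_le_mul_of_nonneg_right hn.2 hm0
      rw [e1, W_eq_exp η _ (by linarith) (by rw [eL]; linarith)]
      exact Real.exp_le_exp.2 (by linarith [b3 _ hnear])
    · -- a far piece: compare with the place at distance `J`
      obtain ⟨jy, hjy, hcase⟩ : ∃ jy : ℕ, jy ≤ n ∧
          ((jy : ℤ) = j + J ∧ (jy : ℤ) ≤ j' ∨ (jy : ℤ) = j - J ∧ (j' : ℤ) ≤ jy) := by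
        rw [abs_le, not_and_or, not_le, not_le] at hnear
        rcases hnear with h | h
        · refine ⟨j - J, by omega, Or.inr ⟨by omega, by omega⟩⟩
        · refine ⟨j + J, by omega, Or.inl ⟨by omega, by omega⟩⟩
      obtain ⟨-, -, -, -, -, c6, c7⟩ := fact i h1 h2' jy hjy _ rfl
      have hmain : Wt μ s η (tm L i) (x0 + i * d + j * m) (L + L) (x0 + (i + 2 : ℕ) * d + j' * m) *
          Wt μ s η (tm L i) (x0 + i * d + jy * m) (L + L) (x0 + (i + 2 : ℕ) * d + jy * m) ≤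
          Wt μ s η (tm L i) (x0 + i * d + j * m) (L + L) (x0 + (i + 2 : ℕ) * d + jy * m) *
          Wt μ s η (tm L i) (x0 + i * d + jy * m) (L + L) (x0 + (i + 2 : ℕ) * d + j' * m) := by
        rcases hcase with ⟨h5, h6⟩ | ⟨h5, h6⟩
        · refine Wt_tp_right η _ _ _ _ _ _ ?_ ?_
          · have : (j : ℤ) * m ≤ jy * m := mul_le_mul_of_nonneg_right (by omega) hm0
            linarith
          · have : (jy : ℤ) * m ≤ j' * m := mul_le_mul_of_nonneg_right h6 hm0
            linarith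
        · refine Wt_tp_left η _ _ _ _ _ _ ?_ ?_
          · have : (jy : ℤ) * m ≤ j * m := mul_le_mul_of_nonneg_right (by omega) hm0
            linarith
          · have : (j' : ℤ) * m ≤ jy * m := mul_le_mul_of_nonneg_right h6 hm0
            linarith
      have d1 : Wt μ s η (tm L i) (x0 + i * d + jy * m) (L + L) (x0 + (i + 2 : ℕ) * d + jy * m) ≥
          Real.exp (-Ts) := by
        unfold Wt
        have e1 : x0 + (i + 2 : ℕ) * d + jy * m - (x0 + i * d + jy * m) = 2 * d := by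
          push_cast
          ring
        rw [e1, W_eq_exp η _ (by linarith) (by rw [eL]; linarith)]
        exact Real.exp_le_exp.2 (by linarith)
      have d2 : Wt μ s η (tm L i) (x0 + i * d + j * m) (L + L) (x0 + (i + 2 : ℕ) * d + jy * m) ≤
          Real.exp (-Tf) := by
        unfold Wt
        rcases hcase with ⟨h5, -⟩ | ⟨h5, -⟩
        · have e1 : x0 + (i + 2 : ℕ) * d + jy * m - (x0 + i * d + j * m) = 2 * d + J * m := by
            rw [h5]
            push_cast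
            ring
          rw [e1, W_eq_exp η _ (by linarith) (by rw [eL]; linarith)]
          exact Real.exp_le_exp.2 (by linarith)
        · have e1 : x0 + (i + 2 : ℕ) * d + jy * m - (x0 + i * d + j * m) = 2 * d - J * m := by
            rw [h5]
            push_cast
            ring
          rw [e1, W_eq_exp η _ (by linarith) (by rw [eL]; linarith)]
          exact Real.exp_le_exp.2 (by linarith)
      have d3 : Wt μ s η (tm L i) (x0 + i * d + jy * m) (L + L) (x0 + (i + 2 : ℕ) * d + j' * m) ≤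
          Real.exp Tv := (Wt_le_expV _ _ _ _).trans (Real.exp_le_exp.2 c7.le)
      have d4 := Wt_nonneg (μ := μ) (s := s) η (tm L i) (x0 + i * d + j * m) (L + L)
        (x0 + (i + 2 : ℕ) * d + j' * m)
      have d5 := Wt_nonneg (μ := μ) (s := s) η (tm L i) (x0 + i * d + jy * m) (L + L)
        (x0 + (i + 2 : ℕ) * d + j' * m)
      have d6 : Wt μ s η (tm L i) (x0 + i * d + j * m) (L + L) (x0 + (i + 2 : ℕ) * d + j' * m) *
          Real.exp (-Ts) ≤ Real.exp (-Tf) * Real.exp Tv :=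
        (mul_le_mul_of_nonneg_left d1 d4).trans (hmain.trans (mul_le_mul d2 d3 d5 (Real.exp_pos _).le))
      have d7 : Wt μ s η (tm L i) (x0 + i * d + j * m) (L + L) (x0 + (i + 2 : ℕ) * d + j' * m) ≤
          Real.exp (-Tf) * Real.exp Tv * Real.exp Ts := by
        have d8 := mul_le_mul_of_nonneg_right d6 (Real.exp_pos Ts).le
        rw [mul_assoc, ← Real.exp_add (-Ts) Ts, neg_add_cancel, Real.exp_zero, mul_one] at d8
        exact d8
      refine d7.trans ?_
      rw [← Real.exp_add, ← Real.exp_add]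
      exact Real.exp_le_exp.2 (by linarith)

end Pool.Agent.W_7d29a1_G20
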