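import Pool.Agent.W_7d29a1_G.Defs
import Pool.Agent.W_7d29a1_h4g.VarL

/-!
Track G (MP_7d29a1_pr): soft scales. `Sof μ x α`: some path sum `G` of duration `l ≤ 2 ^ (x + α)` with `log G ≤ V_l` and mean at
least `- 2 ^ α` units has fluctuations `2 ^ (-α)` units with probability `2 ^ (-α)`. Growth at soft scales (hG), the upper bound
(hV) of the unit at soft scales (Efron - Stein), and (MC). (helper4)
-/

namespace Pool.Agent.W_7d29a1_G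

open MeasureTheory ProbabilityTheory Filter Topology Pool.Agent.W_7d29a1_F Pool.Agent.W_7d29a1_h4g

noncomputable section

/-- The class of functionals of duration `l`: path sums `G` in the rows `1, …, l` with `log G ≤ V_l` (at the start `0`). -/
def Fun (μ : Measure ℝ) (l : ℕ) (G : Env → ℝ) : Prop :=
  Poly (rows 0 l) G ∧ (∀ η, 0 < G η) ∧ ∀ η, Real.log (G η) ≤ V μ 0 η 0 l

/-- SOFT: `S(x, α)`. -/
def Sof (μ : Measure ℝ) (x : ℕ) (α : ℝ) : Prop :=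
  ∃ (l : ℕ) (G : Env → ℝ), (l : ℝ) ≤ 2 ^ ((x : ℝ) + α) ∧ Fun μ l G ∧
    -(2 ^ α * Eb μ (2 ^ x)) ≤ ∫ η, Real.log (G η) ∂(law μ) ∧
    2 ^ (-α) ≤ (law μ).real {η | 2 ^ (-α) * Eb μ (2 ^ x) ≤ |Real.log (G η) - ∫ ξ, Real.log (G ξ) ∂(law μ)|}

/-- `g x = log_2 Eb(2^x)`. -/
def gE (μ : Measure ℝ) (x : ℕ) : ℝ := Real.logb 2 (Eb μ (2 ^ x))

variable {μ : Measure ℝ} [IsProbabilityMeasure μ]

/-- Soft is monotone in the level. -/
theorem Sof.mono {x : ℕ} {α β : ℝ} (h : Sof μ x α) (hαβ : α ≤ β) (hE : 0 ≤ Eb μ (2 ^ x)) : Sof μ x β := by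
  obtain ⟨l, G, h1, h2, h3, h4⟩ := h
  have k1 : (2 : ℝ) ^ α ≤ 2 ^ β := Real.rpow_le_rpow_of_exponent_le one_le_two hαβ
  have k2 : (2 : ℝ) ^ (-β) ≤ 2 ^ (-α) := Real.rpow_le_rpow_of_exponent_le one_le_two (by linarith)
  refine ⟨l, G, h1.trans (Real.rpow_le_rpow_of_exponent_le one_le_two (by linarith)), h2, ?_, ?_⟩
  · have := mul_le_mul_of_nonneg_right k1 hE
    linarith
  · refine k2.trans (h4.trans (measureReal_mono (fun η hη => ?_) (measure_ne_top _ _)))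
    rw [Set.mem_ofPred_eq] at hη ⊢
    exact (mul_le_mul_of_nonneg_right k2 hE).trans hη

omit [IsProbabilityMeasure μ] in
/-- Not soft: every functional of the class is concentrated. -/
theorem conc_of_not_Sof {x : ℕ} {α : ℝ} (h : ¬ Sof μ x α) {l : ℕ} (hl : (l : ℝ) ≤ 2 ^ ((x : ℝ) + α)) {G : Env → ℝ}
    (hG : Fun μ l G) (hm : -(2 ^ α * Eb μ (2 ^ x)) ≤ ∫ η, Real.log (G η) ∂(law μ)) :
    (law μ).real {η | 2 ^ (-α) * Eb μ (2 ^ x) ≤ |Real.log (G η) - ∫ ξ, Real.log (G ξ) ∂(law μ)|} < 2 ^ (-α) := by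
  by_contra hcon
  exact h ⟨l, G, hl, hG, hm, not_lt.1 hcon⟩

/-- The centre. -/
theorem centre_mem (m : ℕ) : (0 : ℤ) ≤ ((m / 2 : ℕ) : ℤ) ∧ ((m / 2 : ℕ) : ℤ) ≤ m := by
  constructor
  · positivity
  · exact_mod_cast Nat.div_le_self m 2

/-- GROWTH AT SOFT SCALES, with any factor. -/
theorem grow_of_Sof (hEM : Pool.Agent.W_7d29a1_h47.EM μ) (hnd : Pool.Agent.W_7d29a1_h47.Nondeg μ) {n0 : ℕ}
    (hH1 : ∀ n, n0 ≤ n → ∀ m, m ≤ n → ep μ m ((m / 2 : ℕ) : ℤ) ≤ Eb μ n) (hEb : Tendsto (Eb μ) atTop atTop) (α : ℝ) {B : ℝ}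
    (hB : 0 ≤ B) : ∃ T x0 : ℕ, ∀ x, x0 ≤ x → Sof μ x α → B * Eb μ (2 ^ x) ≤ Eb μ (2 ^ (x + T)) := by
  have h2a : (0 : ℝ) < 2 ^ α := Real.rpow_pos_of_pos two_pos _
  obtain ⟨U₀, D, hg⟩ := growth (LAfor_all hEM hnd) hEM (c := 2 ^ (-α)) (K := 2 ^ α + 6 * B)
    (Real.rpow_pos_of_pos two_pos _) (by positivity)
  obtain ⟨T, hT⟩ := pow_unbounded_of_one_lt (|D| * 2 ^ α) (one_lt_two : (1 : ℝ) < 2)
  have ht : Tendsto (fun x : ℕ => Eb μ (2 ^ x)) atTop atTop := hEb.comp (tendsto_pow_atTop_atTop_of_one_lt one_lt_two)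
  obtain ⟨x1, hx1⟩ := Filter.eventually_atTop.1 (ht.eventually_ge_atTop U₀)
  obtain ⟨x2, hx2⟩ : ∃ x2 : ℕ, n0 ≤ 2 ^ x2 := ⟨n0, Nat.lt_two_pow_self.le⟩
  refine ⟨T, max x1 x2, fun x hx hS => ?_⟩
  obtain ⟨l, G, hl, ⟨hP, hG, hGV⟩, hmean, hfl⟩ := hS
  have hn0 : n0 ≤ 2 ^ (x + T) := hx2.trans (Nat.pow_le_pow_right (by norm_num)
    ((le_max_right _ _).trans (hx.trans (Nat.le_add_right _ _))))
  have hDM : D * l ≤ ((2 ^ (x + T) : ℕ) : ℝ) := by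
    push_cast
    have e1 : (2 : ℝ) ^ ((x : ℝ) + α) = 2 ^ x * 2 ^ α := by
      rw [Real.rpow_add two_pos, Real.rpow_natCast]
    rw [e1] at hl
    have e2 : D * l ≤ |D| * l := mul_le_mul_of_nonneg_right (le_abs_self D) (Nat.cast_nonneg l)
    have e3 : |D| * l ≤ |D| * (2 ^ x * 2 ^ α) := mul_le_mul_of_nonneg_left hl (abs_nonneg D)
    have e4 : |D| * (2 ^ x * 2 ^ α) = 2 ^ x * (|D| * 2 ^ α) := by ring
    have e5 : (2 : ℝ) ^ x * (|D| * 2 ^ α) ≤ 2 ^ x * 2 ^ T := mul_le_mul_of_nonneg_left hT.le (by positivity)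
    rw [pow_add]
    linarith
  have h1 := hg 0 l (2 ^ (x + T)) (fun m => ((m / 2 : ℕ) : ℤ)) (Eb μ (2 ^ (x + T))) (fun m _ => centre_mem m)
    (fun m hm => hH1 _ hn0 m hm) hDM G hP hG hGV (Eb μ (2 ^ x)) (hx1 x ((le_max_left _ _).trans hx)) hfl
  nlinarith

/-- (hG): at a soft scale the unit doubles within `T` octaves. -/
theorem hG (hEM : Pool.Agent.W_7d29a1_h47.EM μ) (hnd : Pool.Agent.W_7d29a1_h47.Nondeg μ) {n0 : ℕ}
    (hH1 : ∀ n, n0 ≤ n → ∀ m, m ≤ n → ep μ m ((m / 2 : ℕ) : ℤ) ≤ Eb μ n) (hEb : Tendsto (Eb μ) atTop atTop) (α : ℝ) :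
    ∃ T x0 : ℕ, ∀ x, x0 ≤ x → Sof μ x α → gE μ x + 1 ≤ gE μ (x + T) := by
  obtain ⟨T, x0, h⟩ := grow_of_Sof hEM hnd hH1 hEb α (B := 2) (by norm_num)
  have ht : Tendsto (fun x : ℕ => Eb μ (2 ^ x)) atTop atTop := hEb.comp (tendsto_pow_atTop_atTop_of_one_lt one_lt_two)
  obtain ⟨x1, hx1⟩ := Filter.eventually_atTop.1 (ht.eventually_ge_atTop 1)
  refine ⟨T, max x0 x1, fun x hx hS => ?_⟩
  have h1 := h x ((le_max_left _ _).trans hx) hS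
  have h2 : 0 < Eb μ (2 ^ x) := by
    have := hx1 x ((le_max_right _ _).trans hx)
    linarith
  have h3 : Real.logb 2 (2 * Eb μ (2 ^ x)) ≤ Real.logb 2 (Eb μ (2 ^ (x + T))) :=
    Real.logb_le_logb_of_le one_lt_two (by positivity) h1
  rw [Real.logb_mul two_ne_zero h2.ne', Real.logb_self_eq_one one_lt_two] at h3
  unfold gE
  linarith

/-- (hV): at a soft scale the unit is at most of the order of the square root of the time. -/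
theorem hV (hEM : Pool.Agent.W_7d29a1_h47.EM μ) (hEb : Tendsto (Eb μ) atTop atTop) (α : ℝ) :
    ∃ (C : ℝ) (x0 : ℕ), ∀ x, x0 ≤ x → Sof μ x α → gE μ x ≤ x / 2 + C := by
  obtain ⟨C, hC0, hC⟩ := cheb_law hEM
  have ht : Tendsto (fun x : ℕ => Eb μ (2 ^ x)) atTop atTop := hEb.comp (tendsto_pow_atTop_atTop_of_one_lt one_lt_two)
  obtain ⟨x1, hx1⟩ := Filter.eventually_atTop.1 (ht.eventually_ge_atTop 1)
  refine ⟨(4 * α + Real.logb 2 (C + 1)) / 2, x1, fun x hx hS => ?_⟩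
  obtain ⟨l, G, hl, ⟨hP, hG, hGV⟩, hmean, hfl⟩ := hS
  obtain ⟨E, hE⟩ : ∃ E, E = Eb μ (2 ^ x) := ⟨_, rfl⟩
  have hE0 : 0 < E := by
    have := hx1 x hx
    rw [hE]
    linarith
  rw [← hE] at hfl
  have h2a : (0 : ℝ) < 2 ^ (-α) := Real.rpow_pos_of_pos two_pos _
  have h1 := hC 0 _ G l hP hG hGV (2 ^ (-α) * E) (by positivity)
  have h2 : (2 ^ (-α) * E) ^ 2 * 2 ^ (-α) ≤ C * l := (mul_le_mul_of_nonneg_left hfl (sq_nonneg _)).trans h1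
  have h3 : C * l ≤ (C + 1) * 2 ^ ((x : ℝ) + α) := by
    have : (0 : ℝ) ≤ l := Nat.cast_nonneg l
    nlinarith
  have h4 : (2 ^ (-α) * E) ^ 2 * 2 ^ (-α) ≤ (C + 1) * 2 ^ ((x : ℝ) + α) := h2.trans h3
  have h5 := Real.logb_le_logb_of_le one_lt_two (by positivity) h4
  have hp : (0 : ℝ) < 2 ^ ((x : ℝ) + α) := Real.rpow_pos_of_pos two_pos _
  rw [Real.logb_mul (by positivity) h2a.ne', Real.logb_pow, Real.logb_mul h2a.ne' hE0.ne',
    Real.logb_rpow two_pos (by norm_num), Real.logb_mul (by linarith) hp.ne', Real.logb_rpow two_pos (by norm_num)] at h5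
  have h6 : gE μ x = Real.logb 2 E := by rw [gE, hE]
  rw [h6]
  push_cast at h5
  linarith

/-- (hV) for all scales (the form of `chainS`). -/
theorem hV_all (hEM : Pool.Agent.W_7d29a1_h47.EM μ) (hEb : Tendsto (Eb μ) atTop atTop) (α : ℝ) :
    ∃ C : ℝ, ∀ x : ℕ, Sof μ x α → gE μ x ≤ x / 2 + C := by
  obtain ⟨C, x0, h⟩ := hV hEM hEb α
  refine ⟨|C| + ∑ y ∈ Finset.range x0, |gE μ y|, fun x hS => ?_⟩
  have h0 : (0 : ℝ) ≤ x := Nat.cast_nonneg x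
  have h1 : 0 ≤ ∑ y ∈ Finset.range x0, |gE μ y| := Finset.sum_nonneg fun _ _ => abs_nonneg _
  by_cases hx : x0 ≤ x
  · have h2 := h x hx hS
    have h3 := le_abs_self C
    linarith
  · push Not at hx
    have h2 : |gE μ x| ≤ ∑ y ∈ Finset.range x0, |gE μ y| :=
      Finset.single_le_sum (f := fun y => |gE μ y|) (fun _ _ => abs_nonneg _) (Finset.mem_range.2 hx)
    have h3 := le_abs_self (gE μ x)
    have h4 := abs_nonneg C
    linarith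

/-- (MC) in the unit `Eb`: cheap with probability `p` implies cheap in the mean. -/
theorem mean_of_prob_Eb (hEM : Pool.Agent.W_7d29a1_h47.EM μ) (hnd : Pool.Agent.W_7d29a1_h47.Nondeg μ) {n0 : ℕ}
    (hH1 : ∀ n, n0 ≤ n → ∀ m, m ≤ n → ep μ m ((m / 2 : ℕ) : ℤ) ≤ Eb μ n) {p : ℝ} (hp : 0 < p) : ∃ (T : ℕ) (C : ℝ),
    ∀ l n : ℕ, n0 ≤ n → T * l ≤ n → ∀ G, Fun μ l G → ∀ y : ℝ, p ≤ (law μ).real {η | -y ≤ Real.log (G η)} →
    -∫ η, Real.log (G η) ∂(law μ) ≤ max (max (2 * y) C) (6 * Eb μ n) := by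
  obtain ⟨C, D, hg⟩ := mean_of_prob (LAfor_all hEM hnd) hEM hp
  obtain ⟨T, hT⟩ := exists_nat_ge D
  refine ⟨T, C, fun l n hn hTn G hF y hy => ?_⟩
  refine hg 0 l n (fun m => ((m / 2 : ℕ) : ℤ)) (Eb μ n) (fun m _ => centre_mem m) (fun m hm => hH1 n hn m hm) ?_ G hF.1 hF.2.1
    hF.2.2 y hy
  refine (mul_le_mul_of_nonneg_right hT (Nat.cast_nonneg l)).trans ?_
  exact_mod_cast hTn

end

end Pool.Agent.W_7d29a1_G
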