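import Pool.Agent.W_7d29a1_G.Iface

/-!
MP_7d29a1_pr, track G: what the chain gives besides the closing of the cone: all large scales are soft with a bounded level, the unit
doubles in boundedly many octaves (so it grows at least like a power of the time) and grows at most like the square root of the time.
-/

namespace Pool.Agent.W_7d29a1_G

open MeasureTheory ProbabilityTheory Filter Topology Pool.Agent.W_7d29a1_F Pool.Agent.W_7d29a1_h4g

/-- **All large scales are soft**, with a bounded level. -/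
theorem soft_all {μ : Measure ℝ} {α₀ : ℝ} (h : Elem μ) (hS : HS μ) (hB0 : HB0 μ α₀) (hB : HB μ α₀) (hG : HG μ) :
    ∃ (β : ℝ) (x₁ : ℕ), ∀ x, x₁ ≤ x → Sf μ x β := by
  obtain ⟨C₀, hB0⟩ := hB0
  obtain ⟨P, α, C, k, x₀, hslow, hres⟩ := hS
  have hoften := Pool.Agent.W_7d29a1_g.often_tendsto h.smono h.ftop hslow hres hB0
  exact Pool.Agent.W_7d29a1_g.boundedS (g := gg μ) (f := ff μ 1) (S := Sf μ) (err := fun _ => 0) (C' := C) (D := 1) (Cg := 0)
    (Cf := 0) h.smono (fun y x hyx => by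
      rw [add_zero]
      exact h.gmono y x hyx) h.gstep (fun y x hyx => by linarith [h.fmono hyx])
    (fun _ => le_rfl) (fun _ => ⟨0, fun _ _ _ _ _ _ => by simp⟩)
    (fun y x h1 h2 h3 => by
      have := hslow y x h1 h2 h3
      simp only [Finset.sum_const_zero, add_zero, mul_one]
      exact this) hres hoften hB hG

/-- **The unit doubles** in boundedly many octaves. -/
theorem double_all {μ : Measure ℝ} {α₀ : ℝ} (h : Elem μ) (hS : HS μ) (hB0 : HB0 μ α₀) (hB : HB μ α₀) (hG : HG μ) :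
    ∃ T x₀ : ℕ, ∀ x, x₀ ≤ x → gg μ x + 1 ≤ gg μ (x + T) := by
  obtain ⟨β, x₁, h1⟩ := soft_all h hS hB0 hB hG
  obtain ⟨T, x₀, h2⟩ := hG β
  exact ⟨T, max x₀ x₁, fun x hx => h2 x ((le_max_left _ _).trans hx) (h1 x ((le_max_right _ _).trans hx))⟩

/-- The unit grows at least like a power of the time. -/
theorem gg_linear {μ : Measure ℝ} {α₀ : ℝ} (h : Elem μ) (hS : HS μ) (hB0 : HB0 μ α₀) (hB : HB μ α₀) (hG : HG μ) :
    ∃ c C : ℝ, 0 < c ∧ ∀ x : ℕ, c * x - C ≤ gg μ x := by
  obtain ⟨T, x₀, h1⟩ := double_all h hS hB0 hB hG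
  have hT : 0 < T := by
    rcases Nat.eq_zero_or_pos T with h0 | h0
    · have := h1 x₀ le_rfl
      rw [h0] at this
      simp at this
      linarith
    · exact h0
  have hTR : (0 : ℝ) < T := by exact_mod_cast hT
  have h2 : ∀ m : ℕ, gg μ x₀ + m ≤ gg μ (x₀ + m * T) := by
    intro m
    induction m with
    | zero => simp
    | succ m ih =>
      have h3 := h1 (x₀ + m * T) (by omega)
      have h4 : x₀ + m * T + T = x₀ + (m + 1) * T := by ring
      rw [h4] at h3
      push_cast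
      linarith
  refine ⟨1 / T, |gg μ x₀| + |gg μ 0| + x₀ / T + 1, by positivity, fun x => ?_⟩
  have ha := neg_abs_le (gg μ x₀)
  have hb := neg_abs_le (gg μ 0)
  have ha' := abs_nonneg (gg μ x₀)
  have hb' := abs_nonneg (gg μ 0)
  rcases le_total x₀ x with hx | hx
  · have h3 := h2 ((x - x₀) / T)
    have h4 : x₀ + (x - x₀) / T * T ≤ x := by
      have := Nat.div_mul_le_self (x - x₀) T
      omega
    have h5 := h.gmono _ _ h4
    have h6 : x - x₀ < ((x - x₀) / T + 1) * T := by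
      rw [mul_comm]
      exact Nat.lt_mul_div_succ _ hT
    have h7 : ((x : ℝ) - x₀) < (((x - x₀) / T : ℕ) + 1) * T := by
      have h8 : ((x - x₀ : ℕ) : ℝ) < (((x - x₀) / T : ℕ) + 1) * T := by exact_mod_cast h6
      rwa [Nat.cast_sub hx] at h8
    have h9 : 1 / (T : ℝ) * x - x₀ / T = (x - x₀) / T := by ring
    have h10 : ((x : ℝ) - x₀) / T < ((x - x₀) / T : ℕ) + 1 := by
      rw [div_lt_iff₀ hTR]
      exact h7
    linarith
  · have h3 := h.gmono 0 x (Nat.zero_le x)
    have h4 : 1 / (T : ℝ) * x ≤ x₀ / T := by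
      rw [one_div, inv_mul_eq_div]
      gcongr
    linarith

/-- The unit grows at most like the square root of the time. -/
theorem half_all {μ : Measure ℝ} {α₀ : ℝ} (h : Elem μ) (hS : HS μ) (hB0 : HB0 μ α₀) (hB : HB μ α₀) (hG : HG μ) (hV : HV μ) :
    ∃ b : ℝ, ∀ x : ℕ, gg μ x ≤ (x : ℝ) / 2 + b := by
  obtain ⟨β, x₁, h1⟩ := soft_all h hS hB0 hB hG
  obtain ⟨C, h2⟩ := hV β
  refine ⟨x₁ / 2 + |C|, fun x => ?_⟩
  have habs := le_abs_self C
  have h0 : (0 : ℝ) ≤ (x₁ : ℝ) / 2 := by positivity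
  rcases le_total x₁ x with hx | hx
  · have := h2 x (h1 x hx)
    linarith
  · have h3 := h2 x₁ (h1 x₁ le_rfl)
    have h4 := h.gmono x x₁ hx
    have h5 : (0 : ℝ) ≤ (x : ℝ) / 2 := by positivity
    linarith

end Pool.Agent.W_7d29a1_G
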