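import Pool.Agent.W_7d29a1_G.FR0

/-!
MP_7d29a1_pr, track G, last step, part (i), real analysis: in a window in which the unit grows slowly and the cone does
not close, the widths of all levels are the same up to a small factor.
-/

namespace Pool.Agent.W_7d29a1_G

open MeasureTheory ProbabilityTheory Filter Topology Pool.Agent.W_7d29a1_F Pool.Agent.W_7d29a1_h4g

variable {μ : Measure ℝ} [IsProbabilityMeasure μ]

/-- The absolute width of the cone grows. -/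
theorem nvA_tendsto (hμ : Pool.Agent.W_7d29a1_h47.EM μ) (hnd : Pool.Agent.W_7d29a1_h47.Nondeg μ) {A : ℝ}
    (hA : 0 < A) : Tendsto (fun n : ℕ => (n : ℝ) * vA μ A n) atTop atTop := by
  obtain ⟨c, a, hc, ha, hJ⟩ := J_le_pow hμ hnd
  rw [tendsto_atTop]
  intro B
  obtain ⟨B', hB', hB0⟩ : ∃ B' : ℝ, B ≤ B' ∧ 0 < B' := ⟨max B 1, le_max_left _ _, by positivity⟩
  -- `(c / u) ^ (1 / 99) ≥ B' / A` for small `u`
  obtain ⟨b, hb0, hb⟩ : ∃ b : ℝ, 0 < b ∧ (b / c) ^ (1 / 99 : ℝ) * B' ≤ A := by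
    refine ⟨c * (A / B') ^ (99 : ℝ), by positivity, ?_⟩
    rw [mul_div_assoc, mul_comm c, div_mul_cancel₀ _ hc.ne', ← Real.rpow_mul (by positivity)]
    norm_num
    rw [div_mul_cancel₀ _ hB0.ne']
  filter_upwards [vA_lt_half hμ hnd hA.le, (vA_tendsto hμ hnd hA.le).eventually (eventually_le_nhds ha),
    (vA_tendsto hμ hnd hA.le).eventually (eventually_le_nhds hb0)] with n h1 h2 h3
  have hp := vA_pos hμ hA n
  have h4 := vA_eq' hμ hA.le h1
  have h5 := hJ _ hp h2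
  have h6 : (vA μ A n / c) ^ (1 / 99 : ℝ) ≤ (b / c) ^ (1 / 99 : ℝ) :=
    Real.rpow_le_rpow (by positivity) (by gcongr) (by norm_num)
  have h7 : A ≤ n * J μ (vA μ A n) := by
    rw [h4]
    nlinarith [one_le_EE (μ := μ) n]
  have hn : (0 : ℝ) ≤ n := Nat.cast_nonneg n
  have h8 : A ≤ n * vA μ A n * (b / c) ^ (1 / 99 : ℝ) := by
    calc A ≤ n * J μ (vA μ A n) := h7
      _ ≤ n * (vA μ A n * (vA μ A n / c) ^ (1 / 99 : ℝ)) := mul_le_mul_of_nonneg_left h5 hn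
      _ = n * vA μ A n * (vA μ A n / c) ^ (1 / 99 : ℝ) := by ring
      _ ≤ _ := mul_le_mul_of_nonneg_left h6 (by positivity)
  refine hB'.trans ?_
  by_contra hcon
  rw [not_le] at hcon
  have h9 : 0 < (b / c) ^ (1 / 99 : ℝ) := by positivity
  nlinarith [mul_lt_mul_of_pos_right hcon h9]

/-- Slow growth, in the form used. -/
theorem EE_of_slow {x j : ℕ} (h : gg μ (x + 4 * j) ≤ gg μ x + 3 / 4 * ((4 * j : ℕ) : ℝ)) :
    EE μ (2 ^ (x + 4 * j)) ≤ 8 ^ j * EE μ (2 ^ x) := by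
  have E1 : 0 < EE μ (2 ^ x) := lt_of_lt_of_le one_pos (one_le_EE _)
  have E2 : 0 < EE μ (2 ^ (x + 4 * j)) := lt_of_lt_of_le one_pos (one_le_EE _)
  have h8 : Real.logb 2 ((8 : ℝ) ^ j) = 3 * j := by
    rw [Real.logb_pow, show (8 : ℝ) = 2 ^ (3 : ℕ) by norm_num, Real.logb_pow,
      Real.logb_self_eq_one one_lt_two]
    push_cast
    ring
  unfold gg at h
  rw [← Real.logb_le_logb one_lt_two E2 (by positivity), Real.logb_mul (by positivity) E1.ne', h8]
  push_cast at h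
  linarith

variable {A1 : ℝ} {H l x : ℕ}

/-- The widths at the times of one octave beyond `H 2 ^ x`. -/
theorem flat_vA (hμ : Pool.Agent.W_7d29a1_h47.EM μ) (hnd : Pool.Agent.W_7d29a1_h47.Nondeg μ) (hA1 : 0 < A1)
    {i0 : ℕ} (hi0 : 32 * A1 < 2 ^ i0) (hH : 16 ^ i0 ≤ H) (hl : 2 * H ≤ 2 ^ l) (hx : vA μ 1 (2 ^ x) < 1 / 2)
    (hslow : ∀ j : ℕ, j ≤ 4 * l → gg μ (x + j) ≤ gg μ x + 3 / 4 * j) {t : ℕ} (ht1 : H * 2 ^ x ≤ t)
    (ht2 : t ≤ 2 * (H * 2 ^ x)) : vA μ 1 (2 ^ (x + 4 * l)) ≤ vA μ 1 t ∧ vA μ A1 t ≤ vA μ 1 (2 ^ x) := by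
  have E0 : 1 ≤ EE μ (2 ^ x) := one_le_EE _
  have h2x : (0 : ℝ) < 2 ^ x := by positivity
  have hH1 : 1 ≤ H := le_trans (Nat.one_le_pow _ _ (by norm_num)) hH
  have ht1' : (H : ℝ) * 2 ^ x ≤ t := by exact_mod_cast ht1
  have ht2' : (t : ℝ) ≤ 2 * (H * 2 ^ x) := by exact_mod_cast ht2
  have hEt : EE μ (2 ^ x) ≤ EE μ t := by
    refine EE_mono (le_trans ?_ ht1)
    calc 2 ^ x = 1 * 2 ^ x := (one_mul _).symm
      _ ≤ H * 2 ^ x := Nat.mul_le_mul_right _ hH1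
  constructor
  · refine le_vA (vA_nonneg hμ one_pos.le _) (vA_le hμ one_pos.le _) ?_
    rw [one_mul]
    have h1 := vA_mem hμ one_pos.le (2 ^ (x + 4 * l)) (μ := μ)
    have h2 := EE_of_slow (hslow (4 * l) le_rfl)
    have hJ := J_nonneg hμ (v := vA μ 1 (2 ^ (x + 4 * l))) (abs_le.2 ⟨by
      linarith [vA_nonneg (μ := μ) hμ one_pos.le (2 ^ (x + 4 * l))], vA_le hμ one_pos.le _⟩)
    rw [one_mul] at h1
    push_cast at h1
    have e1 : (2 : ℝ) ^ (x + 4 * l) = 2 ^ x * (8 ^ l * 2 ^ l) := by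
      rw [pow_add, pow_mul, ← mul_pow]
      norm_num
    rw [e1] at h1
    have hl' : (2 : ℝ) * H ≤ 2 ^ l := by exact_mod_cast hl
    have h8 : (0 : ℝ) < 8 ^ l := by positivity
    -- `2 ^ x 2 ^ l J ≤ EE (2 ^ x)`
    have h3 : (8 : ℝ) ^ l * (2 ^ x * 2 ^ l * J μ (vA μ 1 (2 ^ (x + 4 * l)))) ≤ 8 ^ l * EE μ (2 ^ x) := by
      calc _ = 2 ^ x * (8 ^ l * 2 ^ l) * J μ (vA μ 1 (2 ^ (x + 4 * l))) := by ring
        _ ≤ _ := h1.trans h2
    have h4 := le_of_mul_le_mul_left h3 h8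
    refine le_trans ?_ hEt
    refine le_trans (mul_le_mul_of_nonneg_right ht2' hJ) ?_
    refine le_trans (mul_le_mul_of_nonneg_right ?_ hJ) h4
    nlinarith
  · by_contra hcon
    rw [not_le] at hcon
    have h1 := J_strict hμ hnd (vA_nonneg hμ one_pos.le _) hcon (vA_le hμ hA1.le t)
    have h2 := vA_mem hμ hA1.le t (μ := μ)
    have h3 := vA_eq' hμ one_pos.le hx
    rw [one_mul] at h3
    push_cast at h3
    -- the octave of `2 H`
    have hex : ∃ i : ℕ, 2 * H ≤ 16 ^ i := ⟨l, hl.trans (Nat.pow_le_pow_left (by norm_num) l)⟩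
    classical
    obtain ⟨i, hi1, hi2⟩ : ∃ i : ℕ, 2 * H ≤ 16 ^ i ∧ ∀ k < i, 16 ^ k < 2 * H :=
      ⟨Nat.find hex, Nat.find_spec hex, fun k hk => not_le.1 (Nat.find_min hex hk)⟩
    have hii : i0 < i := by
      by_contra h
      rw [not_lt] at h
      have : 16 ^ i ≤ 16 ^ i0 := Nat.pow_le_pow_right (by norm_num) h
      omega
    have hil : i ≤ l := by
      by_contra h
      rw [not_le] at h
      have h4 := hi2 l h
      have h5 : 2 ^ l ≤ 16 ^ l := Nat.pow_le_pow_left (by norm_num) l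
      omega
    have h5 : 16 ^ i < 32 * H := by
      obtain ⟨k, rfl⟩ : ∃ k, i = k + 1 := ⟨i - 1, by omega⟩
      have := hi2 k (by omega)
      rw [pow_succ]
      omega
    have h6 := EE_of_slow (hslow (4 * i) (by omega))
    have h7 : EE μ t ≤ EE μ (2 ^ (x + 4 * i)) := by
      refine EE_mono (ht2.trans ?_)
      rw [pow_add, pow_mul, ← mul_assoc, mul_comm (2 ^ x)]
      exact Nat.mul_le_mul_right _ hi1
    have h8 : 32 * A1 * 8 ^ i < 32 * H := by
      have h9 : (16 : ℝ) ^ i < 32 * H := by exact_mod_cast h5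
      have h10 : (2 : ℝ) ^ i0 ≤ 2 ^ i := pow_le_pow_right₀ (by norm_num) hii.le
      have h11 : (16 : ℝ) ^ i = 2 ^ i * 8 ^ i := by
        rw [← mul_pow]
        norm_num
      have h12 : (0 : ℝ) < 8 ^ i := by positivity
      nlinarith
    have hxp : (0 : ℝ) < 2 ^ x := by positivity
    have h13 : (t : ℝ) * EE μ (2 ^ x) ≤ 2 ^ x * (A1 * (8 ^ i * EE μ (2 ^ x))) := by
      calc (t : ℝ) * EE μ (2 ^ x) = 2 ^ x * (t * J μ (vA μ 1 (2 ^ x))) := by rw [← h3]; ring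
        _ ≤ 2 ^ x * (t * J μ (vA μ A1 t)) :=
          mul_le_mul_of_nonneg_left (mul_le_mul_of_nonneg_left h1.le (Nat.cast_nonneg t)) hxp.le
        _ ≤ 2 ^ x * (A1 * EE μ t) := mul_le_mul_of_nonneg_left h2 hxp.le
        _ ≤ _ := mul_le_mul_of_nonneg_left (mul_le_mul_of_nonneg_left (h7.trans h6) hA1.le) hxp.le
    have h14 : (H : ℝ) * (2 ^ x * EE μ (2 ^ x)) ≤ A1 * 8 ^ i * (2 ^ x * EE μ (2 ^ x)) := by
      calc (H : ℝ) * (2 ^ x * EE μ (2 ^ x)) = H * 2 ^ x * EE μ (2 ^ x) := by ring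
        _ ≤ t * EE μ (2 ^ x) := mul_le_mul_of_nonneg_right ht1' (by linarith)
        _ ≤ _ := h13
        _ = _ := by ring
    have h15 := le_of_mul_le_mul_right h14 (by positivity)
    linarith

/-- The hard side: displacements a little beyond the cone cost any multiple of the unit. -/
theorem hard_side (hμ : Pool.Agent.W_7d29a1_h47.EM μ) (hA1 : 1 < A1)
    {N : ℕ} {vL y K u : ℝ} (hy : 0 < y) (hvL : 0 < vL) (h1 : vL ≤ vA μ 1 N) (h2 : vA μ A1 N ≤ (1 + y) * vL)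
    (h3 : (1 + y) * vL < 1 / 2) (hK : 0 ≤ K) (hu : (1 + y + K * y / (A1 - 1)) * vL ≤ u) (hu1 : u ≤ 1 / 2) :
    K * EE μ N ≤ N * J μ u := by
  have hE := one_le_EE (μ := μ) N
  have ha := vA_mono hμ one_pos.le hA1.le N (μ := μ)
  have hb1 : vA μ A1 N < 1 / 2 := lt_of_le_of_lt h2 h3
  have e1 := vA_eq' hμ one_pos.le (lt_of_le_of_lt ha hb1)
  have e2 := vA_eq' hμ (by linarith : (0 : ℝ) ≤ A1) hb1
  rw [one_mul] at e1
  have hN : (0 : ℝ) ≤ N := Nat.cast_nonneg N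
  have hA : 0 < A1 - 1 := by linarith
  have hab : vA μ 1 N < vA μ A1 N := by
    refine lt_of_le_of_ne ha fun h => ?_
    rw [← h, e1] at e2
    nlinarith
  obtain ⟨a, haa⟩ : ∃ a, a = vA μ 1 N := ⟨_, rfl⟩
  obtain ⟨b, hbb⟩ : ∃ b, b = vA μ A1 N := ⟨_, rfl⟩
  rw [← haa] at h1 ha hab e1
  rw [← hbb] at h2 ha hab e2 hb1
  have hKy : 0 ≤ K * y / (A1 - 1) := by positivity
  have hbu : b ≤ u := by nlinarith
  -- the slope inequality
  have hs : (J μ b - J μ a) * (u - a) ≤ (J μ u - J μ a) * (b - a) := by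
    rcases hbu.eq_or_lt with h | h
    · rw [h]
    · have hc := J_convex hμ (μ := μ)
      have h4 := hc.secant_mono (a := a) (x := b) (y := u) ⟨by linarith, by linarith⟩ ⟨by linarith, by linarith⟩
        ⟨by linarith, hu1⟩ (by linarith) (by linarith) h.le
      rw [div_le_div_iff₀ (by linarith) (by linarith)] at h4
      linarith
  have h5 : (N * J μ b - N * J μ a) * (u - a) ≤ (N * J μ u - N * J μ a) * (b - a) := by
    calc (N * J μ b - N * J μ a) * (u - a) = N * ((J μ b - J μ a) * (u - a)) := by ring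
      _ ≤ N * ((J μ u - J μ a) * (b - a)) := mul_le_mul_of_nonneg_left hs hN
      _ = _ := by ring
  rw [e1, e2] at h5
  have h6 : K * y * vL ≤ (A1 - 1) * (u - a) := by
    have h7 : (1 + y + K * y / (A1 - 1)) * vL = (1 + y) * vL + K * y * vL / (A1 - 1) := by ring
    rw [h7] at hu
    have h8 : K * y * vL / (A1 - 1) ≤ u - a := by linarith
    rw [div_le_iff₀ hA] at h8
    linarith
  have h7 : b - a ≤ y * vL := by linarith
  have hba : 0 < b - a := by linarith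
  have hua : 0 ≤ u - a := by linarith
  by_contra hcon
  rw [not_le] at hcon
  have h9 : (N * J μ u - EE μ N) * (b - a) < K * EE μ N * (b - a) := by
    have : N * J μ u - EE μ N < K * EE μ N := by linarith
    exact mul_lt_mul_of_pos_right this hba
  have h10 : K * EE μ N * (b - a) ≤ K * EE μ N * (y * vL) :=
    mul_le_mul_of_nonneg_left h7 (by positivity)
  have h11 : EE μ N * (K * y * vL) ≤ EE μ N * ((A1 - 1) * (u - a)) :=
    mul_le_mul_of_nonneg_left h6 (by positivity)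
  nlinarith

end Pool.Agent.W_7d29a1_G
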