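import Pool.Agent.W_7d29a1_G.UnitJ
import Pool.Agent.W_7d29a1_G.Unit2b

/-!
MP_7d29a1_pr, track G: the unit. `ep`, `An`, `vn`, `Es`, `Eb`, `vb`.
-/

namespace Pool.Agent.W_7d29a1_G.HC

open MeasureTheory ProbabilityTheory Filter Topology Set Pool.Agent.W_7d29a1_F
open Pool.Agent.W_7d29a1_h47 (LamN PC PC_LamN Lam_even EM Nondeg lam_arg lam_arg_max)

variable {μ : Measure ℝ} [IsProbabilityMeasure μ]

/-! ### Means of `X⁺` -/

omit [IsProbabilityMeasure μ] in
theorem ep_nonneg (n : ℕ) (y : ℤ) : 0 ≤ ep μ n y := integral_nonneg fun _ => le_max_right _ _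

theorem ep_int (hμ : EM μ) (s : ℝ) (a : Pt) {n : ℕ} {y : ℤ} (h0 : 0 ≤ y) (h1 : y ≤ n) :
    Integrable (fun η => max (X μ s η a n y) 0) (law μ) :=
  ((Sub_X a h0 h1).max (Sub.const 0)).integrable hμ

theorem X_int (hμ : EM μ) (s : ℝ) (a : Pt) {n : ℕ} {y : ℤ} (h0 : 0 ≤ y) (h1 : y ≤ n) :
    Integrable (fun η => X μ s η a n y) (law μ) := (Sub_X a h0 h1).integrable hμ

/-- Stationarity. -/
theorem integral_ep (a : Pt) (n : ℕ) (y : ℤ) :
    ∫ η, max (X μ 0 η a n y) 0 ∂(law μ) = ep μ n y := by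
  have h1 : ∀ η : Env, max (X μ 0 η a n y) 0 = (fun ξ : Env => max (X μ 0 ξ 0 n y) 0) (sh a η) := by
    intro η
    simp only
    rw [X_sh, zero_add]
  have hm : Measurable fun ξ : Env => max (X μ 0 ξ 0 n y) 0 := by
    unfold X
    exact (Real.measurable_log.comp (measurable_W 0 n y)).neg.max measurable_const
  calc ∫ η, max (X μ 0 η a n y) 0 ∂(law μ)
      = ∫ η, (fun ξ : Env => max (X μ 0 ξ 0 n y) 0) (sh a η) ∂(law μ) :=
        integral_congr_ae (Eventually.of_forall fun η => h1 η)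
    _ = ep μ n y := by
        unfold ep
        conv_rhs => rw [← (mp_sh (μ := μ) a).map_eq]
        rw [integral_map (mp_sh (μ := μ) a).measurable.aemeasurable hm.aestronglyMeasurable]

theorem ep_add (hμ : EM μ) {m n : ℕ} {k y : ℤ} (h0 : 0 ≤ k) (h1 : k ≤ m) (h2 : 0 ≤ y)
    (h3 : y ≤ n) : ep μ (m + n) (k + y) ≤ ep μ m k + ep μ n y := by
  have hpt : ∀ η : Env, max (X μ 0 η 0 (m + n) (k + y)) 0 ≤
      max (X μ 0 η 0 m k) 0 + max (X μ 0 η ((0 : Pt) + ((m : ℤ), k)) n y) 0 := by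
    intro η
    have h := X_add_le (μ := μ) (s := 0) η 0 h0 h1 h2 h3
    have e1 : X μ 0 η ((0 : Pt) + ((m : ℤ), k)) n y =
        X μ 0 η ((0 : Pt).1 + m, (0 : Pt).2 + k) n y := rfl
    rw [e1]
    refine max_le (h.trans (add_le_add (le_max_left _ _) (le_max_left _ _))) ?_
    exact add_nonneg (le_max_right _ _) (le_max_right _ _)
  have h5 := integral_mono (μ := law μ)
    (ep_int (μ := μ) hμ 0 0 (n := m + n) (y := k + y) (by omega) (by push_cast; omega))
    ((ep_int hμ 0 0 h0 h1).add (ep_int hμ 0 ((0 : Pt) + ((m : ℤ), k)) h2 h3)) fun η => hpt η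
  have h6 : ∫ η, (max (X μ 0 η 0 m k) 0 + max (X μ 0 η ((0 : Pt) + ((m : ℤ), k)) n y) 0) ∂(law μ) =
      ep μ m k + ep μ n y := by
    rw [integral_add (ep_int hμ 0 0 h0 h1) (ep_int hμ 0 ((0 : Pt) + ((m : ℤ), k)) h2 h3)]
    exact congrArg₂ (· + ·) rfl (integral_ep (μ := μ) ((0 : Pt) + ((m : ℤ), k)) n y)
  exact h5.trans h6.le

/-- `E X⁺ ≤ E X + C √n`. -/
theorem ep_le_e_add (hμ : EM μ) : ∃ C : ℝ, 0 ≤ C ∧ ∀ (n : ℕ) (y : ℤ), 0 ≤ y → y ≤ n →
    ep μ n y ≤ e μ 0 n y + C * Real.sqrt n := by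
  obtain ⟨C, hC⟩ := var_X hμ 0
  refine ⟨(|C| + 1) / 2, by positivity, fun n y h0 h1 => ?_⟩
  rcases Nat.eq_zero_or_pos n with rfl | hn
  · have hy : y = 0 := by omega
    subst hy
    have h2 : ∀ η : Env, X μ 0 η 0 0 0 = 0 := by
      intro η
      unfold X W WR
      simp [Zr]
    unfold ep e
    simp [h2]
  · have hn0 : (0 : ℝ) < n := by exact_mod_cast hn
    have hs0 : 0 < Real.sqrt n := Real.sqrt_pos.2 hn0
    have hss : Real.sqrt n * Real.sqrt n = n := Real.mul_self_sqrt hn0.le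
    have he := e_nonneg hμ 0 h0 h1
    have hSub : Sub fun η => X μ 0 η 0 n y - e μ 0 n y :=
      (Sub_X (μ := μ) (s := 0) (0 : Pt) h0 h1).sub (Sub.const _)
    have hi2 : Integrable (fun η => (X μ 0 η 0 n y - e μ 0 n y) ^ 2) (law μ) :=
      hSub.sq_integrable hμ
    have hpt : ∀ η : Env, max (X μ 0 η 0 n y) 0 ≤
        X μ 0 η 0 n y + ((X μ 0 η 0 n y - e μ 0 n y) ^ 2 * (1 / (2 * Real.sqrt n)) +
          Real.sqrt n / 2) := by
      intro η
      set x := X μ 0 η 0 n y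
      set m := e μ 0 n y
      have h3 : |x - m| ≤ (x - m) ^ 2 * (1 / (2 * Real.sqrt n)) + Real.sqrt n / 2 := by
        have h4 : 0 ≤ (|x - m| - Real.sqrt n) ^ 2 := sq_nonneg _
        have h5 : |x - m| ^ 2 = (x - m) ^ 2 := sq_abs _
        have h6 : 2 * Real.sqrt n * |x - m| ≤ (x - m) ^ 2 + Real.sqrt n * Real.sqrt n := by
          nlinarith
        have h7 : (x - m) ^ 2 * (1 / (2 * Real.sqrt n)) + Real.sqrt n / 2 =
            ((x - m) ^ 2 + Real.sqrt n * Real.sqrt n) / (2 * Real.sqrt n) := by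
          field_simp
        rw [h7, le_div_iff₀ (by positivity)]
        linarith
      refine le_trans ?_ (add_le_add (le_refl x) h3)
      refine max_le ?_ ?_
      · have := abs_nonneg (x - m)
        linarith
      · have := neg_abs_le (x - m)
        have h8 : 0 ≤ m := he
        linarith
    have hi : Integrable (fun η => (X μ 0 η 0 n y - e μ 0 n y) ^ 2 * (1 / (2 * Real.sqrt n)) +
        Real.sqrt n / 2) (law μ) := (hi2.mul_const _).add (integrable_const _)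
    have h5 := integral_mono (μ := law μ) (ep_int hμ 0 0 h0 h1) ((X_int hμ 0 0 h0 h1).add hi)
      fun η => hpt η
    have h6 : ∫ η, (X μ 0 η 0 n y + ((X μ 0 η 0 n y - e μ 0 n y) ^ 2 * (1 / (2 * Real.sqrt n)) +
        Real.sqrt n / 2)) ∂(law μ) = e μ 0 n y +
        ((∫ η, (X μ 0 η 0 n y - e μ 0 n y) ^ 2 ∂(law μ)) * (1 / (2 * Real.sqrt n)) +
          Real.sqrt n / 2) := by
      rw [integral_add (X_int hμ 0 0 h0 h1) hi, integral_add (hi2.mul_const _) (integrable_const _),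
        integral_mul_const]
      simp [e]
    have h7 : (∫ η, (X μ 0 η 0 n y - e μ 0 n y) ^ 2 ∂(law μ)) * (1 / (2 * Real.sqrt n)) ≤
        |C| * Real.sqrt n / 2 := by
      have h8 : (∫ η, (X μ 0 η 0 n y - e μ 0 n y) ^ 2 ∂(law μ)) ≤ |C| * (Real.sqrt n * Real.sqrt n) := by
        rw [hss]
        exact (hC n y h0 h1).trans (mul_le_mul_of_nonneg_right (le_abs_self C) hn0.le)
      calc _ ≤ |C| * (Real.sqrt n * Real.sqrt n) * (1 / (2 * Real.sqrt n)) :=
            mul_le_mul_of_nonneg_right h8 (by positivity)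
        _ = |C| * Real.sqrt n / 2 := by field_simp
    have h9 : ep μ n y ≤ e μ 0 n y +
        ((∫ η, (X μ 0 η 0 n y - e μ 0 n y) ^ 2 ∂(law μ)) * (1 / (2 * Real.sqrt n)) +
          Real.sqrt n / 2) := h5.trans h6.le
    nlinarith

/-- The finite volume mean is at least the rate function. -/
theorem nJ_le_e (hμ : EM μ) {n : ℕ} {y : ℤ} (hn : 1 ≤ n) (h0 : 0 ≤ y)
    (h1 : y ≤ n) : n * J μ ((y : ℝ) / n - 1 / 2) ≤ e μ 0 n y := by
  have hn0 : (0 : ℝ) < n := by exact_mod_cast hn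
  rw [mul_comm, ← le_div_iff₀ hn0]
  refine J_leN fun s => ?_
  rw [le_div_iff₀ hn0, e_eq hμ 0 h0 h1]
  have h2 : Pool.Agent.W_7d29a1_h47.Reach 0 n (2 * y - n) := by
    rw [Pool.Agent.W_7d29a1_h47.Reach_iff]
    constructor
    · rw [abs_le]
      constructor <;> omega
    · omega
  have h3 := Pool.Agent.W_7d29a1_h47.ap_le hμ h2 (s / 2)
  push_cast at h3
  unfold LamN lam
  rw [zero_div, zero_mul, sub_zero, add_zero]
  have h4 : (s * ((y : ℝ) / n - 1 / 2) -
      (Pool.Agent.W_7d29a1_h47.Lam μ (s / 2) - Pool.Agent.W_7d29a1_h47.Lam μ 0)) * n =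
      s * y - s / 2 * n - n * Pool.Agent.W_7d29a1_h47.Lam μ (s / 2) +
        n * Pool.Agent.W_7d29a1_h47.Lam μ 0 := by
    field_simp
    ring
  rw [h4]
  nlinarith

theorem lam_neg_zero : lam μ (-0) = lam μ 0 - 0 := by
  rw [neg_zero, sub_zero]

/-- Mirror symmetry at the tilt `0`. -/
theorem e_mirror0 (n : ℕ) (y : ℤ) : e μ 0 n (n - y) = e μ 0 n y := by
  have h := e_mirror (μ := μ) (s := 0) lam_neg_zero n y
  rwa [neg_zero] at h

/-- The largest displacement in the cone. -/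
noncomputable def yp (n : ℕ) (v : ℝ) : ℤ := ⌊(n : ℝ) / 2 + v * n + 2⌋

theorem yp_tendsto {v : ℝ} : Tendsto (fun n : ℕ => ((2 * yp n v - n : ℤ) : ℝ) / n) atTop
    (𝓝 (2 * v)) := by
  have h1 : Tendsto (fun n : ℕ => 2 * v + 4 / (n : ℝ)) atTop (𝓝 (2 * v)) := by
    have := (tendsto_const_div_atTop_nhds_zero_nat (4 : ℝ)).const_add (2 * v)
    rwa [add_zero] at this
  have h2 : Tendsto (fun n : ℕ => 2 * v + 2 / (n : ℝ)) atTop (𝓝 (2 * v)) := by
    have := (tendsto_const_div_atTop_nhds_zero_nat (2 : ℝ)).const_add (2 * v)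
    rwa [add_zero] at this
  refine tendsto_of_tendsto_of_tendsto_of_le_of_le' h2 h1 ?_ ?_
  · filter_upwards [eventually_ge_atTop 1] with n hn
    have hn0 : (0 : ℝ) < n := by exact_mod_cast hn
    have h3 := Int.lt_floor_add_one ((n : ℝ) / 2 + v * n + 2)
    rw [le_div_iff₀ hn0]
    unfold yp
    push_cast
    have h4 : (2 * v + 2 / (n : ℝ)) * n = 2 * v * n + 2 := by field_simp
    rw [h4]
    linarith
  · filter_upwards [eventually_ge_atTop 1] with n hn
    have hn0 : (0 : ℝ) < n := by exact_mod_cast hn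
    have h3 := Int.floor_le ((n : ℝ) / 2 + v * n + 2)
    rw [div_le_iff₀ hn0]
    unfold yp
    push_cast
    have h4 : (2 * v + 4 / (n : ℝ)) * n = 2 * v * n + 4 := by field_simp
    rw [h4]
    linarith

/-- The mean cost in the cone of slope `v` is at most `(J v + ε) n` for large `n`. -/
theorem e_up (hμ : EM μ) (hnd : Nondeg μ) {v : ℝ} (h0 : 0 ≤ v) (h1 : v < 1 / 2) {ε : ℝ}
    (hε : 0 < ε) : ∀ᶠ n : ℕ in atTop, ∀ y ∈ Cn n v, e μ 0 n y ≤ (J μ v + ε) * n := by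
  have hPC := PC_LamN hμ hnd
  have hv2 : |2 * v| < 1 := by
    rw [abs_of_nonneg (by linarith)]
    linarith
  set h : ℝ := lam_arg (LamN μ) (2 * v) with hh
  have hs : Pool.Agent.W_7d29a1_h47.SubG μ h (2 * v) := by
    intro h'
    have := lam_arg_max hPC hv2 h'
    simp only [LamN] at this ⊢
    linarith
  have hlim := Pool.Agent.W_7d29a1_h47.tendsto_ap hμ hv2 hs (y := fun n => 2 * yp n v - n)
    (fun n => by omega) yp_tendsto
  have hval : Pool.Agent.W_7d29a1_h47.Lam μ 0 -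
      (Pool.Agent.W_7d29a1_h47.Lam μ h - h * (2 * v)) ≤ J μ v := by
    have := le_J hμ hnd (v := v) (by rw [abs_of_nonneg h0]; exact h1.le) (2 * h)
    rw [mul_div_cancel_left₀ _ (two_ne_zero' ℝ)] at this
    unfold LamN at this
    linarith
  have hev := (tendsto_order.1 hlim).1 (Pool.Agent.W_7d29a1_h47.Lam μ h - h * (2 * v) - ε)
    (by linarith)
  have hlarge : ∀ᶠ n : ℕ in atTop, 2 ≤ (1 / 2 - v) * (n : ℝ) := by
    have : Tendsto (fun n : ℕ => (1 / 2 - v) * (n : ℝ)) atTop atTop :=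
      tendsto_natCast_atTop_atTop.const_mul_atTop (by linarith)
    exact this.eventually_ge_atTop 2
  filter_upwards [hev, hlarge, eventually_ge_atTop 1] with n hn1 hn2 hn3 y hy
  have hn0 : (0 : ℝ) < n := by exact_mod_cast hn3
  obtain ⟨hy0, hy1, hy2⟩ := mem_Cn.1 hy
  have hyp1 : yp n v ≤ n := by
    have : (yp n v : ℝ) ≤ n := by
      have := Int.floor_le ((n : ℝ) / 2 + v * n + 2)
      unfold yp
      linarith
    exact_mod_cast this
  have hyyp : y ≤ yp n v := by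
    unfold yp
    rw [Int.le_floor]
    have := (abs_le.1 hy2).2
    linarith
  have hyyp2 : (n : ℤ) - yp n v ≤ y := by
    have h5 : (n : ℤ) - y ≤ yp n v := by
      unfold yp
      rw [Int.le_floor]
      have := (abs_le.1 hy2).1
      push_cast
      linarith
    omega
  have hyp0 : 0 ≤ yp n v := hy0.trans hyyp
  have h6 := e_le_max (μ := μ) (s := 0) hμ (n := n) (y1 := (n : ℤ) - yp n v) (y := y) (y2 := yp n v)
    (by omega) hyyp2 hyyp hyp1
  rw [e_mirror0, max_self] at h6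
  refine h6.trans ?_
  rw [e_eq hμ 0 hyp0 hyp1]
  rw [lt_div_iff₀ hn0] at hn1
  unfold lam
  rw [zero_div, zero_mul, sub_zero, add_zero]
  nlinarith

/-! ### The cone maximum `An` -/

theorem center_mem {n : ℕ} {v : ℝ} (hv : 0 ≤ v) : ((n / 2 : ℕ) : ℤ) ∈ Cn n v := by
  rw [mem_Cn]
  refine ⟨by positivity, by exact_mod_cast Nat.div_le_self n 2, ?_⟩
  have h1 : ((n / 2 : ℕ) : ℝ) ≤ (n : ℝ) / 2 := Nat.cast_div_le
  have h2 : (n : ℝ) / 2 - 1 ≤ ((n / 2 : ℕ) : ℝ) := by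
    have h3 : n < 2 * (n / 2) + 2 := by omega
    have h4 : (n : ℝ) < 2 * ((n / 2 : ℕ) : ℝ) + 2 := by exact_mod_cast h3
    linarith
  have h5 : 0 ≤ v * n := mul_nonneg hv (Nat.cast_nonneg n)
  rw [Int.cast_natCast, abs_le]
  constructor <;> linarith

omit [IsProbabilityMeasure μ] in
theorem An_bdd (n : ℕ) (v : ℝ) : BddAbove {r | ∃ y ∈ Cn n v, r = ep μ n y} := by
  have h : {r | ∃ y ∈ Cn n v, r = ep μ n y} = (fun y => ep μ n y) '' (Cn n v : Set ℤ) := by
    ext r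
    constructor
    · rintro ⟨y, hy, rfl⟩
      exact ⟨y, hy, rfl⟩
    · rintro ⟨y, hy, rfl⟩
      exact ⟨y, hy, rfl⟩
  rw [h]
  exact ((Cn n v).finite_toSet.image _).bddAbove

omit [IsProbabilityMeasure μ] in
theorem An_nonneg {n : ℕ} {v : ℝ} (hv : 0 ≤ v) : 0 ≤ An μ n v :=
  (ep_nonneg n _).trans (le_An (center_mem hv))

theorem Cn_mono {n : ℕ} {u v : ℝ} (huv : u ≤ v) {y : ℤ} (hy : y ∈ Cn n u) : y ∈ Cn n v := by
  rw [mem_Cn] at hy ⊢
  refine ⟨hy.1, hy.2.1, hy.2.2.trans ?_⟩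
  have := mul_le_mul_of_nonneg_right huv (Nat.cast_nonneg (α := ℝ) n)
  linarith

omit [IsProbabilityMeasure μ] in
theorem An_mono {n : ℕ} {u v : ℝ} (hu : 0 ≤ u) (huv : u ≤ v) : An μ n u ≤ An μ n v :=
  An_le hu fun _ hy => le_An (Cn_mono huv hy)

/-- The displacements in the cone can be cut. -/
theorem Cn_cut {m n : ℕ} {v : ℝ} (h0 : 0 ≤ v) (h1 : v ≤ 1 / 4) {y : ℤ} (hy : y ∈ Cn (m + n) v) :
    ∃ k : ℤ, k ∈ Cn m v ∧ y - k ∈ Cn n v := by
  obtain ⟨hy0, hy1, hy2⟩ := mem_Cn.1 hy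
  have hm0 : (0 : ℝ) ≤ m := Nat.cast_nonneg m
  have hn0 : (0 : ℝ) ≤ n := Nat.cast_nonneg n
  have hvm : 0 ≤ v * m := mul_nonneg h0 hm0
  have hvn : 0 ≤ v * n := mul_nonneg h0 hn0
  have hvm4 : v * m ≤ m / 4 := by nlinarith
  have hvn4 : v * n ≤ n / 4 := by nlinarith
  push_cast at hy1 hy2
  set δ : ℝ := (y : ℝ) - (m + n) / 2 with hδ
  set D : ℝ := v * m + v * n + 2 with hD
  have hD0 : 0 < D := by positivity
  have hδD : |δ| ≤ D := by
    rw [hD]
    have : v * (m + n) + 2 = v * m + v * n + 2 := by ring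
    rwa [this] at hy2
  set p : ℝ := m / 2 + δ * ((v * m + 1) / D) with hp
  have hq : (y : ℝ) - p = n / 2 + δ * ((v * n + 1) / D) := by
    have h3 : (v * m + 1) / D + (v * n + 1) / D = 1 := by
      rw [← add_div, div_eq_one_iff_eq hD0.ne', hD]
      ring
    have h4 : δ = δ * ((v * m + 1) / D) + δ * ((v * n + 1) / D) := by
      rw [← mul_add, h3, mul_one]
    have h5 : (y : ℝ) = (m + n) / 2 + δ := by rw [hδ]; ring
    rw [hp, h5]
    linarith
  have hb : ∀ a : ℝ, 0 ≤ a → |δ * (a / D)| ≤ a := by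
    intro a ha
    rw [abs_mul, abs_of_nonneg (div_nonneg ha hD0.le)]
    calc |δ| * (a / D) ≤ D * (a / D) := mul_le_mul_of_nonneg_right hδD (div_nonneg ha hD0.le)
      _ = a := by field_simp
  have hp1 := abs_le.1 (hb (v * m + 1) (by positivity))
  have hq1 := abs_le.1 (hb (v * n + 1) (by positivity))
  -- the integer
  set L : ℤ := max 0 (y - n) with hL
  set U : ℤ := min (m : ℤ) y with hU
  have hLU : L ≤ U := by
    rw [hL, hU]
    refine max_le (le_min (by positivity) hy0) (le_min (by omega) (by omega))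
  set k : ℤ := max L (min U ⌊p⌋) with hk
  have hkL : L ≤ k := le_max_left _ _
  have hkU : k ≤ U := max_le hLU (min_le_left _ _)
  have hpL : (L : ℝ) - 1 ≤ p := by
    rw [hL]
    push_cast
    have h3 : max (0 : ℝ) ((y : ℝ) - n) ≤ p + 1 := by
      refine max_le ?_ ?_
      · rw [hp]; linarith
      · linarith
    linarith
  have hpU : p ≤ (U : ℝ) + 1 := by
    rw [hU]
    push_cast
    have h3 : p - 1 ≤ min (m : ℝ) (y : ℝ) := by
      refine le_min ?_ ?_
      · rw [hp]; linarith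
      · linarith
    linarith
  have hkp : |(k : ℝ) - p| ≤ 1 := by
    rw [abs_le]
    constructor
    · -- k ≥ p - 1
      have h3 : p - 1 ≤ ((min U ⌊p⌋ : ℤ) : ℝ) := by
        push_cast
        refine le_min (by linarith) ?_
        have := Int.lt_floor_add_one p
        linarith
      have h4 : ((min U ⌊p⌋ : ℤ) : ℝ) ≤ (k : ℝ) := by
        rw [hk]
        exact_mod_cast le_max_right _ _
      linarith
    · have h3 : (k : ℝ) ≤ p + 1 := by
        rw [hk]
        push_cast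
        refine max_le (by linarith) ?_
        have h4 : min (U : ℝ) ((⌊p⌋ : ℤ) : ℝ) ≤ ((⌊p⌋ : ℤ) : ℝ) := min_le_right _ _
        have := Int.floor_le p
        linarith
      linarith
  have hkp' := abs_le.1 hkp
  refine ⟨k, ?_, ?_⟩
  · rw [mem_Cn]
    refine ⟨(le_max_left _ _).trans hkL, hkU.trans (min_le_left _ _), ?_⟩
    rw [abs_le]
    rw [hp] at hkp'
    constructor <;> linarith [hp1.1, hp1.2, hkp'.1, hkp'.2]
  · rw [mem_Cn]
    refine ⟨?_, ?_, ?_⟩
    · have : k ≤ y := hkU.trans (min_le_right _ _)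
      omega
    · have : y - n ≤ k := (le_max_right _ _).trans hkL
      omega
    · push_cast
      rw [abs_le]
      constructor <;> linarith [hq1.1, hq1.2, hkp'.1, hkp'.2]

theorem An_add (hμ : EM μ) {v : ℝ} (h0 : 0 ≤ v) (h1 : v ≤ 1 / 4) (m n : ℕ) :
    An μ (m + n) v ≤ An μ m v + An μ n v := by
  refine An_le h0 fun y hy => ?_
  obtain ⟨k, hk, hk'⟩ := Cn_cut h0 h1 hy
  obtain ⟨a1, a2, -⟩ := mem_Cn.1 hk
  obtain ⟨b1, b2, -⟩ := mem_Cn.1 hk'
  have h2 := ep_add (μ := μ) hμ a1 a2 b1 b2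
  rw [add_sub_cancel] at h2
  exact h2.trans (add_le_add (le_An hk) (le_An hk'))

theorem An_up (hμ : EM μ) (hnd : Nondeg μ) {v : ℝ} (h0 : 0 ≤ v) (h1 : v < 1 / 2) {ε : ℝ}
    (hε : 0 < ε) : ∀ᶠ n : ℕ in atTop, An μ n v ≤ (J μ v + ε) * n := by
  obtain ⟨C, hC0, hC⟩ := ep_le_e_add hμ
  have h2 := e_up hμ hnd h0 h1 (show 0 < ε / 2 by positivity)
  have h3 : ∀ᶠ n : ℕ in atTop, 2 * C / ε ≤ Real.sqrt n := by
    have : Tendsto (fun n : ℕ => Real.sqrt n) atTop atTop :=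
      Real.tendsto_sqrt_atTop.comp tendsto_natCast_atTop_atTop
    exact this.eventually_ge_atTop _
  filter_upwards [h2, h3] with n hn1 hn2
  refine An_le h0 fun y hy => ?_
  obtain ⟨hy0, hy1, -⟩ := mem_Cn.1 hy
  have h4 := hC n y hy0 hy1
  have h5 := hn1 y hy
  have h6 : C * Real.sqrt n ≤ ε / 2 * n := by
    rw [div_le_iff₀ hε] at hn2
    have h7 : Real.sqrt n * Real.sqrt n = n := Real.mul_self_sqrt (Nat.cast_nonneg n)
    have h8 := mul_le_mul_of_nonneg_right hn2 (Real.sqrt_nonneg (n : ℝ))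
    nlinarith
  linarith

end Pool.Agent.W_7d29a1_G.HC
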