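import Pool.Agent.W_7d29a1_G.Defs
import Pool.Agent.W_7d29a1_F.Final
import Pool.Agent.W_7d29a1_h47q.MainR

/-!
MP_7d29a1_pr, track G: the rate function `J` (relative to the centre).
-/

namespace Pool.Agent.W_7d29a1_G.HC

open MeasureTheory ProbabilityTheory Filter Topology Set Pool.Agent.W_7d29a1_F
open Pool.Agent.W_7d29a1_h47 (LamN PC PC_LamN Lam_even EM Nondeg)

variable {μ : Measure ℝ} [IsProbabilityMeasure μ]

omit [IsProbabilityMeasure μ] in
/-- `lam s - lam 0 - s / 2` is the normalised free energy with the force `s / 2`. -/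
theorem lam_eq (s : ℝ) : lam μ s - lam μ 0 - s / 2 = LamN μ (s / 2) := by
  unfold lam LamN
  rw [zero_div]
  ring

omit [IsProbabilityMeasure μ] in
theorem LamN_zero : LamN μ 0 = 0 := by
  unfold LamN
  ring

theorem LamN_even (h : ℝ) : LamN μ (-h) = LamN μ h := by
  unfold LamN
  rw [Lam_even]

theorem LamN_conv (hμ : EM μ) (hnd : Nondeg μ) : ConvexOn ℝ univ (LamN μ) := (PC_LamN hμ hnd).conv

theorem LamN_nonneg (hμ : EM μ) (hnd : Nondeg μ) (h : ℝ) : 0 ≤ LamN μ h := by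
  have h1 := (LamN_conv hμ hnd).2 (mem_univ h) (mem_univ (-h)) (show (0 : ℝ) ≤ 1 / 2 by norm_num)
    (show (0 : ℝ) ≤ 1 / 2 by norm_num) (by norm_num)
  simp only [smul_eq_mul, LamN_even] at h1
  have h2 : 1 / 2 * h + 1 / 2 * -h = 0 := by ring
  rw [h2, LamN_zero] at h1
  linarith

/-- The set of the values in the definition of `J`. -/
theorem J_eq (v : ℝ) : J μ v = sSup (range fun s : ℝ => s * v - LamN μ (s / 2)) := by
  unfold J
  congr 1
  ext r
  constructor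
  · rintro ⟨s, rfl⟩
    exact ⟨s, by simp only [lam_eq]⟩
  · rintro ⟨s, rfl⟩
    exact ⟨s, by simp only [lam_eq]⟩

/-- The values are bounded for `|v| ≤ 1 / 2`. -/
theorem J_bddN (hμ : EM μ) (hnd : Nondeg μ) {v : ℝ} (hv : |v| ≤ 1 / 2) :
    BddAbove (range fun s : ℝ => s * v - LamN μ (s / 2)) := by
  refine ⟨-(Pool.Agent.W_7d29a1_h47.m0 μ - Pool.Agent.W_7d29a1_h47.Lam μ 0), ?_⟩
  rintro _ ⟨s, rfl⟩
  have h1 := (PC_LamN hμ hnd).grow (s / 2)
  have h2 : s * v ≤ |s| * |v| := by rw [← abs_mul]; exact le_abs_self _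
  have h3 : |s| * |v| ≤ |s| * (1 / 2) := mul_le_mul_of_nonneg_left hv (abs_nonneg s)
  have h4 : |s / 2| = |s| / 2 := by rw [abs_div, abs_two]
  simp only
  rw [h4] at h1
  linarith

/-- The supporting lines. -/
theorem le_J (hμ : EM μ) (hnd : Nondeg μ) {v : ℝ} (hv : |v| ≤ 1 / 2) (s : ℝ) :
    s * v - LamN μ (s / 2) ≤ J μ v := by
  rw [J_eq]
  exact le_csSup (J_bddN hμ hnd hv) ⟨s, rfl⟩

theorem J_leN {v c : ℝ} (h : ∀ s : ℝ, s * v - LamN μ (s / 2) ≤ c) : J μ v ≤ c := by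
  rw [J_eq]
  refine csSup_le ⟨_, 0, rfl⟩ ?_
  rintro _ ⟨s, rfl⟩
  exact h s

theorem J_nonneg (hμ : EM μ) (hnd : Nondeg μ) {v : ℝ} (hv : |v| ≤ 1 / 2) : 0 ≤ J μ v := by
  have h := le_J hμ hnd hv 0
  rw [zero_mul, zero_div, LamN_zero, sub_zero] at h
  exact h

theorem J_zero (hμ : EM μ) (hnd : Nondeg μ) : J μ 0 = 0 := by
  refine le_antisymm (J_leN fun s => ?_) (J_nonneg hμ hnd (by norm_num))
  have := LamN_nonneg hμ hnd (s / 2)
  linarith

theorem J_even (v : ℝ) : J μ (-v) = J μ v := by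
  rw [J_eq, J_eq]
  congr 1
  ext r
  constructor
  · rintro ⟨s, rfl⟩
    refine ⟨-s, ?_⟩
    simp only
    rw [neg_div, LamN_even]
    ring
  · rintro ⟨s, rfl⟩
    refine ⟨-s, ?_⟩
    simp only
    rw [neg_div, LamN_even]
    ring

/-- `J` is convex on `[-1/2, 1/2]`. -/
theorem J_convex (hμ : EM μ) (hnd : Nondeg μ) : ConvexOn ℝ (Icc (-(1 / 2)) (1 / 2)) (J μ) := by
  refine ⟨convex_Icc _ _, fun x hx y hy a b ha hb hab => J_leN fun s => ?_⟩
  have h1 := le_J hμ hnd (abs_le.2 hx) s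
  have h2 := le_J hμ hnd (abs_le.2 hy) s
  simp only [smul_eq_mul]
  have h3 := mul_le_mul_of_nonneg_left h1 ha
  have h4 := mul_le_mul_of_nonneg_left h2 hb
  have h5 : LamN μ (s / 2) = (a + b) * LamN μ (s / 2) := by rw [hab, one_mul]
  have h6 : s * (a * x + b * y) - LamN μ (s / 2) = a * (s * x - LamN μ (s / 2)) +
      b * (s * y - LamN μ (s / 2)) := by
    have h7 : a * (s * x - LamN μ (s / 2)) + b * (s * y - LamN μ (s / 2)) =
      s * (a * x + b * y) - (a + b) * LamN μ (s / 2) := by ring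
    rw [h7, hab, one_mul]
  rw [h6]
  linarith

/-- `J` grows at least linearly along rays. -/
theorem J_mul (hμ : EM μ) (hnd : Nondeg μ) {v t : ℝ} (hv : 0 ≤ v) (ht : 1 ≤ t)
    (htv : t * v ≤ 1 / 2) : t * J μ v ≤ J μ (t * v) := by
  have ht0 : 0 < t := by linarith
  have htv0 : 0 ≤ t * v := mul_nonneg ht0.le hv
  have h := (J_convex hμ hnd).2 (show t * v ∈ Icc (-(1 / 2) : ℝ) (1 / 2) from ⟨by linarith, htv⟩)
    (show (0 : ℝ) ∈ Icc (-(1 / 2) : ℝ) (1 / 2) from ⟨by norm_num, by norm_num⟩)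
    (show (0 : ℝ) ≤ 1 / t by positivity) (show 0 ≤ 1 - 1 / t by
      rw [sub_nonneg, div_le_one ht0]; exact ht) (by ring)
  simp only [smul_eq_mul, mul_zero, add_zero, J_zero hμ hnd] at h
  have e1 : 1 / t * (t * v) = v := by field_simp
  rw [e1] at h
  have := mul_le_mul_of_nonneg_left h ht0.le
  have e2 : t * (1 / t * J μ (t * v)) = J μ (t * v) := by field_simp
  linarith

/-- The free energy is `o(h)` at `0`. -/
theorem LamN_small (hμ : EM μ) (hnd : Nondeg μ) {c : ℝ} (hc : 0 < c) :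
    ∃ h : ℝ, 0 < h ∧ LamN μ h < c * h := by
  have hd : DifferentiableAt ℝ (LamN μ) 0 := by
    have := differentiable_Lam hμ hnd 0
    unfold LamN
    exact this.sub_const _
  have h0 : deriv (LamN μ) 0 = 0 := by
    have hmin : IsLocalMin (LamN μ) 0 := Eventually.of_forall fun x => by
      rw [LamN_zero]
      exact LamN_nonneg hμ hnd x
    exact hmin.deriv_eq_zero
  have h1 : HasDerivAt (LamN μ) 0 0 := by
    have := hd.hasDerivAt
    rwa [h0] at this
  rw [hasDerivAt_iff_isLittleO_nhds_zero] at h1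
  have h2 := h1.def (show 0 < c / 2 by positivity)
  rw [Metric.eventually_nhds_iff] at h2
  obtain ⟨δ, hδ, h3⟩ := h2
  refine ⟨δ / 2, by positivity, ?_⟩
  have h4 := h3 (show dist (δ / 2) 0 < δ by
    rw [Real.dist_eq, sub_zero, abs_of_pos (by positivity)]
    linarith)
  rw [zero_add, LamN_zero, smul_zero, sub_zero, sub_zero, Real.norm_eq_abs, Real.norm_eq_abs,
    abs_of_pos (show 0 < δ / 2 by positivity)] at h4
  have h5 := le_abs_self (LamN μ (δ / 2))
  have h6 : c / 2 * (δ / 2) < c * (δ / 2) := by nlinarith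
  linarith

/-- `J > 0` away from `0`. -/
theorem J_pos (hμ : EM μ) (hnd : Nondeg μ) {v : ℝ} (h0 : 0 < v) (h1 : v ≤ 1 / 2) : 0 < J μ v := by
  obtain ⟨h, hh, h2⟩ := LamN_small hμ hnd (show 0 < 2 * v by positivity)
  have h3 := le_J hμ hnd (v := v) (by rw [abs_of_pos h0]; exact h1) (2 * h)
  rw [mul_div_cancel_left₀ _ (two_ne_zero' ℝ)] at h3
  nlinarith

theorem J_strict (hμ : EM μ) (hnd : Nondeg μ) {u v : ℝ} (hu : 0 ≤ u) (huv : u < v)
    (hv : v ≤ 1 / 2) : J μ u < J μ v := by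
  rcases hu.eq_or_lt with rfl | hu0
  · rw [J_zero hμ hnd]
    exact J_pos hμ hnd huv hv
  · have h1 : 1 < v / u := by rwa [one_lt_div hu0]
    have h2 := J_mul hμ hnd (v := u) (t := v / u) hu h1.le
      (by rw [div_mul_cancel₀ _ hu0.ne']; exact hv)
    rw [div_mul_cancel₀ _ hu0.ne'] at h2
    have h3 := J_pos hμ hnd hu0 (by linarith)
    nlinarith

theorem J_mono (hμ : EM μ) (hnd : Nondeg μ) {u v : ℝ} (hu : 0 ≤ u) (huv : u ≤ v)
    (hv : v ≤ 1 / 2) : J μ u ≤ J μ v := by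
  rcases huv.eq_or_lt with rfl | h
  · exact le_rfl
  · exact (J_strict hμ hnd hu h hv).le

theorem J_monotoneOn (hμ : EM μ) (hnd : Nondeg μ) : MonotoneOn (J μ) (Icc 0 (1 / 2)) :=
  fun _ hu _ hv huv => J_mono hμ hnd hu.1 huv hv.2

/-- `J` is continuous on `[0, 1/2]`. -/
theorem J_cont (hμ : EM μ) (hnd : Nondeg μ) : ContinuousOn (J μ) (Icc 0 (1 / 2)) := by
  intro v hv
  by_cases h : v < 1 / 2
  · have h1 : ContinuousOn (J μ) (Ioo (-(1 / 2)) (1 / 2)) :=
      ((J_convex hμ hnd).subset Ioo_subset_Icc_self (convex_Ioo _ _)).continuousOn isOpen_Ioo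
    exact (h1.continuousAt (Ioo_mem_nhds (by linarith [hv.1]) h)).continuousWithinAt
  · have hv1 : v = 1 / 2 := le_antisymm hv.2 (not_lt.1 h)
    subst hv1
    -- lower bound by a supporting line, upper bound by the chord
    rw [Metric.continuousWithinAt_iff]
    intro ε hε
    obtain ⟨s, hs⟩ : ∃ s : ℝ, J μ (1 / 2) - ε / 2 < s * (1 / 2) - LamN μ (s / 2) := by
      by_contra hcon
      push Not at hcon
      have := J_leN hcon
      linarith
    have hJh := J_nonneg hμ hnd (v := 1 / 2) (by rw [abs_of_pos (by norm_num)])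
    refine ⟨ε / (2 * (|s| + 2 * J μ (1 / 2) + 1)), by positivity, fun x hx hd => ?_⟩
    rw [Real.dist_eq] at hd ⊢
    have hx0 : 0 ≤ x := hx.1
    have hx1 : x ≤ 1 / 2 := hx.2
    rw [abs_of_nonpos (by linarith), lt_div_iff₀ (by positivity)] at hd
    have h1 := le_J hμ hnd (v := x) (abs_le.2 ⟨by linarith, hx1⟩) s
    have h2 : J μ x ≤ J μ (1 / 2) := J_mono hμ hnd hx0 hx1 le_rfl
    rw [abs_of_nonpos (by linarith)]
    have h3 : s * (1 / 2 - x) ≤ |s| * (1 / 2 - x) :=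
      mul_le_mul_of_nonneg_right (le_abs_self s) (by linarith)
    have h4 : 0 ≤ (2 * J μ (1 / 2) + 1) * (1 / 2 - x) :=
      mul_nonneg (by linarith) (by linarith)
    nlinarith

end Pool.Agent.W_7d29a1_G.HC
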