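import Pool.Agent.W_7d29a1_G.Unit

/-!
MP_7d29a1_pr, track G: the slopes `vn`, `vb`, the costs `Es`, `Eb` (elementary facts, `(F1)`, `(F2)`, `(H1)`).
-/

namespace Pool.Agent.W_7d29a1_G.HC

open MeasureTheory ProbabilityTheory Filter Topology Set Pool.Agent.W_7d29a1_F
open Pool.Agent.W_7d29a1_h47 (EM Nondeg)

variable {μ : Measure ℝ} [IsProbabilityMeasure μ]

/-! ### `vn` -/

omit [IsProbabilityMeasure μ] in
theorem vn_bdd (n : ℕ) : BddAbove {v : ℝ | 0 ≤ v ∧ v ≤ 1 / 4 ∧ 2 * n * J μ (2 * v) ≤ An μ n v} :=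
  ⟨1 / 4, fun _ hv => hv.2.1⟩

theorem vn_zero_mem (hμ : EM μ) (hnd : Nondeg μ) (n : ℕ) :
    (0 : ℝ) ∈ {v : ℝ | 0 ≤ v ∧ v ≤ 1 / 4 ∧ 2 * n * J μ (2 * v) ≤ An μ n v} := by
  refine ⟨le_rfl, by norm_num, ?_⟩
  rw [mul_zero, J_zero hμ hnd, mul_zero]
  exact An_nonneg le_rfl

theorem vn_nonneg (hμ : EM μ) (hnd : Nondeg μ) (n : ℕ) : 0 ≤ vn μ n :=
  le_csSup (vn_bdd n) (vn_zero_mem hμ hnd n)

theorem vn_le (hμ : EM μ) (hnd : Nondeg μ) (n : ℕ) : vn μ n ≤ 1 / 4 :=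
  csSup_le ⟨0, vn_zero_mem hμ hnd n⟩ fun _ hv => hv.2.1

/-- Continuity of `J (2 v)` from the left and from the right. -/
theorem J2_cont (hμ : EM μ) (hnd : Nondeg μ) : ContinuousOn (fun v => J μ (2 * v)) (Icc 0 (1 / 4)) := by
  refine (J_cont hμ hnd).comp (by fun_prop) ?_
  intro v hv
  exact ⟨by linarith [hv.1], by linarith [hv.2]⟩

theorem J2_mono (hμ : EM μ) (hnd : Nondeg μ) {u v : ℝ} (hu : 0 ≤ u) (huv : u ≤ v) (hv : v ≤ 1 / 4) :
    J μ (2 * u) ≤ J μ (2 * v) := J_mono hμ hnd (by linarith) (by linarith) (by linarith)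

/-- A supremum of points with `2 n J (2 v) ≤ G v`, `G` nondecreasing, is such a point. -/
theorem sup_mem (hμ : EM μ) (hnd : Nondeg μ) {n : ℕ} {G : ℝ → ℝ}
    (hG : ∀ u v, 0 ≤ u → u ≤ v → v ≤ 1 / 4 → G u ≤ G v)
    (h0 : (0 : ℝ) ∈ {v : ℝ | 0 ≤ v ∧ v ≤ 1 / 4 ∧ 2 * n * J μ (2 * v) ≤ G v}) :
    2 * n * J μ (2 * sSup {v : ℝ | 0 ≤ v ∧ v ≤ 1 / 4 ∧ 2 * n * J μ (2 * v) ≤ G v}) ≤
      G (sSup {v : ℝ | 0 ≤ v ∧ v ≤ 1 / 4 ∧ 2 * n * J μ (2 * v) ≤ G v}) := by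
  set S : Set ℝ := {v : ℝ | 0 ≤ v ∧ v ≤ 1 / 4 ∧ 2 * n * J μ (2 * v) ≤ G v} with hS
  have hbdd : BddAbove S := ⟨1 / 4, fun _ hv => hv.2.1⟩
  have hs0 : 0 ≤ sSup S := le_csSup hbdd h0
  have hs1 : sSup S ≤ 1 / 4 := csSup_le ⟨0, h0⟩ fun _ hv => hv.2.1
  have hcont : ContinuousWithinAt (fun v => 2 * n * J μ (2 * v)) (Icc 0 (1 / 4)) (sSup S) :=
    (continuousOn_const.mul (J2_cont hμ hnd)) (sSup S) ⟨hs0, hs1⟩
  have hcl : sSup S ∈ closure S := csSup_mem_closure ⟨0, h0⟩ hbdd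
  have hsub : S ⊆ Icc 0 (1 / 4) := fun v hv => ⟨hv.1, hv.2.1⟩
  have hcont' : ContinuousWithinAt (fun v => 2 * n * J μ (2 * v)) S (sSup S) := hcont.mono hsub
  have hne : (𝓝[S] sSup S).NeBot := mem_closure_iff_nhdsWithin_neBot.1 hcl
  refine le_of_tendsto hcont'.tendsto ?_
  filter_upwards [self_mem_nhdsWithin] with v hv
  exact hv.2.2.trans (hG v _ hv.1 (le_csSup hbdd hv) hs1)

theorem vn_mem (hμ : EM μ) (hnd : Nondeg μ) (n : ℕ) : Es μ n ≤ An μ n (vn μ n) :=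
  sup_mem hμ hnd (G := fun v => An μ n v) (fun _ _ hu huv _ => An_mono hu huv)
    (vn_zero_mem hμ hnd n)

theorem An_lt (hμ : EM μ) (hnd : Nondeg μ) {n : ℕ} {v : ℝ} (h0 : vn μ n < v) (h1 : v ≤ 1 / 4) :
    An μ n v < 2 * n * J μ (2 * v) := by
  by_contra h
  rw [not_lt] at h
  exact absurd (le_csSup (vn_bdd n) ⟨(vn_nonneg hμ hnd n).trans h0.le, h1, h⟩) (not_le.2 h0)

/-- `E#(n) = A_n(v_n)` if `v_n < 1 / 4`. -/
theorem Es_eq (hμ : EM μ) (hnd : Nondeg μ) {n : ℕ} (h : vn μ n < 1 / 4) :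
    An μ n (vn μ n) = Es μ n := by
  refine le_antisymm ?_ (vn_mem hμ hnd n)
  have hs0 := vn_nonneg hμ hnd n
  have hcont : ContinuousWithinAt (fun v => 2 * n * J μ (2 * v)) (Ioo (vn μ n) (1 / 4)) (vn μ n) :=
    ((continuousOn_const.mul (J2_cont hμ hnd)) (vn μ n) ⟨hs0, h.le⟩).mono
      fun v hv => ⟨hs0.trans hv.1.le, hv.2.le⟩
  have hne : (𝓝[Ioo (vn μ n) (1 / 4)] vn μ n).NeBot := by
    rw [← mem_closure_iff_nhdsWithin_neBot, closure_Ioo h.ne]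
    exact left_mem_Icc.2 h.le
  unfold Es
  refine ge_of_tendsto hcont.tendsto ?_
  filter_upwards [self_mem_nhdsWithin] with v hv
  exact (An_mono hs0 hv.1.le).trans (An_lt hμ hnd hv.1 hv.2.le).le

theorem Es_nonneg (hμ : EM μ) (hnd : Nondeg μ) (n : ℕ) : 0 ≤ Es μ n := by
  unfold Es
  have h1 := vn_nonneg hμ hnd n
  have h2 := vn_le hμ hnd n
  have := J_nonneg hμ hnd (v := 2 * vn μ n) (by rw [abs_of_nonneg (by linarith)]; linarith)
  positivity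

/-- `(F1)`: the slopes. -/
theorem vn_add_le (hμ : EM μ) (hnd : Nondeg μ) {m n : ℕ} (hm : 1 ≤ m) (hn : 1 ≤ n) :
    vn μ (m + n) ≤ max (vn μ m) (vn μ n) := by
  refine csSup_le ⟨0, vn_zero_mem hμ hnd _⟩ ?_
  rintro v ⟨h0, h1, h2⟩
  by_contra hcon
  rw [not_le, max_lt_iff] at hcon
  have h3 := An_lt hμ hnd hcon.1 h1
  have h4 := An_lt hμ hnd hcon.2 h1
  have h5 := An_add hμ h0 h1 m n
  push_cast at h2
  nlinarith

theorem vn_two_mul (hμ : EM μ) (hnd : Nondeg μ) {n : ℕ} (hn : 1 ≤ n) : vn μ (2 * n) ≤ vn μ n := by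
  have := vn_add_le hμ hnd hn hn
  rwa [max_self, ← two_mul] at this

theorem Es_le_of_vn_le (hμ : EM μ) (hnd : Nondeg μ) {m : ℕ} {v : ℝ} (h : vn μ m ≤ v)
    (hv : v ≤ 1 / 4) : Es μ m ≤ 2 * m * J μ (2 * v) := by
  unfold Es
  exact mul_le_mul_of_nonneg_left (J2_mono hμ hnd (vn_nonneg hμ hnd m) h hv) (by positivity)

theorem Es_two_mul (hμ : EM μ) (hnd : Nondeg μ) {n : ℕ} (hn : 1 ≤ n) : Es μ (2 * n) ≤ 2 * Es μ n := by
  have h := Es_le_of_vn_le hμ hnd (vn_two_mul hμ hnd hn) (vn_le hμ hnd n)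
  push_cast at h
  have h2 : Es μ n = 2 * n * J μ (2 * vn μ n) := rfl
  linarith

/-! ### `Eb` -/

omit [IsProbabilityMeasure μ] in
theorem Eb_bdd (n : ℕ) : BddAbove {r | ∃ m : ℕ, m ≤ n ∧ r = Es μ m} := by
  have h : {r | ∃ m : ℕ, m ≤ n ∧ r = Es μ m} = (Es μ) '' (Finset.range (n + 1) : Set ℕ) := by
    ext r
    constructor
    · rintro ⟨m, hm, rfl⟩
      exact ⟨m, by simpa using Nat.lt_succ_of_le hm, rfl⟩
    · rintro ⟨m, hm, rfl⟩
      exact ⟨m, by simpa [Nat.lt_succ_iff] using hm, rfl⟩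
  rw [h]
  exact ((Finset.range (n + 1)).finite_toSet.image _).bddAbove

omit [IsProbabilityMeasure μ] in
theorem Es_le_Eb {m n : ℕ} (h : m ≤ n) : Es μ m ≤ Eb μ n - 1 := by
  unfold Eb
  rw [add_sub_cancel_left]
  exact le_csSup (Eb_bdd n) ⟨m, h, rfl⟩

omit [IsProbabilityMeasure μ] in
theorem Eb_le {n : ℕ} {c : ℝ} (h : ∀ m ≤ n, Es μ m ≤ c) : Eb μ n ≤ 1 + c := by
  unfold Eb
  refine add_le_add le_rfl (csSup_le ⟨_, 0, Nat.zero_le n, rfl⟩ ?_)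
  rintro _ ⟨m, hm, rfl⟩
  exact h m hm

omit [IsProbabilityMeasure μ] in
theorem Es_zero : Es μ 0 = 0 := by
  unfold Es
  simp

omit [IsProbabilityMeasure μ] in
theorem one_le_Eb (n : ℕ) : 1 ≤ Eb μ n := by
  have h := Es_le_Eb (μ := μ) (Nat.zero_le n)
  rw [Es_zero] at h
  linarith

omit [IsProbabilityMeasure μ] in
theorem Eb_mono : Monotone (Eb μ) := by
  intro m n h
  have h1 := Eb_le (μ := μ) (n := m) (c := Eb μ n - 1) fun k hk => Es_le_Eb (hk.trans h)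
  linarith

/-- Sharp doubling: `E#(m) ≤ (m / k) (Eb n - 1)` for `m ≤ 2 n`, `k = ⌊m / 2⌋`. -/
theorem Es_half (hμ : EM μ) (hnd : Nondeg μ) {m n : ℕ} (hm : 2 ≤ m) (hmn : m ≤ 2 * n) :
    ((m / 2 : ℕ) : ℝ) * Es μ m ≤ m * (Eb μ n - 1) := by
  set a : ℕ := m / 2 with ha
  set b : ℕ := m - a with hb
  have ha1 : 1 ≤ a := by omega
  have hb1 : 1 ≤ b := by omega
  have hab : a + b = m := by omega
  have hbn : b ≤ n := by omega
  have han : a ≤ n := by omega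
  have hab' : a ≤ b := by omega
  have ha0 : (0 : ℝ) < a := by exact_mod_cast ha1
  have hb0 : (0 : ℝ) < b := by exact_mod_cast hb1
  have h1 := vn_add_le hμ hnd ha1 hb1
  rw [hab] at h1
  have hE0 : 0 ≤ Eb μ n - 1 := by linarith [one_le_Eb (μ := μ) n]
  have hm0 : (0 : ℝ) ≤ m := Nat.cast_nonneg m
  have hab'' : (a : ℝ) ≤ b := by exact_mod_cast hab'
  rcases le_total (vn μ a) (vn μ b) with h | h
  · rw [max_eq_right h] at h1
    have h2 := Es_le_of_vn_le hμ hnd h1 (vn_le hμ hnd b)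
    have h3 : Es μ b ≤ Eb μ n - 1 := Es_le_Eb hbn
    have h4 : Es μ b = 2 * b * J μ (2 * vn μ b) := rfl
    have hJ : 0 ≤ J μ (2 * vn μ b) := by
      have h5 := Es_nonneg hμ hnd b
      rw [h4] at h5
      exact nonneg_of_mul_nonneg_right h5 (by positivity)
    calc (a : ℝ) * Es μ m ≤ a * (2 * m * J μ (2 * vn μ b)) := mul_le_mul_of_nonneg_left h2 ha0.le
      _ ≤ b * (2 * m * J μ (2 * vn μ b)) := mul_le_mul_of_nonneg_right hab'' (by positivity)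
      _ = m * Es μ b := by rw [h4]; ring
      _ ≤ m * (Eb μ n - 1) := mul_le_mul_of_nonneg_left h3 hm0
  · rw [max_eq_left h] at h1
    have h2 := Es_le_of_vn_le hμ hnd h1 (vn_le hμ hnd a)
    have h3 : Es μ a ≤ Eb μ n - 1 := Es_le_Eb han
    have h4 : Es μ a = 2 * a * J μ (2 * vn μ a) := rfl
    calc (a : ℝ) * Es μ m ≤ a * (2 * m * J μ (2 * vn μ a)) := mul_le_mul_of_nonneg_left h2 ha0.le
      _ = m * Es μ a := by rw [h4]; ring
      _ ≤ m * (Eb μ n - 1) := mul_le_mul_of_nonneg_left h3 hm0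

/-! ### `vb` -/

omit [IsProbabilityMeasure μ] in
theorem vb_bdd (n : ℕ) : BddAbove {v : ℝ | 0 ≤ v ∧ v ≤ 1 / 4 ∧ 2 * n * J μ (2 * v) ≤ Eb μ n} :=
  ⟨1 / 4, fun _ hv => hv.2.1⟩

theorem vb_zero_mem (hμ : EM μ) (hnd : Nondeg μ) (n : ℕ) :
    (0 : ℝ) ∈ {v : ℝ | 0 ≤ v ∧ v ≤ 1 / 4 ∧ 2 * n * J μ (2 * v) ≤ Eb μ n} := by
  refine ⟨le_rfl, by norm_num, ?_⟩
  rw [mul_zero, J_zero hμ hnd, mul_zero]
  linarith [one_le_Eb (μ := μ) n]

theorem vb_nonneg (hμ : EM μ) (hnd : Nondeg μ) (n : ℕ) : 0 ≤ vb μ n :=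
  le_csSup (vb_bdd n) (vb_zero_mem hμ hnd n)

theorem vb_le (hμ : EM μ) (hnd : Nondeg μ) (n : ℕ) : vb μ n ≤ 1 / 4 :=
  csSup_le ⟨0, vb_zero_mem hμ hnd n⟩ fun _ hv => hv.2.1

theorem vb_mem (hμ : EM μ) (hnd : Nondeg μ) (n : ℕ) : 2 * n * J μ (2 * vb μ n) ≤ Eb μ n :=
  sup_mem hμ hnd (G := fun _ => Eb μ n) (fun _ _ _ _ _ => le_rfl) (vb_zero_mem hμ hnd n)

theorem lt_J_of_vb_lt (hμ : EM μ) (hnd : Nondeg μ) {n : ℕ} {v : ℝ} (h0 : vb μ n < v)
    (h1 : v ≤ 1 / 4) : Eb μ n < 2 * n * J μ (2 * v) := by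
  by_contra h
  rw [not_lt] at h
  exact absurd (le_csSup (vb_bdd n) ⟨(vb_nonneg hμ hnd n).trans h0.le, h1, h⟩) (not_le.2 h0)

/-- `2 n J(2 vb_n) = Eb n` if `vb_n < 1 / 4`. -/
theorem vb_eq (hμ : EM μ) (hnd : Nondeg μ) {n : ℕ} (h : vb μ n < 1 / 4) :
    2 * n * J μ (2 * vb μ n) = Eb μ n := by
  refine le_antisymm (vb_mem hμ hnd n) ?_
  have hs0 := vb_nonneg hμ hnd n
  have hcont : ContinuousWithinAt (fun v => 2 * n * J μ (2 * v)) (Ioo (vb μ n) (1 / 4)) (vb μ n) :=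
    ((continuousOn_const.mul (J2_cont hμ hnd)) (vb μ n) ⟨hs0, h.le⟩).mono
      fun v hv => ⟨hs0.trans hv.1.le, hv.2.le⟩
  have hne : (𝓝[Ioo (vb μ n) (1 / 4)] vb μ n).NeBot := by
    rw [← mem_closure_iff_nhdsWithin_neBot, closure_Ioo h.ne]
    exact left_mem_Icc.2 h.le
  refine ge_of_tendsto hcont.tendsto ?_
  filter_upwards [self_mem_nhdsWithin] with v hv
  exact (lt_J_of_vb_lt hμ hnd hv.1 hv.2.le).le

/-- `(F2)`. -/
theorem vn_le_vb (hμ : EM μ) (hnd : Nondeg μ) (n : ℕ) : vn μ n ≤ vb μ n := by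
  refine le_csSup (vb_bdd n) ⟨vn_nonneg hμ hnd n, vn_le hμ hnd n, ?_⟩
  have := Es_le_Eb (μ := μ) (le_refl n)
  have h : Es μ n = 2 * n * J μ (2 * vn μ n) := rfl
  linarith

/-- `(H1)` for one time `m ≤ n` with `vn m < 1 / 4`. -/
theorem H1_aux (hμ : EM μ) (hnd : Nondeg μ) {m n : ℕ} (hmn : m ≤ n) (hv : vn μ m < 1 / 4) :
    An μ m (vb μ n) ≤ Eb μ n := by
  rcases le_or_gt (vb μ n) (vn μ m) with h | h
  · have h1 := An_mono (μ := μ) (n := m) (vb_nonneg hμ hnd n) h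
    rw [Es_eq hμ hnd hv] at h1
    have h2 := Es_le_Eb (μ := μ) hmn
    linarith
  · have h1 := An_lt hμ hnd h (vb_le hμ hnd n)
    have h2 := vb_mem hμ hnd n
    have h3 : 2 * (m : ℝ) * J μ (2 * vb μ n) ≤ 2 * n * J μ (2 * vb μ n) := by
      have hJ : 0 ≤ J μ (2 * vb μ n) := J_nonneg hμ hnd (by
        rw [abs_of_nonneg (by linarith [vb_nonneg hμ hnd n])]
        linarith [vb_le hμ hnd n])
      have hmn' : (m : ℝ) ≤ n := by exact_mod_cast hmn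
      have := mul_le_mul_of_nonneg_right hmn' hJ
      linarith
    linarith

/-- The cone maximum at multiples. -/
theorem An_mul_le (hμ : EM μ) {v c : ℝ} (h0 : 0 ≤ v) (h1 : v ≤ 1 / 4) {n : ℕ}
    (h : ∀ m ≤ n, An μ m v ≤ c) (k m : ℕ) (hm : m ≤ (k + 1) * n) : An μ m v ≤ (k + 1) * c := by
  induction k generalizing m with
  | zero =>
    have := h m (by simpa using hm)
    simpa using this
  | succ k ih =>
    have hc : 0 ≤ c := (An_nonneg h0).trans (h 0 (Nat.zero_le n))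
    rcases le_or_gt m n with h2 | h2
    · refine (h m h2).trans ?_
      push_cast
      nlinarith [(Nat.cast_nonneg k : (0 : ℝ) ≤ k)]
    · obtain ⟨j, rfl⟩ : ∃ j, m = n + j := ⟨m - n, by omega⟩
      have h3 := An_add hμ h0 h1 n j
      have h4 := h n le_rfl
      have h5 := ih j (by nlinarith)
      push_cast
      linarith

/-! ### Limits -/

/-- For every slope `u > 0`, eventually `vn n ≤ u`. -/
theorem vn_small (hμ : EM μ) (hnd : Nondeg μ) {u : ℝ} (hu : 0 < u) (hu1 : u ≤ 1 / 4) :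
    ∀ᶠ n : ℕ in atTop, vn μ n ≤ u := by
  -- the grid `g i = min (2 ^ i u) (1 / 4)`
  set g : ℕ → ℝ := fun i => min (2 ^ i * u) (1 / 4) with hg
  have hg0 : ∀ i, 0 < g i := fun i => lt_min (by positivity) (by norm_num)
  have hg1 : ∀ i, g i ≤ 1 / 4 := fun i => min_le_right _ _
  have hgu : g 0 = u := by
    rw [hg]
    simp only [pow_zero, one_mul]
    exact min_eq_left hu1
  have hg2 : ∀ i, g (i + 1) ≤ 2 * g i := by
    intro i
    rw [hg]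
    simp only
    rw [mul_min_of_nonneg _ _ (by norm_num)]
    refine le_min ?_ ?_
    · refine (min_le_left _ _).trans (le_of_eq ?_)
      rw [pow_succ]
      ring
    · refine (min_le_right _ _).trans (by norm_num)
  obtain ⟨k, hk⟩ : ∃ k : ℕ, 1 / 4 ≤ 2 ^ k * u := by
    obtain ⟨k, hk⟩ := pow_unbounded_of_one_lt (1 / (4 * u)) (one_lt_two : (1 : ℝ) < 2)
    refine ⟨k, ?_⟩
    rw [div_lt_iff₀ (by positivity)] at hk
    linarith
  have hgk : g k = 1 / 4 := min_eq_right hk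
  have hev : ∀ i : ℕ, ∀ᶠ n : ℕ in atTop, An μ n (g (i + 1)) < 2 * n * J μ (2 * g i) := by
    intro i
    have hJ : J μ (g (i + 1)) ≤ J μ (2 * g i) :=
      J_mono hμ hnd (hg0 _).le (hg2 i) (by linarith [hg1 i])
    have hJp : 0 < J μ (2 * g i) := J_pos hμ hnd (by linarith [hg0 i]) (by linarith [hg1 i])
    have h1 := An_up hμ hnd (v := g (i + 1)) (hg0 _).le (by linarith [hg1 (i + 1)])
      (show 0 < J μ (2 * g i) / 2 by positivity)
    filter_upwards [h1, eventually_ge_atTop 1] with n hn hn1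
    have hn0 : (0 : ℝ) < n := by exact_mod_cast hn1
    have h2 : (J μ (g (i + 1)) + J μ (2 * g i) / 2) * n < 2 * n * J μ (2 * g i) := by
      nlinarith
    linarith
  have hall : ∀ᶠ n : ℕ in atTop, ∀ i ∈ Finset.range k, An μ n (g (i + 1)) < 2 * n * J μ (2 * g i) :=
    (Finset.eventually_all _).2 fun i _ => hev i
  filter_upwards [hall] with n hn
  refine csSup_le ⟨0, vn_zero_mem hμ hnd n⟩ ?_
  rintro v ⟨h0, h1, h2⟩
  by_contra hcon
  rw [not_le] at hcon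
  -- the grid interval of `v`
  have hex : ∃ i, i < k ∧ g i ≤ v ∧ v ≤ g (i + 1) := by
    have h3 : ∃ i, v ≤ g (i + 1) := by
      rcases Nat.eq_zero_or_pos k with h4 | h4
      · rw [h4, hgu] at hgk
        linarith
      · refine ⟨k - 1, ?_⟩
        rw [Nat.sub_add_cancel h4, hgk]
        exact h1
    classical
    refine ⟨Nat.find h3, ?_, ?_, Nat.find_spec h3⟩
    · by_contra h4
      rw [not_lt] at h4
      rcases Nat.eq_zero_or_pos k with h5 | h5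
      · rw [h5, hgu] at hgk
        linarith
      · have h6 : k - 1 < Nat.find h3 := by omega
        have h7 := Nat.find_min h3 h6
        rw [Nat.sub_add_cancel h5, hgk] at h7
        exact h7 h1
    · rcases Nat.eq_zero_or_pos (Nat.find h3) with h4 | h4
      · rw [h4, hgu]
        exact hcon.le
      · have h6 : Nat.find h3 - 1 < Nat.find h3 := by omega
        have h7 := Nat.find_min h3 h6
        rw [Nat.sub_add_cancel h4] at h7
        exact (not_le.1 h7).le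
  obtain ⟨i, hi, hi1, hi2⟩ := hex
  have h3 := hn i (Finset.mem_range.2 hi)
  have h4 : An μ n v ≤ An μ n (g (i + 1)) := An_mono h0 hi2
  have h5 : 2 * (n : ℝ) * J μ (2 * g i) ≤ 2 * n * J μ (2 * v) :=
    mul_le_mul_of_nonneg_left (J2_mono hμ hnd (hg0 i).le hi1 h1) (by positivity)
  linarith

theorem vn_tendsto (hμ : EM μ) (hnd : Nondeg μ) : Tendsto (vn μ) atTop (𝓝 0) := by
  rw [Metric.tendsto_nhds]
  intro ε hε
  have hu : 0 < min (ε / 2) (1 / 4) := lt_min (by positivity) (by norm_num)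
  filter_upwards [vn_small hμ hnd hu (min_le_right _ _)] with n hn
  rw [Real.dist_eq, sub_zero, abs_of_nonneg (vn_nonneg hμ hnd n)]
  have := min_le_left (ε / 2) (1 / 4 : ℝ)
  linarith

theorem vn_lt_quarter (hμ : EM μ) (hnd : Nondeg μ) : ∃ n0 : ℕ, ∀ n, n0 ≤ n → vn μ n < 1 / 4 := by
  have h := (tendsto_order.1 (vn_tendsto hμ hnd)).2 (1 / 4) (by norm_num)
  exact eventually_atTop.1 h

end Pool.Agent.W_7d29a1_G.HC
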