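import Pool.Agent.W_7d29a1_G.UnitV
import Pool.Agent.W_7d29a1_g.FrameA

/-!
MP_7d29a1_pr, track G: the unit, third part: the abstract frame `FrA` for `An` and `J (2 v)`, limits, doubling, `(H1)`, `(H1')`,
`(H2)`.
-/

namespace Pool.Agent.W_7d29a1_G.HC

open MeasureTheory ProbabilityTheory Filter Topology Set Pool.Agent.W_7d29a1_F
open Pool.Agent.W_7d29a1_h47 (EM Nondeg)
open Pool.Agent.W_7d29a1_g (FrA avs aEs aEb avb)

variable {μ : Measure ℝ} [IsProbabilityMeasure μ]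

theorem J2_convex (hμ : EM μ) (hnd : Nondeg μ) :
    ConvexOn ℝ (Icc 0 (1 / 4)) (fun v => J μ (2 * v)) := by
  refine ⟨convex_Icc _ _, fun x hx y hy a b ha hb hab => ?_⟩
  have h := (J_convex hμ hnd).2 (show 2 * x ∈ Icc (-(1 / 2) : ℝ) (1 / 2) from
    ⟨by linarith [hx.1], by linarith [hx.2]⟩)
    (show 2 * y ∈ Icc (-(1 / 2) : ℝ) (1 / 2) from ⟨by linarith [hy.1], by linarith [hy.2]⟩) ha hb hab
  simp only [smul_eq_mul] at h ⊢
  have e1 : 2 * (a * x + b * y) = a * (2 * x) + b * (2 * y) := by ring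
  rw [e1]
  exact h

/-- The abstract frame. -/
theorem frA (hμ : EM μ) (hnd : Nondeg μ) : FrA (An μ) (fun v => J μ (2 * v)) where
  mono := fun _ _ _ h0 h1 _ => An_mono h0 h1
  nonneg := fun _ _ h0 _ => An_nonneg h0
  sub := fun m n _ h0 h1 => An_add hμ h0 h1 m n
  Jconv := J2_convex hμ hnd
  Jcont := J2_cont hμ hnd
  J0 := by
    change J μ (2 * 0) = 0
    rw [mul_zero, J_zero hμ hnd]
  Jpos := fun v h0 h1 => J_pos hμ hnd (by linarith) (by linarith)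

omit [IsProbabilityMeasure μ] in
theorem vn_avs (n : ℕ) : vn μ n = avs (An μ) (fun v => J μ (2 * v)) n := rfl

omit [IsProbabilityMeasure μ] in
theorem Es_aEs (n : ℕ) : Es μ n = aEs (An μ) (fun v => J μ (2 * v)) n := rfl

omit [IsProbabilityMeasure μ] in
theorem Eb_aEb (n : ℕ) : Eb μ n = aEb (An μ) (fun v => J μ (2 * v)) n := rfl

omit [IsProbabilityMeasure μ] in
theorem vb_avb (n : ℕ) : vb μ n = avb (An μ) (fun v => J μ (2 * v)) n := rfl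

/-! ### Limits and doubling -/

theorem Eb_div_tendsto (hμ : EM μ) (hnd : Nondeg μ) : Tendsto (fun n : ℕ => Eb μ n / n) atTop (𝓝 0) :=
  (frA hμ hnd).Eb_div_tendsto (up hμ hnd)

theorem vb_tendsto (hμ : EM μ) (hnd : Nondeg μ) : Tendsto (vb μ) atTop (𝓝 0) :=
  (frA hμ hnd).vb_tendsto (up hμ hnd)

theorem vb_lt_quarter (hμ : EM μ) (hnd : Nondeg μ) : ∀ᶠ n : ℕ in atTop, vb μ n < 1 / 4 :=
  (frA hμ hnd).vb_lt_quarter (up hμ hnd)

theorem vb_pos (hμ : EM μ) (hnd : Nondeg μ) {n : ℕ} (h : vb μ n < 1 / 4) : 0 < vb μ n :=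
  (frA hμ hnd).vb_pos h

/-- `Eb (2 n) ≤ 3 Eb n` for all `n ≥ 2`. -/
theorem Eb_two3 (hμ : EM μ) (hnd : Nondeg μ) {n : ℕ} (hn : 2 ≤ n) : Eb μ (2 * n) ≤ 3 * Eb μ n :=
  (frA hμ hnd).Eb_two3 hn

/-- `Eb (2 n) ≤ 2 Eb n` for large `n`. -/
theorem Eb_two (hμ : EM μ) (hnd : Nondeg μ) : ∀ᶠ n : ℕ in atTop, Eb μ (2 * n) ≤ 2 * Eb μ n :=
  (frA hμ hnd).Eb_two (up hμ hnd)

/-- `vb (2 n) ≤ vb n` for large `n`. -/
theorem vb_two (hμ : EM μ) (hnd : Nondeg μ) : ∀ᶠ n : ℕ in atTop, vb μ (2 * n) ≤ vb μ n :=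
  (frA hμ hnd).vb_two (up hμ hnd)

/-- `vb n ≤ 2 vb (2 n)` (the width does not decrease by doubling). -/
theorem vb_half (hμ : EM μ) (hnd : Nondeg μ) (n : ℕ) : vb μ n ≤ 2 * vb μ (2 * n) :=
  (frA hμ hnd).wb_two n

theorem wb_two (hμ : EM μ) (hnd : Nondeg μ) (n : ℕ) : wb μ n ≤ wb μ (2 * n) := by
  unfold wb
  have h1 := vb_half hμ hnd n
  have h2 : (0 : ℝ) ≤ n := Nat.cast_nonneg n
  push_cast
  nlinarith

/-- The width at most doubles. -/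
theorem wb_two_le (hμ : EM μ) (hnd : Nondeg μ) : ∀ᶠ n : ℕ in atTop, wb μ (2 * n) ≤ 2 * wb μ n := by
  filter_upwards [vb_two hμ hnd] with n h1
  unfold wb
  have h2 : (0 : ℝ) ≤ n := Nat.cast_nonneg n
  push_cast
  nlinarith

/-! ### `(H1)` -/

omit [IsProbabilityMeasure μ] in
/-- The crude bound for the small times. -/
theorem An_le_max (n0 : ℕ) : ∃ C : ℝ, 1 ≤ C ∧ ∀ m ≤ n0, ∀ v : ℝ, 0 ≤ v → v ≤ 1 / 4 → An μ m v ≤ C := by
  refine ⟨1 + ∑ m ∈ Finset.range (n0 + 1), An μ m (1 / 4), ?_, fun m hm v h0 h1 => ?_⟩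
  · have : 0 ≤ ∑ m ∈ Finset.range (n0 + 1), An μ m (1 / 4) :=
      Finset.sum_nonneg fun m _ => An_nonneg (by norm_num)
    linarith
  · have h2 : An μ m v ≤ An μ m (1 / 4) := An_mono h0 h1
    have h3 : An μ m (1 / 4) ≤ ∑ m ∈ Finset.range (n0 + 1), An μ m (1 / 4) :=
      Finset.single_le_sum (f := fun m => An μ m (1 / 4)) (fun m _ => An_nonneg (by norm_num))
        (Finset.mem_range.2 (by omega))
    linarith

/-- `(H1)` for all times, with a constant. -/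
theorem H1C (hμ : EM μ) (hnd : Nondeg μ) : ∃ C : ℝ, 1 ≤ C ∧ ∀ m n : ℕ, m ≤ n →
    An μ m (vb μ n) ≤ C * Eb μ n := by
  obtain ⟨n0, hn0⟩ := vn_lt_quarter (μ := μ) hμ hnd
  obtain ⟨C, hC, h⟩ := An_le_max (μ := μ) n0
  refine ⟨C, hC, fun m n hmn => ?_⟩
  have hE := one_le_Eb (μ := μ) n
  rcases le_total n0 m with h1 | h1
  · have h2 := H1_aux hμ hnd hmn (hn0 m h1)
    nlinarith
  · have h2 := h m h1 _ (vb_nonneg hμ hnd n) (vb_le hμ hnd n)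
    nlinarith

/-- `(H1)`, if `Eb → ∞`. -/
theorem H1 (hμ : EM μ) (hnd : Nondeg μ) (hE : Tendsto (Eb μ) atTop atTop) :
    ∀ᶠ n : ℕ in atTop, ∀ m ≤ n, An μ m (vb μ n) ≤ Eb μ n := by
  obtain ⟨n0, hn0⟩ := vn_lt_quarter (μ := μ) hμ hnd
  obtain ⟨C, hC, h⟩ := An_le_max (μ := μ) n0
  filter_upwards [hE.eventually_ge_atTop C] with n hn m hmn
  rcases le_total n0 m with h1 | h1
  · exact H1_aux hμ hnd hmn (hn0 m h1)
  · exact (h m h1 _ (vb_nonneg hμ hnd n) (vb_le hμ hnd n)).trans hn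

/-- `(H1')`: times `m ≤ (k + 1) n` cost at most `k + 1` units in the cone of slope `vb n`. -/
theorem H1' (hμ : EM μ) (hnd : Nondeg μ) (hE : Tendsto (Eb μ) atTop atTop) :
    ∀ᶠ n : ℕ in atTop, ∀ k m : ℕ, m ≤ (k + 1) * n → An μ m (vb μ n) ≤ (k + 1) * Eb μ n := by
  filter_upwards [H1 hμ hnd hE] with n hn k m hm
  exact An_mul_le hμ (vb_nonneg hμ hnd n) (vb_le hμ hnd n) hn k m hm

/-- `(H1')` with a constant, all times. -/
theorem H1C' (hμ : EM μ) (hnd : Nondeg μ) : ∃ C : ℝ, 1 ≤ C ∧ ∀ k m n : ℕ, m ≤ (k + 1) * n →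
    An μ m (vb μ n) ≤ (k + 1) * (C * Eb μ n) := by
  obtain ⟨C, hC, h⟩ := H1C (μ := μ) hμ hnd
  exact ⟨C, hC, fun k m n hm => An_mul_le hμ (vb_nonneg hμ hnd n) (vb_le hμ hnd n)
    (fun m hm => h m n hm) k m hm⟩

omit [IsProbabilityMeasure μ] in
/-- `(H1)` in coordinates. -/
theorem ep_le_An {m : ℕ} {v : ℝ} {y : ℤ} (h0 : 0 ≤ y) (h1 : y ≤ m)
    (h2 : |(y : ℝ) - m / 2| ≤ v * m + 2) : ep μ m y ≤ An μ m v :=
  le_An (mem_Cn.2 ⟨h0, h1, h2⟩)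

/-! ### `(H2)` -/

/-- `(H2)`: displacements of slope `2 k vb n`, `k ≥ 1`, cost at least `k / 2` units. -/
theorem H2J (hμ : EM μ) (hnd : Nondeg μ) {n : ℕ} (h : vb μ n < 1 / 4) {k : ℝ} (hk : 1 ≤ k)
    (hk1 : k * vb μ n ≤ 1 / 4) : k * (Eb μ n / 2) ≤ n * J μ (2 * (k * vb μ n)) :=
  (frA hμ hnd).H2 h hk hk1

/-- `(H2)` in the tilted form. -/
theorem H2J' (hμ : EM μ) (hnd : Nondeg μ) {n : ℕ} (hn : 1 ≤ n) (h : vb μ n < 1 / 4)
    (hb : 0 < vb μ n) {v : ℝ} (h0 : 0 ≤ v) (hv : v ≤ 1 / 4) :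
    Eb μ n / (2 * vb μ n * n) * v - J μ (2 * v) ≤ Eb μ n / (2 * n) :=
  (frA hμ hnd).H2' hn h hb h0 hv

/-- `(H2)` for the mean costs: `e (k) ≥ (|y - n / 2| / (2 w)) Eb n / 2`, far displacements. -/
theorem H2e (hμ : EM μ) (hnd : Nondeg μ) {n : ℕ} (hn : 1 ≤ n) (h : vb μ n < 1 / 4) {y : ℤ}
    (h0 : 0 ≤ y) (h1 : y ≤ n) (hy : 2 * vb μ n * n ≤ |(y : ℝ) - n / 2|) :
    |(y : ℝ) - n / 2| / (2 * vb μ n * n) * (Eb μ n / 2) ≤ e μ 0 n y := by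
  have hn0 : (0 : ℝ) < n := by exact_mod_cast hn
  have hb := vb_pos hμ hnd h
  refine le_trans ?_ (nJ_le_e hμ hn h0 h1)
  set d : ℝ := |(y : ℝ) - n / 2| with hd
  have h2 : J μ ((y : ℝ) / n - 1 / 2) = J μ (d / n) := by
    have e1 : (y : ℝ) / n - 1 / 2 = ((y : ℝ) - n / 2) / n := by field_simp
    rw [e1, hd]
    rcases abs_cases ((y : ℝ) - n / 2) with ⟨h3, -⟩ | ⟨h3, -⟩
    · rw [h3]
    · rw [h3, neg_div, J_even]
  rw [h2]
  set k : ℝ := d / (2 * vb μ n * n) with hk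
  have hk1 : 1 ≤ k := by
    rw [hk, le_div_iff₀ (by positivity), one_mul]
    exact hy
  have hd2 : d ≤ n / 2 := by
    rw [hd, abs_le]
    have h3 : (0 : ℝ) ≤ y := by exact_mod_cast h0
    have h4 : (y : ℝ) ≤ n := by exact_mod_cast h1
    constructor <;> linarith
  have e2 : 2 * (k * vb μ n) = d / n := by
    rw [hk]
    field_simp
  have h5 : k * vb μ n ≤ 1 / 4 := by
    have : d / n ≤ 1 / 2 := by
      rw [div_le_iff₀ hn0]
      linarith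
    linarith
  have h6 := H2J hμ hnd h hk1 h5
  rw [e2] at h6
  exact h6

end Pool.Agent.W_7d29a1_G.HC
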