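import Pool.Agent.W_7d29a1_G.FrDefs

/-!
MP_7d29a1_pr, track G: comparison of the widths `vA μ 1 n`, `wA μ n` and of the units `EE μ n` at different scales. helper85
-/

namespace Pool.Agent.W_7d29a1_G

open MeasureTheory ProbabilityTheory Filter Topology Pool.Agent.W_7d29a1_F Pool.Agent.W_7d29a1_h4g

noncomputable section

variable {μ : Measure ℝ} [IsProbabilityMeasure μ]

theorem EE_pos' (n : ℕ) : 0 < EE μ n := lt_of_lt_of_le one_pos (one_le_EE n)

/-- `EE n ≤ 2 (n / m) EE m` for `1 ≤ m ≤ n`. -/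
theorem EE_ratio (hμ : Pool.Agent.W_7d29a1_h47.EM μ) {m n : ℕ} (hm : 1 ≤ m) (h : m ≤ n) :
    m * EE μ n ≤ 2 * n * EE μ m := by
  obtain ⟨k, hk⟩ : ∃ k : ℕ, k = n / m + 1 := ⟨_, rfl⟩
  have h1 : n ≤ k * m := by
    rw [hk, add_mul, one_mul]
    have := Nat.div_add_mod n m
    have h3 := Nat.mod_lt n (show 0 < m by omega)
    nlinarith [mul_comm m (n / m)]
  have h2 : k * m ≤ 2 * n := by
    rw [hk, add_mul, one_mul]
    have := Nat.div_mul_le_self n m
    omega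
  have h3 : EE μ n ≤ k * EE μ m := (EE_mono h1).trans (EE_mul hμ k m (by rw [hk]; exact Nat.le_add_left 1 _))
  have h4 : (k : ℝ) * m ≤ 2 * n := by exact_mod_cast h2
  have hm0 : (0 : ℝ) ≤ m := Nat.cast_nonneg m
  have hE := EE_pos' (μ := μ) m
  calc m * EE μ n ≤ m * (k * EE μ m) := mul_le_mul_of_nonneg_left h3 hm0
    _ = (k * m) * EE μ m := by ring
    _ ≤ 2 * n * EE μ m := mul_le_mul_of_nonneg_right h4 hE.le

/-- `J (θ v) ≤ θ J v` for `0 ≤ θ ≤ 1`. -/
theorem J_shrink (hμ : Pool.Agent.W_7d29a1_h47.EM μ) {v θ : ℝ} (hv : 0 ≤ v) (hv1 : v ≤ 1 / 2) (h0 : 0 ≤ θ)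
    (h1 : θ ≤ 1) : J μ (θ * v) ≤ θ * J μ v := by
  rcases h0.eq_or_lt with h | h
  · rw [← h, zero_mul, zero_mul, J_zero hμ]
  · have h2 := J_mul hμ (v := θ * v) (t := 1 / θ) (by positivity) (by rwa [one_le_div h])
      (by rw [← mul_assoc, one_div, inv_mul_cancel₀ h.ne', one_mul]; exact hv1)
    rw [← mul_assoc, one_div, inv_mul_cancel₀ h.ne', one_mul] at h2
    rw [inv_mul_le_iff₀ h] at h2
    exact h2

theorem vA_le_two85 (hμ : Pool.Agent.W_7d29a1_h47.EM μ) {m n : ℕ} (hm : 1 ≤ m) (h : m ≤ n) :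
    vA μ 1 n ≤ 2 * vA μ 1 m := by
  have hv0 := vA_nonneg (μ := μ) hμ (A := 1) zero_le_one n
  have hv1 := vA_le (μ := μ) hμ (A := 1) zero_le_one n
  have hn0 : (0 : ℝ) < n := by exact_mod_cast (show 0 < n by omega)
  have hm0 : (0 : ℝ) < m := by exact_mod_cast (show 0 < m by omega)
  have h1 : vA μ 1 n / 2 ≤ vA μ 1 m := by
    refine le_vA (by linarith) (by linarith) ?_
    have h2 := J_shrink hμ hv0 hv1 (θ := 1 / 2) (by norm_num) (by norm_num)
    have h3 := vA_mem (μ := μ) hμ (A := 1) zero_le_one n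
    have h4 := EE_ratio hμ hm h
    have e1 : vA μ 1 n / 2 = 1 / 2 * vA μ 1 n := by ring
    rw [e1]
    have h5 : (m : ℝ) * J μ (1 / 2 * vA μ 1 n) ≤ m * (1 / 2 * J μ (vA μ 1 n)) := mul_le_mul_of_nonneg_left h2 hm0.le
    refine h5.trans ?_
    have h6 : (m : ℝ) * (n * J μ (vA μ 1 n)) ≤ m * (1 * EE μ n) := mul_le_mul_of_nonneg_left h3 hm0.le
    have h7 : (n : ℝ) * (m * (1 / 2 * J μ (vA μ 1 n))) ≤ n * (1 * EE μ m) := by nlinarith
    exact le_of_mul_le_mul_left h7 hn0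
  linarith

theorem wA_nonneg (hμ : Pool.Agent.W_7d29a1_h47.EM μ) (n : ℕ) : 0 ≤ wA μ n :=
  mul_nonneg (vA_nonneg hμ zero_le_one n) (Nat.cast_nonneg n)

theorem wA_pos (hμ : Pool.Agent.W_7d29a1_h47.EM μ) {n : ℕ} (hn : 1 ≤ n) : 0 < wA μ n :=
  mul_pos (vA_pos hμ one_pos n) (by exact_mod_cast (show 0 < n by omega))

theorem wA_mono (hμ : Pool.Agent.W_7d29a1_h47.EM μ) {m n : ℕ} (h : m ≤ n) : wA μ m ≤ wA μ n := by
  rcases Nat.eq_zero_or_pos m with h0 | h0
  · subst h0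
    have : wA μ 0 = 0 := by unfold wA; simp
    rw [this]
    exact wA_nonneg hμ n
  · have hn0 : (0 : ℝ) < n := by exact_mod_cast (show 0 < n by omega)
    have hm0 : (0 : ℝ) < m := by exact_mod_cast h0
    have hmn : (m : ℝ) ≤ n := by exact_mod_cast h
    have hv0 := vA_nonneg (μ := μ) hμ (A := 1) zero_le_one m
    have hv1 := vA_le (μ := μ) hμ (A := 1) zero_le_one m
    have hθ1 : (m : ℝ) / n ≤ 1 := by rwa [div_le_one hn0]
    have hθ0 : 0 ≤ (m : ℝ) / n := by positivity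
    have h1 : (m : ℝ) / n * vA μ 1 m ≤ vA μ 1 n := by
      refine le_vA (by positivity) ?_ ?_
      · have := mul_le_mul_of_nonneg_right hθ1 hv0
        linarith
      · have h2 := J_shrink hμ hv0 hv1 hθ0 hθ1
        have h3 := vA_mem (μ := μ) hμ (A := 1) zero_le_one m
        have h4 := EE_mono (μ := μ) h
        calc (n : ℝ) * J μ (m / n * vA μ 1 m) ≤ n * (m / n * J μ (vA μ 1 m)) :=
              mul_le_mul_of_nonneg_left h2 hn0.le
          _ = m * J μ (vA μ 1 m) := by field_simp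
          _ ≤ 1 * EE μ m := h3
          _ ≤ 1 * EE μ n := by linarith
    unfold wA
    have h5 := mul_le_mul_of_nonneg_right h1 hn0.le
    have e1 : (m : ℝ) / n * vA μ 1 m * n = vA μ 1 m * m := by field_simp
    rwa [e1] at h5

theorem wA_mul_le (hμ : Pool.Agent.W_7d29a1_h47.EM μ) {k n : ℕ} (hk : 1 ≤ k) (hn : 1 ≤ n) :
    wA μ (k * n) ≤ 2 * k * wA μ n := by
  have h1 := vA_le_two85 hμ hn (show n ≤ k * n by nlinarith)
  have h2 : (0 : ℝ) ≤ ((k * n : ℕ) : ℝ) := Nat.cast_nonneg _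
  unfold wA
  have h3 := mul_le_mul_of_nonneg_right h1 h2
  push_cast at h3 ⊢
  linarith

/-- The width tends to infinity. -/
theorem wA_tendsto (hμ : Pool.Agent.W_7d29a1_h47.EM μ) (hnd : Pool.Agent.W_7d29a1_h47.Nondeg μ) :
    Tendsto (wA μ) atTop atTop := by
  obtain ⟨c, a, hc, ha, hJ⟩ := J_le_pow hμ hnd
  have hv := vA_tendsto (μ := μ) hμ hnd (A := 1) zero_le_one
  rw [tendsto_atTop]
  intro B
  obtain ⟨B', hB'⟩ : ∃ B' : ℝ, B' = max B 1 := ⟨_, rfl⟩
  have hB1 : 1 ≤ B' := hB' ▸ le_max_right _ _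
  have hBB : B ≤ B' := hB' ▸ le_max_left _ _
  -- small enough slopes
  have h1 : ∀ᶠ n : ℕ in atTop, vA μ 1 n < min a (c * (1 / B') ^ (99 : ℝ)) :=
    hv.eventually (eventually_lt_nhds (lt_min ha (by positivity)))
  filter_upwards [h1, vA_eq hμ hnd (A := 1) zero_le_one, eventually_ge_atTop 1] with n h2 h3 hn
  have hp := vA_pos (μ := μ) hμ (A := 1) one_pos n
  have h4 := hJ (vA μ 1 n) hp (h2.le.trans (min_le_left _ _))
  have h5 : (vA μ 1 n / c) ^ (1 / 99 : ℝ) ≤ 1 / B' := by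
    have h6 : vA μ 1 n / c ≤ (1 / B') ^ (99 : ℝ) := by
      rw [div_le_iff₀ hc]
      have := h2.le.trans (min_le_right _ _)
      linarith [mul_comm c ((1 / B') ^ (99 : ℝ))]
    have h7 := Real.rpow_le_rpow (by positivity) h6 (show (0 : ℝ) ≤ 1 / 99 by norm_num)
    rw [← Real.rpow_mul (by positivity)] at h7
    norm_num at h7 ⊢
    exact h7
  have hn0 : (0 : ℝ) < n := by exact_mod_cast (show 0 < n by omega)
  have hE := one_le_EE (μ := μ) n
  have h8 : 1 ≤ wA μ n * (1 / B') := by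
    calc (1 : ℝ) ≤ n * J μ (vA μ 1 n) := by rw [h3]; linarith
      _ ≤ n * (vA μ 1 n * (vA μ 1 n / c) ^ (1 / 99 : ℝ)) := mul_le_mul_of_nonneg_left h4 hn0.le
      _ ≤ n * (vA μ 1 n * (1 / B')) :=
        mul_le_mul_of_nonneg_left (mul_le_mul_of_nonneg_left h5 hp.le) hn0.le
      _ = wA μ n * (1 / B') := by unfold wA; ring
  have h9 : B' ≤ wA μ n := by
    rw [mul_one_div, le_div_iff₀ (by linarith), one_mul] at h8
    exact h8
  exact hBB.trans h9

/-- A width with cheap displacements is at most a constant times the natural width. -/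
theorem w_le_wA (hμ : Pool.Agent.W_7d29a1_h47.EM μ) (hnd : Pool.Agent.W_7d29a1_h47.Nondeg μ) (A : ℝ) :
    ∃ (C : ℝ) (n₀ : ℕ), 1 ≤ C ∧ 1 ≤ n₀ ∧ ∀ n w : ℕ, n₀ ≤ n → 1 ≤ w → w ≤ n →
      (∀ y : ℤ, |(y : ℝ) - 2 * n| < w → e μ 0 (4 * n) y ≤ A * EE μ n) → (w : ℝ) ≤ C * wA μ n := by
  obtain ⟨B, hB⟩ : ∃ B : ℝ, B = max A 1 := ⟨_, rfl⟩
  have hB1 : 1 ≤ B := hB ▸ le_max_right _ _
  have hAB : A ≤ B := hB ▸ le_max_left _ _
  obtain ⟨n₁, hn₁⟩ := eventually_atTop.1 ((wA_tendsto (μ := μ) hμ hnd).eventually_ge_atTop 1)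
  refine ⟨4 * B + 1, max n₁ 1, by linarith, le_max_right _ _, fun n w hn hw hwn h => ?_⟩
  have hn1 : 1 ≤ n := (le_max_right _ _).trans hn
  have hn0 : (0 : ℝ) < n := by exact_mod_cast (show 0 < n by omega)
  have hw0 : (1 : ℝ) ≤ w := by exact_mod_cast hw
  have hwn' : (w : ℝ) ≤ n := by exact_mod_cast hwn
  have h1 := h (2 * n + (w - 1)) (by
    push_cast
    have e1 : 2 * (n : ℝ) + ((w : ℝ) - 1) - 2 * n = (w : ℝ) - 1 := by ring
    rw [e1, abs_of_nonneg (by linarith)]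
    linarith)
  have h2 := J_le_e hμ (n := 4 * n) (y := 2 * n + (w - 1)) (by omega) (by omega) (by push_cast; omega)
  obtain ⟨u, hu⟩ : ∃ u : ℝ, u = ((w : ℝ) - 1) / (4 * n) := ⟨_, rfl⟩
  have e2 : (((2 * n + (w - 1) : ℤ) : ℝ) - ((4 * n : ℕ) : ℝ) / 2) / ((4 * n : ℕ) : ℝ) = u := by
    rw [hu]
    push_cast
    congr 1
    ring
  rw [e2] at h2
  have hu0 : 0 ≤ u := by rw [hu]; exact div_nonneg (by linarith) (by linarith)
  have hu1 : u ≤ 1 / 2 := by
    rw [hu, div_le_iff₀ (by linarith)]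
    linarith
  have hJ := J_shrink hμ hu0 hu1 (θ := 1 / B) (by positivity) (by rw [div_le_one (by linarith)]; exact hB1)
  have hE := one_le_EE (μ := μ) n
  have h3 : 1 / B * u ≤ vA μ 1 n := by
    refine le_vA (by positivity) ?_ ?_
    · have : 1 / B ≤ 1 := by rw [div_le_one (by linarith)]; exact hB1
      have := mul_le_mul_of_nonneg_right this hu0
      linarith
    · have h4 : (4 * n : ℝ) * J μ u ≤ B * EE μ n := by
        have h5 := h2.trans h1
        push_cast at h5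
        have h6 := mul_le_mul_of_nonneg_right hAB (show 0 ≤ EE μ n by linarith)
        linarith
      have h7 : (n : ℝ) * J μ (1 / B * u) ≤ n * (1 / B * J μ u) := mul_le_mul_of_nonneg_left hJ hn0.le
      refine h7.trans ?_
      have h8 : (n : ℝ) * J μ u ≤ B * EE μ n := by
        have : 0 ≤ (n : ℝ) * J μ u := mul_nonneg hn0.le (J_nonneg hμ (by rw [abs_of_nonneg hu0]; exact hu1))
        linarith
      calc (n : ℝ) * (1 / B * J μ u) = 1 / B * (n * J μ u) := by ring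
        _ ≤ 1 / B * (B * EE μ n) := mul_le_mul_of_nonneg_left h8 (by positivity)
        _ = 1 * EE μ n := by field_simp
  have h9 : (w : ℝ) - 1 ≤ 4 * B * wA μ n := by
    have h10 := mul_le_mul_of_nonneg_right h3 (show (0 : ℝ) ≤ 4 * B * n by positivity)
    have e3 : 1 / B * u * (4 * B * n) = (w : ℝ) - 1 := by
      rw [hu]
      field_simp
    rw [e3] at h10
    unfold wA
    linarith
  have h11 := hn₁ n ((le_max_left _ _).trans hn)
  linarith

end

end Pool.Agent.W_7d29a1_G
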